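import Mathlib

/-!
TEAM Q2 (helper385): products of primitive Dirichlet characters of coprime levels, and the Jacobi
character of an odd squarefree modulus.
-/

open DirichletCharacter

namespace H385

/-- product of two characters, level `m * n` -/
noncomputable def pm {m n : ℕ} (χ : DirichletCharacter ℂ m) (ψ : DirichletCharacter ℂ n) :
    DirichletCharacter ℂ (m * n) :=
  changeLevel (Nat.dvd_mul_right m n) χ * changeLevel (Nat.dvd_mul_left n m) ψ

theorem pm_apply {m n : ℕ} (χ : DirichletCharacter ℂ m) (ψ : DirichletCharacter ℂ n) (a : ℕ) :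
    pm χ ψ (a : ZMod (m * n)) = χ (a : ZMod m) * ψ (a : ZMod n) := by
  have e0 : ((a : ℕ) : ZMod (m * n)) = ((a : ℤ) : ZMod (m * n)) := by push_cast; rfl
  have e1 : ((a : ℕ) : ZMod m) = ((a : ℤ) : ZMod m) := by push_cast; rfl
  have e2 : ((a : ℕ) : ZMod n) = ((a : ℤ) : ZMod n) := by push_cast; rfl
  rw [e0, e1, e2]
  by_cases h : IsCoprime (a : ℤ) ((m * n : ℕ) : ℤ)
  · unfold pm
    rw [MulChar.mul_apply, changeLevel_eq_cast_of_dvd' χ _ h, changeLevel_eq_cast_of_dvd' ψ _ h]
  · rw [(apply_eq_zero_iff (pm χ ψ) (a : ℤ)).mpr h]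
    by_cases h1 : IsCoprime (a : ℤ) (m : ℤ)
    · have h2 : ¬ IsCoprime (a : ℤ) (n : ℤ) := by
        intro h2
        apply h
        push_cast
        exact h1.mul_right h2
      rw [(apply_eq_zero_iff ψ (a : ℤ)).mpr h2, mul_zero]
    · rw [(apply_eq_zero_iff χ (a : ℤ)).mpr h1, zero_mul]

theorem pm_primitive {m n : ℕ} [NeZero m] [NeZero n] (hmn : Nat.Coprime m n)
    {χ : DirichletCharacter ℂ m} {ψ : DirichletCharacter ℂ n} (hχ : χ.IsPrimitive)
    (hψ : ψ.IsPrimitive) : (pm χ ψ).IsPrimitive := by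
  have hmn0 : NeZero (m * n) := ⟨Nat.mul_ne_zero (NeZero.ne m) (NeZero.ne n)⟩
  set χ' := changeLevel (Nat.dvd_mul_right m n) χ with hχ'
  set ψ' := changeLevel (Nat.dvd_mul_left n m) ψ with hψ'
  have c1 : χ'.conductor = m := by
    rw [hχ', conductor_changeLevel]; exact hχ
  have c2 : ψ'.conductor = n := by
    rw [hψ', conductor_changeLevel]; exact hψ
  have hp : pm χ ψ = χ' * ψ' := rfl
  have d1 : m ∣ (pm χ ψ).conductor.lcm n := by
    have h := conductor_mul_dvd_lcm_conductor (pm χ ψ) ψ'⁻¹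
    rw [conductor_inv, c2, hp, mul_assoc, mul_inv_cancel, mul_one, c1] at h
    rw [hp]; exact h
  have d2 : n ∣ (pm χ ψ).conductor.lcm m := by
    have h := conductor_mul_dvd_lcm_conductor (pm χ ψ) χ'⁻¹
    rw [conductor_inv, c1, hp, mul_comm χ' ψ', mul_assoc, mul_inv_cancel, mul_one, c2] at h
    rw [hp, mul_comm χ' ψ']; exact h
  have e1 : m ∣ (pm χ ψ).conductor := by
    have : m ∣ (pm χ ψ).conductor * n := d1.trans (Nat.lcm_dvd_mul _ _)
    exact hmn.dvd_of_dvd_mul_right this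
  have e2 : n ∣ (pm χ ψ).conductor := by
    have : n ∣ (pm χ ψ).conductor * m := d2.trans (Nat.lcm_dvd_mul _ _)
    exact hmn.symm.dvd_of_dvd_mul_right this
  have e3 : m * n ∣ (pm χ ψ).conductor := Nat.Coprime.mul_dvd_of_dvd_of_dvd hmn e1 e2
  exact Nat.dvd_antisymm (conductor_dvd_level _) e3

theorem prime_quad (p : ℕ) (hp : p.Prime) (h2 : p ≠ 2) : ∃ ψ : DirichletCharacter ℂ p,
    ψ.IsPrimitive ∧ ∀ n : ℕ, ψ (n : ZMod p) = (jacobiSym n p : ℂ) := by
  have : Fact p.Prime := ⟨hp⟩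
  refine ⟨(quadraticChar (ZMod p)).ringHomComp (Int.castRingHom ℂ), ?_, ?_⟩
  · have hne : (quadraticChar (ZMod p)).ringHomComp (Int.castRingHom ℂ) ≠ 1 := by
      have h1 : quadraticChar (ZMod p) ≠ 1 := by
        apply quadraticChar_ne_one
        rw [ZMod.ringChar_zmod_n]
        exact h2
      exact (MulChar.ringHomComp_ne_one_iff (RingHom.injective_int _)).mpr h1
    rcases (Nat.dvd_prime hp).mp (conductor_dvd_level
      ((quadraticChar (ZMod p)).ringHomComp (Int.castRingHom ℂ))) with h | h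
    · exact absurd (eq_one_iff_conductor_eq_one.mpr h) hne
    · exact h
  · intro n
    rw [MulChar.ringHomComp_apply, ← jacobiSym.legendreSym.to_jacobiSym]
    unfold legendreSym
    push_cast
    rfl

theorem jac_char (D : ℕ) (hD : Odd D) (hsf : Squarefree D) : ∃ ψ : DirichletCharacter ℂ D,
    ψ.IsPrimitive ∧ ∀ n : ℕ, ψ (n : ZMod D) = (jacobiSym n D : ℂ) := by
  induction D using induction_on_primes with
  | zero => exact absurd hD (by decide)
  | one =>
    refine ⟨1, isPrimitive_one_level_one, fun n => ?_⟩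
    rw [jacobiSym.one_right]
    have : IsUnit ((n : ℕ) : ZMod 1) := isUnit_of_subsingleton _
    rw [MulChar.one_apply this]
    simp
  | prime_mul p D hp ih =>
    have hp2 : p ≠ 2 := by
      rintro rfl
      rw [Nat.odd_mul] at hD
      exact absurd hD.1 (by decide)
    rw [Nat.odd_mul] at hD
    have hD0 : D ≠ 0 := by
      rintro rfl
      exact absurd hD.2 (by decide)
    have hcop : Nat.Coprime p D := Nat.coprime_of_squarefree_mul hsf
    have hp0 : NeZero p := ⟨hp.ne_zero⟩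
    have hD0' : NeZero D := ⟨hD0⟩
    obtain ⟨ψ1, h1, h1'⟩ := prime_quad p hp hp2
    obtain ⟨ψ2, h2, h2'⟩ := ih hD.2 (hsf.squarefree_of_dvd (Dvd.intro_left p rfl))
    refine ⟨pm ψ1 ψ2, pm_primitive hcop h1 h2, fun n => ?_⟩
    rw [pm_apply, h1', h2', jacobiSym.mul_right]
    push_cast
    rfl

end H385
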