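import Pool.Agent.H304R2.EC.Defs

/-!
TEAM Q2 (helper385): number of points of `E_D : y² = x³ - D² x` modulo `p`.
-/

open Finset

namespace H385

/-- `p` minus the number of affine points of `y² = x³ - D² x` over `ZMod p` -/
noncomputable def aD (D p : ℕ) : ℤ :=
  (p : ℤ) - (((Finset.range p ×ˢ Finset.range p).filter
    (fun xy : ℕ × ℕ => (p : ℤ) ∣ (xy.2 : ℤ) ^ 2 -
      ((xy.1 : ℤ) ^ 3 - (D : ℤ) ^ 2 * (xy.1 : ℤ)))).card : ℤ)

theorem aD_one (p : ℕ) : aD 1 p = Pool.Agent.H304R2.EC.aE p := by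
  unfold aD Pool.Agent.H304R2.EC.aE
  simp

theorem aD_char (D p : ℕ) [Fact p.Prime] (h2 : p ≠ 2) :
    aD D p = - ∑ x : ZMod p, quadraticChar (ZMod p) (x ^ 3 - (D : ZMod p) ^ 2 * x) := by
  have hp : p.Prime := Fact.out
  have hc : ringChar (ZMod p) ≠ 2 := by rw [ZMod.ringChar_zmod_n]; exact h2
  have h1 : ((Finset.range p ×ˢ Finset.range p).filter
    (fun xy : ℕ × ℕ => (p : ℤ) ∣ (xy.2 : ℤ) ^ 2 -
      ((xy.1 : ℤ) ^ 3 - (D : ℤ) ^ 2 * (xy.1 : ℤ)))).card =
      ((Finset.univ : Finset (ZMod p × ZMod p)).filter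
        (fun z => z.2 ^ 2 = z.1 ^ 3 - (D : ZMod p) ^ 2 * z.1)).card := by
    refine Finset.card_nbij' (fun xy => ((xy.1 : ZMod p), (xy.2 : ZMod p)))
      (fun z => (z.1.val, z.2.val)) ?_ ?_ ?_ ?_
    · intro xy hxy
      simp only [Finset.coe_filter, Finset.mem_product, Finset.mem_range, Set.mem_setOf_eq,
        Finset.mem_univ, true_and] at hxy ⊢
      have := (ZMod.intCast_zmod_eq_zero_iff_dvd _ p).mpr hxy.2
      push_cast at this
      exact sub_eq_zero.mp this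
    · intro z hz
      simp only [Finset.coe_filter, Finset.mem_product, Finset.mem_range, Set.mem_setOf_eq,
        Finset.mem_univ, true_and] at hz ⊢
      refine ⟨⟨ZMod.val_lt _, ZMod.val_lt _⟩, ?_⟩
      rw [← ZMod.intCast_zmod_eq_zero_iff_dvd]
      push_cast
      rw [ZMod.natCast_zmod_val, ZMod.natCast_zmod_val, hz, sub_self]
    · intro xy hxy
      simp only [Finset.coe_filter, Finset.mem_product, Finset.mem_range, Set.mem_setOf_eq]
        at hxy
      simp only [ZMod.val_cast_of_lt hxy.1.1, ZMod.val_cast_of_lt hxy.1.2]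
    · intro z _
      simp only [ZMod.natCast_zmod_val]
  have h3 : ((Finset.univ : Finset (ZMod p × ZMod p)).filter
        (fun z => z.2 ^ 2 = z.1 ^ 3 - (D : ZMod p) ^ 2 * z.1)).card =
      ∑ x : ZMod p, ((Finset.univ : Finset (ZMod p)).filter
        (fun y => y ^ 2 = x ^ 3 - (D : ZMod p) ^ 2 * x)).card := by
    simp only [Finset.card_filter]
    rw [← Finset.univ_product_univ, Finset.sum_product]
  have h4 : ∀ a : ZMod p, (((Finset.univ : Finset (ZMod p)).filter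
        (fun y => y ^ 2 = a)).card : ℤ) = quadraticChar (ZMod p) a + 1 := by
    intro a
    rw [← quadraticChar_card_sqrts hc a]
    congr 2
    ext y
    simp
  unfold aD
  rw [h1, h3]
  push_cast
  simp only [h4]
  rw [Finset.sum_add_distrib]
  simp [ZMod.card]

theorem aD_twist (D p : ℕ) [Fact p.Prime] (h2 : p ≠ 2) (hD : ¬ p ∣ D) :
    aD D p = quadraticChar (ZMod p) (D : ZMod p) * aD 1 p := by
  rw [aD_char D p h2, aD_char 1 p h2]
  have hD0 : (D : ZMod p) ≠ 0 := by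
    rw [Ne, ZMod.natCast_eq_zero_iff]
    exact hD
  have h1 : ∑ x : ZMod p, quadraticChar (ZMod p) (x ^ 3 - (D : ZMod p) ^ 2 * x) =
      ∑ x : ZMod p, quadraticChar (ZMod p) (((D : ZMod p) * x) ^ 3 -
        (D : ZMod p) ^ 2 * ((D : ZMod p) * x)) :=
    (Fintype.sum_equiv (Equiv.mulLeft₀ (D : ZMod p) hD0)
      (fun x => quadraticChar (ZMod p) (((D : ZMod p) * x) ^ 3 -
        (D : ZMod p) ^ 2 * ((D : ZMod p) * x)))
      (fun x => quadraticChar (ZMod p) (x ^ 3 - (D : ZMod p) ^ 2 * x)) (fun x => rfl)).symm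
  rw [h1, mul_neg, Finset.mul_sum]
  congr 1
  refine Finset.sum_congr rfl (fun x _ => ?_)
  have h3 : ((D : ZMod p) * x) ^ 3 - (D : ZMod p) ^ 2 * ((D : ZMod p) * x) =
      (D : ZMod p) ^ 2 * ((D : ZMod p) * (x ^ 3 - ((1 : ℕ) : ZMod p) ^ 2 * x)) := by
    push_cast; ring
  rw [h3, map_mul, map_mul, map_pow, quadraticChar_sq_one hD0, one_mul]

theorem aD_one_three (p : ℕ) [Fact p.Prime] (h3 : p % 4 = 3) : aD 1 p = 0 := by
  have h2 : p ≠ 2 := by rintro rfl; omega
  rw [aD_char 1 p h2]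
  have hneg : quadraticChar (ZMod p) (-1) = -1 := by
    rw [quadraticChar_neg_one (by rw [ZMod.ringChar_zmod_n]; exact h2), ZMod.card]
    exact ZMod.χ₄_nat_three_mod_four h3
  have h1 : ∑ x : ZMod p, quadraticChar (ZMod p) (x ^ 3 - ((1 : ℕ) : ZMod p) ^ 2 * x) =
      - ∑ x : ZMod p, quadraticChar (ZMod p) (x ^ 3 - ((1 : ℕ) : ZMod p) ^ 2 * x) := by
    conv_lhs => rw [← Equiv.sum_comp (Equiv.neg (ZMod p))]
    rw [← Finset.sum_neg_distrib]
    refine Finset.sum_congr rfl (fun x _ => ?_)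
    have h4 : (Equiv.neg (ZMod p) x) ^ 3 - ((1 : ℕ) : ZMod p) ^ 2 * (Equiv.neg (ZMod p) x) =
        (-1) * (x ^ 3 - ((1 : ℕ) : ZMod p) ^ 2 * x) := by
      simp only [Equiv.neg_apply]
      ring
    rw [h4, map_mul, hneg]
    ring
  have : ∑ x : ZMod p, quadraticChar (ZMod p) (x ^ 3 - ((1 : ℕ) : ZMod p) ^ 2 * x) = 0 := by
    linarith
  rw [this, neg_zero]

/-- the coefficient of the twisted curve -/
theorem aD_jac (D p : ℕ) (hD : Odd D) (hp : p.Prime) (h2 : p ≠ 2) (hpD : ¬ p ∣ D) :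
    aD D p = jacobiSym p D * Pool.Agent.H304R2.EC.aE p := by
  have : Fact p.Prime := ⟨hp⟩
  rw [aD_twist D p h2 hpD, ← aD_one]
  rcases hp.eq_two_or_odd with h | hodd
  · exact absurd h h2
  have hodd' : Odd p := Nat.odd_iff.mpr hodd
  rcases (show p % 4 = 1 ∨ p % 4 = 3 by omega) with h4 | h4
  · have h5 : quadraticChar (ZMod p) (D : ZMod p) = jacobiSym D p := by
      rw [← jacobiSym.legendreSym.to_jacobiSym]
      unfold legendreSym
      push_cast
      rfl
    rw [h5, jacobiSym.quadratic_reciprocity_one_mod_four' hD h4]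
  · rw [aD_one_three p h4, mul_zero, mul_zero]

end H385
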