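import Pool.Agent.H385R2.Defs

/-!
TEAM Q, module Q11b: zeros in the open strip of an imprimitive Dirichlet L-function are those of
the primitive one, with the same multiplicities.
-/

open Complex Filter Topology Set MeasureTheory
open H370 (zset mult NN Nd Ns)

namespace H385

/-- the finite Euler product by which `L(s,χ)` and `L(s,χ*)` differ -/
noncomputable def EP (q : ℕ) (χ : DirichletCharacter ℂ q) (s : ℂ) : ℂ :=
  ∏ p ∈ q.primeFactors, (1 - χ.primitiveCharacter (p : ZMod χ.conductor) * (p : ℂ) ^ (-s))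

theorem LF_eq_mul (q : ℕ) (hq : 0 < q) (χ : DirichletCharacter ℂ q) {s : ℂ} (hs : s ≠ 1) :
    LF q χ s = LF χ.conductor χ.primitiveCharacter s * EP q χ s := by
  have : NeZero q := ⟨hq.ne'⟩
  have hc : χ.conductor ≠ 0 := χ.conductor_ne_zero
  have : NeZero χ.conductor := ⟨hc⟩
  unfold LF EP
  rw [dif_neg hq.ne', dif_neg hc]
  have := DirichletCharacter.LFunction_changeLevel χ.conductor_dvd_level χ.primitiveCharacter
    (s := s) (Or.inr hs)
  rw [DirichletCharacter.changeLevel_primitiveCharacter] at this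
  exact this

theorem EP_ne_zero (q : ℕ) (χ : DirichletCharacter ℂ q) {s : ℂ} (hs : 0 < s.re) :
    EP q χ s ≠ 0 := by
  unfold EP
  rw [Finset.prod_ne_zero_iff]
  intro p hp h
  have hp' : p.Prime := Nat.prime_of_mem_primeFactors hp
  have h1 : ‖χ.primitiveCharacter (p : ZMod χ.conductor) * (p : ℂ) ^ (-s)‖ < 1 := by
    rw [norm_mul, Complex.norm_natCast_cpow_of_pos hp'.pos]
    have h2 : ‖χ.primitiveCharacter (p : ZMod χ.conductor)‖ ≤ 1 := DirichletCharacter.norm_le_one _ _
    have h3 : (p : ℝ) ^ (-s).re < 1 := by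
      rw [neg_re]
      exact Real.rpow_lt_one_of_one_lt_of_neg (by exact_mod_cast hp'.one_lt) (by linarith)
    have h4 : 0 ≤ (p : ℝ) ^ (-s).re := by positivity
    nlinarith
  rw [sub_eq_zero] at h
  rw [← h] at h1
  simp at h1

theorem EP_analyticAt (q : ℕ) (χ : DirichletCharacter ℂ q) (s : ℂ) :
    AnalyticAt ℂ (EP q χ) s := by
  unfold EP
  have h : Differentiable ℂ (fun s : ℂ => ∏ p ∈ q.primeFactors,
      (1 - χ.primitiveCharacter (p : ZMod χ.conductor) * (p : ℂ) ^ (-s))) := by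
    refine Differentiable.fun_finsetProd (fun p hp => ?_)
    have hp' : (p : ℂ) ≠ 0 := by exact_mod_cast (Nat.prime_of_mem_primeFactors hp).ne_zero
    refine (differentiable_const _).sub ((differentiable_const _).mul ?_)
    exact (differentiable_id.neg).const_cpow (Or.inl hp')
  exact h.analyticAt s

theorem LF_analyticAt (q : ℕ) (χ : DirichletCharacter ℂ q) {s : ℂ} (hs : s ≠ 1) :
    AnalyticAt ℂ (LF q χ) s := by
  unfold LF
  split_ifs with h
  · exact analyticAt_const
  · have : NeZero q := ⟨h⟩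
    have h2 : DifferentiableOn ℂ (DirichletCharacter.LFunction χ) {1}ᶜ := fun z hz =>
      (DirichletCharacter.differentiableAt_LFunction χ z (Or.inl hz)).differentiableWithinAt
    exact h2.analyticAt (isOpen_compl_singleton.mem_nhds hs)

theorem LF_order_eq (q : ℕ) (hq : 0 < q) (χ : DirichletCharacter ℂ q) {s : ℂ} (hs : s ≠ 1)
    (hs0 : 0 < s.re) :
    analyticOrderAt (LF q χ) s = analyticOrderAt (LF χ.conductor χ.primitiveCharacter) s := by
  have h1 : LF q χ =ᶠ[𝓝 s] (LF χ.conductor χ.primitiveCharacter) * (EP q χ) := by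
    filter_upwards [isOpen_compl_singleton.mem_nhds hs] with z hz
    exact LF_eq_mul q hq χ hz
  rw [analyticOrderAt_congr h1, analyticOrderAt_mul (LF_analyticAt _ _ hs) (EP_analyticAt q χ s)]
  rw [(EP_analyticAt q χ s).analyticOrderAt_eq_zero.mpr (EP_ne_zero q χ hs0), add_zero]

theorem LF_mult_eq (q : ℕ) (hq : 0 < q) (χ : DirichletCharacter ℂ q) {s : ℂ} (hs : s ≠ 1)
    (hs0 : 0 < s.re) :
    mult (LF q χ) s = mult (LF χ.conductor χ.primitiveCharacter) s := by
  unfold mult analyticOrderNatAt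
  rw [LF_order_eq q hq χ hs hs0]

theorem LF_zset_eq (q : ℕ) (hq : 0 < q) (χ : DirichletCharacter ℂ q) (T1 T2 : ℝ) (h : 0 ≤ T1) :
    zset (LF q χ) T1 T2 = zset (LF χ.conductor χ.primitiveCharacter) T1 T2 := by
  ext s
  unfold zset
  simp only [Set.mem_setOf_eq]
  constructor
  · rintro ⟨h1, h2, h3, h4, h5⟩
    have hs : s ≠ 1 := by
      rintro rfl
      simp at h3
      linarith
    refine ⟨h1, h2, h3, h4, ?_⟩
    rw [LF_eq_mul q hq χ hs] at h5
    exact (mul_eq_zero.mp h5).resolve_right (EP_ne_zero q χ h1)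
  · rintro ⟨h1, h2, h3, h4, h5⟩
    have hs : s ≠ 1 := by
      rintro rfl
      simp at h3
      linarith
    refine ⟨h1, h2, h3, h4, ?_⟩
    rw [LF_eq_mul q hq χ hs, h5, zero_mul]

theorem LF_counts (q : ℕ) (hq : 0 < q) (χ : DirichletCharacter ℂ q) (T1 T2 : ℝ) (h : 0 ≤ T1) :
    NN (LF q χ) T1 T2 = NN (LF χ.conductor χ.primitiveCharacter) T1 T2 ∧
    Ns (LF q χ) T1 T2 = Ns (LF χ.conductor χ.primitiveCharacter) T1 T2 ∧
    Nd (LF q χ) T1 T2 = Nd (LF χ.conductor χ.primitiveCharacter) T1 T2 := by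
  have hz := LF_zset_eq q hq χ T1 T2 h
  have hm : ∀ s ∈ zset (LF χ.conductor χ.primitiveCharacter) T1 T2,
      mult (LF q χ) s = mult (LF χ.conductor χ.primitiveCharacter) s := by
    rintro s ⟨h1, h2, h3, h4, h5⟩
    refine LF_mult_eq q hq χ ?_ h1
    rintro rfl
    simp at h3
    linarith
  refine ⟨?_, ?_, ?_⟩
  · unfold NN
    rw [hz]
    exact finsum_mem_congr rfl hm
  · unfold Ns
    rw [hz]
    congr 1
    ext s
    simp only [Set.mem_setOf_eq]
    constructor
    · rintro ⟨h1, h2, h3⟩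
      exact ⟨h1, h2, by rw [← hm s h1]; exact h3⟩
    · rintro ⟨h1, h2, h3⟩
      exact ⟨h1, h2, by rw [hm s h1]; exact h3⟩
  · unfold Nd
    rw [hz]

end H385
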