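import Pool.Agent.H385R2.Defs
import Pool.Agent.H370R2.NT

/-! Prime sums (TEAM Q, Q8b and Q8c; helper454). -/

open Finset MeasureTheory

namespace H385

open H370

/-- the properties of the window correlation used for the prime sums -/
structure NTR (R : ℝ → ℝ) : Prop where
  nonneg : ∀ α, 0 ≤ R α
  anti : AntitoneOn R (Set.Ici 0)
  lip : ∃ K : ℝ, 0 < K ∧ ∀ x y, |R x - R y| ≤ K * |x - y|
  zero : ∀ α, 1 < α → R α = 0

theorem NTR.cont {R : ℝ → ℝ} (hR : NTR R) : Continuous R := by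
  obtain ⟨K, hK, h⟩ := hR.lip
  exact (LipschitzWith.of_dist_le_mul (K := ⟨K, hK.le⟩) (fun x y => by
    rw [Real.dist_eq, Real.dist_eq]; exact h x y)).continuous

theorem NTR.le0 {R : ℝ → ℝ} (hR : NTR R) (α : ℝ) (h : 0 ≤ α) : R α ≤ R 0 :=
  hR.anti (Set.mem_Ici.2 le_rfl) (Set.mem_Ici.2 h) h

theorem ntw_In_bound {R : ℝ → ℝ} (hR : NTR R) (K : ℝ) (hK : 0 < K) (hlip : ∀ x y, |R x - R y| ≤ K * |x - y|)
    (Λ ℓ : ℝ) (hΛ : 0 < Λ) :
    ∫ u in (0 : ℝ)..Λ, R (u / Λ) * Real.exp (-(u - ℓ) ^ 2) ≤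
      Real.sqrt Real.pi * R (ℓ / Λ) + K / Λ * ntG := by
  have hi0 : Integrable (fun u : ℝ => Real.exp (-(u - ℓ) ^ 2)) := nt_int0.comp_sub_right ℓ
  have hi1 : Integrable (fun u : ℝ => |u - ℓ| * Real.exp (-(u - ℓ) ^ 2)) :=
    nt_int1.comp_sub_right ℓ
  have hi : Integrable (fun u : ℝ => R (ℓ / Λ) * Real.exp (-(u - ℓ) ^ 2) +
      K / Λ * (|u - ℓ| * Real.exp (-(u - ℓ) ^ 2))) := (hi0.const_mul _).add (hi1.const_mul _)
  have hcont : Continuous (fun u : ℝ => R (u / Λ) * Real.exp (-(u - ℓ) ^ 2)) :=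
    (hR.cont.comp (continuous_id.div_const Λ)).mul (by fun_prop)
  calc ∫ u in (0 : ℝ)..Λ, R (u / Λ) * Real.exp (-(u - ℓ) ^ 2)
      ≤ ∫ u in (0 : ℝ)..Λ, (R (ℓ / Λ) * Real.exp (-(u - ℓ) ^ 2) +
          K / Λ * (|u - ℓ| * Real.exp (-(u - ℓ) ^ 2))) := by
        apply intervalIntegral.integral_mono_on hΛ.le (hcont.intervalIntegrable _ _)
          hi.intervalIntegrable
        intro u _
        have h1 := (le_abs_self _).trans (hlip (u / Λ) (ℓ / Λ))
        have h2 : |u / Λ - ℓ / Λ| = |u - ℓ| / Λ := by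
          rw [← sub_div, abs_div, abs_of_pos hΛ]
        rw [h2] at h1
        have h3 : R (u / Λ) ≤ R (ℓ / Λ) + K / Λ * |u - ℓ| := by
          have : K * (|u - ℓ| / Λ) = K / Λ * |u - ℓ| := by ring
          linarith
        calc R (u / Λ) * Real.exp (-(u - ℓ) ^ 2)
            ≤ (R (ℓ / Λ) + K / Λ * |u - ℓ|) * Real.exp (-(u - ℓ) ^ 2) :=
              mul_le_mul_of_nonneg_right h3 (Real.exp_pos _).le
          _ = _ := by ring
    _ = ∫ u in Set.Ioc (0 : ℝ) Λ, (R (ℓ / Λ) * Real.exp (-(u - ℓ) ^ 2) +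
          K / Λ * (|u - ℓ| * Real.exp (-(u - ℓ) ^ 2))) := intervalIntegral.integral_of_le hΛ.le
    _ ≤ ∫ u : ℝ, (R (ℓ / Λ) * Real.exp (-(u - ℓ) ^ 2) +
          K / Λ * (|u - ℓ| * Real.exp (-(u - ℓ) ^ 2))) := by
        apply setIntegral_le_integral hi
        refine Filter.Eventually.of_forall fun u => ?_
        have := hR.nonneg (ℓ / Λ)
        positivity
    _ = R (ℓ / Λ) * (∫ u : ℝ, Real.exp (-(u - ℓ) ^ 2)) +
          K / Λ * ∫ u : ℝ, |u - ℓ| * Real.exp (-(u - ℓ) ^ 2) := by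
        rw [integral_add (hi0.const_mul _) (hi1.const_mul _), integral_const_mul,
          integral_const_mul]
    _ = Real.sqrt Real.pi * R (ℓ / Λ) + K / Λ * ntG := by
        rw [integral_sub_right_eq_self (fun v : ℝ => Real.exp (-v ^ 2)) ℓ,
          integral_sub_right_eq_self (fun v : ℝ => |v| * Real.exp (-v ^ 2)) ℓ, nt_gauss, ntG]
        ring

theorem ntw_In_tail {R : ℝ → ℝ} (hR : NTR R) (Λ ℓ : ℝ) (hΛ : 0 < Λ) (hℓ : 2 * Λ ≤ ℓ) :
    ∫ u in (0 : ℝ)..Λ, R (u / Λ) * Real.exp (-(u - ℓ) ^ 2) ≤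
      R 0 * Λ * Real.exp (-ℓ ^ 2 / 8) := by
  have hcont : Continuous (fun u : ℝ => R (u / Λ) * Real.exp (-(u - ℓ) ^ 2)) :=
    (hR.cont.comp (continuous_id.div_const Λ)).mul (by fun_prop)
  calc ∫ u in (0 : ℝ)..Λ, R (u / Λ) * Real.exp (-(u - ℓ) ^ 2)
      ≤ ∫ u in (0 : ℝ)..Λ, R 0 * Real.exp (-ℓ ^ 2 / 8) := by
        apply intervalIntegral.integral_mono_on hΛ.le (hcont.intervalIntegrable _ _)
          (continuous_const.intervalIntegrable _ _)
        intro u hu
        have h1 : R (u / Λ) ≤ R 0 := hR.le0 _ (div_nonneg hu.1 hΛ.le)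
        have h2 : Real.exp (-(u - ℓ) ^ 2) ≤ Real.exp (-ℓ ^ 2 / 8) := by
          apply Real.exp_le_exp.2
          have h3 : u ≤ ℓ / 2 := by linarith [hu.2]
          have h4 : ℓ / 2 ≤ ℓ - u := by linarith
          have h5 : 0 ≤ ℓ / 2 := by linarith
          have h6 := mul_self_le_mul_self h5 h4
          nlinarith
        exact mul_le_mul h1 h2 (Real.exp_pos _).le (hR.nonneg 0)
    _ = R 0 * Λ * Real.exp (-ℓ ^ 2 / 8) := by
        rw [intervalIntegral.integral_const, smul_eq_mul]; ring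

theorem ntw_int_bound {R : ℝ → ℝ} (hR : NTR R) (Λ : ℝ) (hΛ : 0 < Λ) (C : ℝ) (N : ℕ) (hN : 1 ≤ N)
    (hN2 : Real.log N ≤ 2 * Λ) (hC : 0 ≤ C) :
    ∫ s in (0 : ℝ)..(Real.log N), R (s / Λ) * (s + C) ≤
      Λ ^ 2 * (∫ α in (0 : ℝ)..1, α * R α) + C * Λ * R 0 := by
  have hcont : Continuous (fun s : ℝ => R (s / Λ) * (s + C)) :=
    (hR.cont.comp (continuous_id.div_const Λ)).mul (by fun_prop)
  have hlog0 : 0 ≤ Real.log N := Real.log_nonneg (by exact_mod_cast hN)
  have h1 : ∫ s in (0 : ℝ)..(Real.log N), R (s / Λ) * (s + C) ≤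
      ∫ s in (0 : ℝ)..(2 * Λ), R (s / Λ) * (s + C) := by
    rw [← intervalIntegral.integral_add_adjacent_intervals
      (hcont.intervalIntegrable 0 (Real.log N)) (hcont.intervalIntegrable (Real.log N) (2 * Λ))]
    have : 0 ≤ ∫ s in (Real.log N)..(2 * Λ), R (s / Λ) * (s + C) := by
      apply intervalIntegral.integral_nonneg hN2
      intro s hs
      exact mul_nonneg (hR.nonneg _) (by linarith [hs.1])
    linarith
  refine h1.trans ?_
  have h2 : ∫ s in (0 : ℝ)..(2 * Λ), R (s / Λ) * (s + C) =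
      Λ * ∫ α in (0 : ℝ)..2, R α * (Λ * α + C) := by
    have h3 := intervalIntegral.integral_comp_div (a := 0) (b := 2 * Λ)
      (fun α : ℝ => R α * (Λ * α + C)) hΛ.ne'
    rw [zero_div, mul_div_assoc, div_self hΛ.ne', mul_one, smul_eq_mul] at h3
    rw [← h3]
    refine intervalIntegral.integral_congr fun s _ => ?_
    show R (s / Λ) * (s + C) = R (s / Λ) * (Λ * (s / Λ) + C)
    rw [mul_div_cancel₀ _ hΛ.ne']
  rw [h2]
  have hc2 : Continuous (fun α : ℝ => R α * (Λ * α + C)) := hR.cont.mul (by fun_prop)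
  have h4 : ∫ α in (1 : ℝ)..2, R α * (Λ * α + C) = 0 := by
    rw [intervalIntegral.integral_of_le (by norm_num)]
    rw [setIntegral_congr_fun (g := fun _ => (0 : ℝ)) measurableSet_Ioc]
    · simp
    · intro α hα
      simp only
      rw [hR.zero α hα.1, zero_mul]
  have h5 : ∫ α in (0 : ℝ)..2, R α * (Λ * α + C) = ∫ α in (0 : ℝ)..1, R α * (Λ * α + C) := by
    rw [← intervalIntegral.integral_add_adjacent_intervals
      (hc2.intervalIntegrable 0 1) (hc2.intervalIntegrable 1 2), h4, add_zero]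
  have hca : Continuous (fun α : ℝ => α * R α) := continuous_id.mul hR.cont
  have hc3 : Continuous (fun α : ℝ => Λ * (α * R α)) := continuous_const.mul hca
  have hc4 : Continuous (fun α : ℝ => Λ * (α * R α) + C * R 0) := hc3.add continuous_const
  have h6 : ∫ α in (0 : ℝ)..1, R α * (Λ * α + C) ≤
      ∫ α in (0 : ℝ)..1, (Λ * (α * R α) + C * R 0) := by
    apply intervalIntegral.integral_mono_on (by norm_num) (hc2.intervalIntegrable _ _)
      (hc4.intervalIntegrable _ _)
    intro α hα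
    have := mul_le_mul_of_nonneg_left (hR.le0 α hα.1) hC
    nlinarith
  have h7 : ∫ α in (0 : ℝ)..1, (Λ * (α * R α) + C * R 0) =
      Λ * (∫ α in (0 : ℝ)..1, α * R α) + C * R 0 := by
    rw [intervalIntegral.integral_add (f := fun α : ℝ => Λ * (α * R α))
      (g := fun _ : ℝ => C * R 0) (hc3.intervalIntegrable _ _)
      (continuous_const.intervalIntegrable _ _), intervalIntegral.integral_const_mul,
      intervalIntegral.integral_const]
    simp
  rw [h5]
  rw [h7] at h6
  calc Λ * ∫ α in (0 : ℝ)..1, R α * (Λ * α + C)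
      ≤ Λ * (Λ * (∫ α in (0 : ℝ)..1, α * R α) + C * R 0) := mul_le_mul_of_nonneg_left h6 hΛ.le
    _ = _ := by ring

/-- smoothed version against `R(u/Λ)` -/
theorem ntw_lam_sq_smooth {R : ℝ → ℝ} (hR : NTR R) : ∃ C : ℝ, 0 < C ∧ ∀ Λ : ℝ, 1 ≤ Λ →
    ∫ u in (0 : ℝ)..Λ, R (u / Λ) * ∑' n : ℕ, (ArithmeticFunction.vonMangoldt n) ^ 2 / n *
        Real.exp (-(u - Real.log n) ^ 2) ≤
      Real.sqrt Real.pi * Λ ^ 2 * (∫ α in (0 : ℝ)..1, α * R α) + C * Λ := by
  obtain ⟨K, hK, hlip⟩ := hR.lip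
  set w : ℕ → ℝ := fun n => (ArithmeticFunction.vonMangoldt n) ^ 2 / n with hw
  have hw0 : ∀ n, 0 ≤ w n := fun n => by simp only [hw]; positivity
  have hsm : Summable (fun n : ℕ => w n * Real.exp (-(Real.log n) ^ 2 / 8)) := nt_summable
  set C2 : ℝ := ∑' n : ℕ, w n * Real.exp (-(Real.log n) ^ 2 / 8) with hC2
  have hC20 : 0 ≤ C2 := tsum_nonneg fun n => mul_nonneg (hw0 n) (Real.exp_pos _).le
  have hR0 : 0 ≤ R 0 := hR.nonneg 0
  have hG0 := nt_G_nonneg
  have hpi0 : 0 ≤ Real.sqrt Real.pi := Real.sqrt_nonneg _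
  refine ⟨16 * Real.sqrt Real.pi * R 0 + 26 * K * ntG + R 0 * C2 + 1, by positivity,
    fun Λ hΛ => ?_⟩
  have hΛ0 : 0 < Λ := by linarith
  -- interchange
  have hsum : HasSum (fun n : ℕ => ∫ u in (0 : ℝ)..Λ, R (u / Λ) *
      (w n * Real.exp (-(u - Real.log n) ^ 2)))
      (∫ u in (0 : ℝ)..Λ, R (u / Λ) * ∑' n : ℕ, w n * Real.exp (-(u - Real.log n) ^ 2)) := by
    apply intervalIntegral.hasSum_integral_of_dominated_convergence
      (bound := fun n _ => R 0 * Real.exp (Λ ^ 2) * (w n * Real.exp (-(Real.log n) ^ 2 / 8)))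
    · intro n
      apply Continuous.aestronglyMeasurable
      exact (hR.cont.comp (continuous_id.div_const Λ)).mul (by fun_prop)
    · intro n
      refine Filter.Eventually.of_forall fun u hu => ?_
      rw [Set.uIoc_of_le hΛ0.le] at hu
      have h1 : R (u / Λ) ≤ R 0 := hR.le0 _ (div_nonneg hu.1.le hΛ0.le)
      have h2 := nt_exp_le Λ u (Real.log n) hu.1.le hu.2
      rw [Real.norm_of_nonneg (mul_nonneg (hR.nonneg _) (mul_nonneg (hw0 n) (Real.exp_pos _).le))]
      calc R (u / Λ) * (w n * Real.exp (-(u - Real.log n) ^ 2))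
          ≤ R 0 * (w n * (Real.exp (Λ ^ 2) * Real.exp (-(Real.log n) ^ 2 / 8))) := by
            apply mul_le_mul h1 (mul_le_mul_of_nonneg_left h2 (hw0 n))
              (mul_nonneg (hw0 n) (Real.exp_pos _).le) hR0
        _ = _ := by ring
    · exact Filter.Eventually.of_forall fun u _ => hsm.mul_left _
    · exact continuous_const.intervalIntegrable _ _
    · refine Filter.Eventually.of_forall fun u hu => ?_
      rw [Set.uIoc_of_le hΛ0.le] at hu
      apply HasSum.mul_left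
      apply Summable.hasSum
      refine Summable.of_nonneg_of_le (fun n => mul_nonneg (hw0 n) (Real.exp_pos _).le)
        (fun n => ?_) (hsm.mul_left (Real.exp (Λ ^ 2)))
      have h2 := nt_exp_le Λ u (Real.log n) hu.1.le hu.2
      calc w n * Real.exp (-(u - Real.log n) ^ 2)
          ≤ w n * (Real.exp (Λ ^ 2) * Real.exp (-(Real.log n) ^ 2 / 8)) :=
            mul_le_mul_of_nonneg_left h2 (hw0 n)
        _ = _ := by ring
  set N : ℕ := ⌊Real.exp (2 * Λ)⌋₊ with hNdef
  have hN : 1 ≤ N := by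
    rw [hNdef, Nat.one_le_floor_iff]
    exact Real.one_le_exp (by linarith)
  have hNlog : Real.log N ≤ 2 * Λ := by
    rw [Real.log_le_iff_le_exp (by exact_mod_cast hN)]
    exact Nat.floor_le (Real.exp_pos _).le
  -- termwise bound
  have hterm : ∀ n : ℕ, ∫ u in (0 : ℝ)..Λ, R (u / Λ) *
      (w n * Real.exp (-(u - Real.log n) ^ 2)) ≤
      (if n ∈ Finset.Icc 1 N then
        w n * (Real.sqrt Real.pi * R (Real.log n / Λ) + K / Λ * ntG) else 0) +
      R 0 * Λ * (w n * Real.exp (-(Real.log n) ^ 2 / 8)) := by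
    intro n
    have h1 : ∫ u in (0 : ℝ)..Λ, R (u / Λ) * (w n * Real.exp (-(u - Real.log n) ^ 2)) =
        w n * ∫ u in (0 : ℝ)..Λ, R (u / Λ) * Real.exp (-(u - Real.log n) ^ 2) := by
      rw [← intervalIntegral.integral_const_mul]
      exact intervalIntegral.integral_congr fun u _ => by ring
    rw [h1]
    have hB : 0 ≤ R 0 * Λ * (w n * Real.exp (-(Real.log n) ^ 2 / 8)) :=
      mul_nonneg (mul_nonneg hR0 hΛ0.le) (mul_nonneg (hw0 n) (Real.exp_pos _).le)
    split_ifs with hn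
    · have h2 := mul_le_mul_of_nonneg_left (ntw_In_bound hR K hK hlip Λ (Real.log n) hΛ0) (hw0 n)
      linarith
    · rcases Nat.eq_zero_or_pos n with rfl | hn0
      · have : w 0 = 0 := by simp [hw]
        rw [this]; simp
      · have hnN : N < n := by
          by_contra hc
          exact hn (Finset.mem_Icc.2 ⟨hn0, not_lt.1 hc⟩)
        have h3 : Real.exp (2 * Λ) < n := Nat.lt_of_floor_lt hnN
        have h4 : 2 * Λ ≤ Real.log n := by
          rw [Real.le_log_iff_exp_le (by exact_mod_cast hn0)]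
          exact h3.le
        have h2 := mul_le_mul_of_nonneg_left (ntw_In_tail hR Λ (Real.log n) hΛ0 h4) (hw0 n)
        rw [zero_add]
        calc _ ≤ _ := h2
          _ = _ := by ring
  have hA : HasSum (fun n : ℕ => if n ∈ Finset.Icc 1 N then
        w n * (Real.sqrt Real.pi * R (Real.log n / Λ) + K / Λ * ntG) else 0)
      (∑ n ∈ Finset.Icc 1 N, w n * (Real.sqrt Real.pi * R (Real.log n / Λ) + K / Λ * ntG)) := by
    have h : HasSum (fun n : ℕ => if n ∈ Finset.Icc 1 N then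
        w n * (Real.sqrt Real.pi * R (Real.log n / Λ) + K / Λ * ntG) else 0)
        (∑ n ∈ Finset.Icc 1 N, if n ∈ Finset.Icc 1 N then
        w n * (Real.sqrt Real.pi * R (Real.log n / Λ) + K / Λ * ntG) else 0) :=
      hasSum_sum_of_ne_finset_zero (fun n hn => if_neg hn)
    rw [Finset.sum_congr rfl (fun n hn => if_pos hn)] at h
    exact h
  have hB : HasSum (fun n : ℕ => R 0 * Λ * (w n * Real.exp (-(Real.log n) ^ 2 / 8)))
      (R 0 * Λ * C2) := hsm.hasSum.mul_left _
  have hle := hasSum_le hterm hsum (hA.add hB)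
  refine hle.trans ?_
  -- main term
  have hsplit : ∑ n ∈ Finset.Icc 1 N, w n * (Real.sqrt Real.pi * R (Real.log n / Λ) +
      K / Λ * ntG) = Real.sqrt Real.pi * ∑ n ∈ Finset.Icc 1 N, w n * R (Real.log n / Λ) +
      K / Λ * ntG * ∑ n ∈ Finset.Icc 1 N, w n := by
    rw [Finset.mul_sum, Finset.mul_sum, ← Finset.sum_add_distrib]
    exact Finset.sum_congr rfl fun n _ => by ring
  have habel := nt_abel_bound w (fun s => R (s / Λ)) 8 (by norm_num)
    (fun x hx y hy hxy => hR.anti (Set.mem_Ici.2 (div_nonneg hx hΛ0.le))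
      (Set.mem_Ici.2 (div_nonneg hy hΛ0.le)) (div_le_div_of_nonneg_right hxy hΛ0.le))
    (hR.cont.comp (continuous_id.div_const Λ)) (fun x => hR.nonneg _)
    (fun M hM => lam_sq_sum_nat M hM) N hN
  simp only [zero_div] at habel
  have hint := ntw_int_bound hR Λ hΛ0 8 N hN hNlog (by norm_num)
  have hS : ∑ n ∈ Finset.Icc 1 N, w n ≤ 26 * Λ ^ 2 := by
    have h1 := lam_sq_sum_nat N hN
    have h2 : 0 ≤ Real.log N := Real.log_nonneg (by exact_mod_cast hN)
    have h3 : (Real.log N) ^ 2 ≤ (2 * Λ) ^ 2 := pow_le_pow_left₀ h2 hNlog 2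
    simp only [hw]
    nlinarith
  have hKL : K / Λ * ntG * ∑ n ∈ Finset.Icc 1 N, w n ≤ 26 * K * ntG * Λ := by
    calc K / Λ * ntG * ∑ n ∈ Finset.Icc 1 N, w n ≤ K / Λ * ntG * (26 * Λ ^ 2) :=
          mul_le_mul_of_nonneg_left hS (by positivity)
      _ = 26 * K * ntG * Λ := by field_simp
  have hmain : Real.sqrt Real.pi * ∑ n ∈ Finset.Icc 1 N, w n * R (Real.log n / Λ) ≤
      Real.sqrt Real.pi * (8 * R 0 + (Λ ^ 2 * (∫ α in (0 : ℝ)..1, α * R α) + 8 * Λ * R 0)) :=
    mul_le_mul_of_nonneg_left (by linarith) hpi0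
  rw [hsplit]
  have h8 : Real.sqrt Real.pi * (8 * R 0) ≤ Real.sqrt Real.pi * (8 * R 0) * Λ :=
    le_mul_of_one_le_right (by positivity) hΛ
  nlinarith

/-- numerator of `Rw` -/
noncomputable def ntwN (γ a : ℝ) : ℝ :=
  (1 - a) * Real.cos (γ * a) + Real.sin (γ * (1 - a)) / γ

theorem ntw_Rw_eq (γ : ℝ) (α : ℝ) :
    Rw γ α = (γ / (2 * Real.sin (γ / 2))) ^ 2 / 2 * ntwN γ (min |α| 1) := by
  unfold Rw ntwN
  split_ifs with h
  · rw [min_eq_left h]; ring
  · rw [min_eq_right (not_le.1 h).le]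
    simp

theorem ntw_N_anti (γ : ℝ) (h0 : 0 < γ) (hπ : γ < Real.pi) : AntitoneOn (ntwN γ) (Set.Icc 0 1) := by
  have hd : ∀ a, HasDerivAt (ntwN γ) (-Real.cos (γ * a) - γ * (1 - a) * Real.sin (γ * a) -
      Real.cos (γ * (1 - a))) a := by
    intro a
    unfold ntwN
    have h1 : HasDerivAt (fun a : ℝ => 1 - a) (-1) a := by simpa using (hasDerivAt_id a).const_sub 1
    have h2 : HasDerivAt (fun a : ℝ => γ * a) γ a := by simpa using (hasDerivAt_id a).const_mul γ
    have h3 : HasDerivAt (fun a : ℝ => γ * (1 - a)) (-γ) a := by simpa using h1.const_mul γ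
    have h4 := h1.mul h2.cos
    have h5 := (h3.sin).div_const γ
    have h6 := h4.add h5
    refine h6.congr_deriv ?_
    have h7 : Real.cos (γ * (1 - a)) * -γ / γ = -Real.cos (γ * (1 - a)) := by
      rw [mul_neg, neg_div, mul_div_assoc, div_self h0.ne', mul_one]
    rw [h7]
    ring
  apply antitoneOn_of_deriv_nonpos (convex_Icc 0 1)
  · exact fun a _ => (hd a).continuousAt.continuousWithinAt
  · exact fun a _ => (hd a).differentiableAt.differentiableWithinAt
  · intro a ha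
    rw [interior_Icc] at ha
    rw [(hd a).deriv]
    have h1 : 0 ≤ γ * a := by nlinarith [ha.1]
    have h2 : γ * a ≤ Real.pi := by nlinarith [ha.2]
    have h3 : 0 ≤ γ * (1 - a) := by nlinarith [ha.2]
    have h4 : γ * (1 - a) ≤ Real.pi - γ * a := by nlinarith
    have h5 := Real.cos_le_cos_of_nonneg_of_le_pi h3 (by linarith) h4
    rw [Real.cos_pi_sub] at h5
    have h6 : 0 ≤ Real.sin (γ * a) := Real.sin_nonneg_of_nonneg_of_le_pi h1 h2
    have h7 : 0 ≤ γ * (1 - a) * Real.sin (γ * a) := mul_nonneg h3 h6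
    linarith

theorem ntw_N_nonneg (γ : ℝ) (h0 : 0 < γ) (hπ : γ < Real.pi) {a : ℝ} (ha : a ∈ Set.Icc (0 : ℝ) 1) :
    0 ≤ ntwN γ a := by
  have h := ntw_N_anti γ h0 hπ ha (Set.right_mem_Icc.2 zero_le_one) ha.2
  have : ntwN γ 1 = 0 := by simp [ntwN]
  linarith

theorem ntw_N_lip (γ : ℝ) (h0 : 0 < γ) {a b : ℝ} (ha : a ∈ Set.Icc (0 : ℝ) 1) :
    |ntwN γ a - ntwN γ b| ≤ (γ + 2) * |a - b| := by
  have e1 : ntwN γ a - ntwN γ b = (1 - a) * (Real.cos (γ * a) - Real.cos (γ * b))
      + (b - a) * Real.cos (γ * b)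
      + (Real.sin (γ * (1 - a)) - Real.sin (γ * (1 - b))) / γ := by
    unfold ntwN; ring
  have c1 : |Real.cos (γ * a) - Real.cos (γ * b)| ≤ γ * |a - b| := by
    have h := Real.abs_cos_sub_cos_le (γ * a) (γ * b)
    rwa [← mul_sub, abs_mul, abs_of_pos h0] at h
  have c2 : |Real.sin (γ * (1 - a)) - Real.sin (γ * (1 - b))| ≤ γ * |a - b| := by
    have h := Real.abs_sin_sub_sin_le (γ * (1 - a)) (γ * (1 - b))
    rw [← mul_sub, abs_mul, abs_of_pos h0] at h
    have : |1 - a - (1 - b)| = |a - b| := by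
      rw [show 1 - a - (1 - b) = -(a - b) by ring, abs_neg]
    rwa [this] at h
  rw [e1]
  have t1 := abs_add_le ((1 - a) * (Real.cos (γ * a) - Real.cos (γ * b))
      + (b - a) * Real.cos (γ * b))
      ((Real.sin (γ * (1 - a)) - Real.sin (γ * (1 - b))) / γ)
  have t2 := abs_add_le ((1 - a) * (Real.cos (γ * a) - Real.cos (γ * b)))
    ((b - a) * Real.cos (γ * b))
  have u1 : |(1 - a) * (Real.cos (γ * a) - Real.cos (γ * b))| ≤ γ * |a - b| := by
    rw [abs_mul, abs_of_nonneg (by linarith [ha.2] : (0 : ℝ) ≤ 1 - a)]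
    nlinarith [abs_nonneg (Real.cos (γ * a) - Real.cos (γ * b)), ha.1]
  have u2 : |(b - a) * Real.cos (γ * b)| ≤ |a - b| := by
    rw [abs_mul, abs_sub_comm]
    have := Real.abs_cos_le_one (γ * b)
    nlinarith [abs_nonneg (a - b)]
  have u3 : |(Real.sin (γ * (1 - a)) - Real.sin (γ * (1 - b))) / γ| ≤ |a - b| := by
    rw [abs_div, abs_of_pos h0, div_le_iff₀ h0]
    linarith
  linarith

theorem NTR_Rw (γ : ℝ) (h0 : 0 < γ) (hπ : γ < Real.pi) : NTR (Rw γ) := by
  have hK : 0 ≤ (γ / (2 * Real.sin (γ / 2))) ^ 2 / 2 := by positivity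
  have hmem : ∀ α : ℝ, min |α| 1 ∈ Set.Icc (0 : ℝ) 1 := fun α =>
    ⟨le_min (abs_nonneg _) zero_le_one, min_le_right _ _⟩
  refine ⟨fun α => ?_, ?_, ?_, ?_⟩
  · rw [ntw_Rw_eq]
    exact mul_nonneg hK (ntw_N_nonneg γ h0 hπ (hmem α))
  · intro x hx y hy hxy
    rw [ntw_Rw_eq, ntw_Rw_eq]
    have hx : (0 : ℝ) ≤ x := hx
    have hy : (0 : ℝ) ≤ y := hy
    apply mul_le_mul_of_nonneg_left _ hK
    apply ntw_N_anti γ h0 hπ (hmem x) (hmem y)
    rw [abs_of_nonneg hx, abs_of_nonneg hy]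
    exact min_le_min_right 1 hxy
  · refine ⟨(γ / (2 * Real.sin (γ / 2))) ^ 2 / 2 * (γ + 2) + 1, by positivity, fun x y => ?_⟩
    rw [ntw_Rw_eq, ntw_Rw_eq, ← mul_sub, abs_mul, abs_of_nonneg hK]
    have h1 := ntw_N_lip γ h0 (b := min |y| 1) (hmem x)
    have h2 : |min |x| 1 - min |y| 1| ≤ |x - y| :=
      (abs_min_sub_min_le_max _ _ _ _).trans (by simpa using abs_abs_sub_abs_le x y)
    have h3 := abs_nonneg (x - y)
    calc (γ / (2 * Real.sin (γ / 2))) ^ 2 / 2 * |ntwN γ (min |x| 1) - ntwN γ (min |y| 1)|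
        ≤ (γ / (2 * Real.sin (γ / 2))) ^ 2 / 2 * ((γ + 2) * |x - y|) := by
          apply mul_le_mul_of_nonneg_left _ hK
          exact h1.trans (mul_le_mul_of_nonneg_left h2 (by linarith))
      _ ≤ ((γ / (2 * Real.sin (γ / 2))) ^ 2 / 2 * (γ + 2) + 1) * |x - y| := by
          nlinarith
  · intro α hα
    unfold Rw
    rw [if_neg (not_le.2 (hα.trans_le (le_abs_self α)))]

theorem lam_sq_smooth_w (γ : ℝ) (h0 : 0 < γ) (hπ : γ < Real.pi) : ∃ C : ℝ, 0 < C ∧ ∀ Λ : ℝ, 1 ≤ Λ →
    ∫ u in (0 : ℝ)..Λ, Rw γ (u / Λ) * ∑' n : ℕ, (ArithmeticFunction.vonMangoldt n) ^ 2 / n *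
        Real.exp (-(u - Real.log n) ^ 2) ≤
      Real.sqrt Real.pi * Λ ^ 2 * (∫ α in (0 : ℝ)..1, α * Rw γ α) + C * Λ :=
  ntw_lam_sq_smooth (NTR_Rw γ h0 hπ)


/-- sums against a Gaussian in `log n`, by blocks `k ≤ log n < k + 1` -/
theorem block_gauss (w : ℕ → ℝ) (hw : ∀ n, 0 ≤ w n) (h : ℝ → ℝ) (hh : Continuous h)
    (hh0 : ∀ s, 0 ≤ h s)
    (hblock : ∀ (k N : ℕ) (s : ℝ), (k : ℝ) ≤ s → s ≤ k + 1 →
      ∑ n ∈ (Finset.range N).filter (fun n : ℕ => ⌊Real.log n⌋₊ = k), w n ≤ h s)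
    (b u : ℝ) (hb : 0 < b) (hint : Integrable (fun s => h s * Real.exp (-(b / 2) * (u - s) ^ 2))) :
    Summable (fun n : ℕ => w n * Real.exp (-b * (u - Real.log n) ^ 2)) ∧
    ∑' n : ℕ, w n * Real.exp (-b * (u - Real.log n) ^ 2) ≤
      Real.exp b * ∫ s, h s * Real.exp (-(b / 2) * (u - s) ^ 2) := by
  have hterm : ∀ n : ℕ, 0 ≤ w n * Real.exp (-b * (u - Real.log n) ^ 2) := fun n =>
    mul_nonneg (hw n) (Real.exp_pos _).le
  have hcont : Continuous (fun s => Real.exp b * (h s * Real.exp (-(b / 2) * (u - s) ^ 2))) := by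
    fun_prop
  have hnn : ∀ s, 0 ≤ Real.exp b * (h s * Real.exp (-(b / 2) * (u - s) ^ 2)) := fun s =>
    mul_nonneg (Real.exp_pos _).le (mul_nonneg (hh0 s) (Real.exp_pos _).le)
  have hpart : ∀ N : ℕ, ∑ n ∈ Finset.range N, w n * Real.exp (-b * (u - Real.log n) ^ 2) ≤
      Real.exp b * ∫ s, h s * Real.exp (-(b / 2) * (u - s) ^ 2) := by
    intro N
    rw [← Finset.sum_fiberwise_of_maps_to (s := Finset.range N) (t := Finset.range N)
      (g := fun n : ℕ => ⌊Real.log n⌋₊) (fun n hn => by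
        rw [Finset.mem_range] at hn ⊢
        apply lt_of_le_of_lt _ hn
        apply Nat.floor_le_of_le
        rcases Nat.eq_zero_or_pos n with rfl | hn0
        · simp
        · have := Real.log_le_sub_one_of_pos (x := (n : ℝ)) (by exact_mod_cast hn0)
          linarith)]
    have hk : ∀ k ∈ Finset.range N,
        ∑ n ∈ (Finset.range N).filter (fun n : ℕ => ⌊Real.log n⌋₊ = k),
          w n * Real.exp (-b * (u - Real.log n) ^ 2) ≤
        ∫ s in ((k : ℕ) : ℝ)..((k + 1 : ℕ) : ℝ),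
          Real.exp b * (h s * Real.exp (-(b / 2) * (u - s) ^ 2)) := by
      intro k _
      have e1 : ∑ n ∈ (Finset.range N).filter (fun n : ℕ => ⌊Real.log n⌋₊ = k),
          w n * Real.exp (-b * (u - Real.log n) ^ 2) =
          ∫ s in ((k : ℕ) : ℝ)..((k + 1 : ℕ) : ℝ),
            ∑ n ∈ (Finset.range N).filter (fun n : ℕ => ⌊Real.log n⌋₊ = k),
              w n * Real.exp (-b * (u - Real.log n) ^ 2) := by
        rw [intervalIntegral.integral_const]
        push_cast
        rw [add_sub_cancel_left, one_smul]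
      rw [e1]
      apply intervalIntegral.integral_mono_on (by push_cast; linarith)
        (continuous_const.intervalIntegrable _ _) (hcont.intervalIntegrable _ _)
      intro s hs
      have hs1 : (k : ℝ) ≤ s := hs.1
      have hs2 : s ≤ (k : ℝ) + 1 := by have := hs.2; push_cast at this; exact this
      calc ∑ n ∈ (Finset.range N).filter (fun n : ℕ => ⌊Real.log n⌋₊ = k),
              w n * Real.exp (-b * (u - Real.log n) ^ 2)
          ≤ ∑ n ∈ (Finset.range N).filter (fun n : ℕ => ⌊Real.log n⌋₊ = k),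
              w n * (Real.exp b * Real.exp (-(b / 2) * (u - s) ^ 2)) := by
            apply Finset.sum_le_sum
            intro n hn
            apply mul_le_mul_of_nonneg_left _ (hw n)
            rw [← Real.exp_add]
            apply Real.exp_le_exp.2
            have hfl := (Finset.mem_filter.1 hn).2
            have hl0 : 0 ≤ Real.log n := Real.log_natCast_nonneg n
            have h1 : (k : ℝ) ≤ Real.log n := by
              rw [← hfl]; exact Nat.floor_le hl0
            have h2 : Real.log n ≤ (k : ℝ) + 1 := by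
              rw [← hfl]; exact (Nat.lt_floor_add_one _).le
            have h3 : (s - Real.log n) ^ 2 ≤ 1 := by
              have : |s - Real.log n| ≤ 1 := by
                rw [abs_le]; constructor <;> linarith
              nlinarith [abs_nonneg (s - Real.log n), sq_abs (s - Real.log n)]
            have h4 : (u - s) ^ 2 ≤ 2 * (u - Real.log n) ^ 2 + 2 * (s - Real.log n) ^ 2 := by
              nlinarith [sq_nonneg (u + s - 2 * Real.log n)]
            nlinarith
        _ = Real.exp b * ((∑ n ∈ (Finset.range N).filter (fun n : ℕ => ⌊Real.log n⌋₊ = k),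
              w n) * Real.exp (-(b / 2) * (u - s) ^ 2)) := by
            rw [← Finset.sum_mul]; ring
        _ ≤ _ := by
            apply mul_le_mul_of_nonneg_left _ (Real.exp_pos _).le
            apply mul_le_mul_of_nonneg_right _ (Real.exp_pos _).le
            exact hblock k N s hs1 hs2
    refine (Finset.sum_le_sum hk).trans ?_
    rw [intervalIntegral.sum_integral_adjacent_intervals
      (a := fun k : ℕ => (k : ℝ)) (fun k _ => hcont.intervalIntegrable _ _)]
    rw [intervalIntegral.integral_of_le (Nat.cast_le.2 (Nat.zero_le N)), ← integral_const_mul]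
    apply setIntegral_le_integral (hint.const_mul _)
    exact Filter.Eventually.of_forall hnn
  refine ⟨summable_of_sum_range_le hterm hpart, ?_⟩
  exact Real.tsum_le_of_sum_range_le hterm hpart

/-- Chebyshev bound in a block -/
theorem block_lam (k N : ℕ) :
    ∑ n ∈ (Finset.range N).filter (fun n : ℕ => ⌊Real.log n⌋₊ = k), ArithmeticFunction.vonMangoldt n ≤
      6 * Real.exp (k + 1) := by
  have hpos := (Real.exp_pos ((k : ℝ) + 1)).le
  have h := Chebyshev.psi_le_const_mul_self (x := Real.exp (k + 1)) hpos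
  have h3 : Real.log 4 ≤ 2 := by
    have : Real.log 4 = 2 * Real.log 2 := by
      rw [show (4 : ℝ) = 2 ^ 2 by norm_num, Real.log_pow]; norm_num
    have := Real.log_two_lt_d9
    linarith
  have h4 : (Real.log 4 + 4) * Real.exp (k + 1) ≤ 6 * Real.exp (k + 1) :=
    mul_le_mul_of_nonneg_right (by linarith) hpos
  refine le_trans ?_ (h.trans h4)
  rw [Chebyshev.psi, ← Finset.sum_filter_ne_zero]
  apply Finset.sum_le_sum_of_subset_of_nonneg _
    (fun _ _ _ => ArithmeticFunction.vonMangoldt_nonneg)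
  intro n hn
  obtain ⟨hn, hne⟩ := Finset.mem_filter.1 hn
  have hfl := (Finset.mem_filter.1 hn).2
  have hn0 : 0 < n := by
    rcases Nat.eq_zero_or_pos n with rfl | h
    · simp at hne
    · exact h
  rw [Finset.mem_Ioc]
  refine ⟨hn0, ?_⟩
  apply Nat.le_floor
  rw [← Real.log_le_iff_le_exp (by exact_mod_cast hn0)]
  rw [← hfl]
  exact (Nat.lt_floor_add_one _).le

theorem block_lower {n k : ℕ} (hn0 : 0 < n) (hfl : ⌊Real.log n⌋₊ = k) : Real.exp k ≤ n := by
  rw [← Real.le_log_iff_exp_le (by exact_mod_cast hn0), ← hfl]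
  exact Nat.floor_le (Real.log_natCast_nonneg n)

theorem block_sq (k N : ℕ) (s : ℝ) (h1 : (k : ℝ) ≤ s) :
    ∑ n ∈ (Finset.range N).filter (fun n : ℕ => ⌊Real.log n⌋₊ = k),
      (ArithmeticFunction.vonMangoldt n) ^ 2 / n ≤ 6 * Real.exp 1 * (|s| + 1) := by
  calc ∑ n ∈ (Finset.range N).filter (fun n : ℕ => ⌊Real.log n⌋₊ = k),
        (ArithmeticFunction.vonMangoldt n) ^ 2 / n
      ≤ ∑ n ∈ (Finset.range N).filter (fun n : ℕ => ⌊Real.log n⌋₊ = k),
        ((k + 1) / Real.exp k) * ArithmeticFunction.vonMangoldt n := by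
        apply Finset.sum_le_sum
        intro n hn
        have hfl := (Finset.mem_filter.1 hn).2
        rcases Nat.eq_zero_or_pos n with rfl | hn0
        · simp
        have hl := block_lower hn0 hfl
        have h2 : ArithmeticFunction.vonMangoldt n ≤ k + 1 := by
          refine ArithmeticFunction.vonMangoldt_le_log.trans ?_
          rw [← hfl]; exact (Nat.lt_floor_add_one _).le
        have h3 : 0 ≤ ArithmeticFunction.vonMangoldt n := ArithmeticFunction.vonMangoldt_nonneg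
        have hn0' : (0 : ℝ) < n := by exact_mod_cast hn0
        rw [sq, div_mul_eq_mul_div]
        have he := Real.exp_pos (k : ℝ)
        gcongr
    _ = ((k + 1) / Real.exp k) * ∑ n ∈ (Finset.range N).filter (fun n : ℕ => ⌊Real.log n⌋₊ = k),
        ArithmeticFunction.vonMangoldt n := by rw [Finset.mul_sum]
    _ ≤ ((k + 1) / Real.exp k) * (6 * Real.exp (k + 1)) := by
        apply mul_le_mul_of_nonneg_left (block_lam k N) (by positivity)
    _ = 6 * Real.exp 1 * (k + 1) := by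
        rw [Real.exp_add]; field_simp
    _ ≤ 6 * Real.exp 1 * (|s| + 1) := by
        apply mul_le_mul_of_nonneg_left _ (by positivity)
        linarith [le_abs_self s]

theorem block_sqrt (k N : ℕ) (s : ℝ) (h1 : (k : ℝ) ≤ s) :
    ∑ n ∈ (Finset.range N).filter (fun n : ℕ => ⌊Real.log n⌋₊ = k),
      ArithmeticFunction.vonMangoldt n / Real.sqrt n ≤ 6 * Real.exp 1 * Real.exp (s / 2) := by
  calc ∑ n ∈ (Finset.range N).filter (fun n : ℕ => ⌊Real.log n⌋₊ = k),
        ArithmeticFunction.vonMangoldt n / Real.sqrt n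
      ≤ ∑ n ∈ (Finset.range N).filter (fun n : ℕ => ⌊Real.log n⌋₊ = k),
        (1 / Real.exp (k / 2)) * ArithmeticFunction.vonMangoldt n := by
        apply Finset.sum_le_sum
        intro n hn
        have hfl := (Finset.mem_filter.1 hn).2
        rcases Nat.eq_zero_or_pos n with rfl | hn0
        · simp
        have hl := block_lower hn0 hfl
        have h3 : 0 ≤ ArithmeticFunction.vonMangoldt n := ArithmeticFunction.vonMangoldt_nonneg
        have h4 : Real.exp (k / 2) ≤ Real.sqrt n := by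
          apply Real.le_sqrt_of_sq_le
          rw [← Real.exp_nat_mul]
          push_cast
          rw [mul_div_cancel₀ _ (by norm_num : (2 : ℝ) ≠ 0)]
          exact hl
        rw [one_div_mul_eq_div]
        have he := Real.exp_pos ((k : ℝ) / 2)
        gcongr
    _ = (1 / Real.exp (k / 2)) * ∑ n ∈ (Finset.range N).filter (fun n : ℕ => ⌊Real.log n⌋₊ = k),
        ArithmeticFunction.vonMangoldt n := by rw [Finset.mul_sum]
    _ ≤ (1 / Real.exp (k / 2)) * (6 * Real.exp (k + 1)) := by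
        apply mul_le_mul_of_nonneg_left (block_lam k N) (by positivity)
    _ = 6 * Real.exp 1 * Real.exp (k / 2) := by
        have : Real.exp ((k : ℝ) + 1) = Real.exp (k / 2) * Real.exp (k / 2) * Real.exp 1 := by
          rw [← Real.exp_add, ← Real.exp_add]; congr 1; ring
        rw [this]; field_simp
    _ ≤ 6 * Real.exp 1 * Real.exp (s / 2) := by
        apply mul_le_mul_of_nonneg_left _ (by positivity)
        apply Real.exp_le_exp.2
        linarith


theorem ntw_int0 (b : ℝ) (hb : 0 < b) : Integrable (fun v : ℝ => Real.exp (-b * v ^ 2)) :=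
  integrable_exp_neg_mul_sq hb

theorem ntw_int1 (b : ℝ) (hb : 0 < b) : Integrable (fun v : ℝ => |v| * Real.exp (-b * v ^ 2)) := by
  have := (integrable_mul_exp_neg_mul_sq hb).abs
  simpa [abs_mul] using this

/-- crude pointwise bound -/
theorem lam_sq_crude : ∃ C : ℝ, 0 < C ∧ ∀ u : ℝ, 0 ≤ u →
    Summable (fun n : ℕ => (ArithmeticFunction.vonMangoldt n) ^ 2 / n *
        Real.exp (-(u - Real.log n) ^ 2 / 2)) ∧
    ∑' n : ℕ, (ArithmeticFunction.vonMangoldt n) ^ 2 / n *
        Real.exp (-(u - Real.log n) ^ 2 / 2) ≤ C * (u + 1) := by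
  set b : ℝ := 1 / 2 / 2 with hbd
  have hb : 0 < b := by rw [hbd]; norm_num
  set M0 : ℝ := ∫ v : ℝ, Real.exp (-b * v ^ 2) with hM0
  set M1 : ℝ := ∫ v : ℝ, |v| * Real.exp (-b * v ^ 2) with hM1
  have hM0' : 0 ≤ M0 := integral_nonneg fun v => by positivity
  have hM1' : 0 ≤ M1 := integral_nonneg fun v => by positivity
  refine ⟨Real.exp (1 / 2) * (6 * Real.exp 1) * (M0 + M1) + 1, by positivity, fun u hu => ?_⟩
  have hi0 : Integrable (fun s : ℝ => Real.exp (-b * (u - s) ^ 2)) :=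
    (ntw_int0 b hb).comp_sub_left u
  have hi1 : Integrable (fun s : ℝ => |u - s| * Real.exp (-b * (u - s) ^ 2)) :=
    (ntw_int1 b hb).comp_sub_left u
  have hle : ∀ s : ℝ, 6 * Real.exp 1 * (|s| + 1) * Real.exp (-b * (u - s) ^ 2) ≤
      6 * Real.exp 1 * (|u - s| * Real.exp (-b * (u - s) ^ 2) +
        (u + 1) * Real.exp (-b * (u - s) ^ 2)) := by
    intro s
    have h1 : |s| ≤ |u - s| + u := by
      have := abs_sub_abs_le_abs_sub s u
      rw [abs_of_nonneg hu, abs_sub_comm] at this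
      linarith
    have h2 : (|s| + 1) * Real.exp (-b * (u - s) ^ 2) ≤
        (|u - s| + (u + 1)) * Real.exp (-b * (u - s) ^ 2) :=
      mul_le_mul_of_nonneg_right (by linarith) (Real.exp_pos _).le
    have h3 := mul_le_mul_of_nonneg_left h2 (by positivity : (0 : ℝ) ≤ 6 * Real.exp 1)
    linarith
  have hi2 : Integrable (fun s : ℝ => 6 * Real.exp 1 * (|u - s| * Real.exp (-b * (u - s) ^ 2) +
        (u + 1) * Real.exp (-b * (u - s) ^ 2))) := (hi1.add (hi0.const_mul _)).const_mul _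
  have hint : Integrable (fun s : ℝ => 6 * Real.exp 1 * (|s| + 1) * Real.exp (-b * (u - s) ^ 2)) := by
    apply hi2.mono' (by fun_prop)
    refine Filter.Eventually.of_forall fun s => ?_
    rw [Real.norm_of_nonneg (by positivity)]
    exact hle s
  obtain ⟨hs, hb2⟩ := block_gauss (fun n : ℕ => (ArithmeticFunction.vonMangoldt n) ^ 2 / n)
    (fun n => by positivity) (fun s => 6 * Real.exp 1 * (|s| + 1)) (by fun_prop)
    (fun s => by positivity) (fun k N s h1 _ => block_sq k N s h1) (1 / 2) u (by norm_num) hint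
  have e1 : ∀ n : ℕ, -(1 / 2) * (u - Real.log n) ^ 2 = -(u - Real.log n) ^ 2 / 2 := fun n => by ring
  simp only [e1] at hs hb2
  refine ⟨hs, hb2.trans ?_⟩
  have h5 : ∫ s : ℝ, 6 * Real.exp 1 * (|s| + 1) * Real.exp (-b * (u - s) ^ 2) ≤
      6 * Real.exp 1 * (M1 + (u + 1) * M0) := by
    refine (integral_mono hint hi2 hle).trans (le_of_eq ?_)
    rw [integral_const_mul, integral_add hi1 (hi0.const_mul _), integral_const_mul,
      integral_sub_left_eq_self (fun v : ℝ => Real.exp (-b * v ^ 2)),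
      integral_sub_left_eq_self (fun v : ℝ => |v| * Real.exp (-b * v ^ 2))]
  have h6 := mul_le_mul_of_nonneg_left h5 (Real.exp_pos (1 / 2)).le
  refine h6.trans ?_
  have h7 : M1 + (u + 1) * M0 ≤ (M0 + M1) * (u + 1) := by nlinarith
  have h8 : 0 ≤ Real.exp (1 / 2) * (6 * Real.exp 1) := by positivity
  have h9 := mul_le_mul_of_nonneg_left h7 h8
  nlinarith

theorem ntw_int_exp : Integrable (fun v : ℝ => Real.exp (v / 2) * Real.exp (-(1 / 16) * v ^ 2)) := by
  have h := ((ntw_int0 (1 / 16) (by norm_num)).comp_sub_right 4).const_mul (Real.exp 1)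
  refine h.congr (Filter.Eventually.of_forall fun v => ?_)
  simp only
  rw [← Real.exp_add, ← Real.exp_add]
  congr 1
  ring

/-- total mass bound for `Λ(n)/√n` against a wide Gaussian -/
theorem lam_sqrt_crude : ∃ C : ℝ, 0 < C ∧ ∀ u : ℝ,
    Summable (fun n : ℕ => ArithmeticFunction.vonMangoldt n / Real.sqrt n *
        Real.exp (-(u - Real.log n) ^ 2 / 8)) ∧
    ∑' n : ℕ, ArithmeticFunction.vonMangoldt n / Real.sqrt n *
        Real.exp (-(u - Real.log n) ^ 2 / 8) ≤ C * Real.exp (u / 2) := by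
  set M : ℝ := ∫ v : ℝ, Real.exp (v / 2) * Real.exp (-(1 / 16) * v ^ 2) with hM
  have hM' : 0 ≤ M := integral_nonneg fun v => by positivity
  refine ⟨Real.exp (1 / 8) * (6 * Real.exp 1) * M + 1, by positivity, fun u => ?_⟩
  have hkey : ∀ s : ℝ, 6 * Real.exp 1 * Real.exp (s / 2) * Real.exp (-(1 / 8 / 2) * (u - s) ^ 2) =
      6 * Real.exp 1 * Real.exp (u / 2) *
        (Real.exp ((s - u) / 2) * Real.exp (-(1 / 16) * (s - u) ^ 2)) := by
    intro s
    have h1 : Real.exp (s / 2) = Real.exp (u / 2) * Real.exp ((s - u) / 2) := by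
      rw [← Real.exp_add]; congr 1; ring
    have h2 : -(1 / 8 / 2) * (u - s) ^ 2 = -(1 / 16) * (s - u) ^ 2 := by ring
    rw [h1, h2]; ring
  have hint : Integrable (fun s : ℝ => 6 * Real.exp 1 * Real.exp (s / 2) *
      Real.exp (-(1 / 8 / 2) * (u - s) ^ 2)) := by
    simp only [hkey]
    exact (ntw_int_exp.comp_sub_right u).const_mul _
  obtain ⟨hs, hb2⟩ := block_gauss (fun n : ℕ => ArithmeticFunction.vonMangoldt n / Real.sqrt n)
    (fun n => div_nonneg ArithmeticFunction.vonMangoldt_nonneg (Real.sqrt_nonneg _))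
    (fun s => 6 * Real.exp 1 * Real.exp (s / 2)) (by fun_prop)
    (fun s => by positivity) (fun k N s h1 _ => block_sqrt k N s h1) (1 / 8) u (by norm_num) hint
  have e1 : ∀ n : ℕ, -(1 / 8) * (u - Real.log n) ^ 2 = -(u - Real.log n) ^ 2 / 8 := fun n => by ring
  simp only [e1] at hs hb2
  refine ⟨hs, hb2.trans ?_⟩
  have h5 : ∫ s : ℝ, 6 * Real.exp 1 * Real.exp (s / 2) * Real.exp (-(1 / 8 / 2) * (u - s) ^ 2) =
      6 * Real.exp 1 * Real.exp (u / 2) * M := by
    simp only [hkey]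
    rw [integral_const_mul,
      integral_sub_right_eq_self (fun v : ℝ => Real.exp (v / 2) * Real.exp (-(1 / 16) * v ^ 2)) u]
  rw [h5]
  have := (Real.exp_pos (u / 2)).le
  nlinarith

/-- the far tail is negligible -/
theorem lam_tail : ∃ C : ℝ, 0 < C ∧ ∀ (u G : ℝ) (N : ℕ), 0 ≤ u → 0 ≤ G → u + G ≤ Real.log N →
    ∑' n : ℕ, (if N < n then ArithmeticFunction.vonMangoldt n / Real.sqrt n *
        Real.exp (-(u - Real.log n) ^ 2 / 4) else 0) ≤ C * Real.exp (u / 2 - G ^ 2 / 8) := by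
  obtain ⟨C, hC, h⟩ := lam_sqrt_crude
  refine ⟨C, hC, fun u G N hu hG hN => ?_⟩
  obtain ⟨hs, hb⟩ := h u
  have hs2 : Summable (fun n : ℕ => Real.exp (-G ^ 2 / 8) *
      (ArithmeticFunction.vonMangoldt n / Real.sqrt n * Real.exp (-(u - Real.log n) ^ 2 / 8))) :=
    hs.mul_left _
  have hle : ∀ n : ℕ, (if N < n then ArithmeticFunction.vonMangoldt n / Real.sqrt n *
        Real.exp (-(u - Real.log n) ^ 2 / 4) else 0) ≤ Real.exp (-G ^ 2 / 8) *
      (ArithmeticFunction.vonMangoldt n / Real.sqrt n * Real.exp (-(u - Real.log n) ^ 2 / 8)) := by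
    intro n
    have hnn : 0 ≤ ArithmeticFunction.vonMangoldt n / Real.sqrt n :=
      div_nonneg ArithmeticFunction.vonMangoldt_nonneg (Real.sqrt_nonneg _)
    split_ifs with hn
    · have hl : Real.log N ≤ Real.log n := by
        rcases Nat.eq_zero_or_pos N with rfl | hN0
        · simp [Real.log_natCast_nonneg]
        · exact Real.log_le_log (by exact_mod_cast hN0) (by exact_mod_cast hn.le)
      have h1 : G ^ 2 ≤ (u - Real.log n) ^ 2 := by
        have : G ≤ Real.log n - u := by linarith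
        nlinarith
      have h2 : Real.exp (-(u - Real.log n) ^ 2 / 4) ≤
          Real.exp (-G ^ 2 / 8) * Real.exp (-(u - Real.log n) ^ 2 / 8) := by
        rw [← Real.exp_add]
        apply Real.exp_le_exp.2
        linarith
      calc ArithmeticFunction.vonMangoldt n / Real.sqrt n * Real.exp (-(u - Real.log n) ^ 2 / 4)
          ≤ ArithmeticFunction.vonMangoldt n / Real.sqrt n *
            (Real.exp (-G ^ 2 / 8) * Real.exp (-(u - Real.log n) ^ 2 / 8)) :=
            mul_le_mul_of_nonneg_left h2 hnn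
        _ = _ := by ring
    · positivity
  have hnn : ∀ n : ℕ, 0 ≤ (if N < n then ArithmeticFunction.vonMangoldt n / Real.sqrt n *
        Real.exp (-(u - Real.log n) ^ 2 / 4) else 0) := by
    intro n
    split_ifs
    · exact mul_nonneg (div_nonneg ArithmeticFunction.vonMangoldt_nonneg (Real.sqrt_nonneg _))
        (Real.exp_pos _).le
    · exact le_rfl
  have hs1 := Summable.of_nonneg_of_le hnn hle hs2
  calc _ ≤ _ := hs1.tsum_le_tsum hle hs2
    _ = Real.exp (-G ^ 2 / 8) * ∑' n : ℕ, (ArithmeticFunction.vonMangoldt n / Real.sqrt n *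
        Real.exp (-(u - Real.log n) ^ 2 / 8)) := tsum_mul_left
    _ ≤ Real.exp (-G ^ 2 / 8) * (C * Real.exp (u / 2)) :=
        mul_le_mul_of_nonneg_left hb (Real.exp_pos _).le
    _ = C * Real.exp (u / 2 - G ^ 2 / 8) := by
        have : Real.exp (u / 2 - G ^ 2 / 8) = Real.exp (-G ^ 2 / 8) * Real.exp (u / 2) := by
          rw [← Real.exp_add]; congr 1; ring
        rw [this]; ring


theorem ntw_cont_tsum (w : ℕ → ℝ) (hw : ∀ n, 0 ≤ w n) (E : ℝ → ℝ → ℝ)
    (hE : ∀ l, Continuous (fun u => E u l)) (hE0 : ∀ u l, 0 ≤ E u l) (D : ℝ → ℝ)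
    (hD : ∀ U u l, |u| ≤ U → E u l ≤ D U * Real.exp (-l ^ 2 / 8))
    (hs : Summable (fun n : ℕ => w n * Real.exp (-(Real.log n) ^ 2 / 8))) :
    Continuous (fun u : ℝ => ∑' n : ℕ, w n * E u (Real.log n)) := by
  rw [continuous_iff_continuousAt]
  intro u0
  have hon : ContinuousOn (fun u : ℝ => ∑' n : ℕ, w n * E u (Real.log n))
      (Set.Icc (u0 - 1) (u0 + 1)) := by
    apply continuousOn_tsum (u := fun n : ℕ => D (|u0| + 1) *
      (w n * Real.exp (-(Real.log n) ^ 2 / 8)))
    · intro n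
      exact (continuous_const.mul (hE _)).continuousOn
    · exact hs.mul_left _
    · intro n u hu
      rw [Real.norm_of_nonneg (mul_nonneg (hw n) (hE0 _ _))]
      have hu2 : |u| ≤ |u0| + 1 := by
        have h1 : |u - u0| ≤ 1 := abs_le.2 ⟨by linarith [hu.1], by linarith [hu.2]⟩
        have h2 := abs_sub_abs_le_abs_sub u u0
        linarith
      have h3 := mul_le_mul_of_nonneg_left (hD _ u (Real.log n) hu2) (hw n)
      refine h3.trans (le_of_eq ?_)
      ring
  exact hon.continuousAt (Icc_mem_nhds (by linarith) (by linarith))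

/-- the contribution of the powers of one prime -/
noncomputable def ppt (p n : ℕ) : ℝ :=
  open Classical in if ∃ j : ℕ, n = p ^ (j + 1) then Real.log p / Real.sqrt n else 0

theorem ppt_nonneg (p n : ℕ) : 0 ≤ ppt p n := by
  unfold ppt
  split_ifs
  · exact div_nonneg (Real.log_natCast_nonneg p) (Real.sqrt_nonneg _)
  · exact le_rfl

theorem ppt_sum (p : ℕ) (hp : p.Prime) :
    Summable (ppt p) ∧ ∑' n, ppt p n ≤ 4 * (Real.log p / Real.sqrt p) := by
  have hp2 : (2 : ℝ) ≤ p := by exact_mod_cast hp.two_le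
  set r : ℝ := 1 / Real.sqrt p with hr
  have hsp : 0 < Real.sqrt p := Real.sqrt_pos.2 (by linarith)
  have hr0 : 0 < r := by rw [hr]; positivity
  have hr1 : r ≤ 3 / 4 := by
    rw [hr, div_le_iff₀ hsp]
    have h1 : (4 / 3 : ℝ) ≤ Real.sqrt p := by
      apply Real.le_sqrt_of_sq_le
      norm_num
      linarith
    linarith
  have hinj : Function.Injective (fun j : ℕ => p ^ (j + 1)) := by
    intro a b hab
    have := Nat.pow_right_injective hp.two_le hab
    omega
  have hval : ∀ j : ℕ, ppt p (p ^ (j + 1)) = Real.log p * r * r ^ j := by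
    intro j
    unfold ppt
    rw [if_pos ⟨j, rfl⟩]
    have h1 : Real.sqrt ((p ^ (j + 1) : ℕ) : ℝ) = Real.sqrt p ^ (j + 1) := by
      push_cast
      rw [Real.sqrt_eq_iff_mul_self_eq (by positivity) (by positivity), ← mul_pow,
        Real.mul_self_sqrt (by positivity)]
    rw [h1, hr, one_div, inv_pow, pow_succ]
    have hpj : Real.sqrt p ^ j ≠ 0 := by positivity
    field_simp
  have hgeo : HasSum (fun j : ℕ => ppt p (p ^ (j + 1))) (Real.log p * r * (1 - r)⁻¹) := by
    simp only [hval]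
    exact (hasSum_geometric_of_lt_one hr0.le (by linarith)).mul_left _
  have hs : HasSum (ppt p) (Real.log p * r * (1 - r)⁻¹) := by
    rw [← hinj.hasSum_iff]
    · exact hgeo
    · intro n hn
      unfold ppt
      rw [if_neg]
      rintro ⟨j, rfl⟩
      exact hn ⟨j, rfl⟩
  refine ⟨hs.summable, ?_⟩
  rw [hs.tsum_eq]
  have h2 : (1 - r)⁻¹ ≤ 4 := by
    rw [inv_le_comm₀ (by linarith) (by norm_num)]
    linarith
  have h3 : 0 ≤ Real.log p * r := mul_nonneg (Real.log_natCast_nonneg p) hr0.le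
  calc Real.log p * r * (1 - r)⁻¹ ≤ Real.log p * r * 4 := mul_le_mul_of_nonneg_left h2 h3
    _ = 4 * (Real.log p / Real.sqrt p) := by rw [hr]; ring

/-- coefficients of the non coprime sum -/
noncomputable def ncc (q n : ℕ) : ℝ :=
  if Nat.Coprime n q then 0 else ArithmeticFunction.vonMangoldt n / Real.sqrt n

theorem ncc_nonneg (q n : ℕ) : 0 ≤ ncc q n := by
  unfold ncc
  split_ifs
  · exact le_rfl
  · exact div_nonneg ArithmeticFunction.vonMangoldt_nonneg (Real.sqrt_nonneg _)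

theorem ncc_le (q n : ℕ) (hq : 1 ≤ q) : ncc q n ≤ ∑ p ∈ q.primeFactors, ppt p n := by
  have hnn : 0 ≤ ∑ p ∈ q.primeFactors, ppt p n := Finset.sum_nonneg fun p _ => ppt_nonneg p n
  unfold ncc
  split_ifs with h
  · exact hnn
  · by_cases hpp : IsPrimePow n
    · obtain ⟨p, k, hp, hk, hn⟩ := hpp
      rw [← Nat.prime_iff] at hp
      subst hn
      obtain ⟨j, rfl⟩ : ∃ j, k = j + 1 := ⟨k - 1, by omega⟩
      have hpq : p ∈ q.primeFactors := by
        rw [Nat.mem_primeFactors]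
        refine ⟨hp, ?_, by omega⟩
        by_contra hnd
        apply h
        exact Nat.Coprime.pow_left _ ((Nat.Prime.coprime_iff_not_dvd hp).2 hnd)
      have h1 : ArithmeticFunction.vonMangoldt (p ^ (j + 1)) = Real.log p := by
        rw [ArithmeticFunction.vonMangoldt_apply_pow (by omega),
          ArithmeticFunction.vonMangoldt_apply_prime hp]
      calc ArithmeticFunction.vonMangoldt (p ^ (j + 1)) / Real.sqrt ((p ^ (j + 1) : ℕ) : ℝ)
          = ppt p (p ^ (j + 1)) := by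
            unfold ppt
            rw [if_pos ⟨j, rfl⟩, h1]
        _ ≤ ∑ p' ∈ q.primeFactors, ppt p' (p ^ (j + 1)) :=
            Finset.single_le_sum (f := fun p' => ppt p' (p ^ (j + 1)))
              (fun p' _ => ppt_nonneg p' _) hpq
    · have : ArithmeticFunction.vonMangoldt n = 0 := by
        rw [ArithmeticFunction.vonMangoldt_eq_zero_iff]; exact hpp
      rw [this, zero_div]
      exact hnn

theorem ncc_summable (q : ℕ) (hq : 1 ≤ q) : Summable (ncc q) := by
  refine Summable.of_nonneg_of_le (ncc_nonneg q) (fun n => ncc_le q n hq) ?_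
  apply summable_sum
  intro p hp
  exact (ppt_sum p (Nat.prime_of_mem_primeFactors hp)).1

theorem ncc_tsum_le (q : ℕ) (hq : 1 ≤ q) :
    ∑' n, ncc q n ≤ ∑ p ∈ q.primeFactors, 4 * (Real.log p / Real.sqrt p) := by
  have hs : ∀ p ∈ q.primeFactors, Summable (ppt p) := fun p hp =>
    (ppt_sum p (Nat.prime_of_mem_primeFactors hp)).1
  calc ∑' n, ncc q n ≤ ∑' n, ∑ p ∈ q.primeFactors, ppt p n :=
        (ncc_summable q hq).tsum_le_tsum (fun n => ncc_le q n hq) (summable_sum hs)
    _ = ∑ p ∈ q.primeFactors, ∑' n, ppt p n := Summable.tsum_finsetSum hs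
    _ ≤ _ := Finset.sum_le_sum fun p hp => (ppt_sum p (Nat.prime_of_mem_primeFactors hp)).2

theorem ncc_tsum_bound (ε : ℝ) (hε : 0 < ε) : ∃ C : ℝ, 0 < C ∧ ∀ q : ℕ, 1 ≤ q →
    ∑' n, ncc q n ≤ ε * Real.log q + C := by
  obtain ⟨Y, hY⟩ := exists_nat_gt ((4 / ε) ^ 2)
  have hC : 0 ≤ ∑ p ∈ Finset.range (Y + 1), 4 * (Real.log (p : ℝ) / Real.sqrt p) :=
    Finset.sum_nonneg fun p _ => mul_nonneg (by norm_num)
      (div_nonneg (Real.log_natCast_nonneg p) (Real.sqrt_nonneg _))
  refine ⟨(∑ p ∈ Finset.range (Y + 1), 4 * (Real.log (p : ℝ) / Real.sqrt p)) + 1, by linarith,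
    fun q hq => ?_⟩
  refine (ncc_tsum_le q hq).trans ?_
  rw [← Finset.sum_filter_add_sum_filter_not q.primeFactors (fun p => p ≤ Y)]
  have h1 : ∑ p ∈ q.primeFactors.filter (fun p => p ≤ Y), 4 * (Real.log (p : ℝ) / Real.sqrt p) ≤
      ∑ p ∈ Finset.range (Y + 1), 4 * (Real.log (p : ℝ) / Real.sqrt p) := by
    apply Finset.sum_le_sum_of_subset_of_nonneg
    · intro p hp
      rw [Finset.mem_range]
      have := (Finset.mem_filter.1 hp).2
      omega
    · intro p _ _
      exact mul_nonneg (by norm_num)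
        (div_nonneg (Real.log_natCast_nonneg p) (Real.sqrt_nonneg _))
  have h2 : ∑ p ∈ q.primeFactors.filter (fun p => ¬ p ≤ Y), 4 * (Real.log (p : ℝ) / Real.sqrt p) ≤
      ε * Real.log q := by
    calc ∑ p ∈ q.primeFactors.filter (fun p => ¬ p ≤ Y), 4 * (Real.log (p : ℝ) / Real.sqrt p)
        ≤ ∑ p ∈ q.primeFactors.filter (fun p => ¬ p ≤ Y), ε * Real.log p := by
          apply Finset.sum_le_sum
          intro p hp
          obtain ⟨hp1, hp2⟩ := Finset.mem_filter.1 hp
          have hpY : (Y : ℝ) ≤ p := by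
            have : Y < p := by omega
            exact_mod_cast this.le
          have hl : 0 ≤ Real.log (p : ℝ) := Real.log_natCast_nonneg p
          have hsq : 4 / ε ≤ Real.sqrt p := by
            apply Real.le_sqrt_of_sq_le
            linarith
          have hsp : 0 < Real.sqrt p := lt_of_lt_of_le (by positivity) hsq
          rw [div_le_iff₀ hε] at hsq
          rw [mul_div_assoc', div_le_iff₀ hsp]
          nlinarith
      _ ≤ ∑ p ∈ q.primeFactors, ε * Real.log p := by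
          apply Finset.sum_le_sum_of_subset_of_nonneg (Finset.filter_subset _ _)
          intro p _ _
          exact mul_nonneg hε.le (Real.log_natCast_nonneg p)
      _ = ε * ∑ p ∈ q.primeFactors, Real.log p := by rw [Finset.mul_sum]
      _ ≤ ε * Real.log q := by
          apply mul_le_mul_of_nonneg_left _ hε.le
          rw [← Real.log_prod (fun p hp => by
            have := (Nat.prime_of_mem_primeFactors hp).pos
            positivity)]
          apply Real.log_le_log
          · apply Finset.prod_pos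
            intro p hp
            exact_mod_cast (Nat.prime_of_mem_primeFactors hp).pos
          · have := Nat.le_of_dvd hq (Nat.prod_primeFactors_dvd q)
            calc (∏ p ∈ q.primeFactors, (p : ℝ)) = ((∏ p ∈ q.primeFactors, p : ℕ) : ℝ) := by
                  rw [Nat.cast_prod]
              _ ≤ (q : ℝ) := Nat.cast_le.2 this
  linarith

theorem ncc_term (q : ℕ) (u : ℝ) (n : ℕ) : (if Nat.Coprime n q then 0 else
        ArithmeticFunction.vonMangoldt n / Real.sqrt n * Real.exp (-(u - Real.log n) ^ 2 / 4)) =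
    ncc q n * Real.exp (-(u - Real.log n) ^ 2 / 4) := by
  unfold ncc
  split_ifs
  · rw [zero_mul]
  · rfl

theorem ncc_mul_le (q : ℕ) (u : ℝ) (n : ℕ) :
    ncc q n * Real.exp (-(u - Real.log n) ^ 2 / 4) ≤ ncc q n := by
  apply mul_le_of_le_one_right (ncc_nonneg q n)
  rw [Real.exp_le_one_iff]
  have := sq_nonneg (u - Real.log n)
  linarith

/-- prime powers of primes dividing `q` -/
theorem noncop_bound (ε : ℝ) (hε : 0 < ε) : ∃ C : ℝ, 0 < C ∧ ∀ (q : ℕ) (u : ℝ), 1 ≤ q → 0 ≤ u →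
    Summable (fun n : ℕ => (if Nat.Coprime n q then 0 else
        ArithmeticFunction.vonMangoldt n / Real.sqrt n * Real.exp (-(u - Real.log n) ^ 2 / 4))) ∧
    ∑' n : ℕ, (if Nat.Coprime n q then 0 else
        ArithmeticFunction.vonMangoldt n / Real.sqrt n * Real.exp (-(u - Real.log n) ^ 2 / 4)) ≤
      ε * Real.log q + C := by
  obtain ⟨C, hC, h⟩ := ncc_tsum_bound ε hε
  refine ⟨C, hC, fun q u hq _ => ?_⟩
  simp only [ncc_term]
  have hs : Summable (fun n => ncc q n * Real.exp (-(u - Real.log n) ^ 2 / 4)) :=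
    Summable.of_nonneg_of_le (fun n => mul_nonneg (ncc_nonneg q n) (Real.exp_pos _).le)
      (fun n => ncc_mul_le q u n) (ncc_summable q hq)
  exact ⟨hs, (hs.tsum_le_tsum (fun n => ncc_mul_le q u n) (ncc_summable q hq)).trans (h q hq)⟩

theorem noncop_cont_aux (q : ℕ) (hq : 1 ≤ q) : Continuous (fun u : ℝ =>
    ∑' n : ℕ, ncc q n * Real.exp (-(u - Real.log n) ^ 2 / 4)) := by
  apply continuous_tsum (u := ncc q) (fun n => by fun_prop) (ncc_summable q hq)
  intro n u
  rw [Real.norm_of_nonneg (mul_nonneg (ncc_nonneg q n) (Real.exp_pos _).le)]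
  exact ncc_mul_le q u n

/-- mean square over `u` of the same sum -/
theorem noncop_sq (ε : ℝ) (hε : 0 < ε) : ∃ C : ℝ, 0 < C ∧ ∀ (q : ℕ) (Λ : ℝ), 1 ≤ q → 0 ≤ Λ →
    ∫ u in (0 : ℝ)..Λ, (∑' n : ℕ, (if Nat.Coprime n q then 0 else
        ArithmeticFunction.vonMangoldt n / Real.sqrt n * Real.exp (-(u - Real.log n) ^ 2 / 4))) ^ 2 ≤
      ε * Real.log q ^ 2 + C := by
  set g : ℝ := ∫ v : ℝ, Real.exp (-(1 / 4) * v ^ 2) with hg
  have hg0 : 0 ≤ g := integral_nonneg fun v => (Real.exp_pos _).le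
  -- choice of the inner `ε`
  obtain ⟨e, he, he2⟩ : ∃ e : ℝ, 0 < e ∧ 2 * g * e ^ 2 ≤ ε := by
    refine ⟨Real.sqrt (ε / (2 * g + 1)), Real.sqrt_pos.2 (by positivity), ?_⟩
    rw [Real.sq_sqrt (by positivity), mul_div_assoc', div_le_iff₀ (by positivity)]
    nlinarith
  obtain ⟨C, hC, h⟩ := ncc_tsum_bound e he
  refine ⟨2 * g * C ^ 2 + 1, by positivity, fun q Λ hq hΛ => ?_⟩
  simp only [ncc_term]
  set A : ℝ := ∑' n, ncc q n with hA
  have hA0 : 0 ≤ A := tsum_nonneg (ncc_nonneg q)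
  have hAle := h q hq
  set S : ℝ → ℝ := fun u => ∑' n : ℕ, ncc q n * Real.exp (-(u - Real.log n) ^ 2 / 4) with hS
  have hScont : Continuous S := noncop_cont_aux q hq
  have hsum : ∀ u, Summable (fun n => ncc q n * Real.exp (-(u - Real.log n) ^ 2 / 4)) := fun u =>
    Summable.of_nonneg_of_le (fun n => mul_nonneg (ncc_nonneg q n) (Real.exp_pos _).le)
      (fun n => ncc_mul_le q u n) (ncc_summable q hq)
  have hS0 : ∀ u, 0 ≤ S u := fun u =>
    tsum_nonneg fun n => mul_nonneg (ncc_nonneg q n) (Real.exp_pos _).le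
  have hSA : ∀ u, S u ≤ A := fun u =>
    (hsum u).tsum_le_tsum (fun n => ncc_mul_le q u n) (ncc_summable q hq)
  have h1 : ∫ u in (0 : ℝ)..Λ, (S u) ^ 2 ≤ ∫ u in (0 : ℝ)..Λ, A * S u := by
    apply intervalIntegral.integral_mono_on hΛ ((hScont.pow 2).intervalIntegrable _ _)
      ((continuous_const.mul hScont).intervalIntegrable _ _)
    intro u _
    have h1 := hS0 u
    have h2 := hSA u
    show (S u) ^ 2 ≤ A * S u
    rw [sq]
    exact mul_le_mul_of_nonneg_right h2 h1
  -- the integral of `S`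
  have h2 : ∫ u in (0 : ℝ)..Λ, S u ≤ A * g := by
    have hHS : HasSum (fun n : ℕ => ∫ u in (0 : ℝ)..Λ, ncc q n * Real.exp (-(u - Real.log n) ^ 2 / 4))
        (∫ u in (0 : ℝ)..Λ, S u) := by
      apply intervalIntegral.hasSum_integral_of_dominated_convergence (bound := fun n _ => ncc q n)
      · intro n
        apply Continuous.aestronglyMeasurable
        fun_prop
      · intro n
        refine Filter.Eventually.of_forall fun u _ => ?_
        rw [Real.norm_of_nonneg (mul_nonneg (ncc_nonneg q n) (Real.exp_pos _).le)]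
        exact ncc_mul_le q u n
      · exact Filter.Eventually.of_forall fun u _ => ncc_summable q hq
      · exact continuous_const.intervalIntegrable _ _
      · exact Filter.Eventually.of_forall fun u _ => (hsum u).hasSum
    have hterm : ∀ n : ℕ, ∫ u in (0 : ℝ)..Λ, ncc q n * Real.exp (-(u - Real.log n) ^ 2 / 4) ≤
        ncc q n * g := by
      intro n
      rw [intervalIntegral.integral_const_mul]
      apply mul_le_mul_of_nonneg_left _ (ncc_nonneg q n)
      have hi : Integrable (fun u : ℝ => Real.exp (-(1 / 4) * (u - Real.log n) ^ 2)) :=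
        (ntw_int0 (1 / 4) (by norm_num)).comp_sub_right _
      have e1 : ∀ u : ℝ, -(u - Real.log n) ^ 2 / 4 = -(1 / 4) * (u - Real.log n) ^ 2 := fun u => by ring
      simp only [e1]
      rw [intervalIntegral.integral_of_le hΛ, hg,
        ← integral_sub_right_eq_self (fun v : ℝ => Real.exp (-(1 / 4) * v ^ 2)) (Real.log n)]
      exact setIntegral_le_integral hi (Filter.Eventually.of_forall fun u => (Real.exp_pos _).le)
    have := hasSum_le hterm hHS ((ncc_summable q hq).hasSum.mul_right g)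
    exact this
  rw [intervalIntegral.integral_const_mul] at h1
  have hlq : 0 ≤ Real.log q := Real.log_natCast_nonneg q
  have h3 : A * (∫ u in (0 : ℝ)..Λ, S u) ≤ A * (A * g) := mul_le_mul_of_nonneg_left h2 hA0
  have h4 : A ^ 2 ≤ (e * Real.log q + C) ^ 2 := pow_le_pow_left₀ hA0 hAle 2
  have h5 : (e * Real.log q + C) ^ 2 ≤ 2 * (e ^ 2 * Real.log q ^ 2) + 2 * C ^ 2 := by
    nlinarith [sq_nonneg (e * Real.log q - C)]
  have h6 : g * A ^ 2 ≤ g * (2 * (e ^ 2 * Real.log q ^ 2) + 2 * C ^ 2) :=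
    mul_le_mul_of_nonneg_left (h4.trans h5) hg0
  have h7 : 2 * g * e ^ 2 * Real.log q ^ 2 ≤ ε * Real.log q ^ 2 :=
    mul_le_mul_of_nonneg_right he2 (sq_nonneg _)
  calc ∫ u in (0 : ℝ)..Λ, (S u) ^ 2 ≤ A * (A * g) := h1.trans h3
    _ = g * A ^ 2 := by ring
    _ ≤ g * (2 * (e ^ 2 * Real.log q ^ 2) + 2 * C ^ 2) := h6
    _ ≤ ε * Real.log q ^ 2 + (2 * g * C ^ 2 + 1) := by nlinarith

theorem noncop_cont (q : ℕ) : Continuous (fun u : ℝ =>
    ∑' n : ℕ, (if Nat.Coprime n q then 0 else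
        ArithmeticFunction.vonMangoldt n / Real.sqrt n *
          Real.exp (-(u - Real.log n) ^ 2 / 4))) := by
  simp only [ncc_term]
  rcases Nat.eq_zero_or_pos q with rfl | hq
  · obtain ⟨C, hC, h⟩ := lam_sqrt_crude
    have hs : Summable (fun n : ℕ => ncc 0 n * Real.exp (-(Real.log n) ^ 2 / 8)) := by
      refine Summable.of_nonneg_of_le (fun n => mul_nonneg (ncc_nonneg 0 n) (Real.exp_pos _).le)
        (fun n => ?_) (h 0).1
      have e1 : -(Real.log (n : ℝ)) ^ 2 / 8 = -(0 - Real.log (n : ℝ)) ^ 2 / 8 := by ring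
      rw [e1]
      apply mul_le_mul_of_nonneg_right _ (Real.exp_pos _).le
      unfold ncc
      split_ifs
      · exact div_nonneg ArithmeticFunction.vonMangoldt_nonneg (Real.sqrt_nonneg _)
      · exact le_rfl
    apply ntw_cont_tsum (ncc 0) (ncc_nonneg 0) (fun u l => Real.exp (-(u - l) ^ 2 / 4))
      (fun l => by fun_prop) (fun u l => (Real.exp_pos _).le) (fun U => Real.exp (U ^ 2 / 4)) _ hs
    intro U u l hu
    rw [← Real.exp_add]
    apply Real.exp_le_exp.2
    have hU : u ^ 2 ≤ U ^ 2 := sq_le_sq' (by linarith [(abs_le.1 hu).1]) (abs_le.1 hu).2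
    nlinarith [sq_nonneg (2 * u - l)]
  · exact noncop_cont_aux q hq

theorem lam_sq_cont : Continuous (fun u : ℝ =>
    ∑' n : ℕ, (ArithmeticFunction.vonMangoldt n) ^ 2 / n * Real.exp (-(u - Real.log n) ^ 2)) := by
  apply ntw_cont_tsum (fun n : ℕ => (ArithmeticFunction.vonMangoldt n) ^ 2 / n)
    (fun n => by positivity) (fun u l => Real.exp (-(u - l) ^ 2))
    (fun l => by fun_prop) (fun u l => (Real.exp_pos _).le) (fun U => Real.exp (U ^ 2)) _ nt_summable
  intro U u l hu
  rw [← Real.exp_add]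
  apply Real.exp_le_exp.2
  have hU : u ^ 2 ≤ U ^ 2 := sq_le_sq' (by linarith [(abs_le.1 hu).1]) (abs_le.1 hu).2
  nlinarith [sq_nonneg (2 * u - l), sq_nonneg l]


end H385
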