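import Pool.Agent.H385R2.Defs5
import Pool.Agent.H385R2.NTW

/-! Prime sums for stage 2 (TEAM Q, S7 and S7b; helper454). -/

open Finset MeasureTheory

namespace H385

open H370

theorem block_one (k N : ℕ) :
    ∑ n ∈ (Finset.range N).filter (fun n : ℕ => ⌊Real.log n⌋₊ = k),
      ArithmeticFunction.vonMangoldt n / n ≤ 6 * Real.exp 1 := by
  calc ∑ n ∈ (Finset.range N).filter (fun n : ℕ => ⌊Real.log n⌋₊ = k),
        ArithmeticFunction.vonMangoldt n / n
      ≤ ∑ n ∈ (Finset.range N).filter (fun n : ℕ => ⌊Real.log n⌋₊ = k),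
        (1 / Real.exp k) * ArithmeticFunction.vonMangoldt n := by
        apply Finset.sum_le_sum
        intro n hn
        have hfl := (Finset.mem_filter.1 hn).2
        rcases Nat.eq_zero_or_pos n with rfl | hn0
        · simp
        have hl := block_lower hn0 hfl
        have h3 : 0 ≤ ArithmeticFunction.vonMangoldt n := ArithmeticFunction.vonMangoldt_nonneg
        rw [one_div_mul_eq_div]
        have he := Real.exp_pos (k : ℝ)
        gcongr
    _ = (1 / Real.exp k) * ∑ n ∈ (Finset.range N).filter (fun n : ℕ => ⌊Real.log n⌋₊ = k),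
        ArithmeticFunction.vonMangoldt n := by rw [Finset.mul_sum]
    _ ≤ (1 / Real.exp k) * (6 * Real.exp (k + 1)) := by
        apply mul_le_mul_of_nonneg_left (block_lam k N) (by positivity)
    _ = 6 * Real.exp 1 := by
        rw [Real.exp_add]; field_simp

/-- `∑ Λ(n)/n e^{-c (u - log n)²}` -/
theorem lam_one_gen (c : ℝ) (hc : 0 < c) : ∃ C : ℝ, 0 < C ∧ ∀ u : ℝ,
    Summable (fun n : ℕ => (ArithmeticFunction.vonMangoldt n) / n *
        Real.exp (-c * (u - Real.log n) ^ 2)) ∧
    ∑' n : ℕ, (ArithmeticFunction.vonMangoldt n) / n *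
        Real.exp (-c * (u - Real.log n) ^ 2) ≤ C := by
  set M : ℝ := ∫ v : ℝ, Real.exp (-(c / 2) * v ^ 2) with hM
  have hM' : 0 ≤ M := integral_nonneg fun v => by positivity
  refine ⟨Real.exp c * (6 * Real.exp 1 * M) + 1, by positivity, fun u => ?_⟩
  have hint : Integrable (fun s : ℝ => 6 * Real.exp 1 * Real.exp (-(c / 2) * (u - s) ^ 2)) :=
    ((ntw_int0 (c / 2) (by positivity)).comp_sub_left u).const_mul _
  obtain ⟨hs, hb2⟩ := block_gauss (fun n : ℕ => ArithmeticFunction.vonMangoldt n / n)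
    (fun n => div_nonneg ArithmeticFunction.vonMangoldt_nonneg (Nat.cast_nonneg _))
    (fun _ => 6 * Real.exp 1) (by fun_prop)
    (fun s => by positivity) (fun k N s _ _ => block_one k N) c u hc hint
  refine ⟨hs, hb2.trans ?_⟩
  rw [integral_const_mul, integral_sub_left_eq_self (fun v : ℝ => Real.exp (-(c / 2) * v ^ 2))]
  linarith

/-- pointwise facts about the same sum (Chebyshev) -/
theorem lam_one_crude : ∃ C : ℝ, 0 < C ∧ ∀ u : ℝ, 0 ≤ u →
    Summable (fun n : ℕ => (ArithmeticFunction.vonMangoldt n) / n *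
        Real.exp (-(u - Real.log n) ^ 2 / 2)) ∧
    ∑' n : ℕ, (ArithmeticFunction.vonMangoldt n) / n *
        Real.exp (-(u - Real.log n) ^ 2 / 2) ≤ C := by
  obtain ⟨C, hC, h⟩ := lam_one_gen (1 / 2) (by norm_num)
  refine ⟨C, hC, fun u _ => ?_⟩
  have e1 : ∀ n : ℕ, -(1 / 2) * (u - Real.log n) ^ 2 = -(u - Real.log n) ^ 2 / 2 := fun n => by ring
  have := h u
  simpa only [e1] using this

theorem lam_half_crude : ∃ C : ℝ, 0 < C ∧ ∀ u : ℝ, 0 ≤ u →
    Summable (fun n : ℕ => (ArithmeticFunction.vonMangoldt n) / Real.sqrt n *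
        Real.exp (-(u - Real.log n) ^ 2 / 4)) ∧
    ∑' n : ℕ, (ArithmeticFunction.vonMangoldt n) / Real.sqrt n *
        Real.exp (-(u - Real.log n) ^ 2 / 4) ≤ C * Real.exp (u / 2) := by
  obtain ⟨C, hC, h⟩ := lam_sqrt_crude
  refine ⟨C, hC, fun u _ => ?_⟩
  obtain ⟨hs, hb⟩ := h u
  have hnn : ∀ n : ℕ, 0 ≤ ArithmeticFunction.vonMangoldt n / Real.sqrt n := fun n =>
    div_nonneg ArithmeticFunction.vonMangoldt_nonneg (Real.sqrt_nonneg _)
  have hle : ∀ n : ℕ, (ArithmeticFunction.vonMangoldt n) / Real.sqrt n *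
        Real.exp (-(u - Real.log n) ^ 2 / 4) ≤ (ArithmeticFunction.vonMangoldt n) / Real.sqrt n *
        Real.exp (-(u - Real.log n) ^ 2 / 8) := by
    intro n
    apply mul_le_mul_of_nonneg_left _ (hnn n)
    apply Real.exp_le_exp.2
    nlinarith [sq_nonneg (u - Real.log n)]
  have hs2 := Summable.of_nonneg_of_le
    (fun n => mul_nonneg (hnn n) (Real.exp_pos _).le) hle hs
  exact ⟨hs2, (hs2.tsum_le_tsum hle hs).trans hb⟩

theorem ntw_cont_tsum' (w : ℕ → ℝ) (hw : ∀ n, 0 ≤ w n) (E : ℝ → ℝ → ℝ)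
    (hE : ∀ l, Continuous (fun u => E u l)) (hE0 : ∀ u l, 0 ≤ E u l) (D : ℝ → ℝ) (g : ℝ → ℝ)
    (hD : ∀ U u l, |u| ≤ U → E u l ≤ D U * g l)
    (hs : Summable (fun n : ℕ => w n * g (Real.log n))) :
    Continuous (fun u : ℝ => ∑' n : ℕ, w n * E u (Real.log n)) := by
  rw [continuous_iff_continuousAt]
  intro u0
  have hon : ContinuousOn (fun u : ℝ => ∑' n : ℕ, w n * E u (Real.log n))
      (Set.Icc (u0 - 1) (u0 + 1)) := by
    apply continuousOn_tsum (u := fun n : ℕ => D (|u0| + 1) * (w n * g (Real.log n)))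
    · intro n
      exact (continuous_const.mul (hE _)).continuousOn
    · exact hs.mul_left _
    · intro n u hu
      rw [Real.norm_of_nonneg (mul_nonneg (hw n) (hE0 _ _))]
      have hu2 : |u| ≤ |u0| + 1 := by
        have h1 : |u - u0| ≤ 1 := abs_le.2 ⟨by linarith [hu.1], by linarith [hu.2]⟩
        have h2 := abs_sub_abs_le_abs_sub u u0
        linarith
      have h3 := mul_le_mul_of_nonneg_left (hD _ u (Real.log n) hu2) (hw n)
      refine h3.trans (le_of_eq ?_)
      ring
  exact hon.continuousAt (Icc_mem_nhds (by linarith) (by linarith))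

theorem lam_one_cont (c : ℝ) (hc : 0 < c) : Continuous (fun u : ℝ =>
    ∑' n : ℕ, (ArithmeticFunction.vonMangoldt n) / n * Real.exp (-(u - Real.log n) ^ 2 * c)) := by
  obtain ⟨C, hC, h⟩ := lam_one_gen (c / 2) (by positivity)
  have hs : Summable (fun n : ℕ => (ArithmeticFunction.vonMangoldt n) / n *
      Real.exp (-(c / 2) * (Real.log n) ^ 2)) := by
    have := (h 0).1
    simpa using this
  apply ntw_cont_tsum' (fun n : ℕ => (ArithmeticFunction.vonMangoldt n) / n)
    (fun n => div_nonneg ArithmeticFunction.vonMangoldt_nonneg (Nat.cast_nonneg _))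
    (fun u l => Real.exp (-(u - l) ^ 2 * c))
    (fun l => by fun_prop) (fun u l => (Real.exp_pos _).le) (fun U => Real.exp (c * U ^ 2))
    (fun l => Real.exp (-(c / 2) * l ^ 2)) _ hs
  intro U u l hu
  rw [← Real.exp_add]
  apply Real.exp_le_exp.2
  have hU : u ^ 2 ≤ U ^ 2 := sq_le_sq' (by linarith [(abs_le.1 hu).1]) (abs_le.1 hu).2
  have h1 : -(u - l) ^ 2 ≤ U ^ 2 - l ^ 2 / 2 := by nlinarith [sq_nonneg (2 * u - l)]
  have h2 := mul_le_mul_of_nonneg_right h1 hc.le
  linarith

/-- `Λ(n)/n` over the non primes is summable -/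
theorem npr_summable : Summable (fun n : ℕ => (if n.Prime then 0 else
    (ArithmeticFunction.vonMangoldt n) / (n : ℝ))) := by
  have h := ArithmeticFunction.vonMangoldt.summable_residueClass_non_primes_div (q := 1) (0 : ZMod 1)
  refine h.congr fun n => ?_
  have e : ArithmeticFunction.vonMangoldt.residueClass (0 : ZMod 1) n =
      ArithmeticFunction.vonMangoldt n := by
    unfold ArithmeticFunction.vonMangoldt.residueClass
    rw [Set.indicator_of_mem]
    exact Subsingleton.elim _ _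
  split_ifs
  · simp
  · rw [e]

theorem npr_nonneg (n : ℕ) : 0 ≤ (if n.Prime then 0 else
    (ArithmeticFunction.vonMangoldt n) / (n : ℝ)) := by
  split_ifs
  · exact le_rfl
  · exact div_nonneg ArithmeticFunction.vonMangoldt_nonneg (Nat.cast_nonneg _)

theorem npr_term (n : ℕ) (x : ℝ) : (if n.Prime then 0 else
      (ArithmeticFunction.vonMangoldt n) / n * Real.exp x) =
    (if n.Prime then 0 else (ArithmeticFunction.vonMangoldt n) / (n : ℝ)) * Real.exp x := by
  split_ifs
  · rw [zero_mul]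
  · rfl

theorem primepow_cont (c : ℝ) (hc : 0 < c) : Continuous (fun u : ℝ =>
    ∑' n : ℕ, (if n.Prime then 0 else
      (ArithmeticFunction.vonMangoldt n) / n * Real.exp (-(u - Real.log n) ^ 2 * c))) := by
  simp only [npr_term]
  apply continuous_tsum (u := fun n : ℕ => (if n.Prime then 0 else
    (ArithmeticFunction.vonMangoldt n) / (n : ℝ))) (fun n => by fun_prop) npr_summable
  intro n u
  rw [Real.norm_of_nonneg (mul_nonneg (npr_nonneg n) (Real.exp_pos _).le)]
  apply mul_le_of_le_one_right (npr_nonneg n)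
  rw [Real.exp_le_one_iff]
  nlinarith [mul_nonneg (sq_nonneg (u - Real.log n)) hc.le]

/-- higher prime powers (`Λ(n) ≠ 0`, `n` not prime) contribute little on average over `u` -/
theorem primepow_avg : ∃ C : ℝ, 0 < C ∧ ∀ Λ : ℝ, 0 ≤ Λ →
    ∫ u in (0 : ℝ)..Λ, ∑' n : ℕ, (if n.Prime then 0 else (ArithmeticFunction.vonMangoldt n) / n *
        Real.exp (-(u - Real.log n) ^ 2 / 2)) ≤ C := by
  set g : ℝ := ∫ v : ℝ, Real.exp (-(1 / 2) * v ^ 2) with hg
  have hg0 : 0 ≤ g := integral_nonneg fun v => (Real.exp_pos _).le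
  set P : ℕ → ℝ := fun n : ℕ => (if n.Prime then 0 else
    (ArithmeticFunction.vonMangoldt n) / (n : ℝ)) with hP
  have hP0 : ∀ n, 0 ≤ P n := npr_nonneg
  have hPs : Summable P := npr_summable
  have hPT : 0 ≤ ∑' n, P n := tsum_nonneg hP0
  refine ⟨(∑' n, P n) * g + 1, by positivity, fun Λ hΛ => ?_⟩
  simp only [npr_term]
  have hle : ∀ (n : ℕ) (u : ℝ), P n * Real.exp (-(u - Real.log n) ^ 2 / 2) ≤ P n := by
    intro n u
    apply mul_le_of_le_one_right (hP0 n)
    rw [Real.exp_le_one_iff]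
    nlinarith [sq_nonneg (u - Real.log n)]
  have hsum : ∀ u, Summable (fun n => P n * Real.exp (-(u - Real.log n) ^ 2 / 2)) := fun u =>
    Summable.of_nonneg_of_le (fun n => mul_nonneg (hP0 n) (Real.exp_pos _).le)
      (fun n => hle n u) hPs
  have hHS : HasSum (fun n : ℕ => ∫ u in (0 : ℝ)..Λ, P n * Real.exp (-(u - Real.log n) ^ 2 / 2))
      (∫ u in (0 : ℝ)..Λ, ∑' n : ℕ, P n * Real.exp (-(u - Real.log n) ^ 2 / 2)) := by
    apply intervalIntegral.hasSum_integral_of_dominated_convergence (bound := fun n _ => P n)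
    · intro n
      apply Continuous.aestronglyMeasurable
      fun_prop
    · intro n
      refine Filter.Eventually.of_forall fun u _ => ?_
      rw [Real.norm_of_nonneg (mul_nonneg (hP0 n) (Real.exp_pos _).le)]
      exact hle n u
    · exact Filter.Eventually.of_forall fun u _ => hPs
    · exact continuous_const.intervalIntegrable _ _
    · exact Filter.Eventually.of_forall fun u _ => (hsum u).hasSum
  have hterm : ∀ n : ℕ, ∫ u in (0 : ℝ)..Λ, P n * Real.exp (-(u - Real.log n) ^ 2 / 2) ≤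
      P n * g := by
    intro n
    rw [intervalIntegral.integral_const_mul]
    apply mul_le_mul_of_nonneg_left _ (hP0 n)
    have hi : Integrable (fun u : ℝ => Real.exp (-(1 / 2) * (u - Real.log n) ^ 2)) :=
      (ntw_int0 (1 / 2) (by norm_num)).comp_sub_right _
    have e1 : ∀ u : ℝ, -(u - Real.log n) ^ 2 / 2 = -(1 / 2) * (u - Real.log n) ^ 2 := fun u => by ring
    simp only [e1]
    rw [intervalIntegral.integral_of_le hΛ, hg,
      ← integral_sub_right_eq_self (fun v : ℝ => Real.exp (-(1 / 2) * v ^ 2)) (Real.log n)]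
    exact setIntegral_le_integral hi (Filter.Eventually.of_forall fun u => (Real.exp_pos _).le)
  have := hasSum_le hterm hHS (hPs.hasSum.mul_right g)
  linarith

end H385
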