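import Pool.Agent.H385R2.Defs5
import Pool.Agent.H385R2.NTW2

/-! Lower bound with Mertens (TEAM Q, S7; helper454). -/

open Finset MeasureTheory

namespace H385

open H370

theorem mert_log_diff (N : ℕ) (hN : 1 ≤ N) : 0 ≤ Real.log ((N + 1 : ℕ) : ℝ) - Real.log N ∧
    Real.log ((N + 1 : ℕ) : ℝ) - Real.log N ≤ 1 := by
  have hN0 : (0 : ℝ) < N := by exact_mod_cast hN
  constructor
  · have : Real.log N ≤ Real.log ((N + 1 : ℕ) : ℝ) := by
      apply Real.log_le_log hN0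
      push_cast; linarith
    linarith
  · rw [← Real.log_div (by positivity) (by positivity)]
    have h1 : (((N + 1 : ℕ) : ℝ)) / N = 1 + 1 / N := by
      push_cast; field_simp
    rw [h1]
    have h2 : (1 : ℝ) / N ≤ 1 := by
      rw [div_le_one hN0]; exact_mod_cast hN
    have h3 := Real.log_le_sub_one_of_pos (x := 1 + 1 / (N : ℝ)) (by positivity)
    linarith

/-- Abel summation against a Lipschitz function -/
theorem mert_abel (a : ℕ → ℝ) (C K : ℝ) (hC : 0 ≤ C) (hK : 0 ≤ K)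
    (hA : ∀ m : ℕ, 1 ≤ m → |∑ n ∈ Finset.Icc 1 m, a n - Real.log m| ≤ C) (H : ℝ → ℝ)
    (hH : Continuous H) (hL : ∀ x y, 0 ≤ x → 0 ≤ y → |H x - H y| ≤ K * |x - y|) (N : ℕ) (hN : 1 ≤ N) :
    |∑ n ∈ Finset.Icc 1 N, a n * H (Real.log n) - (∫ s in (0 : ℝ)..(Real.log N), H s) -
      (∑ n ∈ Finset.Icc 1 N, a n - Real.log N) * H (Real.log N)| ≤ (K + C * K) * Real.log N := by
  induction N, hN using Nat.le_induction with
  | base => simp
  | succ N hN ih =>
    obtain ⟨hd0, hd1⟩ := mert_log_diff N hN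
    have hlog0 : 0 ≤ Real.log (N : ℝ) := Real.log_natCast_nonneg N
    have hlog1 : 0 ≤ Real.log ((N + 1 : ℕ) : ℝ) := Real.log_natCast_nonneg (N + 1)
    have hA1 := hA N hN
    set l : ℝ := Real.log (N : ℝ) with hl
    set l' : ℝ := Real.log ((N + 1 : ℕ) : ℝ) with hl'
    set A : ℝ := ∑ n ∈ Finset.Icc 1 N, a n with hAdef
    rw [Finset.sum_Icc_succ_top (by omega), Finset.sum_Icc_succ_top (by omega), ← hAdef, ← hl']
    have hsplit : ∫ s in (0 : ℝ)..l', H s = (∫ s in (0 : ℝ)..l, H s) + ∫ s in l..l', H s :=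
      (intervalIntegral.integral_add_adjacent_intervals (hH.intervalIntegrable _ _)
        (hH.intervalIntegrable _ _)).symm
    rw [hsplit]
    have hlip := hL l l' hlog0 hlog1
    have habs : |l - l'| = l' - l := by rw [abs_sub_comm, abs_of_nonneg hd0]
    rw [habs] at hlip
    have hint : |(∫ s in l..l', H s) - (l' - l) * H l'| ≤ K * (l' - l) := by
      have e1 : (l' - l) * H l' = ∫ s in l..l', H l' := by
        rw [intervalIntegral.integral_const, smul_eq_mul]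
      rw [e1, ← intervalIntegral.integral_sub (hH.intervalIntegrable _ _)
        (continuous_const.intervalIntegrable _ _)]
      have h1 : ‖∫ s in l..l', (H s - H l')‖ ≤ K * |l' - l| := by
        apply intervalIntegral.norm_integral_le_of_norm_le_const
        intro s hs
        rw [Set.uIoc_of_le (by linarith)] at hs
        rw [Real.norm_eq_abs]
        have h2 := hL s l' (by linarith [hs.1]) hlog1
        have h3 : |s - l'| ≤ 1 := by
          rw [abs_le]; constructor <;> linarith [hs.1, hs.2]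
        calc |H s - H l'| ≤ K * |s - l'| := h2
          _ ≤ K * 1 := mul_le_mul_of_nonneg_left h3 hK
          _ = K := mul_one K
      rw [Real.norm_eq_abs, abs_of_nonneg hd0] at h1
      exact h1
    have hE : |(A - l) * (H l - H l')| ≤ C * K * (l' - l) := by
      rw [abs_mul]
      calc |A - l| * |H l - H l'| ≤ C * (K * (l' - l)) :=
            mul_le_mul hA1 hlip (abs_nonneg _) hC
        _ = C * K * (l' - l) := by ring
    rw [abs_le] at ih hint hE ⊢
    constructor <;> nlinarith [ih.1, ih.2, hint.1, hint.2, hE.1, hE.2]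

/-- the function `R(u/Λ) (u - α)₊` -/
noncomputable def mertH (R : ℝ → ℝ) (Λ α u : ℝ) : ℝ := R (u / Λ) * max (u - α) 0

theorem mertH_eq {R : ℝ → ℝ} (hR : NTR R) {Λ α : ℝ} (hΛ : 0 < Λ) (u : ℝ) :
    mertH R Λ α u = R (u / Λ) * max (min u Λ - α) 0 := by
  unfold mertH
  rcases le_or_gt u Λ with h | h
  · rw [min_eq_left h]
  · rw [hR.zero (u / Λ) (by rw [lt_div_iff₀ hΛ]; linarith)]
    simp

theorem mertH_cont {R : ℝ → ℝ} (hR : NTR R) (Λ α : ℝ) : Continuous (mertH R Λ α) := by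
  unfold mertH
  exact (hR.cont.comp (continuous_id.div_const Λ)).mul (by fun_prop)

theorem mertH_nonneg {R : ℝ → ℝ} (hR : NTR R) (Λ α u : ℝ) : 0 ≤ mertH R Λ α u :=
  mul_nonneg (hR.nonneg _) (le_max_right _ _)

theorem mertH_le {R : ℝ → ℝ} (hR : NTR R) (hR0 : ∀ x, R x ≤ R 0) {Λ α : ℝ} (hΛ : 0 < Λ)
    (hα : 0 ≤ α) (u : ℝ) : mertH R Λ α u ≤ R 0 * Λ := by
  rw [mertH_eq hR hΛ]
  apply mul_le_mul (hR0 _) _ (le_max_right _ _) (hR.nonneg 0)
  apply max_le _ hΛ.le
  have := min_le_right u Λ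
  linarith

theorem mertH_lip {R : ℝ → ℝ} (hR : NTR R) (hR0 : ∀ x, R x ≤ R 0) {K : ℝ} (hK : 0 < K)
    (hlip : ∀ x y, |R x - R y| ≤ K * |x - y|) {Λ α : ℝ} (hΛ : 0 < Λ) (hα : 0 ≤ α) (x y : ℝ) :
    |mertH R Λ α x - mertH R Λ α y| ≤ (K + R 0) * |x - y| := by
  rw [mertH_eq hR hΛ, mertH_eq hR hΛ]
  set mx : ℝ := max (min x Λ - α) 0 with hmx
  set my : ℝ := max (min y Λ - α) 0 with hmy
  have hmx0 : 0 ≤ mx := le_max_right _ _
  have hmxL : mx ≤ Λ := by
    apply max_le _ hΛ.le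
    have := min_le_right x Λ
    linarith
  have hmm : |mx - my| ≤ |x - y| := by
    calc |mx - my| ≤ |(min x Λ - α) - (min y Λ - α)| := abs_max_sub_max_le_abs _ _ _
      _ = |min x Λ - min y Λ| := by congr 1; ring
      _ ≤ max |x - y| |Λ - Λ| := abs_min_sub_min_le_max _ _ _ _
      _ = |x - y| := by simp
  have h1 : |R (x / Λ) - R (y / Λ)| * mx ≤ K * |x - y| := by
    have h2 := hlip (x / Λ) (y / Λ)
    have h3 : |x / Λ - y / Λ| = |x - y| / Λ := by rw [← sub_div, abs_div, abs_of_pos hΛ]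
    rw [h3] at h2
    calc |R (x / Λ) - R (y / Λ)| * mx ≤ (K * (|x - y| / Λ)) * Λ :=
          mul_le_mul h2 hmxL hmx0 (by positivity)
      _ = K * |x - y| := by field_simp
  have h4 : R (y / Λ) * |mx - my| ≤ R 0 * |x - y| :=
    mul_le_mul (hR0 _) hmm (abs_nonneg _) (hR.nonneg 0)
  calc |R (x / Λ) * mx - R (y / Λ) * my|
      = |(R (x / Λ) - R (y / Λ)) * mx + R (y / Λ) * (mx - my)| := by congr 1; ring
    _ ≤ |(R (x / Λ) - R (y / Λ)) * mx| + |R (y / Λ) * (mx - my)| := abs_add_le _ _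
    _ = |R (x / Λ) - R (y / Λ)| * mx + R (y / Λ) * |mx - my| := by
        rw [abs_mul, abs_mul, abs_of_nonneg hmx0, abs_of_nonneg (hR.nonneg _)]
    _ ≤ (K + R 0) * |x - y| := by linarith

theorem mertH_zero_left {R : ℝ → ℝ} (Λ α u : ℝ) (hα : 0 ≤ α) (hu : u ≤ 0) : mertH R Λ α u = 0 := by
  unfold mertH
  rw [max_eq_right (by linarith), mul_zero]

theorem mertH_zero_right {R : ℝ → ℝ} (hR : NTR R) (Λ α u : ℝ) (hΛ : 0 < Λ) (hu : Λ < u) :
    mertH R Λ α u = 0 := by
  unfold mertH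
  rw [hR.zero (u / Λ) (by rw [lt_div_iff₀ hΛ]; linarith), zero_mul]

theorem mertH_full {R : ℝ → ℝ} (hR : NTR R) {Λ α : ℝ} (hΛ : 0 < Λ) (hα : 0 ≤ α) (F : ℝ → ℝ) :
    ∫ u in (0 : ℝ)..Λ, mertH R Λ α u * F u = ∫ u : ℝ, mertH R Λ α u * F u := by
  rw [intervalIntegral.integral_of_le hΛ.le, setIntegral_eq_integral_of_forall_compl_eq_zero]
  intro u hu
  rw [Set.mem_Ioc, not_and_or, not_lt, not_le] at hu
  rcases hu with h | h
  · rw [mertH_zero_left Λ α u hα h, zero_mul]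
  · rw [mertH_zero_right hR Λ α u hΛ h, zero_mul]

theorem mertH_conv {R : ℝ → ℝ} (hR : NTR R) (hR0 : ∀ x, R x ≤ R 0) {K : ℝ} (hK : 0 < K)
    (hlip : ∀ x y, |R x - R y| ≤ K * |x - y|) {Λ α : ℝ} (hΛ : 0 < Λ) (hα : 0 ≤ α) (ℓ : ℝ) :
    Real.sqrt Real.pi * mertH R Λ α ℓ - (K + R 0) * ntG ≤
      ∫ u in (0 : ℝ)..Λ, mertH R Λ α u * Real.exp (-(u - ℓ) ^ 2) := by
  rw [mertH_full hR hΛ hα]
  have hi0 : Integrable (fun u : ℝ => Real.exp (-(u - ℓ) ^ 2)) := nt_int0.comp_sub_right ℓ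
  have hi1 : Integrable (fun u : ℝ => |u - ℓ| * Real.exp (-(u - ℓ) ^ 2)) :=
    nt_int1.comp_sub_right ℓ
  have hi : Integrable (fun u : ℝ => mertH R Λ α ℓ * Real.exp (-(u - ℓ) ^ 2) -
      (K + R 0) * (|u - ℓ| * Real.exp (-(u - ℓ) ^ 2))) := (hi0.const_mul _).sub (hi1.const_mul _)
  have hH : Integrable (fun u : ℝ => mertH R Λ α u * Real.exp (-(u - ℓ) ^ 2)) := by
    apply (hi0.const_mul (R 0 * Λ)).mono'
      (((mertH_cont hR Λ α).mul (by fun_prop)).aestronglyMeasurable)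
    refine Filter.Eventually.of_forall fun u => ?_
    show ‖mertH R Λ α u * Real.exp (-(u - ℓ) ^ 2)‖ ≤ R 0 * Λ * Real.exp (-(u - ℓ) ^ 2)
    rw [Real.norm_of_nonneg (mul_nonneg (mertH_nonneg hR _ _ _) (Real.exp_pos _).le)]
    exact mul_le_mul_of_nonneg_right (mertH_le hR hR0 hΛ hα u) (Real.exp_pos _).le
  have h1 : ∫ u : ℝ, (mertH R Λ α ℓ * Real.exp (-(u - ℓ) ^ 2) -
      (K + R 0) * (|u - ℓ| * Real.exp (-(u - ℓ) ^ 2))) ≤
      ∫ u : ℝ, mertH R Λ α u * Real.exp (-(u - ℓ) ^ 2) := by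
    apply integral_mono hi hH
    intro u
    have h2 := mertH_lip hR hR0 hK hlip hΛ hα ℓ u
    have h3 := (le_abs_self _).trans h2
    rw [abs_sub_comm] at h3
    have h4 : mertH R Λ α ℓ - (K + R 0) * |u - ℓ| ≤ mertH R Λ α u := by linarith
    have h5 := mul_le_mul_of_nonneg_right h4 (Real.exp_pos (-(u - ℓ) ^ 2)).le
    simp only
    linarith
  refine le_trans (le_of_eq ?_) h1
  rw [integral_sub (hi0.const_mul _) (hi1.const_mul _), integral_const_mul, integral_const_mul,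
    integral_sub_right_eq_self (fun v : ℝ => Real.exp (-v ^ 2)),
    integral_sub_right_eq_self (fun v : ℝ => |v| * Real.exp (-v ^ 2)), nt_gauss]
  unfold ntG
  ring

theorem mert_sum (m : ℕ) (hm : 1 ≤ m) :
    |∑ n ∈ Finset.Icc 1 m, ArithmeticFunction.vonMangoldt n / n - Real.log m| ≤ 6 := by
  rw [abs_le]
  have h1 := nt_mertens_lower m hm
  have h2 := nt_mertens_upper m hm
  constructor <;> linarith

theorem mert_lower {R : ℝ → ℝ} (hR : NTR R) (hR0 : ∀ x, R x ≤ R 0) (W : ℝ → ℝ)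
    (hWc : Continuous W)
    (hWs : ∀ (u : ℝ) (N : ℕ), ∑ n ∈ Finset.Icc 1 N, ArithmeticFunction.vonMangoldt n / n *
      Real.exp (-(u - Real.log n) ^ 2) ≤ W u) : ∃ C : ℝ, 0 < C ∧
    ∀ Λ α : ℝ, 1 ≤ Λ → 0 ≤ α → α ≤ Λ →
    Real.sqrt Real.pi * (∫ u in (0 : ℝ)..Λ, mertH R Λ α u) - C * Λ ≤
    ∫ u in (0 : ℝ)..Λ, mertH R Λ α u * W u := by
  obtain ⟨K, hK, hlip⟩ := hR.lip
  have hR00 : 0 ≤ R 0 := hR.nonneg 0
  have hG := nt_G_nonneg
  have hpi : 0 ≤ Real.sqrt Real.pi := Real.sqrt_nonneg _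
  set K1 : ℝ := K + R 0 with hK1
  have hK10 : 0 ≤ K1 := by positivity
  refine ⟨Real.sqrt Real.pi * (7 * K1 + 7 * R 0) + 7 * (K1 * ntG) + 1, by positivity,
    fun Λ α hΛ hα hαΛ => ?_⟩
  have hΛ0 : 0 < Λ := by linarith
  set N : ℕ := ⌊Real.exp Λ⌋₊ with hNdef
  have hN : 1 ≤ N := by
    rw [hNdef, Nat.one_le_floor_iff]
    exact Real.one_le_exp (by linarith)
  have hN0 : (0 : ℝ) < N := by exact_mod_cast hN
  have hNlog : Real.log N ≤ Λ := by
    rw [Real.log_le_iff_le_exp hN0]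
    exact Nat.floor_le (Real.exp_pos _).le
  have hNlog2 : Λ ≤ Real.log N + 1 := by
    have h1 : Λ ≤ Real.log ((N + 1 : ℕ) : ℝ) := by
      rw [Real.le_log_iff_exp_le (by positivity)]
      push_cast
      exact (Nat.lt_floor_add_one _).le
    have := (mert_log_diff N hN).2
    linarith
  have hlogN0 : 0 ≤ Real.log N := Real.log_natCast_nonneg N
  have hHc := mertH_cont hR Λ α
  -- lower bound by the finite sum
  have h1 : ∑ n ∈ Finset.Icc 1 N, ArithmeticFunction.vonMangoldt n / n *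
      (∫ u in (0 : ℝ)..Λ, mertH R Λ α u * Real.exp (-(u - Real.log n) ^ 2)) ≤
      ∫ u in (0 : ℝ)..Λ, mertH R Λ α u * W u := by
    have e1 : ∑ n ∈ Finset.Icc 1 N, ArithmeticFunction.vonMangoldt n / n *
      (∫ u in (0 : ℝ)..Λ, mertH R Λ α u * Real.exp (-(u - Real.log n) ^ 2)) =
      ∫ u in (0 : ℝ)..Λ, ∑ n ∈ Finset.Icc 1 N, ArithmeticFunction.vonMangoldt n / n *
        (mertH R Λ α u * Real.exp (-(u - Real.log n) ^ 2)) := by
      rw [intervalIntegral.integral_finsetSum]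
      · apply Finset.sum_congr rfl
        intro n _
        rw [intervalIntegral.integral_const_mul]
      · intro n _
        exact (continuous_const.mul (hHc.mul (by fun_prop))).intervalIntegrable _ _
    rw [e1]
    apply intervalIntegral.integral_mono_on hΛ0.le
    · apply Continuous.intervalIntegrable
      apply continuous_finsetSum
      intro n _
      exact continuous_const.mul (hHc.mul (by fun_prop))
    · exact (hHc.mul hWc).intervalIntegrable _ _
    · intro u _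
      calc ∑ n ∈ Finset.Icc 1 N, ArithmeticFunction.vonMangoldt n / n *
            (mertH R Λ α u * Real.exp (-(u - Real.log n) ^ 2))
          = mertH R Λ α u * ∑ n ∈ Finset.Icc 1 N, ArithmeticFunction.vonMangoldt n / n *
            Real.exp (-(u - Real.log n) ^ 2) := by
            rw [Finset.mul_sum]
            exact Finset.sum_congr rfl fun n _ => by ring
        _ ≤ mertH R Λ α u * W u := mul_le_mul_of_nonneg_left (hWs u N) (mertH_nonneg hR _ _ _)
  have h2 : Real.sqrt Real.pi * (∑ n ∈ Finset.Icc 1 N, ArithmeticFunction.vonMangoldt n / n *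
      mertH R Λ α (Real.log n)) - (K1 * ntG) * (Λ + 6) ≤
      ∑ n ∈ Finset.Icc 1 N, ArithmeticFunction.vonMangoldt n / n *
      (∫ u in (0 : ℝ)..Λ, mertH R Λ α u * Real.exp (-(u - Real.log n) ^ 2)) := by
    have h3 : ∀ n ∈ Finset.Icc 1 N, ArithmeticFunction.vonMangoldt n / n *
        (Real.sqrt Real.pi * mertH R Λ α (Real.log n) - K1 * ntG) ≤
        ArithmeticFunction.vonMangoldt n / n *
      (∫ u in (0 : ℝ)..Λ, mertH R Λ α u * Real.exp (-(u - Real.log n) ^ 2)) := by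
      intro n _
      apply mul_le_mul_of_nonneg_left (mertH_conv hR hR0 hK hlip hΛ0 hα _)
      exact div_nonneg ArithmeticFunction.vonMangoldt_nonneg (Nat.cast_nonneg _)
    refine le_trans ?_ (Finset.sum_le_sum h3)
    have e2 : ∑ n ∈ Finset.Icc 1 N, ArithmeticFunction.vonMangoldt n / (n : ℝ) *
        (Real.sqrt Real.pi * mertH R Λ α (Real.log n) - K1 * ntG) =
        Real.sqrt Real.pi * (∑ n ∈ Finset.Icc 1 N, ArithmeticFunction.vonMangoldt n / n *
          mertH R Λ α (Real.log n)) -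
        (K1 * ntG) * ∑ n ∈ Finset.Icc 1 N, ArithmeticFunction.vonMangoldt n / n := by
      rw [Finset.mul_sum, Finset.mul_sum, ← Finset.sum_sub_distrib]
      exact Finset.sum_congr rfl fun n _ => by ring
    rw [e2]
    have h4 : ∑ n ∈ Finset.Icc 1 N, ArithmeticFunction.vonMangoldt n / (n : ℝ) ≤ Λ + 6 := by
      have := nt_mertens_upper N hN
      linarith
    have h5 : (K1 * ntG) * ∑ n ∈ Finset.Icc 1 N, ArithmeticFunction.vonMangoldt n / (n : ℝ) ≤
        (K1 * ntG) * (Λ + 6) := mul_le_mul_of_nonneg_left h4 (by positivity)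
    linarith
  -- Abel summation
  have h6 := mert_abel (fun n => ArithmeticFunction.vonMangoldt n / n) 6 K1 (by norm_num) hK10
    mert_sum (mertH R Λ α) hHc (fun x y _ _ => mertH_lip hR hR0 hK hlip hΛ0 hα x y) N hN
  have h7 := (abs_le.1 h6).1
  have h8 := mert_sum N hN
  have h9 : |(∑ n ∈ Finset.Icc 1 N, ArithmeticFunction.vonMangoldt n / (n : ℝ) - Real.log N) *
      mertH R Λ α (Real.log N)| ≤ 6 * (R 0 * Λ) := by
    rw [abs_mul, abs_of_nonneg (mertH_nonneg hR _ _ _)]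
    exact mul_le_mul h8 (mertH_le hR hR0 hΛ0 hα _) (mertH_nonneg hR _ _ _) (by norm_num)
  have h10 := (abs_le.1 h9).1
  -- end of the interval
  have h11 : ∫ u in (0 : ℝ)..Λ, mertH R Λ α u =
      (∫ u in (0 : ℝ)..(Real.log N), mertH R Λ α u) + ∫ u in (Real.log N)..Λ, mertH R Λ α u :=
    (intervalIntegral.integral_add_adjacent_intervals (hHc.intervalIntegrable _ _)
      (hHc.intervalIntegrable _ _)).symm
  have h12 : ∫ u in (Real.log N)..Λ, mertH R Λ α u ≤ R 0 * Λ := by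
    calc ∫ u in (Real.log N)..Λ, mertH R Λ α u ≤ ∫ _u in (Real.log N)..Λ, R 0 * Λ := by
          apply intervalIntegral.integral_mono_on hNlog (hHc.intervalIntegrable _ _)
            (continuous_const.intervalIntegrable _ _)
          intro u _
          exact mertH_le hR hR0 hΛ0 hα u
      _ = (Λ - Real.log N) * (R 0 * Λ) := by
          rw [intervalIntegral.integral_const, smul_eq_mul]
      _ ≤ 1 * (R 0 * Λ) := mul_le_mul_of_nonneg_right (by linarith) (by positivity)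
      _ = R 0 * Λ := one_mul _
  have h13 : (∫ u in (0 : ℝ)..Λ, mertH R Λ α u) - (7 * K1 + 7 * R 0) * Λ ≤
      ∑ n ∈ Finset.Icc 1 N, ArithmeticFunction.vonMangoldt n / n * mertH R Λ α (Real.log n) := by
    have : (K1 + 6 * K1) * Real.log N ≤ (K1 + 6 * K1) * Λ :=
      mul_le_mul_of_nonneg_left hNlog (by positivity)
    nlinarith
  have h14 := mul_le_mul_of_nonneg_left h13 hpi
  have h15 : (K1 * ntG) * (Λ + 6) ≤ 7 * (K1 * ntG) * Λ := by
    have : 0 ≤ K1 * ntG := by positivity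
    nlinarith
  nlinarith

theorem mert_Rw_le (γ : ℝ) (h0 : 0 < γ) (hπ : γ < Real.pi) (x : ℝ) : Rw γ x ≤ Rw γ 0 := by
  rw [ntw_Rw_eq, ntw_Rw_eq]
  apply mul_le_mul_of_nonneg_left _ (by positivity)
  apply ntw_N_anti γ h0 hπ
  · constructor
    · simp
    · exact min_le_right _ _
  · constructor
    · exact le_min (abs_nonneg _) zero_le_one
    · exact min_le_right _ _
  · simp

theorem lam_smooth_lower (γ : ℝ) (h0 : 0 < γ) (hπ : γ < Real.pi) : ∃ C : ℝ, 0 < C ∧
    ∀ Λ α : ℝ, 1 ≤ Λ → 0 ≤ α → α ≤ Λ →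
    Real.sqrt Real.pi * (∫ u in (0 : ℝ)..Λ, Rw γ (u / Λ) * max (u - α) 0) - C * Λ ≤
    ∫ u in (0 : ℝ)..Λ, Rw γ (u / Λ) * (max (u - α) 0 *
      ∑' n : ℕ, (ArithmeticFunction.vonMangoldt n) / n * Real.exp (-(u - Real.log n) ^ 2)) := by
  obtain ⟨C1, hC1, h1⟩ := lam_one_gen 1 one_pos
  have hWc : Continuous (fun u : ℝ =>
      ∑' n : ℕ, (ArithmeticFunction.vonMangoldt n) / n * Real.exp (-(u - Real.log n) ^ 2)) := by
    have := lam_one_cont 1 one_pos
    simpa only [mul_one] using this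
  have hWs : ∀ (u : ℝ) (N : ℕ), ∑ n ∈ Finset.Icc 1 N, ArithmeticFunction.vonMangoldt n / n *
      Real.exp (-(u - Real.log n) ^ 2) ≤
      ∑' n : ℕ, (ArithmeticFunction.vonMangoldt n) / n * Real.exp (-(u - Real.log n) ^ 2) := by
    intro u N
    have hs : Summable (fun n : ℕ => (ArithmeticFunction.vonMangoldt n) / n *
        Real.exp (-(u - Real.log n) ^ 2)) := by
      have := (h1 u).1
      simpa only [neg_mul, one_mul] using this
    apply hs.sum_le_tsum
    intro n _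
    exact mul_nonneg (div_nonneg ArithmeticFunction.vonMangoldt_nonneg (Nat.cast_nonneg _))
      (Real.exp_pos _).le
  obtain ⟨C, hC, h⟩ := mert_lower (NTR_Rw γ h0 hπ) (mert_Rw_le γ h0 hπ) _ hWc hWs
  refine ⟨C, hC, fun Λ α hΛ hα hαΛ => ?_⟩
  have := h Λ α hΛ hα hαΛ
  simpa only [mertH, mul_assoc] using this

end H385
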