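import Pool.Agent.H385R2.Defs4

/-!
TEAM Q2 (helper385, helper304): twists of an L-function of degree `d` by Dirichlet characters.
-/

open Complex Filter Topology Set MeasureTheory
open H370 (zset mult NN Nd Ns)

namespace H385

/-- analytic input about an L-function of degree `d` in the upper half plane, uniform in the
conductor `Q ^ d` : all constants are bounded by `A`. `a` is the coefficient sequence of `-F'/F`. -/
structure GoodD (d A Q : ℝ) (F : ℂ → ℂ) (a : ℕ → ℂ) : Prop where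
  an : ∀ s : ℂ, 0 < s.im → AnalyticAt ℂ F s
  growth : ∀ s : ℂ, (1 / 16 : ℝ) ≤ s.re → s.re ≤ 4 → 1 ≤ s.im → ‖F s‖ ≤ A * (Q * s.im) ^ A
  lower : ∀ t : ℝ, 1 ≤ t → A⁻¹ ≤ ‖F (⟨2, t⟩ : ℂ)‖
  nzr : ∀ s : ℂ, 1 ≤ s.re → 1 ≤ s.im → F s ≠ 0
  nzl : ∀ s : ℂ, s.re ≤ 0 → 1 ≤ s.im → F s ≠ 0
  symm : ∀ s : ℂ, 0 < s.re → s.re < 1 → 1 ≤ s.im →
    analyticOrderAt F (1 - (starRingEnd ℂ) s) = analyticOrderAt F s
  ha : ∀ n, ‖a n‖ ≤ d * ArithmeticFunction.vonMangoldt n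
  ld : ∀ s : ℂ, 1 < s.re → 1 ≤ s.im → deriv F s / F s = - ∑' n : ℕ, a n * (n : ℂ) ^ (-s)
  left : ∀ s : ℂ, -1 / 2 ≤ s.re → s.re ≤ 1 / 2 → 1 ≤ s.im → F s ≠ 0 →
    ‖deriv F s / F s + ((d * Real.log (Q * s.im) : ℝ) : ℂ) +
      (starRingEnd ℂ) (deriv F (1 - (starRingEnd ℂ) s) / F (1 - (starRingEnd ℂ) s))‖ ≤ A

/-- sum over all primitive characters mod `q`, `X < q ≤ Y`, `(q,M) = 1`, weight `q⁻²` -/
noncomputable def primFamM (M X Y : ℕ) (f : (q : ℕ) → DirichletCharacter ℂ q → ℝ) : ℝ :=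
  ∑ q ∈ (Finset.Ioc X Y).filter (fun q => Nat.Coprime q M), (1 / (q : ℝ) ^ 2) *
    ∑ᶠ χ : {χ : DirichletCharacter ℂ q // χ.IsPrimitive}, f q χ

/-- the constant in the mass of the family -/
noncomputable def cM (M : ℕ) : ℝ :=
  c0 ^ 2 * ∏ p ∈ M.primeFactors, ((p : ℝ) ^ 3 / (((p : ℝ) - 1) * ((p : ℝ) + 1) ^ 2))

end H385
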