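import Pool.Agent.H385R2.Defs

open Complex Filter Topology Set MeasureTheory

namespace H385
namespace Cut

/-! ### real Gaussian integrals -/

theorem int_gauss_shift {b : ℝ} (hb : 0 < b) (t : ℝ) :
    Integrable (fun τ : ℝ => Real.exp (-b * (τ - t) ^ 2)) :=
  (integrable_exp_neg_mul_sq hb).comp_sub_right t

theorem integral_gauss_shift (b : ℝ) (t : ℝ) :
    ∫ τ : ℝ, Real.exp (-b * (τ - t) ^ 2) = Real.sqrt (Real.pi / b) := by
  rw [integral_sub_right_eq_self (fun s : ℝ => Real.exp (-b * s ^ 2)) t]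
  exact integral_gaussian b

theorem setIntegral_Ioi_comp_sub (f : ℝ → ℝ) (c : ℝ) :
    ∫ s in Ioi c, f (s - c) = ∫ s in Ioi (0 : ℝ), f s := by
  rw [← integral_indicator measurableSet_Ioi, ← integral_indicator measurableSet_Ioi,
    ← integral_sub_right_eq_self (fun s => (Ioi (0 : ℝ)).indicator f s) c]
  congr 1
  ext s
  by_cases h : c < s
  · rw [indicator_of_mem (by exact h), indicator_of_mem (by simpa using h)]
  · rw [indicator_of_notMem (by simpa using h), indicator_of_notMem (by simpa using h)]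

theorem tail_Ioi {b : ℝ} (hb : 0 < b) {t a : ℝ} (h : t ≤ a) :
    ∫ τ in Ioi a, Real.exp (-b * (τ - t) ^ 2) ≤
      Real.sqrt (Real.pi / b) / 2 * Real.exp (-b * (a - t) ^ 2) := by
  have h1 : ∫ τ in Ioi a, Real.exp (-b * (τ - t) ^ 2) ≤
      ∫ τ in Ioi a, Real.exp (-b * (a - t) ^ 2) * Real.exp (-b * (τ - a) ^ 2) := by
    apply setIntegral_mono_on (int_gauss_shift hb t).integrableOn
      (((int_gauss_shift hb a).const_mul _).integrableOn) measurableSet_Ioi
    intro τ hτ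
    rw [← Real.exp_add]
    apply Real.exp_le_exp.mpr
    have hτ' : 0 ≤ τ - a := by have : a < τ := hτ; linarith
    nlinarith [mul_nonneg hb.le (mul_nonneg hτ' (sub_nonneg.mpr h))]
  refine h1.trans ?_
  rw [integral_const_mul, setIntegral_Ioi_comp_sub (fun s => Real.exp (-b * s ^ 2)) a,
    integral_gaussian_Ioi]
  exact le_of_eq (mul_comm _ _)

theorem tail_Iic {b : ℝ} (hb : 0 < b) {t a : ℝ} (h : a ≤ t) :
    ∫ τ in Iic a, Real.exp (-b * (τ - t) ^ 2) ≤
      Real.sqrt (Real.pi / b) / 2 * Real.exp (-b * (a - t) ^ 2) := by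
  have h1 : ∫ τ in Iic a, Real.exp (-b * (τ - t) ^ 2) =
      ∫ τ in Ioi (-a), Real.exp (-b * (τ - (-t)) ^ 2) := by
    rw [← integral_comp_neg_Iic]
    congr 1
    ext τ
    congr 1
    ring
  rw [h1]
  refine (tail_Ioi hb (neg_le_neg h)).trans (le_of_eq ?_)
  congr 2
  ring

/-- splitting of an interval integral -/
theorem split3 {E : Type*} [NormedAddCommGroup E] [NormedSpace ℝ E]
    {f : ℝ → E} (hf : Integrable f) {a b : ℝ} :
    ∫ τ in a..b, f τ = (∫ τ, f τ) - (∫ τ in Iic a, f τ) - (∫ τ in Ioi b, f τ) := by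
  rw [← intervalIntegral.integral_Iic_sub_Iic hf.integrableOn hf.integrableOn,
    ← integral_add_compl (measurableSet_Iic (a := b)) hf, compl_Iic]
  abel

theorem interval_le {f : ℝ → ℝ} (hf : Integrable f) (h0 : ∀ τ, 0 ≤ f τ) {a b : ℝ} (hab : a ≤ b) :
    ∫ τ in a..b, f τ ≤ ∫ τ, f τ := by
  rw [intervalIntegral.integral_of_le hab]
  exact setIntegral_le_integral hf (Eventually.of_forall h0)

theorem interval_nonneg {f : ℝ → ℝ} (h0 : ∀ τ, 0 ≤ f τ) {a b : ℝ} (hab : a ≤ b) :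
    0 ≤ ∫ τ in a..b, f τ :=
  intervalIntegral.integral_nonneg hab (fun τ _ => h0 τ)

theorem interval_le_Ioi {f : ℝ → ℝ} (hf : Integrable f) (h0 : ∀ τ, 0 ≤ f τ) {a b : ℝ}
    (hab : a ≤ b) : ∫ τ in a..b, f τ ≤ ∫ τ in Ioi a, f τ := by
  rw [intervalIntegral.integral_of_le hab]
  exact setIntegral_mono_set hf.integrableOn (Eventually.of_forall h0)
    (Eventually.of_forall Ioc_subset_Ioi_self)

theorem interval_le_Iic {f : ℝ → ℝ} (hf : Integrable f) (h0 : ∀ τ, 0 ≤ f τ) {a b : ℝ}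
    (hab : a ≤ b) : ∫ τ in a..b, f τ ≤ ∫ τ in Iic b, f τ := by
  rw [intervalIntegral.integral_of_le hab]
  exact setIntegral_mono_set hf.integrableOn (Eventually.of_forall h0)
    (Eventually.of_forall Ioc_subset_Iic_self)

theorem sqrt_pi_half : Real.sqrt (Real.pi / (1 / 2)) = Real.sqrt (2 * Real.pi) := by
  congr 1; ring

theorem sqrt_pi_quarter : Real.sqrt (Real.pi / (1 / 4)) = 2 * Real.sqrt Real.pi := by
  have : Real.pi / (1 / 4) = 2 ^ 2 * Real.pi := by ring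
  rw [this, Real.sqrt_mul (by norm_num), Real.sqrt_sq (by norm_num)]

theorem sqrt_2pi_pos : 0 < Real.sqrt (2 * Real.pi) := Real.sqrt_pos.mpr (by positivity)

theorem sqrt_pi_pos : 0 < Real.sqrt Real.pi := Real.sqrt_pos.mpr Real.pi_pos

/-! ### the function `cc` -/

theorem norm_ccint (z : ℂ) (τ : ℝ) : ‖cexp (-(z - τ) ^ 2 / 2)‖ =
    Real.exp (z.im ^ 2 / 2) * Real.exp (-(1 / 2) * (τ - z.re) ^ 2) := by
  rw [Complex.norm_exp, ← Real.exp_add]
  congr 1
  have : (-(z - τ) ^ 2 / 2 : ℂ) = ((-(1 / 2) : ℝ) : ℂ) * ((z - τ) * (z - τ)) := by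
    push_cast; ring
  rw [this, Complex.re_ofReal_mul, Complex.mul_re]
  simp
  ring

theorem ccint_cont (z : ℂ) : Continuous (fun τ : ℝ => cexp (-(z - τ) ^ 2 / 2)) := by
  fun_prop

theorem ccint_integrable (z : ℂ) : Integrable (fun τ : ℝ => cexp (-(z - τ) ^ 2 / 2)) := by
  refine Integrable.mono' (((int_gauss_shift (by norm_num : (0:ℝ) < 1 / 2) z.re).const_mul
    (Real.exp (z.im ^ 2 / 2)))) (ccint_cont z).aestronglyMeasurable ?_
  exact Eventually.of_forall (fun τ => (norm_ccint z τ).le)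

theorem integral_ccint (z : ℂ) : ∫ τ : ℝ, cexp (-(z - τ) ^ 2 / 2) = (Real.sqrt (2 * Real.pi) : ℂ) := by
  have h1 : ∫ τ : ℝ, cexp (-(z - τ) ^ 2 / 2) =
      ∫ τ : ℝ, cexp (-(1 / 2 : ℂ) * (((τ - z.re : ℝ) : ℂ) + ((-z.im : ℝ) : ℂ) * I) ^ 2) := by
    congr 1
    ext τ
    congr 1
    have hz : z = (z.re : ℂ) + (z.im : ℂ) * I := (re_add_im z).symm
    have : (-(z - τ) ^ 2 / 2 : ℂ) = -(1 / 2 : ℂ) * ((τ : ℂ) - z) ^ 2 := by ring
    rw [this]
    conv_lhs => rw [hz]
    push_cast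
    ring
  rw [h1, integral_sub_right_eq_self
    (fun s : ℝ => cexp (-(1 / 2 : ℂ) * ((s : ℂ) + ((-z.im : ℝ) : ℂ) * I) ^ 2)) z.re,
    GaussianFourier.integral_cexp_neg_mul_sq_add_real_mul_I (by norm_num)]
  have h2 : (Real.pi / (1 / 2) : ℂ) = ((2 * Real.pi : ℝ) : ℂ) := by push_cast; ring
  rw [h2, Real.sqrt_eq_rpow, Complex.ofReal_cpow (by positivity)]
  norm_num

theorem exp_im_le {y : ℝ} (hy : |y| ≤ 1 / 2) : Real.exp (y ^ 2 / 2) ≤ 2 := by
  have h1 : y ^ 2 / 2 ≤ 1 / 8 := by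
    have := abs_le.mp hy
    nlinarith
  have h2 : Real.exp (y ^ 2 / 2) ≤ Real.exp (1 / 8) := Real.exp_le_exp.mpr h1
  have h3 : Real.exp (1 / 8) ≤ Real.exp (Real.log 2) := by
    apply Real.exp_le_exp.mpr
    have := Real.log_two_gt_d9
    linarith
  rw [Real.exp_log (by norm_num)] at h3
  linarith

theorem norm_cc_int_le (T : ℝ) (hT : 0 ≤ T) (z : ℂ) :
    ‖∫ τ in T..(2 * T), cexp (-(z - τ) ^ 2 / 2)‖ ≤
      Real.exp (z.im ^ 2 / 2) * ∫ τ in T..(2 * T), Real.exp (-(1 / 2) * (τ - z.re) ^ 2) := by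
  rw [← intervalIntegral.integral_const_mul]
  refine (intervalIntegral.norm_integral_le_integral_norm (by linarith)).trans (le_of_eq ?_)
  congr 1
  ext τ
  exact norm_ccint z τ

end Cut

open Cut

theorem cc_conj (T : ℝ) (z : ℂ) : (starRingEnd ℂ) (cc T z) = cc T ((starRingEnd ℂ) z) := by
  unfold cc
  rw [map_mul, Complex.conj_ofReal]
  congr 1
  simp only [intervalIntegral, map_sub, ← integral_conj]
  congr 1 <;>
  · congr 1
    ext τ
    rw [← Complex.exp_conj]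
    congr 1
    have h2 : (starRingEnd ℂ) (2 : ℂ) = 2 := map_ofNat _ 2
    simp [h2]

theorem cc_real (T x : ℝ) (hT : 0 ≤ T) :
    (cc T x).im = 0 ∧ 0 ≤ (cc T x).re ∧ (cc T x).re ≤ 1 := by
  have h1 : cc T x = ((1 / Real.sqrt (2 * Real.pi) *
      ∫ τ in T..(2 * T), Real.exp (-(1 / 2) * (τ - x) ^ 2) : ℝ) : ℂ) := by
    unfold cc
    rw [Complex.ofReal_mul, ← intervalIntegral.integral_ofReal]
    congr 2
    ext τ
    rw [Complex.ofReal_exp]
    congr 1
    push_cast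
    ring
  rw [h1]
  refine ⟨Complex.ofReal_im _, ?_, ?_⟩
  · rw [Complex.ofReal_re]
    exact mul_nonneg (by positivity) (interval_nonneg (fun τ => (Real.exp_pos _).le) (by linarith))
  · rw [Complex.ofReal_re]
    have h2 := interval_le (int_gauss_shift (by norm_num : (0:ℝ) < 1 / 2) x)
      (fun τ => (Real.exp_pos _).le) (show T ≤ 2 * T by linarith)
    rw [integral_gauss_shift, sqrt_pi_half] at h2
    rw [one_div, inv_mul_le_iff₀ sqrt_2pi_pos, mul_one]
    exact h2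

theorem cc_bound (T : ℝ) (hT : 0 ≤ T) (z : ℂ) (hz : |z.im| ≤ 1 / 2) : ‖cc T z‖ ≤ 2 := by
  unfold cc
  rw [norm_mul, Complex.norm_real, Real.norm_of_nonneg (by positivity)]
  have h2 := interval_le (int_gauss_shift (by norm_num : (0:ℝ) < 1 / 2) z.re)
      (fun τ => (Real.exp_pos _).le) (show T ≤ 2 * T by linarith)
  rw [integral_gauss_shift, sqrt_pi_half] at h2
  rw [one_div, inv_mul_le_iff₀ sqrt_2pi_pos]
  calc _ ≤ _ := norm_cc_int_le T hT z
    _ ≤ 2 * Real.sqrt (2 * Real.pi) :=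
        mul_le_mul (exp_im_le hz) h2
          (interval_nonneg (fun τ => (Real.exp_pos _).le) (by linarith)) (by norm_num)
    _ = Real.sqrt (2 * Real.pi) * 2 := mul_comm _ _

theorem cc_near (T κ : ℝ) (hκ : 0 ≤ κ) (z : ℂ) (hz : |z.im| ≤ 1 / 2) (h1 : T + κ ≤ z.re)
    (h2 : z.re ≤ 2 * T - κ) : ‖cc T z - 1‖ ≤ 2 * Real.exp (-κ ^ 2 / 2) := by
  have hs : cc T z - 1 = (1 / Real.sqrt (2 * Real.pi) : ℝ) *
      (-(∫ τ : ℝ in Iic T, cexp (-(z - τ) ^ 2 / 2)) - ∫ τ : ℝ in Ioi (2 * T), cexp (-(z - τ) ^ 2 / 2)) := by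
    unfold cc
    rw [split3 (ccint_integrable z), integral_ccint]
    have : (Real.sqrt (2 * Real.pi) : ℂ) ≠ 0 := by
      exact_mod_cast sqrt_2pi_pos.ne'
    push_cast
    field_simp
    ring
  rw [hs, norm_mul, Complex.norm_real, Real.norm_of_nonneg (by positivity), one_div,
    inv_mul_le_iff₀ sqrt_2pi_pos]
  have hb : (0:ℝ) < 1 / 2 := by norm_num
  have e1 : ‖∫ τ : ℝ in Iic T, cexp (-(z - τ) ^ 2 / 2)‖ ≤
      2 * (Real.sqrt (2 * Real.pi) / 2 * Real.exp (-κ ^ 2 / 2)) := by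
    calc _ ≤ ∫ τ : ℝ in Iic T, ‖cexp (-(z - τ) ^ 2 / 2)‖ := norm_integral_le_integral_norm _
      _ = Real.exp (z.im ^ 2 / 2) * ∫ τ : ℝ in Iic T, Real.exp (-(1 / 2) * (τ - z.re) ^ 2) := by
          rw [← integral_const_mul]
          congr 1
          ext τ
          exact norm_ccint z τ
      _ ≤ 2 * (Real.sqrt (2 * Real.pi) / 2 * Real.exp (-κ ^ 2 / 2)) := by
          apply mul_le_mul (exp_im_le hz) _ (setIntegral_nonneg measurableSet_Iic
            (fun τ _ => (Real.exp_pos _).le)) (by norm_num)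
          have h3 := tail_Iic hb (t := z.re) (a := T) (by linarith)
          rw [sqrt_pi_half] at h3
          refine h3.trans (mul_le_mul_of_nonneg_left (Real.exp_le_exp.mpr ?_) (by positivity))
          nlinarith
  have e2 : ‖∫ τ : ℝ in Ioi (2 * T), cexp (-(z - τ) ^ 2 / 2)‖ ≤
      2 * (Real.sqrt (2 * Real.pi) / 2 * Real.exp (-κ ^ 2 / 2)) := by
    calc _ ≤ ∫ τ : ℝ in Ioi (2 * T), ‖cexp (-(z - τ) ^ 2 / 2)‖ := norm_integral_le_integral_norm _
      _ = Real.exp (z.im ^ 2 / 2) * ∫ τ : ℝ in Ioi (2 * T), Real.exp (-(1 / 2) * (τ - z.re) ^ 2) := by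
          rw [← integral_const_mul]
          congr 1
          ext τ
          exact norm_ccint z τ
      _ ≤ 2 * (Real.sqrt (2 * Real.pi) / 2 * Real.exp (-κ ^ 2 / 2)) := by
          apply mul_le_mul (exp_im_le hz) _ (setIntegral_nonneg measurableSet_Ioi
            (fun τ _ => (Real.exp_pos _).le)) (by norm_num)
          have h3 := tail_Ioi hb (t := z.re) (a := 2 * T) (by linarith)
          rw [sqrt_pi_half] at h3
          refine h3.trans (mul_le_mul_of_nonneg_left (Real.exp_le_exp.mpr ?_) (by positivity))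
          nlinarith
  calc _ ≤ ‖-(∫ τ : ℝ in Iic T, cexp (-(z - τ) ^ 2 / 2))‖ +
        ‖∫ τ : ℝ in Ioi (2 * T), cexp (-(z - τ) ^ 2 / 2)‖ := norm_sub_le _ _
    _ ≤ _ := by
      rw [norm_neg]
      nlinarith [e1, e2]

theorem cc_far (T κ : ℝ) (hT : 0 ≤ T) (hκ : 0 ≤ κ) (z : ℂ) (hz : |z.im| ≤ 1 / 2)
    (h : z.re ≤ T - κ ∨ 2 * T + κ ≤ z.re) : ‖cc T z‖ ≤ 2 * Real.exp (-κ ^ 2 / 2) := by
  have hb : (0:ℝ) < 1 / 2 := by norm_num
  have key : ∫ τ in T..(2 * T), Real.exp (-(1 / 2) * (τ - z.re) ^ 2) ≤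
      Real.sqrt (2 * Real.pi) / 2 * Real.exp (-κ ^ 2 / 2) := by
    rcases h with h | h
    · refine (interval_le_Ioi (int_gauss_shift hb z.re) (fun τ => (Real.exp_pos _).le)
        (by linarith)).trans ?_
      have h3 := tail_Ioi hb (t := z.re) (a := T) (by linarith)
      rw [sqrt_pi_half] at h3
      refine h3.trans (mul_le_mul_of_nonneg_left (Real.exp_le_exp.mpr ?_) (by positivity))
      nlinarith
    · refine (interval_le_Iic (int_gauss_shift hb z.re) (fun τ => (Real.exp_pos _).le)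
        (by linarith)).trans ?_
      have h3 := tail_Iic hb (t := z.re) (a := 2 * T) (by linarith)
      rw [sqrt_pi_half] at h3
      refine h3.trans (mul_le_mul_of_nonneg_left (Real.exp_le_exp.mpr ?_) (by positivity))
      nlinarith
  unfold cc
  rw [norm_mul, Complex.norm_real, Real.norm_of_nonneg (by positivity), one_div,
    inv_mul_le_iff₀ sqrt_2pi_pos]
  calc _ ≤ _ := norm_cc_int_le T hT z
    _ ≤ 2 * (Real.sqrt (2 * Real.pi) / 2 * Real.exp (-κ ^ 2 / 2)) :=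
        mul_le_mul (exp_im_le hz) key
          (interval_nonneg (fun τ => (Real.exp_pos _).le) (by linarith)) (by norm_num)
    _ ≤ _ := by nlinarith [mul_pos sqrt_2pi_pos (Real.exp_pos (-κ ^ 2 / 2))]

theorem cc_cont (T : ℝ) : Continuous (cc T) := by
  unfold cc
  apply Continuous.mul continuous_const
  apply intervalIntegral.continuous_parametric_intervalIntegral_of_continuous'
  simp only [Function.uncurry_def]
  fun_prop

/-! ### the functions `wt`, `bt` -/

namespace Cut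

theorem wt_eq (T t : ℝ) : wt T t = 1 / (2 * Real.sqrt Real.pi) *
    ∫ τ in T..(2 * T), Real.exp (-(1 / 4) * (τ - t) ^ 2) := by
  unfold wt
  congr 2
  ext τ
  congr 1
  ring

theorem hq : (0:ℝ) < 1 / 4 := by norm_num

end Cut

theorem wt_nonneg (T t : ℝ) (hT : 0 ≤ T) : 0 ≤ wt T t := by
  rw [wt_eq]
  exact mul_nonneg (by positivity) (interval_nonneg (fun τ => (Real.exp_pos _).le) (by linarith))

theorem wt_le_one (T t : ℝ) (hT : 0 ≤ T) : wt T t ≤ 1 := by
  rw [wt_eq]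
  have h2 := interval_le (int_gauss_shift hq t)
    (fun τ => (Real.exp_pos _).le) (show T ≤ 2 * T by linarith)
  rw [integral_gauss_shift, sqrt_pi_quarter] at h2
  rw [one_div, inv_mul_le_iff₀ (mul_pos two_pos sqrt_pi_pos), mul_one]
  exact h2

theorem wt_cont (T : ℝ) : Continuous (wt T) := by
  unfold wt
  apply Continuous.mul continuous_const
  apply intervalIntegral.continuous_parametric_intervalIntegral_of_continuous'
  simp only [Function.uncurry_def]
  fun_prop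

namespace Cut

theorem prod_int (T : ℝ) : Integrable (fun p : ℝ × ℝ => Real.exp (-(1 / 4) * (p.2 - p.1) ^ 2))
    ((volume : Measure ℝ).prod (volume.restrict (Ioc T (2 * T)))) := by
  have hc : Continuous (fun p : ℝ × ℝ => Real.exp (-(1 / 4) * (p.2 - p.1) ^ 2)) := by fun_prop
  rw [integrable_prod_iff' hc.aestronglyMeasurable]
  have e : ∀ y : ℝ, (fun x : ℝ => Real.exp (-(1 / 4) * (y - x) ^ 2)) =
      (fun x : ℝ => Real.exp (-(1 / 4) * (x - y) ^ 2)) := by
    intro y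
    ext x
    congr 2
    ring
  refine ⟨Eventually.of_forall (fun y => ?_), ?_⟩
  · show Integrable (fun x : ℝ => Real.exp (-(1 / 4) * (y - x) ^ 2))
    rw [e]
    exact int_gauss_shift hq y
  · have : (fun y : ℝ => ∫ x : ℝ, ‖Real.exp (-(1 / 4) * (y - x) ^ 2)‖) =
        fun _ => 2 * Real.sqrt Real.pi := by
      ext y
      simp only [Real.norm_eq_abs, Real.abs_exp]
      rw [e, integral_gauss_shift, sqrt_pi_quarter]
    show Integrable (fun y : ℝ => ∫ x : ℝ, ‖Real.exp (-(1 / 4) * (y - x) ^ 2)‖) _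
    rw [this]
    exact integrable_const _

theorem wt_integrable (T : ℝ) (hT : 0 ≤ T) : Integrable (wt T) := by
  have h := (prod_int T).integral_prod_left
  have e : wt T = fun t => 1 / (2 * Real.sqrt Real.pi) *
      ∫ τ in Ioc T (2 * T), Real.exp (-(1 / 4) * (τ - t) ^ 2) := by
    ext t
    rw [wt_eq, intervalIntegral.integral_of_le (by linarith)]
  rw [e]
  exact h.const_mul _

theorem wt_integral (T : ℝ) (hT : 0 ≤ T) : ∫ t, wt T t = T := by
  have e : (fun t => wt T t) = fun t => 1 / (2 * Real.sqrt Real.pi) *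
      ∫ τ in Ioc T (2 * T), Real.exp (-(1 / 4) * (τ - t) ^ 2) := by
    ext t
    rw [wt_eq, intervalIntegral.integral_of_le (by linarith)]
  rw [e, integral_const_mul,
    integral_integral_swap (f := fun t τ : ℝ => Real.exp (-(1 / 4) * (τ - t) ^ 2)) (prod_int T)]
  have : ∀ τ : ℝ, ∫ t : ℝ, Real.exp (-(1 / 4) * (τ - t) ^ 2) = 2 * Real.sqrt Real.pi := by
    intro τ
    rw [← sqrt_pi_quarter, ← integral_gauss_shift (1 / 4) τ]
    congr 1
    ext t
    congr 2
    ring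
  simp only [this]
  rw [setIntegral_const, smul_eq_mul, Real.volume_real_Ioc_of_le (by linarith)]
  have := sqrt_pi_pos
  field_simp
  ring

end Cut

/-- `∫ w² ≤ T + C` -/
theorem wt_sq_int : ∃ C : ℝ, 0 < C ∧ ∀ T : ℝ, 0 ≤ T → Integrable (fun t => (wt T t) ^ 2) ∧
    ∫ t : ℝ, (wt T t) ^ 2 ≤ T + C := by
  refine ⟨1, one_pos, fun T hT => ?_⟩
  have hle : ∀ t, (wt T t) ^ 2 ≤ wt T t := by
    intro t
    nlinarith [wt_nonneg T t hT, wt_le_one T t hT]
  have hi : Integrable (fun t => (wt T t) ^ 2) := by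
    refine Integrable.mono' (wt_integrable T hT) ((wt_cont T).pow 2).aestronglyMeasurable
      (Eventually.of_forall fun t => ?_)
    rw [Real.norm_of_nonneg (sq_nonneg _)]
    exact hle t
  refine ⟨hi, ?_⟩
  have := integral_mono hi (wt_integrable T hT) hle
  rw [wt_integral T hT] at this
  linarith

theorem bt_cont (T ℓ : ℝ) : Continuous (fun p : ℝ × ℝ => bt T p.1 p.2 ℓ) := by
  unfold bt
  apply Continuous.mul (by fun_prop)
  apply intervalIntegral.continuous_parametric_intervalIntegral_of_continuous'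
  simp only [Function.uncurry_def]
  fun_prop

namespace Cut

theorem bt_int_norm (u t ℓ τ : ℝ) :
    ‖(Real.exp (-(t - τ) ^ 2 / 4) : ℂ) * cexp (I * ((t + τ) / 2) * (u - ℓ))‖ =
      Real.exp (-(1 / 4) * (τ - t) ^ 2) := by
  rw [norm_mul, Complex.norm_real, Real.norm_of_nonneg (Real.exp_pos _).le]
  have : (I * ((t + τ) / 2) * (u - ℓ) : ℂ) = (((t + τ) / 2 * (u - ℓ) : ℝ) : ℂ) * I := by
    push_cast; ring
  rw [this, Complex.norm_exp_ofReal_mul_I, mul_one]
  congr 1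
  ring

theorem bt_int_cont (u t ℓ : ℝ) : Continuous (fun τ : ℝ =>
    (Real.exp (-(t - τ) ^ 2 / 4) : ℂ) * cexp (I * ((t + τ) / 2) * (u - ℓ))) := by
  fun_prop

theorem bt_int_integrable (u t ℓ : ℝ) : Integrable (fun τ : ℝ =>
    (Real.exp (-(t - τ) ^ 2 / 4) : ℂ) * cexp (I * ((t + τ) / 2) * (u - ℓ))) := by
  refine Integrable.mono' (int_gauss_shift hq t) (bt_int_cont u t ℓ).aestronglyMeasurable ?_
  exact Eventually.of_forall (fun τ => (bt_int_norm u t ℓ τ).le)

/-- the inner integral -/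
noncomputable def JJ (T u t ℓ : ℝ) : ℂ := ∫ τ in T..(2 * T),
  (Real.exp (-(t - τ) ^ 2 / 4) : ℂ) * cexp (I * ((t + τ) / 2) * (u - ℓ))

theorem bt_eq (T u t ℓ : ℝ) : bt T u t ℓ =
    (1 / (2 * Real.sqrt Real.pi) * (1 / Real.sqrt (2 * Real.pi)) *
      Real.exp (-(u - ℓ) ^ 2 / 4) : ℝ) * JJ T u t ℓ := rfl

theorem JJ_le (T u t ℓ : ℝ) (hT : 0 ≤ T) :
    ‖JJ T u t ℓ‖ ≤ ∫ τ in T..(2 * T), Real.exp (-(1 / 4) * (τ - t) ^ 2) := by
  unfold JJ
  refine (intervalIntegral.norm_integral_le_integral_norm (by linarith)).trans (le_of_eq ?_)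
  congr 1
  ext τ
  exact bt_int_norm u t ℓ τ

theorem full_int (u t ℓ : ℝ) : ‖∫ τ : ℝ,
    (Real.exp (-(t - τ) ^ 2 / 4) : ℂ) * cexp (I * ((t + τ) / 2) * (u - ℓ))‖ =
    2 * Real.sqrt Real.pi * Real.exp (-(u - ℓ) ^ 2 / 4) := by
  have h1 : ∫ τ : ℝ, (Real.exp (-(t - τ) ^ 2 / 4) : ℂ) * cexp (I * ((t + τ) / 2) * (u - ℓ)) =
      ∫ τ : ℝ, cexp ((t * (u - ℓ) : ℝ) * I) * (Real.exp (-(u - ℓ) ^ 2 / 4) : ℂ) *
        cexp (-(1 / 4 : ℂ) * (((τ - t : ℝ) : ℂ) + ((-(u - ℓ) : ℝ) : ℂ) * I) ^ 2) := by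
    congr 1
    ext τ
    rw [Complex.ofReal_exp, Complex.ofReal_exp, ← Complex.exp_add, ← Complex.exp_add,
      ← Complex.exp_add]
    congr 1
    push_cast
    have hI : (I : ℂ) ^ 2 = -1 := I_sq
    ring_nf
    rw [hI]
    ring
  rw [h1, integral_const_mul, integral_sub_right_eq_self
    (fun s : ℝ => cexp (-(1 / 4 : ℂ) * ((s : ℂ) + ((-(u - ℓ) : ℝ) : ℂ) * I) ^ 2)) t,
    GaussianFourier.integral_cexp_neg_mul_sq_add_real_mul_I (by norm_num)]
  have h2 : (Real.pi / (1 / 4) : ℂ) ^ (1 / 2 : ℂ) = ((2 * Real.sqrt Real.pi : ℝ) : ℂ) := by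
    rw [← sqrt_pi_quarter, Real.sqrt_eq_rpow, Complex.ofReal_cpow (by positivity)]
    push_cast
    norm_num
  rw [h2, norm_mul, norm_mul, Complex.norm_exp_ofReal_mul_I, Complex.norm_real, Complex.norm_real,
    Real.norm_of_nonneg (Real.exp_pos _).le, Real.norm_of_nonneg (by positivity)]
  ring

theorem JJ_sq (T u t ℓ : ℝ) (hT : 0 ≤ T) : ‖JJ T u t ℓ‖ ^ 2 ≤
    (Icc T (2 * T)).indicator (fun _ => 4 * Real.pi * Real.exp (-(u - ℓ) ^ 2 / 2)) t +
      6 * Real.pi * (Real.exp (-(1 / 4) * (t - T) ^ 2) + Real.exp (-(1 / 4) * (t - 2 * T) ^ 2)) := by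
  have hsq : Real.sqrt Real.pi ^ 2 = Real.pi := Real.sq_sqrt Real.pi_pos.le
  have hs := sqrt_pi_pos
  set s := Real.sqrt Real.pi with hsdef
  have hex : Real.exp (-(u - ℓ) ^ 2 / 2) = Real.exp (-(u - ℓ) ^ 2 / 4) ^ 2 := by
    rw [← Real.exp_nat_mul]
    congr 1
    push_cast
    ring
  have a1 : 0 < Real.exp (-(1 / 4) * (t - T) ^ 2) := Real.exp_pos _
  have a2 : 0 < Real.exp (-(1 / 4) * (t - 2 * T) ^ 2) := Real.exp_pos _
  have a3 : Real.exp (-(1 / 4) * (t - T) ^ 2) ≤ 1 := by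
    apply Real.exp_le_one_iff.mpr
    nlinarith [sq_nonneg (t - T)]
  have a4 : Real.exp (-(1 / 4) * (t - 2 * T) ^ 2) ≤ 1 := by
    apply Real.exp_le_one_iff.mpr
    nlinarith [sq_nonneg (t - 2 * T)]
  have b1 : Real.exp (-(1 / 4) * (T - t) ^ 2) = Real.exp (-(1 / 4) * (t - T) ^ 2) := by
    congr 1; ring
  have b2 : Real.exp (-(1 / 4) * (2 * T - t) ^ 2) = Real.exp (-(1 / 4) * (t - 2 * T) ^ 2) := by
    congr 1; ring
  set A := Real.exp (-(1 / 4) * (t - T) ^ 2) with hA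
  set B := Real.exp (-(1 / 4) * (t - 2 * T) ^ 2) with hB
  have hpi := Real.pi_pos
  by_cases ht : t ∈ Icc T (2 * T)
  · rw [indicator_of_mem ht]
    have hJ : JJ T u t ℓ = (∫ τ : ℝ,
        (Real.exp (-(t - τ) ^ 2 / 4) : ℂ) * cexp (I * ((t + τ) / 2) * (u - ℓ))) -
        (∫ τ : ℝ in Iic T,
        (Real.exp (-(t - τ) ^ 2 / 4) : ℂ) * cexp (I * ((t + τ) / 2) * (u - ℓ))) -
        (∫ τ : ℝ in Ioi (2 * T),
        (Real.exp (-(t - τ) ^ 2 / 4) : ℂ) * cexp (I * ((t + τ) / 2) * (u - ℓ))) :=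
      split3 (bt_int_integrable u t ℓ)
    have e1 : ‖∫ τ : ℝ in Iic T,
        (Real.exp (-(t - τ) ^ 2 / 4) : ℂ) * cexp (I * ((t + τ) / 2) * (u - ℓ))‖ ≤ s * A := by
      refine (norm_integral_le_integral_norm _).trans ?_
      simp only [bt_int_norm]
      have := tail_Iic hq (t := t) (a := T) ht.1
      rw [sqrt_pi_quarter, b1] at this
      refine this.trans (le_of_eq ?_)
      ring
    have e2 : ‖∫ τ : ℝ in Ioi (2 * T),
        (Real.exp (-(t - τ) ^ 2 / 4) : ℂ) * cexp (I * ((t + τ) / 2) * (u - ℓ))‖ ≤ s * B := by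
      refine (norm_integral_le_integral_norm _).trans ?_
      simp only [bt_int_norm]
      have := tail_Ioi hq (t := t) (a := 2 * T) ht.2
      rw [sqrt_pi_quarter, b2] at this
      refine this.trans (le_of_eq ?_)
      ring
    have e3 : ‖JJ T u t ℓ‖ ≤ 2 * s * Real.exp (-(u - ℓ) ^ 2 / 4) + s * A + s * B := by
      rw [hJ]
      refine (norm_sub_le _ _).trans (add_le_add ((norm_sub_le _ _).trans (add_le_add ?_ e1)) e2)
      exact (full_int u t ℓ).le
    have hE0 : 0 < Real.exp (-(u - ℓ) ^ 2 / 4) := Real.exp_pos _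
    have hE1 : Real.exp (-(u - ℓ) ^ 2 / 4) ≤ 1 := by
      apply Real.exp_le_one_iff.mpr
      nlinarith [sq_nonneg (u - ℓ)]
    rw [hex]
    set E := Real.exp (-(u - ℓ) ^ 2 / 4) with hEdef
    calc ‖JJ T u t ℓ‖ ^ 2 ≤ (2 * s * E + s * A + s * B) ^ 2 :=
          pow_le_pow_left₀ (norm_nonneg _) e3 2
      _ = Real.pi * (2 * E + (A + B)) ^ 2 := by rw [← hsq]; ring
      _ ≤ Real.pi * (4 * E ^ 2 + 6 * (A + B)) := by
          apply mul_le_mul_of_nonneg_left _ hpi.le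
          nlinarith [mul_nonneg (add_pos a1 a2).le (sub_nonneg.mpr hE1),
            mul_nonneg (add_pos a1 a2).le (sub_nonneg.mpr a3),
            mul_nonneg (add_pos a1 a2).le (sub_nonneg.mpr a4)]
      _ = _ := by ring
  · rw [indicator_of_notMem ht, zero_add]
    have hcase : t < T ∨ 2 * T < t := by
      by_contra hcon
      exact ht ⟨not_lt.mp (fun h => hcon (Or.inl h)), not_lt.mp (fun h => hcon (Or.inr h))⟩
    have e3 : ‖JJ T u t ℓ‖ ≤ s * (A + B) := by
      refine (JJ_le T u t ℓ hT).trans ?_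
      rcases hcase with h | h
      · refine (interval_le_Ioi (int_gauss_shift hq t) (fun τ => (Real.exp_pos _).le)
          (by linarith)).trans ?_
        have := tail_Ioi hq (t := t) (a := T) h.le
        rw [sqrt_pi_quarter, b1] at this
        refine this.trans ?_
        nlinarith [mul_pos hs a2]
      · refine (interval_le_Iic (int_gauss_shift hq t) (fun τ => (Real.exp_pos _).le)
          (by linarith)).trans ?_
        have := tail_Iic hq (t := t) (a := 2 * T) h.le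
        rw [sqrt_pi_quarter, b2] at this
        refine this.trans ?_
        nlinarith [mul_pos hs a1]
    calc ‖JJ T u t ℓ‖ ^ 2 ≤ (s * (A + B)) ^ 2 := pow_le_pow_left₀ (norm_nonneg _) e3 2
      _ = Real.pi * (A + B) ^ 2 := by rw [← hsq]; ring
      _ ≤ Real.pi * (6 * (A + B)) := by
          apply mul_le_mul_of_nonneg_left _ hpi.le
          nlinarith [mul_nonneg (add_pos a1 a2).le (sub_nonneg.mpr a3),
            mul_nonneg (add_pos a1 a2).le (sub_nonneg.mpr a4)]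
      _ = _ := by ring

theorem JJ_cont (T u ℓ : ℝ) : Continuous (fun t => JJ T u t ℓ) := by
  unfold JJ
  apply intervalIntegral.continuous_parametric_intervalIntegral_of_continuous'
  simp only [Function.uncurry_def]
  fun_prop

theorem maj_int (T c : ℝ) : Integrable (fun t : ℝ =>
    (Icc T (2 * T)).indicator (fun _ => c) t +
      6 * Real.pi * (Real.exp (-(1 / 4) * (t - T) ^ 2) + Real.exp (-(1 / 4) * (t - 2 * T) ^ 2))) := by
  apply Integrable.add
  · rw [integrable_indicator_iff measurableSet_Icc]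
    exact integrableOn_const (by simp)
  · exact ((int_gauss_shift hq T).add (int_gauss_shift hq (2 * T))).const_mul _

theorem maj_integral (T c : ℝ) (hT : 0 ≤ T) : ∫ t : ℝ,
    ((Icc T (2 * T)).indicator (fun _ => c) t +
      6 * Real.pi * (Real.exp (-(1 / 4) * (t - T) ^ 2) + Real.exp (-(1 / 4) * (t - 2 * T) ^ 2))) =
    T * c + 24 * Real.pi * Real.sqrt Real.pi := by
  rw [integral_add, integral_indicator measurableSet_Icc, setIntegral_const, integral_const_mul,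
    integral_add (int_gauss_shift hq T) (int_gauss_shift hq (2 * T)), integral_gauss_shift,
    integral_gauss_shift, sqrt_pi_quarter, smul_eq_mul, Real.volume_real_Icc_of_le (by linarith)]
  · ring
  · rw [integrable_indicator_iff measurableSet_Icc]
    exact integrableOn_const (by simp)
  · exact ((int_gauss_shift hq T).add (int_gauss_shift hq (2 * T))).const_mul _

end Cut

theorem bt_norm (T u t ℓ : ℝ) (hT : 0 ≤ T) :
    ‖bt T u t ℓ‖ ≤ 1 / Real.sqrt (2 * Real.pi) * Real.exp (-(u - ℓ) ^ 2 / 4) * wt T t := by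
  rw [bt_eq, norm_mul, Complex.norm_real, Real.norm_of_nonneg (by positivity), wt_eq]
  have := JJ_le T u t ℓ hT
  calc _ ≤ 1 / (2 * Real.sqrt Real.pi) * (1 / Real.sqrt (2 * Real.pi)) *
      Real.exp (-(u - ℓ) ^ 2 / 4) * ∫ τ in T..(2 * T), Real.exp (-(1 / 4) * (τ - t) ^ 2) :=
        mul_le_mul_of_nonneg_left this (by positivity)
    _ = _ := by ring

/-- sharp mean square of `bt` -/
theorem bt_sq_int : ∃ C : ℝ, 0 < C ∧ ∀ T κ u ℓ : ℝ, 1 ≤ κ → 1 ≤ T → T ≤ Real.exp (κ ^ 2) →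
    Integrable (fun t => ‖bt T u t ℓ‖ ^ 2) ∧
    ∫ t : ℝ, ‖bt T u t ℓ‖ ^ 2 ≤ T / (2 * Real.pi) * Real.exp (-(u - ℓ) ^ 2) +
      C * κ * Real.exp (-(u - ℓ) ^ 2 / 2) := by
  refine ⟨2, two_pos, fun T κ u ℓ hκ hT _ => ?_⟩
  have hT0 : 0 ≤ T := by linarith
  set c : ℝ := 1 / (2 * Real.sqrt Real.pi) * (1 / Real.sqrt (2 * Real.pi)) *
      Real.exp (-(u - ℓ) ^ 2 / 4) with hc
  have hsq1 : Real.sqrt Real.pi ^ 2 = Real.pi := Real.sq_sqrt Real.pi_pos.le
  have hsq2 : Real.sqrt (2 * Real.pi) ^ 2 = 2 * Real.pi := Real.sq_sqrt (by positivity)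
  have hpi := Real.pi_pos
  have hc2 : c ^ 2 = 1 / (8 * Real.pi ^ 2) * Real.exp (-(u - ℓ) ^ 2 / 2) := by
    have hex : Real.exp (-(u - ℓ) ^ 2 / 2) = Real.exp (-(u - ℓ) ^ 2 / 4) ^ 2 := by
      rw [← Real.exp_nat_mul]
      congr 1
      push_cast
      ring
    rw [hc, mul_pow, mul_pow, div_pow, div_pow, mul_pow, hsq1, hsq2, hex]
    field_simp
    ring
  have e : (fun t => ‖bt T u t ℓ‖ ^ 2) = fun t => c ^ 2 * ‖JJ T u t ℓ‖ ^ 2 := by
    ext t
    rw [bt_eq, norm_mul, Complex.norm_real, Real.norm_of_nonneg (by positivity), mul_pow]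
  have hJi : Integrable (fun t => ‖JJ T u t ℓ‖ ^ 2) := by
    refine Integrable.mono' (maj_int T (4 * Real.pi * Real.exp (-(u - ℓ) ^ 2 / 2)))
      ((JJ_cont T u ℓ).norm.pow 2).aestronglyMeasurable (Eventually.of_forall fun t => ?_)
    rw [Real.norm_of_nonneg (sq_nonneg _)]
    exact JJ_sq T u t ℓ hT0
  have hJ := integral_mono hJi (maj_int T (4 * Real.pi * Real.exp (-(u - ℓ) ^ 2 / 2)))
    (fun t => JJ_sq T u t ℓ hT0)
  rw [maj_integral T _ hT0] at hJ
  refine ⟨by rw [e]; exact hJi.const_mul _, ?_⟩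
  rw [e, integral_const_mul]
  have hs3 : Real.sqrt Real.pi ≤ 2 := by
    rw [Real.sqrt_le_left (by norm_num)]
    have := Real.pi_lt_d2
    linarith
  have hs4 : 1 ≤ Real.sqrt Real.pi := by
    rw [Real.le_sqrt (by norm_num) (by positivity)]
    have := Real.pi_gt_three
    linarith
  have hex2 : Real.exp (-(u - ℓ) ^ 2 / 2) * Real.exp (-(u - ℓ) ^ 2 / 2) =
      Real.exp (-(u - ℓ) ^ 2) := by
    rw [← Real.exp_add]
    congr 1
    ring
  have hE := Real.exp_pos (-(u - ℓ) ^ 2 / 2)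
  calc c ^ 2 * ∫ t, ‖JJ T u t ℓ‖ ^ 2 ≤
      c ^ 2 * (T * (4 * Real.pi * Real.exp (-(u - ℓ) ^ 2 / 2)) +
        24 * Real.pi * Real.sqrt Real.pi) := mul_le_mul_of_nonneg_left hJ (sq_nonneg _)
    _ = T / (2 * Real.pi) * Real.exp (-(u - ℓ) ^ 2) +
        3 * Real.sqrt Real.pi / Real.pi * Real.exp (-(u - ℓ) ^ 2 / 2) := by
        rw [hc2, ← hex2]
        field_simp
        ring
    _ ≤ _ := by
        apply add_le_add le_rfl
        apply mul_le_mul_of_nonneg_right _ hE.le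
        have h5 : 3 * Real.sqrt Real.pi / Real.pi ≤ 2 := by
          rw [div_le_iff₀ hpi]
          have h6 : (1.77 : ℝ) ≤ Real.sqrt Real.pi := by
            rw [Real.le_sqrt (by norm_num) (by positivity)]
            have := Real.pi_gt_d2
            norm_num at this ⊢
            linarith
          nlinarith [hsq1, h6, sqrt_pi_pos]
        nlinarith

end H385
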