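import Pool.Agent.H385R2.Defs5
import Pool.Agent.H385R2.Cut

/-!
S6 (helper376): in the bulk the cut-off coefficient `bt` is the full Gaussian up to an
exponentially small error.
-/

open Complex Filter Topology Set MeasureTheory

namespace H385
namespace Bulk

open Cut

theorem full_eq (u t ℓ : ℝ) : ∫ τ : ℝ,
    (Real.exp (-(t - τ) ^ 2 / 4) : ℂ) * cexp (I * ((t + τ) / 2) * (u - ℓ)) =
    ((2 * Real.sqrt Real.pi * Real.exp (-(u - ℓ) ^ 2 / 4) : ℝ) : ℂ) *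
      cexp (I * t * (u - ℓ)) := by
  have h1 : ∫ τ : ℝ, (Real.exp (-(t - τ) ^ 2 / 4) : ℂ) * cexp (I * ((t + τ) / 2) * (u - ℓ)) =
      ∫ τ : ℝ, cexp ((t * (u - ℓ) : ℝ) * I) * (Real.exp (-(u - ℓ) ^ 2 / 4) : ℂ) *
        cexp (-(1 / 4 : ℂ) * (((τ - t : ℝ) : ℂ) + ((-(u - ℓ) : ℝ) : ℂ) * I) ^ 2) := by
    congr 1
    ext τ
    rw [Complex.ofReal_exp, Complex.ofReal_exp, ← Complex.exp_add, ← Complex.exp_add,
      ← Complex.exp_add]
    congr 1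
    push_cast
    have hI : (I : ℂ) ^ 2 = -1 := I_sq
    ring_nf
    rw [hI]
    ring
  rw [h1, integral_const_mul, integral_sub_right_eq_self
    (fun s : ℝ => cexp (-(1 / 4 : ℂ) * ((s : ℂ) + ((-(u - ℓ) : ℝ) : ℂ) * I) ^ 2)) t,
    GaussianFourier.integral_cexp_neg_mul_sq_add_real_mul_I (by norm_num)]
  have h2 : (Real.pi / (1 / 4) : ℂ) ^ (1 / 2 : ℂ) = ((2 * Real.sqrt Real.pi : ℝ) : ℂ) := by
    rw [← sqrt_pi_quarter, Real.sqrt_eq_rpow, Complex.ofReal_cpow (by positivity)]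
    push_cast
    norm_num
  rw [h2]
  have h3 : cexp ((t * (u - ℓ) : ℝ) * I) = cexp (I * t * (u - ℓ)) := by
    congr 1
    push_cast
    ring
  rw [h3]
  push_cast
  ring

end Bulk

open Cut Bulk

theorem bt_bulk : ∃ C : ℝ, 0 < C ∧ ∀ T κ u t ℓ : ℝ, 1 ≤ κ → T + κ ≤ t → t ≤ 2 * T - κ →
    ‖bt T u t ℓ - ((1 / Real.sqrt (2 * Real.pi) * Real.exp (-(u - ℓ) ^ 2 / 2) : ℝ) : ℂ) *
      cexp (I * t * (u - ℓ))‖ ≤ C * Real.exp (-(u - ℓ) ^ 2 / 4 - κ ^ 2 / 4) := by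
  have hs := sqrt_pi_pos
  have hs2 := sqrt_2pi_pos
  refine ⟨1 / Real.sqrt (2 * Real.pi), by positivity, ?_⟩
  intro T κ u t ℓ hκ h1 h2
  have hJ : JJ T u t ℓ = (∫ τ : ℝ,
      (Real.exp (-(t - τ) ^ 2 / 4) : ℂ) * cexp (I * ((t + τ) / 2) * (u - ℓ))) -
      (∫ τ : ℝ in Iic T,
      (Real.exp (-(t - τ) ^ 2 / 4) : ℂ) * cexp (I * ((t + τ) / 2) * (u - ℓ))) -
      (∫ τ : ℝ in Ioi (2 * T),
      (Real.exp (-(t - τ) ^ 2 / 4) : ℂ) * cexp (I * ((t + τ) / 2) * (u - ℓ))) :=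
    split3 (bt_int_integrable u t ℓ)
  have hE : ∀ x : ℝ, κ ≤ |x| → Real.exp (-(1 / 4) * x ^ 2) ≤ Real.exp (-κ ^ 2 / 4) := by
    intro x hx
    apply Real.exp_le_exp.mpr
    have : κ ^ 2 ≤ x ^ 2 := by
      rw [← sq_abs x]
      exact pow_le_pow_left₀ (by linarith) hx 2
    linarith
  have e1 : ‖∫ τ : ℝ in Iic T,
      (Real.exp (-(t - τ) ^ 2 / 4) : ℂ) * cexp (I * ((t + τ) / 2) * (u - ℓ))‖ ≤
      Real.sqrt Real.pi * Real.exp (-κ ^ 2 / 4) := by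
    refine (norm_integral_le_integral_norm _).trans ?_
    simp only [bt_int_norm]
    have h3 := tail_Iic hq (t := t) (a := T) (by linarith)
    rw [sqrt_pi_quarter] at h3
    have h4 := hE (T - t) (by rw [abs_sub_comm, abs_of_nonneg (by linarith)]; linarith)
    refine h3.trans ?_
    have : 2 * Real.sqrt Real.pi / 2 = Real.sqrt Real.pi := by ring
    rw [this]
    exact mul_le_mul_of_nonneg_left h4 hs.le
  have e2 : ‖∫ τ : ℝ in Ioi (2 * T),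
      (Real.exp (-(t - τ) ^ 2 / 4) : ℂ) * cexp (I * ((t + τ) / 2) * (u - ℓ))‖ ≤
      Real.sqrt Real.pi * Real.exp (-κ ^ 2 / 4) := by
    refine (norm_integral_le_integral_norm _).trans ?_
    simp only [bt_int_norm]
    have h3 := tail_Ioi hq (t := t) (a := 2 * T) (by linarith)
    rw [sqrt_pi_quarter] at h3
    have h4 := hE (2 * T - t) (by rw [abs_of_nonneg (by linarith)]; linarith)
    refine h3.trans ?_
    have : 2 * Real.sqrt Real.pi / 2 = Real.sqrt Real.pi := by ring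
    rw [this]
    exact mul_le_mul_of_nonneg_left h4 hs.le
  set A := ∫ τ : ℝ in Iic T,
      (Real.exp (-(t - τ) ^ 2 / 4) : ℂ) * cexp (I * ((t + τ) / 2) * (u - ℓ)) with hA
  set B := ∫ τ : ℝ in Ioi (2 * T),
      (Real.exp (-(t - τ) ^ 2 / 4) : ℂ) * cexp (I * ((t + τ) / 2) * (u - ℓ)) with hB
  rw [full_eq] at hJ
  have hexp : Real.exp (-(u - ℓ) ^ 2 / 2) =
      Real.exp (-(u - ℓ) ^ 2 / 4) * Real.exp (-(u - ℓ) ^ 2 / 4) := by
    rw [← Real.exp_add]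
    congr 1
    ring
  have hmain : bt T u t ℓ - ((1 / Real.sqrt (2 * Real.pi) *
      Real.exp (-(u - ℓ) ^ 2 / 2) : ℝ) : ℂ) * cexp (I * t * (u - ℓ)) =
      -(((1 / (2 * Real.sqrt Real.pi) * (1 / Real.sqrt (2 * Real.pi)) *
        Real.exp (-(u - ℓ) ^ 2 / 4) : ℝ) : ℂ) * (A + B)) := by
    rw [bt_eq, hJ, hexp]
    have hsc : (Real.sqrt Real.pi : ℂ) ≠ 0 := by
      exact_mod_cast hs.ne'
    have hsc2 : (Real.sqrt (2 * Real.pi) : ℂ) ≠ 0 := by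
      exact_mod_cast hs2.ne'
    push_cast
    field_simp
    ring
  rw [hmain, norm_neg, norm_mul, Complex.norm_real, Real.norm_of_nonneg (by positivity)]
  have hAB : ‖A + B‖ ≤ 2 * (Real.sqrt Real.pi * Real.exp (-κ ^ 2 / 4)) := by
    refine (norm_add_le _ _).trans ?_
    linarith
  have hex2 : Real.exp (-(u - ℓ) ^ 2 / 4 - κ ^ 2 / 4) =
      Real.exp (-(u - ℓ) ^ 2 / 4) * Real.exp (-κ ^ 2 / 4) := by
    rw [← Real.exp_add]
    congr 1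
    ring
  calc 1 / (2 * Real.sqrt Real.pi) * (1 / Real.sqrt (2 * Real.pi)) *
        Real.exp (-(u - ℓ) ^ 2 / 4) * ‖A + B‖
      ≤ 1 / (2 * Real.sqrt Real.pi) * (1 / Real.sqrt (2 * Real.pi)) *
        Real.exp (-(u - ℓ) ^ 2 / 4) * (2 * (Real.sqrt Real.pi * Real.exp (-κ ^ 2 / 4))) :=
        mul_le_mul_of_nonneg_left hAB (by positivity)
    _ = 1 / Real.sqrt (2 * Real.pi) * Real.exp (-(u - ℓ) ^ 2 / 4 - κ ^ 2 / 4) := by
        rw [hex2]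
        field_simp

end H385
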