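import Pool.Agent.H385R2.Theta

/-!
TEAM Q, module Q6: from additive to multiplicative characters.
-/

set_option autoImplicit false

open Filter Topology Set MeasureTheory

namespace H385

section

variable {q : ℕ} [NeZero q]

lemma sum_range_zmod {M : Type*} [AddCommMonoid M] (g : ZMod q → M) :
    ∑ b ∈ Finset.range q, g (b : ZMod q) = ∑ z : ZMod q, g z := by
  refine Finset.sum_nbij' (fun b => (b : ZMod q)) (fun z => z.val) ?_ ?_ ?_ ?_ ?_
  · intro b _; exact Finset.mem_univ _
  · intro z _; exact Finset.mem_range.mpr (ZMod.val_lt _)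
  · intro b hb
    exact ZMod.val_natCast_of_lt (Finset.mem_range.mp hb)
  · intro z _
    exact ZMod.natCast_zmod_val z
  · intro b _; rfl

lemma ee_eq (k : ℤ) : ee ((k : ℝ) / q) = ZMod.stdAddChar ((k : ℤ) : ZMod q) := by
  rw [ZMod.stdAddChar_coe]
  unfold ee
  push_cast
  congr 1
  ring

lemma tau_eq (χ : DirichletCharacter ℂ q) : tau q χ = gaussSum χ ZMod.stdAddChar := by
  unfold tau gaussSum
  rw [← sum_range_zmod (fun z => χ z * ZMod.stdAddChar z)]
  apply Finset.sum_congr rfl
  intro b _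
  congr 1
  have := ee_eq (q := q) (b : ℤ)
  push_cast at this
  exact this

omit [NeZero q] in
lemma norm_char_unit (χ : DirichletCharacter ℂ q) (u : (ZMod q)ˣ) : ‖χ u‖ = 1 :=
  DirichletCharacter.unit_norm_eq_one χ u

lemma norm_tau_inv (χ : DirichletCharacter ℂ q) : ‖tau q χ⁻¹‖ = ‖tau q χ‖ := by
  rw [tau_eq, tau_eq, ← norm_star (gaussSum χ ZMod.stdAddChar), star_gaussSum_eq]
  have h1 : (ZMod.stdAddChar : AddChar (ZMod q) ℂ)⁻¹ =
      (ZMod.stdAddChar : AddChar (ZMod q) ℂ).mulShift ((-1 : (ZMod q)ˣ) : ZMod q) := by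
    ext x
    simp [AddChar.inv_apply, AddChar.mulShift_apply]
  rw [h1, gaussSum_mulShift_eq, norm_mul, norm_char_unit, one_mul]

lemma tau_mul_sum (χ : DirichletCharacter ℂ q) (N : ℕ) (a : ℕ → ℂ)
    (ha : ∀ n, ¬ Nat.Coprime n q → a n = 0) :
    tau q χ⁻¹ * ∑ n ∈ Finset.Icc 1 N, a n * χ (n : ZMod q) =
      ∑ z : ZMod q, χ⁻¹ z * ∑ n ∈ Finset.Icc 1 N, a n * ZMod.stdAddChar ((n : ZMod q) * z) := by
  have h1 : ∑ z : ZMod q, χ⁻¹ z * ∑ n ∈ Finset.Icc 1 N, a n *
      ZMod.stdAddChar ((n : ZMod q) * z) =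
      ∑ n ∈ Finset.Icc 1 N, a n * ∑ z : ZMod q, χ⁻¹ z *
        (ZMod.stdAddChar : AddChar (ZMod q) ℂ) ((n : ZMod q) * z) := by
    simp only [Finset.mul_sum]
    rw [Finset.sum_comm]
    apply Finset.sum_congr rfl
    intro n _
    apply Finset.sum_congr rfl
    intro z _
    ring
  rw [h1, Finset.mul_sum]
  apply Finset.sum_congr rfl
  intro n _
  by_cases hn : Nat.Coprime n q
  · have hu : IsUnit (n : ZMod q) := (ZMod.isUnit_iff_coprime n q).mpr hn
    obtain ⟨u, hu⟩ := hu
    have h2 : ∑ z : ZMod q, χ⁻¹ z * (ZMod.stdAddChar : AddChar (ZMod q) ℂ) ((n : ZMod q) * z) =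
        gaussSum χ⁻¹ ((ZMod.stdAddChar : AddChar (ZMod q) ℂ).mulShift (u : ZMod q)) := by
      unfold gaussSum
      apply Finset.sum_congr rfl
      intro z _
      rw [AddChar.mulShift_apply, hu]
    rw [h2, gaussSum_mulShift_eq, inv_inv, hu, tau_eq]
    ring
  · rw [ha n hn]; simp

lemma parseval (S : ZMod q → ℂ) :
    ∑ χ : DirichletCharacter ℂ q, ‖∑ z : ZMod q, χ⁻¹ z * S z‖ ^ 2 =
      Nat.totient q * ∑ z ∈ (Finset.univ : Finset (ZMod q)).filter (fun z => IsUnit z),
        ‖S z‖ ^ 2 := by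
  classical
  have hmain : (((∑ χ : DirichletCharacter ℂ q, ‖∑ z : ZMod q, χ⁻¹ z * S z‖ ^ 2 : ℝ)) : ℂ) =
      ((Nat.totient q * ∑ z ∈ (Finset.univ : Finset (ZMod q)).filter (fun z => IsUnit z),
        ‖S z‖ ^ 2 : ℝ) : ℂ) := by
    push_cast
    have h1 : ∀ χ : DirichletCharacter ℂ q, ((‖∑ z : ZMod q, χ⁻¹ z * S z‖ : ℂ)) ^ 2 =
        ∑ z : ZMod q, ∑ w : ZMod q, (S z * (starRingEnd ℂ) (S w)) * (χ⁻¹ z * χ w) := by
      intro χ
      rw [← Complex.mul_conj', map_sum, Finset.sum_mul_sum]
      apply Finset.sum_congr rfl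
      intro z _
      apply Finset.sum_congr rfl
      intro w _
      have h2 : (starRingEnd ℂ) (χ⁻¹ w) = χ w := by
        have := MulChar.star_apply' χ⁻¹ w
        rw [inv_inv] at this
        exact this
      rw [map_mul, h2]
      ring
    simp only [h1]
    rw [Finset.sum_comm]
    have h3 : ∀ z : ZMod q, ∑ χ : DirichletCharacter ℂ q, ∑ w : ZMod q,
        (S z * (starRingEnd ℂ) (S w)) * (χ⁻¹ z * χ w) =
        if IsUnit z then (Nat.totient q : ℂ) * (‖S z‖ : ℂ) ^ 2 else 0 := by
      intro z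
      rw [Finset.sum_comm]
      by_cases hz : IsUnit z
      · rw [if_pos hz]
        have h4 : ∀ w : ZMod q, ∑ χ : DirichletCharacter ℂ q,
            (S z * (starRingEnd ℂ) (S w)) * (χ⁻¹ z * χ w) =
            if z = w then (Nat.totient q : ℂ) * (S z * (starRingEnd ℂ) (S w)) else 0 := by
          intro w
          rw [← Finset.mul_sum]
          have h5 := DirichletCharacter.sum_char_inv_mul_char_eq ℂ hz w
          have h6 : ∀ χ : DirichletCharacter ℂ q, χ⁻¹ z = χ z⁻¹ := by
            intro χ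
            obtain ⟨u, rfl⟩ := hz
            rw [MulChar.inv_apply, Ring.inverse_unit, ZMod.inv_coe_unit]
          simp only [h6]
          rw [h5]
          split_ifs <;> ring
        simp only [h4]
        rw [Finset.sum_ite_eq]
        simp only [Finset.mem_univ, if_true]
        rw [Complex.mul_conj']
      · rw [if_neg hz]
        apply Finset.sum_eq_zero
        intro w _
        apply Finset.sum_eq_zero
        intro χ _
        rw [MulChar.map_nonunit χ⁻¹ hz]
        ring
    simp only [h3]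
    rw [Finset.mul_sum, Finset.sum_filter]
  exact_mod_cast hmain

lemma sum_coprime_eq (F : ZMod q → ℝ) :
    ∑ b ∈ (Finset.range q).filter (fun b => Nat.Coprime b q), F (b : ZMod q) =
      ∑ z ∈ (Finset.univ : Finset (ZMod q)).filter (fun z => IsUnit z), F z := by
  classical
  rw [Finset.sum_filter, Finset.sum_filter,
    ← sum_range_zmod (fun z : ZMod q => if IsUnit z then F z else 0)]
  apply Finset.sum_congr rfl
  intro b _
  simp only [ZMod.isUnit_iff_coprime]

lemma SS_eq (N : ℕ) (a : ℕ → ℂ) (b : ℕ) :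
    SS N a ((b : ℝ) / q) =
      ∑ n ∈ Finset.Icc 1 N, a n * ZMod.stdAddChar ((n : ZMod q) * (b : ZMod q)) := by
  unfold SS
  apply Finset.sum_congr rfl
  intro n _
  congr 1
  have := ee_eq (q := q) ((n : ℤ) * b)
  push_cast at this
  rw [← this]
  congr 1
  ring

end

theorem char_farey (q : ℕ) [NeZero q] (N : ℕ) (a : ℕ → ℂ)
    (ha : ∀ n, ¬ Nat.Coprime n q → a n = 0) :
    ∑ᶠ χ : DirichletCharacter ℂ q, ‖tau q χ‖ ^ 2 *
        ‖∑ n ∈ Finset.Icc 1 N, a n * χ (n : ZMod q)‖ ^ 2 =
      Nat.totient q *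
        ∑ b ∈ (Finset.range q).filter (fun b => Nat.Coprime b q), ‖SS N a ((b : ℝ) / q)‖ ^ 2 := by
  rw [finsum_eq_sum_of_fintype]
  simp only [SS_eq]
  rw [sum_coprime_eq (fun z => ‖∑ n ∈ Finset.Icc 1 N, a n *
    ZMod.stdAddChar ((n : ZMod q) * z)‖ ^ 2), ← parseval]
  apply Finset.sum_congr rfl
  intro χ _
  rw [← tau_mul_sum χ N a ha, norm_mul, norm_tau_inv, mul_pow]

theorem ww_total (q : ℕ) [NeZero q] :
    ∑ᶠ χ : DirichletCharacter ℂ q, ww q χ = (Nat.totient q : ℝ) / (q : ℝ) ^ 2 := by
  have h := char_farey q 1 (fun n => if n = 1 then 1 else 0) (by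
    intro n hn
    rw [if_neg]
    rintro rfl
    exact hn (Nat.coprime_one_left q))
  rw [finsum_eq_sum_of_fintype] at h ⊢
  have h1 : ∀ χ : DirichletCharacter ℂ q, ‖∑ n ∈ Finset.Icc (1 : ℕ) 1, (if n = 1 then (1 : ℂ) else 0) *
      χ (n : ZMod q)‖ = 1 := by
    intro χ
    simp
  have h2 : ∀ b : ℕ, ‖SS 1 (fun n => if n = 1 then (1 : ℂ) else 0) ((b : ℝ) / q)‖ = 1 := by
    intro b
    unfold SS ee
    simp only [Finset.Icc_self, Finset.sum_singleton, if_true, one_mul]
    have : (2 * (Real.pi : ℂ) * Complex.I * (((((1 : ℕ) : ℝ) * ((b : ℝ) / q)) : ℝ) : ℂ)) =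
        (((2 * Real.pi * (((1 : ℕ) : ℝ) * ((b : ℝ) / q)) : ℝ)) : ℂ) * Complex.I := by
      push_cast; ring
    rw [this, Complex.norm_exp_ofReal_mul_I]
  simp only [h1, h2, one_pow, mul_one] at h
  have h3 : ∑ _b ∈ (Finset.range q).filter (fun b => Nat.Coprime b q), (1 : ℝ) =
      Nat.totient q := by
    rw [Finset.sum_const, nsmul_eq_mul, mul_one]
    congr 1
    rw [Nat.totient_eq_card_coprime]
    congr 1
    ext b
    simp only [Finset.mem_filter, Finset.mem_range, and_congr_right_iff]
    intro _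
    exact Nat.coprime_comm
  rw [h3] at h
  unfold ww
  have hq : (0 : ℝ) < q := by exact_mod_cast Nat.pos_of_ne_zero (NeZero.ne q)
  have hφ : (0 : ℝ) < Nat.totient q := by
    exact_mod_cast Nat.totient_pos.mpr (Nat.pos_of_ne_zero (NeZero.ne q))
  rw [← Finset.sum_div, h]
  field_simp

/-! ### small conductors -/

lemma sum_stdAddChar_mul {q : ℕ} [NeZero q] (b : ZMod q) :
    ∑ x : ZMod q, (ZMod.stdAddChar (x * b) : ℂ) = if b = 0 then (q : ℂ) else 0 := by
  have h := AddChar.sum_mulShift (R := ZMod q) (R' := ℂ) b (ZMod.isPrimitive_stdAddChar q)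
  rw [h, ZMod.card]
  split_ifs <;> simp

lemma tau_sq_le (q : ℕ) [NeZero q] (χ : DirichletCharacter ℂ q) : ‖tau q χ‖ ^ 2 ≤ q := by
  classical
  have hφ : (0 : ℝ) < Nat.totient q := by
    exact_mod_cast Nat.totient_pos.mpr (Nat.pos_of_ne_zero (NeZero.ne q))
  -- Parseval over the additive group
  have hpar : ((∑ x : ZMod q, ‖∑ z : ZMod q, χ z * ZMod.stdAddChar (x * z)‖ ^ 2 : ℝ) : ℂ) =
      ((q * ∑ z : ZMod q, ‖χ z‖ ^ 2 : ℝ) : ℂ) := by
    push_cast
    have h1 : ∀ x : ZMod q, ((‖∑ z : ZMod q, χ z * ZMod.stdAddChar (x * z)‖ : ℂ)) ^ 2 =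
        ∑ z : ZMod q, ∑ w : ZMod q, (χ z * (starRingEnd ℂ) (χ w)) *
          ZMod.stdAddChar (x * (z - w)) := by
      intro x
      rw [← Complex.mul_conj', map_sum, Finset.sum_mul_sum]
      apply Finset.sum_congr rfl
      intro z _
      apply Finset.sum_congr rfl
      intro w _
      have h2 : (starRingEnd ℂ) (ZMod.stdAddChar (x * w)) = ZMod.stdAddChar (-(x * w)) := by
        rw [← AddChar.map_neg_eq_conj]
      rw [map_mul (starRingEnd ℂ), h2, mul_sub, sub_eq_add_neg, AddChar.map_add_eq_mul]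
      ring
    simp only [h1]
    rw [Finset.sum_comm]
    have h3 : ∀ z : ZMod q, ∑ x : ZMod q, ∑ w : ZMod q, (χ z * (starRingEnd ℂ) (χ w)) *
          ZMod.stdAddChar (x * (z - w)) = (q : ℂ) * (‖χ z‖ : ℂ) ^ 2 := by
      intro z
      rw [Finset.sum_comm]
      have h4 : ∀ w : ZMod q, ∑ x : ZMod q, (χ z * (starRingEnd ℂ) (χ w)) *
          ZMod.stdAddChar (x * (z - w)) =
          if z = w then (q : ℂ) * (χ z * (starRingEnd ℂ) (χ w)) else 0 := by
        intro w
        rw [← Finset.mul_sum, sum_stdAddChar_mul]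
        simp only [sub_eq_zero]
        split_ifs <;> ring
      simp only [h4]
      rw [Finset.sum_ite_eq]
      simp only [Finset.mem_univ, if_true]
      rw [Complex.mul_conj']
    simp only [h3]
    rw [Finset.mul_sum]
  have hpar' : ∑ x : ZMod q, ‖∑ z : ZMod q, χ z * ZMod.stdAddChar (x * z)‖ ^ 2 =
      q * ∑ z : ZMod q, ‖χ z‖ ^ 2 := by exact_mod_cast hpar
  have hcard : (((Finset.univ : Finset (ZMod q)).filter (fun z => IsUnit z)).card : ℝ) =
      Nat.totient q := by
    have h := sum_coprime_eq (q := q) (fun _ => (1 : ℝ))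
    simp only [Finset.sum_const, nsmul_eq_mul, mul_one] at h
    rw [← h]
    congr 1
    rw [Nat.totient_eq_card_coprime]
    congr 1
    ext b
    simp only [Finset.mem_filter, Finset.mem_range, and_congr_right_iff]
    intro _
    exact Nat.coprime_comm
  have hχsum : ∑ z : ZMod q, ‖χ z‖ ^ 2 = Nat.totient q := by
    rw [← hcard, Finset.card_filter]
    push_cast
    apply Finset.sum_congr rfl
    intro z _
    by_cases hz : IsUnit z
    · obtain ⟨u, rfl⟩ := hz
      rw [norm_char_unit]
      simp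
    · rw [MulChar.map_nonunit χ hz, if_neg hz]
      simp
  have hge : (Nat.totient q : ℝ) * ‖tau q χ‖ ^ 2 ≤
      ∑ x : ZMod q, ‖∑ z : ZMod q, χ z * ZMod.stdAddChar (x * z)‖ ^ 2 := by
    calc (Nat.totient q : ℝ) * ‖tau q χ‖ ^ 2 =
        ∑ x ∈ (Finset.univ : Finset (ZMod q)).filter (fun z => IsUnit z), ‖tau q χ‖ ^ 2 := by
          rw [Finset.sum_const, nsmul_eq_mul, hcard]
      _ = ∑ x ∈ (Finset.univ : Finset (ZMod q)).filter (fun z => IsUnit z),
          ‖∑ z : ZMod q, χ z * ZMod.stdAddChar (x * z)‖ ^ 2 := by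
          apply Finset.sum_congr rfl
          intro x hx
          rw [Finset.mem_filter] at hx
          obtain ⟨u, rfl⟩ := hx.2
          have h2 : ∑ z : ZMod q, χ z * (ZMod.stdAddChar : AddChar (ZMod q) ℂ) ((u : ZMod q) * z) =
            gaussSum χ ((ZMod.stdAddChar : AddChar (ZMod q) ℂ).mulShift (u : ZMod q)) := by
            unfold gaussSum
            apply Finset.sum_congr rfl
            intro z _
            rw [AddChar.mulShift_apply]
          rw [h2, gaussSum_mulShift_eq, norm_mul, norm_char_unit, one_mul, tau_eq]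
      _ ≤ _ := Finset.sum_le_sum_of_subset_of_nonneg (Finset.filter_subset _ _)
          (fun _ _ _ => by positivity)
  rw [hpar', hχsum] at hge
  have : (Nat.totient q : ℝ) * ‖tau q χ‖ ^ 2 ≤ Nat.totient q * q := by linarith
  exact le_of_mul_le_mul_left this hφ

open Classical in
lemma card_conductor (q : ℕ) [NeZero q] (d : ℕ) (hd : d ∣ q) :
    ((Finset.univ : Finset (DirichletCharacter ℂ q)).filter (fun χ => χ.conductor = d)).card ≤
      Nat.totient d := by
  have hd0 : d ≠ 0 := by
    rintro rfl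
    exact NeZero.ne q (Nat.eq_zero_of_zero_dvd hd)
  have : NeZero d := ⟨hd0⟩
  calc ((Finset.univ : Finset (DirichletCharacter ℂ q)).filter (fun χ => χ.conductor = d)).card
      ≤ ((Finset.univ : Finset (DirichletCharacter ℂ d)).image
          (DirichletCharacter.changeLevel hd)).card := by
        apply Finset.card_le_card
        intro χ hχ
        rw [Finset.mem_filter] at hχ
        obtain ⟨_, hc⟩ := hχ
        subst hc
        obtain ⟨h1, χ0, h2⟩ := χ.factorsThrough_conductor
        rw [Finset.mem_image]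
        exact ⟨χ0, Finset.mem_univ _, h2.symm⟩
    _ ≤ (Finset.univ : Finset (DirichletCharacter ℂ d)).card := Finset.card_image_le
    _ = Nat.totient d := by
        rw [← DirichletCharacter.card_eq_totient_of_hasEnoughRootsOfUnity ℂ d,
          Nat.card_eq_fintype_card]
        rfl

lemma card_divisors_le (k : ℕ) : k.divisors.card ≤ 2 * Nat.sqrt k := by
  classical
  rcases Nat.eq_zero_or_pos k with rfl | hk
  · simp
  have h1 : k.divisors ⊆ (Finset.Icc 1 (Nat.sqrt k)) ∪
      (Finset.Icc 1 (Nat.sqrt k)).image (fun d => k / d) := by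
    intro d hd
    have hdk := Nat.dvd_of_mem_divisors hd
    have hd0 := Nat.pos_of_mem_divisors hd
    rw [Finset.mem_union]
    by_cases h : d ≤ Nat.sqrt k
    · left; rw [Finset.mem_Icc]; exact ⟨hd0, h⟩
    · right
      rw [Finset.mem_image]
      refine ⟨k / d, ?_, Nat.div_div_self hdk hk.ne'⟩
      rw [Finset.mem_Icc]
      constructor
      · exact Nat.div_pos (Nat.le_of_dvd hk hdk) hd0
      · by_contra hcon
        push Not at h hcon
        have h2 : d * (k / d) = k := Nat.mul_div_cancel' hdk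
        have h3 := Nat.lt_succ_sqrt k
        have h4 : (Nat.sqrt k + 1) * (Nat.sqrt k + 1) ≤ d * (k / d) := Nat.mul_le_mul h hcon
        rw [h2] at h4
        exact absurd h3 (not_lt.mpr h4)
  calc k.divisors.card ≤ ((Finset.Icc 1 (Nat.sqrt k)) ∪
      (Finset.Icc 1 (Nat.sqrt k)).image (fun d => k / d)).card := Finset.card_le_card h1
    _ ≤ (Finset.Icc 1 (Nat.sqrt k)).card +
      ((Finset.Icc 1 (Nat.sqrt k)).image (fun d => k / d)).card := Finset.card_union_le _ _
    _ ≤ Nat.sqrt k + Nat.sqrt k := by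
        apply add_le_add
        · simp
        · exact Finset.card_image_le.trans (by simp)
    _ = 2 * Nat.sqrt k := by ring

lemma sqrt_le_totient (k : ℕ) (hk : 1 ≤ k) : Real.sqrt k ≤ 2 * Nat.totient k := by
  have h1 : k ≤ k.divisors.card * Nat.totient k := by
    calc k = ∑ e ∈ k.divisors, Nat.totient e := (Nat.sum_totient k).symm
      _ ≤ ∑ _e ∈ k.divisors, Nat.totient k := by
          apply Finset.sum_le_sum
          intro e he
          exact Nat.le_of_dvd (Nat.totient_pos.mpr (by omega))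
            (Nat.totient_dvd_of_dvd (Nat.dvd_of_mem_divisors he))
      _ = k.divisors.card * Nat.totient k := by rw [Finset.sum_const, smul_eq_mul]
  have h2 := card_divisors_le k
  have h3 : k ≤ 2 * Nat.sqrt k * Nat.totient k := h1.trans (Nat.mul_le_mul_right _ h2)
  have h4 : (k : ℝ) ≤ 2 * (Nat.sqrt k : ℝ) * Nat.totient k := by exact_mod_cast h3
  have h5 : (Nat.sqrt k : ℝ) ≤ Real.sqrt k := Real.nat_sqrt_le_real_sqrt
  have h6 : 0 < Real.sqrt k := Real.sqrt_pos.mpr (by exact_mod_cast (by omega : 0 < k))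
  have h7 : Real.sqrt k * Real.sqrt k = k := Real.mul_self_sqrt (by positivity)
  have h8 : (0 : ℝ) ≤ Nat.totient k := by positivity
  have h9 : Real.sqrt k * Real.sqrt k ≤ Real.sqrt k * (2 * Nat.totient k) := by
    rw [h7]
    refine h4.trans ?_
    nlinarith
  exact le_of_mul_le_mul_left h9 h6

lemma tele_three_half {k : ℕ} (hk : 1 ≤ k) :
    ((k + 1 : ℕ) : ℝ) ^ (-(3 / 2 : ℝ)) ≤
      2 * ((k : ℝ) ^ (-(1 / 2 : ℝ)) - ((k + 1 : ℕ) : ℝ) ^ (-(1 / 2 : ℝ))) := by
  have hk0 : (0 : ℝ) < k := by exact_mod_cast hk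
  have hk1 : (0 : ℝ) < ((k + 1 : ℕ) : ℝ) := by positivity
  set a := Real.sqrt k with ha
  set b := Real.sqrt ((k + 1 : ℕ) : ℝ) with hb
  have ha0 : 0 < a := Real.sqrt_pos.mpr hk0
  have hb0 : 0 < b := Real.sqrt_pos.mpr hk1
  have haa : a * a = k := Real.mul_self_sqrt hk0.le
  have hbb : b * b = ((k + 1 : ℕ) : ℝ) := Real.mul_self_sqrt hk1.le
  have hab : a ≤ b := Real.sqrt_le_sqrt (by push_cast; linarith)
  have e1 : (k : ℝ) ^ (-(1 / 2 : ℝ)) = 1 / a := by
    rw [Real.rpow_neg hk0.le, ← Real.sqrt_eq_rpow, one_div]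
  have e2 : ((k + 1 : ℕ) : ℝ) ^ (-(1 / 2 : ℝ)) = 1 / b := by
    rw [Real.rpow_neg hk1.le, ← Real.sqrt_eq_rpow, one_div]
  have e3 : ((k + 1 : ℕ) : ℝ) ^ (-(3 / 2 : ℝ)) = 1 / (b * b * b) := by
    rw [show (-(3 / 2 : ℝ)) = -1 + -(1 / 2 : ℝ) by norm_num, Real.rpow_add hk1, e2,
      Real.rpow_neg_one, ← hbb]
    field_simp
  rw [e1, e2, e3, div_sub_div _ _ ha0.ne' hb0.ne', ← mul_div_assoc,
    div_le_div_iff₀ (by positivity) (by positivity)]
  have h1 : (b - a) * (b + a) = 1 := by
    have : (b - a) * (b + a) = b * b - a * a := by ring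
    rw [this, haa, hbb]; push_cast; ring
  have h2 : b - a = 1 / (b + a) := by field_simp; linarith
  have h3 : 1 * b - a * 1 = 1 / (b + a) := by rw [one_mul, mul_one]; exact h2
  rw [h3]
  have h4 : 2 * (1 / (b + a)) * (b * b * b) = 2 * (b * b * b) / (b + a) := by ring
  rw [h4, le_div_iff₀ (by positivity)]
  nlinarith [mul_pos ha0 hb0, mul_pos hb0 hb0]

lemma tail_three_half (K M : ℕ) (hK : 1 ≤ K) :
    ∑ k ∈ Finset.Ioc K M, (k : ℝ) ^ (-(3 / 2 : ℝ)) ≤ 2 * (K : ℝ) ^ (-(1 / 2 : ℝ)) := by
  rcases le_or_gt K M with h | h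
  · have h1 : ∑ k ∈ Finset.Ioc K M, (k : ℝ) ^ (-(3 / 2 : ℝ)) ≤
        2 * ((K : ℝ) ^ (-(1 / 2 : ℝ)) - (M : ℝ) ^ (-(1 / 2 : ℝ))) := by
      induction M, h using Nat.le_induction with
      | base => simp
      | succ M hM ih =>
        have hsplit : Finset.Ioc K (M + 1) = insert (M + 1) (Finset.Ioc K M) := by
          ext k
          simp only [Finset.mem_insert, Finset.mem_Ioc]
          omega
        have hnot : M + 1 ∉ Finset.Ioc K M := by simp
        rw [hsplit, Finset.sum_insert hnot]
        have := tele_three_half (k := M) (by omega)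
        linarith
    have h2 : 0 ≤ (M : ℝ) ^ (-(1 / 2 : ℝ)) := by positivity
    linarith
  · rw [Finset.Ioc_eq_empty (by omega)]
    simp
    positivity

lemma sum_half (n : ℕ) : ∑ d ∈ Finset.Icc 1 n, (d : ℝ) ^ (-(1 / 2 : ℝ)) ≤ 2 * Real.sqrt n := by
  induction n with
  | zero => simp
  | succ n ih =>
    rw [Finset.sum_Icc_succ_top (by omega)]
    have hk1 : (0 : ℝ) < ((n + 1 : ℕ) : ℝ) := by positivity
    set a := Real.sqrt n with ha
    set b := Real.sqrt ((n + 1 : ℕ) : ℝ) with hb
    have ha0 : 0 ≤ a := Real.sqrt_nonneg _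
    have hb0 : 0 < b := Real.sqrt_pos.mpr hk1
    have haa : a * a = n := Real.mul_self_sqrt (by positivity)
    have hbb : b * b = ((n + 1 : ℕ) : ℝ) := Real.mul_self_sqrt hk1.le
    have e2 : ((n + 1 : ℕ) : ℝ) ^ (-(1 / 2 : ℝ)) = 1 / b := by
      rw [Real.rpow_neg hk1.le, ← Real.sqrt_eq_rpow, one_div]
    rw [e2]
    have h1 : (b - a) * (b + a) = 1 := by
      have : (b - a) * (b + a) = b * b - a * a := by ring
      rw [this, haa, hbb]; push_cast; ring
    have hab : a ≤ b := Real.sqrt_le_sqrt (by push_cast; linarith)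
    have h2 : 1 / b ≤ 2 * (b - a) := by
      rw [div_le_iff₀ hb0]
      nlinarith
    linarith

/-- contribution of one modulus -/
lemma small_cond_one (q : ℕ) [NeZero q] (D : ℝ) :
    ∑ᶠ χ : DirichletCharacter ℂ q, ww q χ * (if (χ.conductor : ℝ) ≤ D then 1 else 0) ≤
      ∑ d ∈ q.divisors.filter (fun d : ℕ => (d : ℝ) ≤ D),
        (Nat.totient d : ℝ) / (q * Nat.totient q) := by
  classical
  rw [finsum_eq_sum_of_fintype]
  have hq : (0 : ℝ) < q := by exact_mod_cast Nat.pos_of_ne_zero (NeZero.ne q)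
  have hφ : (0 : ℝ) < Nat.totient q := by
    exact_mod_cast Nat.totient_pos.mpr (Nat.pos_of_ne_zero (NeZero.ne q))
  have hww : ∀ χ : DirichletCharacter ℂ q, ww q χ ≤ 1 / (q * Nat.totient q) := by
    intro χ
    unfold ww
    rw [div_le_div_iff₀ (by positivity) (by positivity)]
    have := tau_sq_le q χ
    calc ‖tau q χ‖ ^ 2 * (q * Nat.totient q) ≤ q * (q * Nat.totient q) :=
          mul_le_mul_of_nonneg_right this (by positivity)
      _ = 1 * ((q : ℝ) ^ 2 * Nat.totient q) := by ring
  calc ∑ χ : DirichletCharacter ℂ q, ww q χ * (if (χ.conductor : ℝ) ≤ D then 1 else 0)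
      ≤ ∑ χ : DirichletCharacter ℂ q, (1 / ((q : ℝ) * Nat.totient q)) *
          (if (χ.conductor : ℝ) ≤ D then 1 else 0) := by
        apply Finset.sum_le_sum
        intro χ _
        apply mul_le_mul_of_nonneg_right (hww χ)
        split_ifs <;> norm_num
    _ = (1 / ((q : ℝ) * Nat.totient q)) * (((Finset.univ : Finset (DirichletCharacter ℂ q)).filter
          (fun χ => (χ.conductor : ℝ) ≤ D)).card : ℝ) := by
        rw [← Finset.mul_sum, Finset.card_filter]
        push_cast
        rfl
    _ ≤ (1 / ((q : ℝ) * Nat.totient q)) * ∑ d ∈ q.divisors.filter (fun d : ℕ => (d : ℝ) ≤ D),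
          (Nat.totient d : ℝ) := by
        apply mul_le_mul_of_nonneg_left _ (by positivity)
        have h1 : (Finset.univ : Finset (DirichletCharacter ℂ q)).filter
          (fun χ => (χ.conductor : ℝ) ≤ D) ⊆ (q.divisors.filter (fun d : ℕ => (d : ℝ) ≤ D)).biUnion
            (fun d => (Finset.univ : Finset (DirichletCharacter ℂ q)).filter
              (fun χ => χ.conductor = d)) := by
          intro χ hχ
          rw [Finset.mem_filter] at hχ
          rw [Finset.mem_biUnion]
          refine ⟨χ.conductor, ?_, ?_⟩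
          · rw [Finset.mem_filter, Nat.mem_divisors]
            exact ⟨⟨χ.conductor_dvd_level, NeZero.ne q⟩, hχ.2⟩
          · rw [Finset.mem_filter]
            exact ⟨Finset.mem_univ _, rfl⟩
        have h2 : ((Finset.univ : Finset (DirichletCharacter ℂ q)).filter
          (fun χ => (χ.conductor : ℝ) ≤ D)).card ≤
            ∑ d ∈ q.divisors.filter (fun d : ℕ => (d : ℝ) ≤ D), Nat.totient d := by
          refine (Finset.card_le_card h1).trans (Finset.card_biUnion_le.trans ?_)
          apply Finset.sum_le_sum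
          intro d hd
          rw [Finset.mem_filter, Nat.mem_divisors] at hd
          exact card_conductor q d hd.1.1
        exact_mod_cast h2
    _ = _ := by
        rw [Finset.mul_sum]
        apply Finset.sum_congr rfl
        intro d _
        ring

theorem small_cond : ∃ C : ℝ, 0 < C ∧ ∀ (X Y : ℕ) (D : ℝ), 1 ≤ X → X ≤ Y → 1 ≤ D → D ≤ X →
    fam X Y (fun _ χ => if (χ.conductor : ℝ) ≤ D then 1 else 0) ≤ C * Real.sqrt (D / X) := by
  classical
  refine ⟨16, by norm_num, ?_⟩
  intro X Y D hX hXY hD hDX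
  have hX' : (0 : ℝ) < X := by exact_mod_cast hX
  unfold fam
  calc ∑ q ∈ Finset.Ioc X Y, ∑ᶠ χ : DirichletCharacter ℂ q,
        ww q χ * (if (χ.conductor : ℝ) ≤ D then 1 else 0)
      ≤ ∑ q ∈ Finset.Ioc X Y, ∑ d ∈ (Finset.Icc 1 ⌊D⌋₊),
          (if d ∣ q then (Nat.totient d : ℝ) / (q * Nat.totient q) else 0) := by
        apply Finset.sum_le_sum
        intro q hq
        rw [Finset.mem_Ioc] at hq
        have : NeZero q := ⟨by omega⟩
        refine (small_cond_one q D).trans ?_
        rw [← Finset.sum_filter]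
        apply Finset.sum_le_sum_of_subset_of_nonneg
        · intro d hd
          rw [Finset.mem_filter, Nat.mem_divisors] at hd
          rw [Finset.mem_filter, Finset.mem_Icc]
          refine ⟨⟨Nat.pos_of_dvd_of_pos hd.1.1 (by omega), Nat.le_floor hd.2⟩, hd.1.1⟩
        · intro d _ _
          positivity
    _ = ∑ d ∈ (Finset.Icc 1 ⌊D⌋₊), ∑ q ∈ Finset.Ioc X Y,
          (if d ∣ q then (Nat.totient d : ℝ) / (q * Nat.totient q) else 0) := Finset.sum_comm
    _ ≤ ∑ d ∈ (Finset.Icc 1 ⌊D⌋₊), (1 / (d : ℝ)) * (2 * (2 * (4 * ((d : ℝ) / X)) ^ (1 / 2 : ℝ))) := by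
        apply Finset.sum_le_sum
        intro d hd
        rw [Finset.mem_Icc] at hd
        have hd1 : (1 : ℝ) ≤ d := by exact_mod_cast hd.1
        have hdD : (d : ℝ) ≤ D := (Nat.le_floor_iff (by linarith)).mp hd.2
        have hdX : d ≤ X := by
          have : (d : ℝ) ≤ X := hdD.trans hDX
          exact_mod_cast this
        rw [← Finset.sum_filter]
        set K := X / d with hK
        have hK1 : 1 ≤ K := (Nat.one_le_div_iff (by omega)).mpr hdX
        calc ∑ q ∈ (Finset.Ioc X Y).filter (fun q => d ∣ q),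
              (Nat.totient d : ℝ) / (q * Nat.totient q)
            ≤ ∑ k ∈ Finset.Ioc K Y, (1 / (d : ℝ)) * (2 * (k : ℝ) ^ (-(3 / 2 : ℝ))) := by
              have hsub : (Finset.Ioc X Y).filter (fun q => d ∣ q) ⊆
                  (Finset.Ioc K Y).image (fun k => d * k) := by
                intro q hq
                rw [Finset.mem_filter, Finset.mem_Ioc] at hq
                obtain ⟨⟨h1, h2⟩, k, rfl⟩ := hq
                rw [Finset.mem_image]
                refine ⟨k, ?_, rfl⟩
                rw [Finset.mem_Ioc]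
                constructor
                · rw [hK, Nat.div_lt_iff_lt_mul (by omega)]
                  rw [mul_comm]; exact h1
                · nlinarith
              refine (Finset.sum_le_sum_of_subset_of_nonneg hsub
                (fun _ _ _ => by positivity)).trans ?_
              rw [Finset.sum_image (fun a _ b _ h => by
                exact Nat.eq_of_mul_eq_mul_left (by omega) h)]
              apply Finset.sum_le_sum
              intro k hk
              rw [Finset.mem_Ioc] at hk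
              have hk1 : 1 ≤ k := by omega
              have hk' : (0 : ℝ) < k := by exact_mod_cast hk1
              have hφd : (0 : ℝ) < Nat.totient d := by
                exact_mod_cast Nat.totient_pos.mpr (by omega)
              have hφk : (0 : ℝ) < Nat.totient k := by
                exact_mod_cast Nat.totient_pos.mpr (by omega)
              have hφ : (Nat.totient d : ℝ) * Nat.totient k ≤ Nat.totient (d * k) := by
                exact_mod_cast Nat.totient_super_multiplicative d k
              have hs := sqrt_le_totient k hk1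
              have hsk : 0 < Real.sqrt k := Real.sqrt_pos.mpr hk'
              calc (Nat.totient d : ℝ) / (((d * k : ℕ) : ℝ) * Nat.totient (d * k))
                  ≤ (Nat.totient d : ℝ) / ((d * k) * (Nat.totient d * (Real.sqrt k / 2))) := by
                    apply div_le_div_of_nonneg_left hφd.le (by positivity)
                    push_cast
                    apply mul_le_mul_of_nonneg_left _ (by positivity)
                    refine le_trans ?_ hφ
                    apply mul_le_mul_of_nonneg_left _ hφd.le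
                    linarith
                _ = (1 / (d : ℝ)) * (2 * (1 / (k * Real.sqrt k))) := by
                    field_simp
                _ = (1 / (d : ℝ)) * (2 * (k : ℝ) ^ (-(3 / 2 : ℝ))) := by
                    congr 2
                    rw [show (-(3 / 2 : ℝ)) = -1 + -(1 / 2 : ℝ) by norm_num, Real.rpow_add hk',
                      Real.rpow_neg_one, Real.rpow_neg hk'.le, ← Real.sqrt_eq_rpow]
                    rw [one_div, mul_inv]
          _ = (1 / (d : ℝ)) * (2 * ∑ k ∈ Finset.Ioc K Y, (k : ℝ) ^ (-(3 / 2 : ℝ))) := by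
              rw [← Finset.mul_sum, ← Finset.mul_sum]
          _ ≤ (1 / (d : ℝ)) * (2 * (2 * (4 * ((d : ℝ) / X)) ^ (1 / 2 : ℝ))) := by
              apply mul_le_mul_of_nonneg_left _ (by positivity)
              apply mul_le_mul_of_nonneg_left _ (by norm_num)
              refine (tail_three_half K Y hK1).trans ?_
              apply mul_le_mul_of_nonneg_left _ (by norm_num)
              have hK' : (0 : ℝ) < K := by exact_mod_cast hK1
              rw [Real.rpow_neg hK'.le, ← Real.inv_rpow hK'.le]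
              apply Real.rpow_le_rpow (by positivity) _ (by norm_num)
              have h1 : (X : ℝ) ≤ 2 * K * d := by
                have h2 : X < d * (K + 1) := Nat.lt_mul_div_succ X (by omega)
                have h3 : d * (K + 1) ≤ 2 * K * d := by nlinarith
                exact_mod_cast h2.le.trans h3
              rw [inv_eq_one_div, ← mul_div_assoc, div_le_div_iff₀ hK' hX']
              nlinarith
    _ = (8 / Real.sqrt X) * ∑ d ∈ (Finset.Icc 1 ⌊D⌋₊), (d : ℝ) ^ (-(1 / 2 : ℝ)) := by
        rw [Finset.mul_sum]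
        apply Finset.sum_congr rfl
        intro d hd
        rw [Finset.mem_Icc] at hd
        have hd' : (0 : ℝ) < d := by exact_mod_cast hd.1
        have h4 : (4 : ℝ) ^ (1 / 2 : ℝ) = 2 := by
          rw [show (4 : ℝ) = 2 ^ (2 : ℝ) by norm_num, ← Real.rpow_mul (by norm_num)]
          norm_num
        rw [Real.mul_rpow (by norm_num) (by positivity), h4, Real.div_rpow hd'.le hX'.le,
          ← Real.sqrt_eq_rpow, ← Real.sqrt_eq_rpow, Real.rpow_neg hd'.le, ← Real.sqrt_eq_rpow]
        have hs : 0 < Real.sqrt d := Real.sqrt_pos.mpr hd'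
        have hss : Real.sqrt d * Real.sqrt d = d := Real.mul_self_sqrt hd'.le
        have hX0 : 0 < Real.sqrt X := Real.sqrt_pos.mpr hX'
        rw [show (1 / (d : ℝ)) = 1 / (Real.sqrt d * Real.sqrt d) by rw [hss]]
        field_simp
        norm_num
    _ ≤ (8 / Real.sqrt X) * (2 * Real.sqrt D) := by
        apply mul_le_mul_of_nonneg_left _ (by positivity)
        refine (sum_half _).trans ?_
        apply mul_le_mul_of_nonneg_left _ (by norm_num)
        exact Real.sqrt_le_sqrt (Nat.floor_le (by linarith))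
    _ = 16 * Real.sqrt (D / X) := by
        rw [Real.sqrt_div (by linarith)]
        ring

end H385
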