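import Pool.Agent.H385R2.Defs
import Pool.Agent.H385R2.Cut

/-!
TEAM Q, task Q12b (helper867): the cut-off zero sum `BB`.
-/

open Complex Filter Topology Set MeasureTheory
open H370 (zset mult NN Nd Ns)

namespace H385

/-! ### basic facts about `zz` -/

theorem zz_re (s : ℂ) : (zz s).re = s.im := by
  simp [zz]

theorem zz_im (s : ℂ) : (zz s).im = 1 / 2 - s.re := by
  simp [zz]

theorem zz_im_abs {F : ℂ → ℂ} {V1 V2 : ℝ} {s : ℂ} (hs : s ∈ zset F V1 V2) :
    |(zz s).im| ≤ 1 / 2 := by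
  rw [zz_im, abs_le]
  constructor <;> linarith [hs.1, hs.2.1]

/-! ### summability of the prime sum -/

/-- the dominating sequence -/
theorem dom_summable (u : ℝ) : Summable (fun n : ℕ =>
    ArithmeticFunction.vonMangoldt n * ((Real.sqrt n)⁻¹ *
      Real.exp (-(u - Real.log n) ^ 2 / 4))) := by
  -- `Λ(n) ≤ log n ≤ n`, and `e^{-(u-x)²/4} ≤ e^{u²/4} ... ≤ C e^{-3x}`, `x = log n`
  have hb : ∀ x : ℝ, Real.exp (-(u - x) ^ 2 / 4) ≤ Real.exp (9 + 3 * u) * Real.exp (-(3 * x)) := by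
    intro x
    rw [← Real.exp_add]
    apply Real.exp_le_exp.2
    nlinarith [sq_nonneg (u - x + 6)]
  have hs : Summable (fun n : ℕ => Real.exp (9 + 3 * u) * (1 / (n : ℝ) ^ 2)) :=
    (Real.summable_one_div_nat_pow.2 (by norm_num)).mul_left _
  refine Summable.of_nonneg_of_le (fun n => ?_) (fun n => ?_) hs
  · exact mul_nonneg ArithmeticFunction.vonMangoldt_nonneg
      (mul_nonneg (inv_nonneg.2 (Real.sqrt_nonneg _)) (Real.exp_pos _).le)
  · rcases Nat.eq_zero_or_pos n with rfl | hn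
    · simp
    have hn' : (1 : ℝ) ≤ n := by exact_mod_cast hn
    have hn0 : (0 : ℝ) < n := by linarith
    have h1 : ArithmeticFunction.vonMangoldt n ≤ (n : ℝ) :=
      ArithmeticFunction.vonMangoldt_le_log.trans ((Real.log_le_sub_one_of_pos hn0).trans (by linarith))
    have h2 : (Real.sqrt n)⁻¹ ≤ 1 := by
      apply inv_le_one_of_one_le₀
      rw [Real.one_le_sqrt]; exact hn'
    have h3 := hb (Real.log n)
    have h4 : Real.exp (-(3 * Real.log n)) = 1 / (n : ℝ) ^ 3 := by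
      rw [Real.exp_neg, mul_comm, Real.exp_mul, Real.exp_log hn0]
      norm_num
    rw [h4] at h3
    calc ArithmeticFunction.vonMangoldt n * ((Real.sqrt n)⁻¹ *
          Real.exp (-(u - Real.log n) ^ 2 / 4))
        ≤ (n : ℝ) * (1 * (Real.exp (9 + 3 * u) * (1 / (n : ℝ) ^ 3))) := by
          gcongr
      _ = Real.exp (9 + 3 * u) * (1 / (n : ℝ) ^ 2) := by
          field_simp

/-! ### BB_eq -/

theorem gauss_split (z : ℂ) (t τ : ℝ) :
    cexp (-(z - τ) ^ 2 / 2) * cexp (-(z - t) ^ 2 / 2) =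
      (Real.exp (-(t - τ) ^ 2 / 4) : ℂ) * cexp (-(z - ((t + τ) / 2 : ℝ)) ^ 2) := by
  rw [← Complex.exp_add, Complex.ofReal_exp, ← Complex.exp_add]
  congr 1
  push_cast
  ring

theorem BB_eq (F : ℂ → ℂ) (V1 V2 T u t : ℝ) (hfin : (zset F V1 V2).Finite) :
    BB F V1 V2 T u t = (1 / Real.sqrt (2 * Real.pi) : ℝ) *
      ∫ τ in T..(2 * T), Real.exp (-(t - τ) ^ 2 / 4) * A1 F V1 V2 u ((t + τ) / 2) := by
  unfold BB A1
  simp_rw [finsum_mem_eq_finite_toFinset_sum _ hfin, Finset.mul_sum]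
  rw [intervalIntegral.integral_finsetSum]
  · rw [Finset.mul_sum]
    refine Finset.sum_congr rfl fun s _ => ?_
    have h1 : ∀ τ : ℝ, (Real.exp (-(t - τ) ^ 2 / 4) : ℂ) * ((mult F s : ℂ) *
        (cexp (I * u * zz s) * cexp (-(zz s - ((t + τ) / 2 : ℝ)) ^ 2))) =
        ((mult F s : ℂ) * (cexp (I * u * zz s) * cexp (-(zz s - t) ^ 2 / 2))) *
          cexp (-(zz s - τ) ^ 2 / 2) := by
      intro τ
      have := gauss_split (zz s) t τ
      calc _ = (mult F s : ℂ) * cexp (I * u * zz s) * ((Real.exp (-(t - τ) ^ 2 / 4) : ℂ) *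
            cexp (-(zz s - ((t + τ) / 2 : ℝ)) ^ 2)) := by ring
        _ = _ := by rw [← this]; ring
    simp_rw [h1]
    rw [intervalIntegral.integral_const_mul]
    unfold cc
    ring
  · intro s _
    apply Continuous.intervalIntegrable
    fun_prop

/-! ### continuity of `A1`, `PP1` in `m` -/

theorem A1_cont (F : ℂ → ℂ) (V1 V2 u : ℝ) (hfin : (zset F V1 V2).Finite) :
    Continuous (fun m : ℝ => A1 F V1 V2 u m) := by
  unfold A1
  simp_rw [finsum_mem_eq_finite_toFinset_sum _ hfin]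
  fun_prop

theorem norm_PP1_term (a : ℕ → ℂ) (ha : ∀ n, ‖a n‖ ≤ ArithmeticFunction.vonMangoldt n)
    (u m : ℝ) (n : ℕ) :
    ‖a n * (Real.sqrt n : ℂ)⁻¹ * cexp (I * m * (u - Real.log n)) *
      Real.exp (-(u - Real.log n) ^ 2 / 4)‖ ≤
    ArithmeticFunction.vonMangoldt n * ((Real.sqrt n)⁻¹ *
      Real.exp (-(u - Real.log n) ^ 2 / 4)) := by
  have h1 : ‖cexp (I * m * (u - Real.log n))‖ = 1 := by
    have : I * m * (u - Real.log n) = ((m * (u - Real.log n) : ℝ) : ℂ) * I := by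
      push_cast; ring
    rw [this, Complex.norm_exp_ofReal_mul_I]
  rw [norm_mul, norm_mul, norm_mul, h1, mul_one, norm_inv, Complex.norm_real, Complex.norm_real,
    Real.norm_of_nonneg (Real.sqrt_nonneg _), Real.norm_of_nonneg (Real.exp_pos _).le, mul_assoc]
  gcongr
  exact ha n

theorem PP1_cont (a : ℕ → ℂ) (ha : ∀ n, ‖a n‖ ≤ ArithmeticFunction.vonMangoldt n) (u : ℝ) :
    Continuous (fun m : ℝ => PP1 a u m) := by
  unfold PP1
  refine continuous_tsum (fun n => by fun_prop) (dom_summable u) fun n m => ?_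
  exact norm_PP1_term a ha u m n

/-! ### BB_formula -/

theorem bt_sum_formula (a : ℕ → ℂ) (ha : ∀ n, ‖a n‖ ≤ ArithmeticFunction.vonMangoldt n)
    (T u t : ℝ) :
    ∑' n : ℕ, a n * ((Real.sqrt n : ℂ)⁻¹ * bt T u t (Real.log n)) =
      ((1 / (2 * Real.sqrt Real.pi) * (1 / Real.sqrt (2 * Real.pi)) : ℝ) : ℂ) *
        ∫ τ in T..(2 * T), (Real.exp (-(t - τ) ^ 2 / 4) : ℂ) * PP1 a u ((t + τ) / 2) := by
  have h1 : ∫ τ in T..(2 * T), (Real.exp (-(t - τ) ^ 2 / 4) : ℂ) * PP1 a u ((t + τ) / 2)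
      = ∑' n : ℕ, ∫ τ in T..(2 * T), (Real.exp (-(t - τ) ^ 2 / 4) : ℂ) *
        (a n * (Real.sqrt n : ℂ)⁻¹ * cexp (I * ((t + τ) / 2 : ℝ) * (u - Real.log n)) *
          Real.exp (-(u - Real.log n) ^ 2 / 4)) := by
    have e1 : ∀ τ : ℝ, (Real.exp (-(t - τ) ^ 2 / 4) : ℂ) * PP1 a u ((t + τ) / 2) =
        ∑' n : ℕ, (Real.exp (-(t - τ) ^ 2 / 4) : ℂ) *
        (a n * (Real.sqrt n : ℂ)⁻¹ * cexp (I * ((t + τ) / 2 : ℝ) * (u - Real.log n)) *
          Real.exp (-(u - Real.log n) ^ 2 / 4)) := by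
      intro τ
      rw [tsum_mul_left]
      rfl
    simp_rw [e1]
    symm
    refine (intervalIntegral.hasSum_integral_of_dominated_convergence
      (fun n _ => ArithmeticFunction.vonMangoldt n * ((Real.sqrt n)⁻¹ *
        Real.exp (-(u - Real.log n) ^ 2 / 4))) ?_ ?_ ?_ ?_ ?_).tsum_eq
    · intro n
      apply Continuous.aestronglyMeasurable
      fun_prop
    · intro n
      refine Eventually.of_forall fun τ _ => ?_
      rw [norm_mul, Complex.norm_real, Real.norm_of_nonneg (Real.exp_pos _).le]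
      have h2 : Real.exp (-(t - τ) ^ 2 / 4) ≤ 1 := by
        rw [Real.exp_le_one_iff]
        nlinarith [sq_nonneg (t - τ)]
      have h3 := norm_PP1_term a ha u ((t + τ) / 2) n
      calc _ ≤ 1 * _ := mul_le_mul_of_nonneg_right h2 (norm_nonneg _)
        _ ≤ _ := by rw [one_mul]; exact h3
    · exact Eventually.of_forall fun τ _ => dom_summable u
    · exact intervalIntegrable_const
    · refine Eventually.of_forall fun τ _ => ?_
      have : Summable (fun n : ℕ => (a n * (Real.sqrt n : ℂ)⁻¹ *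
          cexp (I * ((t + τ) / 2 : ℝ) * (u - Real.log n)) *
          Real.exp (-(u - Real.log n) ^ 2 / 4))) :=
        Summable.of_norm_bounded (dom_summable u) (norm_PP1_term a ha u ((t + τ) / 2))
      exact (this.mul_left _).hasSum
  rw [h1, ← tsum_mul_left]
  refine tsum_congr fun n => ?_
  have h4 : ∀ τ : ℝ, (Real.exp (-(t - τ) ^ 2 / 4) : ℂ) *
        (a n * (Real.sqrt n : ℂ)⁻¹ * cexp (I * ((t + τ) / 2 : ℝ) * (u - Real.log n)) *
          Real.exp (-(u - Real.log n) ^ 2 / 4)) =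
      (a n * (Real.sqrt n : ℂ)⁻¹ * Real.exp (-(u - Real.log n) ^ 2 / 4)) *
        ((Real.exp (-(t - τ) ^ 2 / 4) : ℂ) * cexp (I * ((t + τ) / 2) * (u - Real.log n))) := by
    intro τ
    push_cast
    ring
  simp_rw [h4]
  rw [intervalIntegral.integral_const_mul]
  unfold bt
  push_cast
  ring

theorem BB_formula (F : ℂ → ℂ) (a : ℕ → ℂ)
    (ha : ∀ n, ‖a n‖ ≤ ArithmeticFunction.vonMangoldt n) (Lq V1 V2 T κ u E : ℝ)
    (hfin : (zset F V1 V2).Finite) (hκ : 3 ≤ κ) (hT : 8 * κ ≤ T) (hV1 : V1 ≤ T - 3 * κ + 1)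
    (hV2 : 2 * T + 3 * κ - 1 ≤ V2)
    (hE : ∀ m : ℝ, V1 + κ ≤ m → m ≤ V2 - κ →
        ‖A1 F V1 V2 u m - (1 / (2 * Real.sqrt Real.pi) : ℝ) *
          (Lq * cexp (I * m * u) * Real.exp (-u ^ 2 / 4) - PP1 a u m)‖ ≤ E)
    (t : ℝ) (h1 : T - 3 * κ ≤ t) (h2 : t ≤ 2 * T + 3 * κ) :
    ‖BB F V1 V2 T u t - (Lq * bt T u t 0 -
        ∑' n : ℕ, a n * ((Real.sqrt n : ℂ)⁻¹ * bt T u t (Real.log n)))‖ ≤ 2 * E * wt T t := by
  have hT2 : T ≤ 2 * T := by linarith
  have hcA : Continuous (fun m : ℝ => A1 F V1 V2 u m) := A1_cont F V1 V2 u hfin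
  have hcP : Continuous (fun m : ℝ => PP1 a u m) := PP1_cont a ha u
  have hbt0 : Lq * bt T u t 0 = ((1 / Real.sqrt (2 * Real.pi) : ℝ) : ℂ) *
      ∫ τ in T..(2 * T), (Real.exp (-(t - τ) ^ 2 / 4) : ℂ) *
        (((1 / (2 * Real.sqrt Real.pi) : ℝ) : ℂ) *
          (Lq * cexp (I * ((t + τ) / 2 : ℝ) * u) * Real.exp (-u ^ 2 / 4))) := by
    have e : ∀ τ : ℝ, (Real.exp (-(t - τ) ^ 2 / 4) : ℂ) *
        (((1 / (2 * Real.sqrt Real.pi) : ℝ) : ℂ) *
          (Lq * cexp (I * ((t + τ) / 2 : ℝ) * u) * Real.exp (-u ^ 2 / 4))) =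
        (((1 / (2 * Real.sqrt Real.pi) : ℝ) : ℂ) * Lq * Real.exp (-u ^ 2 / 4)) *
          ((Real.exp (-(t - τ) ^ 2 / 4) : ℂ) * cexp (I * ((t + τ) / 2) * (u - (0 : ℝ)))) := by
      intro τ
      push_cast
      rw [sub_zero]
      ring
    simp_rw [e]
    rw [intervalIntegral.integral_const_mul]
    unfold bt
    rw [sub_zero]
    push_cast
    ring
  have hkey : BB F V1 V2 T u t - (Lq * bt T u t 0 -
        ∑' n : ℕ, a n * ((Real.sqrt n : ℂ)⁻¹ * bt T u t (Real.log n))) =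
      ((1 / Real.sqrt (2 * Real.pi) : ℝ) : ℂ) *
        ∫ τ in T..(2 * T), (Real.exp (-(t - τ) ^ 2 / 4) : ℂ) *
          (A1 F V1 V2 u ((t + τ) / 2) - (1 / (2 * Real.sqrt Real.pi) : ℝ) *
          (Lq * cexp (I * ((t + τ) / 2 : ℝ) * u) * Real.exp (-u ^ 2 / 4) -
            PP1 a u ((t + τ) / 2))) := by
    rw [BB_eq F V1 V2 T u t hfin, hbt0, bt_sum_formula a ha T u t]
    have hi1 : IntervalIntegrable (fun τ : ℝ => (Real.exp (-(t - τ) ^ 2 / 4) : ℂ) *
        A1 F V1 V2 u ((t + τ) / 2)) volume T (2 * T) := by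
      apply Continuous.intervalIntegrable
      have : Continuous fun τ : ℝ => A1 F V1 V2 u ((t + τ) / 2) := hcA.comp (by fun_prop)
      fun_prop
    have hi2 : IntervalIntegrable (fun τ : ℝ => (Real.exp (-(t - τ) ^ 2 / 4) : ℂ) *
        (((1 / (2 * Real.sqrt Real.pi) : ℝ) : ℂ) *
          (Lq * cexp (I * ((t + τ) / 2 : ℝ) * u) * Real.exp (-u ^ 2 / 4)))) volume T (2 * T) := by
      apply Continuous.intervalIntegrable
      fun_prop
    have hi3 : IntervalIntegrable (fun τ : ℝ => (Real.exp (-(t - τ) ^ 2 / 4) : ℂ) *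
        PP1 a u ((t + τ) / 2)) volume T (2 * T) := by
      apply Continuous.intervalIntegrable
      have : Continuous fun τ : ℝ => PP1 a u ((t + τ) / 2) := hcP.comp (by fun_prop)
      fun_prop
    have e : ∀ τ : ℝ, (Real.exp (-(t - τ) ^ 2 / 4) : ℂ) *
          (A1 F V1 V2 u ((t + τ) / 2) - (1 / (2 * Real.sqrt Real.pi) : ℝ) *
          (Lq * cexp (I * ((t + τ) / 2 : ℝ) * u) * Real.exp (-u ^ 2 / 4) -
            PP1 a u ((t + τ) / 2))) =
        ((Real.exp (-(t - τ) ^ 2 / 4) : ℂ) * A1 F V1 V2 u ((t + τ) / 2) -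
        (Real.exp (-(t - τ) ^ 2 / 4) : ℂ) *
        (((1 / (2 * Real.sqrt Real.pi) : ℝ) : ℂ) *
          (Lq * cexp (I * ((t + τ) / 2 : ℝ) * u) * Real.exp (-u ^ 2 / 4)))) +
        ((1 / (2 * Real.sqrt Real.pi) : ℝ) : ℂ) *
          ((Real.exp (-(t - τ) ^ 2 / 4) : ℂ) * PP1 a u ((t + τ) / 2)) := by
      intro τ
      ring
    simp_rw [e]
    rw [intervalIntegral.integral_add (hi1.sub hi2) (hi3.const_mul _),
      intervalIntegral.integral_sub hi1 hi2, intervalIntegral.integral_const_mul]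
    push_cast
    ring
  rw [hkey, norm_mul, Complex.norm_real, Real.norm_of_nonneg (by positivity)]
  have hE0 : 0 ≤ E := by
    refine (norm_nonneg _).trans (hE (T + 0) ?_ ?_) <;> linarith
  have hint : ‖∫ τ in T..(2 * T), (Real.exp (-(t - τ) ^ 2 / 4) : ℂ) *
          (A1 F V1 V2 u ((t + τ) / 2) - (1 / (2 * Real.sqrt Real.pi) : ℝ) *
          (Lq * cexp (I * ((t + τ) / 2 : ℝ) * u) * Real.exp (-u ^ 2 / 4) -
            PP1 a u ((t + τ) / 2)))‖ ≤
      ∫ τ in T..(2 * T), Real.exp (-(t - τ) ^ 2 / 4) * E := by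
    refine intervalIntegral.norm_integral_le_of_norm_le hT2 ?_ ?_
    · refine Eventually.of_forall fun τ hτ => ?_
      rw [norm_mul, Complex.norm_real, Real.norm_of_nonneg (Real.exp_pos _).le]
      refine mul_le_mul_of_nonneg_left ?_ (Real.exp_pos _).le
      refine hE ((t + τ) / 2) ?_ ?_
      · linarith [hτ.1]
      · linarith [hτ.2]
    · apply Continuous.intervalIntegrable
      fun_prop
  rw [intervalIntegral.integral_mul_const] at hint
  have hwt : ∫ τ in T..(2 * T), Real.exp (-(t - τ) ^ 2 / 4) = 2 * Real.sqrt Real.pi * wt T t := by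
    unfold wt
    have : Real.sqrt Real.pi ≠ 0 := (Real.sqrt_pos.2 Real.pi_pos).ne'
    field_simp
  have hwt0 : 0 ≤ wt T t := by
    unfold wt
    refine mul_nonneg (by positivity) (intervalIntegral.integral_nonneg hT2 fun τ _ =>
      (Real.exp_pos _).le)
  rw [hwt] at hint
  calc 1 / Real.sqrt (2 * Real.pi) * _ ≤ 1 / Real.sqrt (2 * Real.pi) *
        (2 * Real.sqrt Real.pi * wt T t * E) := by gcongr
    _ = Real.sqrt 2 * (E * wt T t) := by
        rw [Real.sqrt_mul (by norm_num : (0:ℝ) ≤ 2)]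
        have h3 : Real.sqrt Real.pi ≠ 0 := (Real.sqrt_pos.2 Real.pi_pos).ne'
        have h4 : Real.sqrt 2 ≠ 0 := (Real.sqrt_pos.2 (by norm_num)).ne'
        field_simp
        rw [Real.sq_sqrt (by norm_num)]
    _ ≤ 2 * (E * wt T t) := by
        refine mul_le_mul_of_nonneg_right ?_ (mul_nonneg hE0 hwt0)
        rw [Real.sqrt_le_iff]
        norm_num
    _ = 2 * E * wt T t := by ring

/-! ### mean squares -/

theorem BB_sum (F : ℂ → ℂ) (V1 V2 T u t : ℝ) (hfin : (zset F V1 V2).Finite) :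
    BB F V1 V2 T u t = ∑ s ∈ hfin.toFinset, ((mult F s : ℂ) * cc T (zz s) * cexp (I * u * zz s)) *
      cexp (-(zz s - t) ^ 2 / 2) := by
  unfold BB
  rw [finsum_mem_eq_finite_toFinset_sum _ hfin]
  refine Finset.sum_congr rfl fun s _ => ?_
  ring

theorem NN_sum (F : ℂ → ℂ) (V1 V2 : ℝ) (hfin : (zset F V1 V2).Finite) :
    (NN F V1 V2 : ℝ) = ∑ s ∈ hfin.toFinset, (mult F s : ℝ) := by
  unfold H370.NN
  rw [finsum_mem_eq_finite_toFinset_sum _ hfin]
  push_cast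
  rfl

theorem gg_integrable (z w : ℂ) :
    Integrable (fun t : ℝ => cexp (-(z - t) ^ 2 / 2) *
      (starRingEnd ℂ) (cexp (-(w - t) ^ 2 / 2))) := by
  have h := integrable_cexp_quadratic' (b := -1) (by norm_num)
    (z + (starRingEnd ℂ) w) (-(z ^ 2 + (starRingEnd ℂ) w ^ 2) / 2)
  refine h.congr (Eventually.of_forall fun t => ?_)
  simp only
  rw [← Complex.exp_conj, ← Complex.exp_add]
  congr 1
  simp only [map_div₀, map_neg, map_pow, map_sub, Complex.conj_ofReal, Complex.conj_ofNat]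
  ring

theorem normSq_BB (F : ℂ → ℂ) (V1 V2 T u t : ℝ) (hfin : (zset F V1 V2).Finite) :
    ((‖BB F V1 V2 T u t‖ ^ 2 : ℝ) : ℂ) =
      ∑ s ∈ hfin.toFinset, ∑ s' ∈ hfin.toFinset,
        (((mult F s : ℂ) * cc T (zz s) * cexp (I * u * zz s)) *
          (starRingEnd ℂ) ((mult F s' : ℂ) * cc T (zz s') * cexp (I * u * zz s'))) *
        (cexp (-(zz s - t) ^ 2 / 2) * (starRingEnd ℂ) (cexp (-(zz s' - t) ^ 2 / 2))) := by
  rw [← Complex.normSq_eq_norm_sq, ← Complex.mul_conj, BB_sum F V1 V2 T u t hfin, map_sum,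
    Finset.sum_mul_sum]
  refine Finset.sum_congr rfl fun s _ => Finset.sum_congr rfl fun s' _ => ?_
  rw [map_mul]
  ring

theorem BB_int (F : ℂ → ℂ) (V1 V2 T : ℝ) (hfin : (zset F V1 V2).Finite) :
    (∀ u, Integrable (fun t : ℝ => ‖BB F V1 V2 T u t‖ ^ 2)) ∧
    Continuous (fun u : ℝ => ∫ t : ℝ, ‖BB F V1 V2 T u t‖ ^ 2) := by
  have hint : ∀ u, Integrable (fun t : ℝ => ((‖BB F V1 V2 T u t‖ ^ 2 : ℝ) : ℂ)) := by
    intro u
    simp_rw [normSq_BB F V1 V2 T u _ hfin]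
    refine integrable_finsetSum _ fun s _ => integrable_finsetSum _ fun s' _ => ?_
    exact (gg_integrable _ _).const_mul _
  constructor
  · intro u
    refine (hint u).re.congr (Filter.Eventually.of_forall fun t => ?_)
    exact Complex.ofReal_re _
  · have hval : ∀ u : ℝ, ∫ t : ℝ, ‖BB F V1 V2 T u t‖ ^ 2 =
        (∑ s ∈ hfin.toFinset, ∑ s' ∈ hfin.toFinset,
        (((mult F s : ℂ) * cc T (zz s) * cexp (I * u * zz s)) *
          (starRingEnd ℂ) ((mult F s' : ℂ) * cc T (zz s') * cexp (I * u * zz s'))) *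
        ∫ t : ℝ, (cexp (-(zz s - t) ^ 2 / 2) *
          (starRingEnd ℂ) (cexp (-(zz s' - t) ^ 2 / 2)))).re := by
      intro u
      have h1 : ((∫ t : ℝ, ‖BB F V1 V2 T u t‖ ^ 2 : ℝ) : ℂ) =
          ∑ s ∈ hfin.toFinset, ∑ s' ∈ hfin.toFinset,
        (((mult F s : ℂ) * cc T (zz s) * cexp (I * u * zz s)) *
          (starRingEnd ℂ) ((mult F s' : ℂ) * cc T (zz s') * cexp (I * u * zz s'))) *
        ∫ t : ℝ, (cexp (-(zz s - t) ^ 2 / 2) *
          (starRingEnd ℂ) (cexp (-(zz s' - t) ^ 2 / 2))) := by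
        rw [← integral_complex_ofReal]
        simp_rw [normSq_BB F V1 V2 T u _ hfin]
        rw [integral_finsetSum _ fun s _ => integrable_finsetSum _ fun s' _ =>
          (gg_integrable _ _).const_mul _]
        refine Finset.sum_congr rfl fun s _ => ?_
        rw [integral_finsetSum _ fun s' _ => (gg_integrable _ _).const_mul _]
        refine Finset.sum_congr rfl fun s' _ => ?_
        rw [integral_const_mul]
      rw [← h1, Complex.ofReal_re]
    simp_rw [hval]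
    fun_prop

theorem gauss_int_half (x : ℝ) :
    Integrable (fun t : ℝ => Real.exp (-(x - t) ^ 2 / 2)) ∧
    ∫ t : ℝ, Real.exp (-(x - t) ^ 2 / 2) = Real.sqrt (2 * Real.pi) := by
  have h1 : Integrable (fun t : ℝ => Real.exp (-(1 / 2) * t ^ 2)) :=
    integrable_exp_neg_mul_sq (by norm_num)
  have e : ∀ t : ℝ, Real.exp (-(x - t) ^ 2 / 2) = Real.exp (-(1 / 2) * (x - t) ^ 2) := by
    intro t; congr 1; ring
  simp_rw [e]
  constructor
  · exact h1.comp_sub_left x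
  · rw [integral_sub_left_eq_self (fun t : ℝ => Real.exp (-(1 / 2) * t ^ 2)) volume x,
      integral_gaussian]
    congr 1
    ring

theorem norm_gg (z : ℂ) (t : ℝ) (hz : |z.im| ≤ 1 / 2) :
    ‖cexp (-(z - t) ^ 2 / 2)‖ ^ 2 ≤ Real.exp (1 / 4) * Real.exp (-(z.re - t) ^ 2) := by
  rw [Complex.norm_exp, ← Real.exp_nat_mul, ← Real.exp_add]
  apply Real.exp_le_exp.2
  have h1 : (-(z - (t : ℂ)) ^ 2 / 2).re = -((z.re - t) ^ 2 - z.im ^ 2) / 2 := by
    have : (-(z - (t : ℂ)) ^ 2 / 2) = ((-((z.re - t) ^ 2 - z.im ^ 2) / 2 : ℝ) : ℂ) +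
        ((-(z.re - t) * z.im : ℝ) : ℂ) * I := by
      apply Complex.ext
      · simp [pow_two]
      · simp [pow_two]
        ring
    rw [this, Complex.add_re, Complex.ofReal_re, Complex.re_ofReal_mul, Complex.I_re, mul_zero,
      add_zero]
  rw [h1]
  have h2 : z.im ^ 2 ≤ 1 / 4 := by
    rw [← sq_abs]
    nlinarith [abs_nonneg z.im]
  push_cast
  nlinarith

theorem BB_far_pt (F : ℂ → ℂ) (V1 V2 T κ u : ℝ) (hfin : (zset F V1 V2).Finite) (hT : 0 ≤ T)
    (hκ : 1 ≤ κ) (hu : 0 ≤ u) (t : ℝ) (ht : t ∉ Set.Icc (T - 3 * κ) (2 * T + 3 * κ)) :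
    ‖BB F V1 V2 T u t‖ ^ 2 ≤ (NN F V1 V2 : ℝ) * ∑ s ∈ hfin.toFinset, (mult F s : ℝ) *
      (4 * Real.exp (u - κ ^ 2) * Real.exp (1 / 4) * Real.exp (-((zz s).re - t) ^ 2 / 2)) := by
  have hpt : ∀ s ∈ hfin.toFinset,
      ‖cc T (zz s)‖ ^ 2 * ‖cexp (I * u * zz s)‖ ^ 2 * ‖cexp (-(zz s - t) ^ 2 / 2)‖ ^ 2 ≤
      4 * Real.exp (u - κ ^ 2) * Real.exp (1 / 4) * Real.exp (-((zz s).re - t) ^ 2 / 2) := by
    intro s hs
    have hs' : s ∈ zset F V1 V2 := by simpa using hs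
    have him := zz_im_abs hs'
    have h1 : ‖cexp (I * u * zz s)‖ ^ 2 ≤ Real.exp u := by
      rw [Complex.norm_exp, ← Real.exp_nat_mul]
      apply Real.exp_le_exp.2
      have : (I * u * zz s).re = -(u * (zz s).im) := by simp
      rw [this]
      have h2 := (abs_le.1 him).1
      push_cast
      nlinarith
    have h2 := norm_gg (zz s) t him
    have h3 : ‖cc T (zz s)‖ ^ 2 * Real.exp (-((zz s).re - t) ^ 2) ≤
        4 * Real.exp (-κ ^ 2) * Real.exp (-((zz s).re - t) ^ 2 / 2) := by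
      by_cases hfar : (zz s).re ≤ T - κ ∨ 2 * T + κ ≤ (zz s).re
      · have h4 := cc_far T κ hT (by linarith) (zz s) him hfar
        have h5 : ‖cc T (zz s)‖ ^ 2 ≤ 4 * Real.exp (-κ ^ 2) := by
          calc ‖cc T (zz s)‖ ^ 2 ≤ (2 * Real.exp (-κ ^ 2 / 2)) ^ 2 := by gcongr
            _ = 4 * Real.exp (-κ ^ 2) := by
              rw [mul_pow, ← Real.exp_nat_mul]
              norm_num
              ring_nf
        have h6 : Real.exp (-((zz s).re - t) ^ 2) ≤ Real.exp (-((zz s).re - t) ^ 2 / 2) := by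
          apply Real.exp_le_exp.2
          nlinarith [sq_nonneg ((zz s).re - t)]
        gcongr
      · push Not at hfar
        have h4 := cc_bound T hT (zz s) him
        have h5 : ‖cc T (zz s)‖ ^ 2 ≤ 4 := by
          nlinarith [norm_nonneg (cc T (zz s))]
        have h6 : 4 * κ ^ 2 ≤ ((zz s).re - t) ^ 2 := by
          by_contra hlt
          push Not at hlt
          apply ht
          have h7 : |(zz s).re - t| < 2 * κ := by
            apply abs_lt_of_sq_lt_sq _ (by linarith)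
            nlinarith
          rw [abs_lt] at h7
          constructor <;> linarith [hfar.1, hfar.2, h7.1, h7.2]
        have h8 : Real.exp (-((zz s).re - t) ^ 2) ≤
            Real.exp (-κ ^ 2) * Real.exp (-((zz s).re - t) ^ 2 / 2) := by
          rw [← Real.exp_add]
          apply Real.exp_le_exp.2
          nlinarith [sq_nonneg κ]
        calc _ ≤ 4 * (Real.exp (-κ ^ 2) * Real.exp (-((zz s).re - t) ^ 2 / 2)) := by gcongr
          _ = _ := by ring
    have h9 : Real.exp (u - κ ^ 2) = Real.exp u * Real.exp (-κ ^ 2) := by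
      rw [← Real.exp_add]; congr 1
    calc _ ≤ ‖cc T (zz s)‖ ^ 2 * Real.exp u *
          (Real.exp (1 / 4) * Real.exp (-((zz s).re - t) ^ 2)) := by gcongr
      _ = Real.exp u * Real.exp (1 / 4) *
          (‖cc T (zz s)‖ ^ 2 * Real.exp (-((zz s).re - t) ^ 2)) := by ring
      _ ≤ Real.exp u * Real.exp (1 / 4) *
          (4 * Real.exp (-κ ^ 2) * Real.exp (-((zz s).re - t) ^ 2 / 2)) := by gcongr
      _ = _ := by rw [h9]; ring
  rw [BB_sum F V1 V2 T u t hfin, NN_sum F V1 V2 hfin]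
  have hnorm : ‖∑ s ∈ hfin.toFinset, ((mult F s : ℂ) * cc T (zz s) * cexp (I * u * zz s)) *
      cexp (-(zz s - t) ^ 2 / 2)‖ ≤ ∑ s ∈ hfin.toFinset, (mult F s : ℝ) *
        (‖cc T (zz s)‖ * ‖cexp (I * u * zz s)‖ * ‖cexp (-(zz s - t) ^ 2 / 2)‖) := by
    refine (norm_sum_le _ _).trans (le_of_eq ?_)
    refine Finset.sum_congr rfl fun s _ => ?_
    rw [norm_mul, norm_mul, norm_mul, Complex.norm_natCast]
    ring
  calc _ ≤ (∑ s ∈ hfin.toFinset, (mult F s : ℝ) *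
        (‖cc T (zz s)‖ * ‖cexp (I * u * zz s)‖ * ‖cexp (-(zz s - t) ^ 2 / 2)‖)) ^ 2 := by
        gcongr
    _ ≤ (∑ s ∈ hfin.toFinset, (mult F s : ℝ)) * ∑ s ∈ hfin.toFinset, (mult F s : ℝ) *
        (‖cc T (zz s)‖ * ‖cexp (I * u * zz s)‖ * ‖cexp (-(zz s - t) ^ 2 / 2)‖) ^ 2 := by
        refine Finset.sum_sq_le_sum_mul_sum_of_sq_le_mul _ (fun s _ => Nat.cast_nonneg _)
          (fun s _ => by positivity) (fun s _ => le_of_eq (by ring))
    _ ≤ _ := by
        gcongr with s hs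
        have := hpt s hs
        calc _ = ‖cc T (zz s)‖ ^ 2 * ‖cexp (I * u * zz s)‖ ^ 2 *
              ‖cexp (-(zz s - t) ^ 2 / 2)‖ ^ 2 := by ring
          _ ≤ _ := this

theorem BB_far (F : ℂ → ℂ) (V1 V2 T κ u : ℝ) (hfin : (zset F V1 V2).Finite) (hT : 0 ≤ T)
    (hκ : 1 ≤ κ) (hu : 0 ≤ u) :
    ∫ t in (Set.Icc (T - 3 * κ) (2 * T + 3 * κ))ᶜ, ‖BB F V1 V2 T u t‖ ^ 2 ≤
      100 * (NN F V1 V2 : ℝ) ^ 2 * Real.exp (u - κ ^ 2) := by
  have hgi : ∀ s : ℂ, Integrable (fun t : ℝ => (mult F s : ℝ) *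
      (4 * Real.exp (u - κ ^ 2) * Real.exp (1 / 4) * Real.exp (-((zz s).re - t) ^ 2 / 2))) :=
    fun s => ((gauss_int_half (zz s).re).1.const_mul _).const_mul _
  have hGi : Integrable (fun t : ℝ => (NN F V1 V2 : ℝ) * ∑ s ∈ hfin.toFinset, (mult F s : ℝ) *
      (4 * Real.exp (u - κ ^ 2) * Real.exp (1 / 4) * Real.exp (-((zz s).re - t) ^ 2 / 2))) :=
    (integrable_finsetSum _ fun s _ => hgi s).const_mul _
  calc _ ≤ ∫ t in (Set.Icc (T - 3 * κ) (2 * T + 3 * κ))ᶜ, (NN F V1 V2 : ℝ) *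
        ∑ s ∈ hfin.toFinset, (mult F s : ℝ) *
      (4 * Real.exp (u - κ ^ 2) * Real.exp (1 / 4) * Real.exp (-((zz s).re - t) ^ 2 / 2)) := by
        refine setIntegral_mono_on ((BB_int F V1 V2 T hfin).1 u).integrableOn hGi.integrableOn
          measurableSet_Icc.compl fun t ht => ?_
        exact BB_far_pt F V1 V2 T κ u hfin hT hκ hu t ht
    _ ≤ ∫ t : ℝ, (NN F V1 V2 : ℝ) * ∑ s ∈ hfin.toFinset, (mult F s : ℝ) *
      (4 * Real.exp (u - κ ^ 2) * Real.exp (1 / 4) * Real.exp (-((zz s).re - t) ^ 2 / 2)) := by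
        refine setIntegral_le_integral hGi (Eventually.of_forall fun t => ?_)
        positivity
    _ = (NN F V1 V2 : ℝ) * ∑ s ∈ hfin.toFinset, (mult F s : ℝ) *
      (4 * Real.exp (u - κ ^ 2) * Real.exp (1 / 4) * Real.sqrt (2 * Real.pi)) := by
        rw [integral_const_mul, integral_finsetSum _ fun s _ => hgi s]
        congr 1
        refine Finset.sum_congr rfl fun s _ => ?_
        rw [integral_const_mul, integral_const_mul, (gauss_int_half _).2]
    _ = (NN F V1 V2 : ℝ) ^ 2 * (4 * Real.exp (1 / 4) * Real.sqrt (2 * Real.pi)) *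
          Real.exp (u - κ ^ 2) := by
        rw [← Finset.sum_mul, ← NN_sum F V1 V2 hfin]
        ring
    _ ≤ (NN F V1 V2 : ℝ) ^ 2 * 100 * Real.exp (u - κ ^ 2) := by
        gcongr
        have h1 : Real.exp (1 / 4) ≤ 3 := by
          have : Real.exp (1 / 4) ≤ Real.exp 1 := Real.exp_le_exp.2 (by norm_num)
          linarith [Real.exp_one_lt_d9]
        have h2 : Real.sqrt (2 * Real.pi) ≤ 3 := by
          rw [Real.sqrt_le_iff]
          constructor
          · norm_num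
          · nlinarith [Real.pi_lt_d2]
        nlinarith [Real.exp_pos (1 / 4 : ℝ), Real.sqrt_nonneg (2 * Real.pi)]
    _ = _ := by ring

end H385
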