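import Pool.Agent.H385R2.GoodD
import Pool.Agent.H385R2.CutB

/-!
TEAM Q2, task D3: the cut-off zero sum `BB`, degree `d` (generalisation of `BB_formula` of
`Pool.Agent.H385R2.CutB`).
-/

open Complex Filter Topology Set MeasureTheory
open H370 (zset mult NN Nd Ns)

namespace H385

/-- scaling down to coefficients bounded by `Λ(n)` -/
theorem scale_D (a : ℕ → ℂ) (d : ℝ) (hd : 0 ≤ d)
    (ha : ∀ n, ‖a n‖ ≤ d * ArithmeticFunction.vonMangoldt n) :
    ∃ a' : ℕ → ℂ, (∀ n, ‖a' n‖ ≤ ArithmeticFunction.vonMangoldt n) ∧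
      a = fun n => ((d + 1 : ℝ) : ℂ) * a' n := by
  have h0 : (0 : ℝ) < d + 1 := by linarith
  refine ⟨fun n => ((d + 1 : ℝ) : ℂ)⁻¹ * a n, fun n => ?_, ?_⟩
  · have hL : (0 : ℝ) ≤ ArithmeticFunction.vonMangoldt n := ArithmeticFunction.vonMangoldt_nonneg
    rw [norm_mul, norm_inv, Complex.norm_real, Real.norm_of_nonneg h0.le, inv_mul_le_iff₀ h0]
    refine (ha n).trans ?_
    nlinarith
  · funext n
    have h1 : ((d + 1 : ℝ) : ℂ) ≠ 0 := by exact_mod_cast h0.ne'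
    rw [← mul_assoc, mul_inv_cancel₀ h1, one_mul]

theorem PP1_smul (c : ℂ) (a : ℕ → ℂ) (u m : ℝ) :
    PP1 (fun n => c * a n) u m = c * PP1 a u m := by
  unfold PP1
  rw [← tsum_mul_left]
  exact tsum_congr fun n => by ring

theorem PP1_cont_D (a : ℕ → ℂ) (d : ℝ) (hd : 0 ≤ d)
    (ha : ∀ n, ‖a n‖ ≤ d * ArithmeticFunction.vonMangoldt n) (u : ℝ) :
    Continuous (fun m : ℝ => PP1 a u m) := by
  obtain ⟨a', ha', rfl⟩ := scale_D a d hd ha
  simp_rw [PP1_smul]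
  exact continuous_const.mul (PP1_cont a' ha' u)

theorem bt_sum_formula_D (a : ℕ → ℂ) (d : ℝ) (hd : 0 ≤ d)
    (ha : ∀ n, ‖a n‖ ≤ d * ArithmeticFunction.vonMangoldt n) (T u t : ℝ) :
    ∑' n : ℕ, a n * ((Real.sqrt n : ℂ)⁻¹ * bt T u t (Real.log n)) =
      ((1 / (2 * Real.sqrt Real.pi) * (1 / Real.sqrt (2 * Real.pi)) : ℝ) : ℂ) *
        ∫ τ in T..(2 * T), (Real.exp (-(t - τ) ^ 2 / 4) : ℂ) * PP1 a u ((t + τ) / 2) := by
  obtain ⟨a', ha', rfl⟩ := scale_D a d hd ha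
  have h1 := bt_sum_formula a' ha' T u t
  have h2 : ∑' n : ℕ, ((d + 1 : ℝ) : ℂ) * a' n *
      ((Real.sqrt n : ℂ)⁻¹ * bt T u t (Real.log n)) =
      ((d + 1 : ℝ) : ℂ) * ∑' n : ℕ, a' n * ((Real.sqrt n : ℂ)⁻¹ * bt T u t (Real.log n)) := by
    rw [← tsum_mul_left]
    exact tsum_congr fun n => by ring
  have h3 : ∀ τ : ℝ, (Real.exp (-(t - τ) ^ 2 / 4) : ℂ) *
      PP1 (fun n => ((d + 1 : ℝ) : ℂ) * a' n) u ((t + τ) / 2) =
      ((d + 1 : ℝ) : ℂ) * ((Real.exp (-(t - τ) ^ 2 / 4) : ℂ) * PP1 a' u ((t + τ) / 2)) := by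
    intro τ
    rw [PP1_smul]
    ring
  simp_rw [h3]
  rw [intervalIntegral.integral_const_mul, h2, h1]
  ring

theorem BB_formula_D (F : ℂ → ℂ) (a : ℕ → ℂ) (d : ℝ) (hd : 0 ≤ d)
    (ha : ∀ n, ‖a n‖ ≤ d * ArithmeticFunction.vonMangoldt n) (Lq V1 V2 T κ u E : ℝ)
    (hfin : (zset F V1 V2).Finite) (hκ : 3 ≤ κ) (hT : 8 * κ ≤ T) (hV1 : V1 ≤ T - 3 * κ + 1)
    (hV2 : 2 * T + 3 * κ - 1 ≤ V2)
    (hE : ∀ m : ℝ, V1 + κ ≤ m → m ≤ V2 - κ →
        ‖A1 F V1 V2 u m - (1 / (2 * Real.sqrt Real.pi) : ℝ) *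
          (Lq * cexp (I * m * u) * Real.exp (-u ^ 2 / 4) - PP1 a u m)‖ ≤ E)
    (t : ℝ) (h1 : T - 3 * κ ≤ t) (h2 : t ≤ 2 * T + 3 * κ) :
    ‖BB F V1 V2 T u t - (Lq * bt T u t 0 -
        ∑' n : ℕ, a n * ((Real.sqrt n : ℂ)⁻¹ * bt T u t (Real.log n)))‖ ≤ 2 * E * wt T t := by
  have hT2 : T ≤ 2 * T := by linarith
  have hcA : Continuous (fun m : ℝ => A1 F V1 V2 u m) := A1_cont F V1 V2 u hfin
  have hcP : Continuous (fun m : ℝ => PP1 a u m) := PP1_cont_D a d hd ha u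
  have hbt0 : Lq * bt T u t 0 = ((1 / Real.sqrt (2 * Real.pi) : ℝ) : ℂ) *
      ∫ τ in T..(2 * T), (Real.exp (-(t - τ) ^ 2 / 4) : ℂ) *
        (((1 / (2 * Real.sqrt Real.pi) : ℝ) : ℂ) *
          (Lq * cexp (I * ((t + τ) / 2 : ℝ) * u) * Real.exp (-u ^ 2 / 4))) := by
    have e : ∀ τ : ℝ, (Real.exp (-(t - τ) ^ 2 / 4) : ℂ) *
        (((1 / (2 * Real.sqrt Real.pi) : ℝ) : ℂ) *
          (Lq * cexp (I * ((t + τ) / 2 : ℝ) * u) * Real.exp (-u ^ 2 / 4))) =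
        (((1 / (2 * Real.sqrt Real.pi) : ℝ) : ℂ) * Lq * Real.exp (-u ^ 2 / 4)) *
          ((Real.exp (-(t - τ) ^ 2 / 4) : ℂ) * cexp (I * ((t + τ) / 2) * (u - (0 : ℝ)))) := by
      intro τ
      push_cast
      rw [sub_zero]
      ring
    simp_rw [e]
    rw [intervalIntegral.integral_const_mul]
    unfold bt
    rw [sub_zero]
    push_cast
    ring
  have hkey : BB F V1 V2 T u t - (Lq * bt T u t 0 -
        ∑' n : ℕ, a n * ((Real.sqrt n : ℂ)⁻¹ * bt T u t (Real.log n))) =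
      ((1 / Real.sqrt (2 * Real.pi) : ℝ) : ℂ) *
        ∫ τ in T..(2 * T), (Real.exp (-(t - τ) ^ 2 / 4) : ℂ) *
          (A1 F V1 V2 u ((t + τ) / 2) - (1 / (2 * Real.sqrt Real.pi) : ℝ) *
          (Lq * cexp (I * ((t + τ) / 2 : ℝ) * u) * Real.exp (-u ^ 2 / 4) -
            PP1 a u ((t + τ) / 2))) := by
    rw [BB_eq F V1 V2 T u t hfin, hbt0, bt_sum_formula_D a d hd ha T u t]
    have hi1 : IntervalIntegrable (fun τ : ℝ => (Real.exp (-(t - τ) ^ 2 / 4) : ℂ) *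
        A1 F V1 V2 u ((t + τ) / 2)) volume T (2 * T) := by
      apply Continuous.intervalIntegrable
      have : Continuous fun τ : ℝ => A1 F V1 V2 u ((t + τ) / 2) := hcA.comp (by fun_prop)
      fun_prop
    have hi2 : IntervalIntegrable (fun τ : ℝ => (Real.exp (-(t - τ) ^ 2 / 4) : ℂ) *
        (((1 / (2 * Real.sqrt Real.pi) : ℝ) : ℂ) *
          (Lq * cexp (I * ((t + τ) / 2 : ℝ) * u) * Real.exp (-u ^ 2 / 4)))) volume T (2 * T) := by
      apply Continuous.intervalIntegrable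
      fun_prop
    have hi3 : IntervalIntegrable (fun τ : ℝ => (Real.exp (-(t - τ) ^ 2 / 4) : ℂ) *
        PP1 a u ((t + τ) / 2)) volume T (2 * T) := by
      apply Continuous.intervalIntegrable
      have : Continuous fun τ : ℝ => PP1 a u ((t + τ) / 2) := hcP.comp (by fun_prop)
      fun_prop
    have e : ∀ τ : ℝ, (Real.exp (-(t - τ) ^ 2 / 4) : ℂ) *
          (A1 F V1 V2 u ((t + τ) / 2) - (1 / (2 * Real.sqrt Real.pi) : ℝ) *
          (Lq * cexp (I * ((t + τ) / 2 : ℝ) * u) * Real.exp (-u ^ 2 / 4) -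
            PP1 a u ((t + τ) / 2))) =
        ((Real.exp (-(t - τ) ^ 2 / 4) : ℂ) * A1 F V1 V2 u ((t + τ) / 2) -
        (Real.exp (-(t - τ) ^ 2 / 4) : ℂ) *
        (((1 / (2 * Real.sqrt Real.pi) : ℝ) : ℂ) *
          (Lq * cexp (I * ((t + τ) / 2 : ℝ) * u) * Real.exp (-u ^ 2 / 4)))) +
        ((1 / (2 * Real.sqrt Real.pi) : ℝ) : ℂ) *
          ((Real.exp (-(t - τ) ^ 2 / 4) : ℂ) * PP1 a u ((t + τ) / 2)) := by
      intro τ
      ring
    simp_rw [e]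
    rw [intervalIntegral.integral_add (hi1.sub hi2) (hi3.const_mul _),
      intervalIntegral.integral_sub hi1 hi2, intervalIntegral.integral_const_mul]
    push_cast
    ring
  rw [hkey, norm_mul, Complex.norm_real, Real.norm_of_nonneg (by positivity)]
  have hE0 : 0 ≤ E := by
    refine (norm_nonneg _).trans (hE (T + 0) ?_ ?_) <;> linarith
  have hint : ‖∫ τ in T..(2 * T), (Real.exp (-(t - τ) ^ 2 / 4) : ℂ) *
          (A1 F V1 V2 u ((t + τ) / 2) - (1 / (2 * Real.sqrt Real.pi) : ℝ) *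
          (Lq * cexp (I * ((t + τ) / 2 : ℝ) * u) * Real.exp (-u ^ 2 / 4) -
            PP1 a u ((t + τ) / 2)))‖ ≤
      ∫ τ in T..(2 * T), Real.exp (-(t - τ) ^ 2 / 4) * E := by
    refine intervalIntegral.norm_integral_le_of_norm_le hT2 ?_ ?_
    · refine Eventually.of_forall fun τ hτ => ?_
      rw [norm_mul, Complex.norm_real, Real.norm_of_nonneg (Real.exp_pos _).le]
      refine mul_le_mul_of_nonneg_left ?_ (Real.exp_pos _).le
      refine hE ((t + τ) / 2) ?_ ?_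
      · linarith [hτ.1]
      · linarith [hτ.2]
    · apply Continuous.intervalIntegrable
      fun_prop
  rw [intervalIntegral.integral_mul_const] at hint
  have hwt : ∫ τ in T..(2 * T), Real.exp (-(t - τ) ^ 2 / 4) = 2 * Real.sqrt Real.pi * wt T t := by
    unfold wt
    have : Real.sqrt Real.pi ≠ 0 := (Real.sqrt_pos.2 Real.pi_pos).ne'
    field_simp
  have hwt0 : 0 ≤ wt T t := by
    unfold wt
    refine mul_nonneg (by positivity) (intervalIntegral.integral_nonneg hT2 fun τ _ =>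
      (Real.exp_pos _).le)
  rw [hwt] at hint
  calc 1 / Real.sqrt (2 * Real.pi) * _ ≤ 1 / Real.sqrt (2 * Real.pi) *
        (2 * Real.sqrt Real.pi * wt T t * E) := by gcongr
    _ = Real.sqrt 2 * (E * wt T t) := by
        rw [Real.sqrt_mul (by norm_num : (0:ℝ) ≤ 2)]
        have h3 : Real.sqrt Real.pi ≠ 0 := (Real.sqrt_pos.2 Real.pi_pos).ne'
        have h4 : Real.sqrt 2 ≠ 0 := (Real.sqrt_pos.2 (by norm_num)).ne'
        field_simp
        rw [Real.sq_sqrt (by norm_num)]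
    _ ≤ 2 * (E * wt T t) := by
        refine mul_le_mul_of_nonneg_right ?_ (mul_nonneg hE0 hwt0)
        rw [Real.sqrt_le_iff]
        norm_num
    _ = 2 * E * wt T t := by ring

end H385
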