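import Pool.Agent.H385R2.Defs

open Complex Filter Topology Set MeasureTheory
open H370 (zset mult NN Nd Ns)

namespace H385

/-- `h(q) = ∏_{p ∣ gcd(q,P)} p²/(p²+p+1)` -/
noncomputable def hP (P q : ℕ) : ℝ :=
  ∏ p ∈ P.primeFactors.filter (fun p => p ∣ q), ((p : ℝ) ^ 2 / ((p : ℝ) ^ 2 + p + 1))

/-- sum over all primitive characters mod `q`, `X < q ≤ Y`, weight `q⁻²` -/
noncomputable def primFam (X Y : ℕ) (f : (q : ℕ) → DirichletCharacter ℂ q → ℝ) : ℝ :=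
  ∑ q ∈ Finset.Ioc X Y, (1 / (q : ℝ) ^ 2) *
    ∑ᶠ χ : {χ : DirichletCharacter ℂ q // χ.IsPrimitive}, f q χ

end H385
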