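import Pool.Agent.H385R2.Defs4

open Complex Filter Topology Set MeasureTheory

namespace H385

/-- neighbourhoods of the fractions with denominator `≤ R` -/
def PL (R : ℕ) (w : ℝ) : Set ℝ :=
  {y | ∃ r : ℕ, 1 ≤ r ∧ r ≤ R ∧ ∃ b : ℕ, b < r ∧ Nat.Coprime b r ∧ |y - (b : ℝ) / r| ≤ w}

/-- Fourier transform with `e(xη)` -/
noncomputable def Fh (f : ℝ → ℂ) (η : ℝ) : ℂ := ∫ x : ℝ, f x * ee (x * η)

/-- the function `y^{-1/2} e^{-(u-log y)²/2} e^{it(u-log y)} / √(2π)` -/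
noncomputable def fl (u t y : ℝ) : ℂ :=
  if 0 < y then
    ((1 / Real.sqrt (2 * Real.pi) * (Real.sqrt y)⁻¹ * Real.exp (-(u - Real.log y) ^ 2 / 2) : ℝ) : ℂ) *
      cexp (I * t * (u - Real.log y))
  else 0

/-- `G`, the gain coming from the plateau -/
noncomputable def gain (N R : ℕ) (w : ℝ) (a : ℕ → ℂ) (f f2 : ℝ → ℂ) : ℝ :=
  2 * (∑ n ∈ (Finset.Icc 1 N).filter (fun n => R < n.minFac), a n * (starRingEnd ℂ) (f n)).re
    - (∫ y : ℝ, ‖f y‖ ^ 2)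
    - 2 * ∑ n ∈ (Finset.Icc 1 N).filter (fun n => n.minFac ≤ R), ‖a n‖ * ‖f n‖
    - 2 * ((∫ y : ℝ, ‖f2 y‖) / w) * ∑ n ∈ Finset.Icc 1 N, ‖a n‖

/-- `f` is twice continuously differentiable with derivatives `f1`, `f2`, all integrable -/
structure C2I (f f1 f2 : ℝ → ℂ) : Prop where
  d1 : ∀ x, HasDerivAt f (f1 x) x
  d2 : ∀ x, HasDerivAt f1 (f2 x) x
  c2 : Continuous f2
  i0 : Integrable f
  i1 : Integrable f1
  i2 : Integrable f2

noncomputable def LR (R : ℕ) : ℝ := ∑ r ∈ Finset.Icc 1 R,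
  ((ArithmeticFunction.moebius r : ℤ) : ℝ) ^ 2 / (Nat.totient r : ℝ)

noncomputable def WR (R n : ℕ) : ℂ := ∑ r ∈ Finset.Icc 1 R,
  (((ArithmeticFunction.moebius r : ℤ) : ℂ) / (Nat.totient r : ℂ)) *
    ∑ b ∈ (Finset.range r).filter (fun b => Nat.Coprime b r), ee (n * ((b : ℝ) / r))

end H385
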