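import Pool.Agent.H385R2.Defs
import Pool.Agent.H370R2.DirGood

/-!
TEAM Q, module Q11: the analytic input `GoodU` for Dirichlet L-functions, uniform in the conductor.
Adapted from `Pool.Agent.H370R2.DirGood`.
-/

open Complex Filter Topology Set MeasureTheory

namespace H385

open H370.DL

theorem U_ld {q : ℕ} [NeZero q] (χ : DirichletCharacter ℂ q) {s : ℂ} (hs : 1 < s.re) :
      deriv (DirichletCharacter.LFunction χ) s / DirichletCharacter.LFunction χ s =
        - ∑' n : ℕ, (χ (n : ZMod q) * (ArithmeticFunction.vonMangoldt n : ℂ)) * (n : ℂ) ^ (-s) := by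
  have h1 := DirichletCharacter.LSeries_twist_vonMangoldt_eq χ hs
  rw [DirichletCharacter.deriv_LFunction_eq_deriv_LSeries χ hs,
    DirichletCharacter.LFunction_eq_LSeries χ hs]
  rw [neg_div, eq_neg_iff_add_eq_zero, add_comm, ← eq_neg_iff_add_eq_zero] at h1
  rw [h1]
  congr 1
  unfold LSeries
  refine tsum_congr fun n => ?_
  rw [term_eq_mul_cpow _ (by simp)]
  simp

theorem U_lower : ∃ c : ℝ, 0 < c ∧ ∀ (q : ℕ) [NeZero q] (χ : DirichletCharacter ℂ q) (t : ℝ),
    c ≤ ‖DirichletCharacter.LFunction χ (⟨2, t⟩ : ℂ)‖ := by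
  have hsum : Summable (fun n : ℕ => 1 / (n : ℝ) ^ 2) :=
    Real.summable_one_div_nat_pow.mpr (by norm_num)
  have hZ : 0 < ∑' n : ℕ, 1 / (n : ℝ) ^ 2 := by
    refine hsum.tsum_pos (fun n => by positivity) 1 (by norm_num)
  refine ⟨1 / (∑' n : ℕ, 1 / (n : ℝ) ^ 2), by positivity, fun q _ χ t => ?_⟩
  have hre : (1 : ℝ) < (⟨2, t⟩ : ℂ).re := by norm_num
  rw [DirichletCharacter.LFunction_eq_LSeries χ hre]
  have h1 := DirichletCharacter.LSeries.mul_mu_eq_one χ hre
  have h2 : ‖LSeries ((fun n : ℕ => χ n) * fun n : ℕ => (ArithmeticFunction.moebius n : ℂ))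
      (⟨2, t⟩ : ℂ)‖ ≤ ∑' n : ℕ, 1 / (n : ℝ) ^ 2 := by
    unfold LSeries
    refine tsum_of_norm_bounded hsum.hasSum fun n => ?_
    rcases eq_or_ne n 0 with rfl | hn
    · simp
    · rw [LSeries.term_of_ne_zero hn, norm_div, norm_natCast_cpow_of_pos (Nat.pos_of_ne_zero hn)]
      simp only [Pi.mul_apply, norm_mul]
      rw [show ((2 : ℝ) : ℝ) = ((2 : ℕ) : ℝ) by norm_num, Real.rpow_natCast]
      apply div_le_div_of_nonneg_right _ (by positivity)
      have a1 := DirichletCharacter.norm_le_one χ (n : ZMod q)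
      have a2 : ‖(ArithmeticFunction.moebius n : ℂ)‖ ≤ 1 := by
        have := ArithmeticFunction.abs_moebius_le_one (n := n)
        rw [Complex.norm_intCast]
        exact_mod_cast this
      calc _ ≤ (1 : ℝ) * 1 := mul_le_mul a1 a2 (norm_nonneg _) zero_le_one
        _ = 1 := one_mul 1
  have h3 : ‖LSeries (fun n : ℕ => χ n) (⟨2, t⟩ : ℂ)‖ *
      ‖LSeries ((fun n : ℕ => χ n) * fun n : ℕ => (ArithmeticFunction.moebius n : ℂ))
      (⟨2, t⟩ : ℂ)‖ = 1 := by
    rw [← norm_mul, h1, norm_one]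
  rw [div_le_iff₀ hZ]
  calc (1 : ℝ) = _ := h3.symm
    _ ≤ _ := mul_le_mul_of_nonneg_left h2 (norm_nonneg _)

theorem U_growth_ne {q : ℕ} [NeZero q] {χ : DirichletCharacter ℂ q} (hχ1 : χ ≠ 1) (s : ℂ)
    (h1 : (1 / 16 : ℝ) ≤ s.re) (h2 : s.re ≤ 4) (h3 : 1 ≤ s.im) :
    ‖DirichletCharacter.LFunction χ s‖ ≤ 160 * (q * s.im) := by
  have hs : 0 < s.re := by linarith
  have hq1 : (1 : ℝ) ≤ q := by exact_mod_cast NeZero.one_le
  have hA : ∀ u : ℝ, ‖∑ k ∈ Finset.Icc 1 ⌊u⌋₊, χ (k : ZMod q)‖ ≤ (q + 1 : ℝ) :=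
    fun u => norm_sum_Icc_le hχ1 _
  rw [L_integral hχ1 hs, norm_mul]
  have h4 := J_bound hA hs
  have h5 : (q + 1 : ℝ) / s.re ≤ 16 * (q + 1) := by
    rw [div_le_iff₀ hs]
    have : (0 : ℝ) ≤ q := Nat.cast_nonneg q
    nlinarith
  calc _ ≤ (5 * s.im) * (16 * (q + 1)) := by
        apply mul_le_mul (norm_le_im (by rw [abs_le]; constructor <;> linarith) h3) (h4.trans h5)
          (norm_nonneg _) (by linarith)
    _ ≤ (5 * s.im) * (32 * q) := by
        apply mul_le_mul_of_nonneg_left _ (by linarith)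
        linarith
    _ = _ := by ring

theorem U_growth_zeta (s : ℂ) (h1 : (1 / 16 : ℝ) ≤ s.re) (h2 : s.re ≤ 4) (h3 : 1 ≤ s.im) :
    ‖riemannZeta s‖ ≤ 82 * s.im := by
  have hs : 0 < s.re := by linarith
  have hne : s ≠ 1 := ne_one_of_im (by linarith)
  have hA : ∀ u : ℝ, ‖((Int.fract u : ℝ) : ℂ)‖ ≤ 1 := by
    intro u
    rw [Complex.norm_real, Real.norm_eq_abs, Int.abs_fract]
    exact (Int.fract_lt_one u).le
  rw [ZU.J_a1.zf_one s hs hne]
  have h4 := J_bound hA hs
  have h5 : (1 : ℝ) / s.re ≤ 16 := by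
    rw [div_le_iff₀ hs]
    linarith
  have h6 : ‖1 / (s - 1)‖ ≤ 1 := by
    rw [norm_div, norm_one, div_le_one]
    · refine le_trans ?_ (abs_im_le_norm (s - 1))
      simp only [sub_im, one_im, sub_zero]
      exact h3.trans (le_abs_self _)
    · rw [norm_pos_iff, sub_ne_zero]
      exact hne
  have h7 : ‖s * ∫ u in Ioi (1 : ℝ), ((Int.fract u : ℝ) : ℂ) * (u : ℂ) ^ (-s - 1)‖ ≤
      (5 * s.im) * 16 := by
    rw [norm_mul]
    exact mul_le_mul (norm_le_im (by rw [abs_le]; constructor <;> linarith) h3) (h4.trans h5)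
          (norm_nonneg _) (by linarith)
  calc _ ≤ ‖1 + 1 / (s - 1)‖ + _ := norm_sub_le _ _
    _ ≤ (‖(1 : ℂ)‖ + ‖1 / (s - 1)‖) + (5 * s.im) * 16 := add_le_add (norm_add_le _ _) h7
    _ ≤ (1 + 1) + (5 * s.im) * 16 := by
        rw [norm_one]
        gcongr
    _ ≤ 82 * s.im := by linarith

theorem U_growth {q : ℕ} [NeZero q] {χ : DirichletCharacter ℂ q} (hχ : χ.IsPrimitive) (s : ℂ)
    (h1 : (1 / 16 : ℝ) ≤ s.re) (h2 : s.re ≤ 4) (h3 : 1 ≤ s.im) :
    ‖DirichletCharacter.LFunction χ s‖ ≤ 160 * (q * s.im) := by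
  rcases eq_or_ne χ 1 with h | h
  · have hq : q = 1 := by
      rw [h, DirichletCharacter.IsPrimitive, DirichletCharacter.conductor_one] at hχ
      exact hχ.symm
    subst hq
    rw [DirichletCharacter.LFunction_modOne_eq]
    refine (U_growth_zeta s h1 h2 h3).trans ?_
    push_cast
    linarith
  · exact U_growth_ne h s h1 h2 h3

theorem U_left : ∃ C : ℝ, 0 ≤ C ∧ ∀ (q : ℕ) [NeZero q] (χ : DirichletCharacter ℂ q),
    χ.IsPrimitive → ∀ s : ℂ, -1 / 2 ≤ s.re → s.re ≤ 1 / 2 → 1 ≤ s.im →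
    DirichletCharacter.LFunction χ s ≠ 0 →
    ‖deriv (DirichletCharacter.LFunction χ) s / DirichletCharacter.LFunction χ s +
      Real.log (q * s.im) + (starRingEnd ℂ) (deriv (DirichletCharacter.LFunction χ)
      (1 - (starRingEnd ℂ) s) / DirichletCharacter.LFunction χ (1 - (starRingEnd ℂ) s))‖ ≤ C := by
  obtain ⟨C, hC0, hC⟩ := logDeriv_Gammaℝ_bound
  refine ⟨C + C, by positivity, ?_⟩
  intro q _ χ hχ s h1 h2 h3 h4
  have hs : s.im ≠ 0 := by linarith
  have ha : AnalyticAt ℂ (DirichletCharacter.LFunction χ) (1 - (starRingEnd ℂ) s) :=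
    analyticAt_L (ne_one_of_im (by rwa [im_osc]))
  have e1 : DirichletCharacter.LFunction χ =ᶠ[𝓝 s]
      fun z => XX χ z * refl (DirichletCharacter.LFunction χ) z := by
    filter_upwards [eventually_im_ne hs] with z hz
    exact func_eq hχ hz
  have hr : refl (DirichletCharacter.LFunction χ) s ≠ 0 := by
    intro h
    apply h4
    rw [func_eq hχ hs, h, mul_zero]
  have e2 : logDeriv (DirichletCharacter.LFunction χ) s =
      logDeriv (XX χ) s + logDeriv (refl (DirichletCharacter.LFunction χ)) s := by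
    rw [(logDeriv_congr_nhds e1).eq_of_nhds]
    exact logDeriv_mul s (XX_ne_zero hχ hs) hr (analyticAt_XX hs).differentiableAt
      (analyticAt_refl ha).differentiableAt
  rw [logDeriv_refl ha.differentiableAt, logDeriv_XX hχ hs] at e2
  change ‖logDeriv (DirichletCharacter.LFunction χ) s + Real.log (q * s.im) +
    (starRingEnd ℂ) (logDeriv (DirichletCharacter.LFunction χ) (1 - (starRingEnd ℂ) s))‖ ≤ _
  rw [e2]
  have hq0 : (q : ℝ) ≠ 0 := by exact_mod_cast NeZero.ne q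
  have ha0 : 0 ≤ (H370.DL.aa χ).re ∧ (H370.DL.aa χ).re ≤ 1 := by
    unfold H370.DL.aa
    split_ifs <;> simp
  have b1 := hC (1 - s + H370.DL.aa χ) (by simp; linarith [ha0.1]) (by simp; linarith [ha0.2])
    (by simp [aa_im, abs_of_nonneg (by linarith : 0 ≤ s.im)]; exact h3)
  have b2 := hC (s + H370.DL.aa χ) (by simp; linarith [ha0.1]) (by simp; linarith [ha0.2])
    (by simp [aa_im, abs_of_nonneg (by linarith : 0 ≤ s.im)]; exact h3)
  have i1 : |(1 - s + H370.DL.aa χ).im| = s.im := by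
    simp [aa_im, abs_of_nonneg (by linarith : 0 ≤ s.im)]
  have i2 : |(s + H370.DL.aa χ).im| = s.im := by
    simp [aa_im, abs_of_nonneg (by linarith : 0 ≤ s.im)]
  rw [i1] at b1
  rw [i2] at b2
  rw [Real.log_mul hq0 hs]
  have e3 : -(Real.log q : ℂ) - logDeriv Gammaℝ (1 - s + H370.DL.aa χ) -
      logDeriv Gammaℝ (s + H370.DL.aa χ) +
      -(starRingEnd ℂ) (logDeriv (DirichletCharacter.LFunction χ) (1 - (starRingEnd ℂ) s)) +
        ((Real.log q + Real.log s.im : ℝ) : ℂ) +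
      (starRingEnd ℂ) (logDeriv (DirichletCharacter.LFunction χ) (1 - (starRingEnd ℂ) s)) =
      -(logDeriv Gammaℝ (1 - s + H370.DL.aa χ) - 1 / 2 * Real.log s.im) -
      (logDeriv Gammaℝ (s + H370.DL.aa χ) - 1 / 2 * Real.log s.im) := by
    push_cast
    ring
  rw [e3]
  refine (norm_sub_le _ _).trans (add_le_add ?_ b2)
  rw [norm_neg]
  exact b1

theorem good_dirichlet_U : ∃ A : ℝ, 1 ≤ A ∧ ∀ (q : ℕ) [NeZero q] (χ : DirichletCharacter ℂ q),
    χ.IsPrimitive →
    GoodU A q (DirichletCharacter.LFunction χ)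
      (fun n => χ (n : ZMod q) * (ArithmeticFunction.vonMangoldt n : ℂ)) := by
  obtain ⟨c, hc0, hc⟩ := U_lower
  obtain ⟨C, hC0, hC⟩ := U_left
  refine ⟨160 + c⁻¹ + C, by have := inv_pos.mpr hc0; linarith, fun q _ χ hχ => ?_⟩
  have hci := inv_pos.mpr hc0
  have hq1 : (1 : ℝ) ≤ q := by exact_mod_cast NeZero.one_le
  exact
  { an := fun s hs => analyticAt_L (ne_one_of_im hs.ne')
    growth := by
      intro s h1 h2 h3
      refine (U_growth hχ s h1 h2 h3).trans ?_
      have h4 : 1 ≤ (q : ℝ) * s.im := one_le_mul_of_one_le_of_one_le hq1 h3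
      have h5 : (q : ℝ) * s.im ≤ ((q : ℝ) * s.im) ^ (160 + c⁻¹ + C) := by
        conv_lhs => rw [← Real.rpow_one ((q : ℝ) * s.im)]
        exact Real.rpow_le_rpow_of_exponent_le h4 (by linarith)
      exact mul_le_mul (by linarith) h5 (by linarith) (by linarith)
    lower := by
      intro t _
      refine le_trans ?_ (hc q χ t)
      rw [inv_le_comm₀ (by linarith) hc0]
      linarith
    nzr := fun s h1 h2 => L_nzr h1 (by linarith)
    nzl := fun s h1 h2 => L_nzl hχ h1 (by linarith)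
    symm := fun s _ _ h => L_symm hχ (by linarith)
    ha := by
      intro n
      rw [norm_mul, Complex.norm_real, Real.norm_eq_abs,
        abs_of_nonneg ArithmeticFunction.vonMangoldt_nonneg]
      exact mul_le_of_le_one_left ArithmeticFunction.vonMangoldt_nonneg
        (DirichletCharacter.norm_le_one χ _)
    ld := fun s hs _ => U_ld χ hs
    left := by
      intro s h1 h2 h3 h4
      exact (hC q χ hχ s h1 h2 h3 h4).trans (by linarith) }

/-- same in terms of `LF`, `aa` for the primitive character inducing `χ` -/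
theorem good_LF : ∃ A : ℝ, 1 ≤ A ∧ ∀ (q : ℕ) (χ : DirichletCharacter ℂ q), 0 < q →
    GoodU A χ.conductor (LF χ.conductor χ.primitiveCharacter) (aa q χ) := by
  obtain ⟨A, hA1, hA⟩ := good_dirichlet_U
  refine ⟨A, hA1, fun q χ hq => ?_⟩
  have : NeZero q := ⟨hq.ne'⟩
  have hc : χ.conductor ≠ 0 := χ.conductor_ne_zero
  have : NeZero χ.conductor := ⟨hc⟩
  have h := hA χ.conductor χ.primitiveCharacter χ.primitiveCharacter_isPrimitive
  have e : LF χ.conductor χ.primitiveCharacter =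
      DirichletCharacter.LFunction χ.primitiveCharacter := by
    unfold LF
    rw [dif_neg hc]
  rw [e]
  exact h

end H385
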