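import Pool.Agent.H385R2.Defs

open Complex Filter Topology Set MeasureTheory

namespace H385

theorem PK_nonneg (V x : ℝ) (hV : 0 < V) : 0 ≤ PK V x := by
  unfold PK
  positivity

theorem PK_neg (V x : ℝ) : PK V (-x) = PK V x := by
  unfold PK
  simp

theorem PK_summable (V x : ℝ) (hV : 0 < V) : Summable (fun m : ℤ => PK V (x + m)) := by
  have h1 : Summable (fun m : ℤ => (4 / (Real.pi * V)) * (1 / (m : ℝ) ^ 2)) :=
    (Real.summable_one_div_int_pow.mpr (by norm_num)).mul_left _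
  refine Summable.of_norm_bounded_eventually h1 ?_
  have h2 : ∀ᶠ m : ℤ in cofinite, 2 * |x| + 1 ≤ |(m : ℝ)| := by
    have := (tendsto_norm_cocompact_atTop (E := ℝ)).comp Int.tendsto_coe_cofinite
    exact (this.eventually_ge_atTop (2 * |x| + 1)).mono (fun m hm => hm)
  filter_upwards [h2] with m hm
  have h3 : |(m : ℝ)| / 2 ≤ |x + m| := by
    have : |(m : ℝ)| ≤ |x + m| + |x| := by
      have := abs_sub (x + m) x
      simpa using this
    linarith
  have h4 : 0 < |(m : ℝ)| := by have := abs_nonneg x; linarith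
  have h5 : (m : ℝ) ^ 2 / 4 ≤ (x + m) ^ 2 := by
    have := mul_self_le_mul_self (by positivity) h3
    rw [← sq_abs (x + m), ← sq_abs (m : ℝ)]
    nlinarith
  have h6 : 0 < (m : ℝ) ^ 2 := by
    rw [← sq_abs]; positivity
  rw [Real.norm_of_nonneg (PK_nonneg V _ hV)]
  unfold PK
  rw [div_div, div_mul_div_comm, div_le_div_iff₀ (by positivity) (by positivity)]
  have h7 : 0 < Real.pi := Real.pi_pos
  have h8 : V ^ 2 * (m : ℝ) ^ 2 ≤ 4 * (1 + V ^ 2 * (x + m) ^ 2) := by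
    nlinarith [sq_nonneg V, mul_le_mul_of_nonneg_left h5 (sq_nonneg V)]
  have : V * (Real.pi * V * (m : ℝ) ^ 2) = Real.pi * (V ^ 2 * (m : ℝ) ^ 2) := by ring
  rw [this]
  calc Real.pi * (V ^ 2 * (m : ℝ) ^ 2) ≤ Real.pi * (4 * (1 + V ^ 2 * (x + m) ^ 2)) :=
        mul_le_mul_of_nonneg_left h8 h7.le
    _ = 4 * 1 * (Real.pi * (1 + V ^ 2 * (x + ↑m) ^ 2)) := by ring

/-- the function whose Fourier transform is `PK V (x + ·)` -/
noncomputable def dfun (V x t : ℝ) : ℂ :=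
  cexp (-(2 * Real.pi / V * |t| : ℝ)) * cexp (-(2 * Real.pi * I * x * t))

open FourierTransform

theorem fourier_dfun (V x w : ℝ) (hV : 0 < V) : 𝓕 (dfun V x) w = (PK V (x + w) : ℂ) := by
  have hc : 0 < 2 * Real.pi / V := by positivity
  set c : ℝ := 2 * Real.pi / V with hcdef
  rw [Real.fourier_real_eq_integral_exp_smul]
  have e1 : ∀ t ∈ Iic (0:ℝ), cexp (↑(-2 * Real.pi * t * w) * I) • dfun V x t =
      cexp (((c : ℂ) - 2 * Real.pi * I * (x + w)) * t) := by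
    intro t ht
    unfold dfun
    rw [smul_eq_mul, ← Complex.exp_add, ← Complex.exp_add, abs_of_nonpos ht, ← hcdef]
    congr 1
    push_cast
    ring
  have e2 : ∀ t ∈ Ioi (0:ℝ), cexp (↑(-2 * Real.pi * t * w) * I) • dfun V x t =
      cexp ((-(c : ℂ) - 2 * Real.pi * I * (x + w)) * t) := by
    intro t ht
    unfold dfun
    rw [smul_eq_mul, ← Complex.exp_add, ← Complex.exp_add, abs_of_pos ht, ← hcdef]
    congr 1
    push_cast
    ring
  have r1 : 0 < ((c : ℂ) - 2 * Real.pi * I * (x + w)).re := by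
    simpa using hc
  have r2 : (-(c : ℂ) - 2 * Real.pi * I * (x + w)).re < 0 := by
    simpa using hc
  have i1 : IntegrableOn (fun t : ℝ => cexp (↑(-2 * Real.pi * t * w) * I) • dfun V x t) (Iic 0) :=
    (integrableOn_exp_mul_complex_Iic r1 0).congr_fun (fun t ht => (e1 t ht).symm)
      measurableSet_Iic
  have i2 : IntegrableOn (fun t : ℝ => cexp (↑(-2 * Real.pi * t * w) * I) • dfun V x t) (Ioi 0) :=
    (integrableOn_exp_mul_complex_Ioi r2 0).congr_fun (fun t ht => (e2 t ht).symm)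
      measurableSet_Ioi
  rw [← intervalIntegral.integral_Iic_add_Ioi i1 i2, setIntegral_congr_fun measurableSet_Iic e1,
    setIntegral_congr_fun measurableSet_Ioi e2, integral_exp_mul_complex_Iic r1,
    integral_exp_mul_complex_Ioi r2]
  have n1 : ((c : ℂ) - 2 * Real.pi * I * (x + w)) ≠ 0 := by
    intro h; rw [h] at r1; simp at r1
  have n2 : (-(c : ℂ) - 2 * Real.pi * I * (x + w)) ≠ 0 := by
    intro h; rw [h] at r2; simp at r2
  simp only [ofReal_zero, mul_zero, Complex.exp_zero]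
  have n3 : (V : ℂ) ≠ 0 := by exact_mod_cast hV.ne'
  have n4 : (Real.pi : ℂ) ≠ 0 := by exact_mod_cast Real.pi_pos.ne'
  have n5 : (1 + (V:ℂ) ^ 2 * (x + w) ^ 2) ≠ 0 := by
    have : (0:ℝ) < 1 + V ^ 2 * (x + w) ^ 2 := by positivity
    exact_mod_cast this.ne'
  have hprod : ((c : ℂ) - 2 * Real.pi * I * (x + w)) * (-(c : ℂ) - 2 * Real.pi * I * (x + w)) =
      - (4 * Real.pi ^ 2 / V ^ 2 * (1 + (V:ℂ) ^ 2 * (x + w) ^ 2)) := by
    have : ((c : ℂ) - 2 * Real.pi * I * (x + w)) * (-(c : ℂ) - 2 * Real.pi * I * (x + w)) =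
      - c ^ 2 + 4 * Real.pi ^ 2 * (I ^ 2) * (x + w) ^ 2 := by ring
    rw [this, I_sq, hcdef]
    push_cast
    field_simp
    ring
  rw [div_add_div _ _ n1 n2, hprod]
  unfold PK
  push_cast
  rw [hcdef]
  push_cast
  field_simp
  ring

theorem dfun_continuous (V x : ℝ) : Continuous (dfun V x) := by
  unfold dfun
  fun_prop

theorem dfun_norm (V x t : ℝ) : ‖dfun V x t‖ = Real.exp (-(2 * Real.pi / V * |t|)) := by
  unfold dfun
  rw [norm_mul, Complex.norm_exp, Complex.norm_exp]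
  have : (-(2 * Real.pi * I * x * t) : ℂ).re = 0 := by
    simp
  rw [this]
  have h2 : (-((2 * Real.pi / V * |t| : ℝ) : ℂ)).re = -(2 * Real.pi / V * |t|) := by
    simp only [neg_re, ofReal_re]
  rw [h2]
  simp

theorem dfun_isBigO (V x : ℝ) (hV : 0 < V) :
    (dfun V x) =O[cocompact ℝ] (fun t : ℝ => |t| ^ (-(2:ℝ))) := by
  have h0 : (fun s : ℝ => Real.exp (-(2 * Real.pi / V) * s)) =O[atTop] (fun s : ℝ => s ^ (-(2:ℝ))) :=
    (isLittleO_exp_neg_mul_rpow_atTop (by positivity) _).isBigO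
  have h1 := h0.comp_tendsto (tendsto_norm_cocompact_atTop (E := ℝ))
  refine (Asymptotics.IsBigO.of_norm_left ?_)
  refine h1.congr' ?_ ?_
  · filter_upwards with t
    rw [dfun_norm]
    simp [Real.norm_eq_abs, Function.comp]
  · filter_upwards with t
    simp [Real.norm_eq_abs, Function.comp]

theorem poisson_cplx (V x : ℝ) (hV : 0 < V) :
    ∑' n : ℤ, (Real.exp (-(2 * Real.pi * |(n : ℝ)| / V)) : ℂ) * ee (n * x) =
      ((∑' m : ℤ, PK V (x + m) : ℝ) : ℂ) := by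
  have hs : Summable (fun n : ℤ => 𝓕 (dfun V (-x)) (n:ℝ)) := by
    have := PK_summable V (-x) hV
    simp only [fourier_dfun V (-x) _ hV]
    exact Complex.ofRealCLM.summable this
  have key := Real.tsum_eq_tsum_fourier_of_rpow_decay_of_summable (dfun_continuous V (-x))
    (b := 2) (by norm_num) (dfun_isBigO V (-x) hV) hs 0
  have l1 : ∑' n : ℤ, dfun V (-x) (0 + n) =
      ∑' n : ℤ, (Real.exp (-(2 * Real.pi * |(n : ℝ)| / V)) : ℂ) * ee (n * x) := by
    refine tsum_congr (fun n => ?_)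
    unfold dfun ee
    push_cast
    congr 1
    · congr 1
      rw [zero_add]
      ring
    · congr 1
      ring
  have l2 : ∑' n : ℤ, 𝓕 (dfun V (-x)) n * fourier n ((0:ℝ) : UnitAddCircle) =
      ((∑' m : ℤ, PK V (x + m) : ℝ) : ℂ) := by
    rw [Complex.ofReal_tsum, ← (Equiv.neg ℤ).tsum_eq]
    refine tsum_congr (fun n => ?_)
    rw [fourier_dfun V (-x) _ hV]
    simp only [Equiv.neg_apply, Int.cast_neg]
    rw [show -x + -(n:ℝ) = -(x + n) by ring, PK_neg]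
    simp
  rw [← l1, key, l2]

theorem poisson_summable (V x : ℝ) (hV : 0 < V) :
    Summable (fun n : ℤ => (Real.exp (-(2 * Real.pi * |(n : ℝ)| / V)) : ℂ) * ee (n * x)) := by
  have h1 : Summable (fun n : ℤ => ‖dfun V (-x) n‖) := by
    have h2 := summable_of_isBigO (Real.summable_abs_int_rpow (b := 2) (by norm_num))
      ((dfun_isBigO V (-x) hV).comp_tendsto Int.tendsto_coe_cofinite)
    exact h2.norm
  refine h1.of_norm.congr (fun n => ?_)
  unfold dfun ee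
  push_cast
  congr 1
  · congr 1
    ring
  · congr 1
    ring

theorem poisson_PK (V x : ℝ) (hV : 0 < V) :
    ∑' m : ℤ, PK V (x + m) =
      ∑' n : ℤ, Real.exp (-(2 * Real.pi * |(n : ℝ)| / V)) * Real.cos (2 * Real.pi * n * x) := by
  have h := congrArg Complex.re (poisson_cplx V x hV)
  rw [ofReal_re, Complex.re_tsum (poisson_summable V x hV)] at h
  rw [← h]
  refine tsum_congr (fun n => ?_)
  rw [re_ofReal_mul]
  congr 1
  unfold ee
  rw [show (2 * Real.pi * I * ((n * x : ℝ) : ℂ)) = ((2 * Real.pi * n * x : ℝ) : ℂ) * I by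
    push_cast; ring, Complex.exp_ofReal_mul_I_re]

theorem PKsum_nonneg (V x : ℝ) (hV : 0 < V) : 0 ≤ ∑' m : ℤ, PK V (x + m) :=
  tsum_nonneg (fun _ => PK_nonneg V _ hV)

theorem PKsum_neg (V x : ℝ) : ∑' m : ℤ, PK V (-x + m) = ∑' m : ℤ, PK V (x + m) := by
  rw [← (Equiv.neg ℤ).tsum_eq]
  refine tsum_congr (fun n => ?_)
  simp only [Equiv.neg_apply, Int.cast_neg]
  rw [← PK_neg]
  congr 1
  ring

theorem ee_add (x y : ℝ) : ee (x + y) = ee x * ee y := by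
  unfold ee
  rw [← Complex.exp_add]
  congr 1
  push_cast
  ring

theorem ee_conj (x : ℝ) : (starRingEnd ℂ) (ee x) = ee (-x) := by
  unfold ee
  rw [← Complex.exp_conj]
  congr 1
  simp only [map_mul, conj_I, conj_ofReal, map_ofNat]
  push_cast
  ring

theorem ee_norm (x : ℝ) : ‖ee x‖ = 1 := by
  unfold ee
  rw [Complex.norm_exp]
  simp

/-- the quadratic form in the dual sum, smooth version -/
theorem dual_smooth {ι : Type*} (s : Finset ι) (θ : ι → ℝ) (c : ι → ℂ) (V : ℝ) (hV : 0 < V)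
    (k : ℤ) :
    ∑' n : ℤ, Real.exp (-(2 * Real.pi * |((n - k : ℤ) : ℝ)| / V)) *
      ‖∑ i ∈ s, c i * ee (n * θ i)‖ ^ 2 ≤
    ∑ i ∈ s, ∑ j ∈ s, ‖c i‖ * ‖c j‖ * ∑' m : ℤ, PK V (θ i - θ j + m) := by
  have hterm : ∀ n : ℤ, ((Real.exp (-(2 * Real.pi * |(n : ℝ)| / V)) *
      ‖∑ i ∈ s, c i * ee ((n + k : ℤ) * θ i)‖ ^ 2 : ℝ) : ℂ) =
      ∑ i ∈ s, ∑ j ∈ s, (c i * (starRingEnd ℂ) (c j) * ee (k * (θ i - θ j))) *
        ((Real.exp (-(2 * Real.pi * |(n : ℝ)| / V)) : ℂ) * ee (n * (θ i - θ j))) := by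
    intro n
    push_cast
    rw [← Complex.ofReal_pow, ← Complex.normSq_eq_norm_sq, Complex.normSq_eq_conj_mul_self,
      mul_comm ((starRingEnd ℂ) _) _, map_sum, Finset.sum_mul_sum, Finset.mul_sum]
    refine Finset.sum_congr rfl (fun i _ => ?_)
    rw [Finset.mul_sum]
    refine Finset.sum_congr rfl (fun j _ => ?_)
    rw [map_mul, ee_conj]
    have : ee (((n + k : ℤ):ℝ) * θ i) * ee (-(((n + k : ℤ):ℝ) * θ j)) =
        ee (k * (θ i - θ j)) * ee (n * (θ i - θ j)) := by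
      rw [← ee_add, ← ee_add]
      congr 1
      push_cast
      ring
    push_cast at this
    calc _ = (c i * (starRingEnd ℂ) (c j)) * cexp (-(2 * ↑Real.pi * ((|(n:ℝ)| : ℝ) : ℂ) / ↑V)) *
          (ee ((n + k) * θ i) * ee (-((n + k) * θ j))) := by ring
      _ = _ := by rw [this]; ring
  have hsum : ∀ i j, Summable (fun n : ℤ =>
      (c i * (starRingEnd ℂ) (c j) * ee (k * (θ i - θ j))) *
        ((Real.exp (-(2 * Real.pi * |(n : ℝ)| / V)) : ℂ) * ee (n * (θ i - θ j)))) :=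
    fun i j => (poisson_summable V _ hV).mul_left _
  have h1 : ((∑' n : ℤ, Real.exp (-(2 * Real.pi * |((n - k : ℤ) : ℝ)| / V)) *
      ‖∑ i ∈ s, c i * ee (n * θ i)‖ ^ 2 : ℝ) : ℂ) =
      ∑ i ∈ s, ∑ j ∈ s, (c i * (starRingEnd ℂ) (c j) * ee (k * (θ i - θ j))) *
        ((∑' m : ℤ, PK V (θ i - θ j + m) : ℝ) : ℂ) := by
    rw [← (Equiv.addRight k).tsum_eq, Complex.ofReal_tsum]
    simp only [Equiv.coe_addRight, add_sub_cancel_right]
    rw [tsum_congr hterm, Summable.tsum_finsetSum (fun i _ => summable_sum (fun j _ => hsum i j))]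
    refine Finset.sum_congr rfl (fun i _ => ?_)
    rw [Summable.tsum_finsetSum (fun j _ => hsum i j)]
    refine Finset.sum_congr rfl (fun j _ => ?_)
    rw [tsum_mul_left, poisson_cplx V _ hV]
  have h2 : 0 ≤ ∑' n : ℤ, Real.exp (-(2 * Real.pi * |((n - k : ℤ) : ℝ)| / V)) *
      ‖∑ i ∈ s, c i * ee (n * θ i)‖ ^ 2 := tsum_nonneg (fun _ => by positivity)
  have h3 := congrArg norm h1
  rw [Complex.norm_real, Real.norm_of_nonneg h2] at h3
  rw [h3]
  refine (norm_sum_le _ _).trans (Finset.sum_le_sum (fun i _ => ?_))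
  refine (norm_sum_le _ _).trans (Finset.sum_le_sum (fun j _ => ?_))
  rw [norm_mul, norm_mul, norm_mul, ee_norm, mul_one, RCLike.norm_conj, Complex.norm_real,
    Real.norm_of_nonneg (PKsum_nonneg V _ hV)]

theorem dual_smooth_summable {ι : Type*} (s : Finset ι) (θ : ι → ℝ) (c : ι → ℂ) (V : ℝ)
    (hV : 0 < V) (k : ℤ) :
    Summable (fun n : ℤ => Real.exp (-(2 * Real.pi * |((n - k : ℤ) : ℝ)| / V)) *
      ‖∑ i ∈ s, c i * ee (n * θ i)‖ ^ 2) := by
  have h1 : Summable (fun n : ℤ => Real.exp (-(2 * Real.pi * |(n : ℝ)| / V))) := by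
    have := (poisson_summable V 0 hV).norm
    refine this.congr (fun n => ?_)
    rw [norm_mul, ee_norm, mul_one, Complex.norm_real, Real.norm_of_nonneg (Real.exp_pos _).le]
  have h2 : Summable (fun n : ℤ => Real.exp (-(2 * Real.pi * |((n - k : ℤ) : ℝ)| / V)) *
      (∑ i ∈ s, ‖c i‖) ^ 2) := by
    refine Summable.mul_right _ ?_
    exact h1.comp_injective (i := fun n : ℤ => n - k) (fun a b h => by simpa using h)
  refine Summable.of_nonneg_of_le (fun n => by positivity) (fun n => ?_) h2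
  refine mul_le_mul_of_nonneg_left ?_ (Real.exp_pos _).le
  refine pow_le_pow_left₀ (norm_nonneg _) ?_ 2
  refine (norm_sum_le _ _).trans (Finset.sum_le_sum (fun i _ => ?_))
  rw [norm_mul, ee_norm, mul_one]

/-- duality -/
theorem dual_large_sieve {ι : Type*} (s : Finset ι) (θ w : ι → ℝ) (hw : ∀ i ∈ s, 0 ≤ w i)
    (V Δ : ℝ) (hV : 0 < V) (hΔ : 0 ≤ Δ)
    (h : ∀ i ∈ s, ∑ j ∈ s, w j * ∑' m : ℤ, PK V (θ i - θ j + m) ≤ Δ) (N : ℕ) (a : ℕ → ℂ) :
    ∑ i ∈ s, w i * ‖SS N a (θ i)‖ ^ 2 ≤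
      Real.exp (Real.pi * N / V) * Δ * ∑ n ∈ Finset.Icc 1 N, ‖a n‖ ^ 2 := by
  set W : ℝ := ∑ i ∈ s, w i * ‖SS N a (θ i)‖ ^ 2 with hW
  have hW0 : 0 ≤ W := Finset.sum_nonneg (fun i hi => mul_nonneg (hw i hi) (by positivity))
  set c : ι → ℂ := fun i => (w i : ℂ) * (starRingEnd ℂ) (SS N a (θ i)) with hc
  set T : ℤ → ℂ := fun n => ∑ i ∈ s, c i * ee (n * θ i) with hT
  -- first: W = ∑ a_n T_n
  have e1 : (W : ℂ) = ∑ n ∈ Finset.Icc 1 N, a n * T (n : ℤ) := by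
    have : (W : ℂ) = ∑ i ∈ s, c i * SS N a (θ i) := by
      rw [hW]
      push_cast
      refine Finset.sum_congr rfl (fun i _ => ?_)
      simp only [hc]
      rw [mul_assoc, ← Complex.ofReal_pow, ← Complex.normSq_eq_norm_sq,
        Complex.normSq_eq_conj_mul_self]
    rw [this]
    simp only [hT, SS, Finset.mul_sum]
    rw [Finset.sum_comm]
    refine Finset.sum_congr rfl (fun n _ => Finset.sum_congr rfl (fun i _ => ?_))
    push_cast
    ring
  -- Cauchy-Schwarz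
  have e2 : W ^ 2 ≤ (∑ n ∈ Finset.Icc 1 N, ‖a n‖ ^ 2) * ∑ n ∈ Finset.Icc 1 N, ‖T (n:ℤ)‖ ^ 2 := by
    have h1 : W ≤ ∑ n ∈ Finset.Icc 1 N, ‖a n‖ * ‖T (n : ℤ)‖ := by
      have := congrArg norm e1
      rw [Complex.norm_real, Real.norm_of_nonneg hW0] at this
      rw [this]
      refine (norm_sum_le _ _).trans (Finset.sum_le_sum (fun n _ => ?_))
      rw [norm_mul]
    calc W ^ 2 ≤ (∑ n ∈ Finset.Icc 1 N, ‖a n‖ * ‖T (n : ℤ)‖) ^ 2 := pow_le_pow_left₀ hW0 h1 2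
      _ ≤ _ := Finset.sum_mul_sq_le_sq_mul_sq _ _ _
  -- majorant
  have e3 : ∑ n ∈ Finset.Icc 1 N, ‖T (n:ℤ)‖ ^ 2 ≤ Real.exp (Real.pi * N / V) *
      ∑' n : ℤ, Real.exp (-(2 * Real.pi * |((n - (((N + 1) / 2 : ℕ) : ℤ) : ℤ) : ℝ)| / V)) *
      ‖∑ i ∈ s, c i * ee (n * θ i)‖ ^ 2 := by
    have hs := dual_smooth_summable s θ c V hV (((N + 1) / 2 : ℕ) : ℤ)
    have hinj : Set.InjOn (fun n : ℕ => (n : ℤ)) (Finset.Icc 1 N : Set ℕ) :=
      fun a _ b _ hab => by simpa using hab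
    have h4 : ∑ n ∈ Finset.Icc 1 N, Real.exp (-(2 * Real.pi *
        |(((n:ℤ) - (((N + 1) / 2 : ℕ) : ℤ) : ℤ) : ℝ)| / V)) * ‖T (n:ℤ)‖ ^ 2 ≤
        ∑' n : ℤ, Real.exp (-(2 * Real.pi * |((n - (((N + 1) / 2 : ℕ) : ℤ) : ℤ) : ℝ)| / V)) *
      ‖∑ i ∈ s, c i * ee (n * θ i)‖ ^ 2 := by
      rw [← Finset.sum_image (s := Finset.Icc 1 N) (g := fun n : ℕ => (n : ℤ))
        (f := fun n : ℤ => Real.exp (-(2 * Real.pi *
        |((n - (((N + 1) / 2 : ℕ) : ℤ) : ℤ) : ℝ)| / V)) * ‖T n‖ ^ 2) hinj]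
      exact hs.sum_le_tsum _ (fun n _ => by positivity)
    refine le_trans ?_ (mul_le_mul_of_nonneg_left h4 (Real.exp_pos _).le)
    rw [Finset.mul_sum]
    refine Finset.sum_le_sum (fun n hn => ?_)
    rw [← mul_assoc, ← Real.exp_add]
    refine le_mul_of_one_le_left (by positivity) ?_
    have hn' := Finset.mem_Icc.mp hn
    have h5 : 2 * |((n:ℤ) - (((N + 1) / 2 : ℕ) : ℤ) : ℤ)| ≤ N := by
      rcases abs_cases ((n:ℤ) - (((N + 1) / 2 : ℕ) : ℤ)) with h | h <;> omega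
    have h6 : 2 * |((((n:ℤ) - (((N + 1) / 2 : ℕ) : ℤ) : ℤ)) : ℝ)| ≤ N := by exact_mod_cast h5
    have h7 : 2 * Real.pi * |((((n:ℤ) - (((N + 1) / 2 : ℕ) : ℤ) : ℤ)) : ℝ)| / V ≤
        Real.pi * N / V := by
      refine div_le_div_of_nonneg_right ?_ hV.le
      nlinarith [Real.pi_pos]
    exact Real.one_le_exp (by linarith)
  -- the quadratic form
  have hcn : ∀ i ∈ s, ‖c i‖ = w i * ‖SS N a (θ i)‖ := by
    intro i hi
    simp only [hc]
    rw [norm_mul, RCLike.norm_conj, Complex.norm_real, Real.norm_of_nonneg (hw i hi)]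
  have e4 : ∑ i ∈ s, ∑ j ∈ s, ‖c i‖ * ‖c j‖ * ∑' m : ℤ, PK V (θ i - θ j + m) ≤ Δ * W := by
    have h1 : ∑ i ∈ s, ∑ j ∈ s, ‖c i‖ * ‖c j‖ * ∑' m : ℤ, PK V (θ i - θ j + m) ≤
        ∑ i ∈ s, ∑ j ∈ s, ((w i * ‖SS N a (θ i)‖ ^ 2 * (w j * ∑' m : ℤ, PK V (θ i - θ j + m))) / 2 +
          (w j * ‖SS N a (θ j)‖ ^ 2 * (w i * ∑' m : ℤ, PK V (θ j - θ i + m))) / 2) := by
      refine Finset.sum_le_sum (fun i hi => Finset.sum_le_sum (fun j hj => ?_))
      rw [hcn i hi, hcn j hj, ← PKsum_neg V (θ j - θ i), show -(θ j - θ i) = θ i - θ j by ring]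
      have hP := PKsum_nonneg V (θ i - θ j) hV
      set P := ∑' m : ℤ, PK V (θ i - θ j + m)
      have h2 : 0 ≤ w i * w j * P := mul_nonneg (mul_nonneg (hw i hi) (hw j hj)) hP
      have h3 : 2 * (‖SS N a (θ i)‖ * ‖SS N a (θ j)‖) ≤
          ‖SS N a (θ i)‖ ^ 2 + ‖SS N a (θ j)‖ ^ 2 := by
        nlinarith [sq_nonneg (‖SS N a (θ i)‖ - ‖SS N a (θ j)‖)]
      nlinarith [mul_le_mul_of_nonneg_left h3 h2]
    refine h1.trans ?_
    simp only [Finset.sum_add_distrib]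
    have h4 : ∑ i ∈ s, ∑ j ∈ s,
        (w j * ‖SS N a (θ j)‖ ^ 2 * (w i * ∑' m : ℤ, PK V (θ j - θ i + m))) / 2 =
        ∑ i ∈ s, ∑ j ∈ s,
        (w i * ‖SS N a (θ i)‖ ^ 2 * (w j * ∑' m : ℤ, PK V (θ i - θ j + m))) / 2 :=
      Finset.sum_comm
    rw [h4, ← two_mul, hW, Finset.mul_sum, Finset.mul_sum]
    refine Finset.sum_le_sum (fun i hi => ?_)
    rw [← Finset.sum_div, ← Finset.mul_sum]
    have h5 : 0 ≤ w i * ‖SS N a (θ i)‖ ^ 2 := mul_nonneg (hw i hi) (by positivity)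
    nlinarith [mul_le_mul_of_nonneg_left (h i hi) h5]
  have e5 := dual_smooth s θ c V hV (((N + 1) / 2 : ℕ) : ℤ)
  set A : ℝ := ∑ n ∈ Finset.Icc 1 N, ‖a n‖ ^ 2 with hA
  have hA0 : 0 ≤ A := Finset.sum_nonneg (fun n _ => by positivity)
  have e6 : W ^ 2 ≤ A * (Real.exp (Real.pi * N / V) * (Δ * W)) :=
    e2.trans (mul_le_mul_of_nonneg_left (e3.trans (mul_le_mul_of_nonneg_left (e5.trans e4)
      (Real.exp_pos _).le)) hA0)
  rcases eq_or_lt_of_le hW0 with h0 | h0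
  · rw [← h0]; positivity
  · have : W * W ≤ (Real.exp (Real.pi * N / V) * Δ * A) * W := by
      calc W * W = W ^ 2 := by ring
        _ ≤ _ := e6
        _ = _ := by ring
    exact le_of_mul_le_mul_right this h0

end H385
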