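import Pool.Agent.H385R2.Defs5
import Pool.Agent.H385R2.Dual

/-! Dual large sieve for a finite measure (TEAM Q, S1; helper454). -/

open Complex Filter Topology Set MeasureTheory

namespace H385

theorem dm_ee_cont : Continuous ee := by
  unfold ee
  fun_prop

theorem dm_SS_cont (N : ℕ) (a : ℕ → ℂ) : Continuous (SS N a) := by
  unfold SS
  apply continuous_finsetSum
  intro n _
  exact continuous_const.mul (dm_ee_cont.comp (by fun_prop))

theorem dm_SS_bound (N : ℕ) (a : ℕ → ℂ) (y : ℝ) : ‖SS N a y‖ ≤ ∑ n ∈ Finset.Icc 1 N, ‖a n‖ := by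
  unfold SS
  refine (norm_sum_le _ _).trans (Finset.sum_le_sum fun n _ => ?_)
  rw [norm_mul, ee_norm, mul_one]

/-- periodised kernel -/
noncomputable def KP (V x : ℝ) : ℝ := ∑' m : ℤ, PK V (x + m)

theorem KP_nonneg (V x : ℝ) (hV : 0 < V) : 0 ≤ KP V x := PKsum_nonneg V x hV

theorem dm_exp_summable (V : ℝ) (hV : 0 < V) :
    Summable (fun n : ℤ => Real.exp (-(2 * Real.pi * |(n : ℝ)| / V))) := by
  have := (poisson_summable V 0 hV).norm
  refine this.congr (fun n => ?_)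
  rw [norm_mul, ee_norm, mul_one, Complex.norm_real, Real.norm_of_nonneg (Real.exp_pos _).le]

theorem KP_eq (V x : ℝ) (hV : 0 < V) : KP V x =
    ∑' n : ℤ, Real.exp (-(2 * Real.pi * |(n : ℝ)| / V)) * Real.cos (2 * Real.pi * n * x) :=
  poisson_PK V x hV

theorem dm_term_le (V x : ℝ) (n : ℤ) :
    ‖Real.exp (-(2 * Real.pi * |(n : ℝ)| / V)) * Real.cos (2 * Real.pi * n * x)‖ ≤
      Real.exp (-(2 * Real.pi * |(n : ℝ)| / V)) := by
  rw [norm_mul, Real.norm_of_nonneg (Real.exp_pos _).le]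
  apply mul_le_of_le_one_right (Real.exp_pos _).le
  rw [Real.norm_eq_abs]
  exact Real.abs_cos_le_one _

theorem KP_cont (V : ℝ) (hV : 0 < V) : Continuous (KP V) := by
  have h : KP V = fun x => ∑' n : ℤ, Real.exp (-(2 * Real.pi * |(n : ℝ)| / V)) *
      Real.cos (2 * Real.pi * n * x) := by
    funext x; exact KP_eq V x hV
  rw [h]
  exact continuous_tsum (fun n => by fun_prop) (dm_exp_summable V hV)
    (fun n x => dm_term_le V x n)

theorem KP_le (V x : ℝ) (hV : 0 < V) : KP V x ≤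
    ∑' n : ℤ, Real.exp (-(2 * Real.pi * |(n : ℝ)| / V)) := by
  rw [KP_eq V x hV]
  have hs := dm_exp_summable V hV
  have hs2 : Summable (fun n : ℤ => Real.exp (-(2 * Real.pi * |(n : ℝ)| / V)) *
      Real.cos (2 * Real.pi * n * x)) :=
    Summable.of_norm_bounded hs (fun n => dm_term_le V x n)
  exact hs2.tsum_le_tsum (fun n => (le_abs_self _).trans (dm_term_le V x n)) hs

theorem KP_neg (V x : ℝ) : KP V (-x) = KP V x := PKsum_neg V x

variable (ν : Measure ℝ) [IsFiniteMeasure ν]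

/-- the dual sum -/
noncomputable def dmT (N : ℕ) (a : ℕ → ℂ) (n : ℤ) : ℂ :=
  ∫ y, (starRingEnd ℂ) (SS N a y) * ee (n * y) ∂ν

/-- the quadratic form in the dual sum, smooth version, measure version -/
theorem dm_smooth (N : ℕ) (a : ℕ → ℂ) (V : ℝ) (hV : 0 < V) (k : ℤ) :
    Summable (fun n : ℤ => Real.exp (-(2 * Real.pi * |((n - k : ℤ) : ℝ)| / V)) *
      ‖dmT ν N a n‖ ^ 2) ∧
    ∑' n : ℤ, Real.exp (-(2 * Real.pi * |((n - k : ℤ) : ℝ)| / V)) * ‖dmT ν N a n‖ ^ 2 ≤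
      ∫ z : ℝ × ℝ, ‖SS N a z.1‖ * ‖SS N a z.2‖ * KP V (z.1 - z.2) ∂(ν.prod ν) := by
  set M : ℝ := ∑ n ∈ Finset.Icc 1 N, ‖a n‖ with hM
  have hM0 : 0 ≤ M := Finset.sum_nonneg fun _ _ => norm_nonneg _
  have hSc := dm_SS_cont N a
  have hSb := dm_SS_bound N a
  set G : ℤ → ℝ × ℝ → ℂ := fun n z =>
    ((starRingEnd ℂ) (SS N a z.1) * ee (n * z.1)) * (SS N a z.2 * ee (-(n * z.2))) with hG
  have hGn : ∀ (n : ℤ) (z : ℝ × ℝ), ‖G n z‖ = ‖SS N a z.1‖ * ‖SS N a z.2‖ := by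
    intro n z
    simp only [hG, norm_mul, ee_norm, mul_one, RCLike.norm_conj]
  have hGb : ∀ (n : ℤ) (z : ℝ × ℝ), ‖G n z‖ ≤ M * M := by
    intro n z
    rw [hGn]
    exact mul_le_mul (hSb _) (hSb _) (norm_nonneg _) hM0
  have hGc : ∀ n : ℤ, Continuous (G n) := by
    intro n
    have h1 : Continuous (fun z : ℝ × ℝ => SS N a z.1) := hSc.comp continuous_fst
    have h2 : Continuous (fun z : ℝ × ℝ => SS N a z.2) := hSc.comp continuous_snd
    have h3 : Continuous (fun z : ℝ × ℝ => ee (n * z.1)) := dm_ee_cont.comp (by fun_prop)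
    have h4 : Continuous (fun z : ℝ × ℝ => ee (-(n * z.2))) := dm_ee_cont.comp (by fun_prop)
    exact ((continuous_star.comp h1).mul h3).mul (h2.mul h4)
  have hTn : ∀ n : ℤ, ((‖dmT ν N a n‖ ^ 2 : ℝ) : ℂ) = ∫ z, G n z ∂(ν.prod ν) := by
    intro n
    have h1 := integral_prod_mul (μ := ν) (ν := ν)
      (fun y => (starRingEnd ℂ) (SS N a y) * ee (n * y)) (fun y => SS N a y * ee (-(n * y)))
    simp only [hG]
    rw [h1]
    have h2 : (∫ y, SS N a y * ee (-(n * y)) ∂ν) = (starRingEnd ℂ) (dmT ν N a n) := by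
      unfold dmT
      rw [← integral_conj]
      congr 1
      funext y
      rw [map_mul, Complex.conj_conj, ee_conj]
    rw [h2]
    show _ = dmT ν N a n * (starRingEnd ℂ) (dmT ν N a n)
    rw [Complex.mul_conj, Complex.normSq_eq_norm_sq]
  set E : ℤ → ℝ := fun n => Real.exp (-(2 * Real.pi * |((n - k : ℤ) : ℝ)| / V)) with hE
  have hEpos : ∀ n, 0 ≤ E n := fun n => (Real.exp_pos _).le
  have hEs : Summable E :=
    (dm_exp_summable V hV).comp_injective (i := fun n : ℤ => n - k) (fun a b h => by simpa using h)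
  -- pointwise sum
  have hpt : ∀ z : ℝ × ℝ, HasSum (fun n : ℤ => (E n : ℂ) * G n z)
      (((starRingEnd ℂ) (SS N a z.1) * SS N a z.2 * ee (k * (z.1 - z.2))) *
        (KP V (z.1 - z.2) : ℂ)) := by
    intro z
    have h1 : HasSum (fun n : ℤ => (Real.exp (-(2 * Real.pi * |(n : ℝ)| / V)) : ℂ) *
        ee (n * (z.1 - z.2))) (KP V (z.1 - z.2) : ℂ) := by
      have := (poisson_summable V (z.1 - z.2) hV).hasSum
      rwa [poisson_cplx V _ hV] at this
    have h2 := ((Equiv.subRight k).hasSum_iff.2 h1).mul_left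
      ((starRingEnd ℂ) (SS N a z.1) * SS N a z.2 * ee (k * (z.1 - z.2)))
    refine h2.congr_fun ?_ |> id
    intro n
    simp only [Function.comp, Equiv.subRight_apply, hG, hE]
    have h3 : ee (k * (z.1 - z.2)) * ee (((n - k : ℤ) : ℝ) * (z.1 - z.2)) =
        ee (n * z.1) * ee (-(n * z.2)) := by
      rw [← ee_add, ← ee_add]
      congr 1
      push_cast
      ring
    calc (Real.exp (-(2 * Real.pi * |((n - k : ℤ) : ℝ)| / V)) : ℂ) *
          ((starRingEnd ℂ) (SS N a z.1) * ee (n * z.1) * (SS N a z.2 * ee (-(n * z.2))))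
        = (starRingEnd ℂ) (SS N a z.1) * SS N a z.2 *
          (Real.exp (-(2 * Real.pi * |((n - k : ℤ) : ℝ)| / V)) : ℂ) *
          (ee (n * z.1) * ee (-(n * z.2))) := by ring
      _ = _ := by rw [← h3]; ring
  have hGi : ∀ n, Integrable (G n) (ν.prod ν) := fun n =>
    Integrable.of_bound (hGc n).aestronglyMeasurable (M * M) (Eventually.of_forall (hGb n))
  have hsum : HasSum (fun n : ℤ => ∫ z, (E n : ℂ) * G n z ∂(ν.prod ν))
      (∫ z : ℝ × ℝ, ((starRingEnd ℂ) (SS N a z.1) * SS N a z.2 * ee (k * (z.1 - z.2))) *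
        (KP V (z.1 - z.2) : ℂ) ∂(ν.prod ν)) := by
    apply hasSum_integral_of_dominated_convergence (bound := fun n _ => E n * (M * M))
    · intro n
      exact (continuous_const.mul (hGc n)).aestronglyMeasurable
    · intro n
      refine Eventually.of_forall fun z => ?_
      rw [norm_mul, Complex.norm_real, Real.norm_of_nonneg (hEpos n)]
      exact mul_le_mul_of_nonneg_left (hGb n z) (hEpos n)
    · exact Eventually.of_forall fun z => hEs.mul_right _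
    · exact integrable_const _
    · exact Eventually.of_forall hpt
  have hsum2 : HasSum (fun n : ℤ => ((E n * ‖dmT ν N a n‖ ^ 2 : ℝ) : ℂ))
      (∫ z : ℝ × ℝ, ((starRingEnd ℂ) (SS N a z.1) * SS N a z.2 * ee (k * (z.1 - z.2))) *
        (KP V (z.1 - z.2) : ℂ) ∂(ν.prod ν)) := by
    refine hsum.congr_fun ?_ |> id
    intro n
    rw [integral_const_mul, ← hTn]
    push_cast
    ring
  have hsR : Summable (fun n : ℤ => E n * ‖dmT ν N a n‖ ^ 2) := by
    have := hsum2.summable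
    exact_mod_cast (Complex.summable_ofReal).1 this
  refine ⟨hsR, ?_⟩
  have h5 := hsum2.tsum_eq
  rw [← Complex.ofReal_tsum] at h5
  have h6 : 0 ≤ ∑' n : ℤ, E n * ‖dmT ν N a n‖ ^ 2 :=
    tsum_nonneg fun n => mul_nonneg (hEpos n) (by positivity)
  have h7 := congrArg norm h5
  rw [Complex.norm_real, Real.norm_of_nonneg h6] at h7
  rw [h7]
  refine (norm_integral_le_integral_norm _).trans (le_of_eq ?_)
  congr 1
  funext z
  rw [norm_mul, norm_mul, norm_mul, ee_norm, mul_one, RCLike.norm_conj, Complex.norm_real,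
    Real.norm_of_nonneg (KP_nonneg V _ hV)]

theorem dm_quad (N : ℕ) (a : ℕ → ℂ) (V Δ : ℝ) (hV : 0 < V)
    (h : ∀ φ : ℝ, ∫ y, (∑' m : ℤ, PK V (φ - y + m)) ∂ν ≤ Δ) :
    ∫ z : ℝ × ℝ, ‖SS N a z.1‖ * ‖SS N a z.2‖ * KP V (z.1 - z.2) ∂(ν.prod ν) ≤
      Δ * ∫ y, ‖SS N a y‖ ^ 2 ∂ν := by
  set M : ℝ := ∑ n ∈ Finset.Icc 1 N, ‖a n‖ with hM
  have hM0 : 0 ≤ M := Finset.sum_nonneg fun _ _ => norm_nonneg _
  have hSc := dm_SS_cont N a
  have hSb := dm_SS_bound N a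
  set K0 : ℝ := ∑' n : ℤ, Real.exp (-(2 * Real.pi * |(n : ℝ)| / V)) with hK0
  have hK00 : 0 ≤ K0 := tsum_nonneg fun _ => (Real.exp_pos _).le
  have c1 : Continuous (fun z : ℝ × ℝ => ‖SS N a z.1‖) := (hSc.comp continuous_fst).norm
  have c2 : Continuous (fun z : ℝ × ℝ => ‖SS N a z.2‖) := (hSc.comp continuous_snd).norm
  have c3 : Continuous (fun z : ℝ × ℝ => KP V (z.1 - z.2)) :=
    (KP_cont V hV).comp (continuous_fst.sub continuous_snd)
  have hI1 : Integrable (fun z : ℝ × ℝ => ‖SS N a z.1‖ ^ 2 * KP V (z.1 - z.2)) (ν.prod ν) := by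
    apply Integrable.of_bound ((c1.pow 2).mul c3).aestronglyMeasurable (M ^ 2 * K0)
    refine Eventually.of_forall fun z => ?_
    show ‖‖SS N a z.1‖ ^ 2 * KP V (z.1 - z.2)‖ ≤ M ^ 2 * K0
    rw [Real.norm_of_nonneg (mul_nonneg (by positivity) (KP_nonneg V _ hV))]
    exact mul_le_mul (pow_le_pow_left₀ (norm_nonneg _) (hSb _) 2) (KP_le V _ hV)
      (KP_nonneg V _ hV) (by positivity)
  have hI2 : Integrable (fun z : ℝ × ℝ => ‖SS N a z.2‖ ^ 2 * KP V (z.1 - z.2)) (ν.prod ν) := by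
    apply Integrable.of_bound ((c2.pow 2).mul c3).aestronglyMeasurable (M ^ 2 * K0)
    refine Eventually.of_forall fun z => ?_
    show ‖‖SS N a z.2‖ ^ 2 * KP V (z.1 - z.2)‖ ≤ M ^ 2 * K0
    rw [Real.norm_of_nonneg (mul_nonneg (by positivity) (KP_nonneg V _ hV))]
    exact mul_le_mul (pow_le_pow_left₀ (norm_nonneg _) (hSb _) 2) (KP_le V _ hV)
      (KP_nonneg V _ hV) (by positivity)
  have hI3 : Integrable (fun z : ℝ × ℝ => ‖SS N a z.1‖ * ‖SS N a z.2‖ * KP V (z.1 - z.2))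
      (ν.prod ν) := by
    apply Integrable.of_bound ((c1.mul c2).mul c3).aestronglyMeasurable (M * M * K0)
    refine Eventually.of_forall fun z => ?_
    show ‖‖SS N a z.1‖ * ‖SS N a z.2‖ * KP V (z.1 - z.2)‖ ≤ M * M * K0
    rw [Real.norm_of_nonneg (mul_nonneg (by positivity) (KP_nonneg V _ hV))]
    exact mul_le_mul (mul_le_mul (hSb _) (hSb _) (norm_nonneg _) hM0) (KP_le V _ hV)
      (KP_nonneg V _ hV) (by positivity)
  have hSi : Integrable (fun y => ‖SS N a y‖ ^ 2) ν := by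
    apply Integrable.of_bound (hSc.norm.pow 2).aestronglyMeasurable (M ^ 2)
    refine Eventually.of_forall fun z => ?_
    show ‖‖SS N a z‖ ^ 2‖ ≤ M ^ 2
    rw [Real.norm_of_nonneg (by positivity)]
    exact pow_le_pow_left₀ (norm_nonneg _) (hSb _) 2
  have hA : ∫ z : ℝ × ℝ, ‖SS N a z.1‖ ^ 2 * KP V (z.1 - z.2) ∂(ν.prod ν) ≤
      Δ * ∫ y, ‖SS N a y‖ ^ 2 ∂ν := by
    rw [integral_prod _ hI1, ← integral_const_mul]
    apply integral_mono hI1.integral_prod_left (hSi.const_mul _)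
    intro y
    show ∫ y', ‖SS N a y‖ ^ 2 * KP V (y - y') ∂ν ≤ Δ * ‖SS N a y‖ ^ 2
    rw [integral_const_mul, mul_comm Δ]
    exact mul_le_mul_of_nonneg_left (h y) (by positivity)
  have hB : ∫ z : ℝ × ℝ, ‖SS N a z.2‖ ^ 2 * KP V (z.1 - z.2) ∂(ν.prod ν) ≤
      Δ * ∫ y, ‖SS N a y‖ ^ 2 ∂ν := by
    rw [integral_prod_symm _ hI2, ← integral_const_mul]
    apply integral_mono hI2.integral_prod_right (hSi.const_mul _)
    intro y
    show ∫ x, ‖SS N a y‖ ^ 2 * KP V (x - y) ∂ν ≤ Δ * ‖SS N a y‖ ^ 2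
    rw [integral_const_mul, mul_comm Δ]
    apply mul_le_mul_of_nonneg_left _ (by positivity)
    have e : ∀ x : ℝ, KP V (x - y) = ∑' m : ℤ, PK V (y - x + m) := by
      intro x
      rw [← KP_neg, neg_sub]
      rfl
    simp only [e]
    exact h y
  have hC : ∫ z : ℝ × ℝ, ‖SS N a z.1‖ * ‖SS N a z.2‖ * KP V (z.1 - z.2) ∂(ν.prod ν) ≤
      ∫ z : ℝ × ℝ, (1 / 2 * (‖SS N a z.1‖ ^ 2 * KP V (z.1 - z.2)) +
        1 / 2 * (‖SS N a z.2‖ ^ 2 * KP V (z.1 - z.2))) ∂(ν.prod ν) := by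
    apply integral_mono hI3 ((hI1.const_mul _).add (hI2.const_mul _))
    intro z
    show ‖SS N a z.1‖ * ‖SS N a z.2‖ * KP V (z.1 - z.2) ≤
      1 / 2 * (‖SS N a z.1‖ ^ 2 * KP V (z.1 - z.2)) + 1 / 2 * (‖SS N a z.2‖ ^ 2 * KP V (z.1 - z.2))
    have hK := KP_nonneg V (z.1 - z.2) hV
    have h3 : ‖SS N a z.1‖ * ‖SS N a z.2‖ ≤ (‖SS N a z.1‖ ^ 2 + ‖SS N a z.2‖ ^ 2) / 2 := by
      nlinarith [sq_nonneg (‖SS N a z.1‖ - ‖SS N a z.2‖)]
    have h4 := mul_le_mul_of_nonneg_right h3 hK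
    linarith
  refine hC.trans ?_
  rw [integral_add (hI1.const_mul _) (hI2.const_mul _), integral_const_mul, integral_const_mul]
  linarith

theorem dual_large_sieve_meas (V Δ : ℝ) (hV : 0 < V) (hΔ : 0 ≤ Δ)
    (h : ∀ φ : ℝ, ∫ y, (∑' m : ℤ, PK V (φ - y + m)) ∂ν ≤ Δ) (N : ℕ) (a : ℕ → ℂ) :
    ∫ y, ‖SS N a y‖ ^ 2 ∂ν ≤ Real.exp (Real.pi * N / V) * Δ * ∑ n ∈ Finset.Icc 1 N, ‖a n‖ ^ 2 := by
  set W : ℝ := ∫ y, ‖SS N a y‖ ^ 2 ∂ν with hW
  have hW0 : 0 ≤ W := integral_nonneg fun _ => by positivity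
  set M : ℝ := ∑ n ∈ Finset.Icc 1 N, ‖a n‖ with hM
  have hM0 : 0 ≤ M := Finset.sum_nonneg fun _ _ => norm_nonneg _
  have hSc := dm_SS_cont N a
  have hSb := dm_SS_bound N a
  -- first: W = ∑ a_n T_n
  have e1 : (W : ℂ) = ∑ n ∈ Finset.Icc 1 N, a n * dmT ν N a (n : ℤ) := by
    have h1 : (W : ℂ) = ∫ y, ∑ n ∈ Finset.Icc 1 N,
        a n * ((starRingEnd ℂ) (SS N a y) * ee ((n : ℤ) * y)) ∂ν := by
      rw [hW, ← integral_complex_ofReal]
      congr 1
      funext y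
      have h2 : ((‖SS N a y‖ ^ 2 : ℝ) : ℂ) = (starRingEnd ℂ) (SS N a y) * SS N a y := by
        rw [← Complex.normSq_eq_norm_sq, Complex.normSq_eq_conj_mul_self]
      have h3 : ∑ n ∈ Finset.Icc 1 N, a n * ((starRingEnd ℂ) (SS N a y) * ee ((n : ℤ) * y)) =
          (starRingEnd ℂ) (SS N a y) * SS N a y := by
        conv_rhs => rw [SS, Finset.mul_sum]
        refine Finset.sum_congr rfl fun n _ => ?_
        push_cast
        rw [SS]
        ring
      rw [h3]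
      exact h2
    rw [h1, integral_finsetSum]
    · refine Finset.sum_congr rfl fun n _ => ?_
      rw [integral_const_mul]
      rfl
    · intro n _
      apply Integrable.of_bound (C := ‖a n‖ * M)
      · exact (continuous_const.mul ((continuous_star.comp hSc).mul
          (dm_ee_cont.comp (by fun_prop)))).aestronglyMeasurable
      · refine Eventually.of_forall fun y => ?_
        rw [norm_mul, norm_mul, ee_norm, mul_one, RCLike.norm_conj]
        exact mul_le_mul_of_nonneg_left (hSb y) (norm_nonneg _)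
  -- Cauchy-Schwarz
  have e2 : W ^ 2 ≤ (∑ n ∈ Finset.Icc 1 N, ‖a n‖ ^ 2) *
      ∑ n ∈ Finset.Icc 1 N, ‖dmT ν N a (n:ℤ)‖ ^ 2 := by
    have h1 : W ≤ ∑ n ∈ Finset.Icc 1 N, ‖a n‖ * ‖dmT ν N a (n : ℤ)‖ := by
      have := congrArg norm e1
      rw [Complex.norm_real, Real.norm_of_nonneg hW0] at this
      rw [this]
      refine (norm_sum_le _ _).trans (Finset.sum_le_sum (fun n _ => ?_))
      rw [norm_mul]
    calc W ^ 2 ≤ (∑ n ∈ Finset.Icc 1 N, ‖a n‖ * ‖dmT ν N a (n : ℤ)‖) ^ 2 :=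
          pow_le_pow_left₀ hW0 h1 2
      _ ≤ _ := Finset.sum_mul_sq_le_sq_mul_sq _ _ _
  obtain ⟨hs, e5⟩ := dm_smooth ν N a V hV (((N + 1) / 2 : ℕ) : ℤ)
  -- majorant
  have e3 : ∑ n ∈ Finset.Icc 1 N, ‖dmT ν N a (n:ℤ)‖ ^ 2 ≤ Real.exp (Real.pi * N / V) *
      ∑' n : ℤ, Real.exp (-(2 * Real.pi * |((n - (((N + 1) / 2 : ℕ) : ℤ) : ℤ) : ℝ)| / V)) *
      ‖dmT ν N a n‖ ^ 2 := by
    have hinj : Set.InjOn (fun n : ℕ => (n : ℤ)) (Finset.Icc 1 N : Set ℕ) :=
      fun a _ b _ hab => by simpa using hab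
    have h4 : ∑ n ∈ Finset.Icc 1 N, Real.exp (-(2 * Real.pi *
        |(((n:ℤ) - (((N + 1) / 2 : ℕ) : ℤ) : ℤ) : ℝ)| / V)) * ‖dmT ν N a (n:ℤ)‖ ^ 2 ≤
        ∑' n : ℤ, Real.exp (-(2 * Real.pi * |((n - (((N + 1) / 2 : ℕ) : ℤ) : ℤ) : ℝ)| / V)) *
      ‖dmT ν N a n‖ ^ 2 := by
      rw [← Finset.sum_image (s := Finset.Icc 1 N) (g := fun n : ℕ => (n : ℤ))
        (f := fun n : ℤ => Real.exp (-(2 * Real.pi *
        |((n - (((N + 1) / 2 : ℕ) : ℤ) : ℤ) : ℝ)| / V)) * ‖dmT ν N a n‖ ^ 2) hinj]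
      exact hs.sum_le_tsum _ (fun n _ => by positivity)
    refine le_trans ?_ (mul_le_mul_of_nonneg_left h4 (Real.exp_pos _).le)
    rw [Finset.mul_sum]
    refine Finset.sum_le_sum (fun n hn => ?_)
    rw [← mul_assoc, ← Real.exp_add]
    refine le_mul_of_one_le_left (by positivity) ?_
    have hn' := Finset.mem_Icc.mp hn
    have h5 : 2 * |((n:ℤ) - (((N + 1) / 2 : ℕ) : ℤ) : ℤ)| ≤ N := by
      rcases abs_cases ((n:ℤ) - (((N + 1) / 2 : ℕ) : ℤ)) with h | h <;> omega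
    have h6 : 2 * |((((n:ℤ) - (((N + 1) / 2 : ℕ) : ℤ) : ℤ)) : ℝ)| ≤ N := by exact_mod_cast h5
    have h7 : 2 * Real.pi * |((((n:ℤ) - (((N + 1) / 2 : ℕ) : ℤ) : ℤ)) : ℝ)| / V ≤
        Real.pi * N / V := by
      refine div_le_div_of_nonneg_right ?_ hV.le
      nlinarith [Real.pi_pos]
    exact Real.one_le_exp (by linarith)
  have e4 := dm_quad ν N a V Δ hV h
  set A : ℝ := ∑ n ∈ Finset.Icc 1 N, ‖a n‖ ^ 2 with hA
  have hA0 : 0 ≤ A := Finset.sum_nonneg (fun n _ => by positivity)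
  have e6 : W ^ 2 ≤ A * (Real.exp (Real.pi * N / V) * (Δ * W)) :=
    e2.trans (mul_le_mul_of_nonneg_left (e3.trans (mul_le_mul_of_nonneg_left (e5.trans e4)
      (Real.exp_pos _).le)) hA0)
  rcases eq_or_lt_of_le hW0 with h0 | h0
  · rw [← h0]; positivity
  · have : W * W ≤ (Real.exp (Real.pi * N / V) * Δ * A) * W := by
      calc W * W = W ^ 2 := by ring
        _ ≤ _ := e6
        _ = _ := by ring
    exact le_of_mul_le_mul_right this h0

end H385
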