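import Pool.Agent.H385R2.GoodD
import Pool.Agent.H343R2.EFb
import Pool.Agent.H385R2.LocalD

set_option autoImplicit false
set_option maxHeartbeats 1000000

open Complex Filter Topology Set MeasureTheory

namespace H385

open H370 (zset mult NN Nd Ns rect_residue mk_eq DD D0 D0_nonneg norm_DD DD_cont)
open H343 (hhb PPb norm_hhb hhb_diff hhb_cont_line gauss_lineb tail_boundb int_boundb PPb_integral)

lemma A1_eq_D (F : ℂ → ℂ) (V1 V2 u m : ℝ) : A1 F V1 V2 u m =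
    ∑ᶠ s ∈ zset F V1 V2, (mult F s : ℂ) * hhb 2 u m s := by
  unfold A1
  congr 1
  funext s
  congr 1
  funext _
  congr 1
  unfold hhb zz
  congr 1
  · congr 1
    linear_combination (-(u : ℂ) * (s - 1 / 2)) * I_sq
  · congr 1
    push_cast
    linear_combination (-(s - 1 / 2) ^ 2 - (m : ℂ) ^ 2) * I_sq

lemma PP1_eq_D (a : ℕ → ℂ) (u m : ℝ) : PP1 a u m = PPb 2 a u m := by
  unfold PP1 PPb
  congr 1
  funext n
  norm_num

/-! ### coefficients bounded by `d Λ(n)` -/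

lemma scale_ha {d : ℝ} (hd : 1 ≤ d) {a : ℕ → ℂ}
    (ha : ∀ n, ‖a n‖ ≤ d * ArithmeticFunction.vonMangoldt n) (n : ℕ) :
    ‖a n / (d : ℂ)‖ ≤ ArithmeticFunction.vonMangoldt n := by
  have hd0 : 0 < d := by linarith
  rw [norm_div, Complex.norm_real, Real.norm_eq_abs, abs_of_pos hd0, div_le_iff₀ hd0, mul_comm]
  exact ha n

lemma DD_scale {d : ℝ} (hd : 1 ≤ d) (a : ℕ → ℂ) (s : ℂ) :
    DD a s = (d : ℂ) * DD (fun n => a n / (d : ℂ)) s := by
  have hd0 : (d : ℂ) ≠ 0 := by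
    have : d ≠ 0 := by linarith
    exact_mod_cast this
  unfold DD
  rw [← tsum_mul_left]
  refine tsum_congr fun n => ?_
  field_simp

lemma PPb_scale {d : ℝ} (hd : 1 ≤ d) (a : ℕ → ℂ) (b u t : ℝ) :
    PPb b a u t = (d : ℂ) * PPb b (fun n => a n / (d : ℂ)) u t := by
  have hd0 : (d : ℂ) ≠ 0 := by
    have : d ≠ 0 := by linarith
    exact_mod_cast this
  unfold PPb
  rw [← tsum_mul_left]
  refine tsum_congr fun n => ?_
  field_simp

lemma norm_DD_D {d : ℝ} (hd : 1 ≤ d) {a : ℕ → ℂ}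
    (ha : ∀ n, ‖a n‖ ≤ d * ArithmeticFunction.vonMangoldt n) (v : ℝ) :
    ‖DD a (⟨3 / 2, v⟩ : ℂ)‖ ≤ d * D0 := by
  have hd0 : 0 < d := by linarith
  rw [DD_scale hd, norm_mul, Complex.norm_real, Real.norm_eq_abs, abs_of_pos hd0]
  exact mul_le_mul_of_nonneg_left (norm_DD _ (scale_ha hd ha) v) hd0.le

lemma DD_cont_D {d : ℝ} (hd : 1 ≤ d) {a : ℕ → ℂ}
    (ha : ∀ n, ‖a n‖ ≤ d * ArithmeticFunction.vonMangoldt n) :
    Continuous (fun v : ℝ => DD a (⟨3 / 2, v⟩ : ℂ)) := by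
  have h : (fun v : ℝ => DD a (⟨3 / 2, v⟩ : ℂ)) =
      fun v : ℝ => (d : ℂ) * DD (fun n => a n / (d : ℂ)) (⟨3 / 2, v⟩ : ℂ) := by
    funext v
    exact DD_scale hd a _
  rw [h]
  exact continuous_const.mul (DD_cont _ (scale_ha hd ha))

lemma PPb_integral_D {d : ℝ} (hd : 1 ≤ d) (b : ℝ) (hb : 0 < b) {a : ℕ → ℂ}
    (ha : ∀ n, ‖a n‖ ≤ d * ArithmeticFunction.vonMangoldt n) (u t : ℝ) :
    (∫ v : ℝ, DD a (⟨3 / 2, v⟩ : ℂ) * hhb b u t (⟨3 / 2, v⟩ : ℂ)) =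
      Real.sqrt (2 * Real.pi / b) * PPb b a u t := by
  have h : (fun v : ℝ => DD a (⟨3 / 2, v⟩ : ℂ) * hhb b u t (⟨3 / 2, v⟩ : ℂ)) =
      fun v : ℝ => (d : ℂ) * (DD (fun n => a n / (d : ℂ)) (⟨3 / 2, v⟩ : ℂ) *
        hhb b u t (⟨3 / 2, v⟩ : ℂ)) := by
    funext v
    rw [DD_scale hd a]
    ring
  rw [h, MeasureTheory.integral_const_mul, PPb_integral b hb _ (scale_ha hd ha), PPb_scale hd a]
  ring

theorem A1_formula_of_D (d A : ℝ) (hd : 1 ≤ d) (hA : 1 ≤ A)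
    (hgh : ∃ C : ℝ, 0 < C ∧ ∀ (Q : ℝ) (F : ℂ → ℂ) (a : ℕ → ℂ),
      1 ≤ Q → GoodD d A Q F a → ∀ T : ℝ, 3 ≤ T →
      ∃ U ∈ Set.Icc T (T + 1), ∀ σ ∈ Set.Icc (-1 / 2 : ℝ) (3 / 2),
        F (⟨σ, U⟩ : ℂ) ≠ 0 ∧
          ‖deriv F (⟨σ, U⟩ : ℂ) / F (⟨σ, U⟩ : ℂ)‖ ≤ C * (Real.log (Q * T)) ^ 2) :
    ∃ C : ℝ, 0 < C ∧ ∀ (Q : ℝ) (F : ℂ → ℂ) (a : ℕ → ℂ), 1 ≤ Q →
    GoodD d A Q F a → ∀ T κ : ℝ, 3 ≤ κ → 8 * κ ≤ T →
    ∃ V1 V2 : ℝ, T - 3 * κ ≤ V1 ∧ V1 ≤ T - 3 * κ + 1 ∧ 2 * T + 3 * κ - 1 ≤ V2 ∧ V2 ≤ 2 * T + 3 * κ ∧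
      ∀ u m : ℝ, 0 ≤ u → V1 + κ ≤ m → m ≤ V2 - κ →
        ‖A1 F V1 V2 u m - (1 / (2 * Real.sqrt Real.pi) : ℝ) *
          (((d * Real.log (Q * T) : ℝ) : ℂ) * cexp (I * m * u) * Real.exp (-u ^ 2 / 4)
            - PP1 a u m)‖ ≤
        C * (Real.exp (-u) + (Real.log (Q * T)) ^ 2 * Real.exp (u - κ ^ 2 / 2)) := by
  obtain ⟨C1, hC1, hgh⟩ := hgh
  have hD0 := D0_nonneg
  obtain ⟨EB, hEBdef⟩ : ∃ x, x = Real.exp ((2 : ℝ) / 2) := ⟨_, rfl⟩
  obtain ⟨G, hGdef⟩ : ∃ x, x = Real.sqrt (Real.pi / ((2 : ℝ) / 4)) := ⟨_, rfl⟩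
  have hEB : 0 < EB := hEBdef ▸ Real.exp_pos _
  have hG0 : 0 ≤ G := hGdef ▸ Real.sqrt_nonneg _
  have hA0 : 0 < A := by linarith
  have hd0 : 0 < d := by linarith
  refine ⟨10 * C1 * EB + (d * D0) * EB * G + d * EB * G + (d + A + d * D0) * EB * G + 1,
    by positivity, ?_⟩
  intro Q F a hQ hF T κ hκ hT
  have ha := hF.ha
  have hld := hF.ld
  have hleft := hF.left
  have hTpos : 0 < T := by linarith
  have hT24 : 24 ≤ T := by linarith
  have hQT : 24 ≤ Q * T := by nlinarith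
  have hdD0 : 0 ≤ d * D0 := by positivity
  set L := Real.log (Q * T) with hL
  have hL1 : 1 ≤ L := by
    rw [hL, Real.le_log_iff_exp_le (by positivity)]
    have := Real.exp_one_lt_d9
    linarith
  obtain ⟨U1, hU1, hg1⟩ := hgh Q F a hQ hF (T - 3 * κ) (by linarith)
  obtain ⟨U2, hU2, hg2⟩ := hgh Q F a hQ hF (2 * T + 3 * κ - 1) (by linarith)
  have hU2' : U2 ≤ 2 * T + 3 * κ := by linarith [hU2.2]
  refine ⟨U1, U2, hU1.1, hU1.2, hU2.1, hU2', ?_⟩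
  intro u t hu ht1 ht2
  have hU12 : U1 < U2 := by linarith [hU1.2, hU2.1]
  have hW1 : U1 ≤ t - κ := by linarith
  have hW2 : t + κ ≤ U2 := by linarith
  have hW0 : 0 ≤ κ := by linarith
  have hU1T : 5 / 8 * T ≤ U1 := by linarith [hU1.1]
  have hU2T : U2 ≤ 19 / 8 * T := by linarith
  have hlogU1 : Real.log (Q * (T - 3 * κ)) ≤ L := by
    apply Real.log_le_log (by nlinarith)
    apply mul_le_mul_of_nonneg_left _ (by linarith)
    linarith
  have hlogU10 : 0 ≤ Real.log (Q * (T - 3 * κ)) := by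
    apply Real.log_nonneg
    nlinarith
  -- residue theorem
  have hK : ∀ s ∈ Set.Icc (-1 / 2 : ℝ) (3 / 2) ×ℂ Set.Icc U1 U2, 1 ≤ s.im ∧ U1 ≤ s.im ∧ s.im ≤ U2 ∧
      -1 / 2 ≤ s.re ∧ s.re ≤ 3 / 2 := by
    intro s hs
    obtain ⟨h1, h2⟩ := hs
    rw [mem_preimage] at h1 h2
    exact ⟨by linarith [h2.1], h2.1, h2.2, h1.1, h1.2⟩
  have hzero : ∀ s ∈ Set.Icc (-1 / 2 : ℝ) (3 / 2) ×ℂ Set.Icc U1 U2, F s = 0 →
      0 < s.re ∧ s.re < 1 ∧ U1 < s.im ∧ s.im < U2 := by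
    intro s hs h0
    obtain ⟨h1, h2, h3, h4, h5⟩ := hK s hs
    refine ⟨?_, ?_, ?_, ?_⟩
    · by_contra hc
      exact hF.nzl s (not_lt.1 hc) h1 h0
    · by_contra hc
      exact hF.nzr s (not_lt.1 hc) h1 h0
    · refine lt_of_le_of_ne h2 (fun he => ?_)
      have := (hg1 s.re ⟨h4, h5⟩).1
      rw [he] at this
      exact this h0
    · refine lt_of_le_of_ne h3 (fun he => ?_)
      have := (hg2 s.re ⟨h4, h5⟩).1
      rw [← he] at this
      exact this h0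
  have hres := (rect_residue F (hhb 2 u t) (-1 / 2) (3 / 2) U1 U2 (by norm_num) hU12
    (fun s hs => hF.an s (by linarith [(hK s hs).1])) (hhb_diff 2 u t)
    (fun s hs h0 => by
      obtain ⟨h1, h2, h3, h4⟩ := hzero s hs h0
      exact ⟨⟨by linarith, by linarith⟩, ⟨h3, h4⟩⟩)).2
  have hset : {s | s ∈ Set.Ioo (-1 / 2 : ℝ) (3 / 2) ×ℂ Set.Ioo U1 U2 ∧ F s = 0} = zset F U1 U2 := by
    ext s
    constructor
    · rintro ⟨h1, h2⟩
      obtain ⟨h3, h4, h5, h6⟩ := hzero s ⟨Ioo_subset_Icc_self h1.1, Ioo_subset_Icc_self h1.2⟩ h2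
      exact ⟨h3, h4, h5, h6.le, h2⟩
    · rintro ⟨h3, h4, h5, h6, h7⟩
      obtain ⟨k1, k2, k3, k4⟩ := hzero s ⟨⟨by linarith, by linarith⟩, ⟨h5.le, h6⟩⟩ h7
      exact ⟨⟨⟨by linarith, by linarith⟩, ⟨k3, k4⟩⟩, h7⟩
  rw [hset] at hres
  rw [← A1_eq_D] at hres
  set HB := ∫ x in (-1 / 2 : ℝ)..(3 / 2), deriv F (⟨x, U1⟩ : ℂ) / F ⟨x, U1⟩ * hhb 2 u t ⟨x, U1⟩ with hHB
  set HT := ∫ x in (-1 / 2 : ℝ)..(3 / 2), deriv F (⟨x, U2⟩ : ℂ) / F ⟨x, U2⟩ * hhb 2 u t ⟨x, U2⟩ with hHT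
  set R := ∫ y in U1..U2, deriv F (⟨3 / 2, y⟩ : ℂ) / F ⟨3 / 2, y⟩ * hhb 2 u t ⟨3 / 2, y⟩ with hR
  set Lf := ∫ y in U1..U2, deriv F (⟨-1 / 2, y⟩ : ℂ) / F ⟨-1 / 2, y⟩ * hhb 2 u t ⟨-1 / 2, y⟩ with hLf
  -- error scale
  have hδ : 0 < Real.exp (-2 * κ ^ 2 / 4) := Real.exp_pos _
  obtain ⟨Z, hZ⟩ : ∃ Z, Z = L ^ 2 * Real.exp (u - κ ^ 2 / 2) := ⟨_, rfl⟩
  have hZe : Real.exp u * (L ^ 2 * Real.exp (-2 * κ ^ 2 / 4)) = Z := by
    rw [hZ]
    have : Real.exp (u - κ ^ 2 / 2) = Real.exp u * Real.exp (-2 * κ ^ 2 / 4) := by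
      rw [← Real.exp_add]; congr 1; ring
    rw [this]; ring
  have hZ0 : 0 ≤ Z := by rw [hZ]; positivity
  have hL2 : 1 ≤ L ^ 2 := by nlinarith
  have hhor : ∀ (U : ℝ) (x : ℝ), κ ^ 2 ≤ (U - t) ^ 2 → x ∈ Set.Icc (-1 / 2 : ℝ) (3 / 2) →
      ‖hhb 2 u t (⟨x, U⟩ : ℂ)‖ ≤ Real.exp u * (EB * Real.exp (-2 * κ ^ 2 / 4)) := by
    intro U x hU hx
    rw [norm_hhb]
    have h1 : Real.exp (u * (x - 1 / 2)) ≤ Real.exp u := by
      apply Real.exp_le_exp.2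
      nlinarith [hx.2]
    have h2 : Real.exp (2 * ((x - 1 / 2) ^ 2 - (U - t) ^ 2) / 2) ≤
        EB * Real.exp (-2 * κ ^ 2 / 4) := by
      rw [hEBdef, ← Real.exp_add]
      apply Real.exp_le_exp.2
      have h5 : (x - 1 / 2) ^ 2 ≤ 1 := by
        have h3 := hx.1
        have h4 := hx.2
        nlinarith
      have h8 : 0 ≤ κ ^ 2 := by positivity
      nlinarith
    exact mul_le_mul h1 h2 (Real.exp_pos _).le (Real.exp_pos _).le
  have hHBb : ‖HB‖ ≤ 2 * C1 * EB * Z := by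
    have : ‖HB‖ ≤ (C1 * L ^ 2 * (Real.exp u * (EB * Real.exp (-2 * κ ^ 2 / 4)))) *
        |(3 / 2 : ℝ) - (-1 / 2)| := by
      apply intervalIntegral.norm_integral_le_of_norm_le_const
      intro x hx
      rw [uIoc_of_le (by norm_num)] at hx
      have hx' : x ∈ Set.Icc (-1 / 2 : ℝ) (3 / 2) := ⟨hx.1.le, hx.2⟩
      rw [norm_mul]
      apply mul_le_mul _ _ (norm_nonneg _) (by positivity)
      · refine (hg1 x hx').2.trans ?_
        apply mul_le_mul_of_nonneg_left _ hC1.le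
        exact pow_le_pow_left₀ hlogU10 hlogU1 2
      apply hhor U1 x _ hx'
      nlinarith
    rw [show |(3 / 2 : ℝ) - (-1 / 2)| = 2 by norm_num] at this
    calc ‖HB‖ ≤ _ := this
      _ = 2 * C1 * EB * (Real.exp u * (L ^ 2 * Real.exp (-2 * κ ^ 2 / 4))) := by ring
      _ = 2 * C1 * EB * Z := by rw [hZe]
  have hlog2 : Real.log (Q * (2 * T + 3 * κ - 1)) ≤ 2 * L := by
    have : Real.log (Q * (2 * T + 3 * κ - 1)) ≤ Real.log ((Q * T) ^ 2) := by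
      apply Real.log_le_log (by nlinarith)
      have h1 : Q * (2 * T + 3 * κ - 1) ≤ Q * (3 * T) := by
        apply mul_le_mul_of_nonneg_left _ (by linarith)
        linarith
      nlinarith
    rw [Real.log_pow] at this
    exact_mod_cast this
  have hlog20 : 0 ≤ Real.log (Q * (2 * T + 3 * κ - 1)) := by
    apply Real.log_nonneg
    nlinarith
  have hHTb : ‖HT‖ ≤ 8 * C1 * EB * Z := by
    have : ‖HT‖ ≤ (C1 * (2 * L) ^ 2 * (Real.exp u * (EB * Real.exp (-2 * κ ^ 2 / 4)))) *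
        |(3 / 2 : ℝ) - (-1 / 2)| := by
      apply intervalIntegral.norm_integral_le_of_norm_le_const
      intro x hx
      rw [uIoc_of_le (by norm_num)] at hx
      have hx' : x ∈ Set.Icc (-1 / 2 : ℝ) (3 / 2) := ⟨hx.1.le, hx.2⟩
      rw [norm_mul]
      apply mul_le_mul _ _ (norm_nonneg _) (by positivity)
      · refine (hg2 x hx').2.trans ?_
        apply mul_le_mul_of_nonneg_left _ hC1.le
        exact pow_le_pow_left₀ hlog20 hlog2 2
      apply hhor U2 x _ hx'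
      nlinarith
    rw [show |(3 / 2 : ℝ) - (-1 / 2)| = 2 by norm_num] at this
    calc ‖HT‖ ≤ _ := this
      _ = 8 * C1 * EB * (Real.exp u * (L ^ 2 * Real.exp (-2 * κ ^ 2 / 4))) := by ring
      _ = 8 * C1 * EB * Z := by rw [hZe]
  -- right side
  have hRD : ∀ y ∈ Icc U1 U2, deriv F (⟨3 / 2, y⟩ : ℂ) / F ⟨3 / 2, y⟩ = - DD a (⟨3 / 2, y⟩ : ℂ) := by
    intro y hy
    exact hld _ (by norm_num) (by show (1 : ℝ) ≤ y; linarith [hy.1])
  have hReq : R = - ∫ y in U1..U2, DD a (⟨3 / 2, y⟩ : ℂ) * hhb 2 u t ⟨3 / 2, y⟩ := by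
    rw [hR, ← intervalIntegral.integral_neg]
    apply intervalIntegral.integral_congr
    intro y hy
    rw [uIcc_of_le hU12.le] at hy
    simp only
    rw [hRD y hy]; ring
  have heR : ‖(∫ v : ℝ, DD a (⟨3 / 2, v⟩ : ℂ) * hhb 2 u t (⟨3 / 2, v⟩ : ℂ)) -
      ∫ y in U1..U2, DD a (⟨3 / 2, y⟩ : ℂ) * hhb 2 u t ⟨3 / 2, y⟩‖ ≤
        (d * D0) * EB * G * Z := by
    have hbd : ∀ v : ℝ, ‖DD a (⟨3 / 2, v⟩ : ℂ) * hhb 2 u t (⟨3 / 2, v⟩ : ℂ)‖ ≤
        ((d * D0) * (Real.exp u * EB)) * Real.exp (-2 * (v - t) ^ 2 / 2) := by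
      intro v
      rw [norm_mul, norm_hhb, mul_assoc]
      apply mul_le_mul (norm_DD_D hd ha v) _ (by positivity) hdD0
      have e1 : u * (3 / 2 - 1 / 2 : ℝ) = u := by ring
      have e2 : 2 * ((3 / 2 - 1 / 2 : ℝ) ^ 2 - (v - t) ^ 2) / 2 = 2 / 2 + -2 * (v - t) ^ 2 / 2 := by
        ring
      rw [e1, e2, Real.exp_add, mul_assoc, hEBdef]
    have := tail_boundb (((DD_cont_D hd ha).mul (hhb_cont_line 2 u t (3 / 2))).aestronglyMeasurable)
      (by norm_num : (0 : ℝ) < 2) (by positivity) hbd hW0 hW1 hW2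
    refine this.trans ?_
    rw [← hGdef]
    calc (d * D0) * (Real.exp u * EB) * (G * Real.exp (-2 * κ ^ 2 / 4))
        = (d * D0) * EB * G * (Real.exp u * (1 * Real.exp (-2 * κ ^ 2 / 4))) := by ring
      _ ≤ (d * D0) * EB * G * (Real.exp u * (L ^ 2 * Real.exp (-2 * κ ^ 2 / 4))) := by gcongr
      _ = (d * D0) * EB * G * Z := by rw [hZe]
  rw [PPb_integral_D hd 2 (by norm_num) ha u t] at heR
  -- left side
  have hnorml : ∀ v : ℝ, ‖hhb 2 u t (⟨-1 / 2, v⟩ : ℂ)‖ ≤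
      (Real.exp (-u) * EB) * Real.exp (-2 * (v - t) ^ 2 / 2) := by
    intro v
    rw [norm_hhb]
    have e1 : u * (-1 / 2 - 1 / 2 : ℝ) = -u := by ring
    have e2 : 2 * ((-1 / 2 - 1 / 2 : ℝ) ^ 2 - (v - t) ^ 2) / 2 = 2 / 2 + -2 * (v - t) ^ 2 / 2 := by
      ring
    rw [e1, e2, Real.exp_add, mul_assoc, hEBdef]
  have hGl : (∫ v : ℝ, hhb 2 u t (⟨-1 / 2, v⟩ : ℂ)) =
      Real.sqrt (2 * Real.pi / 2) * (cexp (I * u * t) * Real.exp (-u ^ 2 / (2 * 2))) := by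
    have h := gauss_lineb 2 (-1 / 2) u t 0 (by norm_num)
    simp only [ofReal_zero, neg_zero, zero_mul, Complex.exp_zero, mul_one, zero_div, Real.exp_zero,
      sub_zero, ofReal_one] at h
    rw [h, mul_assoc]
    congr 3; ring
  have heG : ‖(∫ v : ℝ, hhb 2 u t (⟨-1 / 2, v⟩ : ℂ)) - ∫ y in U1..U2, hhb 2 u t (⟨-1 / 2, y⟩ : ℂ)‖ ≤
      (Real.exp (-u) * EB) * (G * Real.exp (-2 * κ ^ 2 / 4)) := by
    rw [hGdef]
    exact tail_boundb (hhb_cont_line 2 u t (-1 / 2)).aestronglyMeasurable (by norm_num)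
      (by positivity) hnorml hW0 hW1 hW2
  have hLe : ‖((d * L : ℝ) : ℂ) * ((∫ v : ℝ, hhb 2 u t (⟨-1 / 2, v⟩ : ℂ)) -
      ∫ y in U1..U2, hhb 2 u t (⟨-1 / 2, y⟩ : ℂ))‖ ≤ d * EB * G * Z := by
    rw [norm_mul, Complex.norm_real, Real.norm_eq_abs,
      abs_of_nonneg (by positivity : (0:ℝ) ≤ d * L)]
    have huu : Real.exp (-u) ≤ Real.exp u := Real.exp_le_exp.2 (by linarith)
    have hLL : L ≤ L ^ 2 := by nlinarith
    calc d * L * ‖_‖ ≤ d * L * ((Real.exp (-u) * EB) * (G * Real.exp (-2 * κ ^ 2 / 4))) :=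
          mul_le_mul_of_nonneg_left heG (by positivity)
      _ = d * EB * G * (Real.exp (-u) * (L * Real.exp (-2 * κ ^ 2 / 4))) := by ring
      _ ≤ d * EB * G * (Real.exp u * (L ^ 2 * Real.exp (-2 * κ ^ 2 / 4))) := by
          apply mul_le_mul_of_nonneg_left _ (by positivity)
          apply mul_le_mul huu _ (by positivity) (by positivity)
          exact mul_le_mul_of_nonneg_right hLL hδ.le
      _ = d * EB * G * Z := by rw [hZe]
  have hFl : ∀ y ∈ Icc U1 U2, F (⟨-1 / 2, y⟩ : ℂ) ≠ 0 := by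
    intro y hy
    exact hF.nzl _ (by norm_num) (by show (1 : ℝ) ≤ y; linarith [hy.1])
  have hcontl : ContinuousOn (fun y : ℝ => deriv F (⟨-1 / 2, y⟩ : ℂ) / F ⟨-1 / 2, y⟩) (Icc U1 U2) := by
    intro y hy
    have han := hF.an (⟨-1 / 2, y⟩ : ℂ) (by show (0 : ℝ) < y; linarith [hy.1])
    have h1 : ContinuousAt (fun z => deriv F z / F z) (⟨-1 / 2, y⟩ : ℂ) :=
      han.deriv.continuousAt.div han.continuousAt (hFl y hy)
    have h2 : ContinuousAt (fun y : ℝ => (⟨-1 / 2, y⟩ : ℂ)) y := by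
      have : (fun y : ℝ => (⟨-1 / 2, y⟩ : ℂ)) = fun y : ℝ => ((-1 / 2 : ℝ) : ℂ) + y * I := by
        funext v; exact mk_eq _ v
      rw [this]; fun_prop
    exact (ContinuousAt.comp (f := fun y : ℝ => (⟨-1 / 2, y⟩ : ℂ)) (x := y) h1 h2).continuousWithinAt
  set E : ℝ → ℂ := fun y => deriv F (⟨-1 / 2, y⟩ : ℂ) / F ⟨-1 / 2, y⟩ + ((d * L : ℝ) : ℂ) with hE
  have hEb : ∀ y ∈ Icc U1 U2, ‖E y‖ ≤ d + A + d * D0 := by
    intro y hy
    have hy1 : 1 ≤ y := by linarith [hy.1]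
    have hy0 : 0 < y := by linarith
    have h1 := hleft (⟨-1 / 2, y⟩ : ℂ) (by norm_num) (by norm_num) hy1 (hFl y hy)
    have h2 : (1 : ℂ) - (starRingEnd ℂ) (⟨-1 / 2, y⟩ : ℂ) = ⟨3 / 2, y⟩ := by
      apply Complex.ext <;> simp <;> norm_num
    rw [h2, hRD y hy] at h1
    have h3 : ‖(starRingEnd ℂ) (-DD a (⟨3 / 2, y⟩ : ℂ))‖ ≤ d * D0 := by
      rw [RCLike.norm_conj, norm_neg]
      exact norm_DD_D hd ha y
    have h4 : |Real.log (Q * y) - L| ≤ 1 := by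
      have hy1' : 5 / 8 * T ≤ y := hU1T.trans hy.1
      have hy2 : y ≤ 19 / 8 * T := hy.2.trans hU2T
      have hQ0 : 0 < Q := by linarith
      have e1 : Real.log (Q * y) - L = Real.log (y / T) := by
        rw [hL, Real.log_mul hQ0.ne' hy0.ne', Real.log_mul hQ0.ne' hTpos.ne',
          Real.log_div hy0.ne' hTpos.ne']
        ring
      rw [e1, abs_le]
      have he := Real.exp_one_gt_d9
      have hyT : 0 < y / T := by positivity
      constructor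
      · rw [Real.le_log_iff_exp_le hyT, Real.exp_neg, le_div_iff₀ hTpos]
        have : (Real.exp 1)⁻¹ ≤ 5 / 8 := by
          rw [inv_le_comm₀ (Real.exp_pos _) (by norm_num)]
          linarith
        nlinarith
      · rw [Real.log_le_iff_le_exp hyT, div_le_iff₀ hTpos]
        nlinarith
    have h5 : E y = (deriv F (⟨-1 / 2, y⟩ : ℂ) / F ⟨-1 / 2, y⟩ +
        ((d * Real.log (Q * (⟨-1 / 2, y⟩ : ℂ).im) : ℝ) : ℂ) +
        (starRingEnd ℂ) (-DD a (⟨3 / 2, y⟩ : ℂ))) - (starRingEnd ℂ) (-DD a (⟨3 / 2, y⟩ : ℂ))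
        - ((d * (Real.log (Q * y) - L) : ℝ) : ℂ) := by
      simp only [hE]
      push_cast
      ring
    rw [h5]
    calc ‖_‖ ≤ _ := (norm_sub_le _ _).trans (add_le_add_left (norm_sub_le _ _) _)
      _ ≤ A + d * D0 + d * 1 := by
          apply add_le_add (add_le_add h1 h3)
          rw [Complex.norm_real, Real.norm_eq_abs, abs_mul, abs_of_pos hd0]
          exact mul_le_mul_of_nonneg_left h4 hd0.le
      _ = d + A + d * D0 := by ring
  have hcl := hhb_cont_line 2 u t (-1 / 2)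
  have hcE : ContinuousOn E (Icc U1 U2) := hcontl.add continuousOn_const
  have hLsplit : Lf = (∫ y in U1..U2, E y * hhb 2 u t (⟨-1 / 2, y⟩ : ℂ)) -
      ((d * L : ℝ) : ℂ) * ∫ y in U1..U2, hhb 2 u t (⟨-1 / 2, y⟩ : ℂ) := by
    rw [hLf, ← intervalIntegral.integral_const_mul, ← intervalIntegral.integral_sub]
    · apply intervalIntegral.integral_congr
      intro y _
      simp only [hE]
      ring
    · apply ContinuousOn.intervalIntegrable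
      rw [uIcc_of_le hU12.le]
      exact hcE.mul hcl.continuousOn
    · exact (continuous_const.mul hcl).intervalIntegrable _ _
  have heE : ‖∫ y in U1..U2, E y * hhb 2 u t (⟨-1 / 2, y⟩ : ℂ)‖ ≤
      (d + A + d * D0) * EB * G * Real.exp (-u) := by
    have := int_boundb (f := fun y => E y * hhb 2 u t (⟨-1 / 2, y⟩ : ℂ)) (b := 2)
      (K := (d + A + d * D0) * (Real.exp (-u) * EB))
      (t := t) (by norm_num) hU12.le (by positivity) (by
        intro v hv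
        rw [norm_mul, mul_assoc]
        exact mul_le_mul (hEb v (Ioc_subset_Icc_self hv)) (hnorml v) (norm_nonneg _) (by positivity))
    rw [← hGdef] at this
    refine this.trans (le_of_eq ?_)
    ring
  -- assembling
  set IR := ∫ y in U1..U2, DD a (⟨3 / 2, y⟩ : ℂ) * hhb 2 u t ⟨3 / 2, y⟩ with hIR
  set IG := ∫ y in U1..U2, hhb 2 u t (⟨-1 / 2, y⟩ : ℂ) with hIG
  set IE := ∫ y in U1..U2, E y * hhb 2 u t (⟨-1 / 2, y⟩ : ℂ) with hIE
  set GG := ∫ v : ℝ, hhb 2 u t (⟨-1 / 2, v⟩ : ℂ) with hGG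
  rw [← PP1_eq_D] at heR
  set Az := A1 F U1 U2 u t with hAz
  set P := PP1 a u t with hP
  set w : ℂ := (Real.sqrt (2 * Real.pi / 2) : ℂ) with hw
  have hwr : Real.sqrt (2 * Real.pi / 2) = Real.sqrt Real.pi := by
    congr 1; ring
  have hw1 : (((1 / (2 * Real.sqrt Real.pi) : ℝ)) : ℂ) = w / (2 * Real.pi) := by
    rw [hw, hwr]
    have : (1 / (2 * Real.sqrt Real.pi) : ℝ) = Real.sqrt Real.pi / (2 * Real.pi) := by
      have h1 : Real.sqrt Real.pi * Real.sqrt Real.pi = Real.pi :=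
        Real.mul_self_sqrt (by positivity)
      have h2 : Real.sqrt Real.pi ≠ 0 := by positivity
      have hpi : Real.pi ≠ 0 := Real.pi_ne_zero
      field_simp
      nlinarith
    rw [this]; push_cast; ring
  have hpi0 : (Real.pi : ℂ) ≠ 0 := by exact_mod_cast Real.pi_ne_zero
  have hGl' : GG = w * (cexp (I * t * u) * Real.exp (-u ^ 2 / 4)) := by
    rw [hGl]
    congr 2
    · congr 1; ring
    · norm_num
  have hmain : Az - (1 / (2 * Real.sqrt Real.pi) : ℝ) * (((d * L : ℝ) : ℂ) * cexp (I * t * u) *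
              Real.exp (-u ^ 2 / 4) - P) =
      (1 / (2 * Real.pi)) * ((-I) * (HB - HT) + (w * P - IR) -
        ((d * L : ℝ) : ℂ) * (GG - IG) - IE) := by
    have h3 : Az = (1 / (2 * Real.pi)) * ((-I) * (HB - HT) + R - Lf) := by
      have hI : I ≠ 0 := I_ne_zero
      have h4 : 2 * Real.pi * I * Az = HB - HT + I * R - I * Lf := hres.symm
      field_simp
      have h5 : I * (2 * Real.pi * Az) = I * (-(I * (HB - HT)) + R - Lf) := by
        linear_combination h4 + (HB - HT) * I_sq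
      have h6 := mul_left_cancel₀ hI h5
      linear_combination h6
    rw [hw1, h3, hReq, hLsplit, hGl']
    field_simp
    ring
  rw [hmain, norm_mul]
  have hn1 : ‖(1 / (2 * Real.pi) : ℂ)‖ ≤ 1 := by
    rw [norm_div, norm_mul]
    simp only [norm_one, Complex.norm_ofNat, Complex.norm_real, Real.norm_eq_abs, abs_of_pos Real.pi_pos]
    rw [div_le_one (by positivity)]
    have := Real.pi_gt_three
    linarith
  have hn2 : ‖(-I) * (HB - HT) + (w * P - IR) - ((d * L : ℝ) : ℂ) * (GG - IG) - IE‖ ≤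
      2 * C1 * EB * Z + 8 * C1 * EB * Z + (d * D0) * EB * G * Z +
      d * EB * G * Z + (d + A + d * D0) * EB * G * Real.exp (-u) := by
    have h1 : ‖(-I) * (HB - HT)‖ ≤ 2 * C1 * EB * Z + 8 * C1 * EB * Z := by
      rw [norm_mul, norm_neg, norm_I, one_mul]
      exact (norm_sub_le _ _).trans (add_le_add hHBb hHTb)
    calc ‖_‖ ≤ ‖(-I) * (HB - HT) + (w * P - IR) - ((d * L : ℝ) : ℂ) * (GG - IG)‖ + ‖IE‖ :=
          norm_sub_le _ _
      _ ≤ (‖(-I) * (HB - HT) + (w * P - IR)‖ + ‖((d * L : ℝ) : ℂ) * (GG - IG)‖) + ‖IE‖ := by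
          gcongr; exact norm_sub_le _ _
      _ ≤ ((‖(-I) * (HB - HT)‖ + ‖(w * P - IR)‖) + ‖((d * L : ℝ) : ℂ) * (GG - IG)‖) + ‖IE‖ := by
          gcongr; exact norm_add_le _ _
      _ ≤ _ := by gcongr
  rw [← hZ]
  calc ‖(1 / (2 * Real.pi) : ℂ)‖ * ‖_‖ ≤ 1 * _ := by
        apply mul_le_mul hn1 hn2 (norm_nonneg _) zero_le_one
    _ ≤ (10 * C1 * EB + (d * D0) * EB * G + d * EB * G + (d + A + d * D0) * EB * G + 1) *
          (Real.exp (-u) + Z) := by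
        have h1 := Real.exp_pos (-u)
        have h2 : 0 ≤ C1 * EB := by positivity
        have h3 : 0 ≤ (d * D0) * EB * G := by positivity
        have h4 : 0 ≤ d * EB * G := by positivity
        have h5 : 0 ≤ (d + A + d * D0) * EB * G := by positivity
        have e : (10 * C1 * EB + (d * D0) * EB * G + d * EB * G + (d + A + d * D0) * EB * G + 1) *
          (Real.exp (-u) + Z) - 1 * (2 * C1 * EB * Z + 8 * C1 * EB * Z + (d * D0) * EB * G * Z +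
      d * EB * G * Z + (d + A + d * D0) * EB * G * Real.exp (-u)) =
          10 * (C1 * EB) * Real.exp (-u) + ((d * D0) * EB * G) * Real.exp (-u) +
          (d * EB * G) * Real.exp (-u) + ((d + A + d * D0) * EB * G) * Z +
            (Real.exp (-u) + Z) := by ring
        have h6 : 0 ≤ 10 * (C1 * EB) * Real.exp (-u) + ((d * D0) * EB * G) * Real.exp (-u) +
          (d * EB * G) * Real.exp (-u) + ((d + A + d * D0) * EB * G) * Z +
            (Real.exp (-u) + Z) := by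
          positivity
        linarith

/-- uniform explicit formula -/
theorem A1_formula_D (d A : ℝ) (hd : 1 ≤ d) (hA : 1 ≤ A) : ∃ C : ℝ, 0 < C ∧
    ∀ (Q : ℝ) (F : ℂ → ℂ) (a : ℕ → ℂ), 1 ≤ Q →
    GoodD d A Q F a → ∀ T κ : ℝ, 3 ≤ κ → 8 * κ ≤ T →
    ∃ V1 V2 : ℝ, T - 3 * κ ≤ V1 ∧ V1 ≤ T - 3 * κ + 1 ∧ 2 * T + 3 * κ - 1 ≤ V2 ∧ V2 ≤ 2 * T + 3 * κ ∧
      ∀ u m : ℝ, 0 ≤ u → V1 + κ ≤ m → m ≤ V2 - κ →
        ‖A1 F V1 V2 u m - (1 / (2 * Real.sqrt Real.pi) : ℝ) *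
          (((d * Real.log (Q * T) : ℝ) : ℂ) * cexp (I * m * u) * Real.exp (-u ^ 2 / 4)
            - PP1 a u m)‖ ≤
        C * (Real.exp (-u) + (Real.log (Q * T)) ^ 2 * Real.exp (u - κ ^ 2 / 2)) :=
  A1_formula_of_D d A hd hA (good_height_D d A hd hA)

end H385
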