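import Pool.Agent.H385R2.Defs
import Pool.Agent.H370R2.Kern

open Complex Filter Topology Set MeasureTheory

namespace H385

/-! ## cosine window with parameter `γ` -/

namespace WinAux

lemma sin_pos {γ : ℝ} (h0 : 0 < γ) (hπ : γ < Real.pi) : 0 < Real.sin (γ / 2) :=
  Real.sin_pos_of_pos_of_lt_pi (by linarith) (by linarith)

lemma cont (γ : ℝ) : Continuous (gw γ) := by
  unfold gw
  fun_prop

/-- numerator -/
noncomputable def nn (γ a : ℝ) : ℝ :=
  (1 - a) * Real.cos (γ * a) + Real.sin (γ * (1 - a)) / γ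

lemma Rw_eq (γ α : ℝ) :
    Rw γ α = (γ / (2 * Real.sin (γ / 2))) ^ 2 * nn γ (min |α| 1) / 2 := by
  unfold Rw nn
  split_ifs with h
  · rw [min_eq_left h]
  · rw [min_eq_right (not_le.1 h).le]
    simp

lemma conv_eval (γ : ℝ) (h0 : 0 < γ) (hπ : γ < Real.pi) (a : ℝ) :
    ∫ x in (Set.Icc (-1 / 2 : ℝ) (1 / 2) ∩ Set.Icc (a - 1 / 2) (a + 1 / 2)),
    gw γ x * gw γ (a - x) = Rw γ a := by
  by_cases ha : |a| ≤ 1
  · have hset : Set.Icc (-1 / 2 : ℝ) (1 / 2) ∩ Set.Icc (a - 1 / 2) (a + 1 / 2) =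
        Set.Icc ((a - (1 - |a|)) / 2) ((a + (1 - |a|)) / 2) := by
      rw [Set.Icc_inter_Icc]
      rcases abs_cases a with ⟨h1, h2⟩ | ⟨h1, h2⟩
      · rw [h1]
        have e1 : (-1 / 2 : ℝ) ⊔ (a - 1 / 2) = (a - (1 - a)) / 2 := by
          rw [sup_eq_right.2 (by linarith)]; ring
        have e2 : (1 / 2 : ℝ) ⊓ (a + 1 / 2) = (a + (1 - a)) / 2 := by
          rw [inf_eq_left.2 (by linarith)]; ring
        rw [e1, e2]
      · rw [h1]
        have e1 : (-1 / 2 : ℝ) ⊔ (a - 1 / 2) = (a - (1 - -a)) / 2 := by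
          rw [sup_eq_left.2 (by linarith)]; ring
        have e2 : (1 / 2 : ℝ) ⊓ (a + 1 / 2) = (a + (1 - -a)) / 2 := by
          rw [inf_eq_right.2 (by linarith)]; ring
        rw [e1, e2]
    rw [hset, integral_Icc_eq_integral_Ioc, ← intervalIntegral.integral_of_le (by linarith)]
    have hsin := sin_pos h0 hπ
    set S := Real.sin (γ / 2) with hS
    have hd : ∀ x ∈ Set.uIcc ((a - (1 - |a|)) / 2) ((a + (1 - |a|)) / 2), HasDerivAt
      (fun x : ℝ => (x * Real.cos (γ * a) + Real.sin (γ * (2 * x - a)) /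
        (2 * γ)) * ((γ / (2 * S)) ^ 2 / 2)) (gw γ x * gw γ (a - x)) x := by
      intro x _
      have hx : HasDerivAt (fun x : ℝ => x) 1 x := hasDerivAt_id x
      have h1 : HasDerivAt (fun x : ℝ => γ * (2 * x - a)) (γ * 2) x := by
        simpa using ((hx.const_mul 2).sub_const a).const_mul γ
      have h2 := ((hx.mul_const (Real.cos (γ * a))).add
        (h1.sin.div_const (2 * γ))).mul_const ((γ / (2 * S)) ^ 2 / 2)
      refine h2.congr_deriv ?_
      unfold gw
      rw [← hS]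
      have e1 : Real.cos (γ * a) = Real.cos (γ * x + γ * (a - x)) := by
        congr 1; ring
      have e2 : Real.cos (γ * (2 * x - a)) =
          Real.cos (γ * x - γ * (a - x)) := by
        congr 1; ring
      rw [e1, e2, Real.cos_add, Real.cos_sub]
      field_simp
      ring
    rw [intervalIntegral.integral_eq_sub_of_hasDerivAt hd]
    · unfold Rw
      rw [if_pos ha, ← hS]
      have e1 : γ * (2 * ((a + (1 - |a|)) / 2) - a) = γ * (1 - |a|) := by ring
      have e2 : γ * (2 * ((a - (1 - |a|)) / 2) - a) = -(γ * (1 - |a|)) := by ring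
      have e3 : Real.cos (γ * a) = Real.cos (γ * |a|) := by
        rw [← Real.cos_abs, abs_mul, abs_of_pos h0]
      rw [e1, e2, Real.sin_neg, e3]
      field_simp
      ring
    · apply Continuous.intervalIntegrable
      have := cont γ
      fun_prop
  · have hset : Set.Icc (-1 / 2 : ℝ) (1 / 2) ∩ Set.Icc (a - 1 / 2) (a + 1 / 2) = ∅ := by
      rw [Set.Icc_inter_Icc]
      apply Set.Icc_eq_empty
      intro h
      apply ha
      simp only [sup_le_iff, le_inf_iff] at h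
      rw [abs_le]
      constructor <;> linarith [h.1.1, h.1.2, h.2.1, h.2.2]
    rw [hset]
    unfold Rw
    rw [if_neg ha]
    simp

end WinAux

open WinAux

theorem gw_nonneg (γ : ℝ) (h0 : 0 < γ) (hπ : γ < Real.pi) (x : ℝ) (h1 : -1 / 2 ≤ x) (h2 : x ≤ 1 / 2) :
    0 ≤ gw γ x := by
  unfold gw
  have hs := sin_pos h0 hπ
  have hc : 0 ≤ Real.cos (γ * x) :=
    Real.cos_nonneg_of_mem_Icc ⟨by nlinarith, by nlinarith⟩
  positivity

theorem kapw_even (γ : ℝ) (z : ℂ) : kapw γ (-z) = kapw γ z := by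
  unfold kapw
  have h := intervalIntegral.integral_comp_neg (a := (-1 / 2 : ℝ)) (b := 1 / 2)
    (fun x : ℝ => (gw γ x : ℂ) * cexp (I * z * x))
  have e1 : (-(1 / 2) : ℝ) = -1 / 2 := by norm_num
  have e2 : (-(-1 / 2) : ℝ) = 1 / 2 := by norm_num
  rw [e1, e2] at h
  rw [← h]
  apply intervalIntegral.integral_congr
  intro x _
  simp only
  have h1 : gw γ (-x) = gw γ x := by
    unfold gw
    rw [mul_neg, Real.cos_neg]
  rw [h1]
  congr 2
  push_cast
  ring

theorem kapw_zero (γ : ℝ) (h0 : 0 < γ) (hπ : γ < Real.pi) : kapw γ 0 = 1 := by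
  unfold kapw
  have h0' : ∀ x : ℝ, (gw γ x : ℂ) * cexp (I * 0 * x) = ((gw γ x : ℝ) : ℂ) := by
    intro x; simp
  simp_rw [h0']
  rw [intervalIntegral.integral_ofReal]
  have hs := sin_pos h0 hπ
  have h1 : ∫ x in (-1 / 2 : ℝ)..(1 / 2), gw γ x = 1 := by
    unfold gw
    rw [intervalIntegral.integral_div, intervalIntegral.integral_const_mul,
      H370.int_cos_mul _ _ _ h0.ne']
    have e1 : γ * (-1 / 2) = -(γ / 2) := by ring
    have e2 : γ * (1 / 2) = γ / 2 := by ring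
    rw [e1, e2, Real.sin_neg]
    field_simp
    ring
  rw [h1]; simp

theorem kapw_set (γ : ℝ) (z : ℂ) : kapw γ z = ∫ x : ℝ, (Set.Icc (-1 / 2 : ℝ) (1 / 2)).indicator
    (fun x : ℝ => (gw γ x : ℂ) * cexp (I * z * x)) x := by
  unfold kapw
  rw [integral_indicator measurableSet_Icc, intervalIntegral.integral_of_le (by norm_num),
    integral_Icc_eq_integral_Ioc]

theorem kapw_sq (γ : ℝ) (h0 : 0 < γ) (hπ : γ < Real.pi) (z : ℂ) :
    kapw γ z ^ 2 = ∫ α in (-1 : ℝ)..1, (Rw γ α : ℂ) * cexp (I * z * α) := by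
  set f : ℝ → ℂ := (Set.Icc (-1 / 2 : ℝ) (1 / 2)).indicator
    (fun x : ℝ => (gw γ x : ℂ) * cexp (I * z * x)) with hf
  have hcont : Continuous (fun x : ℝ => (gw γ x : ℂ) * cexp (I * z * x)) := by
    have := WinAux.cont γ
    fun_prop
  have hfi : Integrable f := by
    rw [hf, integrable_indicator_iff measurableSet_Icc]
    exact hcont.continuousOn.integrableOn_Icc
  have h1 := integral_convolution (ContinuousLinearMap.mul ℝ ℂ) (μ := volume) (ν := volume) hfi hfi
  rw [kapw_set, ← hf, pow_two]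
  rw [ContinuousLinearMap.mul_apply'] at h1
  rw [← h1]
  have h2 : ∀ a : ℝ, (convolution f f (ContinuousLinearMap.mul ℝ ℂ) volume) a =
      (Rw γ a : ℂ) * cexp (I * z * a) := by
    intro a
    rw [convolution_def]
    rw [← WinAux.conv_eval γ h0 hπ a]
    have h3 : ∀ t : ℝ, (ContinuousLinearMap.mul ℝ ℂ) (f t) (f (a - t)) =
        (Set.Icc (-1 / 2 : ℝ) (1 / 2) ∩ Set.Icc (a - 1 / 2) (a + 1 / 2)).indicator
          (fun t : ℝ => ((gw γ t * gw γ (a - t) : ℝ) : ℂ) * cexp (I * z * a)) t := by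
      intro t
      rw [ContinuousLinearMap.mul_apply', hf]
      by_cases ht : t ∈ Set.Icc (-1 / 2 : ℝ) (1 / 2)
      · by_cases ht2 : a - t ∈ Set.Icc (-1 / 2 : ℝ) (1 / 2)
        · have ht3 : t ∈ Set.Icc (-1 / 2 : ℝ) (1 / 2) ∩ Set.Icc (a - 1 / 2) (a + 1 / 2) := by
            refine ⟨ht, ?_, ?_⟩
            · have := ht2.2; linarith
            · have := ht2.1; linarith
          rw [Set.indicator_of_mem ht, Set.indicator_of_mem ht2, Set.indicator_of_mem ht3]
          have e : cexp (I * z * a) = cexp (I * z * t) * cexp (I * z * ((a - t : ℝ) : ℂ)) := by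
            rw [← Complex.exp_add]
            congr 1
            push_cast
            ring
          rw [e]
          push_cast
          ring
        · have ht3 : t ∉ Set.Icc (-1 / 2 : ℝ) (1 / 2) ∩ Set.Icc (a - 1 / 2) (a + 1 / 2) := by
            rintro ⟨_, h5, h6⟩
            apply ht2
            constructor <;> linarith
          rw [Set.indicator_of_notMem ht2, Set.indicator_of_notMem ht3, mul_zero]
      · have ht3 : t ∉ Set.Icc (-1 / 2 : ℝ) (1 / 2) ∩ Set.Icc (a - 1 / 2) (a + 1 / 2) :=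
          fun h => ht h.1
        rw [Set.indicator_of_notMem ht, Set.indicator_of_notMem ht3, zero_mul]
    simp_rw [h3]
    rw [integral_indicator (measurableSet_Icc.inter measurableSet_Icc), integral_mul_const,
      integral_complex_ofReal]
  simp_rw [h2]
  rw [intervalIntegral.integral_of_le (by norm_num), ← integral_Icc_eq_integral_Ioc,
    ← integral_indicator measurableSet_Icc]
  congr 1
  ext a
  by_cases ha : a ∈ Set.Icc (-1 : ℝ) 1
  · rw [Set.indicator_of_mem ha]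
  · rw [Set.indicator_of_notMem ha]
    have : ¬ |a| ≤ 1 := by
      rw [abs_le]; exact ha
    unfold Rw
    rw [if_neg this]
    simp

theorem Rw_even (γ α : ℝ) : Rw γ (-α) = Rw γ α := by
  unfold Rw
  rw [abs_neg]

theorem Rw_nonneg (γ : ℝ) (h0 : 0 < γ) (hπ : γ < Real.pi) (α : ℝ) : 0 ≤ Rw γ α := by
  rw [← WinAux.conv_eval γ h0 hπ α]
  apply setIntegral_nonneg (measurableSet_Icc.inter measurableSet_Icc)
  rintro x ⟨⟨h1, h2⟩, h3, h4⟩
  exact mul_nonneg (gw_nonneg γ h0 hπ x h1 h2) (gw_nonneg γ h0 hπ _ (by linarith) (by linarith))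

namespace WinAux

lemma nn_deriv (γ : ℝ) (h0 : 0 < γ) (x : ℝ) : HasDerivAt (nn γ)
    (-(2 * Real.cos (γ / 2) * Real.cos (γ * (x - 1 / 2))) - γ * (1 - x) * Real.sin (γ * x)) x := by
  have hx : HasDerivAt (fun x : ℝ => x) 1 x := hasDerivAt_id x
  have h1 : HasDerivAt (fun x : ℝ => γ * x) γ x := by simpa using hx.const_mul γ
  have h2 : HasDerivAt (fun x : ℝ => γ * (1 - x)) (-γ) x := by
    simpa using (hx.const_sub 1).const_mul γ
  have h3 : HasDerivAt (fun x : ℝ => 1 - x) (-1) x := hx.const_sub 1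
  have h4 := (h3.mul h1.cos).add (h2.sin.div_const γ)
  refine (h4.congr_deriv ?_)
  have e1 : Real.cos (γ * x) + Real.cos (γ * (1 - x)) =
      2 * Real.cos (γ / 2) * Real.cos (γ * (x - 1 / 2)) := by
    rw [Real.cos_add_cos]
    congr 2
    · congr 1; ring
    · congr 1; ring
  rw [← e1]
  field_simp
  ring

lemma nn_anti (γ : ℝ) (h0 : 0 < γ) (hπ : γ < Real.pi) : AntitoneOn (nn γ) (Set.Icc 0 1) := by
  apply antitoneOn_of_deriv_nonpos (convex_Icc 0 1)
  · exact fun x _ => (nn_deriv γ h0 x).continuousAt.continuousWithinAt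
  · exact fun x _ => (nn_deriv γ h0 x).differentiableAt.differentiableWithinAt
  · intro x hx
    rw [interior_Icc] at hx
    obtain ⟨hx0, hx1⟩ := hx
    rw [(nn_deriv γ h0 x).deriv]
    have c1 : 0 ≤ Real.cos (γ / 2) := Real.cos_nonneg_of_mem_Icc ⟨by linarith, by linarith⟩
    have c2 : 0 ≤ Real.cos (γ * (x - 1 / 2)) :=
      Real.cos_nonneg_of_mem_Icc ⟨by nlinarith, by nlinarith⟩
    have c3 : 0 ≤ Real.sin (γ * x) :=
      Real.sin_nonneg_of_nonneg_of_le_pi (by positivity) (by nlinarith)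
    have c4 : 0 ≤ 2 * Real.cos (γ / 2) * Real.cos (γ * (x - 1 / 2)) := by positivity
    have c5 : 0 ≤ γ * (1 - x) * Real.sin (γ * x) :=
      mul_nonneg (mul_nonneg h0.le (by linarith)) c3
    linarith

lemma nn_lip (γ : ℝ) (h0 : 0 < γ) {a b : ℝ} (h1 : 0 ≤ a) (h2 : a ≤ 1) :
    |nn γ a - nn γ b| ≤ (γ + 2) * |a - b| := by
  have e1 : nn γ a - nn γ b = (1 - a) * (Real.cos (γ * a) - Real.cos (γ * b))
      + (b - a) * Real.cos (γ * b)
      + (Real.sin (γ * (1 - a)) - Real.sin (γ * (1 - b))) / γ := by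
    unfold nn; ring
  have c1 : |Real.cos (γ * a) - Real.cos (γ * b)| ≤ γ * |a - b| := by
    have h := Real.abs_cos_sub_cos_le (γ * a) (γ * b)
    rwa [← mul_sub, abs_mul, abs_of_pos h0] at h
  have c2 : |Real.sin (γ * (1 - a)) - Real.sin (γ * (1 - b))| ≤ γ * |a - b| := by
    have h := Real.abs_sin_sub_sin_le (γ * (1 - a)) (γ * (1 - b))
    rw [← mul_sub, abs_mul, abs_of_pos h0] at h
    have : |1 - a - (1 - b)| = |a - b| := by
      rw [show 1 - a - (1 - b) = -(a - b) by ring, abs_neg]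
    rwa [this] at h
  rw [e1]
  have t1 := abs_add_le ((1 - a) * (Real.cos (γ * a) - Real.cos (γ * b))
      + (b - a) * Real.cos (γ * b))
      ((Real.sin (γ * (1 - a)) - Real.sin (γ * (1 - b))) / γ)
  have t2 := abs_add_le ((1 - a) * (Real.cos (γ * a) - Real.cos (γ * b)))
    ((b - a) * Real.cos (γ * b))
  have u1 : |(1 - a) * (Real.cos (γ * a) - Real.cos (γ * b))| ≤ γ * |a - b| := by
    rw [abs_mul, abs_of_nonneg (by linarith : (0 : ℝ) ≤ 1 - a)]
    nlinarith [abs_nonneg (Real.cos (γ * a) - Real.cos (γ * b))]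
  have u2 : |(b - a) * Real.cos (γ * b)| ≤ |a - b| := by
    rw [abs_mul, abs_sub_comm]
    have := Real.abs_cos_le_one (γ * b)
    nlinarith [abs_nonneg (a - b)]
  have u3 : |(Real.sin (γ * (1 - a)) - Real.sin (γ * (1 - b))) / γ| ≤ |a - b| := by
    rw [abs_div, abs_of_pos h0, div_le_iff₀ h0]
    linarith
  linarith

end WinAux

theorem Rw_antitone (γ : ℝ) (h0 : 0 < γ) (hπ : γ < Real.pi) : AntitoneOn (Rw γ) (Set.Ici 0) := by
  intro x hx y hy hxy
  have hx : (0 : ℝ) ≤ x := hx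
  have hy : (0 : ℝ) ≤ y := hy
  rw [WinAux.Rw_eq, WinAux.Rw_eq, abs_of_nonneg hx, abs_of_nonneg hy]
  have h := WinAux.nn_anti γ h0 hπ (a := min x 1) (b := min y 1)
    ⟨le_min hx zero_le_one, min_le_right _ _⟩ ⟨le_min hy zero_le_one, min_le_right _ _⟩
    (min_le_min_right 1 hxy)
  have := mul_le_mul_of_nonneg_left h (sq_nonneg (γ / (2 * Real.sin (γ / 2))))
  linarith

theorem Rw_lip (γ : ℝ) (h0 : 0 < γ) (hπ : γ < Real.pi) :
    ∃ K : ℝ, 0 < K ∧ ∀ x y, |Rw γ x - Rw γ y| ≤ K * |x - y| := by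
  have hs := sin_pos h0 hπ
  refine ⟨(γ / (2 * Real.sin (γ / 2))) ^ 2 * (γ + 2) / 2, by positivity, fun x y => ?_⟩
  rw [WinAux.Rw_eq, WinAux.Rw_eq]
  have h1 := WinAux.nn_lip γ h0 (a := min |x| 1) (b := min |y| 1)
    (le_min (abs_nonneg _) zero_le_one) (min_le_right _ _)
  have h2 : |min |x| 1 - min |y| 1| ≤ |x - y| :=
    (abs_min_sub_min_le_max _ _ _ _).trans (by simpa using abs_abs_sub_abs_le x y)
  have h3 : (γ / (2 * Real.sin (γ / 2))) ^ 2 * nn γ (min |x| 1) / 2 -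
      (γ / (2 * Real.sin (γ / 2))) ^ 2 * nn γ (min |y| 1) / 2 =
      (γ / (2 * Real.sin (γ / 2))) ^ 2 / 2 * (nn γ (min |x| 1) - nn γ (min |y| 1)) := by ring
  rw [h3, abs_mul, abs_of_nonneg (by positivity)]
  calc (γ / (2 * Real.sin (γ / 2))) ^ 2 / 2 * |nn γ (min |x| 1) - nn γ (min |y| 1)|
      ≤ (γ / (2 * Real.sin (γ / 2))) ^ 2 / 2 * ((γ + 2) * |x - y|) := by
        apply mul_le_mul_of_nonneg_left _ (by positivity)
        exact h1.trans (mul_le_mul_of_nonneg_left h2 (by linarith))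
    _ = _ := by ring

namespace WinAux

open ProbabilityTheory

noncomputable def kf (γ Λ : ℝ) (z : ℂ) (p : ℝ × ℝ) : ℂ :=
  (Real.sqrt (gw γ p.1) : ℂ) * cexp (I * z * (Λ * p.1 + p.2))

lemma kf_cont (γ Λ : ℝ) (z : ℂ) : Continuous (kf γ Λ z) := by
  unfold kf
  have := WinAux.cont γ
  fun_prop

lemma kf_memLp (γ Λ : ℝ) (z : ℂ) : MemLp (kf γ Λ z) 2 H370.GramAux.mu2 := by
  rw [memLp_two_iff_integrable_sq_norm (kf_cont γ Λ z).aestronglyMeasurable]
  have h1 : Integrable (fun x : ℝ => (Real.sqrt (gw γ x)) ^ 2 * Real.exp (-2 * z.im * Λ * x))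
      (volume.restrict (Set.Ioc (-1 / 2 : ℝ) (1 / 2))) := by
    have hc : Continuous (fun x : ℝ => (Real.sqrt (gw γ x)) ^ 2 * Real.exp (-2 * z.im * Λ * x)) := by
      have := WinAux.cont γ
      fun_prop
    exact hc.integrableOn_Ioc
  have h2 : Integrable (fun x : ℝ => Real.exp ((-2 * z.im) * x)) (gaussianReal 0 (1 / 4)) :=
    integrable_exp_mul_gaussianReal _
  have h3 := h1.mul_prod h2
  refine h3.congr ?_
  refine Filter.Eventually.of_forall (fun p => ?_)
  simp only [kf]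
  rw [norm_mul, mul_pow, Complex.norm_exp, Complex.norm_real, Real.norm_eq_abs, sq_abs, mul_assoc,
    ← Real.exp_add, ← Real.exp_nat_mul]
  congr 2
  have : (I * z * (Λ * p.1 + p.2)).re = -z.im * (Λ * p.1 + p.2) := by
    simp [Complex.mul_re, Complex.mul_im]
  rw [this]
  push_cast
  ring

lemma kf_inner (γ : ℝ) (h0 : 0 < γ) (hπ : γ < Real.pi) (Λ : ℝ) (z w : ℂ) :
    ∫ p, (starRingEnd ℂ) (kf γ Λ z p) * kf γ Λ w p ∂H370.GramAux.mu2 =
      phiw γ Λ (w - (starRingEnd ℂ) z) := by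
  set ζ := w - (starRingEnd ℂ) z with hζ
  have h1 : ∀ᵐ p ∂H370.GramAux.mu2, (starRingEnd ℂ) (kf γ Λ z p) * kf γ Λ w p =
      ((Real.sqrt (gw γ p.1) : ℂ) ^ 2 * cexp (I * (Λ * ζ) * p.1)) * cexp ((I * ζ) * p.2) := by
    refine Filter.Eventually.of_forall (fun p => ?_)
    simp only [kf, map_mul, Complex.conj_ofReal, ← Complex.exp_conj, map_add, Complex.conj_I]
    have e : cexp (-I * (starRingEnd ℂ) z * (Λ * p.1 + p.2)) * cexp (I * w * (Λ * p.1 + p.2)) =
        cexp (I * (Λ * ζ) * p.1) * cexp ((I * ζ) * p.2) := by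
      rw [← Complex.exp_add, ← Complex.exp_add]
      congr 1
      rw [hζ]
      ring
    linear_combination ((Real.sqrt (gw γ p.1) : ℂ) ^ 2) * e
  rw [integral_congr_ae h1]
  unfold H370.GramAux.mu2
  rw [integral_prod_mul (fun x : ℝ => (Real.sqrt (gw γ x) : ℂ) ^ 2 * cexp (I * (Λ * ζ) * x))
    (fun y : ℝ => cexp ((I * ζ) * y))]
  unfold phiw
  congr 1
  · unfold kapw
    rw [intervalIntegral.integral_of_le (by norm_num)]
    apply setIntegral_congr_fun measurableSet_Ioc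
    intro x hx
    simp only
    congr 1
    have := gw_nonneg γ h0 hπ x hx.1.le hx.2
    rw [← Complex.ofReal_pow, Real.sq_sqrt this]
  · have := complexMGF_id_gaussianReal (μ := 0) (v := 1 / 4) (I * ζ)
    unfold complexMGF at this
    simp only [id] at this
    rw [this]
    congr 1
    push_cast
    rw [mul_pow, Complex.I_sq]
    ring

end WinAux

theorem gram_w (γ : ℝ) (h0 : 0 < γ) (hπ : γ < Real.pi) (Λ : ℝ) :
    ∃ (E : Type) (_ : NormedAddCommGroup E) (_ : InnerProductSpace ℂ E)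
    (k : ℂ → E), ∀ z w, inner ℂ (k z) (k w) = phiw γ Λ (w - (starRingEnd ℂ) z) := by
  refine ⟨Lp ℂ 2 H370.GramAux.mu2, inferInstance, inferInstance,
    fun z => (WinAux.kf_memLp γ Λ z).toLp _, fun z w => ?_⟩
  rw [L2.inner_def, ← WinAux.kf_inner γ h0 hπ]
  apply integral_congr_ae
  filter_upwards [(WinAux.kf_memLp γ Λ z).coeFn_toLp, (WinAux.kf_memLp γ Λ w).coeFn_toLp] with p h1 h2
  rw [h1, h2, RCLike.inner_apply, mul_comm]

/-- the stage 1 constant: value `1 + cot(√2)/√2 = 1.11163...` -/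
theorem Rw_const : Rw (2 * Real.sqrt 2) 0 / 2 + 4 * ∫ α in (0 : ℝ)..1, α * Rw (2 * Real.sqrt 2) α =
    1 + Real.cot (Real.sqrt 2) / Real.sqrt 2 := by
  have hs2 : Real.sqrt 2 * Real.sqrt 2 = 2 := Real.mul_self_sqrt (by norm_num)
  have hs : Real.sqrt 2 ≠ 0 := by positivity
  have hspos : 0 < Real.sqrt 2 := by positivity
  set γ := 2 * Real.sqrt 2 with hγ
  have hγ0 : γ ≠ 0 := by positivity
  have hhalf : γ / 2 = Real.sqrt 2 := by rw [hγ]; ring
  have hsin : 0 < Real.sin (Real.sqrt 2) := by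
    apply Real.sin_pos_of_pos_of_lt_pi hspos
    have h1 : Real.sqrt 2 < 2 := by
      rw [Real.sqrt_lt' (by norm_num)]; norm_num
    have := Real.pi_gt_three
    linarith
  set K := (γ / (2 * Real.sin (γ / 2))) ^ 2 / 2 with hK
  have h1 : ∫ α in (0 : ℝ)..1, α * Rw γ α = (∫ α in (0 : ℝ)..1, α * ((1 - α) * Real.cos (γ * α) +
      Real.sin (γ * (1 - α)) / γ)) * K := by
    rw [← intervalIntegral.integral_mul_const]
    apply intervalIntegral.integral_congr
    intro x hx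
    rw [Set.uIcc_of_le zero_le_one] at hx
    simp only
    unfold Rw
    rw [abs_of_nonneg hx.1, if_pos hx.2]
    ring
  have h0 : Rw γ 0 = (1 + Real.sin γ / γ) * K := by
    unfold Rw
    simp only [abs_zero, zero_le_one, if_true, sub_zero, mul_zero, Real.cos_zero, mul_one]
    ring
  rw [h1, H370.Rf_const_aux _ hγ0, h0]
  rw [Real.cot_eq_cos_div_sin]
  have e1 : Real.sin γ = 2 * Real.sin (Real.sqrt 2) * Real.cos (Real.sqrt 2) := by
    rw [hγ, Real.sin_two_mul]
  have e2 : Real.cos γ = 1 - 2 * Real.sin (Real.sqrt 2) ^ 2 := by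
    rw [hγ, Real.cos_two_mul, Real.cos_sq']
    ring
  rw [e1, e2, hK, hhalf]
  have hγ2 : γ ^ 2 = 8 := by
    rw [hγ, mul_pow, pow_two (Real.sqrt 2), hs2]; norm_num
  have hγ3 : γ ^ 3 = 16 * Real.sqrt 2 := by
    rw [pow_succ, hγ2, hγ]; ring
  rw [hγ2, hγ3, div_pow, hγ2, hγ]
  set S := Real.sin (Real.sqrt 2)
  set C := Real.cos (Real.sqrt 2)
  have hS : S ≠ 0 := hsin.ne'
  field_simp
  ring

end H385
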