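import Pool.Agent.H385R2.PerChi
import Pool.Agent.H385R2.CutB
import Pool.Agent.H385R2.EFU
import Pool.Agent.H385R2.Win

/-!
TEAM Q, module Q15: lemmas for the abstract family theorem.
-/

open Complex Filter Topology Set MeasureTheory
open H370 (zset mult NN Nd Ns)

namespace H385

/-! ### elementary inequalities (kept outside the long proofs for speed) -/

namespace NL

theorem a1 {d l : ℝ} (hd : 1 ≤ d) (hl : 1 ≤ l) : 1 ≤ d * l :=
  one_le_mul_of_one_le_of_one_le hd hl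

theorem a2 (x : ℝ) : x ^ 2 / 2 ≤ x ^ 2 := half_le_self (sq_nonneg x)

theorem a3 {C x y : ℝ} (hC : 0 ≤ C) (h : y ≤ x) : C * (x + y) ≤ 2 * C * x := by
  have := mul_le_mul_of_nonneg_left h hC
  linarith

theorem a4 (u : ℝ) : -u ^ 2 ≤ -u ^ 2 / 2 := by
  have := sq_nonneg u
  linarith

theorem a5 {T : ℝ} (hT : 0 ≤ T) : T ≤ T * (2 * Real.pi) :=
  le_mul_of_one_le_right hT (by linarith [Real.pi_gt_three])

theorem a6 {C : ℝ} (hC : 0 ≤ C) : 1 + C ≤ (1 + C) ^ 2 :=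
  le_self_pow₀ (by linarith) two_ne_zero

theorem a7 {x y : ℝ} (hx : 0 ≤ x) (hy : 0 ≤ y) : (Real.sqrt x + Real.sqrt y) ^ 2 ≥ x + y := by
  have h1 := Real.sq_sqrt hx
  have h2 := Real.sq_sqrt hy
  have h3 := mul_nonneg (Real.sqrt_nonneg x) (Real.sqrt_nonneg y)
  have h4 : (Real.sqrt x + Real.sqrt y) ^ 2 =
      Real.sqrt x ^ 2 + Real.sqrt y ^ 2 + 2 * (Real.sqrt x * Real.sqrt y) := by ring
  rw [h4, h1, h2]
  linarith

theorem a8 {u x y : ℝ} (hu : 0 ≤ u) (hy : 0 ≤ y) : x * (u + 1) + y ≤ (u + 1) * (x + y) := by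
  have h := mul_nonneg hu hy
  linarith

theorem a9 {T C : ℝ} (hT : 1 ≤ T) (hC : 0 < C) : T + C ≤ T * (1 + C) ^ 2 := by
  have h1 : C ≤ T * C := le_mul_of_one_le_left hC.le hT
  have h2 : 0 ≤ T * C := mul_nonneg (by linarith) hC.le
  have h3 : 0 ≤ T * C ^ 2 := mul_nonneg (by linarith) (sq_nonneg C)
  linarith

theorem a10 (u : ℝ) : -u ^ 2 / 4 ≤ 0 := by
  have := sq_nonneg u
  linarith

theorem a11 {d : ℝ} (hd : 1 ≤ d) : d ≤ d ^ 2 := le_self_pow₀ hd two_ne_zero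

end NL

/-! ### elementary helpers -/

lemma fa_amgm {X Y Z : ℝ} (hX : 0 ≤ X) (hY : 0 ≤ Y)
    (h : ∀ ε : ℝ, 0 < ε → 2 * Z ≤ ε * X + ε⁻¹ * Y) : Z ≤ Real.sqrt X * Real.sqrt Y := by
  have hlim : Tendsto (fun δ : ℝ => Real.sqrt (X + δ) * Real.sqrt (Y + δ)) (𝓝[>] 0)
      (𝓝 (Real.sqrt (X + 0) * Real.sqrt (Y + 0))) := by
    apply Tendsto.mono_left _ nhdsWithin_le_nhds
    have : Continuous (fun δ : ℝ => Real.sqrt (X + δ) * Real.sqrt (Y + δ)) := by fun_prop
    exact this.tendsto 0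
  rw [add_zero, add_zero] at hlim
  refine ge_of_tendsto hlim ?_
  filter_upwards [self_mem_nhdsWithin] with δ hδ
  have hδ : 0 < δ := hδ
  have hx : 0 < X + δ := by linarith
  have hy : 0 < Y + δ := by linarith
  have sx : 0 < Real.sqrt (X + δ) := Real.sqrt_pos.mpr hx
  have sy : 0 < Real.sqrt (Y + δ) := Real.sqrt_pos.mpr hy
  have hε : 0 < Real.sqrt (Y + δ) / Real.sqrt (X + δ) := div_pos sy sx
  have h1 := h _ hε
  have e1 : Real.sqrt (Y + δ) / Real.sqrt (X + δ) * X ≤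
      Real.sqrt (X + δ) * Real.sqrt (Y + δ) := by
    have : Real.sqrt (Y + δ) / Real.sqrt (X + δ) * X ≤
        Real.sqrt (Y + δ) / Real.sqrt (X + δ) * (X + δ) := by
      apply mul_le_mul_of_nonneg_left (by linarith) hε.le
    refine this.trans (le_of_eq ?_)
    have hq := Real.mul_self_sqrt hx.le
    rw [div_mul_eq_mul_div, div_eq_iff sx.ne']
    calc Real.sqrt (Y + δ) * (X + δ) = Real.sqrt (Y + δ) *
          (Real.sqrt (X + δ) * Real.sqrt (X + δ)) := by rw [hq]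
      _ = _ := by ring
  have e2 : (Real.sqrt (Y + δ) / Real.sqrt (X + δ))⁻¹ * Y ≤
      Real.sqrt (X + δ) * Real.sqrt (Y + δ) := by
    have : (Real.sqrt (Y + δ) / Real.sqrt (X + δ))⁻¹ * Y ≤
        (Real.sqrt (Y + δ) / Real.sqrt (X + δ))⁻¹ * (Y + δ) := by
      apply mul_le_mul_of_nonneg_left (by linarith) (inv_pos.mpr hε).le
    refine this.trans (le_of_eq ?_)
    rw [inv_div]
    have hq := Real.mul_self_sqrt hy.le
    rw [div_mul_eq_mul_div, div_eq_iff sy.ne']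
    calc Real.sqrt (X + δ) * (Y + δ) = Real.sqrt (X + δ) *
          (Real.sqrt (Y + δ) * Real.sqrt (Y + δ)) := by rw [hq]
      _ = _ := by ring
  linarith

lemma fa_mul_int {f g : ℝ → ℝ} (hf : Continuous f) (hg : Continuous g)
    (hf2 : Integrable (fun t => f t ^ 2)) (hg2 : Integrable (fun t => g t ^ 2)) :
    Integrable (fun t => f t * g t) := by
  refine Integrable.mono' (hf2.add hg2) (hf.mul hg).aestronglyMeasurable ?_
  filter_upwards with t
  simp only [Pi.add_apply, Real.norm_eq_abs, abs_mul]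
  nlinarith [sq_nonneg (|f t| - |g t|), sq_abs (f t), sq_abs (g t), abs_nonneg (f t),
    abs_nonneg (g t), mul_nonneg (abs_nonneg (f t)) (abs_nonneg (g t))]

/-- Cauchy-Schwarz for a weighted family -/
lemma fa_cross {ι : Type} (s : Finset ι) (ω : ι → ℝ) (hω : ∀ i ∈ s, 0 ≤ ω i)
    (f g : ι → ℝ → ℝ) (hf : ∀ i ∈ s, Continuous (f i)) (hg : ∀ i ∈ s, Continuous (g i))
    (hf2 : ∀ i ∈ s, Integrable (fun t => f i t ^ 2))
    (hg2 : ∀ i ∈ s, Integrable (fun t => g i t ^ 2)) {X Y : ℝ}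
    (hX : ∑ i ∈ s, ω i * ∫ t, f i t ^ 2 ≤ X) (hY : ∑ i ∈ s, ω i * ∫ t, g i t ^ 2 ≤ Y) :
    ∑ i ∈ s, ω i * ∫ t, f i t * g i t ≤ Real.sqrt X * Real.sqrt Y := by
  have hX0 : 0 ≤ X := le_trans (Finset.sum_nonneg fun i hi =>
    mul_nonneg (hω i hi) (integral_nonneg fun t => sq_nonneg _)) hX
  have hY0 : 0 ≤ Y := le_trans (Finset.sum_nonneg fun i hi =>
    mul_nonneg (hω i hi) (integral_nonneg fun t => sq_nonneg _)) hY
  apply fa_amgm hX0 hY0
  intro ε hε
  have key : ∀ i ∈ s, 2 * (ω i * ∫ t, f i t * g i t) ≤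
      ε * (ω i * ∫ t, f i t ^ 2) + ε⁻¹ * (ω i * ∫ t, g i t ^ 2) := by
    intro i hi
    have h1 : 2 * ∫ t, f i t * g i t ≤ ε * (∫ t, f i t ^ 2) + ε⁻¹ * ∫ t, g i t ^ 2 := by
      rw [← integral_const_mul, ← integral_const_mul, ← integral_const_mul, ← integral_add
        ((hf2 i hi).const_mul _) ((hg2 i hi).const_mul _)]
      apply integral_mono ((fa_mul_int (hf i hi) (hg i hi) (hf2 i hi) (hg2 i hi)).const_mul _)
        (((hf2 i hi).const_mul _).add ((hg2 i hi).const_mul _))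
      intro t
      simp only [Pi.add_apply]
      have h3 : 0 ≤ ε⁻¹ * (ε * f i t - g i t) ^ 2 := by positivity
      have h4 : ε⁻¹ * (ε * f i t - g i t) ^ 2 =
          ε * f i t ^ 2 + ε⁻¹ * g i t ^ 2 - 2 * (f i t * g i t) := by
        field_simp
        ring
      linarith
    have h2 := mul_le_mul_of_nonneg_left h1 (hω i hi)
    calc 2 * (ω i * ∫ t, f i t * g i t) = ω i * (2 * ∫ t, f i t * g i t) := by ring
      _ ≤ _ := h2
      _ = _ := by ring
  calc 2 * ∑ i ∈ s, ω i * ∫ t, f i t * g i t = ∑ i ∈ s, 2 * (ω i * ∫ t, f i t * g i t) := by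
        rw [Finset.mul_sum]
    _ ≤ ∑ i ∈ s, (ε * (ω i * ∫ t, f i t ^ 2) + ε⁻¹ * (ω i * ∫ t, g i t ^ 2)) :=
        Finset.sum_le_sum key
    _ = ε * (∑ i ∈ s, ω i * ∫ t, f i t ^ 2) + ε⁻¹ * ∑ i ∈ s, ω i * ∫ t, g i t ^ 2 := by
        rw [Finset.sum_add_distrib, Finset.mul_sum, Finset.mul_sum]
    _ ≤ ε * X + ε⁻¹ * Y := by gcongr

/-- Minkowski for three weighted families -/
lemma fa_mink {ι : Type} (s : Finset ι) (ω : ι → ℝ) (hω : ∀ i ∈ s, 0 ≤ ω i)
    (f g h : ι → ℝ → ℝ) (hf : ∀ i ∈ s, Continuous (f i)) (hg : ∀ i ∈ s, Continuous (g i))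
    (hh : ∀ i ∈ s, Continuous (h i))
    (hf2 : ∀ i ∈ s, Integrable (fun t => f i t ^ 2))
    (hg2 : ∀ i ∈ s, Integrable (fun t => g i t ^ 2))
    (hh2 : ∀ i ∈ s, Integrable (fun t => h i t ^ 2)) {X Y Z : ℝ}
    (hX : ∑ i ∈ s, ω i * ∫ t, f i t ^ 2 ≤ X) (hY : ∑ i ∈ s, ω i * ∫ t, g i t ^ 2 ≤ Y)
    (hZ : ∑ i ∈ s, ω i * ∫ t, h i t ^ 2 ≤ Z) :
    (∀ i ∈ s, Integrable (fun t => (f i t + g i t + h i t) ^ 2)) ∧
    ∑ i ∈ s, ω i * ∫ t, (f i t + g i t + h i t) ^ 2 ≤
      X + Y + Z + 2 * (Real.sqrt X * Real.sqrt Y + Real.sqrt X * Real.sqrt Z +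
        Real.sqrt Y * Real.sqrt Z) := by
  have c1 := fa_cross s ω hω f g hf hg hf2 hg2 hX hY
  have c2 := fa_cross s ω hω f h hf hh hf2 hh2 hX hZ
  have c3 := fa_cross s ω hω g h hg hh hg2 hh2 hY hZ
  have hexp : ∀ i, (fun t => (f i t + g i t + h i t) ^ 2) = fun t =>
      f i t ^ 2 + g i t ^ 2 + h i t ^ 2 + 2 * (f i t * g i t) + 2 * (f i t * h i t) +
        2 * (g i t * h i t) := by
    intro i; funext t; ring
  have i1 := fun i hi => fa_mul_int (hf i hi) (hg i hi) (hf2 i hi) (hg2 i hi)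
  have i2 := fun i hi => fa_mul_int (hf i hi) (hh i hi) (hf2 i hi) (hh2 i hi)
  have i3 := fun i hi => fa_mul_int (hg i hi) (hh i hi) (hg2 i hi) (hh2 i hi)
  refine ⟨?_, ?_⟩
  · intro i hi
    rw [hexp i]
    exact (((((hf2 i hi).add (hg2 i hi)).add (hh2 i hi)).add ((i1 i hi).const_mul 2)).add
      ((i2 i hi).const_mul 2)).add ((i3 i hi).const_mul 2)
  · have : ∑ i ∈ s, ω i * ∫ t, (f i t + g i t + h i t) ^ 2 =
        (∑ i ∈ s, ω i * ∫ t, f i t ^ 2) + (∑ i ∈ s, ω i * ∫ t, g i t ^ 2) +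
        (∑ i ∈ s, ω i * ∫ t, h i t ^ 2) + 2 * (∑ i ∈ s, ω i * ∫ t, f i t * g i t) +
        2 * (∑ i ∈ s, ω i * ∫ t, f i t * h i t) + 2 * (∑ i ∈ s, ω i * ∫ t, g i t * h i t) := by
      rw [Finset.mul_sum, Finset.mul_sum, Finset.mul_sum, ← Finset.sum_add_distrib,
        ← Finset.sum_add_distrib, ← Finset.sum_add_distrib, ← Finset.sum_add_distrib,
        ← Finset.sum_add_distrib]
      apply Finset.sum_congr rfl
      intro i hi
      rw [hexp i]
      have a1 : Integrable (fun t => f i t ^ 2 + g i t ^ 2) := (hf2 i hi).add (hg2 i hi)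
      have a2 : Integrable (fun t => f i t ^ 2 + g i t ^ 2 + h i t ^ 2) := a1.add (hh2 i hi)
      have a3 : Integrable (fun t => f i t ^ 2 + g i t ^ 2 + h i t ^ 2 +
        2 * (f i t * g i t)) := a2.add ((i1 i hi).const_mul 2)
      have a4 : Integrable (fun t => f i t ^ 2 + g i t ^ 2 + h i t ^ 2 +
        2 * (f i t * g i t) + 2 * (f i t * h i t)) := a3.add ((i2 i hi).const_mul 2)
      rw [integral_add a4 ((i3 i hi).const_mul 2), integral_add a3 ((i2 i hi).const_mul 2),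
        integral_add a2 ((i1 i hi).const_mul 2), integral_add a1 (hh2 i hi),
        integral_add (hf2 i hi) (hg2 i hi), integral_const_mul, integral_const_mul,
        integral_const_mul]
      ring
    rw [this]
    linarith

/-! ### the prime sum -/

/-- the prime side -/
noncomputable def Pf (a : ℕ → ℂ) (T u t : ℝ) : ℂ :=
  ∑' n : ℕ, a n * ((Real.sqrt n : ℂ)⁻¹ * bt T u t (Real.log n))

lemma fa_gauss (u : ℝ) (n : ℕ) : Real.exp (-(u - Real.log n) ^ 2 / 4) ≤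
    Real.exp (3 * |u| + 16) * ((n : ℝ) ^ 3)⁻¹ ∨ n = 0 := by
  rcases Nat.eq_zero_or_pos n with h | h
  · right; exact h
  left
  have hn : (0 : ℝ) < n := by exact_mod_cast h
  have : ((n : ℝ) ^ 3)⁻¹ = Real.exp (-(3 * Real.log n)) := by
    rw [Real.exp_neg]
    congr 1
    rw [mul_comm, Real.exp_mul, Real.exp_log hn]
    norm_cast
  rw [this, ← Real.exp_add]
  apply Real.exp_le_exp.mpr
  have h1 : u ≤ |u| := le_abs_self u
  nlinarith [sq_nonneg (Real.log n - u - 6)]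

lemma fa_term_summable (u : ℝ) : Summable (fun n : ℕ =>
    ArithmeticFunction.vonMangoldt n * ((Real.sqrt n)⁻¹ *
      (1 / Real.sqrt (2 * Real.pi) * Real.exp (-(u - Real.log n) ^ 2 / 4)))) := by
  have hs : Summable (fun n : ℕ => Real.exp (3 * |u| + 16) * ((n : ℝ) ^ 2)⁻¹) :=
    (Real.summable_nat_pow_inv.mpr (by norm_num)).mul_left _
  refine Summable.of_nonneg_of_le ?_ ?_ hs
  · intro n
    have := @ArithmeticFunction.vonMangoldt_nonneg n
    positivity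
  · intro n
    rcases fa_gauss u n with h | h
    swap
    · subst h; simp
    rcases Nat.eq_zero_or_pos n with hn0 | hn0
    · subst hn0; simp
    have hn : (1 : ℝ) ≤ n := by exact_mod_cast hn0
    have h1 : ArithmeticFunction.vonMangoldt n ≤ (n : ℝ) :=
      ArithmeticFunction.vonMangoldt_le_log.trans
        ((Real.log_le_sub_one_of_pos (by linarith)).trans (by linarith))
    have h2 : (Real.sqrt n)⁻¹ ≤ 1 := by
      apply inv_le_one_of_one_le₀
      rw [Real.one_le_sqrt]; exact hn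
    have h3 : 1 / Real.sqrt (2 * Real.pi) ≤ 1 := by
      rw [div_le_one (by positivity), Real.one_le_sqrt]
      linarith [Real.pi_gt_three]
    calc ArithmeticFunction.vonMangoldt n * ((Real.sqrt n)⁻¹ *
      (1 / Real.sqrt (2 * Real.pi) * Real.exp (-(u - Real.log n) ^ 2 / 4)))
        ≤ (n : ℝ) * (1 * (1 * (Real.exp (3 * |u| + 16) * ((n : ℝ) ^ 3)⁻¹))) := by
          gcongr
      _ = Real.exp (3 * |u| + 16) * ((n : ℝ) ^ 2)⁻¹ := by
          field_simp

lemma fa_term_bound {a : ℕ → ℂ} (ha : ∀ n, ‖a n‖ ≤ ArithmeticFunction.vonMangoldt n)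
    (T u t : ℝ) (hT : 0 ≤ T) (n : ℕ) :
    ‖a n * ((Real.sqrt n : ℂ)⁻¹ * bt T u t (Real.log n))‖ ≤
      (ArithmeticFunction.vonMangoldt n * ((Real.sqrt n)⁻¹ *
      (1 / Real.sqrt (2 * Real.pi) * Real.exp (-(u - Real.log n) ^ 2 / 4)))) * wt T t := by
  rw [norm_mul, norm_mul, norm_inv, Complex.norm_real, Real.norm_eq_abs,
    abs_of_nonneg (Real.sqrt_nonneg _)]
  have h1 := bt_norm T u t (Real.log n) hT
  have h2 := wt_nonneg T t hT
  calc ‖a n‖ * ((Real.sqrt n)⁻¹ * ‖bt T u t (Real.log n)‖) ≤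
      ArithmeticFunction.vonMangoldt n * ((Real.sqrt n)⁻¹ *
        (1 / Real.sqrt (2 * Real.pi) * Real.exp (-(u - Real.log n) ^ 2 / 4) * wt T t)) := by
        gcongr
        exact ha n
    _ = _ := by ring

lemma fa_bt_cont (T u ℓ : ℝ) : Continuous (fun t : ℝ => bt T u t ℓ) := by
  have h0 := bt_cont T ℓ
  have h1 : Continuous (fun t : ℝ => ((u, t) : ℝ × ℝ)) := by fun_prop
  have h2 := h0.comp h1
  simpa only [Function.comp_def] using h2

lemma fa_Pf_cont {a : ℕ → ℂ} (ha : ∀ n, ‖a n‖ ≤ ArithmeticFunction.vonMangoldt n)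
    (T u : ℝ) (hT : 0 ≤ T) : Continuous (fun t => Pf a T u t) := by
  unfold Pf
  refine continuous_tsum ?_ (fa_term_summable u) ?_
  · intro n
    exact continuous_const.mul (continuous_const.mul (fa_bt_cont T u _))
  · intro n t
    refine (fa_term_bound ha T u t hT n).trans ?_
    have h1 := wt_le_one T t hT
    have h2 : 0 ≤ ArithmeticFunction.vonMangoldt n * ((Real.sqrt n)⁻¹ *
      (1 / Real.sqrt (2 * Real.pi) * Real.exp (-(u - Real.log n) ^ 2 / 4))) := by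
      have := @ArithmeticFunction.vonMangoldt_nonneg n
      positivity
    nlinarith

lemma fa_Pf_int {a : ℕ → ℂ} (ha : ∀ n, ‖a n‖ ≤ ArithmeticFunction.vonMangoldt n)
    (T u : ℝ) (hT : 0 ≤ T) : Integrable (fun t => ‖Pf a T u t‖ ^ 2) := by
  obtain ⟨C, hC, hw⟩ := wt_sq_int
  have hwi := (hw T hT).1
  set G := ∑' n : ℕ, ArithmeticFunction.vonMangoldt n * ((Real.sqrt n)⁻¹ *
      (1 / Real.sqrt (2 * Real.pi) * Real.exp (-(u - Real.log n) ^ 2 / 4))) with hG
  refine Integrable.mono' (hwi.const_mul (G ^ 2))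
    ((fa_Pf_cont ha T u hT).norm.pow 2).aestronglyMeasurable ?_
  filter_upwards with t
  rw [Real.norm_eq_abs, abs_of_nonneg (sq_nonneg _), ← mul_pow]
  apply pow_le_pow_left₀ (norm_nonneg _)
  unfold Pf
  have hs := (fa_term_summable u).mul_right (wt T t)
  refine (norm_tsum_le_tsum_norm ?_).trans ?_
  · exact Summable.of_nonneg_of_le (fun n => norm_nonneg _)
      (fun n => fa_term_bound ha T u t hT n) hs
  · rw [hG, ← tsum_mul_right]
    exact Summable.tsum_le_tsum (fun n => fa_term_bound ha T u t hT n)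
      (Summable.of_nonneg_of_le (fun n => norm_nonneg _)
      (fun n => fa_term_bound ha T u t hT n) hs) hs


/-! ### the main bound for fixed `u` -/

lemma fa_arith1 (u : ℝ) :
    Real.exp (-u ^ 2 / 4) * Real.sqrt (u + 1) ≤ Real.exp 1 * Real.exp (-u / 2) := by
  have h1 : Real.sqrt (u + 1) ≤ Real.exp (u / 2) := by
    rw [Real.sqrt_le_left (Real.exp_pos _).le, ← Real.exp_nat_mul]
    have := Real.add_one_le_exp u
    convert this using 2
    push_cast; ring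
  calc Real.exp (-u ^ 2 / 4) * Real.sqrt (u + 1) ≤ Real.exp (-u ^ 2 / 4) * Real.exp (u / 2) := by
        gcongr
    _ = Real.exp (-u ^ 2 / 4 + u / 2) := by rw [Real.exp_add]
    _ ≤ Real.exp (1 + -u / 2) := by
        apply Real.exp_le_exp.mpr
        nlinarith [sq_nonneg (u / 2 - 1)]
    _ = _ := by rw [Real.exp_add]

lemma fa_arith2 (u : ℝ) : Real.exp (-u) * Real.sqrt (u + 1) ≤ Real.exp (-u / 2) := by
  have h1 : Real.sqrt (u + 1) ≤ Real.exp (u / 2) := by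
    rw [Real.sqrt_le_left (Real.exp_pos _).le, ← Real.exp_nat_mul]
    have := Real.add_one_le_exp u
    convert this using 2
    push_cast; ring
  calc Real.exp (-u) * Real.sqrt (u + 1) ≤ Real.exp (-u) * Real.exp (u / 2) := by
        gcongr
    _ = _ := by rw [← Real.exp_add]; congr 1; ring

lemma fa_arith3 (u : ℝ) : Real.exp (-u ^ 2 / 2) ≤ Real.exp 1 * Real.exp (-u / 2) := by
  rw [← Real.exp_add]
  apply Real.exp_le_exp.mpr
  nlinarith [sq_nonneg (u - 1 / 2)]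

lemma fa_Rw_cont (γ : ℝ) (h0 : 0 < γ) (hπ : γ < Real.pi) : Continuous (Rw γ) := by
  obtain ⟨K, hK, hlip⟩ := Rw_lip γ h0 hπ
  have : LipschitzWith (Real.toNNReal K) (Rw γ) := by
    apply LipschitzWith.of_dist_le_mul
    intro x y
    rw [Real.dist_eq, Real.dist_eq, Real.coe_toNNReal _ hK.le]
    exact hlip x y
  exact this.continuous

lemma fa_Rw_le (γ : ℝ) (h0 : 0 < γ) (hπ : γ < Real.pi) {x : ℝ} (hx : 0 ≤ x) :
    Rw γ x ≤ Rw γ 0 :=
  Rw_antitone γ h0 hπ (Set.mem_Ici.mpr le_rfl) (Set.mem_Ici.mpr hx) hx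

lemma fa_gauss_int (Λ : ℝ) (hΛ : 0 ≤ Λ) :
    ∫ u in (0 : ℝ)..Λ, Real.exp (-u ^ 2) ≤ Real.sqrt Real.pi / 2 := by
  have h1 := integral_gaussian_Ioi 1
  rw [div_one] at h1
  rw [← h1, intervalIntegral.integral_of_le hΛ]
  have hi : IntegrableOn (fun x : ℝ => Real.exp (-1 * x ^ 2)) (Set.Ioi 0) :=
    (integrable_exp_neg_mul_sq one_pos).integrableOn
  have h2 := setIntegral_mono_set (s := Set.Ioc 0 Λ) hi
    (Filter.Eventually.of_forall fun x => (Real.exp_pos _).le)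
    (Set.Ioc_subset_Ioi_self.eventuallyLE)
  refine le_trans (le_of_eq ?_) h2
  apply setIntegral_congr_fun measurableSet_Ioc
  intro x _
  simp

lemma fa_exp_int (Λ : ℝ) : ∫ u in (0 : ℝ)..Λ, Real.exp (-u / 2) ≤ 2 := by
  have : ∫ u in (0 : ℝ)..Λ, Real.exp (-u / 2) = 2 - 2 * Real.exp (-Λ / 2) := by
    have hd : ∀ x ∈ Set.uIcc 0 Λ, HasDerivAt (fun u : ℝ => -2 * Real.exp (-u / 2))
        (Real.exp (-x / 2)) x := by
      intro x _
      have h1 : HasDerivAt (fun u : ℝ => -u / 2) (-1 / 2) x := by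
        have := (hasDerivAt_id x).neg.div_const 2
        simpa using this
      have h2 := (h1.exp).const_mul (-2)
      exact h2.congr_deriv (by ring)
    rw [intervalIntegral.integral_eq_sub_of_hasDerivAt hd
      ((by fun_prop : Continuous fun x : ℝ => Real.exp (-x / 2)).intervalIntegrable _ _)]
    simp
    ring
  rw [this]
  have := Real.exp_pos (-Λ / 2)
  linarith

end H385
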