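import Pool.Agent.H385R2.Defs

/-!
Q13 : the quadratic form of the zeros as a mean square.
-/

open Complex Filter Topology Set MeasureTheory
open scoped BigOperators ComplexConjugate

namespace H385

namespace Quad

lemma pi_cpow_half : (Real.pi : ℂ) ^ (1 / 2 : ℂ) = (Real.sqrt Real.pi : ℂ) := by
  rw [show (1 / 2 : ℂ) = ((1 / 2 : ℝ) : ℂ) by push_cast; ring,
    ← Complex.ofReal_cpow Real.pi_pos.le, ← Real.sqrt_eq_rpow]

lemma gauss_pair_eq (z w : ℂ) (t : ℝ) :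
    cexp (-(z - t) ^ 2 / 2) * cexp (-(w - t) ^ 2 / 2) =
      cexp ((-1 : ℂ) * (t : ℂ) ^ 2 + (z + w) * t + (-(z ^ 2 + w ^ 2) / 2)) := by
  rw [← Complex.exp_add]; congr 1; ring

lemma gauss_pair_int (z w : ℂ) :
    Integrable (fun t : ℝ => cexp (-(z - t) ^ 2 / 2) * cexp (-(w - t) ^ 2 / 2)) := by
  simp_rw [gauss_pair_eq]
  exact integrable_cexp_quadratic' (by simp) _ _

lemma gauss_pair (z w : ℂ) :
    ∫ t : ℝ, cexp (-(z - t) ^ 2 / 2) * cexp (-(w - t) ^ 2 / 2) =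
      (Real.sqrt Real.pi : ℂ) * cexp (-(z - w) ^ 2 / 4) := by
  simp_rw [gauss_pair_eq]
  rw [integral_cexp_quadratic (by simp), neg_neg, div_one, pi_cpow_half]
  congr 2
  ring

section

variable (Z : Finset ℂ) (hZ : ∀ z ∈ Z, (starRingEnd ℂ) z ∈ Z) (a : ℂ → ℂ)
    (hac : ∀ z ∈ Z, a ((starRingEnd ℂ) z) = (starRingEnd ℂ) (a z))

/-- mean square of the weighted zero sum -/
noncomputable def GG (u : ℝ) : ℝ :=
  ∫ t : ℝ, ‖∑ z ∈ Z, a z * (cexp (I * u * z) * cexp (-(z - t) ^ 2 / 2))‖ ^ 2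

include hZ in
lemma sum_conj {M : Type*} [AddCommMonoid M] (f : ℂ → M) :
    ∑ s ∈ Z, f (conj s) = ∑ s ∈ Z, f s := by
  refine Finset.sum_nbij' (fun s => conj s) (fun s => conj s) ?_ ?_ ?_ ?_ ?_
  · intro s hs; exact hZ s hs
  · intro s hs; exact hZ s hs
  · intro s _; simp
  · intro s _; simp
  · intro s _; rfl

include hZ hac in
lemma GG_eq (u : ℝ) : ((GG Z a u : ℝ) : ℂ) = (Real.sqrt Real.pi : ℂ) *
    ∑ z ∈ Z, ∑ w ∈ Z, a z * a w *
      (cexp (I * u * (z - w)) * cexp (-(z - w) ^ 2 / 4)) := by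
  have h1 : ∀ t : ℝ, ((‖∑ z ∈ Z, a z * (cexp (I * u * z) * cexp (-(z - t) ^ 2 / 2))‖ ^ 2 : ℝ) : ℂ) =
      ∑ z ∈ Z, ∑ w ∈ Z, a z * conj (a w) *
        (cexp (I * u * (z - conj w)) *
        (cexp (-(z - t) ^ 2 / 2) * cexp (-(conj w - t) ^ 2 / 2))) := by
    intro t
    rw [← Complex.normSq_eq_norm_sq, ← Complex.mul_conj, map_sum, Finset.sum_mul_sum]
    refine Finset.sum_congr rfl fun s _ => Finset.sum_congr rfl fun s' _ => ?_
    rw [map_mul, map_mul, ← Complex.exp_conj, ← Complex.exp_conj]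
    have e1 : conj (I * u * s') = -(I * u * conj s') := by simp
    have e2 : conj (-(s' - (t : ℂ)) ^ 2 / 2) = -(conj s' - t) ^ 2 / 2 := by
      simp only [map_div₀, map_neg, map_pow, map_sub, Complex.conj_ofReal, Complex.conj_ofNat]
    have : cexp (I * u * (s - conj s')) =
        cexp (I * u * s) * cexp (-(I * u * conj s')) := by
      rw [← Complex.exp_add]; congr 1; ring
    rw [this, e1, e2]; ring
  unfold GG
  have h0 : ((∫ t : ℝ, ‖∑ z ∈ Z, a z * (cexp (I * u * z) * cexp (-(z - t) ^ 2 / 2))‖ ^ 2 : ℝ) : ℂ) =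
      ∫ t : ℝ, ((‖∑ z ∈ Z, a z * (cexp (I * u * z) * cexp (-(z - t) ^ 2 / 2))‖ ^ 2 : ℝ) : ℂ) :=
    integral_ofReal.symm
  rw [h0]
  simp_rw [h1]
  rw [integral_finsetSum]
  swap
  · intro s _
    refine integrable_finsetSum _ fun s' _ => ?_
    exact ((gauss_pair_int _ _).const_mul _).const_mul _
  rw [Finset.mul_sum]
  refine Finset.sum_congr rfl fun s _ => ?_
  rw [integral_finsetSum]
  swap
  · intro s' _
    exact ((gauss_pair_int _ _).const_mul _).const_mul _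
  rw [Finset.mul_sum]
  have h2 : ∀ s' ∈ Z, ∫ t : ℝ, a s * conj (a s') *
        (cexp (I * u * (s - conj s')) *
        (cexp (-(s - t) ^ 2 / 2) * cexp (-(conj s' - t) ^ 2 / 2))) =
      (fun w => (Real.sqrt Real.pi : ℂ) * (a s * a w *
      (cexp (I * u * (s - w)) * cexp (-(s - w) ^ 2 / 4)))) (conj s') := by
    intro s' hs'
    rw [integral_const_mul, integral_const_mul, gauss_pair]
    simp only
    rw [hac s' hs']
    ring
  rw [Finset.sum_congr rfl h2]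
  exact sum_conj Z hZ (fun w => (Real.sqrt Real.pi : ℂ) * (a s * a w *
      (cexp (I * u * (s - w)) * cexp (-(s - w) ^ 2 / 4))))

include hZ hac in
lemma GG_cont : Continuous (fun u : ℝ => GG Z a u) := by
  have h : Continuous (fun u : ℝ => ((GG Z a u : ℝ) : ℂ)) := by
    simp_rw [GG_eq Z hZ a hac]
    fun_prop
  exact (Complex.continuous_re.comp h).congr fun u => by simp

include hZ hac in
lemma GG_even (u : ℝ) : GG Z a (-u) = GG Z a u := by
  apply Complex.ofReal_injective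
  rw [GG_eq Z hZ a hac, GG_eq Z hZ a hac, Finset.sum_comm]
  congr 1
  refine Finset.sum_congr rfl fun s _ => Finset.sum_congr rfl fun s' _ => ?_
  have e1 : I * ((-u : ℝ) : ℂ) * (s' - s) = I * u * (s - s') := by push_cast; ring
  have e2 : -(s' - s) ^ 2 / 4 = -(s - s') ^ 2 / 4 := by ring
  rw [e1, e2]; ring

end

end Quad

open Quad in
theorem quad_form (γ Λ : ℝ) (hΛ : 0 < Λ)
    (hsq : ∀ z : ℂ, kapw γ z ^ 2 = ∫ α in (-1 : ℝ)..1, (Rw γ α : ℂ) * cexp (I * z * α))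
    (hcont : Continuous (Rw γ)) (hev : ∀ α, Rw γ (-α) = Rw γ α)
    (Z : Finset ℂ) (hZ : ∀ z ∈ Z, (starRingEnd ℂ) z ∈ Z) (a : ℂ → ℂ)
    (hac : ∀ z ∈ Z, a ((starRingEnd ℂ) z) = (starRingEnd ℂ) (a z)) :
    (∑ z ∈ Z, ∑ w ∈ Z, a z * a w * (phiw γ Λ (z - w)) ^ 2).re =
      (2 / (Real.sqrt Real.pi * Λ)) * ∫ u in (0 : ℝ)..Λ, Rw γ (u / Λ) *
        ∫ t : ℝ, ‖∑ z ∈ Z, a z * (cexp (I * u * z) * cexp (-(z - t) ^ 2 / 2))‖ ^ 2 := by
  have hpi : (Real.sqrt Real.pi : ℂ) ≠ 0 := by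
    rw [Ne, Complex.ofReal_eq_zero]; positivity
  have h1 : ∀ s s' : ℂ, (phiw γ Λ (s - s')) ^ 2 = ∫ α in (-1 : ℝ)..1, (Rw γ α : ℂ) *
      (cexp (I * ((Λ * α : ℝ) : ℂ) * (s - s')) * cexp (-(s - s') ^ 2 / 4)) := by
    intro s s'
    unfold phiw
    rw [mul_pow, hsq, ← intervalIntegral.integral_mul_const]
    refine intervalIntegral.integral_congr fun α _ => ?_
    rw [← Complex.exp_nat_mul]
    have e1 : I * (Λ * (s - s')) * (α : ℂ) = I * ((Λ * α : ℝ) : ℂ) * (s - s') := by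
      push_cast; ring
    have e2 : ((2 : ℕ) : ℂ) * (-(s - s') ^ 2 / 8) = -(s - s') ^ 2 / 4 := by
      push_cast; ring
    rw [e1, e2]; ring
  have h2 : ∑ s ∈ Z, ∑ s' ∈ Z, a s * a s' * (phiw γ Λ (s - s')) ^ 2 =
      ∫ α in (-1 : ℝ)..1, ((1 / Real.sqrt Real.pi * (Rw γ α * GG Z a (Λ * α)) : ℝ) : ℂ) := by
    have h3 : ∀ α : ℝ, ((1 / Real.sqrt Real.pi * (Rw γ α * GG Z a (Λ * α)) : ℝ) : ℂ) =
        ∑ s ∈ Z, ∑ s' ∈ Z, a s * a s' * ((Rw γ α : ℂ) *
      (cexp (I * ((Λ * α : ℝ) : ℂ) * (s - s')) * cexp (-(s - s') ^ 2 / 4))) := by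
      intro α
      rw [Complex.ofReal_mul, Complex.ofReal_mul, GG_eq Z hZ a hac, Finset.mul_sum, Finset.mul_sum,
        Finset.mul_sum]
      refine Finset.sum_congr rfl fun s _ => ?_
      rw [Finset.mul_sum, Finset.mul_sum, Finset.mul_sum]
      refine Finset.sum_congr rfl fun s' _ => ?_
      push_cast
      field_simp
    simp_rw [h3]
    have hc : ∀ s s' : ℂ, Continuous fun α : ℝ => a s * a s' * ((Rw γ α : ℂ) *
      (cexp (I * ((Λ * α : ℝ) : ℂ) * (s - s')) * cexp (-(s - s') ^ 2 / 4))) := by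
      intro s s'
      have := hcont
      fun_prop
    rw [intervalIntegral.integral_finsetSum]
    swap
    · intro s _
      exact (continuous_finsetSum _ fun s' _ => hc s s').intervalIntegrable _ _
    refine Finset.sum_congr rfl fun s _ => ?_
    rw [intervalIntegral.integral_finsetSum]
    swap
    · intro s' _
      exact (hc s s').intervalIntegrable _ _
    refine Finset.sum_congr rfl fun s' _ => ?_
    rw [h1, intervalIntegral.integral_const_mul]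
  rw [h2, intervalIntegral.integral_ofReal, Complex.ofReal_re,
    intervalIntegral.integral_const_mul]
  set G : ℝ → ℝ := fun α => Rw γ α * GG Z a (Λ * α) with hG
  have hGc : Continuous G := hcont.mul ((GG_cont Z hZ a hac).comp (by fun_prop))
  have hGe : ∀ α, G (-α) = G α := by
    intro α
    simp only [hG]
    rw [hev, mul_neg, GG_even Z hZ a hac]
  have h4 : ∫ α in (-1 : ℝ)..1, G α = 2 * ∫ α in (0 : ℝ)..1, G α := by
    rw [← intervalIntegral.integral_add_adjacent_intervals (b := 0)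
      (hGc.intervalIntegrable _ _) (hGc.intervalIntegrable _ _)]
    have h5 : ∫ α in (-1 : ℝ)..0, G α = ∫ α in (0 : ℝ)..1, G α := by
      have := intervalIntegral.integral_comp_neg (a := (0 : ℝ)) (b := 1) G
      simp_rw [hGe] at this
      rw [neg_zero] at this
      exact this.symm
    rw [h5]; ring
  have h6 : ∫ α in (0 : ℝ)..1, G α = Λ⁻¹ * ∫ u in (0 : ℝ)..Λ, Rw γ (u / Λ) * GG Z a u := by
    have h7 := intervalIntegral.integral_comp_mul_left (a := (0 : ℝ)) (b := 1)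
      (fun u => Rw γ (u / Λ) * GG Z a u) (c := Λ) hΛ.ne'
    rw [mul_zero, mul_one, smul_eq_mul] at h7
    rw [← h7]
    refine intervalIntegral.integral_congr fun α _ => ?_
    show Rw γ α * GG Z a (Λ * α) = Rw γ (Λ * α / Λ) * GG Z a (Λ * α)
    rw [mul_div_cancel_left₀ _ hΛ.ne']
  rw [h4, h6]
  change 1 / Real.sqrt Real.pi * (2 * (Λ⁻¹ * ∫ u in (0 : ℝ)..Λ, Rw γ (u / Λ) * GG Z a u)) =
    2 / (Real.sqrt Real.pi * Λ) * ∫ u in (0 : ℝ)..Λ, Rw γ (u / Λ) * GG Z a u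
  have : (Real.sqrt Real.pi) ≠ 0 := by positivity
  field_simp

end H385
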