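import Pool.Agent.H385R2.GoodD
import Pool.Agent.H385R2.LocalD
import Pool.Agent.H385R2.PerChi

/-!
TEAM Q2, task D4 : the basic inequality for one L-function of degree `d`
(generalisation of `Pool.Agent.H385R2.PerChi`).
-/

open Complex Filter Topology Set MeasureTheory
open scoped BigOperators ComplexConjugate
open H370 (zset mult NN Nd Ns)

namespace H385

namespace PerChiD

open PerChi (zz_spec zz_refl zz_inj zz_re zz_im kk phiw_even phiw_zero Rw_cont aw aw_zz log_bd)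

lemma zset_refl {d A Q : ℝ} {F : ℂ → ℂ} {a : ℕ → ℂ}
    (hF : GoodD d A Q F a) {U1 U2 : ℝ} (hU : 1 ≤ U1)
    {s : ℂ} (hs : s ∈ zset F U1 U2) : 1 - conj s ∈ zset F U1 U2 := by
  obtain ⟨h1, h2, h3, h4, h5⟩ := hs
  have him : (1 - conj s).im = s.im := by simp
  have hre : (1 - conj s).re = 1 - s.re := by simp
  refine ⟨by rw [hre]; linarith, by rw [hre]; linarith, by rw [him]; exact h3,
    by rw [him]; exact h4, ?_⟩
  have ha : AnalyticAt ℂ F s := hF.an s (by linarith)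
  have hb : AnalyticAt ℂ F (1 - conj s) := hF.an _ (by rw [him]; linarith)
  have h6 := hF.symm s h1 h2 (by linarith)
  have h7 : analyticOrderAt F s ≠ 0 := ha.analyticOrderAt_ne_zero.mpr h5
  rw [← h6] at h7
  exact hb.analyticOrderAt_ne_zero.mp h7

lemma mult_refl {d A Q : ℝ} {F : ℂ → ℂ} {a : ℕ → ℂ}
    (hF : GoodD d A Q F a)
    {s : ℂ} (h1 : 0 < s.re) (h2 : s.re < 1) (h3 : 1 ≤ s.im) :
    mult F (1 - conj s) = mult F s := by
  unfold mult analyticOrderNatAt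
  rw [hF.symm s h1 h2 h3]

theorem trace_part (γ : ℝ) (h0 : 0 < γ) (hπ : γ < Real.pi) {d A Q : ℝ} {F : ℂ → ℂ}
    {a : ℕ → ℂ} (hF : GoodD d A Q F a) (T Λ V1 V2 : ℝ) (hΛ : 0 < Λ) (hT : 0 ≤ T) (hV : 1 ≤ V1) (hfin : (zset F V1 V2).Finite) :
    ∑ s ∈ hfin.toFinset, (4 * (mult F s : ℝ) * (cc T (zz s)).re - kk F s) ≤
      (2 / (Real.sqrt Real.pi * Λ)) * (∫ u in (0 : ℝ)..Λ, Rw γ (u / Λ) *
          ∫ t : ℝ, ‖BB F V1 V2 T u t‖ ^ 2) := by
  classical
  set Zf := hfin.toFinset with hZf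
  have hmem : ∀ {s}, s ∈ Zf ↔ s ∈ zset F V1 V2 := by
    intro s; rw [hZf, Set.Finite.mem_toFinset]
  set Z := Zf.image zz with hZdef
  have hinj : Set.InjOn zz (Zf : Set ℂ) := fun s _ s' _ h => zz_inj h
  have hZ : ∀ z ∈ Z, (starRingEnd ℂ) z ∈ Z := by
    intro z hz
    obtain ⟨s, hs, rfl⟩ := Finset.mem_image.mp hz
    rw [← zz_refl]
    exact Finset.mem_image_of_mem _ (hmem.2 (zset_refl hF hV (hmem.1 hs)))
  have hac : ∀ z ∈ Z, aw F T ((starRingEnd ℂ) z) = (starRingEnd ℂ) (aw F T z) := by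
    intro z hz
    obtain ⟨s, hs, rfl⟩ := Finset.mem_image.mp hz
    obtain ⟨h1, h2, h3, h4, h5⟩ := hmem.1 hs
    rw [← zz_refl, aw_zz, aw_zz, map_mul, Complex.conj_natCast, cc_conj, zz_refl,
      mult_refl hF h1 h2 (by linarith)]
  obtain ⟨E, i1, i2, k, hk⟩ := gram_w γ h0 hπ Λ
  set S := Z.filter (fun z => z.im = 0 ∧ mult F (1 / 2 + I * z) = 1) with hS
  have hSZ : S ⊆ Z := Finset.filter_subset _ _
  have hSr : ∀ z ∈ S, z.im = 0 ∧ 0 ≤ (aw F T z).re ∧ (aw F T z).re ≤ 1 := by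
    intro z hz
    obtain ⟨hz1, hz2, hz3⟩ := Finset.mem_filter.mp hz
    have hzr : z = ((z.re : ℝ) : ℂ) := by
      apply Complex.ext
      · simp
      · simp [hz2]
    have h4 := cc_real T z.re hT
    rw [← hzr] at h4
    refine ⟨hz2, ?_⟩
    unfold aw
    rw [hz3, Nat.cast_one, one_mul]
    exact h4.2
  have hmain := trace_w (phiw γ Λ) k hk (phiw_even γ Λ) (phiw_zero γ h0 hπ Λ) Z hZ (aw F T) hac S
    hSZ hSr
  rw [quad_form γ Λ hΛ (kapw_sq γ h0 hπ) (Rw_cont γ h0 hπ) (Rw_even γ) Z hZ (aw F T) hac] at hmain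
  have hBB : ∀ u t : ℝ, ∑ z ∈ Z, aw F T z * (cexp (I * u * z) * cexp (-(z - t) ^ 2 / 2)) =
      BB F V1 V2 T u t := by
    intro u t
    unfold BB
    rw [finsum_mem_eq_finite_toFinset_sum _ hfin, hZdef, Finset.sum_image hinj]
    refine Finset.sum_congr rfl fun s _ => ?_
    rw [aw_zz]
  simp_rw [hBB] at hmain
  refine le_trans (le_of_eq ?_) hmain
  -- compute the left hand side
  have c1 : (∑ z ∈ Z, aw F T z).re = ∑ s ∈ Zf, (mult F s : ℝ) * (cc T (zz s)).re := by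
    rw [hZdef, Finset.sum_image hinj, Complex.re_sum]
    refine Finset.sum_congr rfl fun s _ => ?_
    rw [aw_zz, ← Complex.ofReal_natCast, Complex.re_ofReal_mul]
  have him0 : ∀ s, (zz s).im = 0 ↔ s.re = 1 / 2 := by
    intro s; rw [zz_im]; constructor <;> intro h <;> linarith
  have c2 : (S.card : ℝ) = ∑ s ∈ Zf, if (s.re = 1 / 2 ∧ mult F s = 1) then 1 else 0 := by
    rw [hS, Finset.card_filter, Nat.cast_sum, hZdef, Finset.sum_image hinj]
    refine Finset.sum_congr rfl fun s _ => ?_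
    simp only [him0, zz_spec, Nat.cast_ite, Nat.cast_one, Nat.cast_zero]
  have c3 : (((Z \ S).filter (fun z => z.im = 0)).card : ℝ) =
      ∑ s ∈ Zf, if (s.re = 1 / 2 ∧ mult F s ≠ 1) then 1 else 0 := by
    have : (Z \ S).filter (fun z => z.im = 0) =
        Z.filter (fun z => z.im = 0 ∧ mult F (1 / 2 + I * z) ≠ 1) := by
      ext z
      simp only [hS, Finset.mem_filter, Finset.mem_sdiff]
      tauto
    rw [this, Finset.card_filter, Nat.cast_sum, hZdef, Finset.sum_image hinj]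
    refine Finset.sum_congr rfl fun s _ => ?_
    simp only [him0, zz_spec, Nat.cast_ite, Nat.cast_one, Nat.cast_zero]
  have c4 : 2 * ((Z.filter (fun z => 0 < z.im)).card : ℝ) =
      ∑ s ∈ Zf, if s.re = 1 / 2 then 0 else 1 := by
    have e1 : (Z.filter (fun z => z.im < 0)).card = (Z.filter (fun z => 0 < z.im)).card := by
      refine Finset.card_nbij' (fun z => (starRingEnd ℂ) z) (fun z => (starRingEnd ℂ) z) ?_ ?_ ?_ ?_
      · intro z hz
        simp only [Finset.coe_filter, Set.mem_ofPred_eq] at hz ⊢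
        refine ⟨hZ z hz.1, ?_⟩
        rw [Complex.conj_im]; linarith [hz.2]
      · intro z hz
        simp only [Finset.coe_filter, Set.mem_ofPred_eq] at hz ⊢
        refine ⟨hZ z hz.1, ?_⟩
        rw [Complex.conj_im]; linarith [hz.2]
      · intro z _; simp
      · intro z _; simp
    have e2 : (Z.filter (fun z => ¬ z.im = 0)).card =
        (Z.filter (fun z => z.im < 0)).card + (Z.filter (fun z => 0 < z.im)).card := by
      rw [← Finset.card_union_of_disjoint]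
      · congr 1
        ext z
        simp only [Finset.mem_filter, Finset.mem_union]
        constructor
        · rintro ⟨h1, h2⟩
          rcases lt_or_gt_of_ne h2 with h | h
          · exact Or.inl ⟨h1, h⟩
          · exact Or.inr ⟨h1, h⟩
        · rintro (⟨h1, h2⟩ | ⟨h1, h2⟩)
          · exact ⟨h1, ne_of_lt h2⟩
          · exact ⟨h1, ne_of_gt h2⟩
      · rw [Finset.disjoint_filter]
        intro z _ h1 h2
        linarith
    have e3 : 2 * ((Z.filter (fun z => 0 < z.im)).card : ℝ) =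
        ((Z.filter (fun z => ¬ z.im = 0)).card : ℝ) := by
      rw [e2, e1]; push_cast; ring
    rw [e3, Finset.card_filter, Nat.cast_sum, hZdef, Finset.sum_image hinj]
    refine Finset.sum_congr rfl fun s _ => ?_
    simp only [him0, Nat.cast_ite, Nat.cast_one, Nat.cast_zero, ite_not]
  have c5 : ∑ s ∈ Zf, (4 * (mult F s : ℝ) * (cc T (zz s)).re - kk F s) =
      4 * (∑ s ∈ Zf, (mult F s : ℝ) * (cc T (zz s)).re) -
      3 * (∑ s ∈ Zf, if (s.re = 1 / 2 ∧ mult F s = 1) then (1 : ℝ) else 0) -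
      (4 * (∑ s ∈ Zf, if (s.re = 1 / 2 ∧ mult F s ≠ 1) then (1 : ℝ) else 0) +
        2 * (∑ s ∈ Zf, if s.re = 1 / 2 then (0 : ℝ) else 1)) := by
    rw [Finset.mul_sum, Finset.mul_sum, Finset.mul_sum, Finset.mul_sum, ← Finset.sum_sub_distrib,
      ← Finset.sum_add_distrib, ← Finset.sum_sub_distrib]
    refine Finset.sum_congr rfl fun s _ => ?_
    unfold kk
    by_cases h1 : s.re = 1 / 2
    · by_cases h2 : mult F s = 1
      · rw [if_pos h1, if_pos h2, if_pos ⟨h1, h2⟩, if_neg (fun h => h.2 h2), if_pos h1]; ring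
      · rw [if_pos h1, if_neg h2, if_neg (fun h => h2 h.2), if_pos ⟨h1, h2⟩, if_pos h1]; ring
    · rw [if_neg h1, if_neg (fun h => h1 h.1), if_neg (fun h => h1 h.1), if_neg h1]; ring
  rw [c5, c1, c2, c3, ← c4]
  ring

theorem core (γ : ℝ) (h0 : 0 < γ) (hπ : γ < Real.pi) (d A : ℝ) (hd : 1 ≤ d)
    (hA : 1 ≤ A) :
    ∃ C : ℝ, 0 < C ∧ ∀ (Q : ℝ) (F : ℂ → ℂ) (a : ℕ → ℂ), 1 ≤ Q → GoodD d A Q F a →
    ∀ (w : ℂ → ℝ), (∀ s, 1 ≤ mult F s → w s ≤ 4 * (mult F s : ℝ) - kk F s) →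
      (∀ s, 1 ≤ mult F s → w s ≤ 3 * (mult F s : ℝ)) →
    ∀ T κ Λ V1 V2 : ℝ, 3 ≤ κ → 8 * κ ≤ T → 1 ≤ Λ → T - 3 * κ ≤ V1 → V1 ≤ T - 3 * κ + 1 →
      2 * T + 3 * κ - 1 ≤ V2 → V2 ≤ 2 * T + 3 * κ →
      ∀ hfin : (zset F T (2 * T)).Finite, ∑ s ∈ hfin.toFinset, w s ≤
        (2 / (Real.sqrt Real.pi * Λ)) * (∫ u in (0 : ℝ)..Λ, Rw γ (u / Λ) *
          ∫ t : ℝ, ‖BB F V1 V2 T u t‖ ^ 2)
        + C * (κ + T * Real.exp (-κ ^ 2 / 2)) * Real.log (Q * T) := by
  obtain ⟨C0, hC0, hcount⟩ := zcount_long_D d A hd hA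
  refine ⟨240 * C0, by positivity, ?_⟩
  intro Q F a hQ hFU w hw1 hw2 T κ Λ V1 V2 hκ hκT hΛ hV1 hV1' hV2 hV2' hfin
  have hV1pos : 15 ≤ V1 := by linarith
  have hT24 : 24 ≤ T := by linarith
  have hfinV : (zset F V1 V2).Finite := zset_finite_D hA hQ hFU V1 V2 (by linarith)
  have htr := trace_part γ h0 hπ hFU T Λ V1 V2 (by linarith) (by linarith) (by linarith) hfinV
  set e := Real.exp (-κ ^ 2 / 2) with he
  have he0 : 0 < e := Real.exp_pos _
  -- counts
  have hNV := hcount Q F a hQ hFU V1 V2 (by linarith) (by linarith)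
  have hNa := hcount Q F a hQ hFU V1 (T + κ) (by linarith) (by linarith)
  have hNb := hcount Q F a hQ hFU (2 * T - κ) V2 (by linarith) (by linarith)
  set L := Real.log (Q * T) with hL
  have hL0 : 0 ≤ L := Real.log_nonneg (by nlinarith)
  have l1 : Real.log (Q * V2) ≤ 2 * L := log_bd hQ (by linarith) (by linarith) (by linarith)
  have l2 : Real.log (Q * (T + κ)) ≤ 2 * L := log_bd hQ (by linarith) (by linarith) (by linarith)
  have aux : ∀ x y z w : ℝ, 0 ≤ y → x ≤ y → z ≤ 2 * L → 0 ≤ z → w ≤ C0 * x * z →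
      w ≤ C0 * y * (2 * L) := by
    intro x y z w hy hxy hz hz0 hw
    refine hw.trans ?_
    have h1 : C0 * x * z ≤ C0 * y * z := by gcongr
    refine h1.trans ?_
    gcongr
  have p1 : 0 ≤ Real.log (Q * V2) := Real.log_nonneg (by nlinarith)
  have p2 : 0 ≤ Real.log (Q * (T + κ)) := Real.log_nonneg (by nlinarith)
  have b1 : (NN F V1 V2 : ℝ) ≤ C0 * (2 * T) * (2 * L) :=
    aux _ _ _ _ (by linarith) (by linarith) l1 p1 hNV
  have b2 : (NN F V1 (T + κ) : ℝ) ≤ C0 * (4 * κ) * (2 * L) :=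
    aux _ _ _ _ (by linarith) (by linarith) l2 p2 hNa
  have b3 : (NN F (2 * T - κ) V2 : ℝ) ≤ C0 * (4 * κ) * (2 * L) :=
    aux _ _ _ _ (by linarith) (by linarith) l1 p1 hNb
  -- sums over zeros
  have hmulti : ∀ s ∈ hfinV.toFinset, 1 ≤ mult F s := by
    intro s hs
    rw [Set.Finite.mem_toFinset] at hs
    exact LocD.mult_pos_D hA hFU (by linarith [hs.2.2.1]) hs.2.2.2.2
  have n1 : (NN F V1 V2 : ℝ) = ∑ s ∈ hfinV.toFinset, (mult F s : ℝ) := by
    unfold NN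
    rw [finsum_mem_eq_finite_toFinset_sum _ hfinV]
    push_cast; rfl
  have n2 : (NN F V1 (T + κ) : ℝ) =
      ∑ s ∈ hfinV.toFinset, if s.im ≤ T + κ then (mult F s : ℝ) else 0 := by
    have hf : (zset F V1 (T + κ)).Finite := zset_finite_D hA hQ hFU V1 _ (by linarith)
    unfold NN
    rw [finsum_mem_eq_finite_toFinset_sum _ hf, ← Finset.sum_filter]
    push_cast
    refine Finset.sum_congr ?_ fun _ _ => rfl
    ext s
    simp only [Finset.mem_filter, Set.Finite.mem_toFinset]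
    constructor
    · rintro ⟨h1, h2, h3, h4, h5⟩
      exact ⟨⟨h1, h2, h3, by linarith, h5⟩, h4⟩
    · rintro ⟨⟨h1, h2, h3, h4, h5⟩, h6⟩
      exact ⟨h1, h2, h3, h6, h5⟩
  have n3 : (NN F (2 * T - κ) V2 : ℝ) =
      ∑ s ∈ hfinV.toFinset, if 2 * T - κ < s.im then (mult F s : ℝ) else 0 := by
    have hf : (zset F (2 * T - κ) V2).Finite := zset_finite_D hA hQ hFU _ _ (by linarith)
    unfold NN
    rw [finsum_mem_eq_finite_toFinset_sum _ hf, ← Finset.sum_filter]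
    push_cast
    refine Finset.sum_congr ?_ fun _ _ => rfl
    ext s
    simp only [Finset.mem_filter, Set.Finite.mem_toFinset]
    constructor
    · rintro ⟨h1, h2, h3, h4, h5⟩
      exact ⟨⟨h1, h2, by linarith, h4, h5⟩, h3⟩
    · rintro ⟨⟨h1, h2, h3, h4, h5⟩, h6⟩
      exact ⟨h1, h2, h6, h4, h5⟩
  have n4 : ∑ s ∈ hfin.toFinset, w s =
      ∑ s ∈ hfinV.toFinset, if T < s.im ∧ s.im ≤ 2 * T then w s else 0 := by
    rw [← Finset.sum_filter]
    refine Finset.sum_congr ?_ fun _ _ => rfl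
    ext s
    simp only [Finset.mem_filter, Set.Finite.mem_toFinset]
    constructor
    · rintro ⟨h1, h2, h3, h4, h5⟩
      exact ⟨⟨h1, h2, by linarith, by linarith, h5⟩, h3, h4⟩
    · rintro ⟨⟨h1, h2, h3, h4, h5⟩, h6, h7⟩
      exact ⟨h1, h2, h6, h7, h5⟩
  have hpt : ∀ s ∈ hfinV.toFinset, (if T < s.im ∧ s.im ≤ 2 * T then w s else 0) ≤
      (4 * (mult F s : ℝ) * (cc T (zz s)).re - kk F s) + 8 * e * (mult F s : ℝ) +
        15 * (if s.im ≤ T + κ then (mult F s : ℝ) else 0) +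
        15 * (if 2 * T - κ < s.im then (mult F s : ℝ) else 0) := by
    intro s hs
    have hm := hmulti s hs
    have hm' : (1 : ℝ) ≤ (mult F s : ℝ) := by exact_mod_cast hm
    have h1 := hw1 s hm
    have h2 := hw2 s hm
    rw [Set.Finite.mem_toFinset] at hs
    have him : |(zz s).im| ≤ 1 / 2 := by
      rw [zz_im, abs_le]; constructor <;> linarith [hs.1, hs.2.1]
    have hk2 : kk F s ≤ 4 := by
      unfold kk; split_ifs <;> norm_num
    have hcre : -2 ≤ (cc T (zz s)).re := by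
      have h3 := cc_bound T (by linarith) (zz s) him
      have h4 := Complex.abs_re_le_norm (cc T (zz s))
      linarith [neg_abs_le (cc T (zz s)).re]
    have hedge : ∀ X : ℝ, X ≤ 3 * (mult F s : ℝ) → X ≤
        (4 * (mult F s : ℝ) * (cc T (zz s)).re - kk F s) + 8 * e * (mult F s : ℝ) +
        15 * (mult F s : ℝ) := by
      intro X hX
      have h5 : 4 * (mult F s : ℝ) * (-2) ≤ 4 * (mult F s : ℝ) * (cc T (zz s)).re :=
        mul_le_mul_of_nonneg_left hcre (by positivity)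
      have h6 : 0 ≤ 8 * e * (mult F s : ℝ) := by positivity
      linarith
    have hX3 : (if T < s.im ∧ s.im ≤ 2 * T then w s else 0) ≤ 3 * (mult F s : ℝ) := by
      split_ifs
      · exact h2
      · positivity
    by_cases c1 : s.im ≤ T + κ
    · rw [if_pos c1]
      have h7 : 0 ≤ 15 * (if 2 * T - κ < s.im then (mult F s : ℝ) else 0) := by
        split_ifs <;> positivity
      linarith [hedge _ hX3]
    · rw [if_neg c1]
      by_cases c2 : 2 * T - κ < s.im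
      · rw [if_pos c2]
        linarith [hedge _ hX3]
      · rw [if_neg c2, if_pos ⟨by push Not at c1; linarith, by push Not at c2; linarith⟩]
        push Not at c1 c2
        have h8 := cc_near T κ (by linarith) (zz s) him (by rw [zz_re]; linarith)
          (by rw [zz_re]; linarith)
        have h9 : 1 - 2 * e ≤ (cc T (zz s)).re := by
          have h10 := Complex.abs_re_le_norm (cc T (zz s) - 1)
          rw [Complex.sub_re, Complex.one_re] at h10
          linarith [neg_abs_le ((cc T (zz s)).re - 1)]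
        have h11 : 4 * (mult F s : ℝ) * (1 - 2 * e) ≤ 4 * (mult F s : ℝ) * (cc T (zz s)).re :=
          mul_le_mul_of_nonneg_left h9 (by positivity)
        linarith
  have hsum := Finset.sum_le_sum hpt
  rw [← n4] at hsum
  rw [Finset.sum_add_distrib, Finset.sum_add_distrib, Finset.sum_add_distrib, ← Finset.mul_sum,
    ← Finset.mul_sum, ← Finset.mul_sum, ← n1, ← n2, ← n3] at hsum
  calc ∑ s ∈ hfin.toFinset, w s ≤ _ := hsum
    _ ≤ (2 / (Real.sqrt Real.pi * Λ)) * (∫ u in (0 : ℝ)..Λ, Rw γ (u / Λ) *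
          ∫ t : ℝ, ‖BB F V1 V2 T u t‖ ^ 2) + 8 * e * (C0 * (2 * T) * (2 * L)) +
          15 * (C0 * (4 * κ) * (2 * L)) + 15 * (C0 * (4 * κ) * (2 * L)) := by
        gcongr
    _ ≤ _ := by
        have : 0 ≤ C0 * T * e * L := by positivity
        nlinarith

end PerChiD

open PerChiD
open PerChi (kk)

theorem per_chi_D (γ : ℝ) (h0 : 0 < γ) (hπ : γ < Real.pi) (d A : ℝ) (hd : 1 ≤ d)
    (hA : 1 ≤ A) :
    ∃ C : ℝ, 0 < C ∧ ∀ (Q : ℝ) (F : ℂ → ℂ) (a : ℕ → ℂ), 1 ≤ Q → GoodD d A Q F a →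
    ∀ T κ Λ V1 V2 : ℝ, 3 ≤ κ → 8 * κ ≤ T → 1 ≤ Λ → T - 3 * κ ≤ V1 → V1 ≤ T - 3 * κ + 1 →
      2 * T + 3 * κ - 1 ≤ V2 → V2 ≤ 2 * T + 3 * κ →
      2 * (NN F T (2 * T) : ℝ) - (Ns F T (2 * T) : ℝ) ≤
        (2 / (Real.sqrt Real.pi * Λ)) * (∫ u in (0 : ℝ)..Λ, Rw γ (u / Λ) *
          ∫ t : ℝ, ‖BB F V1 V2 T u t‖ ^ 2)
        + C * (κ + T * Real.exp (-κ ^ 2 / 2)) * Real.log (Q * T) := by
  classical
  obtain ⟨C, hC, h⟩ := PerChiD.core γ h0 hπ d A hd hA
  refine ⟨C, hC, ?_⟩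
  intro Q F a hQ hFU T κ Λ V1 V2 hκ hκT hΛ hV1 hV1' hV2 hV2'
  have hfin : (zset F T (2 * T)).Finite := zset_finite_D hA hQ hFU T _ (by linarith)
  have h1 := h Q F a hQ hFU
    (fun s => 2 * (mult F s : ℝ) - if (s.re = 1 / 2 ∧ mult F s = 1) then 1 else 0) ?_ ?_
    T κ Λ V1 V2 hκ hκT hΛ hV1 hV1' hV2 hV2' hfin
  · refine le_trans (le_of_eq ?_) h1
    rw [Finset.sum_sub_distrib, ← Finset.mul_sum]
    congr 1
    · congr 1
      unfold NN
      rw [finsum_mem_eq_finite_toFinset_sum _ hfin]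
      push_cast; rfl
    · unfold Ns
      have : {s : ℂ | s ∈ zset F T (2 * T) ∧ s.re = 1 / 2 ∧ mult F s = 1} =
          ((hfin.toFinset.filter (fun s => s.re = 1 / 2 ∧ mult F s = 1) : Finset ℂ) : Set ℂ) := by
        ext s
        simp
      rw [this, Set.ncard_coe_finset, Finset.card_filter]
      push_cast; rfl
  · intro s hs
    have hs' : (1 : ℝ) ≤ (mult F s : ℝ) := by exact_mod_cast hs
    unfold kk
    by_cases h2 : s.re = 1 / 2
    · by_cases h3 : mult F s = 1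
      · simp only [if_pos h2, if_pos h3, if_pos (And.intro h2 h3)]; linarith
      · have h4 : 2 ≤ mult F s := by omega
        have h5 : (2 : ℝ) ≤ (mult F s : ℝ) := by exact_mod_cast h4
        have h6 : ¬ (s.re = 1 / 2 ∧ mult F s = 1) := fun h => h3 h.2
        simp only [if_pos h2, if_neg h3, if_neg h6]; linarith
    · have h6 : ¬ (s.re = 1 / 2 ∧ mult F s = 1) := fun h => h2 h.1
      simp only [if_neg h2, if_neg h6]; linarith
  · intro s hs
    have hs' : (1 : ℝ) ≤ (mult F s : ℝ) := by exact_mod_cast hs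
    by_cases h6 : (s.re = 1 / 2 ∧ mult F s = 1)
    · simp only [if_pos h6]; linarith
    · simp only [if_neg h6]; linarith

/-- same with the number of distinct zeros -/
theorem per_chi_d_D (γ : ℝ) (h0 : 0 < γ) (hπ : γ < Real.pi) (d A : ℝ) (hd : 1 ≤ d)
    (hA : 1 ≤ A) :
    ∃ C : ℝ, 0 < C ∧ ∀ (Q : ℝ) (F : ℂ → ℂ) (a : ℕ → ℂ), 1 ≤ Q → GoodD d A Q F a →
    ∀ T κ Λ V1 V2 : ℝ, 3 ≤ κ → 8 * κ ≤ T → 1 ≤ Λ → T - 3 * κ ≤ V1 → V1 ≤ T - 3 * κ + 1 →
      2 * T + 3 * κ - 1 ≤ V2 → V2 ≤ 2 * T + 3 * κ →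
      3 * (NN F T (2 * T) : ℝ) - 2 * (Nd F T (2 * T) : ℝ) ≤
        (2 / (Real.sqrt Real.pi * Λ)) * (∫ u in (0 : ℝ)..Λ, Rw γ (u / Λ) *
          ∫ t : ℝ, ‖BB F V1 V2 T u t‖ ^ 2)
        + C * (κ + T * Real.exp (-κ ^ 2 / 2)) * Real.log (Q * T) := by
  classical
  obtain ⟨C, hC, h⟩ := PerChiD.core γ h0 hπ d A hd hA
  refine ⟨C, hC, ?_⟩
  intro Q F a hQ hFU T κ Λ V1 V2 hκ hκT hΛ hV1 hV1' hV2 hV2'
  have hfin : (zset F T (2 * T)).Finite := zset_finite_D hA hQ hFU T _ (by linarith)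
  have h1 := h Q F a hQ hFU
    (fun s => 3 * (mult F s : ℝ) - 2) ?_ ?_
    T κ Λ V1 V2 hκ hκT hΛ hV1 hV1' hV2 hV2' hfin
  · refine le_trans (le_of_eq ?_) h1
    rw [Finset.sum_sub_distrib, ← Finset.mul_sum]
    congr 1
    · congr 1
      unfold NN
      rw [finsum_mem_eq_finite_toFinset_sum _ hfin]
      push_cast; rfl
    · unfold Nd
      rw [Set.ncard_eq_toFinset_card _ hfin, Finset.sum_const, nsmul_eq_mul]
      ring
  · intro s hs
    have hs' : (1 : ℝ) ≤ (mult F s : ℝ) := by exact_mod_cast hs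
    unfold kk
    by_cases h2 : s.re = 1 / 2
    · by_cases h3 : mult F s = 1
      · have h7 : (mult F s : ℝ) = 1 := by rw [h3]; norm_num
        simp only [if_pos h2, if_pos h3]; linarith
      · have h4 : 2 ≤ mult F s := by omega
        have h5 : (2 : ℝ) ≤ (mult F s : ℝ) := by exact_mod_cast h4
        simp only [if_pos h2, if_neg h3]; linarith
    · simp only [if_neg h2]; linarith
  · intro s hs
    linarith

end H385
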