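import Pool.Agent.H385R2.Defs4

open Complex Filter Topology Set MeasureTheory
open H370 (zset mult NN Nd Ns)

namespace H385

/-- index type of all Dirichlet characters -/
abbrev IX := Σ q : ℕ, DirichletCharacter ℂ q

theorem prim_finite (q : ℕ) (hq : q ≠ 0) : {χ : DirichletCharacter ℂ q | χ.IsPrimitive}.Finite := by
  have : NeZero q := ⟨hq⟩
  exact Set.toFinite _

/-- all primitive characters of conductor in `(X,Y]` -/
noncomputable def primSet (X Y : ℕ) : Finset IX :=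
  (Finset.Ioc X Y).sigma (fun q => if h : q ≠ 0 then (prim_finite q h).toFinset else ∅)

theorem mem_primSet (X Y : ℕ) (p : IX) :
    p ∈ primSet X Y ↔ X < p.1 ∧ p.1 ≤ Y ∧ p.2.IsPrimitive := by
  rcases p with ⟨q, χ⟩
  simp only [primSet, Finset.mem_sigma, Finset.mem_Ioc]
  constructor
  · rintro ⟨⟨h1, h2⟩, h3⟩
    have hq : q ≠ 0 := by omega
    rw [dif_pos hq] at h3
    exact ⟨h1, h2, by simpa using h3⟩
  · rintro ⟨h1, h2, h3⟩
    have hq : q ≠ 0 := by omega
    refine ⟨⟨h1, h2⟩, ?_⟩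
    rw [dif_pos hq]
    simpa using h3

theorem primFam_eq (X Y : ℕ) (f : (q : ℕ) → DirichletCharacter ℂ q → ℝ) :
    primFam X Y f = ∑ p ∈ primSet X Y, (1 / (p.1 : ℝ) ^ 2) * f p.1 p.2 := by
  unfold primFam primSet
  rw [Finset.sum_sigma]
  refine Finset.sum_congr rfl (fun q hq => ?_)
  have hq0 : q ≠ 0 := by
    have := (Finset.mem_Ioc.mp hq).1
    omega
  rw [dif_pos hq0]
  show 1 / (q : ℝ) ^ 2 * _ = ∑ χ ∈ (prim_finite q hq0).toFinset, 1 / (q : ℝ) ^ 2 * f q χ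
  rw [← Finset.mul_sum]
  congr 1
  have h1 := finsum_set_coe_eq_finsum_mem (f := fun χ : DirichletCharacter ℂ q => f q χ)
    {χ : DirichletCharacter ℂ q | χ.IsPrimitive}
  rw [← finsum_mem_coe_finset]
  simp only [Set.Finite.coe_toFinset]
  exact h1

theorem primFam_nonneg (X Y : ℕ) (f : (q : ℕ) → DirichletCharacter ℂ q → ℝ)
    (hf : ∀ q χ, 0 ≤ f q χ) : 0 ≤ primFam X Y f := by
  rw [primFam_eq]
  exact Finset.sum_nonneg (fun p _ => mul_nonneg (by positivity) (hf _ _))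

theorem primFam_mono (X Y : ℕ) (f g : (q : ℕ) → DirichletCharacter ℂ q → ℝ)
    (h : ∀ (q : ℕ) (χ : DirichletCharacter ℂ q), X < q → q ≤ Y → χ.IsPrimitive → f q χ ≤ g q χ) :
    primFam X Y f ≤ primFam X Y g := by
  rw [primFam_eq, primFam_eq]
  refine Finset.sum_le_sum (fun p hp => ?_)
  obtain ⟨h1, h2, h3⟩ := (mem_primSet X Y p).mp hp
  exact mul_le_mul_of_nonneg_left (h _ _ h1 h2 h3) (by positivity)

end H385
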