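import Pool.Agent.H385R2.NLA
import Pool.Agent.H385R2.PrimSet
import Pool.Agent.H385R2.DirU
import Pool.Agent.H385R2.Win

open Complex Filter Topology Set MeasureTheory
open H370 (zset mult NN Nd Ns)

set_option maxHeartbeats 4000000

namespace H385

/-- total mass of the family -/
noncomputable def WW (X Y : ℕ) : ℝ := primFam X Y (fun _ _ => 1)

/-- mean square hypothesis for the family -/
def HY (γ β c' : ℝ) : Prop := ∀ ε : ℝ, 0 < ε → ∃ K η X0 : ℝ, 1 ≤ K ∧ 0 < η ∧ 1 ≤ X0 ∧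
  ∀ (X Y : ℕ) (T : ℝ), X0 ≤ X → K * X ≤ Y → (Y : ℝ) ≤ (X : ℝ) ^ (1 + η) →
    (Real.log X) ^ 2 ≤ T → T ≤ (X : ℝ) ^ η →
  ∃ (Yf : ℝ → ℝ) (y1 y2 : ℝ), 0 ≤ y1 ∧ 0 ≤ y2 ∧
    (∀ u ∈ Set.Icc 0 (β * Real.log X), ∫ t : ℝ, primFam X Y (fun q χ =>
      ‖∑' n : ℕ, (χ (n : ZMod q) * (ArithmeticFunction.vonMangoldt n : ℂ)) *
        ((Real.sqrt n : ℂ)⁻¹ * bt T u t (Real.log n))‖ ^ 2) ≤ Yf u) ∧
    (∀ u ∈ Set.Icc 0 (β * Real.log X), Yf u ≤ T * (y1 * (u + 1) + y2)) ∧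
    IntervalIntegrable Yf volume 0 (β * Real.log X) ∧
    (2 / (Real.sqrt Real.pi * (β * Real.log X))) * (∫ u in (0 : ℝ)..(β * Real.log X),
      Rw γ (u / (β * Real.log X)) * Yf u) ≤
      T / (2 * Real.pi) * Real.log X * WW X Y * (c' + ε) ∧
    Real.sqrt y1 + Real.sqrt y2 ≤ ε * Real.log X * Real.sqrt (WW X Y)

/-- parameters are fine for `fam_abstract` and `N_lower` -/
theorem param_ok (β L T η : ℝ) (hβ : 0 < β) (hη1 : η ≤ 1)
    (hL8 : 4 * β + 8 ≤ L) (hLβ : 1 / β ≤ L) (hT : L ^ 2 ≤ T) (hT2 : T ≤ Real.exp (η * L)) :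
    3 ≤ L ∧ 8 * L ≤ T ∧ T ≤ Real.exp (L ^ 2 / 2) ∧ 1 ≤ β * L ∧
      9 * L ^ 2 * Real.exp (β * L - L ^ 2 / 2) ≤ Real.exp (-(β * L)) ∧
      9 * L ^ 2 * Real.exp (-L ^ 2 / 2) ≤ 1 := by
  have hL : 8 ≤ L := by linarith
  have h3 : 3 * L ≤ Real.exp (2 * L) := by
    have := Real.quadratic_le_exp_of_nonneg (show 0 ≤ 2 * L by linarith)
    exact NL.b1 hL this
  have h4 : 9 * L ^ 2 ≤ Real.exp (4 * L) := by
    have : Real.exp (4 * L) = Real.exp (2 * L) * Real.exp (2 * L) := by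
      rw [← Real.exp_add]; ring_nf
    rw [this]
    exact NL.b2 hL h3
  refine ⟨by linarith, (NL.b3 hL).trans hT, ?_, ?_, ?_, ?_⟩
  · exact hT2.trans (Real.exp_le_exp.mpr (NL.b4 hL hη1))
  · rw [div_le_iff₀ hβ] at hLβ
    linarith
  · have h5 : Real.exp (4 * L) * Real.exp (β * L - L ^ 2 / 2) ≤ Real.exp (-(β * L)) := by
      rw [← Real.exp_add]
      exact Real.exp_le_exp.mpr (NL.b5 hL hL8)
    refine le_trans ?_ h5
    exact mul_le_mul_of_nonneg_right h4 (Real.exp_pos _).le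
  · have h5 : Real.exp (4 * L) * Real.exp (-L ^ 2 / 2) ≤ 1 := by
      rw [← Real.exp_add, ← Real.exp_zero]
      exact Real.exp_le_exp.mpr (NL.b6 hL)
    refine le_trans ?_ h5
    exact mul_le_mul_of_nonneg_right h4 (Real.exp_pos _).le

/-- numeric core of the final step -/
theorem numeric_core (β c' ε R0 C1 C2 η ε1 L T W SN SM J s12 : ℝ)
    (hβ : 0 < β) (hc' : 0 ≤ c') (hε : 0 < ε) (hR0 : 0 ≤ R0) (hC1 : 0 < C1) (hC2 : 0 < C2)
    (hη : 0 < η) (hη1 : η ≤ 1) (hε1 : 0 < ε1)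
    (hL : 8 ≤ L) (hT : L ^ 2 ≤ T) (hW : 0 ≤ W)
    (e1 : 8 * η * (R0 / β) ≤ ε / 8) (e2 : ε1 ≤ ε / 8)
    (e3 : C1 * (12 / β + 3) * (2 * Real.pi) ≤ ε / 8 * L)
    (e4 : 6 * Real.pi * C1 * ε1 / β ≤ ε / 8)
    (e5 : 10 * Real.pi * C2 * (R0 / β + c' + ε) ≤ ε / 2 * L)
    (hJ : J ≤ T / (2 * Real.pi) * L * W * (c' + ε1))
    (hs : s12 ≤ ε1 * L * Real.sqrt W)
    (hM : SM ≤ W * ((1 + 2 * η) * L) ^ 2 * R0 * T / (2 * Real.pi * (β * L)) + J +
      C1 * (W * (((1 + 2 * η) * L) ^ 2 * L / (β * L) + ((1 + 2 * η) * L) * T / (β * L) +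
        L * ((1 + 2 * η) * L)) + Real.sqrt W * ((1 + 2 * η) * L) * T * s12 / (β * L)))
    (hN : W * (T / (2 * Real.pi) * L - 5 * C2 * T) ≤ SN) :
    SM ≤ (R0 / β + c' + ε) * SN := by
  have hπ := Real.pi_pos
  have hLp : 0 < L := by linarith
  have hTp : 0 < T := lt_of_lt_of_le (pow_pos hLp 2) hT
  set U : ℝ := T / (2 * Real.pi) * L * W with hU
  have hU0 : 0 ≤ U := by positivity
  have h1 : W * ((1 + 2 * η) * L) ^ 2 * R0 * T / (2 * Real.pi * (β * L)) =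
      U * ((1 + 2 * η) ^ 2 * (R0 / β)) := by
    rw [hU]; field_simp
  have h1' : U * ((1 + 2 * η) ^ 2 * (R0 / β)) ≤ U * (R0 / β + ε / 8) := by
    refine mul_le_mul_of_nonneg_left ?_ hU0
    have hRβ : 0 ≤ R0 / β := by positivity
    exact NL.b8 hη.le hη1 hRβ e1
  have hJ' : J ≤ U * (c' + ε / 8) := by
    refine hJ.trans ?_
    exact mul_le_mul_of_nonneg_left (by linarith) hU0
  -- third
  have hlm : (1 + 2 * η) * L ≤ 3 * L := mul_le_mul_of_nonneg_right (by linarith) hLp.le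
  have hlm0 : 0 ≤ (1 + 2 * η) * L := by positivity
  have h3a : ((1 + 2 * η) * L) ^ 2 * L / (β * L) ≤ 9 * T / β := by
    have : ((1 + 2 * η) * L) ^ 2 ≤ 9 * T := by
      have h0 : ((1 + 2 * η) * L) ^ 2 ≤ (3 * L) ^ 2 := pow_le_pow_left₀ hlm0 hlm 2
      linarith [show (3 * L) ^ 2 = 9 * L ^ 2 by ring]
    rw [mul_comm β L, ← div_div, mul_div_assoc, div_self hLp.ne', mul_one]
    exact div_le_div_of_nonneg_right this hβ.le
  have h3b : ((1 + 2 * η) * L) * T / (β * L) ≤ 3 * T / β := by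
    have h0 : ((1 + 2 * η) * L) * T / (β * L) ≤ (3 * L) * T / (β * L) := by gcongr
    refine h0.trans (le_of_eq ?_)
    field_simp
  have h3c : L * ((1 + 2 * η) * L) ≤ 3 * T := by
    have h0 : L * ((1 + 2 * η) * L) ≤ L * (3 * L) := mul_le_mul_of_nonneg_left hlm hLp.le
    linarith [show L * (3 * L) = 3 * L ^ 2 by ring]
  have h3 : C1 * (W * (((1 + 2 * η) * L) ^ 2 * L / (β * L) + ((1 + 2 * η) * L) * T / (β * L) +
        L * ((1 + 2 * η) * L))) ≤ U * (ε / 8) := by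
    have a1 : ((1 + 2 * η) * L) ^ 2 * L / (β * L) + ((1 + 2 * η) * L) * T / (β * L) +
        L * ((1 + 2 * η) * L) ≤ T * (12 / β + 3) := by
      have : T * (12 / β + 3) = 9 * T / β + 3 * T / β + 3 * T := by field_simp; ring
      rw [this]; linarith
    have a2 : C1 * (W * (T * (12 / β + 3))) = (C1 * (12 / β + 3) * (2 * Real.pi)) *
        (T * W / (2 * Real.pi)) := by field_simp
    have a3 : U * (ε / 8) = (ε / 8 * L) * (T * W / (2 * Real.pi)) := by rw [hU]; ring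
    calc _ ≤ C1 * (W * (T * (12 / β + 3))) := by gcongr
      _ = _ := a2
      _ ≤ (ε / 8 * L) * (T * W / (2 * Real.pi)) := by
        exact mul_le_mul_of_nonneg_right e3 (by positivity)
      _ = _ := a3.symm
  have h4 : C1 * (Real.sqrt W * ((1 + 2 * η) * L) * T * s12 / (β * L)) ≤ U * (ε / 8) := by
    have a1 : Real.sqrt W * ((1 + 2 * η) * L) * T * s12 ≤
        Real.sqrt W * (3 * L) * T * (ε1 * L * Real.sqrt W) := by
      have b1 : Real.sqrt W * ((1 + 2 * η) * L) * T * s12 ≤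
        Real.sqrt W * ((1 + 2 * η) * L) * T * (ε1 * L * Real.sqrt W) :=
        mul_le_mul_of_nonneg_left hs (by positivity)
      refine b1.trans ?_
      gcongr
    have a2 : Real.sqrt W * (3 * L) * T * (ε1 * L * Real.sqrt W) = 3 * L ^ 2 * T * ε1 * W := by
      have := Real.mul_self_sqrt hW
      calc _ = 3 * L ^ 2 * T * ε1 * (Real.sqrt W * Real.sqrt W) := by ring
        _ = _ := by rw [this]
    have a3 : C1 * (Real.sqrt W * ((1 + 2 * η) * L) * T * s12 / (β * L)) ≤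
        C1 * ((3 * L ^ 2 * T * ε1 * W) / (β * L)) := by
      rw [a2] at a1
      gcongr
    refine a3.trans ?_
    have a4 : C1 * ((3 * L ^ 2 * T * ε1 * W) / (β * L)) = (6 * Real.pi * C1 * ε1 / β) * U := by
      rw [hU]; field_simp; ring
    rw [a4, mul_comm]
    exact mul_le_mul_of_nonneg_left e4 hU0
  have hSM : SM ≤ U * (R0 / β + c' + ε / 2) := by
    have : C1 * (W * (((1 + 2 * η) * L) ^ 2 * L / (β * L) + ((1 + 2 * η) * L) * T / (β * L) +
        L * ((1 + 2 * η) * L)) + Real.sqrt W * ((1 + 2 * η) * L) * T * s12 / (β * L)) ≤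
        U * (ε / 8) + U * (ε / 8) := by
      rw [mul_add]; exact add_le_add h3 h4
    rw [h1] at hM
    calc SM ≤ _ := hM
      _ ≤ U * (R0 / β + ε / 8) + U * (c' + ε / 8) + (U * (ε / 8) + U * (ε / 8)) := by
        linarith
      _ = _ := by ring
  have hSN : U - 5 * C2 * T * W ≤ SN := by
    refine le_trans (le_of_eq ?_) hN
    rw [hU]; ring
  have hfin : U * (R0 / β + c' + ε / 2) ≤ (R0 / β + c' + ε) * (U - 5 * C2 * T * W) := by
    have : (R0 / β + c' + ε) * (5 * C2 * T * W) ≤ U * (ε / 2) := by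
      have b1 : (R0 / β + c' + ε) * (5 * C2 * T * W) =
        (10 * Real.pi * C2 * (R0 / β + c' + ε)) * (T * W / (2 * Real.pi)) := by
        field_simp
        ring
      have b2 : U * (ε / 2) = (ε / 2 * L) * (T * W / (2 * Real.pi)) := by rw [hU]; ring
      rw [b1, b2]
      exact mul_le_mul_of_nonneg_right e5 (by positivity)
    have h6 : (R0 / β + c' + ε) * (U - 5 * C2 * T * W) =
      U * (R0 / β + c' + ε / 2) + (U * (ε / 2) - (R0 / β + c' + ε) * (5 * C2 * T * W)) := by ring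
    rw [h6]; linarith
  refine hSM.trans (hfin.trans ?_)
  exact mul_le_mul_of_nonneg_left hSN (by positivity)

end H385
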