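import Pool.Agent.H385R2.PrimSetM
import Pool.Agent.H385R2.FinA0
import Pool.Agent.H385R2.GoodD

open Complex Filter Topology Set MeasureTheory
open H370 (zset mult NN Nd Ns)

set_option maxHeartbeats 4000000

namespace H385

/-- total mass of the family -/
noncomputable def WM (M X Y : ℕ) : ℝ := primFamM M X Y (fun _ _ => 1)

/-- twists by primitive characters of conductor prime to `M` of an `L`-function of degree `d`;
`c (p^k)` is the sum of the `k`-th powers of the Satake parameters -/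
structure TwD (d A : ℝ) (M : ℕ) (c : ℕ → ℂ) (F : (q : ℕ) → DirichletCharacter ℂ q → ℂ → ℂ) :
    Prop where
  hc : ∀ n, ‖c n‖ ≤ d
  good : ∀ (q : ℕ) (χ : DirichletCharacter ℂ q), 2 ≤ q → Nat.Coprime q M → χ.IsPrimitive →
    GoodD d A q (F q χ)
      (fun n => χ (n : ZMod q) * c n * (ArithmeticFunction.vonMangoldt n : ℂ))

/-- mean square hypothesis for the family -/
def HYM (M : ℕ) (c : ℕ → ℂ) (γ β c' : ℝ) : Prop := ∀ ε : ℝ, 0 < ε →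
  ∃ K η X0 : ℝ, 1 ≤ K ∧ 0 < η ∧ 1 ≤ X0 ∧
  ∀ (X Y : ℕ) (T : ℝ), X0 ≤ X → K * X ≤ Y → (Y : ℝ) ≤ (X : ℝ) ^ (1 + η) →
    (Real.log X) ^ 2 ≤ T → T ≤ (X : ℝ) ^ η →
  ∃ (Yf : ℝ → ℝ) (y1 y2 : ℝ), 0 ≤ y1 ∧ 0 ≤ y2 ∧
    (∀ u ∈ Set.Icc 0 (β * Real.log X), ∫ t : ℝ, primFamM M X Y (fun q χ =>
      ‖∑' n : ℕ, (χ (n : ZMod q) * c n * (ArithmeticFunction.vonMangoldt n : ℂ)) *
        ((Real.sqrt n : ℂ)⁻¹ * bt T u t (Real.log n))‖ ^ 2) ≤ Yf u) ∧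
    (∀ u ∈ Set.Icc 0 (β * Real.log X), Yf u ≤ T * (y1 * (u + 1) + y2)) ∧
    IntervalIntegrable Yf volume 0 (β * Real.log X) ∧
    (2 / (Real.sqrt Real.pi * (β * Real.log X))) * (∫ u in (0 : ℝ)..(β * Real.log X),
      Rw γ (u / (β * Real.log X)) * Yf u) ≤
      T / (2 * Real.pi) * Real.log X * WM M X Y * (c' + ε) ∧
    Real.sqrt y1 + Real.sqrt y2 ≤ ε * Real.log X * Real.sqrt (WM M X Y)

/-- numeric core of the final step -/
theorem numeric_core_D (d β c' ε R0 C1 C2 η ε1 L T W SN SM J s12 : ℝ) (hd : 1 ≤ d)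
    (hβ : 0 < β) (hc' : 0 ≤ c') (hε : 0 < ε) (hR0 : 0 ≤ R0) (hC1 : 0 < C1) (hC2 : 0 < C2)
    (hη : 0 < η) (hη1 : η ≤ 1) (hε1 : 0 < ε1)
    (hL : 8 ≤ L) (hT : L ^ 2 ≤ T) (hW : 0 ≤ W)
    (e1 : 8 * η * (d ^ 2 * R0 / β) ≤ ε / 8) (e2 : ε1 ≤ ε / 8)
    (e3 : C1 * (12 / β + 3) * (2 * Real.pi) ≤ ε / 8 * L)
    (e4 : 6 * Real.pi * C1 * ε1 / β ≤ ε / 8)
    (e5 : 10 * Real.pi * C2 * (d ^ 2 * R0 / β + c' + ε) ≤ ε / 2 * L)
    (hJ : J ≤ T / (2 * Real.pi) * L * W * (c' + ε1))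
    (hs : s12 ≤ ε1 * L * Real.sqrt W)
    (hM : SM ≤ W * (d * ((1 + 2 * η) * L)) ^ 2 * R0 * T / (2 * Real.pi * (β * L)) + J +
      C1 * (W * (((1 + 2 * η) * L) ^ 2 * L / (β * L) + ((1 + 2 * η) * L) * T / (β * L) +
        L * ((1 + 2 * η) * L)) + Real.sqrt W * ((1 + 2 * η) * L) * T * s12 / (β * L)))
    (hN : W * (d * (T / (2 * Real.pi) * L) - 5 * C2 * T) ≤ SN) (hSN : 0 ≤ SN) :
    SM ≤ (d * R0 / β + c' / d + ε) * SN := by
  -- reduce to `numeric_core` with `R0' = d² R0`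
  have hπ := Real.pi_pos
  have hd0 : 0 < d := by linarith
  have hTp : 0 < T := lt_of_lt_of_le (pow_pos (by linarith) 2) hT
  have hN' : W * (T / (2 * Real.pi) * L - 5 * C2 * T) ≤ SN / d := by
    rw [le_div_iff₀ hd0]
    refine le_trans ?_ hN
    have this1 : 0 ≤ W * (5 * C2 * T) * (d - 1) := by
      have : 0 ≤ d - 1 := by linarith
      positivity
    exact NL.b13 this1
  have key := numeric_core β c' ε (d ^ 2 * R0) C1 C2 η ε1 L T W (SN / d) SM J s12 hβ hc' hε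
    (by positivity) hC1 hC2 hη hη1 hε1 hL hT hW e1 e2 e3 e4 e5 hJ hs
    (hM.trans (le_of_eq (by ring))) hN'
  have e : (d ^ 2 * R0 / β + c' + ε) * (SN / d) = (d * R0 / β + c' / d + ε / d) * SN := by
    field_simp
  rw [e] at key
  refine key.trans ?_
  refine mul_le_mul_of_nonneg_right ?_ hSN
  have : ε / d ≤ ε := div_le_self hε.le hd
  linarith

end H385
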