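import Pool.Agent.H385R2.WinC

/-!
TEAM Q2: the numerical value of the degree 2 constant (Montgomery-Taylor kernel, support 1).
-/

open Complex Filter Topology Set MeasureTheory

namespace H385
open WinC

/-- closed form -/
theorem Rw_const_closed (γ a b : ℝ) (hγ0 : γ ≠ 0) :
    a * Rw γ 0 + b * ∫ α in (0 : ℝ)..1, α * Rw γ α =
      (γ / (2 * Real.sin (γ / 2))) ^ 2 / 2 *
        (a * (1 + Real.sin γ / γ) + b * ((1 - Real.cos γ - 1) / γ ^ 2 + Real.sin γ / γ ^ 3)) := by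
  set K := (γ / (2 * Real.sin (γ / 2))) ^ 2 / 2 with hK
  have hRw : ∀ x : ℝ, 0 ≤ x → x ≤ 1 → Rw γ x = nm γ x * K := by
    intro x hx hx1
    unfold Rw nm
    rw [abs_of_nonneg hx, if_pos hx1]
    ring
  have h1 : ∫ α in (0 : ℝ)..1, α * Rw γ α = K * (N2 γ 1 - N2 γ 0) := by
    have : ∫ α in (0 : ℝ)..1, α * Rw γ α = ∫ α in (0 : ℝ)..1, K * (α * nm γ α) := by
      apply intervalIntegral.integral_congr
      intro x hx
      rw [Set.uIcc_of_le zero_le_one] at hx
      simp only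
      rw [hRw x hx.1 hx.2]
      ring
    rw [this, intervalIntegral.integral_const_mul,
      intervalIntegral.integral_eq_sub_of_hasDerivAt (fun x _ => N2_deriv γ hγ0 x)]
    apply Continuous.intervalIntegrable
    have := nm_cont γ
    fun_prop
  rw [h1, hRw 0 le_rfl zero_le_one]
  unfold N2 nm
  simp only [mul_zero, mul_one, sub_zero, sub_self, Real.sin_zero, Real.cos_zero, zero_mul,
    one_mul, zero_div, add_zero, zero_add]
  ring

theorem trig_707 : |Real.cos (707 / 1000) - 0.76031396174| ≤ 1 / 10 ^ 9 ∧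
    |Real.sin (707 / 1000) - 0.64955575556| ≤ 1 / 10 ^ 9 := by
  have hx : ‖((707 / 1000 : ℝ) : ℂ) * I‖ = 707 / 1000 := by
    rw [norm_mul, Complex.norm_real, Complex.norm_I, mul_one]
    norm_num
  have h := Complex.exp_bound' (x := ((707 / 1000 : ℝ) : ℂ) * I) (n := 12) (by
    rw [hx]; norm_num)
  rw [hx] at h
  have hI2 : I ^ 2 = -1 := I_sq
  have hI3 : I ^ 3 = -I := by rw [pow_succ, hI2]; ring
  have hI4 : I ^ 4 = 1 := by rw [pow_succ, hI3]; ring_nf; rw [hI2]; ring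
  have hI5 : I ^ 5 = I := by rw [pow_succ, hI4]; ring
  have hI6 : I ^ 6 = -1 := by rw [pow_succ, hI5, ← pow_two, hI2]
  have hI7 : I ^ 7 = -I := by rw [pow_succ, hI6]; ring
  have hI8 : I ^ 8 = 1 := by rw [pow_succ, hI7]; ring_nf; rw [hI2]; ring
  have hI9 : I ^ 9 = I := by rw [pow_succ, hI8]; ring
  have hI10 : I ^ 10 = -1 := by rw [pow_succ, hI9, ← pow_two, hI2]
  have hI11 : I ^ 11 = -I := by rw [pow_succ, hI10]; ring
  set A : ℝ := 1 - (707 / 1000) ^ 2 / 2 + (707 / 1000) ^ 4 / 24 - (707 / 1000) ^ 6 / 720 +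
    (707 / 1000) ^ 8 / 40320 - (707 / 1000) ^ 10 / 3628800 with hA
  set B : ℝ := (707 / 1000) - (707 / 1000) ^ 3 / 6 + (707 / 1000) ^ 5 / 120 - (707 / 1000) ^ 7 / 5040 +
    (707 / 1000) ^ 9 / 362880 - (707 / 1000) ^ 11 / 39916800 with hB
  have hsum : ∑ m ∈ Finset.range 12, (((707 / 1000 : ℝ) : ℂ) * I) ^ m / (m.factorial : ℂ) =
      (A : ℂ) + (B : ℂ) * I := by
    simp only [Finset.sum_range_succ, Finset.sum_range_zero, mul_pow, hI2, hI3, hI4, hI5, hI6, hI7,
      hI8, hI9, hI10, hI11, Nat.factorial, hA, hB]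
    push_cast
    ring
  rw [hsum, Complex.exp_ofReal_mul_I] at h
  have hre := (Complex.abs_re_le_norm _).trans h
  have him := (Complex.abs_im_le_norm _).trans h
  have e1 : ((((Real.cos (707 / 1000) : ℝ) : ℂ) + ((Real.sin (707 / 1000) : ℝ) : ℂ) * I -
      ((A : ℂ) + (B : ℂ) * I))).re = Real.cos (707 / 1000) - A := by
    rw [Complex.sub_re, Complex.add_re, Complex.add_re, Complex.re_ofReal_mul,
      Complex.re_ofReal_mul, Complex.I_re, Complex.ofReal_re, Complex.ofReal_re]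
    ring
  have e2 : ((((Real.cos (707 / 1000) : ℝ) : ℂ) + ((Real.sin (707 / 1000) : ℝ) : ℂ) * I -
      ((A : ℂ) + (B : ℂ) * I))).im = Real.sin (707 / 1000) - B := by
    rw [Complex.sub_im, Complex.add_im, Complex.add_im, Complex.im_ofReal_mul,
      Complex.im_ofReal_mul, Complex.I_im, Complex.ofReal_im, Complex.ofReal_im]
    ring
  rw [e1] at hre
  rw [e2] at him
  have hb : (707 / 1000 : ℝ) ^ 12 / ((12 : ℕ).factorial : ℝ) * 2 ≤ 1 / 10 ^ 10 := by
    norm_num [Nat.factorial]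
  have hA1 : |A - 0.76031396174| ≤ 5 / 10 ^ 10 := by
    rw [hA, abs_le]
    constructor <;> norm_num
  have hB1 : |B - 0.64955575556| ≤ 5 / 10 ^ 10 := by
    rw [hB, abs_le]
    constructor <;> norm_num
  rw [abs_le] at hre him hA1 hB1 ⊢
  rw [abs_le]
  refine ⟨⟨?_, ?_⟩, ?_, ?_⟩ <;> linarith [hre.1, hre.2, him.1, him.2, hA1.1, hA1.2, hB1.1, hB1.2]


/-- the degree 2 constant: `1/2 + cot(1/√2)/√2 = 1.3274992...` up to `10⁻⁸` -/
theorem Rw_const_d2 : Rw 1.414 0 + 2 * ∫ α in (0 : ℝ)..1, α * Rw 1.414 α < 1.3275 := by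
  have h := Rw_const_closed 1.414 1 2 (by norm_num)
  rw [one_mul] at h
  rw [h]
  have hh : (1.414 : ℝ) / 2 = 707 / 1000 := by norm_num
  have hS : Real.sin 1.414 = 2 * Real.sin (707 / 1000) * Real.cos (707 / 1000) := by
    rw [← Real.sin_two_mul]; congr 1; norm_num
  have hC : Real.cos 1.414 = 1 - 2 * Real.sin (707 / 1000) ^ 2 := by
    have : Real.cos 1.414 = Real.cos (2 * (707 / 1000)) := by congr 1; norm_num
    rw [this, Real.cos_two_mul, Real.cos_sq']
    ring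
  obtain ⟨hcos, hsin⟩ := trig_707
  rw [hh, hS, hC]
  set s := Real.sin (707 / 1000) with hs
  set c := Real.cos (707 / 1000) with hcc
  rw [abs_le] at hcos hsin
  have hs1 : 0.649555754 ≤ s := by linarith [hsin.1]
  have hspos : 0 < s := by linarith
  have hc1 : c ≤ 0.760313963 := by linarith [hcos.2]
  have hs2 : s ≤ 0.649555757 := by linarith [hsin.2]
  have hc0 : 0 ≤ c := by linarith [hcos.1]
  have hsc : s * c ≤ 0.649555757 * 0.760313963 := mul_le_mul hs2 hc1 hc0 (by norm_num)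
  have hss : 0.649555754 ^ 2 ≤ s ^ 2 := pow_le_pow_left₀ (by norm_num) hs1 2
  have e : (1.414 / (2 * s)) ^ 2 / 2 *
        (1 * (1 + 2 * s * c / 1.414) + 2 * ((1 - (1 - 2 * s ^ 2) - 1) / 1.414 ^ 2 +
          2 * s * c / 1.414 ^ 3)) =
      (1.414 ^ 2 + (2 * 1.414 + 4 / 1.414) * (s * c) + 4 * s ^ 2 - 2) / (8 * s ^ 2) := by
    field_simp
    ring
  rw [e, div_lt_iff₀ (by positivity)]
  have : (2 * 1.414 + 4 / 1.414) * (s * c) ≤
    (2 * 1.414 + 4 / 1.414) * (0.649555757 * 0.760313963 : ℝ) :=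
    mul_le_mul_of_nonneg_left hsc (by norm_num)
  norm_num at this hss ⊢
  linarith

end H385
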