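import Pool.Agent.H385R2.EcD1
import Pool.Agent.H385R2.FinDD
import Pool.Agent.H304R2.EC.Defs

/-!
TEAM Q2 (helper385): twisting the family by a fixed character.
-/

open Complex Filter Topology Set MeasureTheory
open H370 (zset mult NN Nd Ns)

namespace H385

/-- changing the conductor by a bounded factor -/
theorem GoodD.scale {d A Q D : ℝ} (hD : 1 ≤ D) (hd : 0 ≤ d) (hA : 1 ≤ A) (hQ : 1 ≤ Q)
    {F : ℂ → ℂ} {a : ℕ → ℂ} (h : GoodD d A (Q * D) F a) :
    GoodD d (A * D ^ A + A + d * Real.log D) Q F a := by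
  have hD0 : 0 < D := by linarith
  have hlogD : 0 ≤ Real.log D := Real.log_nonneg hD
  have hDA : 0 ≤ A * D ^ A := by positivity
  have hdl : 0 ≤ d * Real.log D := by positivity
  set A' : ℝ := A * D ^ A + A + d * Real.log D with hA'
  have hAA' : A ≤ A' := by linarith
  refine ⟨h.an, ?_, ?_, h.nzr, h.nzl, h.symm, h.ha, h.ld, ?_⟩
  · intro s h1 h2 h3
    have hs : 1 ≤ Q * s.im := by nlinarith
    refine (h.growth s h1 h2 h3).trans ?_
    have e1 : (Q * D * s.im) ^ A = D ^ A * (Q * s.im) ^ A := by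
      rw [← Real.mul_rpow hD0.le (by linarith)]
      congr 1
      ring
    rw [e1]
    have e2 : (Q * s.im) ^ A ≤ (Q * s.im) ^ A' := Real.rpow_le_rpow_of_exponent_le hs hAA'
    have e3 : 0 ≤ (Q * s.im) ^ A' := by positivity
    calc A * (D ^ A * (Q * s.im) ^ A) = (A * D ^ A) * (Q * s.im) ^ A := by ring
      _ ≤ (A * D ^ A) * (Q * s.im) ^ A' := mul_le_mul_of_nonneg_left e2 hDA
      _ ≤ A' * (Q * s.im) ^ A' := mul_le_mul_of_nonneg_right (by linarith) e3
  · intro t ht
    refine le_trans ?_ (h.lower t ht)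
    exact inv_anti₀ (by linarith) hAA'
  · intro s h1 h2 h3 h4
    have h5 := h.left s h1 h2 h3 h4
    have hQs : 0 < Q * s.im := by positivity
    have e1 : Real.log (Q * D * s.im) = Real.log (Q * s.im) + Real.log D := by
      rw [← Real.log_mul hQs.ne' hD0.ne']
      congr 1
      ring
    have e2 : deriv F s / F s + ((d * Real.log (Q * s.im) : ℝ) : ℂ) +
      (starRingEnd ℂ) (deriv F (1 - (starRingEnd ℂ) s) / F (1 - (starRingEnd ℂ) s)) =
      (deriv F s / F s + ((d * Real.log (Q * D * s.im) : ℝ) : ℂ) +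
      (starRingEnd ℂ) (deriv F (1 - (starRingEnd ℂ) s) / F (1 - (starRingEnd ℂ) s))) -
      ((d * Real.log D : ℝ) : ℂ) := by
      rw [e1]
      push_cast
      ring
    rw [e2]
    refine (norm_sub_le _ _).trans ?_
    rw [Complex.norm_real, Real.norm_of_nonneg hdl]
    linarith

/-- the twisted family as an instance of `TwD` -/
theorem TwD_twist (A : ℝ) (hA : 1 ≤ A) (c : ℕ → ℂ) (hc : ∀ n, ‖c n‖ ≤ 2)
    (G : (q : ℕ) → DirichletCharacter ℂ q → ℂ → ℂ)
    (H : ∀ (q : ℕ) [NeZero q] (χ : DirichletCharacter ℂ q), Odd q → χ.IsPrimitive →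
      GoodD 2 A q (G q χ) (fun n => χ (n : ZMod q) * c n * (ArithmeticFunction.vonMangoldt n : ℂ)))
    (D : ℕ) (hD : Odd D) (ψ : DirichletCharacter ℂ D) (hψ : ψ.IsPrimitive) :
    TwD 2 (A * D ^ A + A + 2 * Real.log D) (2 * D) (fun n => ψ (n : ZMod D) * c n)
      (fun q χ => G (q * D) (pm χ ψ)) := by
  have hD0 : D ≠ 0 := by
    rintro rfl
    exact absurd hD (by decide)
  have hDr : (1 : ℝ) ≤ D := by exact_mod_cast Nat.one_le_iff_ne_zero.mpr hD0
  refine ⟨fun n => ?_, fun q χ hq hqM hχ => ?_⟩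
  · rw [norm_mul]
    have h1 := DirichletCharacter.norm_le_one ψ (n : ZMod D)
    have h2 := hc n
    have h3 := norm_nonneg (c n)
    calc ‖ψ (n : ZMod D)‖ * ‖c n‖ ≤ 1 * ‖c n‖ := mul_le_mul_of_nonneg_right h1 h3
      _ ≤ 2 := by linarith
  · have hq0 : q ≠ 0 := by omega
    have i1 : NeZero q := ⟨hq0⟩
    have i2 : NeZero D := ⟨hD0⟩
    have i3 : NeZero (q * D) := ⟨Nat.mul_ne_zero hq0 hD0⟩
    have hq2 : Nat.Coprime q 2 := Nat.Coprime.coprime_mul_right_right hqM
    have hqD : Nat.Coprime q D := Nat.Coprime.coprime_mul_left_right hqM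
    have hqodd : Odd q := Nat.Coprime.odd_of_right hq2
    have h := H (q * D) (pm χ ψ) (hqodd.mul hD) (pm_primitive hqD hχ hψ)
    have hcast : ((q * D : ℕ) : ℝ) = (q : ℝ) * D := by push_cast; rfl
    rw [hcast] at h
    have hq1 : (1 : ℝ) ≤ q := by exact_mod_cast (show 1 ≤ q by omega)
    have h2 := GoodD.scale hDr zero_le_two hA hq1 h
    have e : (fun n : ℕ => χ (n : ZMod q) * (ψ (n : ZMod D) * c n) *
        (ArithmeticFunction.vonMangoldt n : ℂ)) = (fun n : ℕ => (pm χ ψ) (n : ZMod (q * D)) * c n *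
        (ArithmeticFunction.vonMangoldt n : ℂ)) := by
      funext n
      rw [pm_apply]
      ring
    rw [e]
    exact h2

end H385
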