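import Pool.Agent.H385R2.EcD2
import Pool.Agent.H385R2.Mert

/-!
TEAM Q2 (helper385): the Selberg orthonormality hypothesis for a twist by a fixed character.
-/

open Complex Filter Topology Set MeasureTheory

namespace H385

theorem lam_le_log (n D : ℕ) (hD : D ≠ 0) (h : ¬ Nat.Coprime n D) :
    ArithmeticFunction.vonMangoldt n ≤ Real.log D := by
  have hlogD : 0 ≤ Real.log D := Real.log_natCast_nonneg D
  rw [ArithmeticFunction.vonMangoldt_apply]
  split_ifs with hn
  · obtain ⟨p, k, hp, hk, rfl⟩ := (isPrimePow_nat_iff _).mp hn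
    rw [hp.pow_minFac hk.ne']
    have hpD : p ∣ D := by
      by_contra hpD
      apply h
      exact Nat.Coprime.pow_left k ((Nat.Prime.coprime_iff_not_dvd hp).mpr hpD)
    have h1 : p ≤ D := Nat.le_of_dvd (Nat.pos_of_ne_zero hD) hpD
    exact Real.log_le_log (by exact_mod_cast hp.pos) (by exact_mod_cast h1)
  · exact hlogD

theorem Selb_twist (c : ℕ → ℝ) (hc : ∀ n, |c n| ≤ 2) (C : ℝ)
    (h : ∀ x : ℝ, 1 ≤ x → |∑ n ∈ Finset.Icc 1 ⌊x⌋₊,
      (ArithmeticFunction.vonMangoldt n) ^ 2 * (c n) ^ 2 / n - (Real.log x) ^ 2 / 2| ≤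
        C * (1 + Real.log x))
    (D : ℕ) (hD : D ≠ 0) (ψ : DirichletCharacter ℂ D) :
    Selb (fun n => ψ (n : ZMod D) * (c n : ℂ)) (C + 24 * Real.log D) := by
  intro x hx
  have hlogD : 0 ≤ Real.log D := Real.log_natCast_nonneg D
  have hlogx : 0 ≤ Real.log x := Real.log_nonneg hx
  have hD' : NeZero D := ⟨hD⟩
  set w : ℕ → ℝ := fun n => (ArithmeticFunction.vonMangoldt n) ^ 2 * (c n) ^ 2 / n with hw
  have hle : ∀ n : ℕ, wc (fun n => ψ (n : ZMod D) * (c n : ℂ)) n ≤ w n ∧
      w n ≤ wc (fun n => ψ (n : ZMod D) * (c n : ℂ)) n +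
        4 * Real.log D * (ArithmeticFunction.vonMangoldt n / n) := by
    intro n
    have hL := ArithmeticFunction.vonMangoldt_nonneg (n := n)
    unfold wc
    rw [hw]
    simp only
    rw [norm_mul, Complex.norm_real, Real.norm_eq_abs, mul_pow, sq_abs]
    by_cases hcop : Nat.Coprime n D
    · have hu : ‖ψ (n : ZMod D)‖ = 1 := by
        have h1 : IsUnit ((n : ℕ) : ZMod D) := (ZMod.isUnit_iff_coprime n D).mpr hcop
        obtain ⟨u, hu⟩ := h1
        rw [← hu]
        exact DirichletCharacter.unit_norm_eq_one ψ u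
      rw [hu]
      have h2 : 0 ≤ 4 * Real.log D * (ArithmeticFunction.vonMangoldt n / n) := by positivity
      rw [one_pow, one_mul]
      exact ⟨le_rfl, by linarith⟩
    · have hu : ψ (n : ZMod D) = 0 := by
        apply MulChar.map_nonunit
        rw [ZMod.isUnit_iff_coprime]
        exact hcop
      rw [hu]
      simp only [norm_zero, ne_eq, OfNat.ofNat_ne_zero, not_false_eq_true, zero_pow, zero_mul,
        mul_zero, zero_div, zero_add]
      refine ⟨by positivity, ?_⟩
      have h1 := lam_le_log n D hD hcop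
      have h2 : (c n) ^ 2 ≤ 4 := by
        have := hc n
        rw [abs_le] at this
        nlinarith [this.1, this.2]
      have h3 : (ArithmeticFunction.vonMangoldt n) ^ 2 * (c n) ^ 2 ≤
          4 * Real.log D * ArithmeticFunction.vonMangoldt n := by
        calc (ArithmeticFunction.vonMangoldt n) ^ 2 * (c n) ^ 2 ≤
            (ArithmeticFunction.vonMangoldt n) ^ 2 * 4 :=
              mul_le_mul_of_nonneg_left h2 (sq_nonneg _)
          _ = 4 * ArithmeticFunction.vonMangoldt n * ArithmeticFunction.vonMangoldt n := by ring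
          _ ≤ 4 * Real.log D * ArithmeticFunction.vonMangoldt n := by
            refine mul_le_mul_of_nonneg_right ?_ hL
            linarith
      calc _ ≤ 4 * Real.log D * ArithmeticFunction.vonMangoldt n / n :=
            div_le_div_of_nonneg_right h3 (Nat.cast_nonneg n)
        _ = _ := by ring
  have hN1 : 1 ≤ ⌊x⌋₊ := Nat.le_floor (by simpa using hx)
  have hm := mert_sum ⌊x⌋₊ hN1
  have hlogN : Real.log (⌊x⌋₊ : ℝ) ≤ Real.log x :=
    Real.log_le_log (by exact_mod_cast hN1) (Nat.floor_le (by linarith))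
  have s1 : ∑ n ∈ Finset.Icc 1 ⌊x⌋₊, wc (fun n => ψ (n : ZMod D) * (c n : ℂ)) n ≤
      ∑ n ∈ Finset.Icc 1 ⌊x⌋₊, w n := Finset.sum_le_sum (fun n _ => (hle n).1)
  have s2 : ∑ n ∈ Finset.Icc 1 ⌊x⌋₊, w n ≤
      ∑ n ∈ Finset.Icc 1 ⌊x⌋₊, wc (fun n => ψ (n : ZMod D) * (c n : ℂ)) n +
        4 * Real.log D * ∑ n ∈ Finset.Icc 1 ⌊x⌋₊, (ArithmeticFunction.vonMangoldt n / n) := by
    rw [Finset.mul_sum, ← Finset.sum_add_distrib]
    exact Finset.sum_le_sum (fun n _ => (hle n).2)
  have s3 : 4 * Real.log D * ∑ n ∈ Finset.Icc 1 ⌊x⌋₊, (ArithmeticFunction.vonMangoldt n / n) ≤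
      24 * Real.log D * (1 + Real.log x) := by
    have h1 := (abs_le.mp hm).2
    have h2 : ∑ n ∈ Finset.Icc 1 ⌊x⌋₊, (ArithmeticFunction.vonMangoldt n / n) ≤
        6 * (1 + Real.log x) := by linarith
    calc _ ≤ 4 * Real.log D * (6 * (1 + Real.log x)) :=
          mul_le_mul_of_nonneg_left h2 (by positivity)
      _ = _ := by ring
  have h4 := abs_le.mp (h x hx)
  rw [abs_le]
  constructor
  · have := h4.1
    have e : -((C + 24 * Real.log D) * (1 + Real.log x)) = -(C * (1 + Real.log x)) -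
      24 * Real.log D * (1 + Real.log x) := by ring
    rw [e]
    linarith
  · have := h4.2
    have e : (C + 24 * Real.log D) * (1 + Real.log x) = C * (1 + Real.log x) +
      24 * Real.log D * (1 + Real.log x) := by ring
    rw [e]
    have : 0 ≤ 24 * Real.log D * (1 + Real.log x) := by positivity
    linarith

end H385
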