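import Pool.Agent.H385R2.EcD3
import Pool.Agent.H385R2.EcD4
import Pool.Agent.H304R2.EC.Growth
import Pool.Agent.H304R2.EC.Left
import Pool.Agent.H304R2.EC.LogDer
import Pool.Agent.H304R2.EC.NZR
import Pool.Agent.H304R2.EC.Sym
import Pool.Agent.H304R2.EC.EProd
import Pool.Agent.H304R2.EC.Points
import Pool.Agent.H304R2.EC.RS

/-!
TEAM Q2 (helper385, helper304): the final theorem for the twists of the congruent number curves
`E_D : y² = x³ - D² x`, `D` odd and squarefree.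
-/

open Complex Filter Topology
open H370 (zset mult NN Nd Ns)

namespace H385

open Pool.Agent.H304R2.EC

/-- all analytic properties of the twists of `L(E, s)` -/
theorem ec_good : ∃ A : ℝ, 1 ≤ A ∧ ∀ (q : ℕ) [NeZero q] (χ : DirichletCharacter ℂ q), Odd q →
    χ.IsPrimitive → GoodD 2 A q (FF q χ)
      (fun n => χ (n : ZMod q) * (Pool.Agent.H304R2.EC.cc n : ℂ) * (ArithmeticFunction.vonMangoldt n : ℂ)) := by
  obtain ⟨A1, hA1, h1⟩ := FF_growth
  obtain ⟨A2, hA2, h2⟩ := FF_left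
  obtain ⟨c, hc, h3⟩ := FF_lower
  refine ⟨A1 + A2 + c⁻¹, by have := inv_pos.mpr hc; linarith, ?_⟩
  intro q _ χ hq hχ
  have hci := inv_pos.mpr hc
  have hq1 : (1 : ℝ) ≤ q := by exact_mod_cast NeZero.one_le
  have hent := FF_entire q hq χ hχ
  refine ⟨?_, ?_, ?_, ?_, ?_, ?_, ?_, ?_, ?_⟩
  · intro s _
    exact hent.differentiableOn.analyticAt Filter.univ_mem
  · intro s a1 a2 a3
    refine (h1 q χ hq hχ s a1 a2 a3).trans ?_
    have hx : 1 ≤ (q : ℝ) * s.im := by nlinarith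
    have e1 : ((q : ℝ) * s.im) ^ A1 ≤ ((q : ℝ) * s.im) ^ (A1 + A2 + c⁻¹) :=
      Real.rpow_le_rpow_of_exponent_le hx (by linarith)
    have e2 : 0 ≤ ((q : ℝ) * s.im) ^ (A1 + A2 + c⁻¹) := by positivity
    calc _ ≤ A1 * ((q : ℝ) * s.im) ^ (A1 + A2 + c⁻¹) :=
          mul_le_mul_of_nonneg_left e1 (by linarith)
      _ ≤ _ := mul_le_mul_of_nonneg_right (by linarith) e2
  · intro t _
    refine le_trans ?_ (h3 q χ t)
    rw [inv_le_comm₀ (by linarith) hc]
    linarith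
  · intro s a1 a2
    rcases eq_or_lt_of_le a1 with h | h
    · have hs : s = (⟨1, s.im⟩ : ℂ) := by
        apply Complex.ext
        · exact h.symm
        · rfl
      rw [hs]
      exact FF_line q hq χ hχ s.im (by linarith)
    · exact FF_ne_zero q χ s h
  · exact fun s a1 a2 => FF_nzl q hq χ hχ s a1 a2
  · exact fun s _ _ a2 => FF_symm q hq χ hχ s a2
  · intro n
    rw [norm_mul, norm_mul, Complex.norm_real, Complex.norm_real, Real.norm_eq_abs,
      Real.norm_of_nonneg ArithmeticFunction.vonMangoldt_nonneg]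
    have b1 := DirichletCharacter.norm_le_one χ (n : ZMod q)
    have b2 := cc_le n
    have b3 := abs_nonneg (Pool.Agent.H304R2.EC.cc n)
    refine mul_le_mul_of_nonneg_right ?_ ArithmeticFunction.vonMangoldt_nonneg
    calc ‖χ (n : ZMod q)‖ * |Pool.Agent.H304R2.EC.cc n| ≤ 1 * |Pool.Agent.H304R2.EC.cc n| := mul_le_mul_of_nonneg_right b1 b3
      _ ≤ 2 := by linarith
  · exact fun s a1 _ => FF_ld q χ s a1
  · intro s a1 a2 a3 a4
    exact (h2 q χ hq hχ s a1 a2 a3 a4).trans (by linarith)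

/-- the Euler factor of `L(E_D ⊗ χ, s + 1/2)` at `p` -/
noncomputable def eulD (D q : ℕ) (χ : DirichletCharacter ℂ q) (s : ℂ) (p : ℕ) : ℂ :=
  if p ∣ 2 * D then 1 else
    (1 - χ (p : ZMod q) * (aD D p : ℂ) * (p : ℂ) ^ (-(s + 1 / 2)) +
      χ (p : ZMod q) ^ 2 * (p : ℂ) ^ (-2 * s))⁻¹

/-- local factors -/
theorem fco_tsum (q : ℕ) [NeZero q] (χ : DirichletCharacter ℂ q) (s : ℂ) (hs : 1 < s.re) (p : ℕ)
    (hp : p.Prime) :
    ∑' e, EProd.fco q χ s (p ^ e) = if p = 2 then 1 else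
      (1 - χ ((p : ℕ) : ZMod q) * (an p : ℂ) * ((p : ℕ) : ℂ) ^ (-(s + 1 / 2)) +
        χ ((p : ℕ) : ZMod q) ^ 2 * ((p : ℕ) : ℂ) ^ (-2 * s))⁻¹ := by
  have hsum : HasSum (EProd.fco q χ s) (FF q χ s) := FF_series q χ s hs
  have hf1 : EProd.fco q χ s 1 = 1 := by simp [EProd.fco, an_one]
  have hpow : Summable (fun e => EProd.fco q χ s (p ^ e)) :=
    hsum.summable.comp_injective (Nat.pow_right_injective hp.two_le)
  by_cases h2 : p = 2
  · rw [if_pos h2]
    have hval : ∀ e, e ≠ 0 → EProd.fco q χ s (p ^ e) = 0 := by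
      intro e he
      unfold EProd.fco
      rw [an_even _ (by rw [h2]; exact dvd_pow_self 2 he)]
      simp
    rw [tsum_eq_single 0 hval]
    simpa using hf1
  · rw [if_neg h2]
    have hp0 : (p : ℂ) ≠ 0 := Nat.cast_ne_zero.mpr hp.ne_zero
    set X : ℂ := χ (p : ZMod q) * (p : ℂ) ^ (-(s + 1 / 2)) with hX
    have hval : ∀ e, EProd.fco q χ s (p ^ e) = (an (p ^ e) : ℂ) * X ^ e := by
      intro e
      unfold EProd.fco
      have h1 : ((p ^ e : ℕ) : ℂ) ^ (-(s + 1 / 2)) = ((p : ℂ) ^ (-(s + 1 / 2))) ^ e := by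
        induction e with
        | zero => simp
        | succ e ih =>
          rw [pow_succ, pow_succ, ← ih]
          push_cast
          rw [show ((p : ℂ) ^ e) = ((p ^ e : ℕ) : ℂ) by push_cast; rfl,
            Complex.natCast_mul_natCast_cpow]
      rw [h1, hX]
      push_cast
      rw [map_pow, mul_pow]
      ring
    have hX2 : (p : ℂ) * X ^ 2 = χ (p : ZMod q) ^ 2 * (p : ℂ) ^ (-2 * s) := by
      have h1 : (p : ℂ) ^ (-2 * s) = (p : ℂ) * ((p : ℂ) ^ (-(s + 1 / 2)) *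
          (p : ℂ) ^ (-(s + 1 / 2))) := by
        rw [← Complex.cpow_add _ _ hp0]
        have h2 : (p : ℂ) * (p : ℂ) ^ (-(s + 1 / 2) + -(s + 1 / 2)) =
            (p : ℂ) ^ (1 : ℂ) * (p : ℂ) ^ (-(s + 1 / 2) + -(s + 1 / 2)) := by
          rw [Complex.cpow_one]
        rw [h2, ← Complex.cpow_add _ _ hp0]
        congr 1
        ring
      rw [h1, hX]
      ring
    have key := EProd.local_factor (fun e => EProd.fco q χ s (p ^ e)) ((an p : ℂ) * X)
      ((p : ℂ) * X ^ 2)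
      (by simpa using hf1) (by
        have := hval 1
        simp only [pow_one] at this ⊢
        exact this) (by
        intro k
        simp only [hval]
        rw [an_pow p hp h2 k]
        push_cast
        ring) hpow
    rw [eq_comm, inv_eq_iff_eq_inv]
    rw [← hX2, show χ ((p : ℕ) : ZMod q) * (an p : ℂ) * ((p : ℕ) : ℂ) ^ (-(s + 1 / 2)) =
      (an p : ℂ) * X by rw [hX]; ring]
    exact eq_inv_of_mul_eq_one_left key

/-- Euler product as an unconditionally convergent product -/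
theorem FF_hasProd (q : ℕ) [NeZero q] (χ : DirichletCharacter ℂ q) (s : ℂ) (hs : 1 < s.re) :
    HasProd (fun p : Nat.Primes => if (p : ℕ) = 2 then 1 else
      (1 - χ ((p : ℕ) : ZMod q) * (an p : ℂ) * ((p : ℕ) : ℂ) ^ (-(s + 1 / 2)) +
        χ ((p : ℕ) : ZMod q) ^ 2 * ((p : ℕ) : ℂ) ^ (-2 * s))⁻¹) (FF q χ s) := by
  have hsum : HasSum (EProd.fco q χ s) (FF q χ s) := FF_series q χ s hs
  have hf1 : EProd.fco q χ s 1 = 1 := by simp [EProd.fco, an_one]
  have hf0 : EProd.fco q χ s 0 = 0 := by simp [EProd.fco, EProd.an_zero]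
  have hmul : ∀ {m n : ℕ}, m.Coprime n →
      EProd.fco q χ s (m * n) = EProd.fco q χ s m * EProd.fco q χ s n := by
    intro m n hmn
    unfold EProd.fco
    rw [an_mul m n hmn]
    push_cast
    rw [Complex.natCast_mul_natCast_cpow, map_mul]
    ring
  have hprod := EulerProduct.eulerProduct_hasProd hf1 hmul hsum.summable.norm hf0
  rw [hsum.tsum_eq] at hprod
  have e : (fun p : Nat.Primes => ∑' e, EProd.fco q χ s ((p : ℕ) ^ e)) = _ :=
    funext (fun p => fco_tsum q χ s hs p p.2)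
  rw [e] at hprod
  exact hprod

/-- the family of twisted L-functions of `E_D` -/
noncomputable def LD (D : ℕ) (ψ : DirichletCharacter ℂ D) (q : ℕ) (χ : DirichletCharacter ℂ q) :
    ℂ → ℂ := FF (q * D) (pm χ ψ)

theorem LD_props (D : ℕ) (hD : Odd D) (ψ : DirichletCharacter ℂ D) (hψ : ψ.IsPrimitive)
    (hψj : ∀ n : ℕ, ψ (n : ZMod D) = (jacobiSym n D : ℂ)) (q : ℕ) (χ : DirichletCharacter ℂ q)
    (hq : 1 ≤ q) (hqM : Nat.Coprime q (2 * D)) (hχ : χ.IsPrimitive) :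
    Differentiable ℂ (LD D ψ q χ) ∧ ∀ s : ℂ, 1 < s.re →
      HasProd (fun p : Nat.Primes => eulD D q χ s p) (LD D ψ q χ s) := by
  have hD0 : D ≠ 0 := by
    rintro rfl
    exact absurd hD (by decide)
  have i1 : NeZero q := ⟨by omega⟩
  have i2 : NeZero D := ⟨hD0⟩
  have i3 : NeZero (q * D) := ⟨Nat.mul_ne_zero (by omega) hD0⟩
  have hq2 : Nat.Coprime q 2 := Nat.Coprime.coprime_mul_right_right hqM
  have hqD : Nat.Coprime q D := Nat.Coprime.coprime_mul_left_right hqM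
  have hqodd : Odd q := Nat.Coprime.odd_of_right hq2
  refine ⟨FF_entire (q * D) (hqodd.mul hD) _ (pm_primitive hqD hχ hψ), fun s hs => ?_⟩
  have h := FF_hasProd (q * D) (pm χ ψ) s hs
  show HasProd (fun p : Nat.Primes => eulD D q χ s p) (FF (q * D) (pm χ ψ) s)
  refine (congrArg (fun f => HasProd f (FF (q * D) (pm χ ψ) s)) (funext fun p => ?_)).mpr h
  have hp := p.2
  unfold eulD
  by_cases h2 : (p : ℕ) = 2
  · rw [if_pos h2, if_pos (by rw [h2]; exact dvd_mul_right 2 D)]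
  rw [if_neg h2]
  by_cases hpD : (p : ℕ) ∣ D
  · rw [if_pos (hpD.mul_left 2)]
    have hz : ψ ((p : ℕ) : ZMod D) = 0 := by
      apply MulChar.map_nonunit
      rw [ZMod.isUnit_iff_coprime, hp.coprime_iff_not_dvd]
      exact fun h => h hpD
    rw [pm_apply, hz]
    simp
  · have hp2D : ¬ (p : ℕ) ∣ 2 * D := by
      intro h
      rcases (Nat.Prime.dvd_mul hp).mp h with h | h
      · exact h2 ((Nat.prime_dvd_prime_iff_eq hp Nat.prime_two).mp h)
      · exact hpD h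
    rw [if_neg hp2D, pm_apply, hψj, aD_jac D p hD hp h2 hpD, aE_eq p hp h2]
    have hj : ((jacobiSym (p : ℕ) D : ℤ) : ℂ) ^ 2 = 1 := by
      have hcop : Int.gcd ((p : ℕ) : ℤ) (D : ℤ) = 1 := by
        rw [Int.gcd_natCast_natCast]
        exact (hp.coprime_iff_not_dvd).mpr hpD
      have := jacobiSym.sq_one' hcop
      rcases jacobiSym.eq_one_or_neg_one hcop with h | h
      · rw [h]; simp
      · rw [h]; simp
    congr 2
    · push_cast
      ring
    · rw [mul_pow, hj, mul_one]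

/-- the final theorem -/
theorem ec_final (D : ℕ) (hD : Odd D) (hsf : Squarefree D) :
    ∃ L : (q : ℕ) → DirichletCharacter ℂ q → ℂ → ℂ,
      (∀ (q : ℕ) (χ : DirichletCharacter ℂ q), 1 ≤ q → Nat.Coprime q (2 * D) → χ.IsPrimitive →
        Differentiable ℂ (L q χ) ∧ ∀ s : ℂ, 1 < s.re →
          HasProd (fun p : Nat.Primes => eulD D q χ s p) (L q χ s)) ∧
      ∃ K η X0 : ℝ, 1 ≤ K ∧ 0 < η ∧ 1 ≤ X0 ∧
        ∀ (X Y : ℕ) (T : ℝ), X0 ≤ X → K * X ≤ Y → (Y : ℝ) ≤ (X : ℝ) ^ (1 + η) →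
        (Real.log X) ^ 2 ≤ T → T ≤ (X : ℝ) ^ η →
        0.6725 * primFamM (2 * D) X Y (fun q χ => (NN (L q χ) T (2 * T) : ℝ)) ≤
          primFamM (2 * D) X Y (fun q χ => (Ns (L q χ) T (2 * T) : ℝ)) ∧
        0.83625 * primFamM (2 * D) X Y (fun q χ => (NN (L q χ) T (2 * T) : ℝ)) ≤
          primFamM (2 * D) X Y (fun q χ => (Nd (L q χ) T (2 * T) : ℝ)) := by
  have hD0 : D ≠ 0 := by
    rintro rfl
    exact absurd hD (by decide)
  obtain ⟨ψ, hψ, hψj⟩ := jac_char D hD hsf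
  obtain ⟨A, hA, hgood⟩ := ec_good
  obtain ⟨C, hC⟩ := rs
  refine ⟨LD D ψ, fun q χ => LD_props D hD ψ hψ hψj q χ, ?_⟩
  have hc : ∀ n, ‖((Pool.Agent.H304R2.EC.cc n : ℝ) : ℂ)‖ ≤ 2 := by
    intro n
    rw [Complex.norm_real, Real.norm_eq_abs]
    exact cc_le n
  have hT := TwD_twist A hA (fun n => ((Pool.Agent.H304R2.EC.cc n : ℝ) : ℂ)) hc
    (fun q χ => FF q χ) (fun q _ χ h1 h2 => hgood q χ h1 h2) D hD ψ hψ
  have hS := Selb_twist (fun n => Pool.Agent.H304R2.EC.cc n) cc_le C hC D hD0 ψ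
  have hM : Squarefree (2 * D) := by
    rw [Nat.squarefree_mul (Nat.coprime_two_left.mpr hD)]
    exact ⟨Nat.prime_two.prime.squarefree, hsf⟩
  have hDr : (1 : ℝ) ≤ D := by exact_mod_cast Nat.one_le_iff_ne_zero.mpr hD0
  have hA' : 1 ≤ A * (D : ℝ) ^ A + A + 2 * Real.log D := by
    have h1 : 0 ≤ A * (D : ℝ) ^ A := by positivity
    have h2 : 0 ≤ Real.log D := Real.log_nonneg hDr
    linarith
  exact final_deg2 _ hA' (2 * D) hM _ _ hT _ hS

end H385
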