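import Pool.Agent.H385R2.Farey
import Pool.Agent.H385R2.Dual

/-!
TEAM Q, module Q5 : the log-averaged Farey large sieve (from Q3 and Q4).
-/

open Complex Filter Topology Set MeasureTheory

namespace H385


lemma fold_summable (q : ℕ) [NeZero q] (V θ : ℝ) (hV : 0 < V) (r : Fin q) :
    Summable (fun m : ℤ => PK V (θ - ((m * q + (r : ℕ) : ℤ) : ℝ) / q)) := by
  have h := PK_summable V (θ - ((r : ℕ) : ℝ) / q) hV
  have h2 := (Equiv.neg ℤ).summable_iff.mpr h
  refine h2.congr ?_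
  intro m
  simp only [Function.comp, Equiv.neg_apply]
  congr 1
  have hq : (q : ℝ) ≠ 0 := Nat.cast_ne_zero.mpr (NeZero.ne q)
  push_cast
  field_simp
  ring

lemma fold_tsum (q : ℕ) [NeZero q] (V θ : ℝ) (r : Fin q) :
    ∑' m : ℤ, PK V (θ - ((m * q + (r : ℕ) : ℤ) : ℝ) / q)
      = ∑' m : ℤ, PK V (θ - ((r : ℕ) : ℝ) / q + m) := by
  rw [← (Equiv.neg ℤ).tsum_eq (fun m : ℤ => PK V (θ - ((r : ℕ) : ℝ) / q + m))]
  apply tsum_congr
  intro m
  simp only [Equiv.neg_apply]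
  congr 1
  have hq : (q : ℝ) ≠ 0 := Nat.cast_ne_zero.mpr (NeZero.ne q)
  push_cast
  field_simp
  ring

/-- the bijection `(r, m) ↦ m q + r` -/
def EE (q : ℕ) [NeZero q] : Fin q × ℤ ≃ ℤ := (Equiv.prodComm _ _).trans (Int.divModEquiv q).symm

lemma EE_apply (q : ℕ) [NeZero q] (r : Fin q) (m : ℤ) : EE q (r, m) = m * q + (r : ℕ) := rfl

/-- the summand -/
noncomputable def fsum (q : ℕ) (V θ : ℝ) (a : ℤ) : ℝ :=
  if Int.gcd a q = 1 then PK V (θ - a / q) else 0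

lemma fsum_EE (q : ℕ) [NeZero q] (V θ : ℝ) (r : Fin q) (m : ℤ) :
    fsum q V θ (EE q (r, m)) =
      if Nat.Coprime (r : ℕ) q then PK V (θ - ((m * q + (r : ℕ) : ℤ) : ℝ) / q) else 0 := by
  have hcop : (Int.gcd (m * q + (r : ℕ)) q = 1) ↔ Nat.Coprime (r : ℕ) q := by
    rw [Int.gcd_mul_right_add_left, Int.gcd_natCast_natCast]
  rw [EE_apply]
  unfold fsum
  by_cases h : Nat.Coprime (r : ℕ) q
  · rw [if_pos h, if_pos (hcop.mpr h)]
  · rw [if_neg h, if_neg (fun h' => h (hcop.mp h'))]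

lemma fsum_nonneg (q : ℕ) (V θ : ℝ) (hV : 0 < V) (a : ℤ) : 0 ≤ fsum q V θ a := by
  unfold fsum PK
  split_ifs
  · positivity
  · exact le_rfl

lemma fsum_summable (q : ℕ) [NeZero q] (V θ : ℝ) (hV : 0 < V) :
    Summable (fun p : Fin q × ℤ => fsum q V θ (EE q p)) := by
  apply (summable_prod_of_nonneg (fun p => fsum_nonneg q V θ hV _)).mpr
  refine ⟨fun r => ?_, Summable.of_finite⟩
  refine Summable.congr (f := fun m : ℤ =>
    if Nat.Coprime (r : ℕ) q then PK V (θ - ((m * q + (r : ℕ) : ℤ) : ℝ) / q) else 0) ?_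
    (fun m => (fsum_EE q V θ r m).symm)
  by_cases h : Nat.Coprime (r : ℕ) q
  · simp_rw [if_pos h]
    exact fold_summable q V θ hV r
  · simp_rw [if_neg h]
    exact summable_zero

lemma fold (q : ℕ) [NeZero q] (V θ : ℝ) (hV : 0 < V) :
    ∑ b ∈ (Finset.range q).filter (fun b => Nat.Coprime b q), ∑' m : ℤ, PK V (θ - (b : ℝ) / q + m)
      = ∑' a : ℤ, (if Int.gcd a q = 1 then PK V (θ - a / q) else 0) := by
  have h0 : ∑' a : ℤ, (if Int.gcd a q = 1 then PK V (θ - a / q) else 0) = ∑' a : ℤ, fsum q V θ a :=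
    rfl
  have hterm : ∀ r : Fin q, ∑' m : ℤ, fsum q V θ (EE q (r, m))
      = if Nat.Coprime (r : ℕ) q then ∑' m : ℤ, PK V (θ - ((r : ℕ) : ℝ) / q + m) else 0 := by
    intro r
    rw [tsum_congr (fun m => fsum_EE q V θ r m)]
    by_cases h : Nat.Coprime (r : ℕ) q
    · simp_rw [if_pos h]
      exact fold_tsum q V θ r
    · simp_rw [if_neg h]
      exact tsum_zero
  rw [h0, ← (EE q).tsum_eq (fsum q V θ), (fsum_summable q V θ hV).tsum_prod, tsum_fintype,
    Finset.sum_congr rfl (fun r _ => hterm r), Finset.sum_filter,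
    Finset.sum_range (fun b => if Nat.Coprime b q then ∑' m : ℤ, PK V (θ - (b : ℝ) / q + m) else 0)]

theorem farey_large_sieve : ∃ C : ℝ, 0 < C ∧ ∀ (A B N : ℕ) (V : ℝ) (a : ℕ → ℂ), 1 ≤ A → A ≤ B →
    1 ≤ V → V ≤ (A : ℝ) ^ 2 →
    ∑ q ∈ Finset.Ioc A B, (1 / (q : ℝ) ^ 2) *
      ∑ b ∈ (Finset.range q).filter (fun b => Nat.Coprime b q), ‖SS N a ((b : ℝ) / q)‖ ^ 2 ≤
    Real.exp (Real.pi * N / V) * (c0 * Real.log ((B : ℝ) / A) + C) *
      ∑ n ∈ Finset.Icc 1 N, ‖a n‖ ^ 2 := by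
  obtain ⟨C, hC, hden⟩ := farey_density
  refine ⟨C, hC, ?_⟩
  intro A B N V a hA hAB hV hVA
  have hV0 : 0 < V := by linarith
  have hAR : (0 : ℝ) < A := by exact_mod_cast hA
  have hc0 : 0 ≤ c0 := by unfold c0; positivity
  have hlog : 0 ≤ Real.log ((B : ℝ) / A) := by
    apply Real.log_nonneg
    rw [le_div_iff₀ hAR, one_mul]
    exact_mod_cast hAB
  have hΔ : 0 ≤ c0 * Real.log ((B : ℝ) / A) + C := by positivity
  set s : Finset (Σ _ : ℕ, ℕ) := (Finset.Ioc A B).sigma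
    (fun q => (Finset.range q).filter (fun b => Nat.Coprime b q)) with hs
  have key := dual_large_sieve s (fun i => (i.2 : ℝ) / i.1) (fun i => 1 / (i.1 : ℝ) ^ 2)
    (fun i _ => by positivity) V (c0 * Real.log ((B : ℝ) / A) + C) hV0 hΔ ?_ N a
  · rw [hs, Finset.sum_sigma] at key
    simp only at key
    calc _ = _ := by
          apply Finset.sum_congr rfl
          intro q _
          rw [Finset.mul_sum]
      _ ≤ _ := key
  · intro i hi
    rw [hs, Finset.sum_sigma]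
    simp only
    refine le_trans (le_of_eq ?_) (hden A B V ((i.2 : ℝ) / i.1) hA hAB hV hVA)
    apply Finset.sum_congr rfl
    intro q hq
    rw [Finset.mem_Ioc] at hq
    have : NeZero q := ⟨by omega⟩
    rw [← fold q V _ hV0, Finset.mul_sum]

end H385
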