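import Pool.Agent.H385R2.Line

/-!
TEAM Q, module R2: sums of a Lorentzian over an arithmetic progression avoiding one residue class
modulo every prime factor of a squarefree `M`.
-/

set_option autoImplicit false

open Filter Topology Set MeasureTheory

namespace H385

lemma crt_primes (S : Finset ℕ) (hS : ∀ p ∈ S, p.Prime) (c : ℕ → ℤ) :
    ∃ cs : ℤ, ∀ p ∈ S, (p : ℤ) ∣ cs - c p := by
  classical
  induction S using Finset.induction_on with
  | empty => exact ⟨0, by simp⟩
  | insert p S hp ih =>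
    obtain ⟨cs, hcs⟩ := ih (fun q hq => hS q (Finset.mem_insert_of_mem hq))
    have hpp : p.Prime := hS p (Finset.mem_insert_self _ _)
    have hcop : Nat.Coprime (∏ q ∈ S, q) p := by
      apply Nat.Coprime.prod_left
      intro q hq
      have hqp : q.Prime := hS q (Finset.mem_insert_of_mem hq)
      rw [Nat.coprime_primes hqp hpp]
      rintro rfl
      exact hp hq
    have hic : IsCoprime ((∏ q ∈ S, q : ℕ) : ℤ) (p : ℤ) := Nat.isCoprime_iff_coprime.mpr hcop
    obtain ⟨u, v, huv⟩ := hic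
    refine ⟨cs + (c p - cs) * (u * ((∏ q ∈ S, q : ℕ) : ℤ)), ?_⟩
    intro q hq
    rw [Finset.mem_insert] at hq
    rcases hq with rfl | hq
    · have h1 : cs + (c q - cs) * (u * ((∏ q ∈ S, q : ℕ) : ℤ)) - c q = (q : ℤ) * (-(c q - cs) * v) := by
        have : u * ((∏ q ∈ S, q : ℕ) : ℤ) = 1 - v * q := by linarith
        rw [this]
        ring
      rw [h1]
      exact dvd_mul_right _ _
    · have h1 : (q : ℤ) ∣ ((∏ q ∈ S, q : ℕ) : ℤ) := by
        exact_mod_cast Finset.dvd_prod_of_mem (fun q => q) hq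
      have h2 : cs + (c p - cs) * (u * ((∏ q ∈ S, q : ℕ) : ℤ)) - c q =
          (cs - c q) + (c p - cs) * u * ((∏ q ∈ S, q : ℕ) : ℤ) := by ring
      rw [h2]
      exact dvd_add (hcs q hq) (dvd_mul_of_dvd_right h1 _)

theorem line_sum_P : ∃ C : ℝ, 0 < C ∧ ∀ (A B r M : ℕ) (r' j : ℤ) (c : ℕ → ℤ) (α x0 κ : ℝ), A ≤ B →
    1 ≤ r → Squarefree M → 0 < α → 0 < κ →
    ∑ q ∈ (Finset.Ioc A B).filter (fun q : ℕ => (r : ℤ) ∣ ((q : ℤ) - j * r') ∧
        ∀ p ∈ M.primeFactors, ¬ (p : ℤ) ∣ (((q : ℤ) - j * r') / r - c p)),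
          1 / (α * ((q : ℝ) - x0) ^ 2 + κ) ≤
      ((Nat.totient M : ℝ) / M) * (1 / r) * (∫ x in (A : ℝ)..B, 1 / (α * (x - x0) ^ 2 + κ))
      + C * (Nat.divisors M).card / κ := by
  classical
  refine ⟨9, by norm_num, ?_⟩
  intro A B r M r' j c α x0 κ hAB hr hM hα hκ
  have hM0 : M ≠ 0 := hM.ne_zero
  have hr0 : (r : ℤ) ≠ 0 := by exact_mod_cast (by omega : r ≠ 0)
  have hr1 : (1 : ℝ) ≤ r := by exact_mod_cast hr
  obtain ⟨cs, hcs⟩ := crt_primes M.primeFactors (fun p hp => Nat.prime_of_mem_primeFactors hp) c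
  -- pointwise identity
  have hpt : ∀ q : ℕ, (if (r : ℤ) ∣ ((q : ℤ) - j * r') ∧
        ∀ p ∈ M.primeFactors, ¬ (p : ℤ) ∣ (((q : ℤ) - j * r') / r - c p) then (1 : ℝ) else 0) =
      ∑ d ∈ M.divisors, (ArithmeticFunction.moebius d : ℝ) * cAP (r * d) (j * r' + r * cs) q := by
    intro q
    by_cases hdvd : (r : ℤ) ∣ ((q : ℤ) - j * r')
    · obtain ⟨k, hk⟩ := hdvd
      have hkq : ((q : ℤ) - j * r') / r = k := by rw [hk]; exact Int.mul_ediv_cancel_left k hr0
      have hdv : (r : ℤ) ∣ ((q : ℤ) - j * r') := ⟨k, hk⟩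
      simp only [hdv, true_and]
      rw [hkq]
      have hcond : (∀ p ∈ M.primeFactors, ¬ (p : ℤ) ∣ (k - c p)) ↔ Int.gcd (k - cs) M = 1 := by
        constructor
        · intro h
          by_contra h1
          obtain ⟨p, hp, hpd⟩ := Nat.exists_prime_and_dvd h1
          have hpM : p ∣ M := by
            have : (p : ℤ) ∣ (M : ℤ) := (Int.natCast_dvd_natCast.mpr hpd).trans (Int.gcd_dvd_right ..)
            exact_mod_cast this
          have hpk : (p : ℤ) ∣ k - cs := (Int.natCast_dvd_natCast.mpr hpd).trans (Int.gcd_dvd_left ..)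
          have hpm : p ∈ M.primeFactors := Nat.mem_primeFactors.mpr ⟨hp, hpM, hM0⟩
          apply h p hpm
          have := dvd_add hpk (hcs p hpm)
          simpa using this
        · intro h p hp hd
          have hpp := Nat.prime_of_mem_primeFactors hp
          have hpM := Nat.dvd_of_mem_primeFactors hp
          have h1 : (p : ℤ) ∣ k - cs := by
            have := dvd_sub hd (hcs p hp)
            simpa using this
          have h2 : (p : ℤ) ∣ (Int.gcd (k - cs) M : ℤ) := Int.dvd_coe_gcd h1 (by exact_mod_cast hpM)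
          rw [h] at h2
          have h3 : p ∣ 1 := by exact_mod_cast h2
          exact hpp.one_lt.ne' (Nat.dvd_one.mp h3)
      have hcond' : (if (∀ p ∈ M.primeFactors, ¬ (p : ℤ) ∣ (k - c p)) then (1 : ℝ) else 0) =
          if Int.gcd (k - cs) M = 1 then (1 : ℝ) else 0 := by
        simp only [hcond]
      rw [hcond']
      have hg0 : Int.gcd (k - cs) M ≠ 0 := by
        intro h
        have := (Int.gcd_eq_zero_iff.mp h).2
        exact hM0 (by exact_mod_cast this)
      have h1 := moebius_indicator (Int.gcd (k - cs) M)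
      have h2 : (if Int.gcd (k - cs) M = 1 then (1 : ℝ) else 0) =
          ∑ d ∈ (Int.gcd (k - cs) M).divisors, (ArithmeticFunction.moebius d : ℝ) := by
        have h3 : ((∑ d ∈ (Int.gcd (k - cs) M).divisors,
            (ArithmeticFunction.moebius d : ℤ) : ℤ) : ℝ) =
          ((if Int.gcd (k - cs) M = 1 then (1 : ℤ) else 0 : ℤ) : ℝ) := by rw [h1]
        push_cast at h3
        rw [h3]
      rw [h2]
      have h4 : (Int.gcd (k - cs) M).divisors =
          M.divisors.filter (fun d : ℕ => (d : ℤ) ∣ k - cs) := by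
        ext d
        simp only [Nat.mem_divisors, Finset.mem_filter]
        constructor
        · rintro ⟨hd, _⟩
          have hd' : (d : ℤ) ∣ (Int.gcd (k - cs) M : ℤ) := by exact_mod_cast hd
          refine ⟨⟨?_, hM0⟩, hd'.trans (Int.gcd_dvd_left ..)⟩
          have h5 : (d : ℤ) ∣ M := hd'.trans (Int.gcd_dvd_right ..)
          exact_mod_cast h5
        · rintro ⟨⟨hd, _⟩, hdk⟩
          refine ⟨?_, hg0⟩
          have h6 : (d : ℤ) ∣ (Int.gcd (k - cs) M : ℤ) := Int.dvd_coe_gcd hdk (by exact_mod_cast hd)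
          exact_mod_cast h6
      rw [h4, Finset.sum_filter]
      apply Finset.sum_congr rfl
      intro d _
      unfold cAP
      have h7 : (((r * d : ℕ) : ℤ) ∣ (q : ℤ) - (j * r' + r * cs)) ↔ (d : ℤ) ∣ k - cs := by
        have : (q : ℤ) - (j * r' + r * cs) = r * (k - cs) := by
          rw [mul_sub, ← hk]; ring
        rw [this]
        push_cast
        exact mul_dvd_mul_iff_left hr0
      by_cases h8 : (d : ℤ) ∣ k - cs
      · rw [if_pos h8, if_pos (h7.mpr h8), mul_one]
      · rw [if_neg h8, if_neg (fun h => h8 (h7.mp h)), mul_zero]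
    · rw [if_neg (fun h => hdvd h.1)]
      symm
      apply Finset.sum_eq_zero
      intro d _
      unfold cAP
      rw [if_neg, mul_zero]
      intro h
      apply hdvd
      have h1 : (r : ℤ) ∣ (q : ℤ) - (j * r' + r * cs) := by
        refine dvd_trans ?_ h
        push_cast
        exact dvd_mul_right _ _
      have h2 : (q : ℤ) - j * r' = ((q : ℤ) - (j * r' + r * cs)) + r * cs := by ring
      rw [h2]
      exact dvd_add h1 (dvd_mul_right _ _)
  have hsum : ∑ q ∈ (Finset.Ioc A B).filter (fun q : ℕ => (r : ℤ) ∣ ((q : ℤ) - j * r') ∧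
        ∀ p ∈ M.primeFactors, ¬ (p : ℤ) ∣ (((q : ℤ) - j * r') / r - c p)),
          1 / (α * ((q : ℝ) - x0) ^ 2 + κ) =
      ∑ d ∈ M.divisors, (ArithmeticFunction.moebius d : ℝ) *
        ∑ q ∈ Finset.Ioc A B, cAP (r * d) (j * r' + r * cs) q * lor α x0 κ q := by
    rw [Finset.sum_filter]
    have h1 : ∀ q ∈ Finset.Ioc A B, (if (r : ℤ) ∣ ((q : ℤ) - j * r') ∧
        ∀ p ∈ M.primeFactors, ¬ (p : ℤ) ∣ (((q : ℤ) - j * r') / r - c p)
        then 1 / (α * ((q : ℝ) - x0) ^ 2 + κ) else 0) =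
        ∑ d ∈ M.divisors, (ArithmeticFunction.moebius d : ℝ) *
          (cAP (r * d) (j * r' + r * cs) q * lor α x0 κ q) := by
      intro q _
      have h2 : (if (r : ℤ) ∣ ((q : ℤ) - j * r') ∧
        ∀ p ∈ M.primeFactors, ¬ (p : ℤ) ∣ (((q : ℤ) - j * r') / r - c p)
        then 1 / (α * ((q : ℝ) - x0) ^ 2 + κ) else 0) =
        (if (r : ℤ) ∣ ((q : ℤ) - j * r') ∧
        ∀ p ∈ M.primeFactors, ¬ (p : ℤ) ∣ (((q : ℤ) - j * r') / r - c p)
        then (1 : ℝ) else 0) * lor α x0 κ q := by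
        unfold lor
        split_ifs <;> simp
      rw [h2, hpt, Finset.sum_mul]
      apply Finset.sum_congr rfl
      intro d _
      ring
    rw [Finset.sum_congr rfl h1, Finset.sum_comm]
    apply Finset.sum_congr rfl
    intro d _
    rw [Finset.mul_sum]
  rw [hsum]
  set J : ℝ := ∫ x in (A : ℝ)..B, lor α x0 κ x with hJ
  have hJ' : (∫ x in (A : ℝ)..B, 1 / (α * (x - x0) ^ 2 + κ)) = J := rfl
  rw [hJ']
  have hterm : ∀ d ∈ M.divisors, (ArithmeticFunction.moebius d : ℝ) *
        ∑ q ∈ Finset.Ioc A B, cAP (r * d) (j * r' + r * cs) q * lor α x0 κ q ≤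
      (1 / r) * J * ((ArithmeticFunction.moebius d : ℝ) / d) + 9 / κ := by
    intro d hd
    have hd0 : 1 ≤ d := Nat.pos_of_mem_divisors hd
    have hd1 : (1 : ℝ) ≤ d := by exact_mod_cast hd0
    have h1 := ap_sum x0 hα hκ A B (r * d) (j * r' + r * cs)
      (Nat.one_le_iff_ne_zero.mpr (by positivity)) hAB
    rw [← hJ] at h1
    have h2 : |(ArithmeticFunction.moebius d : ℝ)| ≤ 1 := by
      have := ArithmeticFunction.abs_moebius_le_one (n := d)
      exact_mod_cast this
    set S := ∑ q ∈ Finset.Ioc A B, cAP (r * d) (j * r' + r * cs) q * lor α x0 κ q with hS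
    have h3 : (ArithmeticFunction.moebius d : ℝ) * (S - 1 / ((r * d : ℕ) : ℝ) * J) ≤ 9 / κ := by
      refine (le_abs_self _).trans ?_
      rw [abs_mul]
      calc |(ArithmeticFunction.moebius d : ℝ)| * |S - 1 / ((r * d : ℕ) : ℝ) * J|
          ≤ 1 * (9 / κ) := mul_le_mul h2 h1 (abs_nonneg _) zero_le_one
        _ = 9 / κ := one_mul _
    have h4 : (ArithmeticFunction.moebius d : ℝ) * S = (ArithmeticFunction.moebius d : ℝ) *
        (S - 1 / ((r * d : ℕ) : ℝ) * J) + (1 / r) * J * ((ArithmeticFunction.moebius d : ℝ) / d) := by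
      push_cast
      field_simp
      ring
    rw [h4]
    linarith
  calc ∑ d ∈ M.divisors, (ArithmeticFunction.moebius d : ℝ) *
        ∑ q ∈ Finset.Ioc A B, cAP (r * d) (j * r' + r * cs) q * lor α x0 κ q
      ≤ ∑ d ∈ M.divisors, ((1 / r) * J * ((ArithmeticFunction.moebius d : ℝ) / d) + 9 / κ) :=
        Finset.sum_le_sum hterm
    _ = (1 / r) * J * ((Nat.totient M : ℝ) / M) + M.divisors.card * (9 / κ) := by
        rw [Finset.sum_add_distrib, ← Finset.mul_sum, totient_moebius hM0, Finset.sum_const,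
          nsmul_eq_mul]
    _ = _ := by ring

end H385
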