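import Pool.Agent.H385R2.Theta

/-!
TEAM Q, module R1: `∑_{t ≤ n, (t,e)=1} ∏_{p ∣ t, p ∤ P} (1-1/p) / t = κ log n + O(1)`.
-/

set_option autoImplicit false

open Filter Topology Set MeasureTheory

namespace H385

/-- local weights -/
noncomputable def wPe (P e p : ℕ) : ℝ := if p ∣ e then 1 else if p ∣ P then 0 else 1 / (p : ℝ)

/-- `μ(d) ∏_{p ∣ d} w_p` -/
noncomputable def lamW (w : ℕ → ℝ) : ArithmeticFunction ℝ :=
  ((ArithmeticFunction.moebius : ArithmeticFunction ℤ) : ArithmeticFunction ℝ).pmul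
    (ArithmeticFunction.prodPrimeFactors w)

lemma lamW_mult (w : ℕ → ℝ) : (lamW w).IsMultiplicative :=
  ArithmeticFunction.isMultiplicative_moebius.intCast.pmul
    (ArithmeticFunction.IsMultiplicative.prodPrimeFactors w)

lemma lamW_apply (w : ℕ → ℝ) (d : ℕ) (hd : d ≠ 0) :
    lamW w d = (ArithmeticFunction.moebius d : ℝ) * ∏ p ∈ d.primeFactors, w p := by
  unfold lamW
  rw [ArithmeticFunction.pmul_apply, ArithmeticFunction.prodPrimeFactors_apply hd]
  simp

lemma lamW_prime (w : ℕ → ℝ) (p : ℕ) (hp : p.Prime) : lamW w p = - w p := by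
  rw [lamW_apply w p hp.ne_zero, ArithmeticFunction.moebius_apply_prime hp, hp.primeFactors]
  simp

lemma lamW_prime_pow (w : ℕ → ℝ) (p k : ℕ) (hp : p.Prime) (hk : 2 ≤ k) : lamW w (p ^ k) = 0 := by
  rw [lamW_apply w _ (pow_ne_zero _ hp.ne_zero),
    ArithmeticFunction.moebius_apply_prime_pow hp (by omega), if_neg (by omega)]
  simp

/-- `∑_{d ∣ n} μ(d) ∏_{p∣d} w_p = ∏_{p ∣ n} (1 - w_p)` -/
lemma lamW_sum (w : ℕ → ℝ) (n : ℕ) (hn : n ≠ 0) :
    ∑ d ∈ n.divisors, lamW w d = ∏ p ∈ n.primeFactors, (1 - w p) := by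
  have h : lamW w * (ArithmeticFunction.zeta : ArithmeticFunction ℝ) =
      ArithmeticFunction.prodPrimeFactors (fun p => 1 - w p) := by
    rw [ArithmeticFunction.IsMultiplicative.eq_iff_eq_on_prime_powers _
      ((lamW_mult w).mul ArithmeticFunction.isMultiplicative_zeta.natCast) _
      (ArithmeticFunction.IsMultiplicative.prodPrimeFactors _)]
    intro p i hp
    rw [ArithmeticFunction.coe_mul_zeta_apply]
    rcases Nat.eq_zero_or_pos i with rfl | hi
    · rw [pow_zero, Nat.divisors_one, Finset.sum_singleton, (lamW_mult w).map_one,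
        (ArithmeticFunction.IsMultiplicative.prodPrimeFactors _).map_one]
    · rw [Nat.sum_divisors_prime_pow hp,
        ArithmeticFunction.prodPrimeFactors_apply (pow_ne_zero _ hp.ne_zero),
        Nat.primeFactors_prime_pow hi.ne' hp, Finset.prod_singleton]
      have h1 : ∀ k ∈ Finset.range (i + 1), k ∉ Finset.range 2 → lamW w (p ^ k) = 0 := by
        intro k _ hk
        rw [Finset.mem_range] at hk
        exact lamW_prime_pow w p k hp (by omega)
      rw [← Finset.sum_subset (Finset.range_subset_range.mpr (by omega : 2 ≤ i + 1)) h1]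
      rw [Finset.sum_range_succ, Finset.sum_range_one, pow_zero, pow_one, (lamW_mult w).map_one,
        lamW_prime w p hp]
      ring
  rw [← ArithmeticFunction.coe_mul_zeta_apply, h, ArithmeticFunction.prodPrimeFactors_apply hn]

lemma sum_conv_eq (lam : ℕ → ℝ) (n : ℕ) :
    ∑ i ∈ Finset.Icc 1 n, (∑ d ∈ i.divisors, lam d) / (i : ℝ) =
      ∑ d ∈ Finset.Icc 1 n, (lam d / (d : ℝ)) * ∑ e ∈ Finset.Icc 1 (n / d), (1 : ℝ) / e := by
  have h1 : ∀ i ∈ Finset.Icc 1 n, (∑ d ∈ i.divisors, lam d) / (i : ℝ) =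
      ∑ d ∈ Finset.Icc 1 n, (if d ∣ i then lam d * (1 / i) else 0) := by
    intro i hi
    rw [Finset.mem_Icc] at hi
    have hi0 : i ≠ 0 := by omega
    have h3 : (Finset.Icc 1 n).filter (fun d => d ∣ i) = i.divisors := by
      ext d
      simp only [Finset.mem_filter, Finset.mem_Icc, Nat.mem_divisors]
      constructor
      · rintro ⟨⟨h4, h5⟩, h6⟩
        exact ⟨h6, hi0⟩
      · rintro ⟨h6, _⟩
        have := Nat.le_of_dvd (by omega) h6
        have := Nat.pos_of_dvd_of_pos h6 (by omega)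
        exact ⟨⟨by omega, by omega⟩, h6⟩
    rw [← Finset.sum_filter, h3, ← Finset.sum_mul, div_eq_mul_one_div]
  rw [Finset.sum_congr rfl h1, Finset.sum_comm]
  apply Finset.sum_congr rfl
  intro d hd
  rw [Finset.mem_Icc] at hd
  rw [← Finset.sum_filter, Finset.mul_sum]
  symm
  refine Finset.sum_nbij' (fun e => d * e) (fun i => i / d) ?_ ?_ ?_ ?_ ?_
  · intro e he
    rw [Finset.mem_Icc] at he
    rw [Finset.mem_filter, Finset.mem_Icc]
    refine ⟨⟨by nlinarith, ?_⟩, dvd_mul_right d e⟩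
    calc d * e ≤ d * (n / d) := Nat.mul_le_mul_left d he.2
      _ ≤ n := Nat.mul_div_le n d
  · intro i hi
    rw [Finset.mem_filter, Finset.mem_Icc] at hi
    rw [Finset.mem_Icc]
    obtain ⟨⟨h5, h6⟩, e, rfl⟩ := hi
    rw [Nat.mul_div_cancel_left e (by omega)]
    refine ⟨?_, ?_⟩
    · rcases Nat.eq_zero_or_pos e with h | h
      · rw [h] at h5; omega
      · exact h
    · rw [Nat.le_div_iff_mul_le (by omega)]
      rw [mul_comm]; exact h6
  · intro e _
    exact Nat.mul_div_cancel_left e (by omega)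
  · intro i hi
    rw [Finset.mem_filter] at hi
    exact Nat.mul_div_cancel' hi.2
  · intro e he
    rw [Finset.mem_Icc] at he
    have : (d : ℝ) ≠ 0 := by exact_mod_cast (by omega : d ≠ 0)
    have : (e : ℝ) ≠ 0 := by exact_mod_cast (by omega : e ≠ 0)
    push_cast
    field_simp

lemma summable_sq : Summable (fun d : ℕ => (1 : ℝ) / (d : ℝ) ^ 2) :=
  Real.summable_one_div_nat_pow.mpr (by norm_num)

lemma summable_log_sq : Summable (fun d : ℕ => Real.log d / (d : ℝ) ^ 2) := by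
  have h1 : Summable (fun d : ℕ => 2 * (d : ℝ) ^ (-(3 / 2 : ℝ))) :=
    (Real.summable_nat_rpow.mpr (by norm_num)).mul_left 2
  refine Summable.of_nonneg_of_le (fun d => ?_) (fun d => ?_) h1
  · apply div_nonneg (Real.log_natCast_nonneg d) (by positivity)
  · rcases Nat.eq_zero_or_pos d with rfl | hd
    · simp
    · have hd' : (0 : ℝ) < d := by exact_mod_cast hd
      have h2 : Real.log d ≤ (d : ℝ) ^ (1 / 2 : ℝ) / (1 / 2) :=
        Real.log_le_rpow_div hd'.le (by norm_num)
      rw [div_le_iff₀ (by positivity)]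
      calc Real.log d ≤ (d : ℝ) ^ (1 / 2 : ℝ) / (1 / 2) := h2
        _ = 2 * (d : ℝ) ^ (-(3 / 2 : ℝ)) * (d : ℝ) ^ 2 := by
            rw [← Real.rpow_two, mul_assoc, ← Real.rpow_add hd']
            norm_num
            ring

lemma lam_div_le {lam : ℕ → ℝ} {K : ℝ} (hb : ∀ d, 1 ≤ d → |lam d| ≤ K / d) (d : ℕ) :
    |lam d / d| ≤ K * (1 / (d : ℝ) ^ 2) := by
  rcases Nat.eq_zero_or_pos d with rfl | hd
  · simp
  · have hd' : (0 : ℝ) < d := by exact_mod_cast hd
    rw [abs_div, abs_of_pos hd', div_le_iff₀ hd']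
    calc |lam d| ≤ K / d := hb d hd
      _ = K * (1 / (d : ℝ) ^ 2) * d := by field_simp

lemma lam_summable {lam : ℕ → ℝ} {K : ℝ} (hb : ∀ d, 1 ≤ d → |lam d| ≤ K / d) :
    Summable (fun d : ℕ => lam d / d) :=
  Summable.of_norm_bounded (summable_sq.mul_left K) (fun d => lam_div_le hb d)

lemma partial_lam {lam : ℕ → ℝ} {K : ℝ} (hK : 0 ≤ K) (hb : ∀ d, 1 ≤ d → |lam d| ≤ K / d) (n : ℕ)
    (hn : 1 ≤ n) :
    |∑ d ∈ Finset.Icc 1 n, lam d / (d : ℝ) - ∑' d : ℕ, lam d / d| ≤ K * (1 / n) := by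
  have h1 := (lam_summable hb).hasSum.tendsto_sum_nat
  have h2 : Tendsto (fun N : ℕ => |∑ d ∈ Finset.Icc 1 n, lam d / (d : ℝ) -
        ∑ d ∈ Finset.range (N + 1), lam d / (d : ℝ)|) atTop
      (𝓝 |∑ d ∈ Finset.Icc 1 n, lam d / (d : ℝ) - ∑' d : ℕ, lam d / d|) := by
    apply Tendsto.abs
    exact tendsto_const_nhds.sub (h1.comp (tendsto_add_atTop_nat 1))
  refine le_of_tendsto h2 ?_
  filter_upwards [eventually_ge_atTop n] with N hN
  have h3 : ∑ d ∈ Finset.range (N + 1), lam d / (d : ℝ) =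
      ∑ d ∈ Finset.Icc 1 n, lam d / (d : ℝ) + ∑ d ∈ Finset.Ioc n N, lam d / (d : ℝ) := by
    rw [Finset.sum_range_succ']
    simp only [Nat.cast_zero, div_zero, add_zero]
    have h4 : Finset.Icc 1 N = Finset.Icc 1 n ∪ Finset.Ioc n N := by
      ext k
      simp only [Finset.mem_union, Finset.mem_Icc, Finset.mem_Ioc]
      omega
    have h5 : Disjoint (Finset.Icc 1 n) (Finset.Ioc n N) := by
      rw [Finset.disjoint_left]
      intro k hk hk'
      rw [Finset.mem_Icc] at hk
      rw [Finset.mem_Ioc] at hk'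
      omega
    rw [← Finset.sum_union h5, ← h4]
    have h6 : Finset.Icc 1 N = (Finset.range N).image (fun k => k + 1) := by
      ext k
      simp only [Finset.mem_Icc, Finset.mem_image, Finset.mem_range]
      constructor
      · intro h
        exact ⟨k - 1, by omega, by omega⟩
      · rintro ⟨a, ha, rfl⟩
        omega
    rw [h6, Finset.sum_image (fun a _ b _ h => by simpa using h)]
  rw [h3]
  have h4 : |∑ d ∈ Finset.Ioc n N, lam d / (d : ℝ)| ≤ K * (1 / n) := by
    calc |∑ d ∈ Finset.Ioc n N, lam d / (d : ℝ)|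
        ≤ ∑ d ∈ Finset.Ioc n N, |lam d / (d : ℝ)| := Finset.abs_sum_le_sum_abs _ _
      _ ≤ ∑ d ∈ Finset.Ioc n N, K * ((1 : ℝ) / (d : ℝ) ^ 2) :=
          Finset.sum_le_sum (fun d _ => lam_div_le hb d)
      _ = K * ∑ d ∈ Finset.Ioc n N, ((1 : ℝ) / (d : ℝ) ^ 2) := by rw [Finset.mul_sum]
      _ ≤ K * (1 / n - 1 / N) := mul_le_mul_of_nonneg_left (tail_bound n hn N hN) hK
      _ ≤ K * (1 / n) := by
          apply mul_le_mul_of_nonneg_left _ hK
          have : (0 : ℝ) ≤ 1 / N := by positivity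
          linarith
  have h5 : ∀ a b : ℝ, a - (a + b) = -b := by intro a b; ring
  rw [h5, abs_neg]
  exact h4

/-- general asymptotic for `∑_{t ≤ n} (∑_{d ∣ t} λ(d))/t` -/
lemma conv_asymp {lam : ℕ → ℝ} {K : ℝ} (hK : 0 ≤ K) (hb : ∀ d, 1 ≤ d → |lam d| ≤ K / d) :
    ∃ C : ℝ, 0 < C ∧ ∀ n : ℕ, 1 ≤ n →
    |∑ i ∈ Finset.Icc 1 n, (∑ d ∈ i.divisors, lam d) / (i : ℝ) -
      (∑' d : ℕ, lam d / d) * Real.log n| ≤ C := by
  set C1 := ∑' d : ℕ, (1 : ℝ) / (d : ℝ) ^ 2 with hC1
  set C2 := ∑' d : ℕ, Real.log d / (d : ℝ) ^ 2 with hC2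
  have hC1n : 0 ≤ C1 := tsum_nonneg (fun d => by positivity)
  have hC2n : 0 ≤ C2 := tsum_nonneg (fun d => div_nonneg (Real.log_natCast_nonneg d) (by positivity))
  set T := ∑' d : ℕ, lam d / d with hT
  refine ⟨K * (C1 + C2 + 1) + 1, by positivity, ?_⟩
  intro n hn
  rw [sum_conv_eq]
  have hn' : (1 : ℝ) ≤ n := by exact_mod_cast hn
  set M := ∑ d ∈ Finset.Icc 1 n, lam d / (d : ℝ) with hM
  have hdec : ∑ d ∈ Finset.Icc 1 n, (lam d / (d : ℝ)) *
        ∑ e ∈ Finset.Icc 1 (n / d), (1 : ℝ) / e - T * Real.log n =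
      (M - T) * Real.log n -
      ∑ d ∈ Finset.Icc 1 n, (lam d / (d : ℝ)) * Real.log d +
      ∑ d ∈ Finset.Icc 1 n, (lam d / (d : ℝ)) *
        (∑ e ∈ Finset.Icc 1 (n / d), (1 : ℝ) / e - Real.log ((n : ℝ) / d)) := by
    have h1 : ∑ d ∈ Finset.Icc 1 n, (lam d / (d : ℝ)) *
        ∑ e ∈ Finset.Icc 1 (n / d), (1 : ℝ) / e =
      ∑ d ∈ Finset.Icc 1 n, ((lam d / (d : ℝ)) * Real.log n -
        (lam d / (d : ℝ)) * Real.log d +
        (lam d / (d : ℝ)) *
          (∑ e ∈ Finset.Icc 1 (n / d), (1 : ℝ) / e - Real.log ((n : ℝ) / d))) := by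
      apply Finset.sum_congr rfl
      intro d hd
      rw [Finset.mem_Icc] at hd
      have hd' : (0 : ℝ) < d := by exact_mod_cast (by omega : 0 < d)
      rw [Real.log_div (by linarith) hd'.ne']
      ring
    rw [h1, Finset.sum_add_distrib, Finset.sum_sub_distrib, ← Finset.sum_mul, ← hM]
    ring
  rw [hdec]
  have hb1 : |(M - T) * Real.log n| ≤ K := by
    have h1 := partial_lam hK hb n hn
    rw [← hM, ← hT] at h1
    have hl : 0 ≤ Real.log n := Real.log_natCast_nonneg n
    rw [abs_mul, abs_of_nonneg hl]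
    calc |M - T| * Real.log n ≤ (K * (1 / n)) * n :=
          mul_le_mul h1 (by
            have := Real.log_le_sub_one_of_pos (by linarith : (0 : ℝ) < n)
            linarith) hl (by positivity)
      _ = K := by field_simp
  have hb2 : |∑ d ∈ Finset.Icc 1 n, (lam d / (d : ℝ)) * Real.log d| ≤ K * C2 := by
    calc _ ≤ ∑ d ∈ Finset.Icc 1 n, |(lam d / (d : ℝ)) * Real.log d| :=
          Finset.abs_sum_le_sum_abs _ _
      _ ≤ ∑ d ∈ Finset.Icc 1 n, K * (Real.log d / (d : ℝ) ^ 2) := by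
          apply Finset.sum_le_sum
          intro d hd
          have hl : 0 ≤ Real.log d := Real.log_natCast_nonneg d
          rw [abs_mul, abs_of_nonneg hl]
          calc _ ≤ K * (1 / (d : ℝ) ^ 2) * Real.log d :=
                mul_le_mul_of_nonneg_right (lam_div_le hb d) hl
            _ = _ := by ring
      _ = K * ∑ d ∈ Finset.Icc 1 n, (Real.log d / (d : ℝ) ^ 2) := by rw [Finset.mul_sum]
      _ ≤ K * C2 := mul_le_mul_of_nonneg_left (summable_log_sq.sum_le_tsum _ (fun d _ =>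
          div_nonneg (Real.log_natCast_nonneg d) (by positivity))) hK
  have hb3 : |∑ d ∈ Finset.Icc 1 n, (lam d / (d : ℝ)) *
        (∑ e ∈ Finset.Icc 1 (n / d), (1 : ℝ) / e - Real.log ((n : ℝ) / d))| ≤ K * C1 := by
    calc _ ≤ ∑ d ∈ Finset.Icc 1 n, |(lam d / (d : ℝ)) *
        (∑ e ∈ Finset.Icc 1 (n / d), (1 : ℝ) / e - Real.log ((n : ℝ) / d))| :=
          Finset.abs_sum_le_sum_abs _ _
      _ ≤ ∑ d ∈ Finset.Icc 1 n, K * ((1 : ℝ) / (d : ℝ) ^ 2) := by
          apply Finset.sum_le_sum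
          intro d hd
          rw [Finset.mem_Icc] at hd
          rw [abs_mul]
          calc _ ≤ (K * (1 / (d : ℝ) ^ 2)) * 1 := mul_le_mul (lam_div_le hb d)
                (harm_log hd.1 hd.2) (abs_nonneg _) (by positivity)
            _ = K * (1 / (d : ℝ) ^ 2) := mul_one _
      _ = K * ∑ d ∈ Finset.Icc 1 n, ((1 : ℝ) / (d : ℝ) ^ 2) := by rw [Finset.mul_sum]
      _ ≤ K * C1 := mul_le_mul_of_nonneg_left
          (summable_sq.sum_le_tsum _ (fun d _ => by positivity)) hK
  have h1 := abs_add_le ((M - T) * Real.log n -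
      ∑ d ∈ Finset.Icc 1 n, (lam d / (d : ℝ)) * Real.log d)
      (∑ d ∈ Finset.Icc 1 n, (lam d / (d : ℝ)) *
        (∑ e ∈ Finset.Icc 1 (n / d), (1 : ℝ) / e - Real.log ((n : ℝ) / d)))
  have h2 := abs_sub ((M - T) * Real.log n)
      (∑ d ∈ Finset.Icc 1 n, (lam d / (d : ℝ)) * Real.log d)
  nlinarith

/-- Euler product -/
lemma euler_lam (w : ℕ → ℝ) (hs : Summable (fun d : ℕ => lamW w d / d)) :
    Tendsto (fun n : ℕ => ∏ p ∈ Nat.primesBelow n, (1 - w p / p)) atTop
      (𝓝 (∑' d : ℕ, lamW w d / d)) := by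
  have h1 : ∀ p : ℕ, p.Prime → ∑' e : ℕ, lamW w (p ^ e) / ((p ^ e : ℕ) : ℝ) = 1 - w p / p := by
    intro p hp
    rw [tsum_eq_sum (s := Finset.range 2)]
    · rw [Finset.sum_range_succ, Finset.sum_range_one, pow_zero, pow_one, (lamW_mult w).map_one,
        lamW_prime w p hp]
      push_cast
      ring
    · intro k hk
      rw [Finset.mem_range] at hk
      rw [lamW_prime_pow w p k hp (by omega), zero_div]
  have h2 := EulerProduct.eulerProduct (f := fun d : ℕ => lamW w d / (d : ℝ))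
    (by simp [(lamW_mult w).map_one]) (by
      intro m n hmn
      rw [(lamW_mult w).map_mul_of_coprime hmn]
      push_cast
      rw [div_mul_div_comm]) hs.norm (by simp)
  refine h2.congr (fun n => ?_)
  refine Finset.prod_congr rfl (fun p hp => ?_)
  exact h1 p (Nat.prime_of_mem_primesBelow hp)

lemma lam_inv_eq (d : ℕ) : lamW (fun p => 1 / (p : ℝ)) d / d =
    (ArithmeticFunction.moebius d : ℝ) / (d : ℝ) ^ 2 := by
  rcases Nat.eq_zero_or_pos d with rfl | hd
  · simp
  · rw [lamW_apply _ d hd.ne']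
    by_cases hsf : Squarefree d
    · have h1 : ∏ p ∈ d.primeFactors, (1 / (p : ℝ)) = 1 / d := by
        rw [Finset.prod_div_distrib, Finset.prod_const_one]
        congr 1
        rw [← Nat.cast_prod, Nat.prod_primeFactors_of_squarefree hsf]
      rw [h1]
      have : (d : ℝ) ≠ 0 := by exact_mod_cast hd.ne'
      field_simp
    · rw [ArithmeticFunction.moebius_eq_zero_of_not_squarefree hsf]
      simp

lemma wPe_nonneg (P e p : ℕ) : 0 ≤ wPe P e p := by
  unfold wPe
  split_ifs <;> positivity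

lemma wPe_bound (P e : ℕ) (hP : Squarefree P) (he : e ∣ P) (d : ℕ) (hd : 1 ≤ d) :
    |lamW (wPe P e) d| ≤ P / d := by
  have hd' : (0 : ℝ) < d := by exact_mod_cast hd
  rw [lamW_apply _ d (by omega)]
  by_cases hsf : Squarefree d
  · have h1 : |(ArithmeticFunction.moebius d : ℝ)| ≤ 1 := moebius_le_one d
    have h2 : 0 ≤ ∏ p ∈ d.primeFactors, wPe P e p := Finset.prod_nonneg (fun p _ => wPe_nonneg P e p)
    rw [abs_mul, abs_of_nonneg h2]
    have h3 : (∏ p ∈ d.primeFactors, wPe P e p) * d ≤ P := by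
      have h4 : (d : ℝ) = ∏ p ∈ d.primeFactors, (p : ℝ) := by
        rw [← Nat.cast_prod, Nat.prod_primeFactors_of_squarefree hsf]
      conv_lhs => rw [h4]
      rw [← Finset.prod_mul_distrib]
      calc ∏ p ∈ d.primeFactors, wPe P e p * (p : ℝ)
          ≤ ∏ p ∈ d.primeFactors, (if p ∈ P.primeFactors then (p : ℝ) else 1) := by
            refine Finset.prod_le_prod (fun p _ => mul_nonneg (wPe_nonneg P e p) (by positivity))
              (fun p hp => ?_)
            have hpp := Nat.prime_of_mem_primeFactors hp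
            have hp0 : (0 : ℝ) < p := by exact_mod_cast hpp.pos
            unfold wPe
            by_cases h6 : p ∣ e
            · have h7 : p ∈ P.primeFactors := Nat.mem_primeFactors.mpr ⟨hpp, h6.trans he, hP.ne_zero⟩
              rw [if_pos h6, if_pos h7, one_mul]
            · rw [if_neg h6]
              by_cases h8 : p ∣ P
              · have h7 : p ∈ P.primeFactors := Nat.mem_primeFactors.mpr ⟨hpp, h8, hP.ne_zero⟩
                rw [if_pos h8, if_pos h7, zero_mul]
                exact hp0.le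
              · have h7 : p ∉ P.primeFactors := fun h => h8 (Nat.dvd_of_mem_primeFactors h)
                rw [if_neg h8, if_neg h7]
                have : 1 / (p : ℝ) * p = 1 := by field_simp
                exact this.le
        _ = ∏ p ∈ d.primeFactors.filter (fun p => p ∈ P.primeFactors), (p : ℝ) := by
            rw [Finset.prod_filter]
        _ ≤ P := by
            have h9 : ∏ p ∈ d.primeFactors.filter (fun p => p ∈ P.primeFactors), p ≤
                ∏ p ∈ P.primeFactors, p := by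
              refine Finset.prod_le_prod_of_subset_of_one_le' ?_ ?_
              · intro p hp
                exact (Finset.mem_filter.mp hp).2
              · intro p hp _
                exact (Nat.prime_of_mem_primeFactors hp).one_lt.le
            rw [Nat.prod_primeFactors_of_squarefree hP] at h9
            rw [← Nat.cast_prod]
            exact_mod_cast h9
    rw [le_div_iff₀ hd']
    calc |(ArithmeticFunction.moebius d : ℝ)| * (∏ p ∈ d.primeFactors, wPe P e p) * d
        ≤ 1 * (∏ p ∈ d.primeFactors, wPe P e p) * d :=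
          mul_le_mul_of_nonneg_right (mul_le_mul_of_nonneg_right h1 h2) hd'.le
      _ = (∏ p ∈ d.primeFactors, wPe P e p) * d := by ring
      _ ≤ P := h3
  · rw [ArithmeticFunction.moebius_eq_zero_of_not_squarefree hsf]
    simp only [Int.cast_zero, zero_mul, abs_zero]
    positivity

lemma kappa_eq (P e : ℕ) (hP : Squarefree P) (he : e ∣ P) :
    ∑' d : ℕ, lamW (wPe P e) d / d =
      c0 * (∏ p ∈ P.primeFactors, (1 - 1 / (p : ℝ) ^ 2)⁻¹) *
        (∏ p ∈ e.primeFactors, (1 - 1 / (p : ℝ))) := by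
  have hs1 : Summable (fun d : ℕ => lamW (wPe P e) d / (d : ℝ)) :=
    lam_summable (fun d hd => wPe_bound P e hP he d hd)
  have t1 := euler_lam (wPe P e) hs1
  have hs2 : Summable (fun d : ℕ => lamW (fun p => 1 / (p : ℝ)) d / (d : ℝ)) := by
    simp only [lam_inv_eq]
    exact hasSum_moebius.summable
  have t2 := euler_lam (fun p => 1 / (p : ℝ)) hs2
  have h3 : ∑' d : ℕ, lamW (fun p => 1 / (p : ℝ)) d / (d : ℝ) = c0 := by
    simp only [lam_inv_eq]
    exact hasSum_moebius.tsum_eq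
  rw [h3] at t2
  have he0 : e ≠ 0 := fun h => hP.ne_zero (Nat.eq_zero_of_zero_dvd (h ▸ he))
  have hsub : e.primeFactors ⊆ P.primeFactors := Nat.primeFactors_mono he hP.ne_zero
  have hR : ∏ p ∈ P.primeFactors, (1 - wPe P e p / p) = ∏ p ∈ e.primeFactors, (1 - 1 / (p : ℝ)) := by
    rw [← Finset.prod_subset hsub]
    · refine Finset.prod_congr rfl (fun p hp => ?_)
      unfold wPe
      rw [if_pos (Nat.dvd_of_mem_primeFactors hp)]
    · intro p hp hpe
      have hpp := Nat.prime_of_mem_primeFactors hp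
      have h1 : ¬ p ∣ e := fun h => hpe (Nat.mem_primeFactors.mpr ⟨hpp, h, he0⟩)
      unfold wPe
      rw [if_neg h1, if_pos (Nat.dvd_of_mem_primeFactors hp)]
      simp
  have t3 := t2.mul_const ((∏ p ∈ P.primeFactors, (1 - 1 / (p : ℝ) ^ 2)⁻¹) *
        (∏ p ∈ e.primeFactors, (1 - 1 / (p : ℝ))))
  have t4 : Tendsto (fun n : ℕ => ∏ p ∈ Nat.primesBelow n, (1 - wPe P e p / p)) atTop
      (𝓝 (c0 * ((∏ p ∈ P.primeFactors, (1 - 1 / (p : ℝ) ^ 2)⁻¹) *
        (∏ p ∈ e.primeFactors, (1 - 1 / (p : ℝ)))))) := by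
    refine t3.congr' ?_
    filter_upwards [eventually_gt_atTop P] with n hn
    have hPsub : P.primeFactors ⊆ Nat.primesBelow n := by
      intro p hp
      rw [Nat.mem_primesBelow]
      exact ⟨lt_of_le_of_lt (Nat.le_of_mem_primeFactors hp) hn, Nat.prime_of_mem_primeFactors hp⟩
    rw [← Finset.prod_sdiff hPsub, ← Finset.prod_sdiff hPsub (f := fun p => 1 - wPe P e p / p), hR]
    have h5 : ∏ p ∈ Nat.primesBelow n \ P.primeFactors, (1 - 1 / (p : ℝ) / p) =
        ∏ p ∈ Nat.primesBelow n \ P.primeFactors, (1 - wPe P e p / p) := by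
      refine Finset.prod_congr rfl (fun p hp => ?_)
      rw [Finset.mem_sdiff] at hp
      have hpp := Nat.prime_of_mem_primesBelow hp.1
      have h1 : ¬ p ∣ P := fun h => hp.2 (Nat.mem_primeFactors.mpr ⟨hpp, h, hP.ne_zero⟩)
      unfold wPe
      rw [if_neg (fun h => h1 (h.trans he)), if_neg h1]
    rw [h5]
    have h6 : (∏ p ∈ P.primeFactors, (1 - 1 / (p : ℝ) / p)) *
        ∏ p ∈ P.primeFactors, (1 - 1 / (p : ℝ) ^ 2)⁻¹ = 1 := by
      rw [← Finset.prod_mul_distrib]
      refine Finset.prod_eq_one (fun p hp => ?_)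
      have hpp := Nat.prime_of_mem_primeFactors hp
      have hp2 : (1 : ℝ) < p := by exact_mod_cast hpp.one_lt
      have h7 : 1 - 1 / (p : ℝ) / p = 1 - 1 / (p : ℝ) ^ 2 := by
        rw [div_div, sq]
      rw [h7]
      apply mul_inv_cancel₀
      have h8 : 1 / (p : ℝ) ^ 2 < 1 := by
        rw [div_lt_one (by positivity)]
        nlinarith
      linarith
    calc _ = (∏ p ∈ Nat.primesBelow n \ P.primeFactors, (1 - wPe P e p / ↑p)) *
          ((∏ p ∈ P.primeFactors, (1 - 1 / (p : ℝ) / p)) *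
            ∏ p ∈ P.primeFactors, (1 - 1 / (p : ℝ) ^ 2)⁻¹) *
            ∏ p ∈ e.primeFactors, (1 - 1 / (p : ℝ)) := by ring
      _ = _ := by rw [h6, mul_one]
  rw [tendsto_nhds_unique t1 t4, mul_assoc]

theorem theta_P (P e : ℕ) (hP : Squarefree P) (he : e ∣ P) : ∃ C : ℝ, 0 < C ∧ ∀ n : ℕ, 1 ≤ n →
    |∑ t ∈ (Finset.Icc 1 n).filter (fun t => Nat.Coprime t e),
        (∏ p ∈ t.primeFactors.filter (fun p => ¬ p ∣ P), (1 - 1 / (p : ℝ))) / t -
      c0 * (∏ p ∈ P.primeFactors, (1 - 1 / (p : ℝ) ^ 2)⁻¹) * (∏ p ∈ e.primeFactors, (1 - 1 / (p : ℝ)))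
        * Real.log n| ≤ C := by
  obtain ⟨C, hC, h⟩ := conv_asymp (lam := fun d => lamW (wPe P e) d) (K := P) (by positivity)
    (fun d hd => wPe_bound P e hP he d hd)
  refine ⟨C, hC, fun n hn => ?_⟩
  have h1 := h n hn
  rw [kappa_eq P e hP he] at h1
  have h2 : ∑ t ∈ (Finset.Icc 1 n).filter (fun t => Nat.Coprime t e),
        (∏ p ∈ t.primeFactors.filter (fun p => ¬ p ∣ P), (1 - 1 / (p : ℝ))) / t =
      ∑ i ∈ Finset.Icc 1 n, (∑ d ∈ i.divisors, lamW (wPe P e) d) / (i : ℝ) := by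
    rw [Finset.sum_filter]
    refine Finset.sum_congr rfl (fun t ht => ?_)
    rw [Finset.mem_Icc] at ht
    have ht0 : t ≠ 0 := by omega
    rw [lamW_sum _ t ht0]
    split_ifs with hc
    · congr 1
      rw [Finset.prod_filter]
      refine Finset.prod_congr rfl (fun p hp => ?_)
      have hpp := Nat.prime_of_mem_primeFactors hp
      have hpt := Nat.dvd_of_mem_primeFactors hp
      have hpe : ¬ p ∣ e := by
        intro hpe
        have := Nat.dvd_gcd hpt hpe
        rw [hc] at this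
        exact hpp.one_lt.ne' (Nat.dvd_one.mp this)
      unfold wPe
      rw [if_neg hpe]
      by_cases hpP : p ∣ P
      · simp [hpP]
      · simp [hpP]
    · obtain ⟨p, hpp, hpt, hpe⟩ := Nat.Prime.not_coprime_iff_dvd.mp hc
      have hmem : p ∈ t.primeFactors := Nat.mem_primeFactors.mpr ⟨hpp, hpt, ht0⟩
      rw [Finset.prod_eq_zero hmem, zero_div]
      unfold wPe
      rw [if_pos hpe, sub_self]
  rw [h2]
  exact h1

end H385
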