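import Pool.Agent.H385R2.FareyPArith
import Pool.Agent.H385R2.ThetaP
import Pool.Agent.H385R2.LineP

/-!
TEAM Q, task R3: density of Farey fractions with denominators prime to `P`.
-/

namespace H385

theorem farey_density_P (P : ℕ) (hP : Squarefree P) : ∃ C : ℝ, 0 < C ∧
    ∀ (A B : ℕ) (V θ : ℝ), 1 ≤ A → A ≤ B → 1 ≤ V → V ≤ (A : ℝ) ^ 2 →
    ∑ q ∈ (Finset.Ioc A B).filter (fun q => Nat.Coprime q P), (1 / (q : ℝ) ^ 2) *
      ∑' a : ℤ, (if Int.gcd a q = 1 then PK V (θ - a / q) else 0) ≤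
    c0 * (∏ p ∈ P.primeFactors, ((p : ℝ) / (p + 1))) * Real.log ((B : ℝ) / A) + C :=
  FareyP.farey_density_P_of_statements (fun P e hP he => theta_P P e hP he) line_sum_P P hP

end H385
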