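import Pool.Agent.H385R2.FLS
import Pool.Agent.H385R2.Defs4
import Pool.Agent.H385R2.FareyP

/-!
TEAM Q, module R4 : large sieve for Farey fractions with the weight `hP` (from R3 and Q4).
-/

open Complex Filter Topology Set MeasureTheory

namespace H385


/-- large sieve for denominators prime to `P'` -/
lemma fls_coprime (P : ℕ) (hsf : Squarefree P) : ∃ C : ℝ, 0 < C ∧
    ∀ (A B N : ℕ) (V : ℝ) (a : ℕ → ℂ), 1 ≤ A → A ≤ B → 1 ≤ V → V ≤ (A : ℝ) ^ 2 →
    ∑ q ∈ (Finset.Ioc A B).filter (fun q => Nat.Coprime q P), (1 / (q : ℝ) ^ 2) *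
      ∑ b ∈ (Finset.range q).filter (fun b => Nat.Coprime b q), ‖SS N a ((b : ℝ) / q)‖ ^ 2 ≤
    Real.exp (Real.pi * N / V) *
      (c0 * (∏ p ∈ P.primeFactors, ((p : ℝ) / (p + 1))) * Real.log ((B : ℝ) / A) + C) *
      ∑ n ∈ Finset.Icc 1 N, ‖a n‖ ^ 2 := by
  obtain ⟨C, hC, hden⟩ := farey_density_P P hsf
  refine ⟨C, hC, ?_⟩
  intro A B N V a hA hAB hV hVA
  have hV0 : 0 < V := by linarith
  have hAR : (0 : ℝ) < A := by exact_mod_cast hA
  have hc0 : 0 ≤ c0 := by unfold c0; positivity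
  have hlog : 0 ≤ Real.log ((B : ℝ) / A) := by
    apply Real.log_nonneg
    rw [le_div_iff₀ hAR, one_mul]
    exact_mod_cast hAB
  have hprod : 0 ≤ ∏ p ∈ P.primeFactors, ((p : ℝ) / (p + 1)) :=
    Finset.prod_nonneg (fun p _ => by positivity)
  have hΔ : 0 ≤ c0 * (∏ p ∈ P.primeFactors, ((p : ℝ) / (p + 1))) * Real.log ((B : ℝ) / A) + C := by
    positivity
  set s : Finset (Σ _ : ℕ, ℕ) := ((Finset.Ioc A B).filter (fun q => Nat.Coprime q P)).sigma
    (fun q => (Finset.range q).filter (fun b => Nat.Coprime b q)) with hs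
  have key := dual_large_sieve s (fun i => (i.2 : ℝ) / i.1) (fun i => 1 / (i.1 : ℝ) ^ 2)
    (fun i _ => by positivity) V _ hV0 hΔ ?_ N a
  · rw [hs, Finset.sum_sigma] at key
    simp only at key
    calc _ = _ := by
          apply Finset.sum_congr rfl
          intro q _
          rw [Finset.mul_sum]
      _ ≤ _ := key
  · intro i hi
    rw [hs, Finset.sum_sigma]
    simp only
    refine le_trans (le_of_eq ?_) (hden A B V ((i.2 : ℝ) / i.1) hA hAB hV hVA)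
    apply Finset.sum_congr rfl
    intro q hq
    rw [Finset.mem_filter, Finset.mem_Ioc] at hq
    have : NeZero q := ⟨by omega⟩
    rw [← fold q V _ hV0, Finset.mul_sum]

lemma sum_lin {ι : Type*} (s : Finset ι) (w f C : ι → ℝ) (E c L G : ℝ) :
    ∑ T ∈ s, w T * (E * (c * f T * L + C T) * G) =
      E * (c * (∑ T ∈ s, w T * f T) * L + ∑ T ∈ s, w T * C T) * G := by
  have h1 : c * (∑ T ∈ s, w T * f T) * L + ∑ T ∈ s, w T * C T =
      ∑ T ∈ s, (w T * (c * f T * L + C T)) := by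
    rw [Finset.mul_sum, Finset.sum_mul, ← Finset.sum_add_distrib]
    apply Finset.sum_congr rfl
    intro T _
    ring
  rw [h1, Finset.mul_sum, Finset.sum_mul]
  apply Finset.sum_congr rfl
  intro T _
  ring

/-- `h_p` -/
noncomputable def hp (p : ℕ) : ℝ := (p : ℝ) ^ 2 / ((p : ℝ) ^ 2 + p + 1)

lemma hp_nonneg (p : ℕ) : 0 ≤ hp p := by unfold hp; positivity

lemma hp_le_one (p : ℕ) : hp p ≤ 1 := by
  unfold hp
  rw [div_le_one (by positivity)]
  have : (0 : ℝ) ≤ p := by positivity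
  linarith

/-- probability of the subset `T` of the set of primes `S` -/
noncomputable def prb (S T : Finset ℕ) : ℝ := (∏ p ∈ T, (1 - hp p)) * ∏ p ∈ S \ T, hp p

lemma prb_nonneg (S T : Finset ℕ) : 0 ≤ prb S T := by
  unfold prb
  apply mul_nonneg
  · exact Finset.prod_nonneg (fun p _ => sub_nonneg.mpr (hp_le_one p))
  · exact Finset.prod_nonneg (fun p _ => hp_nonneg p)

lemma prb_avg (S : Finset ℕ) (f : ℕ → ℝ) :
    ∑ T ∈ S.powerset, prb S T * ∏ p ∈ T, f p = ∏ p ∈ S, ((1 - hp p) * f p + hp p) := by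
  rw [Finset.prod_add]
  apply Finset.sum_congr rfl
  intro T _
  unfold prb
  rw [Finset.prod_mul_distrib]
  ring

lemma hP_eq (P q : ℕ) : hP P q = ∑ T ∈ P.primeFactors.powerset,
    prb P.primeFactors T * (if Nat.Coprime q (∏ p ∈ T, p) then 1 else 0) := by
  have h1 : hP P q = ∏ p ∈ P.primeFactors,
      ((1 - hp p) * (if ¬ p ∣ q then 1 else 0) + hp p) := by
    unfold hP
    rw [Finset.prod_filter]
    apply Finset.prod_congr rfl
    intro p _
    by_cases h : p ∣ q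
    · simp only [h, if_true, not_true, if_false]
      unfold hp
      ring
    · simp only [h, if_false, not_false_eq_true, if_true]
      ring
  rw [h1, ← prb_avg]
  apply Finset.sum_congr rfl
  intro T hT
  congr 1
  rw [Finset.mem_powerset] at hT
  have h2 : Nat.Coprime q (∏ p ∈ T, p) ↔ ∀ p ∈ T, ¬ p ∣ q := by
    rw [Nat.coprime_prod_right_iff]
    apply forall₂_congr
    intro p hp
    have hpp : p.Prime := Nat.prime_of_mem_primeFactors (hT hp)
    rw [Nat.coprime_comm, hpp.coprime_iff_not_dvd]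
  by_cases h : ∀ p ∈ T, ¬ p ∣ q
  · rw [if_pos (h2.mpr h)]
    exact Finset.prod_eq_one (fun p hp => if_pos (h p hp))
  · rw [if_neg (fun h' => h (h2.mp h'))]
    push Not at h
    obtain ⟨p, hp, hpq⟩ := h
    exact Finset.prod_eq_zero hp (if_neg (not_not.mpr hpq))

theorem farey_large_sieve_P (P : ℕ) (hsf : Squarefree P) : ∃ C : ℝ, 0 < C ∧
    ∀ (A B N : ℕ) (V : ℝ) (a : ℕ → ℂ), 1 ≤ A → A ≤ B → 1 ≤ V → V ≤ (A : ℝ) ^ 2 →
    ∑ q ∈ Finset.Ioc A B, (hP P q / (q : ℝ) ^ 2) *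
      ∑ b ∈ (Finset.range q).filter (fun b => Nat.Coprime b q), ‖SS N a ((b : ℝ) / q)‖ ^ 2 ≤
    Real.exp (Real.pi * N / V) * (c0 * (∏ p ∈ P.primeFactors,
        (((p : ℝ) + (p : ℝ) ^ 2 / ((p : ℝ) ^ 2 + p + 1)) / (p + 1))) * Real.log ((B : ℝ) / A) + C) *
      ∑ n ∈ Finset.Icc 1 N, ‖a n‖ ^ 2 := by
  have hpr : ∀ T ∈ P.primeFactors.powerset, ∀ p ∈ T, p.Prime := by
    intro T hT p hp
    exact Nat.prime_of_mem_primeFactors (Finset.mem_powerset.mp hT hp)
  have hsf' : ∀ T ∈ P.primeFactors.powerset, Squarefree (∏ p ∈ T, p) := by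
    intro T hT
    have h1 : (∏ p ∈ T, p) ∣ ∏ p ∈ P.primeFactors, p :=
      Finset.prod_dvd_prod_of_subset _ _ _ (Finset.mem_powerset.mp hT)
    exact hsf.squarefree_of_dvd (h1.trans (Nat.prod_primeFactors_dvd P))
  have hex : ∀ T : Finset ℕ, ∃ C : ℝ, 0 < C ∧ (T ∈ P.primeFactors.powerset →
      ∀ (A B N : ℕ) (V : ℝ) (a : ℕ → ℂ), 1 ≤ A → A ≤ B → 1 ≤ V → V ≤ (A : ℝ) ^ 2 →
      ∑ q ∈ (Finset.Ioc A B).filter (fun q => Nat.Coprime q (∏ p ∈ T, p)), (1 / (q : ℝ) ^ 2) *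
        ∑ b ∈ (Finset.range q).filter (fun b => Nat.Coprime b q), ‖SS N a ((b : ℝ) / q)‖ ^ 2 ≤
      Real.exp (Real.pi * N / V) *
        (c0 * (∏ p ∈ T, ((p : ℝ) / (p + 1))) * Real.log ((B : ℝ) / A) + C) *
        ∑ n ∈ Finset.Icc 1 N, ‖a n‖ ^ 2) := by
    intro T
    by_cases hT : T ∈ P.primeFactors.powerset
    · obtain ⟨C, hC, h⟩ := fls_coprime (∏ p ∈ T, p) (hsf' T hT)
      refine ⟨C, hC, fun _ => ?_⟩
      rw [Nat.primeFactors_prod (hpr T hT)] at h
      exact h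
    · exact ⟨1, one_pos, fun h => absurd h hT⟩
  choose Cf hCf hLS using hex
  set S := P.primeFactors with hS
  refine ⟨∑ T ∈ S.powerset, prb S T * Cf T + 1, ?_, ?_⟩
  · have : 0 ≤ ∑ T ∈ S.powerset, prb S T * Cf T :=
      Finset.sum_nonneg (fun T _ => mul_nonneg (prb_nonneg S T) (hCf T).le)
    linarith
  intro A B N V a hA hAB hV hVA
  set F : ℕ → ℝ := fun q => ∑ b ∈ (Finset.range q).filter (fun b => Nat.Coprime b q),
    ‖SS N a ((b : ℝ) / q)‖ ^ 2 with hF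
  have hE : 0 ≤ Real.exp (Real.pi * N / V) * ∑ n ∈ Finset.Icc 1 N, ‖a n‖ ^ 2 := by positivity
  have hL : ∑ q ∈ Finset.Ioc A B, (hP P q / (q : ℝ) ^ 2) * F q =
      ∑ T ∈ S.powerset, prb S T *
        ∑ q ∈ (Finset.Ioc A B).filter (fun q => Nat.Coprime q (∏ p ∈ T, p)),
          (1 / (q : ℝ) ^ 2) * F q := by
    simp_rw [Finset.sum_filter, Finset.mul_sum]
    rw [Finset.sum_comm]
    apply Finset.sum_congr rfl
    intro q _
    rw [hP_eq, Finset.sum_div, Finset.sum_mul]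
    apply Finset.sum_congr rfl
    intro T _
    by_cases h : Nat.Coprime q (∏ p ∈ T, p)
    · rw [if_pos h, if_pos h]; ring
    · rw [if_neg h, if_neg h]; ring
  rw [hL]
  have hsum : ∑ T ∈ S.powerset, prb S T *
        ∑ q ∈ (Finset.Ioc A B).filter (fun q => Nat.Coprime q (∏ p ∈ T, p)),
          (1 / (q : ℝ) ^ 2) * F q ≤
      ∑ T ∈ S.powerset, prb S T * (Real.exp (Real.pi * N / V) *
        (c0 * (∏ p ∈ T, ((p : ℝ) / (p + 1))) * Real.log ((B : ℝ) / A) + Cf T) *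
        ∑ n ∈ Finset.Icc 1 N, ‖a n‖ ^ 2) := by
    apply Finset.sum_le_sum
    intro T hT
    exact mul_le_mul_of_nonneg_left (hLS T hT A B N V a hA hAB hV hVA) (prb_nonneg S T)
  refine hsum.trans ?_
  have hconst : ∏ p ∈ S, (((p : ℝ) + (p : ℝ) ^ 2 / ((p : ℝ) ^ 2 + p + 1)) / (p + 1)) =
      ∑ T ∈ S.powerset, prb S T * ∏ p ∈ T, ((p : ℝ) / (p + 1)) := by
    rw [prb_avg]
    apply Finset.prod_congr rfl
    intro p _
    unfold hp
    have : (p : ℝ) + 1 ≠ 0 := by positivity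
    field_simp
    ring
  rw [hconst]
  rw [sum_lin]
  nlinarith [hE]

end H385
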