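import Pool.Agent.H385R2.Char
import Pool.Agent.H385R2.FLS

/-!
TEAM Q, module Q6b : the large sieve for the family (from Q5 and Q6).
-/

open Complex Filter Topology Set MeasureTheory

namespace H385


namespace FamLS

lemma sq_add_le {E : Type*} [SeminormedAddCommGroup E] (x y : E) (δ : ℝ) (hδ : 0 < δ) :
    ‖x + y‖ ^ 2 ≤ (1 + δ) * ‖x‖ ^ 2 + (1 + 1 / δ) * ‖y‖ ^ 2 := by
  have h1 : ‖x + y‖ ^ 2 ≤ (‖x‖ + ‖y‖) ^ 2 := by
    apply pow_le_pow_left₀ (norm_nonneg _) (norm_add_le _ _)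
  have h2 : 0 ≤ (δ * ‖x‖ - ‖y‖) ^ 2 / δ := by positivity
  have h3 : (δ * ‖x‖ - ‖y‖) ^ 2 / δ = δ * ‖x‖ ^ 2 - 2 * ‖x‖ * ‖y‖ + 1 / δ * ‖y‖ ^ 2 := by
    field_simp
    ring
  nlinarith

variable (b : ℕ → ℂ)

/-- the nonnegative majorant -/
noncomputable def mj (n : ℕ) : ℝ := ArithmeticFunction.vonMangoldt n * ‖b n‖

lemma mj_nonneg (n : ℕ) : 0 ≤ mj b n :=
  mul_nonneg ArithmeticFunction.vonMangoldt_nonneg (norm_nonneg _)

/-- non coprime part -/
noncomputable def BB1 (q : ℕ) (n : ℕ) : ℝ := if Nat.Coprime n q then 0 else mj b n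

/-- tail part -/
noncomputable def TT1 (N : ℕ) (n : ℕ) : ℝ := if N < n then mj b n else 0

lemma BB1_nonneg (q n : ℕ) : 0 ≤ BB1 b q n := by
  unfold BB1; split_ifs
  · exact le_rfl
  · exact mj_nonneg b n

lemma TT1_nonneg (N n : ℕ) : 0 ≤ TT1 b N n := by
  unfold TT1; split_ifs
  · exact mj_nonneg b n
  · exact le_rfl

lemma BB1_summable (hs : Summable (mj b)) (q : ℕ) : Summable (BB1 b q) := by
  refine Summable.of_nonneg_of_le (BB1_nonneg b q) (fun n => ?_) hs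
  unfold BB1; split_ifs
  · exact mj_nonneg b n
  · exact le_rfl

lemma TT1_summable (hs : Summable (mj b)) (N : ℕ) : Summable (TT1 b N) := by
  refine Summable.of_nonneg_of_le (TT1_nonneg b N) (fun n => ?_) hs
  unfold TT1; split_ifs
  · exact le_rfl
  · exact mj_nonneg b n

/-- coprime cut of the coefficients -/
noncomputable def aq (q : ℕ) (n : ℕ) : ℂ :=
  if Nat.Coprime n q then (ArithmeticFunction.vonMangoldt n : ℂ) * b n else 0

/-- all coefficients -/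
noncomputable def al (n : ℕ) : ℂ := (ArithmeticFunction.vonMangoldt n : ℂ) * b n

lemma al_norm (n : ℕ) : ‖al b n‖ = mj b n := by
  unfold al mj
  rw [norm_mul, Complex.norm_real, Real.norm_of_nonneg ArithmeticFunction.vonMangoldt_nonneg]

lemma aa_norm (q : ℕ) (χ : DirichletCharacter ℂ q) (n : ℕ) : ‖aa q χ n * b n‖ ≤ mj b n := by
  unfold aa mj
  rw [norm_mul, norm_mul, Complex.norm_real,
    Real.norm_of_nonneg ArithmeticFunction.vonMangoldt_nonneg]
  apply mul_le_mul_of_nonneg_right _ (norm_nonneg _)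
  calc _ ≤ 1 * (ArithmeticFunction.vonMangoldt n : ℝ) :=
        mul_le_mul_of_nonneg_right (DirichletCharacter.norm_le_one _ _)
          ArithmeticFunction.vonMangoldt_nonneg
    _ = _ := one_mul _

lemma prim_apply (q : ℕ) (χ : DirichletCharacter ℂ q) (n : ℕ) (h : Nat.Coprime n q) :
    χ.primitiveCharacter (n : ZMod χ.conductor) = χ (n : ZMod q) := by
  have := DirichletCharacter.primitiveCharacter_apply_of_isCoprime χ (a := (n : ℤ))
    (by exact_mod_cast h.isCoprime)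
  simpa using this

/-- Claim A -/
lemma claimA (hs : Summable (mj b)) (q : ℕ) (χ : DirichletCharacter ℂ q) (N : ℕ) :
    ‖∑' n : ℕ, aa q χ n * b n - ∑ n ∈ Finset.Icc 1 N, aq b q n * χ (n : ZMod q)‖
      ≤ ∑' n, BB1 b q n + ∑' n, TT1 b N n := by
  classical
  have h1 : Summable (fun n => aa q χ n * b n) :=
    Summable.of_norm_bounded hs (fun n => aa_norm b q χ n)
  have h2 : ∑ n ∈ Finset.Icc 1 N, aq b q n * χ (n : ZMod q)
      = ∑' n, (if n ∈ Finset.Icc 1 N then aq b q n * χ (n : ZMod q) else 0) := by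
    rw [tsum_eq_sum (s := Finset.Icc 1 N)]
    · apply Finset.sum_congr rfl
      intro n hn
      rw [if_pos hn]
    · intro n hn
      rw [if_neg hn]
  have h3 : Summable (fun n => (if n ∈ Finset.Icc 1 N then aq b q n * χ (n : ZMod q) else 0)) := by
    apply summable_of_ne_finset_zero (s := Finset.Icc 1 N)
    intro n hn
    rw [if_neg hn]
  rw [h2, ← h1.tsum_sub h3, ← (BB1_summable b hs q).tsum_add (TT1_summable b hs N)]
  apply tsum_of_norm_bounded
    ((BB1_summable b hs q).add (TT1_summable b hs N)).hasSum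
  intro n
  by_cases hn : n ∈ Finset.Icc 1 N
  · rw [if_pos hn]
    by_cases hc : Nat.Coprime n q
    · have : aa q χ n * b n - aq b q n * χ (n : ZMod q) = 0 := by
        unfold aa aq
        rw [if_pos hc, prim_apply q χ n hc]
        ring
      rw [this, norm_zero]
      exact add_nonneg (BB1_nonneg b q n) (TT1_nonneg b N n)
    · have : aq b q n = 0 := by unfold aq; rw [if_neg hc]
      rw [this, zero_mul, sub_zero]
      have h5 : BB1 b q n = mj b n := by unfold BB1; rw [if_neg hc]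
      rw [h5]
      have := aa_norm b q χ n
      have := TT1_nonneg b N n
      linarith
  · rw [if_neg hn, sub_zero]
    by_cases h0 : n = 0
    · have : aa q χ n * b n = 0 := by
        unfold aa
        rw [h0]
        simp
      rw [this, norm_zero]
      exact add_nonneg (BB1_nonneg b q n) (TT1_nonneg b N n)
    · have h5 : TT1 b N n = mj b n := by
        unfold TT1
        rw [if_pos]
        rw [Finset.mem_Icc] at hn
        omega
      rw [h5]
      have := aa_norm b q χ n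
      have := BB1_nonneg b q n
      linarith

/-- Claim C -/
lemma claimC (hs : Summable (mj b)) (q N : ℕ) (θ : ℝ) :
    ‖SS N (aq b q) θ - SS N (al b) θ‖ ≤ ∑' n, BB1 b q n := by
  unfold SS
  rw [← Finset.sum_sub_distrib]
  calc ‖∑ n ∈ Finset.Icc 1 N, (aq b q n * ee (n * θ) - al b n * ee (n * θ))‖
      ≤ ∑ n ∈ Finset.Icc 1 N, ‖aq b q n * ee (n * θ) - al b n * ee (n * θ)‖ := norm_sum_le _ _
    _ ≤ ∑ n ∈ Finset.Icc 1 N, BB1 b q n := by
        apply Finset.sum_le_sum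
        intro n _
        rw [← sub_mul, norm_mul]
        have he : ‖ee (n * θ)‖ = 1 := by
          unfold ee
          rw [Complex.norm_exp]
          simp
        rw [he, mul_one]
        unfold aq al BB1
        by_cases hc : Nat.Coprime n q
        · rw [if_pos hc, if_pos hc, sub_self, norm_zero]
        · rw [if_neg hc, if_neg hc, zero_sub, norm_neg]
          exact le_of_eq (al_norm b n)
    _ ≤ ∑' n, BB1 b q n :=
        (BB1_summable b hs q).sum_le_tsum _ (fun n _ => BB1_nonneg b q n)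

end FamLS

open FamLS

/-- per modulus estimate -/
lemma fam_ls_q (b : ℕ → ℂ) (hs : Summable (mj b)) (q : ℕ) [NeZero q] (N : ℕ) (ε : ℝ) (h0 : 0 < ε)
    (h1 : ε ≤ 1) :
    ∑ᶠ χ : DirichletCharacter ℂ q, ww q χ * ‖∑' n : ℕ, aa q χ n * b n‖ ^ 2 ≤
      (1 + ε) * ((1 / (q : ℝ) ^ 2) *
        ∑ c ∈ (Finset.range q).filter (fun c => Nat.Coprime c q), ‖SS N (al b) ((c : ℝ) / q)‖ ^ 2)
      + 16 / ε * ((1 / (q : ℝ)) * ((∑' n, BB1 b q n) ^ 2 + (∑' n, TT1 b N n) ^ 2)) := by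
  classical
  have hfin : Finite (DirichletCharacter ℂ q) := inferInstance
  let _ : Fintype (DirichletCharacter ℂ q) := Fintype.ofFinite _
  set E1 := ∑' n, BB1 b q n with hE1
  set E2 := ∑' n, TT1 b N n with hE2
  have hE1n : 0 ≤ E1 := tsum_nonneg (BB1_nonneg b q)
  have hE2n : 0 ≤ E2 := tsum_nonneg (TT1_nonneg b N)
  have hq0 : (0 : ℝ) < q := Nat.cast_pos.mpr (NeZero.pos q)
  have hφ0 : (0 : ℝ) < Nat.totient q := Nat.cast_pos.mpr (Nat.totient_pos.mpr (NeZero.pos q))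
  have hφq : (Nat.totient q : ℝ) ≤ q := Nat.cast_le.mpr (Nat.totient_le q)
  have hww : ∀ χ : DirichletCharacter ℂ q, 0 ≤ ww q χ := by
    intro χ; unfold ww; positivity
  set δ := ε / 3 with hδ
  have hδ0 : 0 < δ := by positivity
  have hδinv : 1 / δ = 3 / ε := by rw [hδ]; field_simp
  have hεinv : 1 ≤ 1 / ε := by rw [le_div_iff₀ h0]; linarith
  have h4 : 1 + 1 / δ ≤ 4 / ε := by
    rw [hδinv]
    have : 4 / ε = 1 / ε + 3 / ε := by ring
    linarith
  -- pointwise in χ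
  have hpt : ∀ χ : DirichletCharacter ℂ q, ‖∑' n : ℕ, aa q χ n * b n‖ ^ 2 ≤
      (1 + δ) * ‖∑ n ∈ Finset.Icc 1 N, aq b q n * χ (n : ZMod q)‖ ^ 2
        + 8 / ε * (E1 ^ 2 + E2 ^ 2) := by
    intro χ
    set M := ∑ n ∈ Finset.Icc 1 N, aq b q n * χ (n : ZMod q) with hM
    have hA := claimA b hs q χ N
    rw [← hM, ← hE1, ← hE2] at hA
    have h5 := sq_add_le M (∑' n : ℕ, aa q χ n * b n - M) δ hδ0
    rw [add_sub_cancel] at h5
    have h6 : ‖∑' n : ℕ, aa q χ n * b n - M‖ ^ 2 ≤ 2 * (E1 ^ 2 + E2 ^ 2) := by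
      calc _ ≤ (E1 + E2) ^ 2 := pow_le_pow_left₀ (norm_nonneg _) hA 2
        _ ≤ _ := by nlinarith [sq_nonneg (E1 - E2)]
    have h7 : (1 + 1 / δ) * ‖∑' n : ℕ, aa q χ n * b n - M‖ ^ 2 ≤ 4 / ε * (2 * (E1 ^ 2 + E2 ^ 2)) := by
      apply mul_le_mul h4 h6 (by positivity) (by positivity)
    calc _ ≤ _ := h5
      _ ≤ (1 + δ) * ‖M‖ ^ 2 + 4 / ε * (2 * (E1 ^ 2 + E2 ^ 2)) := by linarith
      _ = _ := by ring
  -- sum over χ
  have hsum1 : ∑ᶠ χ : DirichletCharacter ℂ q, ww q χ * ‖∑' n : ℕ, aa q χ n * b n‖ ^ 2 ≤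
      (1 + δ) * (∑ᶠ χ : DirichletCharacter ℂ q, ww q χ *
          ‖∑ n ∈ Finset.Icc 1 N, aq b q n * χ (n : ZMod q)‖ ^ 2)
        + (∑ᶠ χ : DirichletCharacter ℂ q, ww q χ) * (8 / ε * (E1 ^ 2 + E2 ^ 2)) := by
    rw [finsum_eq_sum_of_fintype, finsum_eq_sum_of_fintype, finsum_eq_sum_of_fintype,
      Finset.mul_sum, Finset.sum_mul, ← Finset.sum_add_distrib]
    apply Finset.sum_le_sum
    intro χ _
    have := mul_le_mul_of_nonneg_left (hpt χ) (hww χ)
    calc _ ≤ _ := this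
      _ = _ := by ring
  -- char_farey
  have hcf : ∑ᶠ χ : DirichletCharacter ℂ q, ww q χ *
          ‖∑ n ∈ Finset.Icc 1 N, aq b q n * χ (n : ZMod q)‖ ^ 2 =
      (1 / (q : ℝ) ^ 2) * ∑ c ∈ (Finset.range q).filter (fun c => Nat.Coprime c q),
        ‖SS N (aq b q) ((c : ℝ) / q)‖ ^ 2 := by
    have h := char_farey q N (aq b q) (fun n hn => by unfold aq; rw [if_neg hn])
    have h' : ∑ᶠ χ : DirichletCharacter ℂ q, ww q χ *
          ‖∑ n ∈ Finset.Icc 1 N, aq b q n * χ (n : ZMod q)‖ ^ 2 =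
        (1 / ((q : ℝ) ^ 2 * Nat.totient q)) * ∑ᶠ χ : DirichletCharacter ℂ q, ‖tau q χ‖ ^ 2 *
          ‖∑ n ∈ Finset.Icc 1 N, aq b q n * χ (n : ZMod q)‖ ^ 2 := by
      rw [finsum_eq_sum_of_fintype, finsum_eq_sum_of_fintype, Finset.mul_sum]
      apply Finset.sum_congr rfl
      intro χ _
      unfold ww
      ring
    rw [h', h]
    field_simp
  -- replace aq by al
  have hrep : ∀ c : ℕ, ‖SS N (aq b q) ((c : ℝ) / q)‖ ^ 2 ≤
      (1 + δ) * ‖SS N (al b) ((c : ℝ) / q)‖ ^ 2 + 4 / ε * E1 ^ 2 := by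
    intro c
    have hC := claimC b hs q N ((c : ℝ) / q)
    rw [← hE1] at hC
    have h5 := sq_add_le (SS N (al b) ((c : ℝ) / q))
      (SS N (aq b q) ((c : ℝ) / q) - SS N (al b) ((c : ℝ) / q)) δ hδ0
    rw [add_sub_cancel] at h5
    have h6 := pow_le_pow_left₀ (norm_nonneg _) hC 2
    have h7 : (1 + 1 / δ) * ‖SS N (aq b q) ((c : ℝ) / q) - SS N (al b) ((c : ℝ) / q)‖ ^ 2
        ≤ 4 / ε * E1 ^ 2 := mul_le_mul h4 h6 (by positivity) (by positivity)
    linarith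
  have hcard : (((Finset.range q).filter (fun c => Nat.Coprime c q)).card : ℝ) ≤ q := by
    have : ((Finset.range q).filter (fun c => Nat.Coprime c q)).card ≤ q := by
      calc _ ≤ (Finset.range q).card := Finset.card_filter_le _ _
        _ = q := Finset.card_range q
    exact_mod_cast this
  have hrepsum : ∑ c ∈ (Finset.range q).filter (fun c => Nat.Coprime c q),
        ‖SS N (aq b q) ((c : ℝ) / q)‖ ^ 2 ≤
      (1 + δ) * ∑ c ∈ (Finset.range q).filter (fun c => Nat.Coprime c q),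
        ‖SS N (al b) ((c : ℝ) / q)‖ ^ 2 + q * (4 / ε * E1 ^ 2) := by
    calc _ ≤ ∑ c ∈ (Finset.range q).filter (fun c => Nat.Coprime c q),
          ((1 + δ) * ‖SS N (al b) ((c : ℝ) / q)‖ ^ 2 + 4 / ε * E1 ^ 2) :=
          Finset.sum_le_sum (fun c _ => hrep c)
      _ = (1 + δ) * ∑ c ∈ (Finset.range q).filter (fun c => Nat.Coprime c q),
          ‖SS N (al b) ((c : ℝ) / q)‖ ^ 2 +
          ((Finset.range q).filter (fun c => Nat.Coprime c q)).card * (4 / ε * E1 ^ 2) := by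
          rw [Finset.sum_add_distrib, Finset.mul_sum, Finset.sum_const, nsmul_eq_mul]
      _ ≤ _ := by
          have : 0 ≤ 4 / ε * E1 ^ 2 := by positivity
          nlinarith
  set R := ∑ c ∈ (Finset.range q).filter (fun c => Nat.Coprime c q),
          ‖SS N (al b) ((c : ℝ) / q)‖ ^ 2 with hR
  have hRn : 0 ≤ R := Finset.sum_nonneg (fun c _ => by positivity)
  rw [hcf, ww_total q] at hsum1
  have hq2 : (0 : ℝ) ≤ 1 / (q : ℝ) ^ 2 := by positivity
  have step1 : (1 + δ) * ((1 / (q : ℝ) ^ 2) *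
      ∑ c ∈ (Finset.range q).filter (fun c => Nat.Coprime c q),
        ‖SS N (aq b q) ((c : ℝ) / q)‖ ^ 2) ≤
      (1 + δ) * ((1 / (q : ℝ) ^ 2) * ((1 + δ) * R + q * (4 / ε * E1 ^ 2))) := by
    apply mul_le_mul_of_nonneg_left _ (by positivity)
    exact mul_le_mul_of_nonneg_left hrepsum hq2
  have step2 : (1 + δ) * ((1 / (q : ℝ) ^ 2) * ((1 + δ) * R + q * (4 / ε * E1 ^ 2))) =
      (1 + δ) ^ 2 * ((1 / (q : ℝ) ^ 2) * R) + (1 + δ) * (4 / ε) * ((1 / (q : ℝ)) * E1 ^ 2) := by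
    field_simp
  have step3 : (1 + δ) ^ 2 ≤ 1 + ε := by
    rw [hδ]; nlinarith
  have step4 : (1 + δ) ≤ 2 := by rw [hδ]; linarith
  have step5 : (Nat.totient q : ℝ) / (q : ℝ) ^ 2 ≤ 1 / q := by
    rw [div_le_div_iff₀ (by positivity) hq0]
    nlinarith
  have step6 : (Nat.totient q : ℝ) / (q : ℝ) ^ 2 * (8 / ε * (E1 ^ 2 + E2 ^ 2)) ≤
      1 / q * (8 / ε * (E1 ^ 2 + E2 ^ 2)) :=
    mul_le_mul_of_nonneg_right step5 (by positivity)
  have step7 : (1 + δ) ^ 2 * ((1 / (q : ℝ) ^ 2) * R) ≤ (1 + ε) * ((1 / (q : ℝ) ^ 2) * R) :=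
    mul_le_mul_of_nonneg_right step3 (by positivity)
  have step8 : (1 + δ) * (4 / ε) * ((1 / (q : ℝ)) * E1 ^ 2) ≤ 2 * (4 / ε) * ((1 / (q : ℝ)) * E1 ^ 2) := by
    apply mul_le_mul_of_nonneg_right _ (by positivity)
    exact mul_le_mul_of_nonneg_right step4 (by positivity)
  have step9 : 2 * (4 / ε) * ((1 / (q : ℝ)) * E1 ^ 2) + 1 / q * (8 / ε * (E1 ^ 2 + E2 ^ 2)) ≤
      16 / ε * ((1 / (q : ℝ)) * (E1 ^ 2 + E2 ^ 2)) := by
    have : 16 / ε * ((1 / (q : ℝ)) * (E1 ^ 2 + E2 ^ 2)) -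
      (2 * (4 / ε) * ((1 / (q : ℝ)) * E1 ^ 2) + 1 / q * (8 / ε * (E1 ^ 2 + E2 ^ 2)))
      = 8 / ε * (1 / q) * E2 ^ 2 := by ring
    have h : 0 ≤ 8 / ε * (1 / (q : ℝ)) * E2 ^ 2 := by positivity
    linarith
  linarith

theorem fam_ls : ∃ C : ℝ, 0 < C ∧ ∀ (ε : ℝ) (X Y N : ℕ) (b : ℕ → ℂ), 0 < ε → ε ≤ 1 → 1 ≤ X → X ≤ Y →
    Summable (fun n => ArithmeticFunction.vonMangoldt n * ‖b n‖) →
    fam X Y (fun q χ => ‖∑' n : ℕ, aa q χ n * b n‖ ^ 2) ≤
      (1 + ε) * Real.exp (Real.pi * N / (X : ℝ) ^ 2) * (c0 * Real.log ((Y : ℝ) / X) + C) *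
        ∑ n ∈ Finset.Icc 1 N, (ArithmeticFunction.vonMangoldt n) ^ 2 * ‖b n‖ ^ 2
      + 16 / ε * ∑ q ∈ Finset.Ioc X Y, (1 / (q : ℝ)) *
        ((∑' n : ℕ, if Nat.Coprime n q then 0 else ArithmeticFunction.vonMangoldt n * ‖b n‖) ^ 2 +
         (∑' n : ℕ, if N < n then ArithmeticFunction.vonMangoldt n * ‖b n‖ else 0) ^ 2) := by
  obtain ⟨C, hC, hls⟩ := farey_large_sieve
  refine ⟨C, hC, ?_⟩
  intro ε X Y N b h0 h1 hX hXY hs
  have hs' : Summable (mj b) := hs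
  have hXR : (1 : ℝ) ≤ X := by exact_mod_cast hX
  have hmain := hls X Y N ((X : ℝ) ^ 2) (al b) hX hXY (by nlinarith) le_rfl
  unfold fam
  calc ∑ q ∈ Finset.Ioc X Y, ∑ᶠ χ : DirichletCharacter ℂ q, ww q χ * ‖∑' n : ℕ, aa q χ n * b n‖ ^ 2
      ≤ ∑ q ∈ Finset.Ioc X Y, ((1 + ε) * ((1 / (q : ℝ) ^ 2) *
        ∑ c ∈ (Finset.range q).filter (fun c => Nat.Coprime c q), ‖SS N (al b) ((c : ℝ) / q)‖ ^ 2)
        + 16 / ε * ((1 / (q : ℝ)) * ((∑' n, BB1 b q n) ^ 2 + (∑' n, TT1 b N n) ^ 2))) := by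
        apply Finset.sum_le_sum
        intro q hq
        rw [Finset.mem_Ioc] at hq
        have : NeZero q := ⟨by omega⟩
        exact fam_ls_q b hs' q N ε h0 h1
    _ = (1 + ε) * (∑ q ∈ Finset.Ioc X Y, (1 / (q : ℝ) ^ 2) *
        ∑ c ∈ (Finset.range q).filter (fun c => Nat.Coprime c q), ‖SS N (al b) ((c : ℝ) / q)‖ ^ 2)
        + 16 / ε * ∑ q ∈ Finset.Ioc X Y, (1 / (q : ℝ)) *
          ((∑' n, BB1 b q n) ^ 2 + (∑' n, TT1 b N n) ^ 2) := by
        rw [Finset.sum_add_distrib, ← Finset.mul_sum, ← Finset.mul_sum]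
    _ ≤ _ := by
        apply add_le_add
        · have hn : ∑ n ∈ Finset.Icc 1 N, ‖al b n‖ ^ 2 =
              ∑ n ∈ Finset.Icc 1 N, (ArithmeticFunction.vonMangoldt n) ^ 2 * ‖b n‖ ^ 2 := by
            apply Finset.sum_congr rfl
            intro n _
            rw [al_norm]
            unfold mj
            ring
          rw [hn] at hmain
          calc _ ≤ (1 + ε) * _ := mul_le_mul_of_nonneg_left hmain (by linarith)
            _ = _ := by ring
        · exact le_rfl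

end H385
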