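import Pool.Agent.H385R2.Defs

/-!
TEAM Q, module Q2: sums of a Lorentzian over an arithmetic progression with a coprimality condition.
-/

set_option autoImplicit false

open Filter Topology Set MeasureTheory

namespace H385

/-- the Lorentzian -/
noncomputable def lor (α x0 c x : ℝ) : ℝ := 1 / (α * (x - x0) ^ 2 + c)

/-- majorising primitive of `|lor'|` -/
noncomputable def lorH (α x0 c x : ℝ) : ℝ := (1 / c) * Real.arctan (Real.sqrt (α / c) * (x - x0))

lemma lor_nonneg {α c : ℝ} (x0 : ℝ) (hα : 0 < α) (hc : 0 < c) (x : ℝ) : 0 ≤ lor α x0 c x := by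
  unfold lor; positivity

lemma lor_le {α c : ℝ} (x0 : ℝ) (hα : 0 < α) (hc : 0 < c) (x : ℝ) : lor α x0 c x ≤ 1 / c := by
  unfold lor
  apply one_div_le_one_div_of_le hc
  have : 0 ≤ α * (x - x0) ^ 2 := by positivity
  linarith

lemma lor_continuous {α c : ℝ} (x0 : ℝ) (hα : 0 < α) (hc : 0 < c) : Continuous (lor α x0 c) := by
  unfold lor
  apply Continuous.div continuous_const (by fun_prop)
  intro x
  positivity

lemma lor_hasDeriv {α c : ℝ} (x0 : ℝ) (hα : 0 < α) (hc : 0 < c) (x : ℝ) :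
    HasDerivAt (lor α x0 c) (-(2 * α * (x - x0)) / (α * (x - x0) ^ 2 + c) ^ 2) x := by
  unfold lor
  have h1 : HasDerivAt (fun x : ℝ => α * (x - x0) ^ 2 + c) (α * (2 * (x - x0))) x := by
    have h2 := (((hasDerivAt_id x).sub_const x0).pow 2).const_mul α |>.add_const c
    refine h2.congr_deriv ?_
    simp
  have h3 : α * (x - x0) ^ 2 + c ≠ 0 := by positivity
  have h4 := h1.inv h3
  have h5 : (fun x : ℝ => 1 / (α * (x - x0) ^ 2 + c)) = fun x : ℝ => (α * (x - x0) ^ 2 + c)⁻¹ := by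
    ext x; rw [one_div]
  rw [h5]
  refine h4.congr_deriv ?_
  ring

lemma lorH_hasDeriv {α c : ℝ} (x0 : ℝ) (hα : 0 < α) (hc : 0 < c) (x : ℝ) :
    HasDerivAt (lorH α x0 c) (Real.sqrt (α / c) * lor α x0 c x) x := by
  unfold lorH lor
  have h1 : HasDerivAt (fun x : ℝ => Real.sqrt (α / c) * (x - x0)) (Real.sqrt (α / c)) x := by
    simpa using ((hasDerivAt_id x).sub_const x0).const_mul (Real.sqrt (α / c))
  have h2 := (h1.arctan).const_mul (1 / c)
  refine h2.congr_deriv ?_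
  have h3 : (Real.sqrt (α / c) * (x - x0)) ^ 2 = α / c * (x - x0) ^ 2 := by
    rw [mul_pow, Real.sq_sqrt (by positivity)]
  rw [h3]
  have h4 : α * (x - x0) ^ 2 + c ≠ 0 := by positivity
  have h5 : 1 + α / c * (x - x0) ^ 2 ≠ 0 := by positivity
  field_simp
  ring

lemma abs_deriv_le {α c : ℝ} (x0 : ℝ) (hα : 0 < α) (hc : 0 < c) (x : ℝ) :
    |-(2 * α * (x - x0)) / (α * (x - x0) ^ 2 + c) ^ 2| ≤ Real.sqrt (α / c) * lor α x0 c x := by
  unfold lor
  have h4 : 0 < α * (x - x0) ^ 2 + c := by positivity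
  rw [abs_div, abs_neg, abs_of_pos (by positivity : 0 < (α * (x - x0) ^ 2 + c) ^ 2), mul_one_div,
    div_le_div_iff₀ (by positivity) h4]
  have h1 : |2 * α * (x - x0)| = 2 * α * |x - x0| := by
    rw [abs_mul, abs_of_pos (by positivity : 0 < 2 * α)]
  rw [h1]
  have h2 : 2 * α * |x - x0| ≤ Real.sqrt (α / c) * (α * (x - x0) ^ 2 + c) := by
    have h3 : α = Real.sqrt (α / c) * Real.sqrt (α / c) * c := by
      rw [Real.mul_self_sqrt (by positivity)]; field_simp
    set k := Real.sqrt (α / c) with hk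
    have hk0 : 0 < k := Real.sqrt_pos.mpr (by positivity)
    have h5 : (x - x0) ^ 2 = |x - x0| ^ 2 := (sq_abs _).symm
    rw [h5]
    have h6 : k * (α * |x - x0| ^ 2 + c) - 2 * α * |x - x0| = c * k * (k * |x - x0| - 1) ^ 2 := by
      rw [h3]; ring
    have h7 : 0 ≤ c * k * (k * |x - x0| - 1) ^ 2 := by positivity
    linarith
  calc 2 * α * |x - x0| * (α * (x - x0) ^ 2 + c)
      ≤ Real.sqrt (α / c) * (α * (x - x0) ^ 2 + c) * (α * (x - x0) ^ 2 + c) :=
        mul_le_mul_of_nonneg_right h2 h4.le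
    _ = Real.sqrt (α / c) * (α * (x - x0) ^ 2 + c) ^ 2 := by ring

lemma lor_var {α c : ℝ} (x0 : ℝ) (hα : 0 < α) (hc : 0 < c) {u v : ℝ} (huv : u ≤ v) :
    |lor α x0 c v - lor α x0 c u| ≤ lorH α x0 c v - lorH α x0 c u := by
  have hH := lorH_hasDeriv x0 hα hc
  have hf := lor_hasDeriv x0 hα hc
  have hd := abs_deriv_le x0 hα hc
  have m1 : Monotone (fun x => lorH α x0 c x - lor α x0 c x) := by
    apply monotone_of_hasDerivAt_nonneg (fun x => (hH x).sub (hf x))
    intro x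
    have := le_abs_self (-(2 * α * (x - x0)) / (α * (x - x0) ^ 2 + c) ^ 2)
    have := hd x
    simp only [Pi.zero_apply]
    linarith
  have m2 : Monotone (fun x => lorH α x0 c x + lor α x0 c x) := by
    apply monotone_of_hasDerivAt_nonneg (fun x => (hH x).add (hf x))
    intro x
    have := neg_abs_le (-(2 * α * (x - x0)) / (α * (x - x0) ^ 2 + c) ^ 2)
    have := hd x
    simp only [Pi.zero_apply]
    linarith
  have h1 := m1 huv
  have h2 := m2 huv
  simp only at h1 h2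
  rw [abs_le]
  constructor <;> linarith

lemma lorH_bound {α c : ℝ} (x0 : ℝ) (hc : 0 < c) (u v : ℝ) :
    lorH α x0 c v - lorH α x0 c u ≤ Real.pi / c := by
  unfold lorH
  have h1 := Real.arctan_lt_pi_div_two (Real.sqrt (α / c) * (v - x0))
  have h2 := Real.neg_pi_div_two_lt_arctan (Real.sqrt (α / c) * (u - x0))
  rw [← mul_sub]
  have h3 : Real.pi / c = (1 / c) * Real.pi := by ring
  rw [h3]
  apply mul_le_mul_of_nonneg_left _ (by positivity)
  linarith

open Classical in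
/-- indicator of the progression -/
noncomputable def cAP (m : ℕ) (a : ℤ) (q : ℕ) : ℝ := if (m : ℤ) ∣ (q : ℤ) - a then 1 else 0

lemma count_AP (A n m : ℕ) (a : ℤ) (hAn : A ≤ n) (hm : 1 ≤ m) :
    |∑ q ∈ Finset.Ioc A n, cAP m a q - ((n : ℝ) - A) / m| ≤ 1 := by
  classical
  set v : ℕ := (a % m).toNat with hv
  have hm' : (0 : ℤ) < m := by exact_mod_cast hm
  have hva : (v : ℤ) = a % m := by
    rw [hv, Int.toNat_of_nonneg (Int.emod_nonneg a hm'.ne')]
  have h1 : ∑ q ∈ Finset.Ioc A n, cAP m a q =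
      (((Finset.Ioc A n).filter (fun q => q ≡ v [MOD m])).card : ℝ) := by
    unfold cAP
    rw [Finset.card_filter]
    push_cast
    apply Finset.sum_congr rfl
    intro q _
    have h2 : (m : ℤ) ∣ (q : ℤ) - a ↔ q ≡ v [MOD m] := by
      rw [← Int.natCast_modEq_iff, hva]
      constructor
      · intro h
        have h3 : a ≡ (q : ℤ) [ZMOD m] := Int.modEq_iff_dvd.mpr h
        exact h3.symm.trans (Int.mod_modEq a m).symm
      · intro h
        have h3 : (q : ℤ) ≡ a [ZMOD m] := h.trans (Int.mod_modEq a m)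
        exact Int.modEq_iff_dvd.mp h3.symm
    simp only [h2]
  rw [h1]
  have h3 := Nat.Ioc_filter_modEq_card A n (by omega : 0 < m) v
  set x : ℚ := ((n : ℚ) - v) / m with hx
  set y : ℚ := ((A : ℚ) - v) / m with hy
  have hmq : (0 : ℚ) < m := by exact_mod_cast hm
  have hxy : y ≤ x := by
    rw [hx, hy]
    apply div_le_div_of_nonneg_right _ hmq.le
    have : (A : ℚ) ≤ n := by exact_mod_cast hAn
    linarith
  have h4 : max (⌊x⌋ - ⌊y⌋) 0 = ⌊x⌋ - ⌊y⌋ := max_eq_left (by have := Int.floor_le_floor hxy; omega)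
  rw [h4] at h3
  have h5 : (((Finset.Ioc A n).filter (fun q => q ≡ v [MOD m])).card : ℚ) =
      (⌊x⌋ : ℚ) - ⌊y⌋ := by exact_mod_cast h3
  have h6 : x - y = ((n : ℚ) - A) / m := by rw [hx, hy]; ring
  have h7 : |(((Finset.Ioc A n).filter (fun q => q ≡ v [MOD m])).card : ℚ) -
      ((n : ℚ) - A) / m| ≤ 1 := by
    rw [h5, ← h6, abs_le]
    have := Int.floor_le x
    have := Int.lt_floor_add_one x
    have := Int.floor_le y
    have := Int.lt_floor_add_one y
    constructor <;> linarith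
  have h8 : ((|(((Finset.Ioc A n).filter (fun q => q ≡ v [MOD m])).card : ℚ) -
      ((n : ℚ) - A) / m| : ℚ) : ℝ) ≤ ((1 : ℚ) : ℝ) := by exact_mod_cast h7
  push_cast at h8
  exact h8

lemma ap_step {α c : ℝ} (x0 : ℝ) (hα : 0 < α) (hc : 0 < c) (n : ℕ) :
    |lor α x0 c ((n : ℝ) + 1) - ∫ x in (n : ℝ)..((n : ℝ) + 1), lor α x0 c x| ≤
      lorH α x0 c ((n : ℝ) + 1) - lorH α x0 c n := by
  have h1 : lor α x0 c ((n : ℝ) + 1) - ∫ x in (n : ℝ)..((n : ℝ) + 1), lor α x0 c x =
      ∫ x in (n : ℝ)..((n : ℝ) + 1), (lor α x0 c ((n : ℝ) + 1) - lor α x0 c x) := by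
    rw [intervalIntegral.integral_sub intervalIntegrable_const
      ((lor_continuous x0 hα hc).intervalIntegrable _ _)]
    simp
  rw [h1, ← Real.norm_eq_abs]
  have h2 := intervalIntegral.norm_integral_le_of_norm_le_const
    (a := (n : ℝ)) (b := (n : ℝ) + 1)
    (f := fun x => lor α x0 c ((n : ℝ) + 1) - lor α x0 c x)
    (C := lorH α x0 c ((n : ℝ) + 1) - lorH α x0 c n) ?_
  · simpa using h2
  · intro x hx
    rw [uIoc_of_le (by linarith)] at hx
    rw [Real.norm_eq_abs]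
    refine (lor_var x0 hα hc hx.2).trans ?_
    have hmono : Monotone (lorH α x0 c) := by
      intro u v huv
      have := lor_var x0 hα hc huv
      have := abs_nonneg (lor α x0 c v - lor α x0 c u)
      linarith
    have := hmono hx.1.le
    linarith

lemma ap_induct {α c : ℝ} (x0 : ℝ) (hα : 0 < α) (hc : 0 < c) (A m : ℕ) (a : ℤ) (hm : 1 ≤ m)
    (n : ℕ) (hn : A ≤ n) :
    |∑ q ∈ Finset.Ioc A n, cAP m a q * lor α x0 c q - (1 / (m : ℝ)) *
        (∫ x in (A : ℝ)..n, lor α x0 c x) -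
      lor α x0 c n * (∑ q ∈ Finset.Ioc A n, cAP m a q - ((n : ℝ) - A) / m)| ≤
    2 * (lorH α x0 c n - lorH α x0 c A) := by
  have hm1 : (1 : ℝ) ≤ m := by exact_mod_cast hm
  have hminv : 1 / (m : ℝ) ≤ 1 := by rw [div_le_one (by linarith)]; exact hm1
  have hminv0 : 0 ≤ 1 / (m : ℝ) := by positivity
  induction n, hn using Nat.le_induction with
  | base => simp
  | succ n hn ih =>
    have hcast : ((n + 1 : ℕ) : ℝ) = (n : ℝ) + 1 := by push_cast; ring
    have hI : ∫ x in (A : ℝ)..((n + 1 : ℕ) : ℝ), lor α x0 c x =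
        (∫ x in (A : ℝ)..n, lor α x0 c x) + ∫ x in (n : ℝ)..((n : ℝ) + 1), lor α x0 c x := by
      rw [hcast, intervalIntegral.integral_add_adjacent_intervals
        ((lor_continuous x0 hα hc).intervalIntegrable _ _)
        ((lor_continuous x0 hα hc).intervalIntegrable _ _)]
    have hsplit : Finset.Ioc A (n + 1) = insert (n + 1) (Finset.Ioc A n) := by
      ext k
      simp only [Finset.mem_insert, Finset.mem_Ioc]
      omega
    have hnot : n + 1 ∉ Finset.Ioc A n := by simp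
    rw [hI, hsplit, Finset.sum_insert hnot, Finset.sum_insert hnot, hcast]
    set S := ∑ q ∈ Finset.Ioc A n, cAP m a q * lor α x0 c q with hS
    set e := ∑ q ∈ Finset.Ioc A n, cAP m a q with he
    set J := ∫ x in (A : ℝ)..n, lor α x0 c x with hJ
    set J' := ∫ x in (n : ℝ)..((n : ℝ) + 1), lor α x0 c x with hJ'
    set f1 := lor α x0 c ((n : ℝ) + 1) with hf1
    set f0 := lor α x0 c (n : ℝ) with hf0
    have hcnt := count_AP A n m a hn hm
    rw [← he] at hcnt
    have hst := ap_step x0 hα hc n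
    rw [← hf1, ← hJ'] at hst
    have hvar := lor_var x0 hα hc (u := (n : ℝ)) (v := (n : ℝ) + 1) (by linarith)
    rw [← hf1, ← hf0] at hvar
    set H1 := lorH α x0 c ((n : ℝ) + 1) with hH1
    set H0 := lorH α x0 c (n : ℝ) with hH0
    have key : cAP m a (n + 1) * f1 + S - 1 / (m : ℝ) * (J + J') -
        f1 * (cAP m a (n + 1) + e - ((n : ℝ) + 1 - A) / m) =
        (S - 1 / (m : ℝ) * J - f0 * (e - ((n : ℝ) - A) / m)) +
        ((1 / (m : ℝ)) * (f1 - J') - (e - ((n : ℝ) - A) / m) * (f1 - f0)) := by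
      field_simp
      ring
    rw [key]
    have hb1 : |(1 / (m : ℝ)) * (f1 - J')| ≤ H1 - H0 := by
      rw [abs_mul, abs_of_nonneg hminv0]
      calc 1 / (m : ℝ) * |f1 - J'| ≤ 1 * |f1 - J'| :=
            mul_le_mul_of_nonneg_right hminv (abs_nonneg _)
        _ ≤ H1 - H0 := by rw [one_mul]; exact hst
    have hb2 : |(e - ((n : ℝ) - A) / m) * (f1 - f0)| ≤ H1 - H0 := by
      rw [abs_mul]
      calc |e - ((n : ℝ) - A) / m| * |f1 - f0| ≤ 1 * |f1 - f0| :=
            mul_le_mul_of_nonneg_right hcnt (abs_nonneg _)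
        _ ≤ H1 - H0 := by rw [one_mul]; exact hvar
    have h1 := abs_add_le (S - 1 / (m : ℝ) * J - f0 * (e - ((n : ℝ) - A) / m))
      ((1 / (m : ℝ)) * (f1 - J') - (e - ((n : ℝ) - A) / m) * (f1 - f0))
    have h2 := abs_sub ((1 / (m : ℝ)) * (f1 - J')) ((e - ((n : ℝ) - A) / m) * (f1 - f0))
    linarith

lemma ap_sum {α c : ℝ} (x0 : ℝ) (hα : 0 < α) (hc : 0 < c) (A B m : ℕ) (a : ℤ) (hm : 1 ≤ m)
    (hAB : A ≤ B) :
    |∑ q ∈ Finset.Ioc A B, cAP m a q * lor α x0 c q - (1 / (m : ℝ)) *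
        (∫ x in (A : ℝ)..B, lor α x0 c x)| ≤ 9 / c := by
  have h1 := ap_induct x0 hα hc A m a hm B hAB
  have h2 := count_AP A B m a hAB hm
  have h3 := lor_le x0 hα hc (B : ℝ)
  have h4 := lor_nonneg x0 hα hc (B : ℝ)
  have h5 := lorH_bound (α := α) x0 hc (A : ℝ) (B : ℝ)
  have h6 : |lor α x0 c B * (∑ q ∈ Finset.Ioc A B, cAP m a q - ((B : ℝ) - A) / m)| ≤ 1 / c := by
    rw [abs_mul, abs_of_nonneg h4]
    calc lor α x0 c B * |∑ q ∈ Finset.Ioc A B, cAP m a q - ((B : ℝ) - A) / m|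
        ≤ (1 / c) * 1 := mul_le_mul h3 h2 (abs_nonneg _) (by positivity)
      _ = 1 / c := mul_one _
  have h7 : Real.pi / c ≤ 4 / c := div_le_div_of_nonneg_right Real.pi_lt_four.le hc.le
  set X := ∑ q ∈ Finset.Ioc A B, cAP m a q * lor α x0 c q - (1 / (m : ℝ)) *
        (∫ x in (A : ℝ)..B, lor α x0 c x) with hX
  set Z := lor α x0 c B * (∑ q ∈ Finset.Ioc A B, cAP m a q - ((B : ℝ) - A) / m) with hZ
  have h8 : |X| ≤ |X - Z| + |Z| := by
    have := abs_add_le (X - Z) Z
    simpa using this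
  have h9 : 9 / c = 2 * (4 / c) + 1 / c := by ring
  rw [h9]
  linarith

lemma moebius_indicator (g : ℕ) :
    ∑ d ∈ g.divisors, (ArithmeticFunction.moebius d : ℤ) = if g = 1 then 1 else 0 := by
  rw [← ArithmeticFunction.coe_mul_zeta_apply, ArithmeticFunction.moebius_mul_coe_zeta]
  rw [ArithmeticFunction.one_apply]

lemma totient_moebius {n : ℕ} (hn : n ≠ 0) :
    ∑ d ∈ n.divisors, (ArithmeticFunction.moebius d : ℝ) / d = (Nat.totient n : ℝ) / n := by
  have h1 : ∀ n : ℕ, n > 0 → ∑ i ∈ n.divisors, (Nat.totient i : ℝ) = (n : ℝ) := by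
    intro n _
    exact_mod_cast Nat.sum_totient n
  have h2 := (ArithmeticFunction.sum_eq_iff_sum_mul_moebius_eq (f := fun i => (Nat.totient i : ℝ))
    (g := fun i => (i : ℝ))).mp h1 n (Nat.pos_of_ne_zero hn)
  have hn' : (n : ℝ) ≠ 0 := by exact_mod_cast hn
  rw [eq_div_iff hn', ← h2, Finset.sum_mul, Nat.sum_divisorsAntidiagonal
    (f := fun x y => (ArithmeticFunction.moebius x : ℝ) * (y : ℝ))]
  apply Finset.sum_congr rfl
  intro d hd
  have hdn := Nat.dvd_of_mem_divisors hd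
  have hd0 : d ≠ 0 := by
    rintro rfl
    exact hn (Nat.eq_zero_of_zero_dvd hdn)
  have hd0' : (d : ℝ) ≠ 0 := by exact_mod_cast hd0
  rw [Nat.cast_div hdn hd0']
  field_simp

theorem line_sum : ∃ C : ℝ, 0 < C ∧ ∀ (A B r : ℕ) (r' j : ℤ) (α x0 c : ℝ), A ≤ B → 1 ≤ r → j ≠ 0 →
    0 < α → 0 < c →
    ∑ q ∈ (Finset.Ioc A B).filter (fun q : ℕ => (r : ℤ) ∣ ((q : ℤ) - j * r') ∧
        Int.gcd (((q : ℤ) - j * r') / r) j = 1), 1 / (α * ((q : ℝ) - x0) ^ 2 + c) ≤
      ((Nat.totient j.natAbs : ℝ) / j.natAbs) * (1 / r) *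
        (∫ x in (A : ℝ)..B, 1 / (α * (x - x0) ^ 2 + c))
      + C * (Nat.divisors j.natAbs).card / c := by
  classical
  refine ⟨9, by norm_num, ?_⟩
  intro A B r r' j α x0 c hAB hr hj hα hc
  set n : ℕ := j.natAbs with hn
  have hn0 : n ≠ 0 := by rw [hn]; exact Int.natAbs_ne_zero.mpr hj
  have hr0 : (r : ℤ) ≠ 0 := by exact_mod_cast (by omega : r ≠ 0)
  have hr1 : (1 : ℝ) ≤ r := by exact_mod_cast hr
  -- pointwise identity
  have hpt : ∀ q : ℕ, (if (r : ℤ) ∣ ((q : ℤ) - j * r') ∧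
        Int.gcd (((q : ℤ) - j * r') / r) j = 1 then (1 : ℝ) else 0) =
      ∑ d ∈ n.divisors, (ArithmeticFunction.moebius d : ℝ) * cAP (r * d) (j * r') q := by
    intro q
    by_cases hdvd : (r : ℤ) ∣ ((q : ℤ) - j * r')
    · obtain ⟨k, hk⟩ := hdvd
      have hkq : ((q : ℤ) - j * r') / r = k := by rw [hk]; exact Int.mul_ediv_cancel_left k hr0
      have hdv : (r : ℤ) ∣ ((q : ℤ) - j * r') := ⟨k, hk⟩
      simp only [hdv, true_and]
      rw [hkq]
      have hg0 : Int.gcd k j ≠ 0 := by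
        intro h
        exact hj (Int.gcd_eq_zero_iff.mp h).2
      have h1 := moebius_indicator (Int.gcd k j)
      have h2 : (if Int.gcd k j = 1 then (1 : ℝ) else 0) =
          ∑ d ∈ (Int.gcd k j).divisors, (ArithmeticFunction.moebius d : ℝ) := by
        have h3 : ((∑ d ∈ (Int.gcd k j).divisors, (ArithmeticFunction.moebius d : ℤ) : ℤ) : ℝ) =
          ((if Int.gcd k j = 1 then (1 : ℤ) else 0 : ℤ) : ℝ) := by rw [h1]
        push_cast at h3
        rw [h3]
      rw [h2]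
      have h4 : (Int.gcd k j).divisors = n.divisors.filter (fun d : ℕ => (d : ℤ) ∣ k) := by
        ext d
        simp only [Nat.mem_divisors, Finset.mem_filter]
        constructor
        · rintro ⟨hd, _⟩
          have hd' : (d : ℤ) ∣ (Int.gcd k j : ℤ) := by exact_mod_cast hd
          refine ⟨⟨?_, hn0⟩, hd'.trans (Int.gcd_dvd_left ..)⟩
          have h5 : (d : ℤ) ∣ j := hd'.trans (Int.gcd_dvd_right ..)
          rw [hn]
          exact Int.natCast_dvd.mp h5
        · rintro ⟨⟨hd, _⟩, hdk⟩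
          refine ⟨?_, hg0⟩
          have h5 : (d : ℤ) ∣ j := Int.natCast_dvd.mpr (by rw [← hn]; exact hd)
          have h6 : (d : ℤ) ∣ (Int.gcd k j : ℤ) := Int.dvd_coe_gcd hdk h5
          exact_mod_cast h6
      rw [h4, Finset.sum_filter]
      apply Finset.sum_congr rfl
      intro d _
      unfold cAP
      have h7 : (((r * d : ℕ) : ℤ) ∣ (q : ℤ) - j * r') ↔ (d : ℤ) ∣ k := by
        rw [hk]
        push_cast
        exact mul_dvd_mul_iff_left hr0
      by_cases h8 : (d : ℤ) ∣ k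
      · rw [if_pos h8, if_pos (h7.mpr h8), mul_one]
      · rw [if_neg h8, if_neg (fun h => h8 (h7.mp h)), mul_zero]
    · rw [if_neg (fun h => hdvd h.1)]
      symm
      apply Finset.sum_eq_zero
      intro d _
      unfold cAP
      rw [if_neg, mul_zero]
      intro h
      apply hdvd
      refine dvd_trans ?_ h
      push_cast
      exact dvd_mul_right _ _
  have hsum : ∑ q ∈ (Finset.Ioc A B).filter (fun q : ℕ => (r : ℤ) ∣ ((q : ℤ) - j * r') ∧
        Int.gcd (((q : ℤ) - j * r') / r) j = 1), 1 / (α * ((q : ℝ) - x0) ^ 2 + c) =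
      ∑ d ∈ n.divisors, (ArithmeticFunction.moebius d : ℝ) *
        ∑ q ∈ Finset.Ioc A B, cAP (r * d) (j * r') q * lor α x0 c q := by
    rw [Finset.sum_filter]
    have h1 : ∀ q ∈ Finset.Ioc A B, (if (r : ℤ) ∣ ((q : ℤ) - j * r') ∧
        Int.gcd (((q : ℤ) - j * r') / r) j = 1 then 1 / (α * ((q : ℝ) - x0) ^ 2 + c) else 0) =
        ∑ d ∈ n.divisors, (ArithmeticFunction.moebius d : ℝ) *
          (cAP (r * d) (j * r') q * lor α x0 c q) := by
      intro q _
      have h2 : (if (r : ℤ) ∣ ((q : ℤ) - j * r') ∧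
        Int.gcd (((q : ℤ) - j * r') / r) j = 1 then 1 / (α * ((q : ℝ) - x0) ^ 2 + c) else 0) =
        (if (r : ℤ) ∣ ((q : ℤ) - j * r') ∧
        Int.gcd (((q : ℤ) - j * r') / r) j = 1 then (1 : ℝ) else 0) * lor α x0 c q := by
        unfold lor
        split_ifs <;> simp
      rw [h2, hpt, Finset.sum_mul]
      apply Finset.sum_congr rfl
      intro d _
      ring
    rw [Finset.sum_congr rfl h1, Finset.sum_comm]
    apply Finset.sum_congr rfl
    intro d _
    rw [Finset.mul_sum]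
  rw [hsum]
  set J : ℝ := ∫ x in (A : ℝ)..B, lor α x0 c x with hJ
  have hJ' : (∫ x in (A : ℝ)..B, 1 / (α * (x - x0) ^ 2 + c)) = J := rfl
  rw [hJ']
  have hterm : ∀ d ∈ n.divisors, (ArithmeticFunction.moebius d : ℝ) *
        ∑ q ∈ Finset.Ioc A B, cAP (r * d) (j * r') q * lor α x0 c q ≤
      (1 / r) * J * ((ArithmeticFunction.moebius d : ℝ) / d) + 9 / c := by
    intro d hd
    have hd0 : 1 ≤ d := Nat.pos_of_mem_divisors hd
    have hd1 : (1 : ℝ) ≤ d := by exact_mod_cast hd0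
    have h1 := ap_sum x0 hα hc A B (r * d) (j * r') (Nat.one_le_iff_ne_zero.mpr (by positivity)) hAB
    rw [← hJ] at h1
    have h2 : |(ArithmeticFunction.moebius d : ℝ)| ≤ 1 := by
      have := ArithmeticFunction.abs_moebius_le_one (n := d)
      exact_mod_cast this
    set S := ∑ q ∈ Finset.Ioc A B, cAP (r * d) (j * r') q * lor α x0 c q with hS
    have h3 : (ArithmeticFunction.moebius d : ℝ) * (S - 1 / ((r * d : ℕ) : ℝ) * J) ≤ 9 / c := by
      refine (le_abs_self _).trans ?_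
      rw [abs_mul]
      calc |(ArithmeticFunction.moebius d : ℝ)| * |S - 1 / ((r * d : ℕ) : ℝ) * J|
          ≤ 1 * (9 / c) := mul_le_mul h2 h1 (abs_nonneg _) zero_le_one
        _ = 9 / c := one_mul _
    have h4 : (ArithmeticFunction.moebius d : ℝ) * S = (ArithmeticFunction.moebius d : ℝ) *
        (S - 1 / ((r * d : ℕ) : ℝ) * J) + (1 / r) * J * ((ArithmeticFunction.moebius d : ℝ) / d) := by
      push_cast
      field_simp
      ring
    rw [h4]
    linarith
  calc ∑ d ∈ n.divisors, (ArithmeticFunction.moebius d : ℝ) *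
        ∑ q ∈ Finset.Ioc A B, cAP (r * d) (j * r') q * lor α x0 c q
      ≤ ∑ d ∈ n.divisors, ((1 / r) * J * ((ArithmeticFunction.moebius d : ℝ) / d) + 9 / c) :=
        Finset.sum_le_sum hterm
    _ = (1 / r) * J * ((Nat.totient n : ℝ) / n) + n.divisors.card * (9 / c) := by
        rw [Finset.sum_add_distrib, ← Finset.mul_sum, totient_moebius hn0, Finset.sum_const,
          nsmul_eq_mul]
    _ = _ := by ring

end H385
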