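import Pool.Agent.H385R2.Theta
import Pool.Agent.H385R2.Line

/-!
TEAM Q, task Q3: log-averaged density of Farey fractions against the Poisson kernel.
-/

open Finset MeasureTheory

namespace H385

namespace Farey

lemma c0_nonneg : 0 ≤ c0 := by unfold c0; positivity

lemma c0_le_one : c0 ≤ 1 := by
  unfold c0
  rw [div_le_one (by positivity)]
  nlinarith [Real.pi_gt_three]

/-! ### divisor sums -/

lemma sum_inv_sq_le_two (N : ℕ) : ∑ d ∈ Icc 1 N, 1 / ((d : ℝ) ^ 2) ≤ 2 := by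
  rcases Nat.eq_zero_or_pos N with rfl | hN
  · simp
  have h1 : Icc 1 N = insert 1 (Ioc 1 N) := by
    ext x; simp only [mem_Icc, mem_insert, mem_Ioc]; omega
  rw [h1, sum_insert (by simp)]
  have h2 := sum_Ioc_inv_sq_le_sub (α := ℝ) (k := 1) (n := N) one_ne_zero hN
  have h3 : (0 : ℝ) ≤ ((N : ℝ))⁻¹ := by positivity
  have h4 : ∑ d ∈ Ioc 1 N, 1 / ((d : ℝ) ^ 2) = ∑ d ∈ Ioc 1 N, ((d : ℝ) ^ 2)⁻¹ :=
    sum_congr rfl (fun _ _ => one_div _)
  rw [h4]
  push_cast at h2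
  linarith

lemma sum_tau (J : Finset ℕ) (hJ : ∀ j ∈ J, 1 ≤ j) :
    ∑ j ∈ J, ((Nat.divisors j).card : ℝ) / (j : ℝ) ^ 2 ≤ 4 := by
  classical
  obtain ⟨N, hN⟩ : ∃ N, ∀ j ∈ J, j ≤ N := ⟨J.sup id, fun j hj => le_sup (f := id) hj⟩
  have h1 : ∀ j ∈ J, ((Nat.divisors j).card : ℝ) / (j : ℝ) ^ 2 =
      ∑ p ∈ Nat.divisorsAntidiagonal j, (1 / (p.1 : ℝ) ^ 2) * (1 / (p.2 : ℝ) ^ 2) := by
    intro j hj
    have hc : (Nat.divisorsAntidiagonal j).card = (Nat.divisors j).card := by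
      rw [← Nat.map_div_right_divisors, card_map]
    rw [← hc, div_eq_mul_one_div, ← nsmul_eq_mul, ← sum_const]
    apply sum_congr rfl
    intro p hp
    rw [Nat.mem_divisorsAntidiagonal] at hp
    rw [← hp.1]
    push_cast
    rw [mul_pow, one_div_mul_one_div]
  rw [sum_congr rfl h1, ← sum_biUnion]
  · calc ∑ p ∈ J.biUnion Nat.divisorsAntidiagonal, (1 / (p.1 : ℝ) ^ 2) * (1 / (p.2 : ℝ) ^ 2)
        ≤ ∑ p ∈ Icc 1 N ×ˢ Icc 1 N, (1 / (p.1 : ℝ) ^ 2) * (1 / (p.2 : ℝ) ^ 2) := by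
          apply sum_le_sum_of_subset_of_nonneg
          · intro p hp
            rw [mem_biUnion] at hp
            obtain ⟨j, hj, hp⟩ := hp
            rw [Nat.mem_divisorsAntidiagonal] at hp
            have hj1 := hJ j hj
            have hjN := hN j hj
            have hp1 : p.1 ≠ 0 := fun h => hp.2 (by rw [← hp.1, h, zero_mul])
            have hp2 : p.2 ≠ 0 := fun h => hp.2 (by rw [← hp.1, h, mul_zero])
            rw [mem_product, mem_Icc, mem_Icc]
            refine ⟨⟨Nat.pos_of_ne_zero hp1, ?_⟩, ⟨Nat.pos_of_ne_zero hp2, ?_⟩⟩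
            · calc p.1 ≤ p.1 * p.2 := Nat.le_mul_of_pos_right _ (Nat.pos_of_ne_zero hp2)
                _ = j := hp.1
                _ ≤ N := hjN
            · calc p.2 ≤ p.1 * p.2 := Nat.le_mul_of_pos_left _ (Nat.pos_of_ne_zero hp1)
                _ = j := hp.1
                _ ≤ N := hjN
          · intro p _ _; positivity
      _ = (∑ d ∈ Icc 1 N, 1 / ((d : ℝ) ^ 2)) * (∑ d ∈ Icc 1 N, 1 / ((d : ℝ) ^ 2)) := by
          rw [sum_mul_sum, sum_product]
      _ ≤ 2 * 2 := by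
          have h0 : 0 ≤ ∑ d ∈ Icc 1 N, 1 / ((d : ℝ) ^ 2) := sum_nonneg (fun _ _ => by positivity)
          exact mul_le_mul (sum_inv_sq_le_two N) (sum_inv_sq_le_two N) h0 (by norm_num)
      _ = 4 := by norm_num
  · intro i _ j _ hij
    rw [Function.onFun, disjoint_left]
    intro p hp hp'
    rw [Nat.mem_divisorsAntidiagonal] at hp hp'
    exact hij (hp.1.symm.trans hp'.1)

/-- sums over nonzero integers of functions of the absolute value, with signs fixed -/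
lemma sum_natAbs (J : Finset ℤ) (hJ : ∀ j ∈ J, 0 < j) (f : ℕ → ℝ) :
    ∑ j ∈ J, f j.natAbs = ∑ i ∈ J.image Int.natAbs, f i := by
  rw [sum_image]
  intro a ha b hb h
  have h1 := hJ a ha
  have h2 := hJ b hb
  omega

lemma sum_natAbs_neg (J : Finset ℤ) (hJ : ∀ j ∈ J, j < 0) (f : ℕ → ℝ) :
    ∑ j ∈ J, f j.natAbs = ∑ i ∈ J.image Int.natAbs, f i := by
  rw [sum_image]
  intro a ha b hb h
  have h1 := hJ a ha
  have h2 := hJ b hb
  omega

lemma sum_tau_int (J : Finset ℤ) (hJ : ∀ j ∈ J, j ≠ 0) :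
    ∑ j ∈ J, ((Nat.divisors j.natAbs).card : ℝ) / (j.natAbs : ℝ) ^ 2 ≤ 8 := by
  classical
  rw [← sum_filter_add_sum_filter_not J (fun j => 0 < j)]
  have h1 : ∑ j ∈ J.filter (fun j => 0 < j), ((Nat.divisors j.natAbs).card : ℝ) /
      (j.natAbs : ℝ) ^ 2 ≤ 4 := by
    rw [sum_natAbs _ (fun j hj => (mem_filter.mp hj).2)
      (fun i => ((Nat.divisors i).card : ℝ) / (i : ℝ) ^ 2)]
    apply sum_tau
    intro i hi
    rw [mem_image] at hi
    obtain ⟨j, hj, rfl⟩ := hi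
    have := hJ j (mem_filter.mp hj).1
    omega
  have h2 : ∑ j ∈ J.filter (fun j => ¬ 0 < j), ((Nat.divisors j.natAbs).card : ℝ) /
      (j.natAbs : ℝ) ^ 2 ≤ 4 := by
    rw [sum_natAbs_neg _ (fun j hj => by
        have h1 := (mem_filter.mp hj).2
        have h2 := hJ j (mem_filter.mp hj).1
        omega)
      (fun i => ((Nat.divisors i).card : ℝ) / (i : ℝ) ^ 2)]
    apply sum_tau
    intro i hi
    rw [mem_image] at hi
    obtain ⟨j, hj, rfl⟩ := hi
    have := hJ j (mem_filter.mp hj).1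
    omega
  linarith

/-! ### windows -/

/-- the statement of `theta_asymp` with a given constant -/
def ThetaBound (C : ℝ) : Prop := ∀ n : ℕ, 1 ≤ n →
    |∑ i ∈ Icc 1 n, (Nat.totient i : ℝ) / (i : ℝ) ^ 2 - c0 * Real.log n| ≤ C

lemma window_pos {C : ℝ} (hC : 0 < C) (hT : ThetaBound C) (A B : ℕ) (hA : 1 ≤ A) (hAB : A ≤ B)
    (y : ℝ) (hy : 0 < y) (J : Finset ℕ)
    (hJ : ∀ j ∈ J, 1 ≤ j ∧ (A : ℝ) ≤ j * y ∧ (j : ℝ) * y ≤ B) :
    ∑ j ∈ J, (Nat.totient j : ℝ) / (j : ℝ) ^ 2 ≤ c0 * Real.log ((B : ℝ) / A) + (2 * C + 1) := by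
  have hAr : (1 : ℝ) ≤ A := by exact_mod_cast hA
  have hBr : (A : ℝ) ≤ B := by exact_mod_cast hAB
  have hlog0 : 0 ≤ Real.log ((B : ℝ) / A) := Real.log_nonneg (by rw [le_div_iff₀ (by linarith)]; linarith)
  have hmain0 : 0 ≤ c0 * Real.log ((B : ℝ) / A) := mul_nonneg c0_nonneg hlog0
  rcases J.eq_empty_or_nonempty with rfl | ⟨j₀, hj₀⟩
  · simp only [sum_empty]; linarith
  set m1 : ℕ := ⌈(A : ℝ) / y⌉₊ with hm1
  set n2 : ℕ := ⌊(B : ℝ) / y⌋₊ with hn2
  have hsub : J ⊆ Icc m1 n2 := by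
    intro j hj
    obtain ⟨h1, h2, h3⟩ := hJ j hj
    rw [mem_Icc]
    constructor
    · rw [hm1, Nat.ceil_le, div_le_iff₀ hy]; exact h2
    · rw [hn2, Nat.le_floor_iff (by positivity), le_div_iff₀ hy]; exact h3
  have hm1pos : 1 ≤ m1 := by
    rw [hm1, Nat.one_le_ceil_iff]; positivity
  have hm1n2 : m1 ≤ n2 := by
    have := mem_Icc.mp (hsub hj₀); omega
  have hn2pos : 1 ≤ n2 := hm1pos.trans hm1n2
  have hle : ∑ j ∈ J, (Nat.totient j : ℝ) / (j : ℝ) ^ 2 ≤
      ∑ j ∈ Icc m1 n2, (Nat.totient j : ℝ) / (j : ℝ) ^ 2 :=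
    sum_le_sum_of_subset_of_nonneg hsub (fun _ _ _ => by positivity)
  refine hle.trans ?_
  have hn2r : (n2 : ℝ) ≤ B / y := Nat.floor_le (by positivity)
  have hTn2 := (abs_le.mp (hT n2 hn2pos)).2
  have hn2pos' : (0 : ℝ) < n2 := by exact_mod_cast hn2pos
  rcases Nat.lt_or_ge 1 m1 with h | h
  · -- `m1 ≥ 2`
    have hsplit : ∑ j ∈ Icc 1 n2, (Nat.totient j : ℝ) / (j : ℝ) ^ 2 =
        ∑ j ∈ Icc 1 (m1 - 1), (Nat.totient j : ℝ) / (j : ℝ) ^ 2 +
        ∑ j ∈ Icc m1 n2, (Nat.totient j : ℝ) / (j : ℝ) ^ 2 := by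
      rw [← sum_union]
      · apply sum_congr _ (fun _ _ => rfl)
        ext x; simp only [mem_Icc, mem_union]; omega
      · rw [disjoint_left]; intro x; simp only [mem_Icc]; omega
    have hTm1 := (abs_le.mp (hT (m1 - 1) (by omega))).1
    have hm1r : (A : ℝ) / y ≤ m1 := Nat.le_ceil _
    have hcast : ((m1 - 1 : ℕ) : ℝ) = (m1 : ℝ) - 1 := by
      rw [Nat.cast_sub hm1pos]; norm_num
    have hm1half : (A : ℝ) / (2 * y) ≤ ((m1 - 1 : ℕ) : ℝ) := by
      rw [hcast]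
      have h2 : (2 : ℝ) ≤ m1 := by exact_mod_cast h
      have e : (A : ℝ) / (2 * y) = (A / y) / 2 := by field_simp
      rw [e]; linarith
    have hposA : 0 < (A : ℝ) / (2 * y) := by positivity
    have hlog1 : Real.log ((A : ℝ) / (2 * y)) ≤ Real.log ((m1 - 1 : ℕ) : ℝ) :=
      Real.log_le_log hposA hm1half
    have hlog2 : Real.log (n2 : ℝ) ≤ Real.log (B / y) := Real.log_le_log hn2pos' hn2r
    have hlog3 : Real.log ((B : ℝ) / y) - Real.log ((A : ℝ) / (2 * y)) =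
        Real.log ((B : ℝ) / A) + Real.log 2 := by
      have hA0 : (A : ℝ) ≠ 0 := by positivity
      have hB0 : (B : ℝ) ≠ 0 := by
        have : (0 : ℝ) < B := by linarith
        exact this.ne'
      rw [Real.log_div hB0 hy.ne', Real.log_div hA0 (by positivity), Real.log_div hB0 hA0,
        Real.log_mul (by norm_num) hy.ne']
      ring
    have hlog2' : Real.log 2 ≤ 1 := by linarith [Real.log_two_lt_d9]
    have hc1 : c0 * (Real.log (n2 : ℝ) - Real.log ((m1 - 1 : ℕ) : ℝ)) ≤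
        c0 * (Real.log ((B : ℝ) / A) + Real.log 2) := by
      apply mul_le_mul_of_nonneg_left _ c0_nonneg
      linarith
    have hc2 : c0 * Real.log 2 ≤ 1 := by
      have h0 : 0 ≤ Real.log 2 := Real.log_nonneg (by norm_num)
      calc c0 * Real.log 2 ≤ 1 * Real.log 2 := mul_le_mul_of_nonneg_right c0_le_one h0
        _ ≤ 1 := by linarith
    nlinarith
  · have hm : m1 = 1 := by omega
    rw [hm]
    have hAy : (A : ℝ) ≤ y := by
      have h1 : (A : ℝ) / y ≤ 1 := by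
        have := Nat.le_ceil ((A : ℝ) / y)
        rw [← hm1, hm] at this
        exact_mod_cast this
      rwa [div_le_one hy] at h1
    have h2 : (n2 : ℝ) ≤ B / A := hn2r.trans (div_le_div_of_nonneg_left (by linarith) (by linarith) hAy)
    have h3 : Real.log (n2 : ℝ) ≤ Real.log (B / A) := Real.log_le_log hn2pos' h2
    have h4 := mul_le_mul_of_nonneg_left h3 c0_nonneg
    linarith

lemma window_int {C : ℝ} (hC : 0 < C) (hT : ThetaBound C) (A B : ℕ) (hA : 1 ≤ A) (hAB : A ≤ B)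
    (y : ℝ) (J : Finset ℤ)
    (hJ : ∀ j ∈ J, (A : ℝ) ≤ j * y ∧ (j : ℝ) * y ≤ B) :
    ∑ j ∈ J, (Nat.totient j.natAbs : ℝ) / (j.natAbs : ℝ) ^ 2 ≤
      c0 * Real.log ((B : ℝ) / A) + (2 * C + 1) := by
  classical
  have hAr : (1 : ℝ) ≤ A := by exact_mod_cast hA
  rcases lt_trichotomy y 0 with hy | hy | hy
  · have hneg : ∀ j ∈ J, j < 0 := by
      intro j hj
      have h1 := (hJ j hj).1
      by_contra h
      push Not at h
      have : (0 : ℝ) ≤ j := by exact_mod_cast h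
      nlinarith
    rw [sum_natAbs_neg J hneg (fun i => (Nat.totient i : ℝ) / (i : ℝ) ^ 2)]
    apply window_pos hC hT A B hA hAB (-y) (by linarith)
    intro i hi
    rw [mem_image] at hi
    obtain ⟨j, hj, rfl⟩ := hi
    have h1 := hneg j hj
    have h2 := hJ j hj
    have h3 : ((j.natAbs : ℕ) : ℝ) = -(j : ℝ) := by
      rw [Nat.cast_natAbs, Int.cast_abs, abs_of_neg (by exact_mod_cast h1)]
    rw [h3]
    refine ⟨by omega, ?_, ?_⟩ <;> linarith
  · rcases J.eq_empty_or_nonempty with rfl | ⟨j, hj⟩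
    · exact window_pos hC hT A B hA hAB 1 one_pos ∅ (by simp)
    · have h1 := (hJ j hj).1
      rw [hy, mul_zero] at h1
      linarith
  · have hpos : ∀ j ∈ J, 0 < j := by
      intro j hj
      have h1 := (hJ j hj).1
      by_contra h
      push Not at h
      have : (j : ℝ) ≤ 0 := by exact_mod_cast h
      nlinarith
    rw [sum_natAbs J hpos (fun i => (Nat.totient i : ℝ) / (i : ℝ) ^ 2)]
    apply window_pos hC hT A B hA hAB y hy
    intro i hi
    rw [mem_image] at hi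
    obtain ⟨j, hj, rfl⟩ := hi
    have h1 := hpos j hj
    have h2 := hJ j hj
    have h3 : ((j.natAbs : ℕ) : ℝ) = (j : ℝ) := by
      rw [Nat.cast_natAbs, Int.cast_abs, abs_of_pos (by exact_mod_cast h1)]
    rw [h3]
    exact ⟨by omega, h2.1, h2.2⟩

/-! ### Lorentzian integrals -/

lemma lor_pos {α c : ℝ} (hα : 0 < α) (hc : 0 < c) (ξ y : ℝ) : 0 < α * (y - ξ) ^ 2 + c := by
  positivity

lemma lor_integrable {α c : ℝ} (hα : 0 < α) (hc : 0 < c) (ξ : ℝ) :
    Integrable (fun y : ℝ => 1 / (α * (y - ξ) ^ 2 + c)) ∧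
      ∫ y : ℝ, 1 / (α * (y - ξ) ^ 2 + c) = Real.pi / Real.sqrt (α * c) := by
  set k : ℝ := Real.sqrt (α / c) with hk
  have hkpos : 0 < k := Real.sqrt_pos.mpr (by positivity)
  have hk2 : k ^ 2 = α / c := Real.sq_sqrt (by positivity)
  have e : (fun y : ℝ => 1 / (α * (y - ξ) ^ 2 + c)) =
      fun y : ℝ => (1 / c) * (1 + (k * (y - ξ)) ^ 2)⁻¹ := by
    funext y
    rw [mul_pow, hk2]
    field_simp
    ring
  rw [e]
  have h1 : Integrable (fun y : ℝ => (1 + (k * (y - ξ)) ^ 2)⁻¹) := by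
    have h2 := (integrable_inv_one_add_sq.comp_mul_left' (R := k) hkpos.ne')
    exact h2.comp_sub_right ξ
  refine ⟨h1.const_mul _, ?_⟩
  rw [integral_const_mul]
  have h3 : ∫ y : ℝ, (1 + (k * (y - ξ)) ^ 2)⁻¹ = k⁻¹ * Real.pi := by
    rw [integral_sub_right_eq_self (fun y : ℝ => (1 + (k * y) ^ 2)⁻¹) ξ]
    rw [Measure.integral_comp_mul_left (fun y : ℝ => (1 + y ^ 2)⁻¹) k,
      integral_univ_inv_one_add_sq, abs_of_pos (inv_pos.mpr hkpos), smul_eq_mul]
  rw [h3]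
  have h4 : Real.sqrt (α * c) = c * k := by
    rw [hk]
    have : α * c = c ^ 2 * (α / c) := by field_simp
    rw [this, Real.sqrt_mul (by positivity), Real.sqrt_sq hc.le]
  rw [h4]
  field_simp

/-- scaling of the integrals over `[A,B]` -/
lemma lor_scale {α c : ℝ} (hα : 0 < α) (hc : 0 < c) (ξ : ℝ) (A B : ℝ) (hAB : A ≤ B) (j : ℝ)
    (hj : j ≠ 0) :
    ∫ x in A..B, 1 / (α * (x - j * ξ) ^ 2 + c * j ^ 2) =
      (1 / |j|) * ∫ y : ℝ, Set.indicator {y : ℝ | A ≤ j * y ∧ j * y ≤ B}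
        (fun y => 1 / (α * (y - ξ) ^ 2 + c)) y := by
  have hjabs : 0 < |j| := abs_pos.mpr hj
  rw [intervalIntegral.integral_of_le hAB, ← integral_Icc_eq_integral_Ioc,
    ← integral_indicator measurableSet_Icc]
  set g : ℝ → ℝ := Set.indicator (Set.Icc A B)
    (fun x => 1 / (α * (x - j * ξ) ^ 2 + c * j ^ 2)) with hg
  have h1 := Measure.integral_comp_mul_left g j
  have h2 : ∫ x, g x = |j| * ∫ y, g (j * y) := by
    rw [h1, smul_eq_mul, ← mul_assoc, abs_inv, mul_inv_cancel₀ hjabs.ne', one_mul]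
  rw [h2]
  have h3 : ∀ y, g (j * y) = (1 / j ^ 2) * Set.indicator {y : ℝ | A ≤ j * y ∧ j * y ≤ B}
      (fun y => 1 / (α * (y - ξ) ^ 2 + c)) y := by
    intro y
    rw [hg]
    by_cases h : A ≤ j * y ∧ j * y ≤ B
    · rw [Set.indicator_of_mem (show j * y ∈ Set.Icc A B from h),
        Set.indicator_of_mem (show y ∈ {y : ℝ | A ≤ j * y ∧ j * y ≤ B} from h)]
      have hp := lor_pos hα hc ξ y
      have e : α * (j * y - j * ξ) ^ 2 + c * j ^ 2 = j ^ 2 * (α * (y - ξ) ^ 2 + c) := by ring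
      rw [e, one_div_mul_one_div]
    · rw [Set.indicator_of_notMem (show j * y ∉ Set.Icc A B from h),
        Set.indicator_of_notMem (show y ∉ {y : ℝ | A ≤ j * y ∧ j * y ≤ B} from h), mul_zero]
  simp_rw [h3]
  rw [integral_const_mul, ← mul_assoc]
  congr 1
  rw [← sq_abs j]
  field_simp

/-- the main term -/
lemma main_sum {C : ℝ} (hC : 0 < C) (hT : ThetaBound C) {α c : ℝ} (hα : 0 < α) (hc : 0 < c) (ξ : ℝ)
    (A B : ℕ) (hA : 1 ≤ A) (hAB : A ≤ B) (J : Finset ℤ) (hJ : ∀ j ∈ J, j ≠ 0) :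
    ∑ j ∈ J, ((Nat.totient j.natAbs : ℝ) / j.natAbs) *
      (∫ x in (A : ℝ)..B, 1 / (α * (x - j * ξ) ^ 2 + c * (j : ℝ) ^ 2)) ≤
    (c0 * Real.log ((B : ℝ) / A) + (2 * C + 1)) * (Real.pi / Real.sqrt (α * c)) := by
  classical
  have hABr : (A : ℝ) ≤ B := by exact_mod_cast hAB
  obtain ⟨hint, hval⟩ := lor_integrable hα hc ξ
  set D : ℝ → ℝ := fun y => 1 / (α * (y - ξ) ^ 2 + c) with hD
  have hDpos : ∀ y, 0 ≤ D y := fun y => by
    have := lor_pos hα hc ξ y
    simp only [hD]; positivity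
  set S : ℤ → Set ℝ := fun j => {y : ℝ | (A : ℝ) ≤ j * y ∧ (j : ℝ) * y ≤ B} with hS
  have hSm : ∀ j, MeasurableSet (S j) := by
    intro j
    have h1 : Measurable (fun y : ℝ => (j : ℝ) * y) := measurable_const.mul measurable_id
    exact (measurableSet_le measurable_const h1).inter (measurableSet_le h1 measurable_const)
  have hterm : ∀ j ∈ J, ((Nat.totient j.natAbs : ℝ) / j.natAbs) *
      (∫ x in (A : ℝ)..B, 1 / (α * (x - j * ξ) ^ 2 + c * (j : ℝ) ^ 2)) =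
      ∫ y : ℝ, ((Nat.totient j.natAbs : ℝ) / (j.natAbs : ℝ) ^ 2) * Set.indicator (S j) D y := by
    intro j hj
    have hj0 : (j : ℝ) ≠ 0 := by exact_mod_cast hJ j hj
    rw [lor_scale hα hc ξ A B hABr j hj0, integral_const_mul, ← mul_assoc]
    congr 1
    have : |(j : ℝ)| = (j.natAbs : ℝ) := by
      rw [Nat.cast_natAbs, Int.cast_abs]
    rw [this, pow_two]
    field_simp
  rw [sum_congr rfl hterm, ← integral_finsetSum]
  · rw [← hval, ← integral_const_mul]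
    apply integral_mono
    · apply integrable_finsetSum
      intro j _
      exact (hint.indicator (hSm j)).const_mul _
    · exact hint.const_mul _
    · intro y
      simp only
      have e : ∑ j ∈ J, ((Nat.totient j.natAbs : ℝ) / (j.natAbs : ℝ) ^ 2) *
          Set.indicator (S j) D y =
          (∑ j ∈ J.filter (fun j => y ∈ S j),
            ((Nat.totient j.natAbs : ℝ) / (j.natAbs : ℝ) ^ 2)) * D y := by
        rw [sum_mul, sum_filter]
        apply sum_congr rfl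
        intro j _
        by_cases h : y ∈ S j
        · rw [Set.indicator_of_mem h, if_pos h]
        · rw [Set.indicator_of_notMem h, if_neg h, mul_zero]
      rw [e]
      apply mul_le_mul_of_nonneg_right _ (hDpos y)
      apply window_int hC hT A B hA hAB y
      intro j hj
      exact (mem_filter.mp hj).2
  · intro j _
    exact (hint.indicator (hSm j)).const_mul _

/-- the statement of `line_sum` with a given constant -/
def LineBound (C : ℝ) : Prop := ∀ (A B r : ℕ) (r' j : ℤ) (α x0 c : ℝ), A ≤ B → 1 ≤ r → j ≠ 0 →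
    0 < α → 0 < c →
    ∑ q ∈ (Finset.Ioc A B).filter (fun q : ℕ => (r : ℤ) ∣ ((q : ℤ) - j * r') ∧
        Int.gcd (((q : ℤ) - j * r') / r) j = 1), 1 / (α * ((q : ℝ) - x0) ^ 2 + c) ≤
      ((Nat.totient j.natAbs : ℝ) / j.natAbs) * (1 / r) *
        (∫ x in (A : ℝ)..B, 1 / (α * (x - x0) ^ 2 + c))
      + C * (Nat.divisors j.natAbs).card / c

/-- completing the square -/
lemma lor_identity (V θ b r q a : ℝ) (hr : 0 < r) (hV : 0 < V) (hq : 0 < q) :
    (1 / q ^ 2) * PK V (θ - a / q) =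
      (V / Real.pi) * (1 / (((r ^ 2 + V ^ 2 * (r * θ - b) ^ 2) / r ^ 2) *
        (q - (r * a - b * q) * (V ^ 2 * (r * θ - b) / (r ^ 2 + V ^ 2 * (r * θ - b) ^ 2))) ^ 2 +
        (V ^ 2 / (r ^ 2 + V ^ 2 * (r * θ - b) ^ 2)) * (r * a - b * q) ^ 2)) := by
  unfold PK
  have hm : 0 < r ^ 2 + V ^ 2 * (r * θ - b) ^ 2 := by positivity
  have key : ((r ^ 2 + V ^ 2 * (r * θ - b) ^ 2) / r ^ 2) *
        (q - (r * a - b * q) * (V ^ 2 * (r * θ - b) / (r ^ 2 + V ^ 2 * (r * θ - b) ^ 2))) ^ 2 +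
        (V ^ 2 / (r ^ 2 + V ^ 2 * (r * θ - b) ^ 2)) * (r * a - b * q) ^ 2 =
        q ^ 2 * (1 + V ^ 2 * (θ - a / q) ^ 2) := by
    field_simp
    ring
  rw [key]
  have h1 : 0 < 1 + V ^ 2 * (θ - a / q) ^ 2 := by positivity
  field_simp

lemma finite_sum {C C' : ℝ} (hC : 0 < C) (hT : ThetaBound C) (hC' : 0 < C') (hL : LineBound C')
    (A B : ℕ) (V θ : ℝ) (hA : 1 ≤ A) (hAB : A ≤ B) (hV : 1 ≤ V) (hVA : V ≤ (A : ℝ) ^ 2)
    (s : Finset ℤ) :
    ∑ q ∈ Ioc A B, (1 / (q : ℝ) ^ 2) *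
      ∑ a ∈ s, (if Int.gcd a q = 1 then PK V (θ - a / q) else 0) ≤
    c0 * Real.log ((B : ℝ) / A) + ((2 * C + 1) + 16 * C') := by
  classical
  have hV0 : 0 < V := by linarith
  have hAr : (1 : ℝ) ≤ A := by exact_mod_cast hA
  set n : ℕ := ⌊Real.sqrt V⌋₊ with hn
  have hsV : 1 ≤ Real.sqrt V := Real.one_le_sqrt.mpr hV
  have hsV2 : Real.sqrt V ^ 2 = V := Real.sq_sqrt hV0.le
  have hn1 : 0 < n := Nat.floor_pos.mpr hsV
  have hnle : (n : ℝ) ≤ Real.sqrt V := Nat.floor_le (by positivity)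
  have hnlt : Real.sqrt V < n + 1 := Nat.lt_floor_add_one _
  obtain ⟨x, hx, hxden⟩ := Real.exists_rat_abs_sub_le_and_den_le θ hn1
  set r : ℕ := x.den with hr
  set b : ℤ := x.num with hb
  have hrpos : 0 < r := x.pos
  have hrr : (0 : ℝ) < r := by exact_mod_cast hrpos
  set ρ : ℝ := r * θ - b with hρ
  have hxr : (x : ℝ) = b / r := Rat.cast_def x
  have hρle : |ρ| * Real.sqrt V ≤ 1 := by
    have h1 : ρ = r * (θ - x) := by
      rw [hxr, hρ]; field_simp
    rw [h1, abs_mul, abs_of_pos hrr]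
    have h2 : (r : ℝ) * |θ - x| ≤ 1 / (n + 1) := by
      calc (r : ℝ) * |θ - x| ≤ r * (1 / ((n + 1) * r)) := mul_le_mul_of_nonneg_left hx hrr.le
        _ = 1 / (n + 1) := by field_simp
    have h3 : (0 : ℝ) < n + 1 := by positivity
    calc (r : ℝ) * |θ - x| * Real.sqrt V ≤ 1 / (n + 1) * (n + 1) :=
          mul_le_mul h2 hnlt.le (by positivity) (by positivity)
      _ = 1 := by field_simp
  have hρV : ρ ^ 2 * V ≤ 1 := by
    have h1 : (|ρ| * Real.sqrt V) ^ 2 ≤ 1 := by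
      have : 0 ≤ |ρ| * Real.sqrt V := by positivity
      nlinarith
    rw [mul_pow, sq_abs, hsV2] at h1
    exact h1
  have hrV : (r : ℝ) ^ 2 ≤ V := by
    have h1 : (r : ℝ) ≤ Real.sqrt V := le_trans (by exact_mod_cast hxden) hnle
    calc (r : ℝ) ^ 2 ≤ Real.sqrt V ^ 2 := by gcongr
      _ = V := hsV2
  have hrA : r ≤ A := by
    have h1 : (r : ℝ) ^ 2 ≤ (A : ℝ) ^ 2 := hrV.trans hVA
    have h2 : r ^ 2 ≤ A ^ 2 := by exact_mod_cast h1
    exact (Nat.pow_le_pow_iff_left (by norm_num)).mp h2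
  set m2 : ℝ := (r : ℝ) ^ 2 + V ^ 2 * ρ ^ 2 with hm2
  have hm2pos : 0 < m2 := by positivity
  have hm2le : m2 ≤ 2 * V := by
    have : V ^ 2 * ρ ^ 2 ≤ V := by nlinarith
    rw [hm2]; linarith
  set α : ℝ := m2 / (r : ℝ) ^ 2 with hα
  set c : ℝ := V ^ 2 / m2 with hc
  set ξ : ℝ := V ^ 2 * ρ / m2 with hξ
  have hαpos : 0 < α := by positivity
  have hcpos : 0 < c := by positivity
  -- Bezout
  have hcop : IsCoprime (r : ℤ) b := by
    rw [Int.isCoprime_iff_gcd_eq_one]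
    have := x.reduced
    rw [Nat.coprime_comm] at this
    simpa [Int.gcd, hr, hb] using this
  obtain ⟨u, v, huv⟩ := hcop
  -- `u r + v b = 1`; `b' = u`, `r' = -v`
  set P : Finset (ℕ × ℤ) := (Ioc A B ×ˢ s).filter (fun p => Int.gcd p.2 p.1 = 1) with hP
  set jm : ℕ × ℤ → ℤ := fun p => r * p.2 - b * p.1 with hjm
  set G : ℤ → ℕ → ℝ := fun j q => (V / Real.pi) *
    (1 / (α * ((q : ℝ) - j * ξ) ^ 2 + c * (j : ℝ) ^ 2)) with hG
  have hlhs : ∑ q ∈ Ioc A B, (1 / (q : ℝ) ^ 2) *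
      ∑ a ∈ s, (if Int.gcd a q = 1 then PK V (θ - a / q) else 0) = ∑ p ∈ P, G (jm p) p.1 := by
    rw [hP, sum_filter, sum_product]
    apply sum_congr rfl
    intro q hq
    rw [mul_sum]
    apply sum_congr rfl
    intro a _
    by_cases h : Int.gcd a q = 1
    · rw [if_pos h, if_pos h]
      have hqpos : (0 : ℝ) < q := by
        have := (mem_Ioc.mp hq).1
        have : 0 < q := by omega
        exact_mod_cast this
      rw [lor_identity V θ b r q a hrr hV0 hqpos]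
      simp only [hG, hjm, hα, hc, hξ, hm2, hρ]
      push_cast
      rfl
    · rw [if_neg h, if_neg h, mul_zero]
  -- properties of `j`, `k`
  have hprop : ∀ p ∈ P, ∃ k : ℤ, (p.1 : ℤ) = k * r + jm p * (-v) ∧ Int.gcd k (jm p) = 1 := by
    intro p hp
    rw [hP, mem_filter] at hp
    refine ⟨u * p.1 + v * p.2, ?_, ?_⟩
    · simp only [hjm]
      linear_combination (-(p.1 : ℤ)) * huv
    · apply Nat.dvd_one.mp
      rw [← hp.2]
      have hd1 := Int.gcd_dvd_left (u * p.1 + v * p.2) (jm p)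
      have hd2 := Int.gcd_dvd_right (u * p.1 + v * p.2) (jm p)
      have e1 : (p.1 : ℤ) = (u * p.1 + v * p.2) * r + jm p * (-v) := by
        simp only [hjm]; linear_combination (-(p.1 : ℤ)) * huv
      have e2 : p.2 = (u * p.1 + v * p.2) * b + jm p * u := by
        simp only [hjm]; linear_combination (-p.2) * huv
      apply Int.dvd_gcd
      · exact (dvd_add (hd1.mul_right b) (hd2.mul_right u)).trans (dvd_of_eq e2.symm)
      · exact (dvd_add (hd1.mul_right (r : ℤ)) (hd2.mul_right (-v))).trans (dvd_of_eq e1.symm)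
  set J : Finset ℤ := P.image jm with hJdef
  have hJ0 : ∀ j ∈ J, j ≠ 0 := by
    intro j hj hj0
    rw [hJdef, mem_image] at hj
    obtain ⟨p, hp, hpj⟩ := hj
    obtain ⟨k, hk1, hk2⟩ := hprop p hp
    rw [hpj, hj0] at hk1 hk2
    rw [Int.gcd_zero_right] at hk2
    rw [zero_mul, add_zero] at hk1
    have hp1 := (mem_Ioc.mp (mem_product.mp (mem_filter.mp hp).1).1).1
    have hk3 : k = 1 ∨ k = -1 := Int.natAbs_eq_iff.mp hk2 |> fun h => by simpa using h
    rcases hk3 with h | h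
    · rw [h] at hk1; omega
    · rw [h] at hk1; omega
  have hgroup : ∑ p ∈ P, G (jm p) p.1 = ∑ j ∈ J, ∑ p ∈ P.filter (fun p => jm p = j), G j p.1 := by
    rw [← sum_fiberwise_of_maps_to (s := P) (t := J) (g := jm)
      (fun p hp => mem_image_of_mem _ hp)]
    apply sum_congr rfl
    intro j _
    apply sum_congr rfl
    intro p hp
    rw [(mem_filter.mp hp).2]
  have hfib : ∀ j ∈ J, ∑ p ∈ P.filter (fun p => jm p = j), G j p.1 ≤
      (V / Real.pi) * (((Nat.totient j.natAbs : ℝ) / j.natAbs) * (1 / r) *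
        (∫ x in (A : ℝ)..B, 1 / (α * (x - j * ξ) ^ 2 + c * (j : ℝ) ^ 2))
      + C' * (Nat.divisors j.natAbs).card / (c * (j : ℝ) ^ 2)) := by
    intro j hj
    have hj0 := hJ0 j hj
    have hj0r : (j : ℝ) ≠ 0 := by exact_mod_cast hj0
    have h1 := hL A B r (-v) j α (j * ξ) (c * (j : ℝ) ^ 2) hAB hrpos hj0 hαpos (by positivity)
    have h2 : ∑ p ∈ P.filter (fun p => jm p = j), G j p.1 =
        ∑ q ∈ (P.filter (fun p => jm p = j)).image Prod.fst, G j q := by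
      rw [sum_image]
      intro p hp p' hp' he
      rw [mem_coe, mem_filter] at hp hp'
      have h3 : jm p = jm p' := hp.2.trans hp'.2.symm
      simp only [hjm] at h3
      rw [he] at h3
      have h4 : (r : ℤ) * p.2 = r * p'.2 := by linarith
      have h5 : p.2 = p'.2 := by
        have hr0 : (r : ℤ) ≠ 0 := by exact_mod_cast hrpos.ne'
        exact mul_left_cancel₀ hr0 h4
      exact Prod.ext he h5
    rw [h2]
    have h3 : (P.filter (fun p => jm p = j)).image Prod.fst ⊆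
        (Finset.Ioc A B).filter (fun q : ℕ => (r : ℤ) ∣ ((q : ℤ) - j * (-v)) ∧
        Int.gcd (((q : ℤ) - j * (-v)) / r) j = 1) := by
      intro q hq
      rw [mem_image] at hq
      obtain ⟨p, hp, rfl⟩ := hq
      rw [mem_filter] at hp
      obtain ⟨k, hk1, hk2⟩ := hprop p hp.1
      rw [hp.2] at hk1 hk2
      have hp1 := (mem_product.mp (mem_filter.mp hp.1).1).1
      have e : (p.1 : ℤ) - j * (-v) = k * r := by rw [hk1]; ring
      rw [mem_filter, e]
      have hr0 : (r : ℤ) ≠ 0 := by exact_mod_cast hrpos.ne'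
      refine ⟨hp1, dvd_mul_left _ _, ?_⟩
      rw [Int.mul_ediv_cancel _ hr0]
      exact hk2
    have hGnn : ∀ q : ℕ, 0 ≤ G j q := by
      intro q
      simp only [hG]
      have := Real.pi_pos
      positivity
    calc ∑ q ∈ (P.filter (fun p => jm p = j)).image Prod.fst, G j q
        ≤ ∑ q ∈ (Finset.Ioc A B).filter (fun q : ℕ => (r : ℤ) ∣ ((q : ℤ) - j * (-v)) ∧
        Int.gcd (((q : ℤ) - j * (-v)) / r) j = 1), G j q :=
          sum_le_sum_of_subset_of_nonneg h3 (fun q _ _ => hGnn q)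
      _ = (V / Real.pi) * ∑ q ∈ (Finset.Ioc A B).filter (fun q : ℕ =>
            (r : ℤ) ∣ ((q : ℤ) - j * (-v)) ∧
        Int.gcd (((q : ℤ) - j * (-v)) / r) j = 1),
            1 / (α * ((q : ℝ) - j * ξ) ^ 2 + c * (j : ℝ) ^ 2) := by rw [mul_sum]
      _ ≤ _ := mul_le_mul_of_nonneg_left h1 (by have := Real.pi_pos; positivity)
  rw [hlhs, hgroup]
  refine (sum_le_sum hfib).trans ?_
  have hmain := main_sum hC hT hαpos hcpos ξ A B hA hAB J hJ0
  have htau := sum_tau_int J hJ0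
  have hsq : Real.sqrt (α * c) = V / r := by
    have : α * c = (V / r) ^ 2 := by
      rw [hα, hc]; field_simp
    rw [this, Real.sqrt_sq (by positivity)]
  rw [hsq] at hmain
  have hπ := Real.pi_pos
  have hsplit : ∑ j ∈ J, (V / Real.pi) * (((Nat.totient j.natAbs : ℝ) / j.natAbs) * (1 / r) *
        (∫ x in (A : ℝ)..B, 1 / (α * (x - j * ξ) ^ 2 + c * (j : ℝ) ^ 2))
      + C' * (Nat.divisors j.natAbs).card / (c * (j : ℝ) ^ 2)) =
      (V / (Real.pi * r)) * (∑ j ∈ J, ((Nat.totient j.natAbs : ℝ) / j.natAbs) *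
        (∫ x in (A : ℝ)..B, 1 / (α * (x - j * ξ) ^ 2 + c * (j : ℝ) ^ 2))) +
      (V * C' / (Real.pi * c)) *
        ∑ j ∈ J, ((Nat.divisors j.natAbs).card : ℝ) / (j.natAbs : ℝ) ^ 2 := by
    rw [mul_sum, mul_sum, ← sum_add_distrib]
    apply sum_congr rfl
    intro j hj
    have hj0r : (j : ℝ) ≠ 0 := by exact_mod_cast hJ0 j hj
    have e : (j.natAbs : ℝ) ^ 2 = (j : ℝ) ^ 2 := by
      rw [Nat.cast_natAbs, Int.cast_abs, sq_abs]
    rw [e]
    field_simp
  rw [hsplit]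
  have h1 : (V / (Real.pi * r)) * (∑ j ∈ J, ((Nat.totient j.natAbs : ℝ) / j.natAbs) *
        (∫ x in (A : ℝ)..B, 1 / (α * (x - j * ξ) ^ 2 + c * (j : ℝ) ^ 2))) ≤
      c0 * Real.log ((B : ℝ) / A) + (2 * C + 1) := by
    calc _ ≤ (V / (Real.pi * r)) * ((c0 * Real.log ((B : ℝ) / A) + (2 * C + 1)) *
          (Real.pi / (V / r))) := mul_le_mul_of_nonneg_left hmain (by positivity)
      _ = _ := by field_simp
  have h2 : (V * C' / (Real.pi * c)) *
        ∑ j ∈ J, ((Nat.divisors j.natAbs).card : ℝ) / (j.natAbs : ℝ) ^ 2 ≤ 16 * C' := by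
    have h3 : V * C' / (Real.pi * c) ≤ 2 * C' := by
      rw [div_le_iff₀ (by positivity), hc]
      have h4 : V * C' ≤ 2 * C' * (3 * (V ^ 2 / (2 * V))) := by
        have e : 2 * C' * (3 * (V ^ 2 / (2 * V))) = 3 * (V * C') := by field_simp
        rw [e]
        have : 0 < V * C' := by positivity
        linarith
      refine h4.trans ?_
      have h5 : V ^ 2 / (2 * V) ≤ V ^ 2 / m2 :=
        div_le_div_of_nonneg_left (by positivity) hm2pos hm2le
      have h6 : 3 * (V ^ 2 / (2 * V)) ≤ Real.pi * (V ^ 2 / m2) :=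
        mul_le_mul Real.pi_gt_three.le h5 (by positivity) hπ.le
      exact mul_le_mul_of_nonneg_left h6 (by positivity)
    have h0 : 0 ≤ ∑ j ∈ J, ((Nat.divisors j.natAbs).card : ℝ) / (j.natAbs : ℝ) ^ 2 :=
      sum_nonneg (fun _ _ => by positivity)
    calc _ ≤ (2 * C') * 8 := mul_le_mul h3 htau h0 (by positivity)
      _ = 16 * C' := by ring
  linarith

lemma PK_nonneg (V x : ℝ) (hV : 0 ≤ V) : 0 ≤ PK V x := by
  unfold PK
  have := Real.pi_pos
  positivity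

/-- a nonnegative series is almost a finite sum -/
lemma exists_finset (f : ℤ → ℝ) : ∃ s : Finset ℤ, ∑' a, f a ≤ ∑ a ∈ s, f a + 1 := by
  by_cases h : Summable f
  · have h1 : ∀ᶠ s in Filter.atTop, ∑' a, f a - 1 < ∑ a ∈ s, f a :=
      h.hasSum.eventually (lt_mem_nhds (by linarith))
    obtain ⟨s, hs⟩ := h1.exists
    exact ⟨s, by linarith⟩
  · refine ⟨∅, ?_⟩
    rw [tsum_eq_zero_of_not_summable h]
    simp

theorem farey_density_of {C C' : ℝ} (hC : 0 < C) (hT : ThetaBound C) (hC' : 0 < C')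
    (hL : LineBound C') (A B : ℕ) (V θ : ℝ) (hA : 1 ≤ A) (hAB : A ≤ B) (hV : 1 ≤ V)
    (hVA : V ≤ (A : ℝ) ^ 2) :
    ∑ q ∈ Finset.Ioc A B, (1 / (q : ℝ) ^ 2) *
      ∑' a : ℤ, (if Int.gcd a q = 1 then PK V (θ - a / q) else 0) ≤
    c0 * Real.log ((B : ℝ) / A) + ((2 * C + 1) + 16 * C' + 2) := by
  classical
  have hnn : ∀ q : ℕ, ∀ a : ℤ, 0 ≤ (if Int.gcd a q = 1 then PK V (θ - a / q) else 0) := by
    intro q a
    split_ifs
    · exact PK_nonneg _ _ (by linarith)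
    · exact le_rfl
  choose s hs using fun q : ℕ => exists_finset
    (fun a : ℤ => if Int.gcd a q = 1 then PK V (θ - a / q) else 0)
  set S : Finset ℤ := (Ioc A B).biUnion s with hS
  have h1 := finite_sum hC hT hC' hL A B V θ hA hAB hV hVA S
  have h2 : ∑ q ∈ Finset.Ioc A B, (1 / (q : ℝ) ^ 2) *
      ∑' a : ℤ, (if Int.gcd a q = 1 then PK V (θ - a / q) else 0) ≤
      ∑ q ∈ Finset.Ioc A B, ((1 / (q : ℝ) ^ 2) *
      ∑ a ∈ S, (if Int.gcd a q = 1 then PK V (θ - a / q) else 0) + 1 / (q : ℝ) ^ 2) := by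
    apply sum_le_sum
    intro q hq
    have h3 : ∑ a ∈ s q, (if Int.gcd a q = 1 then PK V (θ - a / q) else 0) ≤
        ∑ a ∈ S, (if Int.gcd a q = 1 then PK V (θ - a / q) else 0) := by
      apply sum_le_sum_of_subset_of_nonneg (subset_biUnion_of_mem s hq)
      intro a _ _
      exact hnn q a
    have h4 := (hs q).trans (add_le_add_left h3 1)
    have h5 : (0 : ℝ) ≤ 1 / (q : ℝ) ^ 2 := by positivity
    calc _ ≤ (1 / (q : ℝ) ^ 2) *
        (∑ a ∈ S, (if Int.gcd a q = 1 then PK V (θ - a / q) else 0) + 1) :=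
          mul_le_mul_of_nonneg_left h4 h5
      _ = _ := by ring
  rw [sum_add_distrib] at h2
  have h6 : ∑ q ∈ Finset.Ioc A B, 1 / (q : ℝ) ^ 2 ≤ 2 := by
    refine le_trans (sum_le_sum_of_subset_of_nonneg ?_ (fun _ _ _ => by positivity))
      (sum_inv_sq_le_two B)
    intro q hq
    rw [mem_Ioc] at hq
    rw [mem_Icc]
    omega
  linarith

end Farey

/-- Q3: log-averaged density of Farey fractions. -/
theorem farey_density : ∃ C : ℝ, 0 < C ∧ ∀ (A B : ℕ) (V θ : ℝ), 1 ≤ A → A ≤ B → 1 ≤ V →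
    V ≤ (A : ℝ) ^ 2 →
    ∑ q ∈ Finset.Ioc A B, (1 / (q : ℝ) ^ 2) *
      ∑' a : ℤ, (if Int.gcd a q = 1 then PK V (θ - a / q) else 0) ≤
    c0 * Real.log ((B : ℝ) / A) + C := by
  obtain ⟨C, hC, hT⟩ := theta_asymp
  obtain ⟨C', hC', hL⟩ := line_sum
  exact ⟨(2 * C + 1) + 16 * C' + 2, by positivity,
    fun A B V θ hA hAB hV hVA => Farey.farey_density_of hC hT hC' hL A B V θ hA hAB hV hVA⟩

end H385
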