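import Pool.Agent.H385R2.FlatAdd
import Pool.Agent.H385R2.GoodD

/-!
TEAM Q2, module O1 : large sieve for Farey fractions with denominators prime to `M` and the
weight `hP P`.
-/

set_option autoImplicit false

open Complex Filter Topology Set MeasureTheory

namespace H385

theorem farey_density_hM (M P : ℕ) (hsf : Squarefree (M * P)) : ∃ C : ℝ, 0 < C ∧
    ∀ (A B : ℕ) (V θ : ℝ), 1 ≤ A → A ≤ B → 1 ≤ V → V ≤ (A : ℝ) ^ 2 →
    ∑ q ∈ (Finset.Ioc A B).filter (fun q => Nat.Coprime q M), (hP P q / (q : ℝ) ^ 2) *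
      ∑' a : ℤ, (if Int.gcd a q = 1 then PK V (θ - a / q) else 0) ≤
    c0 * (∏ p ∈ M.primeFactors, ((p : ℝ) / (p + 1))) * (∏ p ∈ P.primeFactors,
        (((p : ℝ) + (p : ℝ) ^ 2 / ((p : ℝ) ^ 2 + p + 1)) / (p + 1))) * Real.log ((B : ℝ) / A) + C := by
  have hpr : ∀ T ∈ P.primeFactors.powerset, ∀ p ∈ T, p.Prime := by
    intro T hT p hp
    exact Nat.prime_of_mem_primeFactors (Finset.mem_powerset.mp hT hp)
  have hcop : Nat.Coprime M P := (Nat.squarefree_mul_iff.mp hsf).1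
  have hdvd : ∀ T ∈ P.primeFactors.powerset, (∏ p ∈ T, p) ∣ P := by
    intro T hT
    have h1 : (∏ p ∈ T, p) ∣ ∏ p ∈ P.primeFactors, p :=
      Finset.prod_dvd_prod_of_subset _ _ _ (Finset.mem_powerset.mp hT)
    exact h1.trans (Nat.prod_primeFactors_dvd P)
  have hsf' : ∀ T ∈ P.primeFactors.powerset, Squarefree (M * ∏ p ∈ T, p) := by
    intro T hT
    exact hsf.squarefree_of_dvd (Nat.mul_dvd_mul_left M (hdvd T hT))
  have hex : ∀ T : Finset ℕ, ∃ C : ℝ, 0 < C ∧ (T ∈ P.primeFactors.powerset →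
      ∀ (A B : ℕ) (V θ : ℝ), 1 ≤ A → A ≤ B → 1 ≤ V → V ≤ (A : ℝ) ^ 2 →
      ∑ q ∈ (Finset.Ioc A B).filter (fun q => Nat.Coprime q (M * ∏ p ∈ T, p)), (1 / (q : ℝ) ^ 2) *
        ∑' a : ℤ, (if Int.gcd a q = 1 then PK V (θ - a / q) else 0) ≤
      c0 * ((∏ p ∈ M.primeFactors, ((p : ℝ) / (p + 1))) * ∏ p ∈ T, ((p : ℝ) / (p + 1))) *
        Real.log ((B : ℝ) / A) + C) := by
    intro T
    by_cases hT : T ∈ P.primeFactors.powerset
    · obtain ⟨C, hC, h⟩ := farey_density_P (M * ∏ p ∈ T, p) (hsf' T hT)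
      refine ⟨C, hC, fun _ => ?_⟩
      have hc : Nat.Coprime M (∏ p ∈ T, p) := Nat.Coprime.coprime_dvd_right (hdvd T hT) hcop
      have h2 : ∏ p ∈ (M * ∏ p ∈ T, p).primeFactors, ((p : ℝ) / (p + 1)) =
          (∏ p ∈ M.primeFactors, ((p : ℝ) / (p + 1))) * ∏ p ∈ T, ((p : ℝ) / (p + 1)) := by
        rw [hc.primeFactors_mul, Finset.prod_union hc.disjoint_primeFactors,
          Nat.primeFactors_prod (hpr T hT)]
      rw [h2] at h
      exact h
    · exact ⟨1, one_pos, fun h => absurd h hT⟩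
  choose Cf hCf hLS using hex
  set S := P.primeFactors with hS
  refine ⟨∑ T ∈ S.powerset, prb S T * Cf T + 1, ?_, ?_⟩
  · have : 0 ≤ ∑ T ∈ S.powerset, prb S T * Cf T :=
      Finset.sum_nonneg (fun T _ => mul_nonneg (prb_nonneg S T) (hCf T).le)
    linarith
  intro A B V θ hA hAB hV hVA
  set F : ℕ → ℝ := fun q => ∑' a : ℤ, (if Int.gcd a q = 1 then PK V (θ - a / q) else 0) with hF
  have hL : ∑ q ∈ (Finset.Ioc A B).filter (fun q => Nat.Coprime q M),
        (hP P q / (q : ℝ) ^ 2) * F q =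
      ∑ T ∈ S.powerset, prb S T *
        ∑ q ∈ (Finset.Ioc A B).filter (fun q => Nat.Coprime q (M * ∏ p ∈ T, p)),
          (1 / (q : ℝ) ^ 2) * F q := by
    simp_rw [Finset.sum_filter, Finset.mul_sum]
    rw [Finset.sum_comm]
    apply Finset.sum_congr rfl
    intro q _
    by_cases hqM : Nat.Coprime q M
    · rw [if_pos hqM, hP_eq, Finset.sum_div, Finset.sum_mul]
      apply Finset.sum_congr rfl
      intro T _
      by_cases h : Nat.Coprime q (∏ p ∈ T, p)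
      · rw [if_pos h, if_pos (Nat.Coprime.mul_right hqM h)]; ring
      · rw [if_neg h, if_neg (fun h' => h (Nat.Coprime.coprime_mul_left_right h'))]; ring
    · rw [if_neg hqM]
      symm
      apply Finset.sum_eq_zero
      intro T _
      rw [if_neg (fun h' => hqM (Nat.Coprime.coprime_mul_right_right h')), mul_zero]
  rw [hL]
  have hsum : ∑ T ∈ S.powerset, prb S T *
        ∑ q ∈ (Finset.Ioc A B).filter (fun q => Nat.Coprime q (M * ∏ p ∈ T, p)),
          (1 / (q : ℝ) ^ 2) * F q ≤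
      ∑ T ∈ S.powerset, prb S T * (1 *
        ((c0 * (∏ p ∈ M.primeFactors, ((p : ℝ) / (p + 1)))) * (∏ p ∈ T, ((p : ℝ) / (p + 1))) *
          Real.log ((B : ℝ) / A) + Cf T) * 1) := by
    apply Finset.sum_le_sum
    intro T hT
    rw [one_mul, mul_one]
    refine mul_le_mul_of_nonneg_left ?_ (prb_nonneg S T)
    have := hLS T hT A B V θ hA hAB hV hVA
    rw [← mul_assoc] at this
    exact this
  refine hsum.trans ?_
  have hconst : ∏ p ∈ S, (((p : ℝ) + (p : ℝ) ^ 2 / ((p : ℝ) ^ 2 + p + 1)) / (p + 1)) =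
      ∑ T ∈ S.powerset, prb S T * ∏ p ∈ T, ((p : ℝ) / (p + 1)) := by
    rw [prb_avg]
    apply Finset.prod_congr rfl
    intro p _
    unfold hp
    have : (p : ℝ) + 1 ≠ 0 := by positivity
    field_simp
    ring
  rw [hconst, sum_lin]
  linarith

theorem farey_large_sieve_M (M P : ℕ) (hsf : Squarefree (M * P)) : ∃ C : ℝ, 0 < C ∧
    ∀ (A B N : ℕ) (V : ℝ) (a : ℕ → ℂ), 1 ≤ A → A ≤ B → 1 ≤ V → V ≤ (A : ℝ) ^ 2 →
    ∑ q ∈ (Finset.Ioc A B).filter (fun q => Nat.Coprime q M), (hP P q / (q : ℝ) ^ 2) *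
      ∑ b ∈ (Finset.range q).filter (fun b => Nat.Coprime b q), ‖SS N a ((b : ℝ) / q)‖ ^ 2 ≤
    Real.exp (Real.pi * N / V) * (c0 * (∏ p ∈ M.primeFactors, ((p : ℝ) / (p + 1))) *
        (∏ p ∈ P.primeFactors,
        (((p : ℝ) + (p : ℝ) ^ 2 / ((p : ℝ) ^ 2 + p + 1)) / (p + 1))) * Real.log ((B : ℝ) / A) + C) *
      ∑ n ∈ Finset.Icc 1 N, ‖a n‖ ^ 2 := by
  obtain ⟨C, hC, hden⟩ := farey_density_hM M P hsf
  refine ⟨C, hC, ?_⟩
  intro A B N V a hA hAB hV hVA
  have hV0 : 0 < V := by linarith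
  have hAR : (0 : ℝ) < A := by exact_mod_cast hA
  have hc0 : 0 ≤ c0 := by unfold c0; positivity
  have hlog : 0 ≤ Real.log ((B : ℝ) / A) := by
    apply Real.log_nonneg
    rw [le_div_iff₀ hAR, one_mul]
    exact_mod_cast hAB
  have hprod : 0 ≤ ∏ p ∈ M.primeFactors, ((p : ℝ) / (p + 1)) :=
    Finset.prod_nonneg (fun p _ => by positivity)
  have hprod2 : 0 ≤ ∏ p ∈ P.primeFactors,
      (((p : ℝ) + (p : ℝ) ^ 2 / ((p : ℝ) ^ 2 + p + 1)) / (p + 1)) :=
    Finset.prod_nonneg (fun p _ => by positivity)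
  have hΔ : 0 ≤ c0 * (∏ p ∈ M.primeFactors, ((p : ℝ) / (p + 1))) * (∏ p ∈ P.primeFactors,
      (((p : ℝ) + (p : ℝ) ^ 2 / ((p : ℝ) ^ 2 + p + 1)) / (p + 1))) *
      Real.log ((B : ℝ) / A) + C := by
    positivity
  set s : Finset (Σ _ : ℕ, ℕ) := ((Finset.Ioc A B).filter (fun q => Nat.Coprime q M)).sigma
    (fun q => (Finset.range q).filter (fun b => Nat.Coprime b q)) with hs
  have key := dual_large_sieve s (fun i => (i.2 : ℝ) / i.1) (fun i => hP P i.1 / (i.1 : ℝ) ^ 2)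
    (fun i _ => div_nonneg (Flat.hP_nonneg P i.1) (by positivity)) V _ hV0 hΔ ?_ N a
  · rw [hs, Finset.sum_sigma] at key
    simp only at key
    calc _ = _ := by
          apply Finset.sum_congr rfl
          intro q _
          rw [Finset.mul_sum]
      _ ≤ _ := key
  · intro i hi
    rw [hs, Finset.sum_sigma]
    simp only
    refine le_trans (le_of_eq ?_) (hden A B V ((i.2 : ℝ) / i.1) hA hAB hV hVA)
    apply Finset.sum_congr rfl
    intro q hq
    rw [Finset.mem_filter, Finset.mem_Ioc] at hq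
    have : NeZero q := ⟨by omega⟩
    rw [← fold q V _ hV0, Finset.mul_sum]

end H385
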