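import Pool.Agent.H385R2.FareyPCore

/-!
TEAM Q, task R3, arithmetic part.
-/

open Finset MeasureTheory

namespace H385

namespace FareyP

open Farey

/-- conclusion of `theta_P` -/
def ThetaPBound (P e : ℕ) (C : ℝ) : Prop := ∀ n : ℕ, 1 ≤ n →
    |∑ t ∈ (Finset.Icc 1 n).filter (fun t => Nat.Coprime t e),
        (∏ p ∈ t.primeFactors.filter (fun p => ¬ p ∣ P), (1 - 1 / (p : ℝ))) / t -
      c0 * (∏ p ∈ P.primeFactors, (1 - 1 / (p : ℝ) ^ 2)⁻¹) * (∏ p ∈ e.primeFactors, (1 - 1 / (p : ℝ)))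
        * Real.log n| ≤ C

/-- conclusion of `line_sum_P` -/
def LinePBound (C : ℝ) : Prop := ∀ (A B r M : ℕ) (r' j : ℤ) (c : ℕ → ℤ) (α x0 κ : ℝ), A ≤ B →
    1 ≤ r → Squarefree M → 0 < α → 0 < κ →
    ∑ q ∈ (Finset.Ioc A B).filter (fun q : ℕ => (r : ℤ) ∣ ((q : ℤ) - j * r') ∧
        ∀ p ∈ M.primeFactors, ¬ (p : ℤ) ∣ (((q : ℤ) - j * r') / r - c p)),
          1 / (α * ((q : ℝ) - x0) ^ 2 + κ) ≤
      ((Nat.totient M : ℝ) / M) * (1 / r) * (∫ x in (A : ℝ)..B, 1 / (α * (x - x0) ^ 2 + κ))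
      + C * (Nat.divisors M).card / κ

lemma squarefree_prod_primes (S : Finset ℕ) (hS : ∀ p ∈ S, p.Prime) : Squarefree (∏ p ∈ S, p) := by
  apply Finset.squarefree_prod_of_pairwise_isCoprime
  · intro p hp q hq hpq
    exact (Nat.coprime_iff_isRelPrime).mp ((Nat.coprime_primes (hS p hp) (hS q hq)).mpr hpq)
  · intro p hp
    exact (hS p hp).prime.squarefree

lemma totient_div (M : ℕ) (hM : M ≠ 0) :
    (Nat.totient M : ℝ) / M = ∏ p ∈ M.primeFactors, (1 - 1 / (p : ℝ)) := by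
  have h := Nat.totient_eq_mul_prod_factors M
  have h2 : (Nat.totient M : ℝ) = M * ∏ p ∈ M.primeFactors, (1 - (p : ℝ)⁻¹) := by
    have : ((Nat.totient M : ℚ) : ℝ) = ((M * ∏ p ∈ M.primeFactors, (1 - (p : ℚ)⁻¹) : ℚ) : ℝ) := by
      rw [h]
    push_cast at this
    exact this
  have hM' : (M : ℝ) ≠ 0 := by exact_mod_cast hM
  rw [h2, mul_div_cancel_left₀ _ hM']
  apply prod_congr rfl
  intro p _
  rw [one_div]

lemma one_sub_nonneg (p : ℕ) : (0 : ℝ) ≤ 1 - 1 / (p : ℝ) := by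
  rcases Nat.eq_zero_or_pos p with rfl | hp
  · simp
  · have : (1 : ℝ) ≤ p := by exact_mod_cast hp
    have : 1 / (p : ℝ) ≤ 1 := by rw [div_le_one (by linarith)]; exact this
    linarith

/-- the weight -/
noncomputable def wP (P e : ℕ) (t : ℕ) : ℝ :=
  if Nat.Coprime t e then (∏ p ∈ t.primeFactors.filter (fun p => ¬ p ∣ P), (1 - 1 / (p : ℝ))) / t
  else 0

lemma wP_nonneg (P e t : ℕ) : 0 ≤ wP P e t := by
  unfold wP
  split_ifs
  · exact div_nonneg (prod_nonneg (fun p _ => one_sub_nonneg p)) (Nat.cast_nonneg t)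
  · exact le_rfl

theorem farey_density_P_of (P : ℕ) (hPsf : Squarefree P) {C C' : ℝ} (hC : 0 < C)
    (hT : ∀ e, e ∣ P → ThetaPBound P e C) (hC' : 0 < C')
    (hL : LinePBound C') (A B : ℕ) (V θ : ℝ) (hA : 1 ≤ A) (hAB : A ≤ B) (hV : 1 ≤ V)
    (hVA : V ≤ (A : ℝ) ^ 2) :
    ∑ q ∈ (Finset.Ioc A B).filter (fun q => Nat.Coprime q P), (1 / (q : ℝ) ^ 2) *
      ∑' a : ℤ, (if Int.gcd a q = 1 then PK V (θ - a / q) else 0) ≤
    c0 * (∏ p ∈ P.primeFactors, ((p : ℝ) / (p + 1))) * Real.log ((B : ℝ) / A) +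
      ((2 * C + c0 * ∏ p ∈ P.primeFactors, (1 - 1 / (p : ℝ) ^ 2)⁻¹) +
        16 * (C' * (Nat.divisors P).card) + 2) := by
  classical
  have hP0 : P ≠ 0 := hPsf.ne_zero
  have hpp2 : ∀ p ∈ P.primeFactors, (2 : ℝ) ≤ p := by
    intro p hp
    exact_mod_cast (Nat.prime_of_mem_primeFactors hp).two_le
  have hlog0 : 0 ≤ Real.log ((B : ℝ) / A) := by
    apply Real.log_nonneg
    have hAr : (0 : ℝ) < A := by exact_mod_cast hA
    rw [le_div_iff₀ hAr, one_mul]
    exact_mod_cast hAB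
  obtain ⟨r, b, u, v, hr, hrA, huv, hm2⟩ := setup A V θ hA hV hVA
  set e : ℕ := Nat.gcd r P with he
  have heP : e ∣ P := Nat.gcd_dvd_right r P
  have he0 : e ≠ 0 := fun h => hP0 (Nat.eq_zero_of_zero_dvd (h ▸ heP))
  set K : ℝ := c0 * (∏ p ∈ P.primeFactors, (1 - 1 / (p : ℝ) ^ 2)⁻¹) *
    (∏ p ∈ e.primeFactors, (1 - 1 / (p : ℝ))) with hK
  have hprod0 : 0 ≤ ∏ p ∈ P.primeFactors, (1 - 1 / (p : ℝ) ^ 2)⁻¹ := by
    apply prod_nonneg
    intro p hp
    have h2 := hpp2 p hp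
    rw [inv_nonneg, sub_nonneg, div_le_one (by positivity)]
    nlinarith
  have hprode0 : 0 ≤ ∏ p ∈ e.primeFactors, (1 - 1 / (p : ℝ)) :=
    prod_nonneg (fun p _ => one_sub_nonneg p)
  have hprode1 : ∏ p ∈ e.primeFactors, (1 - 1 / (p : ℝ)) ≤ 1 := by
    apply prod_le_one (fun p _ => one_sub_nonneg p)
    intro p _
    have : (0 : ℝ) ≤ 1 / (p : ℝ) := by positivity
    linarith
  have hK0 : 0 ≤ K := mul_nonneg (mul_nonneg c0_nonneg hprod0) hprode0
  have hTw : ∀ n : ℕ, 1 ≤ n → |∑ i ∈ Icc 1 n, wP P e i - K * Real.log n| ≤ C := by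
    intro n hn
    have h1 := hT e heP n hn
    rw [sum_filter] at h1
    exact h1
  -- inverses of `r`
  have hinv : ∀ p : ℕ, ∃ x : ℤ, p.Prime → ¬ p ∣ r → (p : ℤ) ∣ r * x - 1 := by
    intro p
    by_cases hp : p.Prime ∧ ¬ p ∣ r
    · have hc : IsCoprime (r : ℤ) (p : ℤ) :=
        Nat.isCoprime_iff_coprime.mpr ((Nat.coprime_comm).mp ((Nat.Prime.coprime_iff_not_dvd hp.1).mpr hp.2))
      obtain ⟨x, y, hxy⟩ := hc
      refine ⟨x, fun _ _ => ⟨-y, ?_⟩⟩
      linear_combination hxy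
    · exact ⟨0, fun h1 h2 => absurd ⟨h1, h2⟩ hp⟩
  choose inv hinv using hinv
  set κ : ℝ := ∏ p ∈ P.primeFactors.filter (fun p => ¬ p ∣ r), (1 - 1 / (p : ℝ)) with hκ
  have hκ0 : 0 ≤ κ := prod_nonneg (fun p _ => one_sub_nonneg p)
  have hκ1 : κ ≤ 1 := by
    apply prod_le_one (fun p _ => one_sub_nonneg p)
    intro p _
    have : (0 : ℝ) ≤ 1 / (p : ℝ) := by positivity
    linarith
  set S1 : Finset ℕ := P.primeFactors.filter (fun p => ¬ p ∣ r) with hS1
  set S2 : ℤ → Finset ℕ := fun j => j.natAbs.primeFactors.filter (fun p => ¬ p ∣ P) with hS2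
  have hS1p : ∀ p ∈ S1, p.Prime := fun p hp => Nat.prime_of_mem_primeFactors (mem_filter.mp hp).1
  have hS2p : ∀ j, ∀ p ∈ S2 j, p.Prime :=
    fun j p hp => Nat.prime_of_mem_primeFactors (mem_filter.mp hp).1
  have hSd : ∀ j, Disjoint S1 (S2 j) := by
    intro j
    rw [disjoint_left]
    intro p hp hp'
    exact (mem_filter.mp hp').2 (Nat.dvd_of_mem_primeFactors (mem_filter.mp hp).1)
  set M : ℤ → ℕ := fun j => ∏ p ∈ S1 ∪ S2 j, p with hM
  have hSp : ∀ j, ∀ p ∈ S1 ∪ S2 j, p.Prime := by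
    intro j p hp
    rcases mem_union.mp hp with h | h
    · exact hS1p p h
    · exact hS2p j p h
  have hMsf : ∀ j, Squarefree (M j) := fun j => squarefree_prod_primes _ (hSp j)
  have hMpf : ∀ j, (M j).primeFactors = S1 ∪ S2 j := fun j => Nat.primeFactors_prod (hSp j)
  set cj : ℤ → ℕ → ℤ := fun j p => if p ∣ P then j * v * inv p else 0 with hcj
  set F : ℤ → Finset ℕ := fun j => (Finset.Ioc A B).filter
    (fun q : ℕ => (r : ℤ) ∣ ((q : ℤ) - j * (-v)) ∧
        ∀ p ∈ (M j).primeFactors, ¬ (p : ℤ) ∣ (((q : ℤ) - j * (-v)) / r - cj j p)) with hF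
  -- apply the general lemmas
  have hbound : ∀ s : Finset ℤ, ∑ p ∈ (((Finset.Ioc A B).filter (fun q => Nat.Coprime q P)) ×ˢ
      s).filter (fun p => Int.gcd p.2 p.1 = 1), (1 / (p.1 : ℝ) ^ 2) * PK V (θ - p.2 / p.1) ≤
      κ * (K * Real.log ((B : ℝ) / A) + (2 * C + K)) + 16 * (C' * (Nat.divisors P).card) := by
    intro s
    have hmemP : ∀ p ∈ (((Finset.Ioc A B).filter (fun q => Nat.Coprime q P)) ×ˢ
      s).filter (fun p => Int.gcd p.2 p.1 = 1), p.1 ∈ Ioc A B ∧ Nat.Coprime p.1 P ∧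
        Int.gcd p.2 p.1 = 1 := by
      intro p hp
      rw [mem_filter, mem_product, mem_filter] at hp
      exact ⟨hp.1.1.1, hp.1.1.2, hp.2⟩
    have hkj : ∀ p : ℕ × ℤ, Int.gcd p.2 p.1 = 1 →
        (p.1 : ℤ) = (u * p.1 + v * p.2) * r + (r * p.2 - b * p.1) * (-v) ∧
        Int.gcd (u * p.1 + v * p.2) (r * p.2 - b * p.1) = 1 := by
      intro p hp
      refine ⟨by linear_combination (-(p.1 : ℤ)) * huv, ?_⟩
      apply Nat.dvd_one.mp
      rw [← hp]
      have hd1 := Int.gcd_dvd_left (u * p.1 + v * p.2) (r * p.2 - b * p.1)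
      have hd2 := Int.gcd_dvd_right (u * p.1 + v * p.2) (r * p.2 - b * p.1)
      have e1 : (p.1 : ℤ) = (u * p.1 + v * p.2) * r + (r * p.2 - b * p.1) * (-v) := by
        linear_combination (-(p.1 : ℤ)) * huv
      have e2 : p.2 = (u * p.1 + v * p.2) * b + (r * p.2 - b * p.1) * u := by
        linear_combination (-p.2) * huv
      apply Int.dvd_gcd
      · exact (dvd_add (hd1.mul_right b) (hd2.mul_right u)).trans (dvd_of_eq e2.symm)
      · exact (dvd_add (hd1.mul_right (r : ℤ)) (hd2.mul_right (-v))).trans (dvd_of_eq e1.symm)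
    apply assemble (w := wP P e) (K := K) (C := C) (wP_nonneg P e) hK0 hC.le hTw A B V θ hA hAB hV
      r b u v hr hrA huv hm2 _ (fun p hp => ⟨(hmemP p hp).1, (hmemP p hp).2.2⟩) F ?_ κ
      (C' * (Nat.divisors P).card) hκ0 (by positivity) ?_
    · -- membership in `F`
      intro p hp
      obtain ⟨h1, h2, h3⟩ := hmemP p hp
      obtain ⟨h4, h5⟩ := hkj p h3
      set k : ℤ := u * p.1 + v * p.2 with hk
      set j : ℤ := r * p.2 - b * p.1 with hj
      have hr0 : (r : ℤ) ≠ 0 := by exact_mod_cast hr.ne'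
      have e1 : (p.1 : ℤ) - j * (-v) = k * r := by linear_combination h4
      simp only [hF]
      rw [mem_filter, e1]
      refine ⟨h1, dvd_mul_left _ _, ?_⟩
      rw [Int.mul_ediv_cancel _ hr0]
      intro p' hp' hdiv
      rw [hMpf, mem_union] at hp'
      rcases hp' with hp' | hp'
      · have hpr := hS1p p' hp'
        have hpP : p' ∣ P := Nat.dvd_of_mem_primeFactors (mem_filter.mp hp').1
        have hpnr : ¬ p' ∣ r := (mem_filter.mp hp').2
        simp only [hcj] at hdiv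
        rw [if_pos hpP] at hdiv
        have h6 := hinv p' hpr hpnr
        have h7 : (p' : ℤ) ∣ (p.1 : ℤ) := by
          have e2 : (p.1 : ℤ) = (k - j * v * inv p') * r + j * v * (r * inv p' - 1) := by
            linear_combination h4
          rw [e2]
          exact dvd_add (hdiv.mul_right _) (h6.mul_left _)
        have h8 : p' ∣ p.1 := by exact_mod_cast h7
        exact hpr.one_lt.ne' (Nat.dvd_one.mp (h2 ▸ Nat.dvd_gcd h8 hpP))
      · have hpr := hS2p j p' hp'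
        have hpP : ¬ p' ∣ P := (mem_filter.mp hp').2
        have hpj : p' ∣ j.natAbs := Nat.dvd_of_mem_primeFactors (mem_filter.mp hp').1
        simp only [hcj] at hdiv
        rw [if_neg hpP, sub_zero] at hdiv
        have h6 : (p' : ℤ) ∣ j := Int.natCast_dvd.mpr hpj
        have h7 : p' ∣ Int.gcd k j := Int.dvd_gcd hdiv h6 |> fun h => by exact_mod_cast h
        rw [h5] at h7
        exact hpr.one_lt.ne' (Nat.dvd_one.mp h7)
    · -- the bound for one `j`
      intro p hp j hj hj0 α x0 c hα hc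
      obtain ⟨h1, h2, h3⟩ := hmemP p hp
      obtain ⟨h4, h5⟩ := hkj p h3
      rw [← hj] at h4 h5
      have h6 := hL A B r (M j) (-v) j (cj j) α x0 c hAB hr (hMsf j) hα hc
      refine h6.trans ?_
      have hjn0 : j.natAbs ≠ 0 := Int.natAbs_ne_zero.mpr hj0
      -- `j` is prime to `e`
      have hje : Nat.Coprime j.natAbs e := by
        rw [Nat.coprime_iff_gcd_eq_one]
        by_contra hne
        obtain ⟨p', hp', hd⟩ := Nat.exists_prime_and_dvd hne
        have hd1 : p' ∣ j.natAbs := hd.trans (Nat.gcd_dvd_left _ _)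
        have hd2 : p' ∣ e := hd.trans (Nat.gcd_dvd_right _ _)
        have hd3 : p' ∣ r := hd2.trans (Nat.gcd_dvd_left r P)
        have hd4 : p' ∣ P := hd2.trans heP
        have h7 : (p' : ℤ) ∣ (p.1 : ℤ) := by
          rw [h4]
          apply dvd_add
          · exact (Int.natCast_dvd_natCast.mpr hd3).mul_left _
          · exact (Int.natCast_dvd.mpr hd1).mul_right _
        have h8 : p' ∣ p.1 := by exact_mod_cast h7
        exact hp'.one_lt.ne' (Nat.dvd_one.mp (h2 ▸ Nat.dvd_gcd h8 hd4))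
      have hwj : wP P e j.natAbs * j.natAbs = ∏ p ∈ S2 j, (1 - 1 / (p : ℝ)) := by
        unfold wP
        rw [if_pos hje]
        have : (j.natAbs : ℝ) ≠ 0 := by exact_mod_cast hjn0
        rw [div_mul_cancel₀ _ this]
      have hφ : (Nat.totient (M j) : ℝ) / (M j) = κ * (wP P e j.natAbs * j.natAbs) := by
        rw [totient_div _ (hMsf j).ne_zero, hMpf, prod_union (hSd j), hwj]
      rw [hφ]
      -- number of divisors
      have hdiv : (Nat.divisors (M j)).card ≤ (Nat.divisors P).card * (Nat.divisors j.natAbs).card := by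
        have e1 : M j = (∏ p ∈ S1, p) * ∏ p ∈ S2 j, p := prod_union (hSd j)
        have hsf := hMsf j
        rw [e1] at hsf
        have hcop := Nat.coprime_of_squarefree_mul hsf
        rw [e1, hcop.card_divisors_mul]
        apply Nat.mul_le_mul
        · apply card_le_card
          apply Nat.divisors_subset_of_dvd hP0
          exact (prod_dvd_prod_of_subset _ _ _ (filter_subset _ _)).trans
            (Nat.prod_primeFactors_dvd P)
        · apply card_le_card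
          apply Nat.divisors_subset_of_dvd hjn0
          exact (prod_dvd_prod_of_subset _ _ _ (filter_subset _ _)).trans
            (Nat.prod_primeFactors_dvd j.natAbs)
      have hdivr : ((Nat.divisors (M j)).card : ℝ) ≤
          (Nat.divisors P).card * (Nat.divisors j.natAbs).card := by exact_mod_cast hdiv
      have h7 : C' * ((Nat.divisors (M j)).card : ℝ) / c ≤
          C' * (Nat.divisors P).card * (Nat.divisors j.natAbs).card / c := by
        apply div_le_div_of_nonneg_right _ hc.le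
        rw [mul_assoc]
        exact mul_le_mul_of_nonneg_left hdivr hC'.le
      linarith
  have hfin := tsum_bound ((Finset.Ioc A B).filter (fun q => Nat.Coprime q P))
    (fun q hq => by
      have := (mem_Ioc.mp (mem_filter.mp hq).1).1
      omega) V θ _ (by linarith) hbound
  refine hfin.trans ?_
  -- the constant
  have hpf : P.primeFactors = S1 ∪ e.primeFactors := by
    ext p
    rw [mem_union, hS1, mem_filter, Nat.mem_primeFactors, Nat.mem_primeFactors]
    constructor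
    · intro h
      by_cases hpr : p ∣ r
      · exact Or.inr ⟨h.1, Nat.dvd_gcd hpr h.2.1, he0⟩
      · exact Or.inl ⟨h, hpr⟩
    · rintro (h | h)
      · exact h.1
      · exact ⟨h.1, h.2.1.trans heP, hP0⟩
  have hdis : Disjoint S1 e.primeFactors := by
    rw [disjoint_left]
    intro p hp hp'
    exact (mem_filter.mp hp).2 ((Nat.dvd_of_mem_primeFactors hp').trans (Nat.gcd_dvd_left r P))
  have hconst : κ * K = c0 * (∏ p ∈ P.primeFactors, ((p : ℝ) / (p + 1))) := by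
    have e1 : κ * (∏ p ∈ e.primeFactors, (1 - 1 / (p : ℝ))) =
        ∏ p ∈ P.primeFactors, (1 - 1 / (p : ℝ)) := by
      rw [hpf, prod_union hdis]
    have e2 : κ * K = c0 * ((∏ p ∈ P.primeFactors, (1 - 1 / (p : ℝ) ^ 2)⁻¹) *
        (∏ p ∈ P.primeFactors, (1 - 1 / (p : ℝ)))) := by
      rw [← e1, hK]; ring
    rw [e2, ← prod_mul_distrib]
    congr 1
    apply prod_congr rfl
    intro p hp
    have h2 := hpp2 p hp
    have h3 : (p : ℝ) ^ 2 - 1 ≠ 0 := by nlinarith
    have h4 : (p : ℝ) - 1 ≠ 0 := by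
      intro h; linarith
    have h5 : (1 : ℝ) - 1 / (p : ℝ) ^ 2 = ((p : ℝ) - 1) * (p + 1) / (p : ℝ) ^ 2 := by
      field_simp; ring
    have h6 : (1 : ℝ) - 1 / (p : ℝ) = ((p : ℝ) - 1) / p := by field_simp
    rw [h5, h6]
    field_simp
  have h8 : κ * (K * Real.log ((B : ℝ) / A) + (2 * C + K)) =
      (κ * K) * Real.log ((B : ℝ) / A) + κ * (2 * C + K) := by ring
  rw [h8, hconst]
  have h9 : κ * (2 * C + K) ≤ 1 * (2 * C + c0 * ∏ p ∈ P.primeFactors, (1 - 1 / (p : ℝ) ^ 2)⁻¹) := by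
    apply mul_le_mul hκ1 _ (by positivity) (by norm_num)
    have h10 : K ≤ c0 * (∏ p ∈ P.primeFactors, (1 - 1 / (p : ℝ) ^ 2)⁻¹) := by
      rw [hK]
      calc _ ≤ c0 * (∏ p ∈ P.primeFactors, (1 - 1 / (p : ℝ) ^ 2)⁻¹) * 1 :=
            mul_le_mul_of_nonneg_left hprode1 (mul_nonneg c0_nonneg hprod0)
        _ = _ := mul_one _
    linarith
  linarith

/-- R3 from the statements of R1 and R2. -/
theorem farey_density_P_of_statements
    (hθ : ∀ P e : ℕ, Squarefree P → e ∣ P → ∃ C : ℝ, 0 < C ∧ ThetaPBound P e C)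
    (hℓ : ∃ C : ℝ, 0 < C ∧ LinePBound C) (P : ℕ) (hP : Squarefree P) : ∃ C : ℝ, 0 < C ∧
    ∀ (A B : ℕ) (V θ : ℝ), 1 ≤ A → A ≤ B → 1 ≤ V → V ≤ (A : ℝ) ^ 2 →
    ∑ q ∈ (Finset.Ioc A B).filter (fun q => Nat.Coprime q P), (1 / (q : ℝ) ^ 2) *
      ∑' a : ℤ, (if Int.gcd a q = 1 then PK V (θ - a / q) else 0) ≤
    c0 * (∏ p ∈ P.primeFactors, ((p : ℝ) / (p + 1))) * Real.log ((B : ℝ) / A) + C := by
  classical
  obtain ⟨C', hC', hL⟩ := hℓ
  have h1 : ∀ e : ℕ, ∃ C : ℝ, 0 < C ∧ (e ∣ P → ThetaPBound P e C) := by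
    intro e
    by_cases he : e ∣ P
    · obtain ⟨C, hC, hT⟩ := hθ P e hP he
      exact ⟨C, hC, fun _ => hT⟩
    · exact ⟨1, one_pos, fun h => absurd h he⟩
  choose C hC hT using h1
  set D : ℝ := ∑ e ∈ P.divisors, C e with hD
  have hle : ∀ e, e ∣ P → C e ≤ D := fun e he =>
    single_le_sum (f := C) (fun i _ => (hC i).le) (Nat.mem_divisors.mpr ⟨he, hP.ne_zero⟩)
  have hDpos : 0 < D := lt_of_lt_of_le (hC 1) (hle 1 (one_dvd P))
  have hTD : ∀ e, e ∣ P → ThetaPBound P e D := fun e he n hn => (hT e he n hn).trans (hle e he)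
  have hprod0 : 0 ≤ ∏ p ∈ P.primeFactors, (1 - 1 / (p : ℝ) ^ 2)⁻¹ := by
    apply prod_nonneg
    intro p hp
    have h2 : (2 : ℝ) ≤ p := by exact_mod_cast (Nat.prime_of_mem_primeFactors hp).two_le
    rw [inv_nonneg, sub_nonneg, div_le_one (by positivity)]
    nlinarith
  have hc : 0 ≤ c0 * ∏ p ∈ P.primeFactors, (1 - 1 / (p : ℝ) ^ 2)⁻¹ :=
    mul_nonneg c0_nonneg hprod0
  refine ⟨(2 * D + c0 * ∏ p ∈ P.primeFactors, (1 - 1 / (p : ℝ) ^ 2)⁻¹) +
        16 * (C' * (Nat.divisors P).card) + 2, by positivity, ?_⟩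
  intro A B V θ hA hAB hV hVA
  exact farey_density_P_of P hP hDpos hTD hC' hL A B V θ hA hAB hV hVA

end FareyP

end H385
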