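import Pool.Agent.H385R2.NLowCore
import Pool.Agent.H385R2.LocalU
import Pool.Agent.H385R2.EFU

set_option autoImplicit false

open Complex Filter Topology Set MeasureTheory

namespace H385

open H370 (zset mult NN Nd Ns)

theorem N_lower (A : ℝ) (hA : 1 ≤ A) :
    ∃ C : ℝ, 0 < C ∧ ∀ (Q : ℝ) (F : ℂ → ℂ) (a : ℕ → ℂ), 1 ≤ Q → GoodU A Q F a →
    ∀ T κ : ℝ, 3 ≤ κ → 8 * κ ≤ T →
      T / (2 * Real.pi) * Real.log (Q * T) -
        C * (T + κ * Real.log (Q * T) + T * Real.log (Q * T) ^ 2 * Real.exp (-κ ^ 2 / 2)) ≤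
      (NN F T (2 * T) : ℝ) :=
  N_lower_core A (fun _ _ _ hQ hF T1 T2 h => zset_finite_U hA hQ hF T1 T2 h) (zcount_long A hA)
    (A1_formula A hA)

end H385
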