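import Pool.Agent.H385R2.Flat
import Pool.Agent.H385R2.FamLS

/-!
TEAM Q, module R8 : large sieve over primitive characters with coefficients `Λ(n) b_n`.
-/

set_option autoImplicit false

open Complex Filter Topology Set MeasureTheory

namespace H385

namespace PrimLS

open Classical in
lemma prim_finsum_le (q : ℕ) [NeZero q] (f g : DirichletCharacter ℂ q → ℝ) (c1 c2 : ℝ)
    (hc2 : 0 ≤ c2) (h : ∀ χ, f χ ≤ c1 * g χ + c2) :
    ∑ᶠ χ : {χ : DirichletCharacter ℂ q // χ.IsPrimitive}, f χ ≤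
      c1 * (∑ᶠ χ : {χ : DirichletCharacter ℂ q // χ.IsPrimitive}, g χ) + c2 * Nat.totient q := by
  rw [finsum_eq_sum_of_fintype, finsum_eq_sum_of_fintype]
  have hcard : (Fintype.card {χ : DirichletCharacter ℂ q // χ.IsPrimitive} : ℝ) ≤ Nat.totient q := by
    have h1 : Fintype.card {χ : DirichletCharacter ℂ q // χ.IsPrimitive} ≤
        Fintype.card (DirichletCharacter ℂ q) := Fintype.card_subtype_le _
    have h2 : Fintype.card (DirichletCharacter ℂ q) = Nat.totient q := by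
      rw [← DirichletCharacter.card_eq_totient_of_hasEnoughRootsOfUnity ℂ q,
        Nat.card_eq_fintype_card]
    rw [h2] at h1
    exact_mod_cast h1
  calc ∑ χ : {χ : DirichletCharacter ℂ q // χ.IsPrimitive}, f χ
      ≤ ∑ χ : {χ : DirichletCharacter ℂ q // χ.IsPrimitive}, (c1 * g χ + c2) :=
        Finset.sum_le_sum (fun χ _ => h χ)
    _ = c1 * (∑ χ : {χ : DirichletCharacter ℂ q // χ.IsPrimitive}, g χ) +
        c2 * Fintype.card {χ : DirichletCharacter ℂ q // χ.IsPrimitive} := by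
        rw [Finset.sum_add_distrib, ← Finset.mul_sum, Finset.sum_const, nsmul_eq_mul,
          Finset.card_univ]
        ring
    _ ≤ _ := by
        have := mul_le_mul_of_nonneg_left hcard hc2
        linarith

lemma primFam_le (X Y : ℕ) (f g : (q : ℕ) → DirichletCharacter ℂ q → ℝ) (c1 c2 : ℝ)
    (hc2 : 0 ≤ c2) (h : ∀ q, ∀ χ : DirichletCharacter ℂ q, f q χ ≤ c1 * g q χ + c2) :
    primFam X Y f ≤ c1 * primFam X Y g + c2 *
      ∑ q ∈ Finset.Ioc X Y, (Nat.totient q : ℝ) / (q : ℝ) ^ 2 := by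
  unfold primFam
  rw [Finset.mul_sum, Finset.mul_sum, ← Finset.sum_add_distrib]
  apply Finset.sum_le_sum
  intro q hq
  rw [Finset.mem_Ioc] at hq
  have : NeZero q := ⟨by omega⟩
  have h1 := prim_finsum_le q (f q) (g q) c1 c2 hc2 (h q)
  have h2 : (0 : ℝ) ≤ 1 / (q : ℝ) ^ 2 := by positivity
  have h3 := mul_le_mul_of_nonneg_left h1 h2
  refine h3.trans (le_of_eq ?_)
  ring

lemma sqf_pr (T : Finset ℕ) (hT : ∀ p ∈ T, p.Prime) : Squarefree (Flat.pr T) := by
  classical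
  induction T using Finset.induction_on with
  | empty => simp [Flat.pr]
  | insert p T hp ih =>
    have hpp : p.Prime := hT p (Finset.mem_insert_self p T)
    have hT' : ∀ r ∈ T, r.Prime := fun r hr => hT r (Finset.mem_insert_of_mem hr)
    have h1 : Flat.pr (insert p T) = p * Flat.pr T := by
      unfold Flat.pr; rw [Finset.prod_insert hp]
    have h2 : Nat.Coprime p (Flat.pr T) := by
      unfold Flat.pr
      rw [Nat.coprime_prod_right_iff]
      intro r hr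
      rw [Nat.coprime_primes hpp (hT' r hr)]
      rintro rfl
      exact hp hr
    rw [h1, Nat.squarefree_mul_iff]
    exact ⟨h2, hpp.squarefree, ih hT'⟩

/-- Euler product -/
lemma euler_exists (ε : ℝ) (hε : 0 < ε) : ∃ P : ℕ, Squarefree P ∧
    ∏ p ∈ P.primeFactors, (1 - 1 / (p : ℝ) ^ 2) ≤ c0 * (1 + ε) := by
  have hc0 : 0 < c0 := by unfold c0; positivity
  have h1 := riemannZeta_eulerProduct (s := 2) (by norm_num)
  rw [riemannZeta_two] at h1
  have h2 := h1.inv₀ (by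
    have : (Real.pi : ℂ) ≠ 0 := by exact_mod_cast Real.pi_ne_zero
    exact div_ne_zero (pow_ne_zero 2 this) (by norm_num))
  have h3 : Tendsto (fun n : ℕ => ∏ p ∈ Nat.primesBelow n, (1 - 1 / (p : ℝ) ^ 2)) atTop (𝓝 c0) := by
    have h4 : Tendsto (fun n : ℕ => ((∏ p ∈ Nat.primesBelow n, (1 - 1 / (p : ℝ) ^ 2) : ℝ) : ℂ))
        atTop (𝓝 ((c0 : ℝ) : ℂ)) := by
      have h5 : ((c0 : ℝ) : ℂ) = ((Real.pi : ℂ) ^ 2 / 6)⁻¹ := by
        unfold c0; push_cast; rw [inv_div]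
      rw [h5]
      refine h2.congr (fun n => ?_)
      rw [← Finset.prod_inv_distrib]
      push_cast
      apply Finset.prod_congr rfl
      intro p _
      rw [inv_inv, Complex.cpow_neg, one_div]
      norm_cast
    exact_mod_cast (Complex.continuous_re.tendsto _).comp h4
  have h6 : ∀ᶠ n : ℕ in atTop, ∏ p ∈ Nat.primesBelow n, (1 - 1 / (p : ℝ) ^ 2) < c0 * (1 + ε) :=
    h3.eventually (gt_mem_nhds (by nlinarith))
  obtain ⟨n, hn⟩ := h6.exists
  have hpr : ∀ p ∈ Nat.primesBelow n, p.Prime := fun p hp => Nat.prime_of_mem_primesBelow hp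
  refine ⟨Flat.pr (Nat.primesBelow n), sqf_pr _ hpr, ?_⟩
  have : (Flat.pr (Nat.primesBelow n)).primeFactors = Nat.primesBelow n :=
    Nat.primeFactors_prod hpr
  rw [this]
  exact hn.le

open FamLS (mj mj_nonneg BB1 BB1_nonneg BB1_summable TT1 TT1_nonneg TT1_summable)

lemma term_norm (b : ℕ → ℂ) (q : ℕ) (χ : DirichletCharacter ℂ q) (n : ℕ) :
    ‖χ (n : ZMod q) * (ArithmeticFunction.vonMangoldt n : ℂ) * b n‖ ≤ mj b n := by
  unfold mj
  rw [norm_mul, norm_mul, Complex.norm_real,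
    Real.norm_of_nonneg ArithmeticFunction.vonMangoldt_nonneg]
  apply mul_le_mul_of_nonneg_right _ (norm_nonneg _)
  calc _ ≤ 1 * (ArithmeticFunction.vonMangoldt n : ℝ) :=
        mul_le_mul_of_nonneg_right (DirichletCharacter.norm_le_one _ _)
          ArithmeticFunction.vonMangoldt_nonneg
    _ = _ := one_mul _

/-- the coefficients prime to `P` -/
noncomputable def be (P : ℕ) (b : ℕ → ℂ) (n : ℕ) : ℂ :=
  if Nat.Coprime n P then (ArithmeticFunction.vonMangoldt n : ℂ) * b n else 0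

lemma be_norm (P : ℕ) (b : ℕ → ℂ) (n : ℕ) : ‖be P b n‖ ≤ mj b n := by
  unfold be
  split_ifs
  · unfold mj
    rw [norm_mul, Complex.norm_real, Real.norm_of_nonneg ArithmeticFunction.vonMangoldt_nonneg]
  · rw [norm_zero]; exact mj_nonneg b n

lemma split (b : ℕ → ℂ) (hs : Summable (mj b)) (P N q : ℕ) (χ : DirichletCharacter ℂ q) :
    ‖∑' n : ℕ, χ (n : ZMod q) * (ArithmeticFunction.vonMangoldt n : ℂ) * b n -
      ∑ n ∈ Finset.Icc 1 N, be P b n * χ (n : ZMod q)‖ ≤ ∑' n, BB1 b P n + ∑' n, TT1 b N n := by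
  classical
  have h1 : Summable (fun n : ℕ => χ (n : ZMod q) * (ArithmeticFunction.vonMangoldt n : ℂ) * b n) :=
    Summable.of_norm_bounded hs (fun n => term_norm b q χ n)
  have h2 : ∑ n ∈ Finset.Icc 1 N, be P b n * χ (n : ZMod q) =
      ∑' n : ℕ, (if n ∈ Finset.Icc 1 N then be P b n * χ (n : ZMod q) else 0) := by
    rw [tsum_eq_sum (s := Finset.Icc 1 N) (fun n hn => if_neg hn)]
    apply Finset.sum_congr rfl
    intro n hn
    rw [if_pos hn]
  have h3 : Summable (fun n : ℕ => if n ∈ Finset.Icc 1 N then be P b n * χ (n : ZMod q) else 0) :=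
    summable_of_ne_finset_zero (s := Finset.Icc 1 N) (fun n hn => if_neg hn)
  rw [h2, ← h1.tsum_sub h3, ← (BB1_summable b hs P).tsum_add (TT1_summable b hs N)]
  apply tsum_of_norm_bounded ((BB1_summable b hs P).add (TT1_summable b hs N)).hasSum
  intro n
  have hB := BB1_nonneg b P n
  have hT := TT1_nonneg b N n
  by_cases hn : n ∈ Finset.Icc 1 N
  · rw [if_pos hn]
    by_cases hc : Nat.Coprime n P
    · unfold be
      rw [if_pos hc]
      have : χ (n : ZMod q) * (ArithmeticFunction.vonMangoldt n : ℂ) * b n -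
          (ArithmeticFunction.vonMangoldt n : ℂ) * b n * χ (n : ZMod q) = 0 := by ring
      rw [this, norm_zero]
      linarith
    · unfold be
      rw [if_neg hc, zero_mul, sub_zero]
      have h4 : BB1 b P n = mj b n := by unfold BB1; rw [if_neg hc]
      rw [h4]
      have := term_norm b q χ n
      linarith
  · rw [if_neg hn, sub_zero]
    by_cases hn0 : n = 0
    · subst hn0
      simp only [ArithmeticFunction.map_zero, Complex.ofReal_zero, mul_zero, zero_mul, norm_zero]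
      linarith
    · have hN : N < n := by
        by_contra hle
        exact hn (Finset.mem_Icc.mpr ⟨Nat.one_le_iff_ne_zero.mpr hn0, by omega⟩)
      have h4 : TT1 b N n = mj b n := by unfold TT1; rw [if_pos hN]
      rw [h4]
      have := term_norm b q χ n
      linarith

end PrimLS

open PrimLS FamLS in
theorem prim_ls (ε : ℝ) (hε : 0 < ε) (hε1 : ε ≤ 1) : ∃ (C : ℝ) (P : ℕ), 0 < C ∧ 1 ≤ P ∧
    ∀ (X Y N : ℕ) (b : ℕ → ℂ), 1 ≤ X → X ≤ Y →
    Summable (fun n => ArithmeticFunction.vonMangoldt n * ‖b n‖) →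
    primFam X Y (fun q χ =>
        ‖∑' n : ℕ, χ (n : ZMod q) * (ArithmeticFunction.vonMangoldt n : ℂ) * b n‖ ^ 2) ≤
      (1 + ε) * Real.exp (Real.pi * N / (X : ℝ) ^ 2) * (c0 ^ 2 * (1 + ε) * Real.log ((Y : ℝ) / X) + C) *
        ∑ n ∈ Finset.Icc 1 N, (ArithmeticFunction.vonMangoldt n) ^ 2 * ‖b n‖ ^ 2
      + C * ∑ q ∈ Finset.Ioc X (P * Y), (1 / (q : ℝ)) *
        (∑' n : ℕ, if Nat.Coprime n q then 0 else ArithmeticFunction.vonMangoldt n * ‖b n‖) ^ 2
      + C * (Real.log ((Y : ℝ) / X) + 1) *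
        ((∑' n : ℕ, if Nat.Coprime n P then 0 else ArithmeticFunction.vonMangoldt n * ‖b n‖) ^ 2 +
         (∑' n : ℕ, if N < n then ArithmeticFunction.vonMangoldt n * ‖b n‖ else 0) ^ 2) := by
  obtain ⟨P, hsf, hD⟩ := euler_exists ε hε
  obtain ⟨C1, hC1, hflat⟩ := flat_ls P hsf
  obtain ⟨C2, hC2, hmass⟩ := mass_bounds
  have hc0 : 0 < c0 := by unfold c0; positivity
  have hc01 : c0 ≤ 1 := Farey.c0_le_one
  set δ : ℝ := ε / 3 with hδ
  have hδ0 : 0 < δ := by positivity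
  have hδ1 : δ ≤ 1 := by rw [hδ]; linarith
  set C : ℝ := C1 + (1 + δ) * (2 / δ) + (1 + 1 / δ) * (2 * (1 + C2)) with hC
  have hA1 : 0 < (1 + δ) * (2 / δ) := by positivity
  have hA2 : 0 < (1 + 1 / δ) * (2 * (1 + C2)) := by positivity
  refine ⟨C, P, by positivity, Nat.one_le_iff_ne_zero.mpr hsf.ne_zero, ?_⟩
  intro X Y N b hX hXY hs
  have hX0 : (0 : ℝ) < X := by exact_mod_cast hX
  have hlog : 0 ≤ Real.log ((Y : ℝ) / X) := by
    apply Real.log_nonneg
    rw [le_div_iff₀ hX0, one_mul]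
    exact_mod_cast hXY
  set L : ℝ := Real.log ((Y : ℝ) / X) with hL
  have hs' : Summable (mj b) := hs
  set R1 : ℝ := ∑' n, BB1 b P n with hR1
  set R2 : ℝ := ∑' n, TT1 b N n with hR2
  have hR1' : (∑' n : ℕ, if Nat.Coprime n P then 0 else ArithmeticFunction.vonMangoldt n * ‖b n‖)
      = R1 := rfl
  have hR2' : (∑' n : ℕ, if N < n then ArithmeticFunction.vonMangoldt n * ‖b n‖ else 0) = R2 := rfl
  rw [hR1', hR2']
  set G : ℝ := ∑ n ∈ Finset.Icc 1 N, (ArithmeticFunction.vonMangoldt n) ^ 2 * ‖b n‖ ^ 2 with hG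
  have hG0 : 0 ≤ G := Finset.sum_nonneg (fun _ _ => by positivity)
  set E : ℝ := ∑ q ∈ Finset.Ioc X (P * Y), (1 / (q : ℝ)) *
        (∑' n : ℕ, if Nat.Coprime n q then 0 else ArithmeticFunction.vonMangoldt n * ‖b n‖) ^ 2
    with hE
  have hE0 : 0 ≤ E := Finset.sum_nonneg (fun _ _ => by positivity)
  set ex : ℝ := Real.exp (Real.pi * N / (X : ℝ) ^ 2) with hex
  have hex0 : 0 < ex := Real.exp_pos _
  have hstep1 := primFam_le X Y
    (fun q χ => ‖∑' n : ℕ, χ (n : ZMod q) * (ArithmeticFunction.vonMangoldt n : ℂ) * b n‖ ^ 2)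
    (fun q χ => ‖∑ n ∈ Finset.Icc 1 N, be P b n * χ (n : ZMod q)‖ ^ 2)
    (1 + δ) ((1 + 1 / δ) * (2 * (R1 ^ 2 + R2 ^ 2))) (by positivity) (by
      intro q χ
      have h1 := split b hs' P N q χ
      rw [← hR1, ← hR2] at h1
      have h2 := sq_add_le (∑ n ∈ Finset.Icc 1 N, be P b n * χ (n : ZMod q))
        (∑' n : ℕ, χ (n : ZMod q) * (ArithmeticFunction.vonMangoldt n : ℂ) * b n -
          ∑ n ∈ Finset.Icc 1 N, be P b n * χ (n : ZMod q)) δ hδ0
      rw [add_sub_cancel] at h2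
      refine h2.trans ?_
      have h3 : ‖∑' n : ℕ, χ (n : ZMod q) * (ArithmeticFunction.vonMangoldt n : ℂ) * b n -
          ∑ n ∈ Finset.Icc 1 N, be P b n * χ (n : ZMod q)‖ ^ 2 ≤ (R1 + R2) ^ 2 :=
        pow_le_pow_left₀ (norm_nonneg _) h1 2
      have h4 : (R1 + R2) ^ 2 ≤ 2 * (R1 ^ 2 + R2 ^ 2) := by nlinarith [sq_nonneg (R1 - R2)]
      have h5 : 0 ≤ 1 + 1 / δ := by positivity
      have h6 := mul_le_mul_of_nonneg_left (h3.trans h4) h5
      linarith)
  have hstep2 := hflat X Y N (be P b) hX hXY (fun n hn => if_neg hn) δ hδ0 hδ1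
  rw [← hex] at hstep2
  have hGle : ∑ n ∈ Finset.Icc 1 N, ‖be P b n‖ ^ 2 ≤ G := by
    apply Finset.sum_le_sum
    intro n _
    have h1 := pow_le_pow_left₀ (norm_nonneg _) (be_norm P b n) 2
    unfold mj at h1
    rw [mul_pow] at h1
    exact h1
  have hEle : ∑ q ∈ Finset.Ioc X (P * Y), (1 / (q : ℝ)) *
        (∑ n ∈ (Finset.Icc 1 N).filter (fun n => ¬ Nat.Coprime n q), ‖be P b n‖) ^ 2 ≤ E := by
    apply Finset.sum_le_sum
    intro q _
    apply mul_le_mul_of_nonneg_left _ (by positivity)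
    apply pow_le_pow_left₀ (Finset.sum_nonneg (fun _ _ => norm_nonneg _))
    have h1 : ∑ n ∈ (Finset.Icc 1 N).filter (fun n => ¬ Nat.Coprime n q), ‖be P b n‖ ≤
        ∑ n ∈ (Finset.Icc 1 N).filter (fun n => ¬ Nat.Coprime n q), BB1 b q n := by
      apply Finset.sum_le_sum
      intro n hn
      unfold BB1
      rw [if_neg (Finset.mem_filter.mp hn).2]
      exact be_norm P b n
    exact h1.trans ((BB1_summable b hs' q).sum_le_tsum _ (fun n _ => BB1_nonneg b q n))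
  have hM : ∑ q ∈ Finset.Ioc X Y, (Nat.totient q : ℝ) / (q : ℝ) ^ 2 ≤ (1 + C2) * (L + 1) := by
    have h1 := hmass X Y hX hXY
    rw [abs_le] at h1
    have h2 : c0 * L ≤ 1 * L := mul_le_mul_of_nonneg_right hc01 hlog
    nlinarith [h1.2]
  -- combine
  have hD0 : 0 ≤ ∏ p ∈ P.primeFactors, (1 - 1 / (p : ℝ) ^ 2) := by
    apply Finset.prod_nonneg
    intro p hp
    have h2 : (1 : ℝ) ≤ p := by exact_mod_cast (Nat.prime_of_mem_primeFactors hp).one_lt.le
    have h3 : 1 / (p : ℝ) ^ 2 ≤ 1 := by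
      rw [div_le_one (by positivity)]
      nlinarith
    linarith
  have hcoef : c0 * (∏ p ∈ P.primeFactors, (1 - 1 / (p : ℝ) ^ 2)) * L + C1 ≤
      c0 ^ 2 * (1 + ε) * L + C := by
    have h1 := mul_le_mul_of_nonneg_left hD hc0.le
    have h2 := mul_le_mul_of_nonneg_right h1 hlog
    have h3 : c0 * (c0 * (1 + ε)) * L = c0 ^ 2 * (1 + ε) * L := by ring
    have h4 : C1 ≤ C := by rw [hC]; linarith
    linarith
  have hcoef0 : 0 ≤ c0 * (∏ p ∈ P.primeFactors, (1 - 1 / (p : ℝ) ^ 2)) * L + C1 := by positivity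
  have hδδ : (1 + δ) * (1 + δ) ≤ 1 + ε := by
    rw [hδ]; nlinarith
  have hterm1 : (1 + δ) * ((1 + δ) * ex *
        (c0 * (∏ p ∈ P.primeFactors, (1 - 1 / (p : ℝ) ^ 2)) * L + C1) *
        ∑ n ∈ Finset.Icc 1 N, ‖be P b n‖ ^ 2) ≤
      (1 + ε) * ex * (c0 ^ 2 * (1 + ε) * L + C) * G := by
    have h1 : (1 + δ) * ((1 + δ) * ex *
        (c0 * (∏ p ∈ P.primeFactors, (1 - 1 / (p : ℝ) ^ 2)) * L + C1) *
        ∑ n ∈ Finset.Icc 1 N, ‖be P b n‖ ^ 2) =
      ((1 + δ) * (1 + δ)) * ex * (c0 * (∏ p ∈ P.primeFactors, (1 - 1 / (p : ℝ) ^ 2)) * L + C1) *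
        ∑ n ∈ Finset.Icc 1 N, ‖be P b n‖ ^ 2 := by ring
    rw [h1]
    have h2 : 0 ≤ ∑ n ∈ Finset.Icc 1 N, ‖be P b n‖ ^ 2 := Finset.sum_nonneg (fun _ _ => by positivity)
    have hCC : 0 ≤ c0 ^ 2 * (1 + ε) * L + C := by linarith
    gcongr
  have hterm2 : (1 + δ) * (2 / δ * ∑ q ∈ Finset.Ioc X (P * Y), (1 / (q : ℝ)) *
        (∑ n ∈ (Finset.Icc 1 N).filter (fun n => ¬ Nat.Coprime n q), ‖be P b n‖) ^ 2) ≤ C * E := by
    have h1 : (1 + δ) * (2 / δ * ∑ q ∈ Finset.Ioc X (P * Y), (1 / (q : ℝ)) *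
        (∑ n ∈ (Finset.Icc 1 N).filter (fun n => ¬ Nat.Coprime n q), ‖be P b n‖) ^ 2) ≤
        (1 + δ) * (2 / δ * E) := by
      gcongr
    have h2 : (1 + δ) * (2 / δ) * E ≤ C * E := by
      apply mul_le_mul_of_nonneg_right _ hE0
      rw [hC]; linarith
    linarith
  have hterm3 : (1 + 1 / δ) * (2 * (R1 ^ 2 + R2 ^ 2)) *
        ∑ q ∈ Finset.Ioc X Y, (Nat.totient q : ℝ) / (q : ℝ) ^ 2 ≤
      C * (L + 1) * (R1 ^ 2 + R2 ^ 2) := by
    have h1 : (1 + 1 / δ) * (2 * (R1 ^ 2 + R2 ^ 2)) *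
        ∑ q ∈ Finset.Ioc X Y, (Nat.totient q : ℝ) / (q : ℝ) ^ 2 ≤
        (1 + 1 / δ) * (2 * (R1 ^ 2 + R2 ^ 2)) * ((1 + C2) * (L + 1)) := by
      apply mul_le_mul_of_nonneg_left hM
      positivity
    have h2 : (1 + 1 / δ) * (2 * (1 + C2)) * ((L + 1) * (R1 ^ 2 + R2 ^ 2)) ≤
        C * ((L + 1) * (R1 ^ 2 + R2 ^ 2)) := by
      apply mul_le_mul_of_nonneg_right _ (by positivity)
      rw [hC]; linarith
    calc _ ≤ (1 + 1 / δ) * (2 * (R1 ^ 2 + R2 ^ 2)) * ((1 + C2) * (L + 1)) := h1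
      _ = (1 + 1 / δ) * (2 * (1 + C2)) * ((L + 1) * (R1 ^ 2 + R2 ^ 2)) := by ring
      _ ≤ _ := h2
      _ = _ := by ring
  have hfin := mul_le_mul_of_nonneg_left hstep2 (by linarith : (0 : ℝ) ≤ 1 + δ)
  rw [mul_add] at hfin
  refine hstep1.trans ?_
  linarith [hfin, hterm1, hterm2, hterm3]

end H385
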