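import Pool.Agent.H385R2.Theta
import Pool.Agent.H385R2.Defs4

/-!
TEAM Q, module R7: `∑_{X<q≤Y} φ*(q)/q² = c0² log(Y/X) + O(1)`, where `φ*(q)` is the number of
primitive Dirichlet characters mod `q`.
-/

set_option autoImplicit false

open Filter Topology Set MeasureTheory

namespace H385

/-- the number of primitive Dirichlet characters mod `q` -/
noncomputable def phs (q : ℕ) : ℕ := Nat.card {χ : DirichletCharacter ℂ q // χ.IsPrimitive}

open Classical in
lemma phs_eq_filter (q : ℕ) [NeZero q] : phs q =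
    ((Finset.univ : Finset (DirichletCharacter ℂ q)).filter (fun χ => χ.IsPrimitive)).card := by
  unfold phs
  rw [Nat.card_eq_fintype_card, Fintype.card_subtype]

open Classical in
lemma phs_eq_fiber (q : ℕ) [NeZero q] (d : ℕ) (hd : d ∣ q) :
    ((Finset.univ : Finset (DirichletCharacter ℂ q)).filter (fun χ => χ.conductor = d)).card =
      phs d := by
  have hd0 : d ≠ 0 := by
    rintro rfl
    exact NeZero.ne q (Nat.eq_zero_of_zero_dvd hd)
  have : NeZero d := ⟨hd0⟩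
  rw [phs_eq_filter]
  rw [← Finset.card_image_of_injective
    ((Finset.univ : Finset (DirichletCharacter ℂ d)).filter (fun χ => χ.IsPrimitive))
    (DirichletCharacter.changeLevel_injective (R := ℂ) hd)]
  congr 1
  ext χ
  simp only [Finset.mem_filter, Finset.mem_univ, true_and, Finset.mem_image]
  constructor
  · intro hc
    subst hc
    exact ⟨χ.primitiveCharacter, χ.primitiveCharacter_isPrimitive,
      χ.changeLevel_primitiveCharacter⟩
  · rintro ⟨χ0, h0, rfl⟩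
    rw [DirichletCharacter.conductor_changeLevel]
    exact h0

lemma sum_phs (n : ℕ) (hn : 0 < n) : ∑ d ∈ n.divisors, phs d = Nat.totient n := by
  classical
  have : NeZero n := ⟨hn.ne'⟩
  rw [← DirichletCharacter.card_eq_totient_of_hasEnoughRootsOfUnity ℂ n,
    Nat.card_eq_fintype_card, ← Finset.card_univ]
  rw [Finset.card_eq_sum_card_fiberwise (f := fun χ : DirichletCharacter ℂ n => χ.conductor)
    (t := n.divisors)]
  · apply Finset.sum_congr rfl
    intro d hd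
    rw [Nat.mem_divisors] at hd
    exact (phs_eq_fiber n d hd.1).symm
  · intro χ _
    simp only [Finset.mem_coe, Nat.mem_divisors]
    exact ⟨χ.conductor_dvd_level, hn.ne'⟩

lemma phs_moebius (n : ℕ) (hn : 0 < n) :
    ∑ x ∈ n.divisorsAntidiagonal, (ArithmeticFunction.moebius x.1 : ℝ) * (Nat.totient x.2 : ℝ) =
      phs n := by
  have h : ∀ n > 0, ∑ i ∈ n.divisors, ((phs i : ℕ) : ℝ) = ((Nat.totient n : ℕ) : ℝ) := by
    intro n hn
    rw [← sum_phs n hn]
    push_cast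
    rfl
  exact (ArithmeticFunction.sum_eq_iff_sum_mul_moebius_eq
    (f := fun i => ((phs i : ℕ) : ℝ)) (g := fun n => ((Nat.totient n : ℕ) : ℝ))).mp h n hn

/-- `μ(d)/d²` -/
noncomputable def afm : ArithmeticFunction ℝ :=
  ⟨fun d => (ArithmeticFunction.moebius d : ℝ) / (d : ℝ) ^ 2, by simp⟩

/-- `φ(d)/d²` -/
noncomputable def aff : ArithmeticFunction ℝ :=
  ⟨fun d => (Nat.totient d : ℝ) / (d : ℝ) ^ 2, by simp⟩

lemma afm_apply (d : ℕ) : afm d = (ArithmeticFunction.moebius d : ℝ) / (d : ℝ) ^ 2 := rfl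

lemma aff_apply (d : ℕ) : aff d = (Nat.totient d : ℝ) / (d : ℝ) ^ 2 := rfl

lemma phs_div (n : ℕ) (hn : 0 < n) : (phs n : ℝ) / (n : ℝ) ^ 2 = (afm * aff) n := by
  rw [← phs_moebius n hn, ArithmeticFunction.mul_apply, Finset.sum_div]
  apply Finset.sum_congr rfl
  intro x hx
  rw [Nat.mem_divisorsAntidiagonal] at hx
  rw [afm_apply, aff_apply, ← hx.1]
  push_cast
  rw [mul_pow, div_mul_div_comm]

lemma sum_phs_eq (n : ℕ) :
    ∑ i ∈ Finset.Icc 1 n, (phs i : ℝ) / (i : ℝ) ^ 2 =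
      ∑ d ∈ Finset.Icc 1 n, ((ArithmeticFunction.moebius d : ℝ) / (d : ℝ) ^ 2) *
        ∑ e ∈ Finset.Icc 1 (n / d), (Nat.totient e : ℝ) / (e : ℝ) ^ 2 := by
  have h := ArithmeticFunction.sum_Ioc_mul_eq_sum_sum afm aff n
  have hI : ∀ m : ℕ, Finset.Ioc 0 m = Finset.Icc 1 m := by
    intro m; ext k; simp only [Finset.mem_Ioc, Finset.mem_Icc]; omega
  simp only [hI] at h
  calc _ = ∑ i ∈ Finset.Icc 1 n, (afm * aff) i := by
        apply Finset.sum_congr rfl
        intro i hi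
        rw [Finset.mem_Icc] at hi
        exact phs_div i (by omega)
    _ = _ := h

lemma c0_lt_one : c0 ≤ 1 := by
  unfold c0
  rw [div_le_one (by positivity)]
  nlinarith [Real.pi_gt_three]

lemma c0_nonneg : 0 ≤ c0 := by unfold c0; positivity

lemma log_floor {n d : ℕ} (hd : 1 ≤ d) (hdn : d ≤ n) :
    |Real.log ((n / d : ℕ) : ℝ) - Real.log ((n : ℝ) / d)| ≤ 1 := by
  have hm : 1 ≤ n / d := (Nat.one_le_div_iff (by omega)).mpr hdn
  have hd' : (0 : ℝ) < d := by exact_mod_cast hd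
  have hm' : (1 : ℝ) ≤ ((n / d : ℕ) : ℝ) := by exact_mod_cast hm
  have h4 : ((n / d : ℕ) : ℝ) ≤ (n : ℝ) / d := Nat.cast_div_le
  have h5 : (n : ℝ) / d ≤ 2 * ((n / d : ℕ) : ℝ) := by
    rw [div_le_iff₀ hd']
    have : n < d * (n / d + 1) := Nat.lt_mul_div_succ n (by omega)
    have h6 : (n : ℝ) < d * (((n / d : ℕ) : ℝ) + 1) := by exact_mod_cast this
    nlinarith
  have h6 : Real.log ((n / d : ℕ) : ℝ) ≤ Real.log ((n : ℝ) / d) :=
    Real.log_le_log (by linarith) h4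
  have h7 : Real.log ((n : ℝ) / d) ≤ Real.log (2 * ((n / d : ℕ) : ℝ)) :=
    Real.log_le_log (by linarith) h5
  rw [Real.log_mul (by norm_num) (by linarith)] at h7
  have h8 : Real.log 2 ≤ 1 := by
    have := Real.log_two_lt_d9
    linarith
  rw [abs_le]
  constructor <;> linarith

theorem phs_asymp : ∃ C : ℝ, 0 < C ∧ ∀ n : ℕ, 1 ≤ n →
    |∑ i ∈ Finset.Icc 1 n, (phs i : ℝ) / (i : ℝ) ^ 2 - c0 ^ 2 * Real.log n| ≤ C := by
  have hs2 : Summable (fun d : ℕ => (1 : ℝ) / (d : ℝ) ^ 2) :=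
    Real.summable_one_div_nat_pow.mpr (by norm_num)
  have hsl : Summable (fun d : ℕ => Real.log d / (d : ℝ) ^ 2) := by
    have h1 : Summable (fun d : ℕ => 2 * (d : ℝ) ^ (-(3 / 2 : ℝ))) :=
      (Real.summable_nat_rpow.mpr (by norm_num)).mul_left 2
    refine Summable.of_nonneg_of_le (fun d => ?_) (fun d => ?_) h1
    · apply div_nonneg (Real.log_natCast_nonneg d) (by positivity)
    · rcases Nat.eq_zero_or_pos d with rfl | hd
      · simp
      · have hd' : (0 : ℝ) < d := by exact_mod_cast hd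
        have h2 : Real.log d ≤ (d : ℝ) ^ (1 / 2 : ℝ) / (1 / 2) :=
          Real.log_le_rpow_div hd'.le (by norm_num)
        rw [div_le_iff₀ (by positivity)]
        calc Real.log d ≤ (d : ℝ) ^ (1 / 2 : ℝ) / (1 / 2) := h2
          _ = 2 * (d : ℝ) ^ (-(3 / 2 : ℝ)) * (d : ℝ) ^ 2 := by
              rw [← Real.rpow_two, mul_assoc, ← Real.rpow_add hd']
              norm_num
              ring
  obtain ⟨C0, hC0, hth⟩ := theta_asymp
  set C1 := ∑' d : ℕ, (1 : ℝ) / (d : ℝ) ^ 2 with hC1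
  set C2 := ∑' d : ℕ, Real.log d / (d : ℝ) ^ 2 with hC2
  have hC1n : 0 ≤ C1 := tsum_nonneg (fun d => by positivity)
  have hC2n : 0 ≤ C2 := tsum_nonneg (fun d => div_nonneg (Real.log_natCast_nonneg d) (by positivity))
  refine ⟨(C0 + 1) * C1 + C2 + 1, by positivity, ?_⟩
  intro n hn
  rw [sum_phs_eq]
  have hn' : (1 : ℝ) ≤ n := by exact_mod_cast hn
  set M := ∑ d ∈ Finset.Icc 1 n, (ArithmeticFunction.moebius d : ℝ) / (d : ℝ) ^ 2 with hM
  have hdec : ∑ d ∈ Finset.Icc 1 n, ((ArithmeticFunction.moebius d : ℝ) / (d : ℝ) ^ 2) *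
        ∑ e ∈ Finset.Icc 1 (n / d), (Nat.totient e : ℝ) / (e : ℝ) ^ 2 - c0 ^ 2 * Real.log n =
      c0 * ((M - c0) * Real.log n) -
      c0 * ∑ d ∈ Finset.Icc 1 n, ((ArithmeticFunction.moebius d : ℝ) / (d : ℝ) ^ 2) * Real.log d +
      ∑ d ∈ Finset.Icc 1 n, ((ArithmeticFunction.moebius d : ℝ) / (d : ℝ) ^ 2) *
        (∑ e ∈ Finset.Icc 1 (n / d), (Nat.totient e : ℝ) / (e : ℝ) ^ 2 -
          c0 * Real.log ((n : ℝ) / d)) := by
    have h1 : ∑ d ∈ Finset.Icc 1 n, ((ArithmeticFunction.moebius d : ℝ) / (d : ℝ) ^ 2) *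
        ∑ e ∈ Finset.Icc 1 (n / d), (Nat.totient e : ℝ) / (e : ℝ) ^ 2 =
      ∑ d ∈ Finset.Icc 1 n, (((ArithmeticFunction.moebius d : ℝ) / (d : ℝ) ^ 2) *
          (c0 * Real.log n) -
        c0 * (((ArithmeticFunction.moebius d : ℝ) / (d : ℝ) ^ 2) * Real.log d) +
        ((ArithmeticFunction.moebius d : ℝ) / (d : ℝ) ^ 2) *
          (∑ e ∈ Finset.Icc 1 (n / d), (Nat.totient e : ℝ) / (e : ℝ) ^ 2 -
            c0 * Real.log ((n : ℝ) / d))) := by
      apply Finset.sum_congr rfl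
      intro d hd
      rw [Finset.mem_Icc] at hd
      have hd' : (0 : ℝ) < d := by exact_mod_cast (by omega : 0 < d)
      rw [Real.log_div (by linarith) hd'.ne']
      ring
    rw [h1, Finset.sum_add_distrib, Finset.sum_sub_distrib, ← Finset.sum_mul, ← Finset.mul_sum,
      ← hM]
    ring
  rw [hdec]
  have hb1 : |c0 * ((M - c0) * Real.log n)| ≤ 1 := by
    have h1 := partial_moebius n hn
    rw [← hM] at h1
    have hl : 0 ≤ Real.log n := Real.log_natCast_nonneg n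
    have h2 : |(M - c0) * Real.log n| ≤ 1 := by
      rw [abs_mul, abs_of_nonneg hl]
      calc |M - c0| * Real.log n ≤ (1 / n) * n :=
            mul_le_mul h1 (by
              have := Real.log_le_sub_one_of_pos (by linarith : (0 : ℝ) < n)
              linarith) hl (by positivity)
        _ = 1 := by field_simp
    rw [abs_mul, abs_of_nonneg c0_nonneg]
    calc c0 * |(M - c0) * Real.log n| ≤ 1 * 1 :=
          mul_le_mul c0_lt_one h2 (abs_nonneg _) (by norm_num)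
      _ = 1 := one_mul 1
  have hb2 : |c0 * ∑ d ∈ Finset.Icc 1 n, ((ArithmeticFunction.moebius d : ℝ) / (d : ℝ) ^ 2) *
      Real.log d| ≤ C2 := by
    have h2 : |∑ d ∈ Finset.Icc 1 n, ((ArithmeticFunction.moebius d : ℝ) / (d : ℝ) ^ 2) *
      Real.log d| ≤ C2 := by
      calc _ ≤ ∑ d ∈ Finset.Icc 1 n, |((ArithmeticFunction.moebius d : ℝ) / (d : ℝ) ^ 2) *
            Real.log d| := Finset.abs_sum_le_sum_abs _ _
        _ ≤ ∑ d ∈ Finset.Icc 1 n, Real.log d / (d : ℝ) ^ 2 := by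
            apply Finset.sum_le_sum
            intro d _
            have hl : 0 ≤ Real.log d := Real.log_natCast_nonneg d
            rw [abs_mul, abs_div, abs_of_nonneg hl, abs_of_nonneg (by positivity : (0:ℝ) ≤ (d:ℝ)^2),
              div_mul_eq_mul_div]
            apply div_le_div_of_nonneg_right _ (by positivity)
            calc _ ≤ 1 * Real.log d := mul_le_mul_of_nonneg_right (moebius_le_one d) hl
              _ = Real.log d := one_mul _
        _ ≤ C2 := hsl.sum_le_tsum _ (fun d _ =>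
            div_nonneg (Real.log_natCast_nonneg d) (by positivity))
    rw [abs_mul, abs_of_nonneg c0_nonneg]
    calc c0 * |∑ d ∈ Finset.Icc 1 n, ((ArithmeticFunction.moebius d : ℝ) / (d : ℝ) ^ 2) *
      Real.log d| ≤ 1 * C2 := mul_le_mul c0_lt_one h2 (abs_nonneg _) (by norm_num)
      _ = C2 := one_mul _
  have hb3 : |∑ d ∈ Finset.Icc 1 n, ((ArithmeticFunction.moebius d : ℝ) / (d : ℝ) ^ 2) *
        (∑ e ∈ Finset.Icc 1 (n / d), (Nat.totient e : ℝ) / (e : ℝ) ^ 2 -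
          c0 * Real.log ((n : ℝ) / d))| ≤ (C0 + 1) * C1 := by
    calc _ ≤ ∑ d ∈ Finset.Icc 1 n, |((ArithmeticFunction.moebius d : ℝ) / (d : ℝ) ^ 2) *
        (∑ e ∈ Finset.Icc 1 (n / d), (Nat.totient e : ℝ) / (e : ℝ) ^ 2 -
          c0 * Real.log ((n : ℝ) / d))| :=
          Finset.abs_sum_le_sum_abs _ _
      _ ≤ ∑ d ∈ Finset.Icc 1 n, (C0 + 1) * ((1 : ℝ) / (d : ℝ) ^ 2) := by
          apply Finset.sum_le_sum
          intro d hd
          rw [Finset.mem_Icc] at hd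
          have hm : 1 ≤ n / d := (Nat.one_le_div_iff (by omega)).mpr hd.2
          have h1 := hth (n / d) hm
          have h2 := log_floor hd.1 hd.2
          have h3 : |∑ e ∈ Finset.Icc 1 (n / d), (Nat.totient e : ℝ) / (e : ℝ) ^ 2 -
              c0 * Real.log ((n : ℝ) / d)| ≤ C0 + 1 := by
            have h4 : ∑ e ∈ Finset.Icc 1 (n / d), (Nat.totient e : ℝ) / (e : ℝ) ^ 2 -
              c0 * Real.log ((n : ℝ) / d) =
              (∑ e ∈ Finset.Icc 1 (n / d), (Nat.totient e : ℝ) / (e : ℝ) ^ 2 -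
                c0 * Real.log ((n / d : ℕ) : ℝ)) +
              c0 * (Real.log ((n / d : ℕ) : ℝ) - Real.log ((n : ℝ) / d)) := by ring
            rw [h4]
            refine (abs_add_le _ _).trans ?_
            have h5 : |c0 * (Real.log ((n / d : ℕ) : ℝ) - Real.log ((n : ℝ) / d))| ≤ 1 := by
              rw [abs_mul, abs_of_nonneg c0_nonneg]
              calc _ ≤ 1 * 1 := mul_le_mul c0_lt_one h2 (abs_nonneg _) (by norm_num)
                _ = 1 := one_mul 1
            linarith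
          rw [abs_mul, abs_div, abs_of_nonneg (by positivity : (0:ℝ) ≤ (d:ℝ)^2)]
          calc _ ≤ (1 / (d : ℝ) ^ 2) * (C0 + 1) := mul_le_mul
                (div_le_div_of_nonneg_right (moebius_le_one d) (by positivity))
                h3 (abs_nonneg _) (by positivity)
            _ = (C0 + 1) * (1 / (d : ℝ) ^ 2) := mul_comm _ _
      _ = (C0 + 1) * ∑ d ∈ Finset.Icc 1 n, ((1 : ℝ) / (d : ℝ) ^ 2) := by rw [Finset.mul_sum]
      _ ≤ (C0 + 1) * C1 :=
          mul_le_mul_of_nonneg_left (hs2.sum_le_tsum _ (fun d _ => by positivity)) (by linarith)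
  have h1 := abs_add_le (c0 * ((M - c0) * Real.log n) -
      c0 * ∑ d ∈ Finset.Icc 1 n, ((ArithmeticFunction.moebius d : ℝ) / (d : ℝ) ^ 2) * Real.log d)
      (∑ d ∈ Finset.Icc 1 n, ((ArithmeticFunction.moebius d : ℝ) / (d : ℝ) ^ 2) *
        (∑ e ∈ Finset.Icc 1 (n / d), (Nat.totient e : ℝ) / (e : ℝ) ^ 2 -
          c0 * Real.log ((n : ℝ) / d)))
  have h2 := abs_sub (c0 * ((M - c0) * Real.log n))
      (c0 * ∑ d ∈ Finset.Icc 1 n, ((ArithmeticFunction.moebius d : ℝ) / (d : ℝ) ^ 2) * Real.log d)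
  linarith

lemma primFam_one (X Y : ℕ) : primFam X Y (fun _ _ => 1) =
    ∑ q ∈ Finset.Ioc X Y, (phs q : ℝ) / (q : ℝ) ^ 2 := by
  unfold primFam
  apply Finset.sum_congr rfl
  intro q hq
  rw [Finset.mem_Ioc] at hq
  have : NeZero q := ⟨by omega⟩
  classical
  have h1 : ∑ᶠ _χ : {χ : DirichletCharacter ℂ q // χ.IsPrimitive}, (1 : ℝ) = phs q := by
    rw [finsum_eq_sum_of_fintype]
    rw [Finset.sum_const, nsmul_eq_mul, mul_one, phs, Nat.card_eq_fintype_card, Finset.card_univ]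
  rw [h1]
  ring

theorem prim_mass : ∃ C : ℝ, 0 < C ∧ ∀ X Y : ℕ, 1 ≤ X → X ≤ Y →
    |primFam X Y (fun _ _ => 1) - c0 ^ 2 * Real.log ((Y : ℝ) / X)| ≤ C := by
  obtain ⟨C, hC, h⟩ := phs_asymp
  refine ⟨2 * C, by linarith, ?_⟩
  intro A B hA hAB
  rw [primFam_one]
  have h1 := h A hA
  have h2 := h B (by omega)
  have hA' : (0 : ℝ) < A := by exact_mod_cast hA
  have hB' : (0 : ℝ) < B := by exact_mod_cast (by omega : 0 < B)
  have h3 : ∑ i ∈ Finset.Icc 1 B, (phs i : ℝ) / (i : ℝ) ^ 2 =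
      ∑ i ∈ Finset.Icc 1 A, (phs i : ℝ) / (i : ℝ) ^ 2 +
        ∑ i ∈ Finset.Ioc A B, (phs i : ℝ) / (i : ℝ) ^ 2 := by
    have h4 : Finset.Icc 1 B = Finset.Icc 1 A ∪ Finset.Ioc A B := by
      ext k
      simp only [Finset.mem_union, Finset.mem_Icc, Finset.mem_Ioc]
      omega
    have h5 : Disjoint (Finset.Icc 1 A) (Finset.Ioc A B) := by
      rw [Finset.disjoint_left]
      intro k hk hk'
      rw [Finset.mem_Icc] at hk
      rw [Finset.mem_Ioc] at hk'
      omega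
    rw [← Finset.sum_union h5, ← h4]
  rw [h3] at h2
  rw [Real.log_div hB'.ne' hA'.ne']
  set SA := ∑ i ∈ Finset.Icc 1 A, (phs i : ℝ) / (i : ℝ) ^ 2
  set SD := ∑ i ∈ Finset.Ioc A B, (phs i : ℝ) / (i : ℝ) ^ 2
  rw [abs_le] at h1 h2 ⊢
  constructor <;> nlinarith [h1.1, h1.2, h2.1, h2.2]

end H385
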