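import Pool.Agent.H385R2.FinA0
import Pool.Agent.H385R2.Cut
import Pool.Agent.H385R2.NTW
import Pool.Agent.H385R2.Win
import Pool.Agent.H385R2.PrimLS
import Pool.Agent.H385R2.PrimMass

open Complex Filter Topology Set MeasureTheory
open H370 (zset mult NN Nd Ns)

set_option maxHeartbeats 4000000

namespace H385

/-- smoothed square sum of `Λ` -/
noncomputable def S1 (u : ℝ) : ℝ := ∑' n : ℕ, (ArithmeticFunction.vonMangoldt n) ^ 2 / n *
        Real.exp (-(u - Real.log n) ^ 2)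

/-- the sum over prime powers not coprime to `q` -/
noncomputable def Gq (q : ℕ) (u : ℝ) : ℝ := ∑' n : ℕ, (if Nat.Coprime n q then 0 else
        ArithmeticFunction.vonMangoldt n / Real.sqrt n * Real.exp (-(u - Real.log n) ^ 2 / 4))

/-- the tail -/
noncomputable def Tl (N : ℕ) (u : ℝ) : ℝ := ∑' n : ℕ, (if N < n then
        ArithmeticFunction.vonMangoldt n / Real.sqrt n * Real.exp (-(u - Real.log n) ^ 2 / 4) else 0)

theorem half_summable (u : ℝ) : Summable (fun n : ℕ =>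
    ArithmeticFunction.vonMangoldt n / Real.sqrt n * Real.exp (-(u - Real.log n) ^ 2 / 4)) := by
  have h1 : Summable (fun n : ℕ => Real.exp ((u + 6) ^ 2 / 4 - u ^ 2 / 4) * (1 / (n : ℝ) ^ 2)) :=
    (Real.summable_one_div_nat_pow.mpr one_lt_two).mul_left _
  refine Summable.of_nonneg_of_le (fun n => ?_) (fun n => ?_) h1
  · exact mul_nonneg (div_nonneg ArithmeticFunction.vonMangoldt_nonneg (Real.sqrt_nonneg _))
      (Real.exp_pos _).le
  · rcases Nat.eq_zero_or_pos n with rfl | hn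
    · simp
    have hn1 : (1 : ℝ) ≤ n := by exact_mod_cast hn
    have hn0 : (0 : ℝ) < n := by linarith
    have hs : 1 ≤ Real.sqrt n := by rw [Real.one_le_sqrt]; exact hn1
    have h2 : ArithmeticFunction.vonMangoldt n / Real.sqrt n ≤ n := by
      have h3 : ArithmeticFunction.vonMangoldt n ≤ Real.log n := ArithmeticFunction.vonMangoldt_le_log
      have h4 : Real.log n ≤ n := (Real.log_le_sub_one_of_pos hn0).trans (by linarith)
      rw [div_le_iff₀ (by linarith)]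
      nlinarith
    have h5 : Real.exp (-(u - Real.log n) ^ 2 / 4) ≤
        Real.exp ((u + 6) ^ 2 / 4 - u ^ 2 / 4) * (1 / (n : ℝ) ^ 3) := by
      have h6 : 1 / (n : ℝ) ^ 3 = Real.exp (-3 * Real.log n) := by
        rw [show -3 * Real.log n = -(Real.log n * 3) by ring, Real.exp_neg, Real.exp_mul,
          Real.exp_log hn0]
        norm_num
      rw [h6, ← Real.exp_add]
      refine Real.exp_le_exp.mpr ?_
      nlinarith [sq_nonneg (Real.log n - u - 6)]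
    calc _ ≤ (n : ℝ) * (Real.exp ((u + 6) ^ 2 / 4 - u ^ 2 / 4) * (1 / (n : ℝ) ^ 3)) :=
          mul_le_mul h2 h5 (Real.exp_pos _).le hn0.le
      _ = _ := by field_simp

theorem b_bound (T u t : ℝ) (hT : 0 ≤ T) (n : ℕ) :
    ArithmeticFunction.vonMangoldt n * ‖(Real.sqrt n : ℂ)⁻¹ * bt T u t (Real.log n)‖ ≤
      wt T t * (ArithmeticFunction.vonMangoldt n / Real.sqrt n *
        Real.exp (-(u - Real.log n) ^ 2 / 4)) := by
  have h1 := bt_norm T u t (Real.log n) hT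
  have h2 : 1 / Real.sqrt (2 * Real.pi) ≤ 1 := by
    rw [div_le_one (by positivity)]
    rw [Real.one_le_sqrt]
    nlinarith [Real.pi_gt_three]
  have hw := wt_nonneg T t hT
  have h3 : ‖bt T u t (Real.log n)‖ ≤ Real.exp (-(u - Real.log n) ^ 2 / 4) * wt T t := by
    refine h1.trans ?_
    refine mul_le_mul_of_nonneg_right ?_ hw
    nlinarith [Real.exp_pos (-(u - Real.log n) ^ 2 / 4)]
  have h4 : ‖(Real.sqrt n : ℂ)⁻¹ * bt T u t (Real.log n)‖ ≤
      (Real.sqrt n)⁻¹ * (Real.exp (-(u - Real.log n) ^ 2 / 4) * wt T t) := by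
    rw [norm_mul, norm_inv, Complex.norm_real, Real.norm_of_nonneg (Real.sqrt_nonneg _)]
    exact mul_le_mul_of_nonneg_left h3 (inv_nonneg.mpr (Real.sqrt_nonneg _))
  refine (mul_le_mul_of_nonneg_left h4 ArithmeticFunction.vonMangoldt_nonneg).trans (le_of_eq ?_)
  ring

theorem b_summable (T u t : ℝ) (hT : 0 ≤ T) : Summable (fun n : ℕ =>
    ArithmeticFunction.vonMangoldt n * ‖(Real.sqrt n : ℂ)⁻¹ * bt T u t (Real.log n)‖) := by
  refine Summable.of_nonneg_of_le (fun n => ?_) (fun n => b_bound T u t hT n)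
    ((half_summable u).mul_left _)
  exact mul_nonneg ArithmeticFunction.vonMangoldt_nonneg (norm_nonneg _)

/-- restricted sums of `Λ |b|` -/
theorem b_tsum_le (T u t : ℝ) (hT : 0 ≤ T) (p : ℕ → Prop) [DecidablePred p] :
    ∑' n : ℕ, (if p n then ArithmeticFunction.vonMangoldt n *
      ‖(Real.sqrt n : ℂ)⁻¹ * bt T u t (Real.log n)‖ else 0) ≤
    wt T t * ∑' n : ℕ, (if p n then ArithmeticFunction.vonMangoldt n / Real.sqrt n *
        Real.exp (-(u - Real.log n) ^ 2 / 4) else 0) := by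
  rw [← tsum_mul_left]
  refine Summable.tsum_le_tsum (fun n => ?_) ?_ ?_
  · split_ifs with h
    · exact b_bound T u t hT n
    · simp
  · refine Summable.of_nonneg_of_le (fun n => ?_) (fun n => ?_) (b_summable T u t hT)
    · split_ifs
      · exact mul_nonneg ArithmeticFunction.vonMangoldt_nonneg (norm_nonneg _)
      · exact le_rfl
    · split_ifs
      · exact le_rfl
      · exact mul_nonneg ArithmeticFunction.vonMangoldt_nonneg (norm_nonneg _)
  · refine Summable.mul_left _ ?_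
    refine Summable.of_nonneg_of_le (fun n => ?_) (fun n => ?_) (half_summable u)
    · split_ifs
      · exact mul_nonneg (div_nonneg ArithmeticFunction.vonMangoldt_nonneg (Real.sqrt_nonneg _))
          (Real.exp_pos _).le
      · exact le_rfl
    · split_ifs
      · exact le_rfl
      · exact mul_nonneg (div_nonneg ArithmeticFunction.vonMangoldt_nonneg (Real.sqrt_nonneg _))
          (Real.exp_pos _).le

theorem b_tsum_nonneg (T u t : ℝ) (p : ℕ → Prop) [DecidablePred p] :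
    0 ≤ ∑' n : ℕ, (if p n then ArithmeticFunction.vonMangoldt n *
      ‖(Real.sqrt n : ℂ)⁻¹ * bt T u t (Real.log n)‖ else 0) := by
  refine tsum_nonneg (fun n => ?_)
  split_ifs
  · exact mul_nonneg ArithmeticFunction.vonMangoldt_nonneg (norm_nonneg _)
  · exact le_rfl

theorem b_tsum_sq (T u t : ℝ) (hT : 0 ≤ T) (p : ℕ → Prop) [DecidablePred p] :
    (∑' n : ℕ, (if p n then ArithmeticFunction.vonMangoldt n *
      ‖(Real.sqrt n : ℂ)⁻¹ * bt T u t (Real.log n)‖ else 0)) ^ 2 ≤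
    wt T t ^ 2 * (∑' n : ℕ, (if p n then ArithmeticFunction.vonMangoldt n / Real.sqrt n *
        Real.exp (-(u - Real.log n) ^ 2 / 4) else 0)) ^ 2 := by
  rw [← mul_pow]
  exact pow_le_pow_left₀ (b_tsum_nonneg T u t p) (b_tsum_le T u t hT p) 2

theorem bt_sum_int : ∃ C : ℝ, 0 < C ∧ ∀ (T κ u : ℝ) (N : ℕ), 1 ≤ κ → 1 ≤ T →
    T ≤ Real.exp (κ ^ 2) → 0 ≤ u →
    Integrable (fun t => ∑ n ∈ Finset.Icc 1 N, (ArithmeticFunction.vonMangoldt n) ^ 2 *
      ‖(Real.sqrt n : ℂ)⁻¹ * bt T u t (Real.log n)‖ ^ 2) ∧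
    ∫ t : ℝ, ∑ n ∈ Finset.Icc 1 N, (ArithmeticFunction.vonMangoldt n) ^ 2 *
      ‖(Real.sqrt n : ℂ)⁻¹ * bt T u t (Real.log n)‖ ^ 2 ≤
      T / (2 * Real.pi) * S1 u + C * κ * (u + 1) := by
  obtain ⟨C5, hC5, h5⟩ := bt_sq_int
  obtain ⟨C6, hC6, h6⟩ := lam_sq_crude
  refine ⟨C5 * C6, by positivity, ?_⟩
  intro T κ u N hκ hT hTκ hu
  have hint : ∀ n ∈ Finset.Icc 1 N, Integrable (fun t => (ArithmeticFunction.vonMangoldt n) ^ 2 *
      ‖(Real.sqrt n : ℂ)⁻¹ * bt T u t (Real.log n)‖ ^ 2) := by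
    intro n hn
    have := (h5 T κ u (Real.log n) hκ hT hTκ).1
    refine Integrable.const_mul ?_ _
    simp only [norm_mul, mul_pow]
    exact this.const_mul _
  refine ⟨integrable_finsetSum _ hint, ?_⟩
  rw [integral_finsetSum _ hint]
  have hS2 := (h6 u hu).1
  have hS2le := (h6 u hu).2
  have hS1 : Summable (fun n : ℕ => (ArithmeticFunction.vonMangoldt n) ^ 2 / n *
        Real.exp (-(u - Real.log n) ^ 2)) := by
    refine Summable.of_nonneg_of_le (fun n => by positivity) (fun n => ?_) hS2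
    refine mul_le_mul_of_nonneg_left (Real.exp_le_exp.mpr ?_) (by positivity)
    nlinarith [sq_nonneg (u - Real.log n)]
  have hterm : ∀ n ∈ Finset.Icc 1 N, ∫ t : ℝ, (ArithmeticFunction.vonMangoldt n) ^ 2 *
      ‖(Real.sqrt n : ℂ)⁻¹ * bt T u t (Real.log n)‖ ^ 2 ≤
      T / (2 * Real.pi) * ((ArithmeticFunction.vonMangoldt n) ^ 2 / n *
        Real.exp (-(u - Real.log n) ^ 2)) +
      C5 * κ * ((ArithmeticFunction.vonMangoldt n) ^ 2 / n *
        Real.exp (-(u - Real.log n) ^ 2 / 2)) := by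
    intro n hn
    have hn1 : 1 ≤ n := (Finset.mem_Icc.mp hn).1
    have hn0 : (0 : ℝ) < n := by exact_mod_cast hn1
    have h7 := (h5 T κ u (Real.log n) hκ hT hTκ).2
    rw [integral_const_mul]
    simp only [norm_mul, mul_pow]
    rw [integral_const_mul]
    have h8 : ‖(Real.sqrt n : ℂ)⁻¹‖ ^ 2 = 1 / n := by
      rw [norm_inv, Complex.norm_real, Real.norm_of_nonneg (Real.sqrt_nonneg _), inv_pow,
        Real.sq_sqrt hn0.le]
      simp
    rw [h8]
    have h9 : (ArithmeticFunction.vonMangoldt n) ^ 2 * (1 / (n : ℝ) *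
        ∫ t : ℝ, ‖bt T u t (Real.log n)‖ ^ 2) ≤ (ArithmeticFunction.vonMangoldt n) ^ 2 * (1 / (n : ℝ) *
        (T / (2 * Real.pi) * Real.exp (-(u - Real.log n) ^ 2) +
      C5 * κ * Real.exp (-(u - Real.log n) ^ 2 / 2))) := by gcongr
    refine h9.trans (le_of_eq ?_)
    ring
  refine (Finset.sum_le_sum hterm).trans ?_
  rw [Finset.sum_add_distrib, ← Finset.mul_sum, ← Finset.mul_sum]
  have a1 : ∑ n ∈ Finset.Icc 1 N, ((ArithmeticFunction.vonMangoldt n) ^ 2 / n *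
        Real.exp (-(u - Real.log n) ^ 2)) ≤ S1 u :=
    hS1.sum_le_tsum _ (fun n _ => by positivity)
  have a2 : ∑ n ∈ Finset.Icc 1 N, ((ArithmeticFunction.vonMangoldt n) ^ 2 / n *
        Real.exp (-(u - Real.log n) ^ 2 / 2)) ≤ C6 * (u + 1) :=
    (hS2.sum_le_tsum _ (fun n _ => by positivity)).trans hS2le
  have hT0 : 0 ≤ T := by linarith
  refine add_le_add (mul_le_mul_of_nonneg_left a1 (by positivity)) ?_
  calc C5 * κ * _ ≤ C5 * κ * (C6 * (u + 1)) := mul_le_mul_of_nonneg_left a2 (by positivity)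
    _ = _ := by ring


theorem Gq_eq (T u t : ℝ) (hT : 0 ≤ T) (q : ℕ) :
    (∑' n : ℕ, if Nat.Coprime n q then 0 else ArithmeticFunction.vonMangoldt n *
      ‖(Real.sqrt n : ℂ)⁻¹ * bt T u t (Real.log n)‖) ^ 2 ≤ wt T t ^ 2 * Gq q u ^ 2 := by
  have h := b_tsum_sq T u t hT (fun n => ¬ Nat.Coprime n q)
  simp only [ite_not] at h
  exact h

/-- bracket of the pointwise error terms -/
noncomputable def DD (C1 : ℝ) (P X Y N : ℕ) (u : ℝ) : ℝ :=
  C1 * ∑ q ∈ Finset.Ioc X (P * Y), (1 / (q : ℝ)) * Gq q u ^ 2 +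
    C1 * (Real.log ((Y : ℝ) / X) + 1) * (Gq P u ^ 2 + Tl N u ^ 2)

theorem ms_point (ε1 : ℝ) (h1 : 0 < ε1) (h2 : ε1 ≤ 1) : ∃ (C : ℝ) (P : ℕ), 0 < C ∧ 1 ≤ P ∧
    ∀ (X Y N : ℕ) (T u t : ℝ), 1 ≤ X → X ≤ Y → 0 ≤ T →
    primFam X Y (fun q χ =>
        ‖∑' n : ℕ, (χ (n : ZMod q) * (ArithmeticFunction.vonMangoldt n : ℂ)) *
          ((Real.sqrt n : ℂ)⁻¹ * bt T u t (Real.log n))‖ ^ 2) ≤
      ((1 + ε1) * Real.exp (Real.pi * N / (X : ℝ) ^ 2) *
        (c0 ^ 2 * (1 + ε1) * Real.log ((Y : ℝ) / X) + C)) *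
        ∑ n ∈ Finset.Icc 1 N, (ArithmeticFunction.vonMangoldt n) ^ 2 *
          ‖(Real.sqrt n : ℂ)⁻¹ * bt T u t (Real.log n)‖ ^ 2
      + wt T t ^ 2 * DD C P X Y N u := by
  obtain ⟨C, P, hC, hP, h⟩ := prim_ls ε1 h1 h2
  refine ⟨C, P, hC, hP, ?_⟩
  intro X Y N T u t hX hXY hT
  have h3 := h X Y N (fun n => (Real.sqrt n : ℂ)⁻¹ * bt T u t (Real.log n)) hX hXY
    (b_summable T u t hT)
  refine h3.trans ?_
  have h4 := b_tsum_sq T u t hT (fun n => N < n)
  have hlog : 0 ≤ Real.log ((Y : ℝ) / X) := by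
    refine Real.log_nonneg ?_
    have : (0 : ℝ) < X := by exact_mod_cast hX
    rw [one_le_div this]
    exact_mod_cast hXY
  have h5 : C * ∑ q ∈ Finset.Ioc X (P * Y), (1 / (q : ℝ)) *
        (∑' n : ℕ, if Nat.Coprime n q then 0 else ArithmeticFunction.vonMangoldt n *
          ‖(Real.sqrt n : ℂ)⁻¹ * bt T u t (Real.log n)‖) ^ 2 ≤
      C * ∑ q ∈ Finset.Ioc X (P * Y), (1 / (q : ℝ)) * (wt T t ^ 2 * Gq q u ^ 2) := by
    refine mul_le_mul_of_nonneg_left ?_ hC.le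
    refine Finset.sum_le_sum (fun q _ => ?_)
    exact mul_le_mul_of_nonneg_left (Gq_eq T u t hT q) (by positivity)
  have h6 : C * (Real.log ((Y : ℝ) / X) + 1) *
        ((∑' n : ℕ, if Nat.Coprime n P then 0 else ArithmeticFunction.vonMangoldt n *
          ‖(Real.sqrt n : ℂ)⁻¹ * bt T u t (Real.log n)‖) ^ 2 +
         (∑' n : ℕ, if N < n then ArithmeticFunction.vonMangoldt n *
          ‖(Real.sqrt n : ℂ)⁻¹ * bt T u t (Real.log n)‖ else 0) ^ 2) ≤
      C * (Real.log ((Y : ℝ) / X) + 1) * (wt T t ^ 2 * Gq P u ^ 2 + wt T t ^ 2 * Tl N u ^ 2) := by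
    refine mul_le_mul_of_nonneg_left ?_ (by positivity)
    exact add_le_add (Gq_eq T u t hT P) h4
  have h7 : wt T t ^ 2 * DD C P X Y N u =
      C * ∑ q ∈ Finset.Ioc X (P * Y), (1 / (q : ℝ)) * (wt T t ^ 2 * Gq q u ^ 2) +
      C * (Real.log ((Y : ℝ) / X) + 1) * (wt T t ^ 2 * Gq P u ^ 2 + wt T t ^ 2 * Tl N u ^ 2) := by
    unfold DD
    have : ∑ q ∈ Finset.Ioc X (P * Y), (1 / (q : ℝ)) * (wt T t ^ 2 * Gq q u ^ 2) =
      wt T t ^ 2 * ∑ q ∈ Finset.Ioc X (P * Y), (1 / (q : ℝ)) * Gq q u ^ 2 := by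
      rw [Finset.mul_sum]
      exact Finset.sum_congr rfl (fun q _ => by ring)
    rw [this]; ring
  rw [h7]
  linarith


theorem DD_nonneg (C1 : ℝ) (hC : 0 ≤ C1) (P X Y N : ℕ) (u : ℝ) (hX : 1 ≤ X) (hXY : X ≤ Y) :
    0 ≤ DD C1 P X Y N u := by
  have hlog : 0 ≤ Real.log ((Y : ℝ) / X) := by
    refine Real.log_nonneg ?_
    have : (0 : ℝ) < X := by exact_mod_cast hX
    rw [one_le_div this]
    exact_mod_cast hXY
  unfold DD
  positivity

theorem ms_int (ε1 : ℝ) (h1 : 0 < ε1) (h2 : ε1 ≤ 1) : ∃ (C : ℝ) (P : ℕ), 0 < C ∧ 1 ≤ P ∧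
    ∀ (X Y N : ℕ) (T κ u : ℝ), 1 ≤ X → X ≤ Y → 1 ≤ κ → 1 ≤ T → T ≤ Real.exp (κ ^ 2) → 0 ≤ u →
    ∫ t : ℝ, primFam X Y (fun q χ =>
        ‖∑' n : ℕ, (χ (n : ZMod q) * (ArithmeticFunction.vonMangoldt n : ℂ)) *
          ((Real.sqrt n : ℂ)⁻¹ * bt T u t (Real.log n))‖ ^ 2) ≤
      ((1 + ε1) * Real.exp (Real.pi * N / (X : ℝ) ^ 2) *
        (c0 ^ 2 * (1 + ε1) * Real.log ((Y : ℝ) / X) + C)) *
        (T / (2 * Real.pi) * S1 u + C * κ * (u + 1))
      + (T + C) * DD C P X Y N u := by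
  obtain ⟨C, P, hC, hP, h⟩ := ms_point ε1 h1 h2
  obtain ⟨C5, hC5, h5⟩ := bt_sum_int
  obtain ⟨C7, hC7, h7⟩ := wt_sq_int
  have hc0 : 0 < c0 := by unfold c0; positivity
  refine ⟨C + C5 + C7, P, by positivity, hP, ?_⟩
  intro X Y N T κ u hX hXY hκ hT hTκ hu
  have hT0 : 0 ≤ T := by linarith
  have hlog : 0 ≤ Real.log ((Y : ℝ) / X) := by
    refine Real.log_nonneg ?_
    have : (0 : ℝ) < X := by exact_mod_cast hX
    rw [one_le_div this]
    exact_mod_cast hXY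
  obtain ⟨i1, i2⟩ := h5 T κ u N hκ hT hTκ hu
  obtain ⟨j1, j2⟩ := h7 T hT0
  have hDD := DD_nonneg C hC.le P X Y N u hX hXY
  set D1 : ℝ := (1 + ε1) * Real.exp (Real.pi * N / (X : ℝ) ^ 2) *
        (c0 ^ 2 * (1 + ε1) * Real.log ((Y : ℝ) / X) + C) with hD1
  have hD1n : 0 ≤ D1 := by positivity
  have hS1 : 0 ≤ S1 u := tsum_nonneg (fun n => by positivity)
  calc _ ≤ ∫ t : ℝ, (D1 * ∑ n ∈ Finset.Icc 1 N, (ArithmeticFunction.vonMangoldt n) ^ 2 *
          ‖(Real.sqrt n : ℂ)⁻¹ * bt T u t (Real.log n)‖ ^ 2 + wt T t ^ 2 * DD C P X Y N u) := by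
        refine integral_mono_of_nonneg ?_ ?_ ?_
        · exact Filter.Eventually.of_forall (fun t => primFam_nonneg _ _ _ (fun _ _ => sq_nonneg _))
        · exact (i1.const_mul _).add (j1.mul_const _)
        · exact Filter.Eventually.of_forall (fun t => h X Y N T u t hX hXY hT0)
    _ = D1 * (∫ t : ℝ, ∑ n ∈ Finset.Icc 1 N, (ArithmeticFunction.vonMangoldt n) ^ 2 *
          ‖(Real.sqrt n : ℂ)⁻¹ * bt T u t (Real.log n)‖ ^ 2) +
          (∫ t : ℝ, wt T t ^ 2) * DD C P X Y N u := by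
        rw [integral_add (i1.const_mul _) (j1.mul_const _), integral_const_mul, integral_mul_const]
    _ ≤ D1 * (T / (2 * Real.pi) * S1 u + C5 * κ * (u + 1)) + (T + C7) * DD C P X Y N u := by
        exact add_le_add (mul_le_mul_of_nonneg_left i2 hD1n) (mul_le_mul_of_nonneg_right j2 hDD)
    _ ≤ _ := by
        have hDD2 : DD C P X Y N u ≤ DD (C + C5 + C7) P X Y N u := by
          unfold DD
          gcongr <;> linarith
        have hD2 : D1 ≤ (1 + ε1) * Real.exp (Real.pi * N / (X : ℝ) ^ 2) *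
            (c0 ^ 2 * (1 + ε1) * Real.log ((Y : ℝ) / X) + (C + C5 + C7)) := by
          rw [hD1]; gcongr; linarith
        have e1 : T / (2 * Real.pi) * S1 u + C5 * κ * (u + 1) ≤
            T / (2 * Real.pi) * S1 u + (C + C5 + C7) * κ * (u + 1) := by gcongr; linarith
        refine add_le_add ?_ ?_
        · exact mul_le_mul hD2 e1 (by positivity) (by positivity)
        · exact mul_le_mul (by linarith) hDD2 hDD (by linarith)


theorem lin_ev (a b : ℝ) (hb : 0 < b) : ∀ᶠ L : ℝ in atTop, a ≤ b * L := by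
  filter_upwards [eventually_ge_atTop (a / b)] with L hL
  rw [div_le_iff₀ hb] at hL; linarith

theorem Rw_cont (γ : ℝ) (h0 : 0 < γ) (hπ : γ < Real.pi) : Continuous (Rw γ) := by
  obtain ⟨K, hK, h⟩ := Rw_lip γ h0 hπ
  have : LipschitzWith ⟨K, hK.le⟩ (Rw γ) := by
    refine LipschitzWith.of_dist_le_mul (fun x y => ?_)
    rw [Real.dist_eq, Real.dist_eq]
    exact h x y
  exact this.continuous

theorem Rw_le (γ : ℝ) (h0 : 0 < γ) (hπ : γ < Real.pi) (α : ℝ) (hα : 0 ≤ α) : Rw γ α ≤ Rw γ 0 :=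
  Rw_antitone γ h0 hπ (Set.mem_Ici.mpr le_rfl) (Set.mem_Ici.mpr hα) hα

/-- `∑_{X < q ≤ Z} 1/q ≤ log (Z/X)` -/
theorem sum_inv_le (X Z : ℕ) (hX : 1 ≤ X) (h : X ≤ Z) :
    ∑ q ∈ Finset.Ioc X Z, (1 / (q : ℝ)) ≤ Real.log ((Z : ℝ) / X) := by
  induction Z, h using Nat.le_induction with
  | base =>
    have : (X : ℝ) ≠ 0 := by positivity
    simp [this]
  | succ Z hZ ih =>
    rw [Finset.sum_Ioc_succ_top (by omega)]
    have hX0 : (0 : ℝ) < X := by exact_mod_cast hX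
    have hZ0 : (0 : ℝ) < Z := by exact_mod_cast (show 0 < Z by omega)
    have h1 : Real.log (((Z + 1 : ℕ) : ℝ) / X) = Real.log ((Z : ℝ) / X) +
        Real.log (((Z + 1 : ℕ) : ℝ) / Z) := by
      rw [← Real.log_mul (by positivity) (by positivity)]
      congr 1
      field_simp
    rw [h1]
    refine add_le_add ih ?_
    have h2 : 1 - ((((Z + 1 : ℕ) : ℝ)) / Z)⁻¹ ≤ Real.log ((((Z + 1 : ℕ) : ℝ)) / Z) :=
      Real.one_sub_inv_le_log_of_pos (by positivity)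
    refine le_trans (le_of_eq ?_) h2
    push_cast
    field_simp
    ring

/-- the family bound for stage 1 : the function `Yf` -/
noncomputable def YY (D1 T L C 𝓛 : ℝ) (P X Y : ℕ) (u : ℝ) : ℝ :=
  D1 * (T / (2 * Real.pi) * S1 u + C * L * (u + 1)) +
    (T + C) * (C * ∑ q ∈ Finset.Ioc X (P * Y), (1 / (q : ℝ)) * Gq q u ^ 2 +
    C * (𝓛 + 1) * (Gq P u ^ 2 + 1))

theorem S1_cont : Continuous S1 := lam_sq_cont

theorem Gq_cont (q : ℕ) : Continuous (Gq q) := noncop_cont q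

theorem YY_cont (D1 T L C 𝓛 : ℝ) (P X Y : ℕ) : Continuous (YY D1 T L C 𝓛 P X Y) := by
  unfold YY
  have h1 := S1_cont
  have h2 := Gq_cont
  have h3 : Continuous (fun u : ℝ => ∑ q ∈ Finset.Ioc X (P * Y), (1 / (q : ℝ)) * Gq q u ^ 2) :=
    continuous_finsetSum _ (fun q _ => continuous_const.mul ((h2 q).pow 2))
  have h4 := (h2 P).pow 2
  fun_prop

/-- integral of the error part -/
theorem YY_integral (γ : ℝ) (h0 : 0 < γ) (hπ : γ < Real.pi) (D1 T L C 𝓛 Λ : ℝ) (P X Y : ℕ)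
    (hD : 0 ≤ D1) (hT : 0 ≤ T) (hL : 0 ≤ L) (hC : 0 ≤ C) (h𝓛 : 0 ≤ 𝓛) (hΛ : 0 < Λ) :
    ∫ u in (0 : ℝ)..Λ, Rw γ (u / Λ) * YY D1 T L C 𝓛 P X Y u ≤
      D1 * (T / (2 * Real.pi)) * (∫ u in (0 : ℝ)..Λ, Rw γ (u / Λ) * S1 u) +
      Rw γ 0 * (D1 * C * L * (Λ ^ 2 / 2 + Λ) +
        (T + C) * (C * ∑ q ∈ Finset.Ioc X (P * Y), (1 / (q : ℝ)) * (∫ u in (0 : ℝ)..Λ, Gq q u ^ 2) +
    C * (𝓛 + 1) * ((∫ u in (0 : ℝ)..Λ, Gq P u ^ 2) + Λ))) := by
  have hR := Rw_cont γ h0 hπ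
  have hS := S1_cont
  have hG := Gq_cont
  have hRS : Continuous (fun u : ℝ => Rw γ (u / Λ) * S1 u) :=
    (hR.comp (continuous_id.div_const Λ)).mul hS
  set E : ℝ → ℝ := fun u => D1 * C * L * (u + 1) +
    (T + C) * (C * ∑ q ∈ Finset.Ioc X (P * Y), (1 / (q : ℝ)) * Gq q u ^ 2 +
    C * (𝓛 + 1) * (Gq P u ^ 2 + 1)) with hE
  have hsum : Continuous (fun u : ℝ => ∑ q ∈ Finset.Ioc X (P * Y), (1 / (q : ℝ)) * Gq q u ^ 2) :=
    continuous_finsetSum _ (fun q _ => continuous_const.mul ((hG q).pow 2))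
  have hGP := (hG P).pow 2
  have hEc : Continuous E := by
    rw [hE]; fun_prop
  have hE0 : ∀ u, 0 ≤ u → 0 ≤ E u := by
    intro u hu
    rw [hE]; positivity
  have h1 : ∫ u in (0 : ℝ)..Λ, Rw γ (u / Λ) * YY D1 T L C 𝓛 P X Y u ≤
      ∫ u in (0 : ℝ)..Λ, (D1 * (T / (2 * Real.pi)) * (Rw γ (u / Λ) * S1 u) + Rw γ 0 * E u) := by
    refine intervalIntegral.integral_mono_on hΛ.le ?_ ?_ (fun u hu => ?_)
    · exact ((hR.comp (continuous_id.div_const Λ)).mul (YY_cont _ _ _ _ _ _ _ _)).intervalIntegrable _ _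
    · exact ((hRS.const_mul _).add (hEc.const_mul _)).intervalIntegrable _ _
    · have h2 : YY D1 T L C 𝓛 P X Y u = D1 * (T / (2 * Real.pi)) * S1 u + E u := by
        rw [hE]; unfold YY; ring
      rw [h2]
      have h3 : Rw γ (u / Λ) * E u ≤ Rw γ 0 * E u :=
        mul_le_mul_of_nonneg_right (Rw_le γ h0 hπ _ (div_nonneg hu.1 hΛ.le)) (hE0 u hu.1)
      nlinarith
  refine h1.trans (le_of_eq ?_)
  rw [intervalIntegral.integral_add ((hRS.const_mul _).intervalIntegrable _ _)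
    ((hEc.const_mul _).intervalIntegrable _ _), intervalIntegral.integral_const_mul,
    intervalIntegral.integral_const_mul]
  congr 2
  have i1 : IntervalIntegrable (fun u : ℝ => D1 * C * L * (u + 1)) volume 0 Λ :=
    (continuous_const.mul (continuous_id.add continuous_const)).intervalIntegrable _ _
  have i3 : IntervalIntegrable (fun u : ℝ => C * ∑ q ∈ Finset.Ioc X (P * Y), (1 / (q : ℝ)) * Gq q u ^ 2)
      volume 0 Λ := (hsum.const_mul _).intervalIntegrable _ _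
  have hGP' : Continuous (fun u : ℝ => Gq P u ^ 2) := (hG P).pow 2
  have i4 : IntervalIntegrable (fun u : ℝ => C * (𝓛 + 1) * (Gq P u ^ 2 + 1)) volume 0 Λ :=
    ((hGP'.add continuous_const).const_mul _).intervalIntegrable _ _
  have i2 : IntervalIntegrable (fun u : ℝ => (T + C) *
      (C * ∑ q ∈ Finset.Ioc X (P * Y), (1 / (q : ℝ)) * Gq q u ^ 2 +
        C * (𝓛 + 1) * (Gq P u ^ 2 + 1))) volume 0 Λ := (i3.add i4).const_mul _
  have e1 : ∫ u in (0 : ℝ)..Λ, D1 * C * L * (u + 1) = D1 * C * L * (Λ ^ 2 / 2 + Λ) := by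
    have ii : IntervalIntegrable (fun u : ℝ => u) volume 0 Λ := continuous_id.intervalIntegrable _ _
    rw [intervalIntegral.integral_const_mul, intervalIntegral.integral_add ii
      (continuous_const.intervalIntegrable _ _)]
    simp only [integral_id, intervalIntegral.integral_const, smul_eq_mul]
    ring
  have e3 : ∫ u in (0 : ℝ)..Λ, C * ∑ q ∈ Finset.Ioc X (P * Y), (1 / (q : ℝ)) * Gq q u ^ 2 =
      C * ∑ q ∈ Finset.Ioc X (P * Y), (1 / (q : ℝ)) * (∫ u in (0 : ℝ)..Λ, Gq q u ^ 2) := by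
    rw [intervalIntegral.integral_const_mul, intervalIntegral.integral_finsetSum]
    · congr 1
      exact Finset.sum_congr rfl (fun q _ => intervalIntegral.integral_const_mul _ _)
    · intro q _
      exact (continuous_const.mul ((hG q).pow 2)).intervalIntegrable _ _
  have e4 : ∫ u in (0 : ℝ)..Λ, C * (𝓛 + 1) * (Gq P u ^ 2 + 1) =
      C * (𝓛 + 1) * ((∫ u in (0 : ℝ)..Λ, Gq P u ^ 2) + Λ) := by
    rw [intervalIntegral.integral_const_mul, intervalIntegral.integral_add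
      (hGP'.intervalIntegrable _ _) (continuous_const.intervalIntegrable _ _)]
    simp
  have e2 : ∫ u in (0 : ℝ)..Λ, (T + C) *
      (C * ∑ q ∈ Finset.Ioc X (P * Y), (1 / (q : ℝ)) * Gq q u ^ 2 +
        C * (𝓛 + 1) * (Gq P u ^ 2 + 1)) = (T + C) *
      (C * ∑ q ∈ Finset.Ioc X (P * Y), (1 / (q : ℝ)) * (∫ u in (0 : ℝ)..Λ, Gq q u ^ 2) +
        C * (𝓛 + 1) * ((∫ u in (0 : ℝ)..Λ, Gq P u ^ 2) + Λ)) := by
    rw [intervalIntegral.integral_const_mul, intervalIntegral.integral_add i3 i4, e3, e4]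
  rw [hE]
  rw [intervalIntegral.integral_add i1 i2, e1, e2]

end H385
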