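import Pool.Agent.H385R2.FinB

open Complex Filter Topology Set MeasureTheory
open H370 (zset mult NN Nd Ns)

set_option maxHeartbeats 4000000

namespace H385

theorem aux_XY (K X Y : ℝ) (hK : 1 ≤ K) (hX : 0 < X) (h : K * X ≤ Y) : X ≤ Y :=
  le_trans (le_mul_of_one_le_left hX.le hK) h

theorem aux_sq_le (x a : ℝ) (h0 : 0 < x) (h1 : x ≤ a) (h2 : a ≤ 1) : x ^ 2 ≤ a := by nlinarith

theorem aux_one_sq (x : ℝ) (h : 1 ≤ x) : 1 ≤ x ^ 2 := by nlinarith

theorem aux_pi (T : ℝ) (hT : 0 < T) : T / (2 * Real.pi) ≤ T :=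
  div_le_self hT.le (by linarith [Real.pi_gt_three])

theorem aux_G (g e : ℝ) (h1 : g ≤ (4 * e) ^ 2) (h2 : 1 ≤ e ^ 2) : g + 1 ≤ 17 * e ^ 2 := by nlinarith

theorem aux_G2 (e : ℝ) : (4 * e) ^ 2 ≤ 17 * e ^ 2 := by nlinarith [sq_nonneg e]

theorem aux_c1' (W a b : ℝ) (hW : 0 ≤ W) (h : 12 * a ≤ b) : 12 * W * a ≤ b * W := by nlinarith

theorem Gq_nonneg (q : ℕ) (u : ℝ) : 0 ≤ Gq q u := by
  refine tsum_nonneg (fun n => ?_)
  split_ifs
  · exact le_rfl
  · exact mul_nonneg (div_nonneg ArithmeticFunction.vonMangoldt_nonneg (Real.sqrt_nonneg _))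
      (Real.exp_pos _).le

theorem S1_le : ∃ C : ℝ, 0 < C ∧ ∀ u : ℝ, 0 ≤ u → 0 ≤ S1 u ∧ S1 u ≤ C * (u + 1) := by
  obtain ⟨C6, hC6, h6⟩ := lam_sq_crude
  refine ⟨C6, hC6, fun u hu => ⟨tsum_nonneg (fun n => by positivity), ?_⟩⟩
  have hS2 := (h6 u hu).1
  have hle : ∀ n : ℕ, (ArithmeticFunction.vonMangoldt n) ^ 2 / n *
        Real.exp (-(u - Real.log n) ^ 2) ≤ (ArithmeticFunction.vonMangoldt n) ^ 2 / n *
        Real.exp (-(u - Real.log n) ^ 2 / 2) := by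
    intro n
    refine mul_le_mul_of_nonneg_left (Real.exp_le_exp.mpr ?_) (by positivity)
    nlinarith [sq_nonneg (u - Real.log n)]
  exact (Summable.tsum_le_tsum hle (Summable.of_nonneg_of_le (fun n => by positivity) hle hS2)
    hS2).trans (h6 u hu).2

theorem I1_nonneg (γ : ℝ) (h0 : 0 < γ) (hπ : γ < Real.pi) :
    0 ≤ ∫ α in (0 : ℝ)..1, α * Rw γ α :=
  intervalIntegral.integral_nonneg zero_le_one (fun α hα => mul_nonneg hα.1 (Rw_nonneg γ h0 hπ α))

/-- sum of `1/q` times bounded quantities -/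
theorem sum_q_le (X Y P : ℕ) (f : ℕ → ℝ) (M : ℝ) (hM : 0 ≤ M) (hX : 1 ≤ X) (hXY : X ≤ Y) (hP : 1 ≤ P)
    (hf : ∀ q ∈ Finset.Ioc X (P * Y), f q ≤ M) :
    ∑ q ∈ Finset.Ioc X (P * Y), (1 / (q : ℝ)) * f q ≤ (Real.log ((Y : ℝ) / X) + Real.log P) * M := by
  have hX0 : (0 : ℝ) < X := by exact_mod_cast hX
  have hP0 : (0 : ℝ) < P := by exact_mod_cast hP
  have hY0 : (0 : ℝ) < Y := by exact_mod_cast (show 0 < Y by omega)
  have h1 : ∑ q ∈ Finset.Ioc X (P * Y), (1 / (q : ℝ)) * f q ≤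
      ∑ q ∈ Finset.Ioc X (P * Y), (1 / (q : ℝ)) * M :=
    Finset.sum_le_sum (fun q hq => mul_le_mul_of_nonneg_left (hf q hq) (by positivity))
  refine h1.trans ?_
  rw [← Finset.sum_mul]
  refine mul_le_mul_of_nonneg_right ?_ hM
  refine (sum_inv_le X (P * Y) hX (by nlinarith)).trans (le_of_eq ?_)
  push_cast
  rw [← Real.log_mul (by positivity) (by positivity)]
  congr 1
  ring

/-- all estimates for `YY` -/
theorem YY_final (γ β : ℝ) (h0 : 0 < γ) (hπ : γ < Real.pi) (hβ : 0 < β) (ε : ℝ) (hε : 0 < ε) :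
    ∃ ε1 : ℝ, 0 < ε1 ∧ ε1 ≤ 1 ∧ ε1 ≤ ε ∧ ∀ (C : ℝ) (P : ℕ), 0 < C → 1 ≤ P →
    ∃ K L0 : ℝ, 1 ≤ K ∧ 0 < L0 ∧ ∀ (X Y : ℕ) (T D1 : ℝ), Real.exp L0 ≤ X → K * X ≤ Y →
      (Y : ℝ) ≤ (X : ℝ) ^ (2 : ℕ) → (Real.log X) ^ 2 ≤ T → 0 ≤ D1 →
      D1 ≤ (1 + 11 * ε1) * WW X Y →
      ∃ y1 y2 : ℝ, 0 ≤ y1 ∧ 0 ≤ y2 ∧
      (∀ u ∈ Set.Icc 0 (β * Real.log X),
        YY D1 T (Real.log X) C (Real.log ((Y : ℝ) / X)) P X Y u ≤ T * (y1 * (u + 1) + y2)) ∧
      Real.sqrt y1 + Real.sqrt y2 ≤ ε * Real.log X * Real.sqrt (WW X Y) ∧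
      (2 / (Real.sqrt Real.pi * (β * Real.log X))) * (∫ u in (0 : ℝ)..(β * Real.log X),
        Rw γ (u / (β * Real.log X)) * YY D1 T (Real.log X) C (Real.log ((Y : ℝ) / X)) P X Y u) ≤
        T / (2 * Real.pi) * Real.log X * WW X Y *
          (2 * β * (∫ α in (0 : ℝ)..1, α * Rw γ α) + ε) := by
  obtain ⟨C4, hC4, hmass⟩ := prim_mass
  obtain ⟨C6, hC6, h6⟩ := S1_le
  obtain ⟨C10, hC10, h10⟩ := lam_sq_smooth_w γ h0 hπ
  set I1 : ℝ := ∫ α in (0 : ℝ)..1, α * Rw γ α with hI1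
  have hI1n : 0 ≤ I1 := I1_nonneg γ h0 hπ
  set R0 : ℝ := Rw γ 0 with hR0
  have hR0n : 0 ≤ R0 := Rw_nonneg γ h0 hπ 0
  have hpi := Real.pi_pos
  have hspi : 0 < Real.sqrt Real.pi := Real.sqrt_pos.mpr hpi
  have hspi2 : Real.sqrt Real.pi * Real.sqrt Real.pi = Real.pi := Real.mul_self_sqrt hpi.le
  have hc0 : 0 < c0 := by unfold c0; positivity
  refine ⟨min (min 1 ε) (ε / (88 * (β * I1 + 1))), by positivity,
    (min_le_left _ _).trans (min_le_left _ _), (min_le_left _ _).trans (min_le_right _ _), ?_⟩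
  set ε1 : ℝ := min (min 1 ε) (ε / (88 * (β * I1 + 1))) with hε1
  have hε1p : 0 < ε1 := by positivity
  have hε1le : ε1 ≤ 1 := (min_le_left _ _).trans (min_le_left _ _)
  have hε1b : 22 * ε1 * (β * I1) ≤ ε / 4 := by
    have h1 : ε1 ≤ ε / (88 * (β * I1 + 1)) := min_le_right _ _
    have h2 : 0 ≤ β * I1 := by positivity
    calc 22 * ε1 * (β * I1) ≤ 22 * (ε / (88 * (β * I1 + 1))) * (β * I1) := by gcongr
      _ = ε / 4 * (β * I1 / (β * I1 + 1)) := by field_simp; ring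
      _ ≤ ε / 4 * 1 := by
        refine mul_le_mul_of_nonneg_left ?_ (by positivity)
        rw [div_le_one (by positivity)]; linarith
      _ = ε / 4 := mul_one _
  intro C P hC hP
  set C11 : ℝ := 6 / c0 ^ 2 with hC11
  have hC11p : 0 < C11 := by positivity
  set C12 : ℝ := 2 * C10 / Real.sqrt Real.pi + 4 * Real.sqrt Real.pi * R0 * C * β with hC12
  have hC12n : 0 ≤ C12 := by positivity
  -- choice of ε2
  obtain ⟨ε2, hε2, hε2a, hε2b⟩ : ∃ ε2 : ℝ, 0 < ε2 ∧ 34 * C * C11 * ε2 ^ 2 ≤ (ε / 2) ^ 2 ∧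
      4 * R0 * C * C11 / (Real.sqrt Real.pi * β) * (10 * ε2) ≤ 1 / (2 * Real.pi) * (ε / 4) := by
    set a := min 1 ((ε / 2) ^ 2 / (34 * C * C11)) with ha
    set b := 1 / (2 * Real.pi) * (ε / 4) / (10 * (4 * R0 * C * C11 / (Real.sqrt Real.pi * β) + 1)) with hb
    have ha0 : 0 < a := by positivity
    have hb0 : 0 < b := by positivity
    refine ⟨min a b, lt_min ha0 hb0, ?_, ?_⟩
    · have h1 : (min a b) ^ 2 ≤ a := by
        have h2 : min a b ≤ a := min_le_left _ _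
        have h3 : a ≤ 1 := min_le_left _ _
        have h4 : 0 < min a b := lt_min ha0 hb0
        exact aux_sq_le _ a h4 h2 h3
      have h5 : a ≤ (ε / 2) ^ 2 / (34 * C * C11) := min_le_right _ _
      calc 34 * C * C11 * (min a b) ^ 2 ≤ 34 * C * C11 * ((ε / 2) ^ 2 / (34 * C * C11)) := by
            gcongr; exact h1.trans h5
        _ = _ := by field_simp
    · set k := 4 * R0 * C * C11 / (Real.sqrt Real.pi * β) with hk
      have hk0 : 0 ≤ k := by positivity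
      calc k * (10 * min a b) ≤ k * (10 * b) := by gcongr; exact min_le_right _ _
        _ = (1 / (2 * Real.pi) * (ε / 4)) * (k / (k + 1)) := by rw [hb]; field_simp
        _ ≤ (1 / (2 * Real.pi) * (ε / 4)) * 1 := by
          refine mul_le_mul_of_nonneg_left ?_ (by positivity)
          rw [div_le_one (by positivity)]; linarith
        _ = _ := mul_one _
  obtain ⟨C2, hC2, h2⟩ := noncop_bound ε2 hε2
  obtain ⟨C3, hC3, h3⟩ := noncop_sq ε2 hε2
  -- L0
  have hev : ∀ᶠ L : ℝ in atTop, 1 ≤ L ∧ 2 ≤ β * L ∧ Real.log P ≤ L ∧ C2 ≤ ε2 * L ∧ 1 ≤ ε2 * L ∧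
      C ≤ L ∧ C3 ≤ ε2 / 2 * L ∧ β ≤ ε2 / 2 * L ∧ 12 * C12 ≤ ε / 4 * L ∧
      12 * (C6 + C) ≤ (ε / 2) ^ 2 * L := by
    filter_upwards [eventually_ge_atTop 1, lin_ev 2 β hβ, eventually_ge_atTop (Real.log P),
      lin_ev C2 ε2 hε2, lin_ev 1 ε2 hε2, eventually_ge_atTop C, lin_ev C3 (ε2 / 2) (by positivity),
      lin_ev β (ε2 / 2) (by positivity), lin_ev (12 * C12) (ε / 4) (by positivity),
      lin_ev (12 * (C6 + C)) ((ε / 2) ^ 2) (by positivity)] with L a1 a2 a3 a4 a5 a6 a7 a8 a9 a10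
    exact ⟨a1, a2, a3, a4, a5, a6, a7, a8, a9, a10⟩
  obtain ⟨L0', hL0'⟩ := Filter.eventually_atTop.mp hev
  set L0 : ℝ := max L0' 1 with hL0
  set K : ℝ := Real.exp (2 * C4 / c0 ^ 2 + Real.log P + 1) with hK
  have hlogP : 0 ≤ Real.log P := Real.log_nonneg (by exact_mod_cast hP)
  have hK1 : 1 ≤ K := by
    rw [hK]; exact Real.one_le_exp (by positivity)
  refine ⟨K, L0, hK1, lt_of_lt_of_le one_pos (le_max_right _ _), ?_⟩
  intro X Y T D1 hXe hKX hY hT hD1 hD1W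
  have hXpos : (0 : ℝ) < X := lt_of_lt_of_le (Real.exp_pos _) hXe
  have hX1 : 1 ≤ X := by exact_mod_cast hXpos
  set L : ℝ := Real.log X with hL
  have hLL0 : L0 ≤ L := by rw [hL, Real.le_log_iff_exp_le hXpos]; exact hXe
  obtain ⟨a1, a2, a3, a4, a5, a6, a7, a8, a9, a10⟩ := hL0' L ((le_max_left _ _).trans hLL0)
  have hL0p : 0 < L := by linarith
  have hXYr : (X : ℝ) ≤ Y := aux_XY K X Y hK1 hXpos hKX
  have hXY : X ≤ Y := by exact_mod_cast hXYr
  have hYpos : (0 : ℝ) < Y := by linarith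
  set 𝓛 : ℝ := Real.log ((Y : ℝ) / X) with h𝓛
  have h𝓛K : 2 * C4 / c0 ^ 2 + Real.log P + 1 ≤ 𝓛 := by
    rw [h𝓛, Real.le_log_iff_exp_le (by positivity), ← hK, le_div_iff₀ hXpos]
    exact hKX
  have hc02 : 0 < c0 ^ 2 := by positivity
  have h𝓛n : 0 ≤ 𝓛 := by
    have : 0 ≤ 2 * C4 / c0 ^ 2 := by positivity
    linarith
  set W : ℝ := WW X Y with hW
  have hWmass : |W - c0 ^ 2 * 𝓛| ≤ C4 := hmass X Y hX1 hXY
  have hWlow : c0 ^ 2 / 2 * 𝓛 ≤ W := by
    have h1 := (abs_le.mp hWmass).1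
    have h2 : C4 ≤ c0 ^ 2 / 2 * 𝓛 := by
      have : 2 * C4 / c0 ^ 2 ≤ 𝓛 := by linarith
      rw [div_le_iff₀ hc02] at this
      linarith
    linarith
  have hWn : 0 ≤ W := le_trans (by positivity) hWlow
  have hC11W : 2 * 𝓛 + Real.log P + 1 ≤ C11 * W := by
    have h1 : 2 * 𝓛 + Real.log P + 1 ≤ 3 * 𝓛 := by
      have : 0 ≤ 2 * C4 / c0 ^ 2 := by positivity
      linarith
    refine h1.trans ?_
    have h2 : C11 * (c0 ^ 2 / 2 * 𝓛) = 3 * 𝓛 := by rw [hC11]; field_simp; ring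
    rw [← h2]
    exact mul_le_mul_of_nonneg_left hWlow hC11p.le
  have hT1 : L ≤ T := by
    have : L * 1 ≤ L * L := mul_le_mul_of_nonneg_left a1 hL0p.le
    linarith [show L ^ 2 = L * L by ring]
  have hTpos : 0 < T := by linarith
  have hCT : T + C ≤ 2 * T := by linarith
  have hLambda : 0 < β * L := by positivity
  -- logs of q
  have hlogY : Real.log Y ≤ 2 * L := by
    have := Real.log_le_log hYpos hY
    rw [Real.log_pow] at this
    exact_mod_cast this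
  have hq : ∀ q ∈ Finset.Ioc X (P * Y), 1 ≤ q ∧ 0 ≤ Real.log q ∧ Real.log q ≤ 3 * L := by
    intro q hq
    obtain ⟨q1, q2⟩ := Finset.mem_Ioc.mp hq
    have q3 : 1 ≤ q := by omega
    have q4 : (0 : ℝ) < q := by exact_mod_cast q3
    refine ⟨q3, Real.log_nonneg (by exact_mod_cast q3), ?_⟩
    have q5 : (q : ℝ) ≤ P * Y := by exact_mod_cast q2
    have q6 := Real.log_le_log q4 q5
    have hP0 : (0 : ℝ) < P := by exact_mod_cast hP
    rw [Real.log_mul hP0.ne' hYpos.ne'] at q6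
    linarith
  have hPq : ε2 * Real.log P + C2 ≤ 4 * ε2 * L := by
    have := mul_le_mul_of_nonneg_left a3 hε2.le
    linarith
  -- pointwise bound
  have hGpt : ∀ u, 0 ≤ u → ∀ q ∈ Finset.Ioc X (P * Y), Gq q u ^ 2 ≤ (4 * ε2 * L) ^ 2 := by
    intro u hu q hqm
    obtain ⟨q1, q2, q3⟩ := hq q hqm
    refine pow_le_pow_left₀ (Gq_nonneg q u) ?_ 2
    refine ((h2 q u q1 hu).2).trans ?_
    have := mul_le_mul_of_nonneg_left q3 hε2.le
    linarith
  have hGP : ∀ u, 0 ≤ u → Gq P u ^ 2 ≤ (4 * ε2 * L) ^ 2 := by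
    intro u hu
    refine pow_le_pow_left₀ (Gq_nonneg P u) ?_ 2
    exact ((h2 P u hP hu).2).trans hPq
  have h1sq : 1 ≤ (ε2 * L) ^ 2 := aux_one_sq _ a5
  refine ⟨12 * W * (C6 + C), 34 * C * C11 * W * (ε2 * L) ^ 2, by positivity, by positivity, ?_, ?_, ?_⟩
  · -- pointwise
    intro u hu
    have hu0 : 0 ≤ u := hu.1
    obtain ⟨s1, s2⟩ := h6 u hu0
    have b1 : D1 * (T / (2 * Real.pi) * S1 u + C * L * (u + 1)) ≤
        12 * W * (C6 + C) * (T * (u + 1)) := by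
      have c1 : T / (2 * Real.pi) * S1 u ≤ T * (C6 * (u + 1)) := by
        have d1 : T / (2 * Real.pi) ≤ T := aux_pi T hTpos
        exact mul_le_mul d1 s2 s1 hTpos.le
      have c2 : C * L * (u + 1) ≤ C * T * (u + 1) := by gcongr
      have c3 : T / (2 * Real.pi) * S1 u + C * L * (u + 1) ≤ (C6 + C) * (T * (u + 1)) := by
        linarith
      have c4 : D1 ≤ 12 * W := by
        refine hD1W.trans (mul_le_mul_of_nonneg_right (by linarith) hWn)
      have c5 : 0 ≤ T / (2 * Real.pi) * S1 u + C * L * (u + 1) := by positivity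
      calc _ ≤ (12 * W) * ((C6 + C) * (T * (u + 1))) := mul_le_mul c4 c3 c5 (by positivity)
        _ = _ := by ring
    have b2 : C * ∑ q ∈ Finset.Ioc X (P * Y), (1 / (q : ℝ)) * Gq q u ^ 2 +
        C * (𝓛 + 1) * (Gq P u ^ 2 + 1) ≤ C * (C11 * W) * (17 * (ε2 * L) ^ 2) := by
      have c1 := sum_q_le X Y P (fun q => Gq q u ^ 2) ((4 * ε2 * L) ^ 2) (by positivity) hX1 hXY hP
        (hGpt u hu0)
      have c2 := hGP u hu0
      have c3 : (𝓛 + 1) * (Gq P u ^ 2 + 1) ≤ (𝓛 + 1) * (17 * (ε2 * L) ^ 2) := by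
        refine mul_le_mul_of_nonneg_left ?_ (by linarith)
        refine aux_G _ _ ?_ h1sq
        rw [← mul_assoc]; exact c2
      have c4 : (𝓛 + Real.log P) * ((4 * ε2 * L) ^ 2) ≤ (𝓛 + Real.log P) * (17 * (ε2 * L) ^ 2) := by
        refine mul_le_mul_of_nonneg_left ?_ (by linarith)
        rw [mul_assoc 4]; exact aux_G2 _
      have c5 : (𝓛 + Real.log P) * (17 * (ε2 * L) ^ 2) + (𝓛 + 1) * (17 * (ε2 * L) ^ 2) ≤
          C11 * W * (17 * (ε2 * L) ^ 2) := by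
        have : (𝓛 + Real.log P) * (17 * (ε2 * L) ^ 2) + (𝓛 + 1) * (17 * (ε2 * L) ^ 2) =
          (2 * 𝓛 + Real.log P + 1) * (17 * (ε2 * L) ^ 2) := by ring
        rw [this]
        exact mul_le_mul_of_nonneg_right hC11W (by positivity)
      calc _ = C * (∑ q ∈ Finset.Ioc X (P * Y), (1 / (q : ℝ)) * Gq q u ^ 2 +
          (𝓛 + 1) * (Gq P u ^ 2 + 1)) := by ring
        _ ≤ C * (C11 * W * (17 * (ε2 * L) ^ 2)) := by
          refine mul_le_mul_of_nonneg_left ?_ hC.le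
          linarith
        _ = _ := by ring
    have b3 : (T + C) * (C * ∑ q ∈ Finset.Ioc X (P * Y), (1 / (q : ℝ)) * Gq q u ^ 2 +
        C * (𝓛 + 1) * (Gq P u ^ 2 + 1)) ≤ (2 * T) * (C * (C11 * W) * (17 * (ε2 * L) ^ 2)) := by
      refine mul_le_mul hCT b2 ?_ (by positivity)
      positivity
    unfold YY
    calc _ ≤ 12 * W * (C6 + C) * (T * (u + 1)) + (2 * T) * (C * (C11 * W) * (17 * (ε2 * L) ^ 2)) :=
          add_le_add b1 b3
      _ = _ := by ring
  · -- square roots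
    have b1 : Real.sqrt (12 * W * (C6 + C)) ≤ ε / 2 * L * Real.sqrt W := by
      have c1 : 12 * W * (C6 + C) ≤ (ε / 2 * L) ^ 2 * W := by
        have : 12 * (C6 + C) ≤ (ε / 2 * L) ^ 2 := by
          have d1 : (ε / 2) ^ 2 * L ≤ (ε / 2 * L) ^ 2 := by
            have : (ε / 2 * L) ^ 2 = (ε / 2) ^ 2 * L * L := by ring
            rw [this]
            exact le_mul_of_one_le_right (by positivity) a1
          linarith
        exact aux_c1' W _ _ hWn this
      calc _ ≤ Real.sqrt ((ε / 2 * L) ^ 2 * W) := Real.sqrt_le_sqrt c1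
        _ = _ := by rw [Real.sqrt_mul (by positivity), Real.sqrt_sq (by positivity)]
    have b2 : Real.sqrt (34 * C * C11 * W * (ε2 * L) ^ 2) ≤ ε / 2 * L * Real.sqrt W := by
      have c1 : 34 * C * C11 * W * (ε2 * L) ^ 2 ≤ (ε / 2 * L) ^ 2 * W := by
        have d1 : 34 * C * C11 * W * (ε2 * L) ^ 2 = (34 * C * C11 * ε2 ^ 2) * (L ^ 2 * W) := by ring
        have d2 : (ε / 2 * L) ^ 2 * W = (ε / 2) ^ 2 * (L ^ 2 * W) := by ring
        rw [d1, d2]
        exact mul_le_mul_of_nonneg_right hε2a (by positivity)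
      calc _ ≤ Real.sqrt ((ε / 2 * L) ^ 2 * W) := Real.sqrt_le_sqrt c1
        _ = _ := by rw [Real.sqrt_mul (by positivity), Real.sqrt_sq (by positivity)]
    calc _ ≤ ε / 2 * L * Real.sqrt W + ε / 2 * L * Real.sqrt W := add_le_add b1 b2
      _ = _ := by ring
  · -- the integral
    have g0 := YY_integral γ h0 hπ D1 T L C 𝓛 (β * L) P X Y hD1 hTpos.le hL0p.le hC.le h𝓛n hLambda
    have g1 := h10 (β * L) (by linarith)
    have g1' : ∫ u in (0 : ℝ)..(β * L), Rw γ (u / (β * L)) * S1 u ≤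
        Real.sqrt Real.pi * (β * L) ^ 2 * I1 + C10 * (β * L) := g1
    have g2 : C * ∑ q ∈ Finset.Ioc X (P * Y), (1 / (q : ℝ)) * (∫ u in (0 : ℝ)..(β * L), Gq q u ^ 2) +
        C * (𝓛 + 1) * ((∫ u in (0 : ℝ)..(β * L), Gq P u ^ 2) + β * L) ≤
        C * (C11 * W) * (10 * ε2 * L ^ 2) := by
      have hM : ∀ q : ℕ, 1 ≤ q → 0 ≤ Real.log q → Real.log q ≤ 3 * L →
          (∫ u in (0 : ℝ)..(β * L), Gq q u ^ 2) + β * L ≤ 10 * ε2 * L ^ 2 := by
        intro q q1 q2 q3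
        have e1 : ∫ u in (0 : ℝ)..(β * L), Gq q u ^ 2 ≤ ε2 * Real.log q ^ 2 + C3 :=
          h3 q (β * L) q1 hLambda.le
        have e2 : Real.log q ^ 2 ≤ (3 * L) ^ 2 := pow_le_pow_left₀ q2 q3 2
        have e3 : C3 ≤ ε2 / 2 * L ^ 2 := by
          have : ε2 / 2 * L ≤ ε2 / 2 * L ^ 2 := by
            refine mul_le_mul_of_nonneg_left ?_ (by positivity)
            rw [sq]; exact le_mul_of_one_le_left hL0p.le a1
          linarith
        have e4 : β * L ≤ ε2 / 2 * L ^ 2 := by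
          calc β * L ≤ (ε2 / 2 * L) * L := mul_le_mul_of_nonneg_right a8 hL0p.le
            _ = _ := by ring
        have e5 : ε2 * Real.log q ^ 2 ≤ ε2 * (3 * L) ^ 2 := mul_le_mul_of_nonneg_left e2 hε2.le
        have e6 : ε2 * (3 * L) ^ 2 = 9 * (ε2 * L ^ 2) := by ring
        linarith
      have hGi : ∀ q : ℕ, 0 ≤ ∫ u in (0 : ℝ)..(β * L), Gq q u ^ 2 := fun q =>
        intervalIntegral.integral_nonneg hLambda.le (fun u _ => sq_nonneg _)
      have c1 := sum_q_le X Y P (fun q => ∫ u in (0 : ℝ)..(β * L), Gq q u ^ 2) (10 * ε2 * L ^ 2)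
        (by positivity) hX1 hXY hP (fun q hqm => by
          obtain ⟨q1, q2, q3⟩ := hq q hqm
          have := hM q q1 q2 q3
          linarith)
      have c2 : (𝓛 + 1) * ((∫ u in (0 : ℝ)..(β * L), Gq P u ^ 2) + β * L) ≤
          (𝓛 + 1) * (10 * ε2 * L ^ 2) := by
        refine mul_le_mul_of_nonneg_left ?_ (by linarith)
        exact hM P hP hlogP (by linarith)
      have c3 : (𝓛 + Real.log P) * (10 * ε2 * L ^ 2) + (𝓛 + 1) * (10 * ε2 * L ^ 2) ≤
          C11 * W * (10 * ε2 * L ^ 2) := by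
        have : (𝓛 + Real.log P) * (10 * ε2 * L ^ 2) + (𝓛 + 1) * (10 * ε2 * L ^ 2) =
          (2 * 𝓛 + Real.log P + 1) * (10 * ε2 * L ^ 2) := by ring
        rw [this]
        exact mul_le_mul_of_nonneg_right hC11W (by positivity)
      calc _ = C * (∑ q ∈ Finset.Ioc X (P * Y), (1 / (q : ℝ)) *
            (∫ u in (0 : ℝ)..(β * L), Gq q u ^ 2) +
            (𝓛 + 1) * ((∫ u in (0 : ℝ)..(β * L), Gq P u ^ 2) + β * L)) := by ring
        _ ≤ C * (C11 * W * (10 * ε2 * L ^ 2)) := by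
          refine mul_le_mul_of_nonneg_left ?_ hC.le
          linarith
        _ = _ := by ring
    have g3 : (T + C) * (C * ∑ q ∈ Finset.Ioc X (P * Y), (1 / (q : ℝ)) *
          (∫ u in (0 : ℝ)..(β * L), Gq q u ^ 2) +
        C * (𝓛 + 1) * ((∫ u in (0 : ℝ)..(β * L), Gq P u ^ 2) + β * L)) ≤
        (2 * T) * (C * (C11 * W) * (10 * ε2 * L ^ 2)) := by
      refine mul_le_mul hCT g2 ?_ (by positivity)
      have hGi : ∀ q : ℕ, 0 ≤ ∫ u in (0 : ℝ)..(β * L), Gq q u ^ 2 := fun q =>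
        intervalIntegral.integral_nonneg hLambda.le (fun u _ => sq_nonneg _)
      have e1 : 0 ≤ ∑ q ∈ Finset.Ioc X (P * Y), (1 / (q : ℝ)) *
          (∫ u in (0 : ℝ)..(β * L), Gq q u ^ 2) :=
        Finset.sum_nonneg (fun q _ => mul_nonneg (by positivity) (hGi q))
      have e2 := hGi P
      positivity
    have g4 : (β * L) ^ 2 / 2 + β * L ≤ (β * L) ^ 2 := by
      have : 2 * (β * L) ≤ (β * L) * (β * L) := mul_le_mul_of_nonneg_right a2 hLambda.le
      linarith [show (β * L) ^ 2 = (β * L) * (β * L) by ring]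
    have g5 : ∫ u in (0 : ℝ)..(β * L), Rw γ (u / (β * L)) * YY D1 T L C 𝓛 P X Y u ≤
        D1 * (T / (2 * Real.pi)) * (Real.sqrt Real.pi * (β * L) ^ 2 * I1 + C10 * (β * L)) +
        R0 * (D1 * C * L * (β * L) ^ 2 + (2 * T) * (C * (C11 * W) * (10 * ε2 * L ^ 2))) := by
      refine g0.trans (add_le_add ?_ ?_)
      · exact mul_le_mul_of_nonneg_left g1' (by positivity)
      · refine mul_le_mul_of_nonneg_left (add_le_add ?_ g3) hR0n
        exact mul_le_mul_of_nonneg_left g4 (by positivity)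
    have hpre : 0 ≤ 2 / (Real.sqrt Real.pi * (β * L)) := by positivity
    have g6 := mul_le_mul_of_nonneg_left g5 hpre
    refine g6.trans ?_
    have g7 : (2 / (Real.sqrt Real.pi * (β * L))) *
        (D1 * (T / (2 * Real.pi)) * (Real.sqrt Real.pi * (β * L) ^ 2 * I1 + C10 * (β * L)) +
        R0 * (D1 * C * L * (β * L) ^ 2 + (2 * T) * (C * (C11 * W) * (10 * ε2 * L ^ 2)))) =
        D1 * (T / (2 * Real.pi)) * (2 * β * I1 * L + 2 * C10 / Real.sqrt Real.pi) +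
        D1 * (2 / Real.sqrt Real.pi * R0 * C * β * L ^ 2) +
        T * L * W * (4 * R0 * C * C11 / (Real.sqrt Real.pi * β) * (10 * ε2)) := by
      field_simp
      ring
    rw [g7]
    have g8 : 2 / Real.sqrt Real.pi * R0 * C * β * L ^ 2 ≤
        T / (2 * Real.pi) * (4 * Real.sqrt Real.pi * R0 * C * β) := by
      have : T / (2 * Real.pi) * (4 * Real.sqrt Real.pi * R0 * C * β) =
          2 / Real.sqrt Real.pi * R0 * C * β * T := by
        have h9 : Real.pi = Real.sqrt Real.pi * Real.sqrt Real.pi := hspi2.symm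
        have h10 : T / (2 * Real.pi) = T / (2 * (Real.sqrt Real.pi * Real.sqrt Real.pi)) := by
          rw [← h9]
        rw [h10]
        field_simp
        ring
      rw [this]
      exact mul_le_mul_of_nonneg_left hT (by positivity)
    have g9 : D1 * (T / (2 * Real.pi)) * (2 * β * I1 * L + 2 * C10 / Real.sqrt Real.pi) +
        D1 * (2 / Real.sqrt Real.pi * R0 * C * β * L ^ 2) ≤
        D1 * (T / (2 * Real.pi)) * (2 * β * I1 * L + C12) := by
      have := mul_le_mul_of_nonneg_left g8 hD1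
      rw [hC12]
      calc _ ≤ D1 * (T / (2 * Real.pi)) * (2 * β * I1 * L + 2 * C10 / Real.sqrt Real.pi) +
          D1 * (T / (2 * Real.pi) * (4 * Real.sqrt Real.pi * R0 * C * β)) := by linarith
        _ = _ := by ring
    have g10 : D1 * (T / (2 * Real.pi)) * (2 * β * I1 * L + C12) ≤
        T / (2 * Real.pi) * L * W * (2 * β * I1 + ε / 2) := by
      have e1 : D1 * (T / (2 * Real.pi)) * (2 * β * I1 * L + C12) ≤
          ((1 + 11 * ε1) * W) * (T / (2 * Real.pi)) * (2 * β * I1 * L + C12) := by gcongr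
      refine e1.trans ?_
      have e2 : (1 + 11 * ε1) * (2 * β * I1 * L + C12) ≤ L * (2 * β * I1 + ε / 2) := by
        have e3 : 11 * ε1 * C12 ≤ 11 * C12 := by
          have := mul_le_mul_of_nonneg_right hε1le hC12n
          linarith
        have e4 := mul_le_mul_of_nonneg_right hε1b hL0p.le
        have e5 : (1 + 11 * ε1) * (2 * β * I1 * L + C12) =
          2 * β * I1 * L + (22 * ε1 * (β * I1) * L) + C12 + 11 * ε1 * C12 := by ring
        have e6 : L * (2 * β * I1 + ε / 2) = 2 * β * I1 * L + ε / 4 * L + ε / 4 * L := by ring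
        rw [e5, e6]
        linarith
      calc ((1 + 11 * ε1) * W) * (T / (2 * Real.pi)) * (2 * β * I1 * L + C12) =
          (W * (T / (2 * Real.pi))) * ((1 + 11 * ε1) * (2 * β * I1 * L + C12)) := by ring
        _ ≤ (W * (T / (2 * Real.pi))) * (L * (2 * β * I1 + ε / 2)) :=
          mul_le_mul_of_nonneg_left e2 (by positivity)
        _ = _ := by ring
    have g11 : T * L * W * (4 * R0 * C * C11 / (Real.sqrt Real.pi * β) * (10 * ε2)) ≤
        T / (2 * Real.pi) * L * W * (ε / 4) := by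
      calc _ ≤ T * L * W * (1 / (2 * Real.pi) * (ε / 4)) :=
            mul_le_mul_of_nonneg_left hε2b (by positivity)
        _ = _ := by ring
    calc _ ≤ T / (2 * Real.pi) * L * W * (2 * β * I1 + ε / 2) + T / (2 * Real.pi) * L * W * (ε / 4) :=
          add_le_add (g9.trans g10) g11
      _ = T / (2 * Real.pi) * L * W * (2 * β * I1 + ε) - T / (2 * Real.pi) * L * W * (ε / 4) := by ring
      _ ≤ _ := by
        have : 0 ≤ T / (2 * Real.pi) * L * W * (ε / 4) := by positivity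
        linarith

end H385
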