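import Pool.Agent.H385R2.NLA
import Pool.Agent.H385R2.FinB

open Complex Filter Topology Set MeasureTheory
open H370 (zset mult NN Nd Ns)

set_option maxHeartbeats 4000000

namespace H385

theorem Tl_nonneg (N : ℕ) (u : ℝ) : 0 ≤ Tl N u := by
  refine tsum_nonneg (fun n => ?_)
  split_ifs
  · exact mul_nonneg (div_nonneg ArithmeticFunction.vonMangoldt_nonneg (Real.sqrt_nonneg _))
      (Real.exp_pos _).le
  · exact le_rfl

/-- the tail is `≤ 1` -/
theorem Tl_le_one (β ε1 : ℝ) (hβ : 0 < β) (hβ2 : β < 2) (hε1 : 0 < ε1) (hε1' : ε1 ≤ 1) :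
    ∀ᶠ L : ℝ in atTop, ∀ (X : ℕ) (u : ℝ), Real.log X = L → 0 ≤ u → u ≤ β * L →
      Tl ⌊ε1 / 8 * (X : ℝ) ^ 2⌋₊ u ≤ 1 := by
  obtain ⟨C8, hC8, h8⟩ := lam_tail
  set c : ℝ := ((2 - β) / 2) ^ 2 / 8 with hc
  have hc0 : 0 < c := by
    have : 0 < (2 - β) / 2 := by linarith
    positivity
  filter_upwards [eventually_ge_atTop 1, lin_ev (-Real.log (ε1 / 16)) (1 - β / 2) (by linarith),
    lin_ev (β / 2 + |Real.log C8|) c hc0, lin_ev (-Real.log (ε1 / 16)) 2 (by norm_num)] with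
    L a1 a2 a3 a4
  intro X u hX hu hu2
  have hXpos : (0 : ℝ) < X := by
    rcases Nat.eq_zero_or_pos X with h | h
    · rw [h] at hX; simp at hX; linarith
    · exact_mod_cast h
  have hXe : (X : ℝ) = Real.exp L := by rw [← hX, Real.exp_log hXpos]
  have hX2 : ε1 / 16 * (X : ℝ) ^ 2 ≥ 1 := by
    have : (X : ℝ) ^ 2 = Real.exp (2 * L) := by rw [hXe, ← Real.exp_nat_mul]; norm_num
    rw [this]
    have h2 : ε1 / 16 * Real.exp (2 * L) = Real.exp (Real.log (ε1 / 16) + 2 * L) := by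
      rw [Real.exp_add, Real.exp_log (by positivity)]
    rw [h2]
    exact Real.one_le_exp (by linarith)
  have hN : ε1 / 16 * (X : ℝ) ^ 2 ≤ (⌊ε1 / 8 * (X : ℝ) ^ 2⌋₊ : ℝ) := by
    have := Nat.lt_floor_add_one (ε1 / 8 * (X : ℝ) ^ 2)
    linarith
  have hNlog : 2 * L + Real.log (ε1 / 16) ≤ Real.log (⌊ε1 / 8 * (X : ℝ) ^ 2⌋₊ : ℝ) := by
    have h1 := Real.log_le_log (by positivity) hN
    rw [Real.log_mul (by positivity) (by positivity), Real.log_pow, hX] at h1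
    push_cast at h1
    linarith
  have hG : 0 ≤ (2 - β) / 2 * L := mul_nonneg (by linarith) (by linarith)
  have h9 := h8 u ((2 - β) / 2 * L) ⌊ε1 / 8 * (X : ℝ) ^ 2⌋₊ hu hG (by linarith)
  refine le_trans h9 ?_
  have h10 : C8 = Real.exp (Real.log C8) := (Real.exp_log hC8).symm
  rw [h10, ← Real.exp_add, ← Real.exp_zero]
  refine Real.exp_le_exp.mpr ?_
  have h11 : ((2 - β) / 2 * L) ^ 2 / 8 = c * L * L := by rw [hc]; ring
  have h12 : (β / 2 + |Real.log C8|) * L ≤ c * L * L := mul_le_mul_of_nonneg_right a3 (by linarith)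
  have h13 : Real.log C8 ≤ |Real.log C8| * L := by
    exact NL.c2 a1
  linarith

end H385
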