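import Pool.Agent.H385R2.Defs5

open Complex Filter Topology Set MeasureTheory

namespace H385.LG

/-- `(α + β v + γ v²) exp(a z - v²/2 + i t v)`, `v = u - z` -/
noncomputable def H (u t a : ℝ) (α β γ : ℂ) (z : ℝ) : ℂ :=
  (α + β * (u - z) + γ * (u - z) ^ 2) * cexp (a * z - (u - z) ^ 2 / 2 + I * t * (u - z))

noncomputable def G (u t a : ℝ) (α β γ : ℂ) (y : ℝ) : ℂ :=
  if 0 < y then H u t a α β γ (Real.log y) else 0

lemma norm_H (u t a : ℝ) (α β γ : ℂ) (z : ℝ) :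
    ‖H u t a α β γ z‖ = ‖(α + β * (u - z) + γ * (u - z) ^ 2 : ℂ)‖ *
      Real.exp (a * z - (u - z) ^ 2 / 2) := by
  unfold H
  rw [norm_mul, Complex.norm_exp]
  congr 2
  have : (a * z - (u - z) ^ 2 / 2 + I * t * (u - z) : ℂ) =
      ((a * z - (u - z) ^ 2 / 2 : ℝ) : ℂ) + I * ((t * (u - z) : ℝ) : ℂ) := by
    push_cast; ring
  rw [this]
  simp only [add_re, ofReal_re, mul_re, I_re, ofReal_im, I_im]
  ring

lemma H_shift (u t a b : ℝ) (α β γ : ℂ) (z : ℝ) :
    H u t (a + b) α β γ z = cexp (b * z) * H u t a α β γ z := by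
  unfold H
  rw [mul_left_comm, ← Complex.exp_add]
  congr 2
  push_cast
  ring

lemma norm_H_le (u t a : ℝ) (α β γ : ℂ) (z : ℝ) :
    ‖H u t a α β γ z‖ ≤ (‖α‖ + ‖β‖ + 2 * ‖γ‖) * Real.exp (a * u + (|a| + 1) ^ 2) *
      Real.exp (-(1 / 4) * (z - u) ^ 2) := by
  rw [norm_H]
  set v := u - z with hv
  have hvc : (u - z : ℂ) = ((v : ℝ) : ℂ) := by rw [hv]; push_cast; ring
  have h1 : ‖(α + β * (u - z) + γ * (u - z) ^ 2 : ℂ)‖ ≤ (‖α‖ + ‖β‖ + 2 * ‖γ‖) * Real.exp |v| := by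
    rw [hvc]
    have e0 : 1 ≤ Real.exp |v| := Real.one_le_exp (abs_nonneg v)
    have e1 : |v| ≤ Real.exp |v| := by linarith [Real.add_one_le_exp |v|]
    have e2 : |v| ^ 2 ≤ 2 * Real.exp |v| := by
      have := Real.quadratic_le_exp_of_nonneg (abs_nonneg v)
      nlinarith [abs_nonneg v]
    calc ‖(α + β * (v : ℂ) + γ * (v : ℂ) ^ 2 : ℂ)‖ ≤ ‖α‖ + ‖β * (v : ℂ)‖ + ‖γ * (v : ℂ) ^ 2‖ :=
          norm_add₃_le
      _ = ‖α‖ + ‖β‖ * |v| + ‖γ‖ * |v| ^ 2 := by
          rw [norm_mul, norm_mul, norm_pow, Complex.norm_real, Real.norm_eq_abs]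
      _ ≤ ‖α‖ * Real.exp |v| + ‖β‖ * Real.exp |v| + ‖γ‖ * (2 * Real.exp |v|) := by
          gcongr
          exact le_mul_of_one_le_right (norm_nonneg _) e0
      _ = _ := by ring
  have h2 : a * z - v ^ 2 / 2 ≤ -|v| + (a * u + (|a| + 1) ^ 2) + (-(1 / 4) * (z - u) ^ 2) := by
    have hz : z = u - v := by rw [hv]; ring
    have hz2 : (z - u) ^ 2 = v ^ 2 := by rw [hz]; ring
    rw [hz2, hz]
    have h3 : -(a * v) ≤ |a| * |v| := by
      rw [← abs_mul]; exact neg_le_abs _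
    have h4 : (|a| + 1) * |v| ≤ (|a| + 1) ^ 2 + |v| ^ 2 / 4 := by nlinarith [sq_nonneg ((|a| + 1) - |v| / 2)]
    rw [sq_abs] at h4
    nlinarith
  calc ‖(α + β * (u - z) + γ * (u - z) ^ 2 : ℂ)‖ * Real.exp (a * z - v ^ 2 / 2)
      ≤ ((‖α‖ + ‖β‖ + 2 * ‖γ‖) * Real.exp |v|) *
        Real.exp (-|v| + (a * u + (|a| + 1) ^ 2) + (-(1 / 4) * (z - u) ^ 2)) :=
        mul_le_mul h1 (Real.exp_le_exp.2 h2) (Real.exp_pos _).le (by positivity)
    _ = _ := by
        rw [Real.exp_add, Real.exp_add, Real.exp_neg]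
        have : Real.exp |v| ≠ 0 := (Real.exp_pos _).ne'
        field_simp

lemma norm_H_le' (u t a : ℝ) (α β γ : ℂ) (z : ℝ) :
    ‖H u t a α β γ z‖ ≤ (‖α‖ + ‖β‖ + 2 * ‖γ‖) * Real.exp (a * u + (|a| + 1) ^ 2) := by
  refine (norm_H_le u t a α β γ z).trans ?_
  apply mul_le_of_le_one_right (by positivity)
  rw [Real.exp_le_one_iff]
  nlinarith [sq_nonneg (z - u)]

lemma H_deriv (u t a : ℝ) (α β : ℂ) (z : ℝ) :
    HasDerivAt (H u t a α β 0)
      (H u t a (a * α - β - I * t * α) (a * β + α - I * t * β) β z) z := by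
  have hz : HasDerivAt (fun z : ℝ => (z : ℂ)) 1 z := Complex.ofRealCLM.hasDerivAt
  have hv : HasDerivAt (fun z : ℝ => (u - z : ℂ)) (-1) z := by
    simpa using hz.const_sub (u : ℂ)
  have h1 : HasDerivAt (fun z : ℝ => (α + β * (u - z) + 0 * (u - z) ^ 2 : ℂ)) (-β) z := by
    have := (hv.const_mul β).const_add α
    simpa using this
  have h2 : HasDerivAt (fun z : ℝ => (a * z - (u - z) ^ 2 / 2 + I * t * (u - z) : ℂ))
      (a + (u - z) - I * t) z := by
    have := ((hz.const_mul (a : ℂ)).sub ((hv.pow 2).div_const 2)).add (hv.const_mul (I * t))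
    refine this.congr_deriv ?_
    push_cast
    ring
  have h3 := h1.mul h2.cexp
  unfold H
  refine h3.congr_deriv ?_
  ring

lemma H_cont (u t a : ℝ) (α β γ : ℂ) : Continuous (H u t a α β γ) := by
  unfold H
  fun_prop

lemma G_bound (u t a : ℝ) (α β γ : ℂ) (y : ℝ) :
    ‖G u t a α β γ y‖ ≤ (‖α‖ + ‖β‖ + 2 * ‖γ‖) * Real.exp ((a - 2) * u + (|a - 2| + 1) ^ 2) * y ^ 2 := by
  unfold G
  split_ifs with h
  · have e : a = (a - 2) + 2 := by ring
    have hs := H_shift u t (a - 2) 2 α β γ (Real.log y)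
    rw [← e] at hs
    rw [hs, norm_mul]
    have : ‖cexp ((2 : ℝ) * (Real.log y : ℝ))‖ = y ^ 2 := by
      rw [Complex.norm_exp]
      have : (((2 : ℝ) : ℂ) * ((Real.log y : ℝ) : ℂ)).re = Real.log y + Real.log y := by
        rw [← Complex.ofReal_mul, Complex.ofReal_re]; ring
      rw [this, Real.exp_add, Real.exp_log h, sq]
    rw [this, mul_comm]
    exact mul_le_mul_of_nonneg_right (norm_H_le' _ _ _ _ _ _ _) (by positivity)
  · simp only [norm_zero]
    positivity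

lemma G_cont (u t a : ℝ) (α β γ : ℂ) : Continuous (G u t a α β γ) := by
  rw [continuous_iff_continuousAt]
  intro y
  rcases lt_trichotomy y 0 with h | h | h
  · have : G u t a α β γ =ᶠ[𝓝 y] fun _ => 0 := by
      filter_upwards [Iio_mem_nhds h] with x hx
      unfold G
      rw [if_neg (not_lt.2 (le_of_lt hx))]
    exact (continuousAt_const).congr this.symm
  · subst h
    have h0 : G u t a α β γ 0 = 0 := by
      unfold G
      rw [if_neg (lt_irrefl 0)]
    unfold ContinuousAt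
    rw [h0]
    refine squeeze_zero_norm (G_bound u t a α β γ) ?_
    have : Tendsto (fun y : ℝ => (‖α‖ + ‖β‖ + 2 * ‖γ‖) *
        Real.exp ((a - 2) * u + (|a - 2| + 1) ^ 2) * y ^ 2) (𝓝 0)
        (𝓝 ((‖α‖ + ‖β‖ + 2 * ‖γ‖) *
        Real.exp ((a - 2) * u + (|a - 2| + 1) ^ 2) * 0 ^ 2)) := by
      apply Continuous.tendsto
      fun_prop
    simpa using this
  · have : G u t a α β γ =ᶠ[𝓝 y] fun x => H u t a α β γ (Real.log x) := by
      filter_upwards [Ioi_mem_nhds h] with x hx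
      unfold G
      rw [if_pos (mem_Ioi.1 hx)]
    refine ContinuousAt.congr ?_ this.symm
    exact ContinuousAt.comp (H_cont u t a α β γ).continuousAt (Real.continuousAt_log h.ne')

lemma G_deriv (u t a : ℝ) (α β : ℂ) (y : ℝ) :
    HasDerivAt (G u t a α β 0)
      (G u t (a - 1) (a * α - β - I * t * α) (a * β + α - I * t * β) β y) y := by
  rcases lt_trichotomy y 0 with h | h | h
  · have : G u t a α β 0 =ᶠ[𝓝 y] fun _ => 0 := by
      filter_upwards [Iio_mem_nhds h] with x hx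
      unfold G
      rw [if_neg (not_lt.2 (le_of_lt hx))]
    have e : G u t (a - 1) (a * α - β - I * t * α) (a * β + α - I * t * β) β y = 0 := by
      unfold G
      rw [if_neg (not_lt.2 (le_of_lt h))]
    rw [e]
    exact (hasDerivAt_const y (0 : ℂ)).congr_of_eventuallyEq this
  · subst h
    have e : G u t (a - 1) (a * α - β - I * t * α) (a * β + α - I * t * β) β 0 = 0 := by
      unfold G
      rw [if_neg (lt_irrefl 0)]
    rw [e]
    have hO : G u t a α β 0 =O[𝓝 0] fun x : ℝ => ‖x - 0‖ ^ 2 := by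
      refine Asymptotics.IsBigO.of_bound ((‖α‖ + ‖β‖ + 2 * ‖(0 : ℂ)‖) *
        Real.exp ((a - 2) * u + (|a - 2| + 1) ^ 2)) (Filter.Eventually.of_forall fun x => ?_)
      have := G_bound u t a α β 0 x
      simpa using this
    have h1 : HasFDerivAt (𝕜 := ℝ) (G u t a α β 0) (0 : ℝ →L[ℝ] ℂ) 0 :=
      hO.hasFDerivAt (n := 2) (by norm_num)
    have h2 := h1.hasDerivAt
    simpa using h2
  · have : G u t a α β 0 =ᶠ[𝓝 y] fun x => H u t a α β 0 (Real.log x) := by
      filter_upwards [Ioi_mem_nhds h] with x hx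
      unfold G
      rw [if_pos (mem_Ioi.1 hx)]
    refine HasDerivAt.congr_of_eventuallyEq ?_ this
    have h1 := (H_deriv u t a α β (Real.log y)).scomp y (Real.hasDerivAt_log h.ne')
    refine h1.congr_deriv ?_
    unfold G
    rw [if_pos h]
    have hs := H_shift u t (a - 1) 1 (a * α - β - I * t * α) (a * β + α - I * t * β) β (Real.log y)
    have ea : a - 1 + 1 = a := by ring
    rw [ea] at hs
    rw [hs]
    have : cexp (((1 : ℝ) : ℂ) * ((Real.log y : ℝ) : ℂ)) = (y : ℂ) := by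
      rw [Complex.ofReal_one, one_mul, ← Complex.ofReal_exp, Real.exp_log h]
    rw [this]
    have hy : (y : ℂ) ≠ 0 := by exact_mod_cast h.ne'
    simp only [Complex.real_smul]
    push_cast
    field_simp

lemma exp_image : Real.exp '' univ = Ioi 0 := by
  rw [image_univ, Real.range_exp]

lemma gauss_int (u : ℝ) : Integrable (fun z : ℝ => Real.exp (-(1 / 4) * (z - u) ^ 2)) :=
  (integrable_exp_neg_mul_sq (by norm_num : (0 : ℝ) < 1 / 4)).comp_sub_right u

lemma gauss_val (u : ℝ) : ∫ z : ℝ, Real.exp (-(1 / 4) * (z - u) ^ 2) = Real.sqrt (Real.pi / (1 / 4)) := by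
  rw [integral_sub_right_eq_self (fun z : ℝ => Real.exp (-(1 / 4) * z ^ 2)) u]
  exact integral_gaussian (1 / 4)

lemma H_int (u t a : ℝ) (α β γ : ℂ) : Integrable (H u t a α β γ) :=
  Integrable.mono' ((gauss_int u).const_mul _) (H_cont u t a α β γ).aestronglyMeasurable
    (Filter.Eventually.of_forall fun z => norm_H_le u t a α β γ z)

lemma exp_smul_G (u t a : ℝ) (α β γ : ℂ) (z : ℝ) :
    |Real.exp z| • G u t a α β γ (Real.exp z) = H u t (a + 1) α β γ z := by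
  unfold G
  rw [if_pos (Real.exp_pos z), Real.log_exp, H_shift, abs_of_pos (Real.exp_pos z),
    Complex.real_smul]
  simp

lemma G_intOn (u t a : ℝ) (α β γ : ℂ) : IntegrableOn (G u t a α β γ) (Ioi 0) := by
  rw [← exp_image, integrableOn_image_iff_integrableOn_abs_deriv_smul MeasurableSet.univ
    (fun x _ => (Real.hasDerivAt_exp x).hasDerivWithinAt) Real.exp_injective.injOn]
  simp only [exp_smul_G]
  exact (H_int u t (a + 1) α β γ).integrableOn

lemma G_int (u t a : ℝ) (α β γ : ℂ) : Integrable (G u t a α β γ) := by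
  rw [← integrableOn_iff_integrable_of_support_subset (s := Ioi 0)]
  · exact G_intOn u t a α β γ
  · intro x hx
    by_contra h
    apply hx
    unfold G
    rw [if_neg (fun h2 => h (mem_Ioi.2 h2))]

lemma G_norm_pow (u t a : ℝ) (α β γ : ℂ) (k : ℕ) (hk : k ≠ 0) :
    ∫ y, ‖G u t a α β γ y‖ ^ k = ∫ z, Real.exp z * ‖H u t a α β γ z‖ ^ k := by
  have h1 : ∫ y, ‖G u t a α β γ y‖ ^ k = ∫ y in Ioi 0, ‖G u t a α β γ y‖ ^ k := by
    symm
    apply setIntegral_eq_integral_of_forall_compl_eq_zero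
    intro x hx
    unfold G
    rw [if_neg (fun h2 => hx (mem_Ioi.2 h2))]
    simp [hk]
  rw [h1, ← exp_image, integral_image_eq_integral_abs_deriv_smul MeasurableSet.univ
    (fun x _ => (Real.hasDerivAt_exp x).hasDerivWithinAt) Real.exp_injective.injOn]
  rw [setIntegral_univ]
  refine integral_congr_ae (Filter.Eventually.of_forall fun z => ?_)
  simp only [smul_eq_mul, abs_of_pos (Real.exp_pos z)]
  unfold G
  rw [if_pos (Real.exp_pos z), Real.log_exp]

lemma fl_eq (u t : ℝ) : fl u t = G u t (-(1 / 2)) ((1 / Real.sqrt (2 * Real.pi) : ℝ) : ℂ) 0 0 := by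
  funext y
  unfold fl G
  split_ifs with h
  · unfold H
    have hs : (((Real.sqrt y)⁻¹ : ℝ) : ℂ) = cexp ((-(1 / 2) : ℝ) * (Real.log y : ℝ)) := by
      rw [← Complex.ofReal_mul, ← Complex.ofReal_exp]
      congr 1
      rw [Real.sqrt_eq_rpow, ← Real.rpow_neg h.le, Real.rpow_def_of_pos h]
      ring_nf
    rw [Complex.ofReal_mul, Complex.ofReal_mul, hs]
    rw [Complex.exp_add, sub_eq_add_neg (((-(1 / 2) : ℝ) : ℂ) * _), Complex.exp_add,
      Complex.ofReal_exp]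
    push_cast
    have e : (-((u : ℂ) - (Real.log y : ℂ)) ^ 2 / 2) = -(((u : ℂ) - (Real.log y : ℂ)) ^ 2 / 2) := by
      ring
    rw [e]
    ring
  · rfl

end H385.LG

namespace H385

theorem fl_C2I : ∃ C : ℝ, 0 < C ∧ ∀ u t : ℝ, ∃ f1 f2 : ℝ → ℂ, C2I (fl u t) f1 f2 ∧
    ∫ y : ℝ, ‖f2 y‖ ≤ C * (1 + |t|) ^ 2 * Real.exp (-(3 * u / 2)) := by
  set c : ℝ := 1 / Real.sqrt (2 * Real.pi) with hc
  have hc0 : 0 < c := by rw [hc]; positivity
  have hg0 : 0 < Real.sqrt (Real.pi / (1 / 4)) := by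
    have := Real.pi_pos
    positivity
  refine ⟨(8 * c) * Real.exp ((3 / 2 + 1) ^ 2) * Real.sqrt (Real.pi / (1 / 4)), by positivity, ?_⟩
  intro u t
  set s : ℂ := 1 / 2 + I * t with hs
  have hd1 : ∀ y, HasDerivAt (fl u t) (LG.G u t (-(3 / 2)) (-s * c) c 0 y) y := by
    intro y
    rw [LG.fl_eq]
    have := LG.G_deriv u t (-(1 / 2)) (c : ℂ) 0 y
    refine this.congr_deriv ?_
    rw [hs]
    congr 1
    · norm_num
    · push_cast; ring
    · ring
  have hd2 : ∀ y, HasDerivAt (LG.G u t (-(3 / 2)) (-s * c) c 0)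
      (LG.G u t (-(5 / 2)) ((s ^ 2 + s - 1) * c) (-(2 * s + 1) * c) c y) y := by
    intro y
    have := LG.G_deriv u t (-(3 / 2)) (-s * c) c y
    refine this.congr_deriv ?_
    rw [hs]
    congr 1
    · norm_num
    · push_cast; ring
    · push_cast; ring
  refine ⟨_, _, ⟨hd1, hd2, LG.G_cont _ _ _ _ _ _, ?_, LG.G_int _ _ _ _ _ _, LG.G_int _ _ _ _ _ _⟩, ?_⟩
  · rw [LG.fl_eq]
    exact LG.G_int _ _ _ _ _ _
  · have h1 := LG.G_norm_pow u t (-(5 / 2)) ((s ^ 2 + s - 1) * c) (-(2 * s + 1) * c) c 1 one_ne_zero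
    simp only [pow_one] at h1
    rw [h1]
    have h2 : ∀ z : ℝ, Real.exp z * ‖LG.H u t (-(5 / 2)) ((s ^ 2 + s - 1) * c) (-(2 * s + 1) * c) c z‖
        = ‖LG.H u t (-(3 / 2)) ((s ^ 2 + s - 1) * c) (-(2 * s + 1) * c) c z‖ := by
      intro z
      have hs := LG.H_shift u t (-(5 / 2)) 1 ((s ^ 2 + s - 1) * c) (-(2 * s + 1) * c) c z
      have e : (-(5 / 2) + 1 : ℝ) = -(3 / 2) := by norm_num
      rw [e] at hs
      rw [hs, norm_mul, Complex.norm_exp]
      simp
    simp only [h2]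
    have hT : 0 ≤ |t| := abs_nonneg t
    have hsn : ‖s‖ ≤ 1 + |t| := by
      rw [hs]
      refine (norm_add_le _ _).trans ?_
      rw [norm_mul, Complex.norm_I, Complex.norm_real, Real.norm_eq_abs, one_mul]
      have : ‖(1 / 2 : ℂ)‖ ≤ 1 := by norm_num
      linarith
    have hM : ‖(s ^ 2 + s - 1) * (c : ℂ)‖ + ‖-(2 * s + 1) * (c : ℂ)‖ + 2 * ‖(c : ℂ)‖ ≤
        (8 * c) * (1 + |t|) ^ 2 := by
      have hcn : ‖(c : ℂ)‖ = c := by rw [Complex.norm_real, Real.norm_eq_abs, abs_of_pos hc0]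
      rw [norm_mul, norm_mul, hcn]
      have a1 : ‖s ^ 2 + s - 1‖ ≤ (1 + |t|) ^ 2 + (1 + |t|) + 1 := by
        refine (norm_sub_le _ _).trans ?_
        refine add_le_add ((norm_add_le _ _).trans (add_le_add ?_ hsn)) (by simp)
        rw [norm_pow]
        exact pow_le_pow_left₀ (norm_nonneg _) hsn 2
      have a2 : ‖-(2 * s + 1)‖ ≤ 2 * (1 + |t|) + 1 := by
        rw [norm_neg]
        refine (norm_add_le _ _).trans ?_
        rw [norm_mul]
        norm_num
        linarith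
      nlinarith [mul_le_mul_of_nonneg_right a1 hc0.le, mul_le_mul_of_nonneg_right a2 hc0.le,
        mul_nonneg hT hc0.le, mul_nonneg (mul_nonneg hT hT) hc0.le]
    calc ∫ z, ‖LG.H u t (-(3 / 2)) ((s ^ 2 + s - 1) * c) (-(2 * s + 1) * c) c z‖
        ≤ ∫ z, (‖(s ^ 2 + s - 1) * (c : ℂ)‖ + ‖-(2 * s + 1) * (c : ℂ)‖ + 2 * ‖(c : ℂ)‖) *
          Real.exp (-(3 / 2) * u + (|-(3 / 2 : ℝ)| + 1) ^ 2) * Real.exp (-(1 / 4) * (z - u) ^ 2) := by
          refine integral_mono (LG.H_int _ _ _ _ _ _).norm ((LG.gauss_int u).const_mul _) ?_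
          intro z
          exact LG.norm_H_le _ _ _ _ _ _ _
      _ = (‖(s ^ 2 + s - 1) * (c : ℂ)‖ + ‖-(2 * s + 1) * (c : ℂ)‖ + 2 * ‖(c : ℂ)‖) *
          Real.exp (-(3 / 2) * u + (|-(3 / 2 : ℝ)| + 1) ^ 2) * Real.sqrt (Real.pi / (1 / 4)) := by
          rw [integral_const_mul, LG.gauss_val]
      _ ≤ ((8 * c) * (1 + |t|) ^ 2) *
          Real.exp (-(3 / 2) * u + (|-(3 / 2 : ℝ)| + 1) ^ 2) * Real.sqrt (Real.pi / (1 / 4)) := by
          gcongr
      _ = _ := by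
          rw [abs_neg, abs_of_pos (by norm_num : (0 : ℝ) < 3 / 2), Real.exp_add]
          have : -(3 / 2) * u = -(3 * u / 2) := by ring
          rw [this]
          ring

theorem fl_sq (u t : ℝ) : ∫ y : ℝ, ‖fl u t y‖ ^ 2 = 1 / (2 * Real.sqrt Real.pi) := by
  rw [LG.fl_eq, LG.G_norm_pow _ _ _ _ _ _ 2 two_ne_zero]
  have h : ∀ z : ℝ, Real.exp z * ‖LG.H u t (-(1 / 2)) ((1 / Real.sqrt (2 * Real.pi) : ℝ) : ℂ) 0 0 z‖ ^ 2
      = (1 / (2 * Real.pi)) * Real.exp (-1 * (z - u) ^ 2) := by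
    intro z
    rw [LG.norm_H]
    simp only [zero_mul, add_zero]
    rw [Complex.norm_real, Real.norm_eq_abs, mul_pow, sq_abs, div_pow, one_pow,
      Real.sq_sqrt (by positivity), ← Real.exp_nat_mul, mul_left_comm, ← Real.exp_add]
    congr 2
    push_cast
    ring
  simp only [h]
  rw [integral_const_mul, integral_sub_right_eq_self (fun z : ℝ => Real.exp (-1 * z ^ 2)) u,
    integral_gaussian]
  rw [div_one]
  have hp : 0 < Real.sqrt Real.pi := Real.sqrt_pos.2 Real.pi_pos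
  have h2 : Real.pi = Real.sqrt Real.pi * Real.sqrt Real.pi := (Real.mul_self_sqrt Real.pi_pos.le).symm
  rw [div_mul_eq_mul_div, one_mul, div_eq_div_iff (by positivity) (by positivity)]
  nlinarith

end H385
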