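import Pool.Agent.H385R2.Flat

/-!
TEAM Q, module S9 : additive parts of R4 and R6.
-/

set_option autoImplicit false

open Complex Filter Topology Set MeasureTheory

namespace H385

theorem farey_density_h (P : ℕ) (hsf : Squarefree P) : ∃ C : ℝ, 0 < C ∧
    ∀ (A B : ℕ) (V θ : ℝ), 1 ≤ A → A ≤ B → 1 ≤ V → V ≤ (A : ℝ) ^ 2 →
    ∑ q ∈ Finset.Ioc A B, (hP P q / (q : ℝ) ^ 2) *
      ∑' a : ℤ, (if Int.gcd a q = 1 then PK V (θ - a / q) else 0) ≤
    c0 * (∏ p ∈ P.primeFactors,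
        (((p : ℝ) + (p : ℝ) ^ 2 / ((p : ℝ) ^ 2 + p + 1)) / (p + 1))) * Real.log ((B : ℝ) / A) + C := by
  have hpr : ∀ T ∈ P.primeFactors.powerset, ∀ p ∈ T, p.Prime := by
    intro T hT p hp
    exact Nat.prime_of_mem_primeFactors (Finset.mem_powerset.mp hT hp)
  have hsf' : ∀ T ∈ P.primeFactors.powerset, Squarefree (∏ p ∈ T, p) := by
    intro T hT
    have h1 : (∏ p ∈ T, p) ∣ ∏ p ∈ P.primeFactors, p :=
      Finset.prod_dvd_prod_of_subset _ _ _ (Finset.mem_powerset.mp hT)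
    exact hsf.squarefree_of_dvd (h1.trans (Nat.prod_primeFactors_dvd P))
  have hex : ∀ T : Finset ℕ, ∃ C : ℝ, 0 < C ∧ (T ∈ P.primeFactors.powerset →
      ∀ (A B : ℕ) (V θ : ℝ), 1 ≤ A → A ≤ B → 1 ≤ V → V ≤ (A : ℝ) ^ 2 →
      ∑ q ∈ (Finset.Ioc A B).filter (fun q => Nat.Coprime q (∏ p ∈ T, p)), (1 / (q : ℝ) ^ 2) *
        ∑' a : ℤ, (if Int.gcd a q = 1 then PK V (θ - a / q) else 0) ≤
      c0 * (∏ p ∈ T, ((p : ℝ) / (p + 1))) * Real.log ((B : ℝ) / A) + C) := by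
    intro T
    by_cases hT : T ∈ P.primeFactors.powerset
    · obtain ⟨C, hC, h⟩ := farey_density_P (∏ p ∈ T, p) (hsf' T hT)
      refine ⟨C, hC, fun _ => ?_⟩
      rw [Nat.primeFactors_prod (hpr T hT)] at h
      exact h
    · exact ⟨1, one_pos, fun h => absurd h hT⟩
  choose Cf hCf hLS using hex
  set S := P.primeFactors with hS
  refine ⟨∑ T ∈ S.powerset, prb S T * Cf T + 1, ?_, ?_⟩
  · have : 0 ≤ ∑ T ∈ S.powerset, prb S T * Cf T :=
      Finset.sum_nonneg (fun T _ => mul_nonneg (prb_nonneg S T) (hCf T).le)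
    linarith
  intro A B V θ hA hAB hV hVA
  set F : ℕ → ℝ := fun q => ∑' a : ℤ, (if Int.gcd a q = 1 then PK V (θ - a / q) else 0) with hF
  have hL : ∑ q ∈ Finset.Ioc A B, (hP P q / (q : ℝ) ^ 2) * F q =
      ∑ T ∈ S.powerset, prb S T *
        ∑ q ∈ (Finset.Ioc A B).filter (fun q => Nat.Coprime q (∏ p ∈ T, p)),
          (1 / (q : ℝ) ^ 2) * F q := by
    simp_rw [Finset.sum_filter, Finset.mul_sum]
    rw [Finset.sum_comm]
    apply Finset.sum_congr rfl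
    intro q _
    rw [hP_eq, Finset.sum_div, Finset.sum_mul]
    apply Finset.sum_congr rfl
    intro T _
    by_cases h : Nat.Coprime q (∏ p ∈ T, p)
    · rw [if_pos h, if_pos h]; ring
    · rw [if_neg h, if_neg h]; ring
  rw [hL]
  have hsum : ∑ T ∈ S.powerset, prb S T *
        ∑ q ∈ (Finset.Ioc A B).filter (fun q => Nat.Coprime q (∏ p ∈ T, p)),
          (1 / (q : ℝ) ^ 2) * F q ≤
      ∑ T ∈ S.powerset, prb S T * (1 *
        (c0 * (∏ p ∈ T, ((p : ℝ) / (p + 1))) * Real.log ((B : ℝ) / A) + Cf T) * 1) := by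
    apply Finset.sum_le_sum
    intro T hT
    rw [one_mul, mul_one]
    exact mul_le_mul_of_nonneg_left (hLS T hT A B V θ hA hAB hV hVA) (prb_nonneg S T)
  refine hsum.trans ?_
  have hconst : ∏ p ∈ S, (((p : ℝ) + (p : ℝ) ^ 2 / ((p : ℝ) ^ 2 + p + 1)) / (p + 1)) =
      ∑ T ∈ S.powerset, prb S T * ∏ p ∈ T, ((p : ℝ) / (p + 1)) := by
    rw [prb_avg]
    apply Finset.prod_congr rfl
    intro p _
    unfold hp
    have : (p : ℝ) + 1 ≠ 0 := by positivity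
    field_simp
    ring
  rw [hconst, sum_lin]
  linarith

open Flat in
theorem flat_add (P : ℕ) (hsf : Squarefree P) (X Y N : ℕ) (b : ℕ → ℂ) (hX : 1 ≤ X) (hXY : X ≤ Y)
    (hb : ∀ n, ¬ Nat.Coprime n P → b n = 0) (ε : ℝ) (hε : 0 < ε) (hε1 : ε ≤ 1) :
    (∏ p ∈ P.primeFactors, (1 - 1 / (p : ℝ) ^ 3)⁻¹) *
      primFam X Y (fun q χ => ‖∑ n ∈ Finset.Icc 1 N, b n * χ (n : ZMod q)‖ ^ 2) ≤
      (1 + ε) * ∑ q ∈ Finset.Ioc X (P * Y), (hP P q / (q : ℝ) ^ 2) *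
        ∑ c ∈ (Finset.range q).filter (fun c => Nat.Coprime c q), ‖SS N b ((c : ℝ) / q)‖ ^ 2
      + (2 / ε) * ∑ q ∈ Finset.Ioc X (P * Y), (1 / (q : ℝ)) *
        (∑ n ∈ (Finset.Icc 1 N).filter (fun n => ¬ Nat.Coprime n q), ‖b n‖) ^ 2 := by
  have hX0 : (0 : ℝ) < X := by exact_mod_cast hX
  have hKeq : ∏ p ∈ P.primeFactors, (1 - 1 / (p : ℝ) ^ 3)⁻¹ = ∏ p ∈ P.primeFactors, kp p := by
    apply Finset.prod_congr rfl
    intro p hp'
    have hpp := Nat.prime_of_mem_primeFactors hp'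
    have h2 : (2 : ℝ) ≤ p := by exact_mod_cast hpp.two_le
    have h6 : (p : ℝ) ≠ 0 := by linarith
    unfold kp
    rw [one_sub_div (pow_ne_zero 3 h6), inv_div]
  rw [hKeq]
  set K : ℝ := ∏ p ∈ P.primeFactors, kp p with hK
  set E : ℝ := ∑ q ∈ Finset.Ioc X (P * Y), (1 / (q : ℝ)) * EB N b q ^ 2 with hE
  -- step 2
  have h2 : K * primFam X Y (fun q χ => ‖∑ n ∈ Finset.Icc 1 N, b n * χ (n : ZMod q)‖ ^ 2) ≤
      ∑ q ∈ Finset.Ioc X Y, ∑ T ∈ (P.primeFactors.filter (fun p => ¬ p ∣ q)).powerset,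
        ff P N b (q * pr T) T := by
    have h21 : primFam X Y (fun q χ => ‖∑ n ∈ Finset.Icc 1 N, b n * χ (n : ZMod q)‖ ^ 2) =
        ∑ q ∈ Finset.Ioc X Y, (1 / (q : ℝ) ^ 2) * PS N b q := rfl
    rw [h21, Finset.mul_sum]
    apply Finset.sum_le_sum
    intro q hq
    rw [Finset.mem_Ioc] at hq
    have h22 := mul_le_mul_of_nonneg_right (weight P q (by omega)) (PS_nonneg N b q)
    calc K * ((1 / (q : ℝ) ^ 2) * PS N b q) = (1 / (q : ℝ) ^ 2) * K * PS N b q := by ring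
      _ ≤ _ := h22
      _ = _ := by
        rw [Finset.sum_mul]
        apply Finset.sum_congr rfl
        intro T hT
        rw [Finset.mem_powerset] at hT
        have hTP : T ⊆ P.primeFactors := hT.trans (Finset.filter_subset _ _)
        unfold ff
        rw [Nat.mul_div_cancel q (pr_pos hTP)]
        ring
  have h3 := h2.trans (reindex P hsf X Y N b)
  have h4 : ∑ q' ∈ Finset.Ioc X (P * Y), ∑ T ∈ UT P q', ff P N b q' T ≤
      (1 + ε) * ∑ q ∈ Finset.Ioc X (P * Y), (hP P q / (q : ℝ) ^ 2) *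
        ∑ b' ∈ (Finset.range q).filter (fun b => Nat.Coprime b q), ‖SS N b ((b' : ℝ) / q)‖ ^ 2
      + (2 / ε) * E := by
    rw [hE, Finset.mul_sum, Finset.mul_sum, ← Finset.sum_add_distrib]
    apply Finset.sum_le_sum
    intro q' hq'
    rw [Finset.mem_Ioc] at hq'
    have hq1 : 1 ≤ q' := by omega
    have hq0 : (0 : ℝ) < q' := by exact_mod_cast hq1
    have hh0 := hP_nonneg P q'
    have hh1 := hP_le_one P q'
    have h41 : 0 ≤ hP P q' / (q' : ℝ) ^ 2 := by positivity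
    unfold ff
    rw [← Finset.mul_sum]
    refine (mul_le_mul_of_nonneg_left (lemC P hsf q' hq1 N b hb ε hε hε1) h41).trans ?_
    rw [mul_add]
    have h42 : hP P q' / (q' : ℝ) ^ 2 * (2 / ε * (Nat.totient q' : ℝ) * EB N b q' ^ 2) ≤
        2 / ε * (1 / (q' : ℝ) * EB N b q' ^ 2) := by
      have h43 : hP P q' / (q' : ℝ) ^ 2 * (Nat.totient q' : ℝ) ≤ 1 / (q' : ℝ) := by
        have h44 : (Nat.totient q' : ℝ) ≤ q' := by exact_mod_cast Nat.totient_le q'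
        have h45 : hP P q' * (Nat.totient q' : ℝ) ≤ 1 * q' :=
          mul_le_mul hh1 h44 (Nat.cast_nonneg _) zero_le_one
        rw [div_mul_eq_mul_div, div_le_div_iff₀ (by positivity) hq0]
        nlinarith
      have h46 : 0 ≤ 2 / ε * EB N b q' ^ 2 := by positivity
      have := mul_le_mul_of_nonneg_right h43 h46
      nlinarith [this]
    nlinarith [h42]
  exact h3.trans h4

end H385
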