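import Pool.Agent.H385R2.Plateau
import Pool.Agent.H385R2.FLS
import Pool.Agent.H385R2.DualM

/-!
TEAM Q, module S3: large sieve for the Farey measure plus plateau.
-/

open Complex Filter Topology Set MeasureTheory

namespace H385


lemma pls_finite (R : ℕ) (w : ℝ) (hR : 1 ≤ R) : volume (PL R w) < ⊤ := by
  have : PL R w ⊆ Set.Icc (-w) (1 + w) := by
    intro y hy
    have h := pl_bounds hy
    have hR0 : (0 : ℝ) < R := by exact_mod_cast hR
    have : 0 < 1 / (R : ℝ) := by positivity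
    exact ⟨h.1, by linarith [h.2]⟩
  exact (measure_mono this).trans_lt measure_Icc_lt_top

/-- the discrete part -/
noncomputable def nuD (A B : ℕ) (c : ℕ → ℝ) : Measure ℝ :=
  ∑ q ∈ Finset.Ioc A B, ∑ b ∈ (Finset.range q).filter (fun b => Nat.Coprime b q),
    ENNReal.ofReal (c q / (q : ℝ) ^ 2) • Measure.dirac ((b : ℝ) / q)

instance (A B : ℕ) (c : ℕ → ℝ) : IsFiniteMeasure (nuD A B c) := by
  unfold nuD
  constructor
  rw [Measure.finsetSum_apply]
  apply ENNReal.sum_lt_top.mpr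
  intro q _
  rw [Measure.finsetSum_apply]
  apply ENNReal.sum_lt_top.mpr
  intro b _
  rw [Measure.smul_apply, smul_eq_mul, measure_univ, mul_one]
  exact ENNReal.ofReal_lt_top

lemma nuD_integral (A B : ℕ) (c : ℕ → ℝ) (hc : ∀ q, 0 ≤ c q) (h : ℝ → ℝ)
    (hi : Integrable h (nuD A B c)) : ∫ y, h y ∂(nuD A B c) =
    ∑ q ∈ Finset.Ioc A B, (c q / (q : ℝ) ^ 2) *
      ∑ b ∈ (Finset.range q).filter (fun b => Nat.Coprime b q), h ((b : ℝ) / q) := by
  unfold nuD at *
  have hint : ∀ q ∈ Finset.Ioc A B, Integrable h (∑ b ∈ (Finset.range q).filter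
      (fun b => Nat.Coprime b q), ENNReal.ofReal (c q / (q : ℝ) ^ 2) •
        Measure.dirac ((b : ℝ) / q)) := by
    intro q hq
    exact (integrable_finsetSum_measure.mp hi) q hq
  rw [integral_finsetSum_measure hint]
  apply Finset.sum_congr rfl
  intro q hq
  rw [integral_finsetSum_measure (integrable_finsetSum_measure.mp (hint q hq)), Finset.mul_sum]
  apply Finset.sum_congr rfl
  intro b _
  rw [integral_smul_measure, integral_dirac, smul_eq_mul, ENNReal.toReal_ofReal]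
  exact div_nonneg (hc q) (by positivity)

theorem plateau_ls (A B R N : ℕ) (V w ε Δ : ℝ) (c : ℕ → ℝ) (hc : ∀ q, 0 ≤ c q) (hA : 1 ≤ A)
    (hAB : A ≤ B)
    (hR : 1 ≤ R) (hV : 1 ≤ V) (hVA : V ≤ (A : ℝ) ^ 2) (hε : 0 < ε) (hε1 : ε ≤ 1) (hw : 0 < w)
    (h1 : 4 * R * B ≤ ε * V) (h2 : 4 * w * R * B ≤ 1) (h3 : 16 ≤ ε * V * w) (hΔ : 0 ≤ Δ)
    (hD : ∀ V' θ : ℝ, 1 ≤ V' → V' ≤ (A : ℝ) ^ 2 → ∑ q ∈ Finset.Ioc A B, (c q / (q : ℝ) ^ 2) *
      ∑' a : ℤ, (if Int.gcd a q = 1 then PK V' (θ - a / q) else 0) ≤ Δ) (a : ℕ → ℂ) :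
    ∑ q ∈ Finset.Ioc A B, (c q / (q : ℝ) ^ 2) *
      ∑ b ∈ (Finset.range q).filter (fun b => Nat.Coprime b q), ‖SS N a ((b : ℝ) / q)‖ ^ 2
      + Δ * ∫ y in PL R w, ‖SS N a y‖ ^ 2 ≤
    (1 + ε) * Real.exp (Real.pi * N / V) * Δ * ∑ n ∈ Finset.Icc 1 N, ‖a n‖ ^ 2 := by
  have hV0 : 0 < V := by linarith
  haveI : IsFiniteMeasure (volume.restrict (PL R w)) :=
    ⟨by rw [Measure.restrict_apply_univ]; exact pls_finite R w hR⟩
  set ν2 : Measure ℝ := ENNReal.ofReal Δ • volume.restrict (PL R w) with hν2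
  haveI : IsFiniteMeasure ν2 := by
    rw [hν2]
    constructor
    rw [Measure.smul_apply, smul_eq_mul]
    exact ENNReal.mul_lt_top ENNReal.ofReal_lt_top (measure_lt_top _ _)
  have hν2int : ∀ h : ℝ → ℝ, ∫ y, h y ∂ν2 = Δ * ∫ y in PL R w, h y := by
    intro h
    rw [hν2, integral_smul_measure, smul_eq_mul, ENNReal.toReal_ofReal hΔ]
  set ν : Measure ℝ := nuD A B c + ν2 with hν
  have hdens : ∀ φ : ℝ, ∫ y, (∑' m : ℤ, PK V (φ - y + m)) ∂ν ≤ (1 + ε) * Δ := by
    intro φ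
    by_cases hi : Integrable (fun y => ∑' m : ℤ, PK V (φ - y + m)) ν
    swap
    · rw [integral_undef hi]; positivity
    rw [hν] at hi
    have hi1 := hi.left_of_add_measure
    have hi2 := hi.right_of_add_measure
    rw [hν, integral_add_measure hi1 hi2, nuD_integral A B c hc _ hi1, hν2int]
    refine le_trans (le_of_eq ?_) (plateau A B R V w ε Δ c hc hA hAB hR hV hVA hε hε1 hw h1 h2 h3
      hΔ hD φ)
    congr 1
    apply Finset.sum_congr rfl
    intro q hq
    have hq0 : q ≠ 0 := by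
      rw [Finset.mem_Ioc] at hq; omega
    haveI : NeZero q := ⟨hq0⟩
    rw [fold q V φ hV0]
  have hmain := dual_large_sieve_meas ν V ((1 + ε) * Δ) hV0 (by positivity) hdens N a
  have hcont : Continuous (fun y => ‖SS N a y‖ ^ 2) := by
    have : Continuous (SS N a) := by
      unfold SS ee
      fun_prop
    exact this.norm.pow 2
  have hbd : ∀ y, ‖‖SS N a y‖ ^ 2‖ ≤ (∑ n ∈ Finset.Icc 1 N, ‖a n‖) ^ 2 := by
    intro y
    rw [Real.norm_eq_abs, abs_of_nonneg (sq_nonneg _)]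
    apply pow_le_pow_left₀ (norm_nonneg _)
    unfold SS
    refine (norm_sum_le _ _).trans (Finset.sum_le_sum fun n _ => ?_)
    rw [norm_mul]
    have : ‖ee (n * y)‖ = 1 := by
      unfold ee
      rw [Complex.norm_exp]
      simp
    rw [this, mul_one]
  have hi : Integrable (fun y => ‖SS N a y‖ ^ 2) ν :=
    Integrable.of_bound hcont.aestronglyMeasurable _ (Filter.Eventually.of_forall hbd)
  rw [hν] at hi hmain
  rw [integral_add_measure hi.left_of_add_measure hi.right_of_add_measure,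
    nuD_integral A B c hc _ hi.left_of_add_measure, hν2int] at hmain
  refine hmain.trans (le_of_eq ?_)
  ring

end H385
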