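import Pool.Agent.H385R2.Defs5
import Mathlib.Analysis.Fourier.Inversion

open Complex Filter Topology Set MeasureTheory
open scoped FourierTransform

namespace H385.FT

lemma Fh_eq (f : ℝ → ℂ) (η : ℝ) : Fh f η = 𝓕⁻ f η := by
  rw [Real.fourierInv_eq']
  unfold Fh
  refine integral_congr_ae (Filter.Eventually.of_forall fun x => ?_)
  simp only [ee, smul_eq_mul]
  rw [mul_comm]
  congr 2
  have : (inner ℝ x η : ℝ) = x * η := by
    simp [mul_comm]
  rw [this]
  push_cast
  ring

lemma Fh_eq_neg (f : ℝ → ℂ) (η : ℝ) : Fh f η = 𝓕 f (-η) := by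
  rw [Fh_eq, Real.fourierInv_eq_fourier_neg]

lemma four_d2 {f f1 f2 : ℝ → ℂ} (hf : C2I f f1 f2) (x : ℝ) :
    𝓕 f2 x = (2 * Real.pi * I * x) ^ 2 * 𝓕 f x := by
  have e1 : deriv f = f1 := funext fun x => (hf.d1 x).deriv
  have e2 : deriv f1 = f2 := funext fun x => (hf.d2 x).deriv
  have h1 := Real.fourier_deriv hf.i0 (fun x => (hf.d1 x).differentiableAt) (by rw [e1]; exact hf.i1)
  have h2 := Real.fourier_deriv hf.i1 (fun x => (hf.d2 x).differentiableAt) (by rw [e2]; exact hf.i2)
  rw [e1] at h1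
  rw [e2] at h2
  rw [h2, h1]
  simp only [smul_eq_mul]
  ring

lemma norm_four_le (f : ℝ → ℂ) (x : ℝ) : ‖𝓕 f x‖ ≤ ∫ y, ‖f y‖ := by
  exact VectorFourier.norm_fourierIntegral_le_integral_norm _ _ _ _ _

lemma four_decay {f f1 f2 : ℝ → ℂ} (hf : C2I f f1 f2) (x : ℝ) :
    x ^ 2 * ‖𝓕 f x‖ ≤ (∫ y, ‖f2 y‖) / (4 * Real.pi ^ 2) := by
  have h := norm_four_le f2 x
  rw [four_d2 hf x, norm_mul, norm_pow] at h
  have h3 : ‖(2 * Real.pi * I * x : ℂ)‖ ^ 2 = 4 * Real.pi ^ 2 * x ^ 2 := by
    simp only [norm_mul, Complex.norm_I, Complex.norm_real, Complex.norm_ofNat, mul_one]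
    rw [mul_pow, mul_pow]
    simp only [Real.norm_eq_abs, sq_abs]
    ring
  rw [h3] at h
  rw [le_div_iff₀ (by positivity)]
  linarith

lemma four_cont {f : ℝ → ℂ} (hf : Integrable f) : Continuous (𝓕 f) :=
  VectorFourier.fourierIntegral_continuous Real.continuous_fourierChar
    (innerSL ℝ).continuous₂ hf

lemma four_int {f f1 f2 : ℝ → ℂ} (hf : C2I f f1 f2) : Integrable (𝓕 f) := by
  have hc := four_cont hf.i0
  set C := (∫ y, ‖f y‖) + (∫ y, ‖f2 y‖) / (4 * Real.pi ^ 2) with hC
  have hb : ∀ x, ‖𝓕 f x‖ ≤ C * (1 + x ^ 2)⁻¹ := by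
    intro x
    have h1 := norm_four_le f x
    have h2 := four_decay hf x
    rw [← div_eq_mul_inv, le_div_iff₀ (by positivity)]
    nlinarith
  exact Integrable.mono' (integrable_inv_one_add_sq.const_mul C) hc.aestronglyMeasurable
    (Filter.Eventually.of_forall hb)

lemma plancherel {f f1 f2 : ℝ → ℂ} (hf : C2I f f1 f2) :
    ∫ x, ‖𝓕 f x‖ ^ 2 = ∫ x, ‖f x‖ ^ 2 := by
  have hcf : Continuous f := continuous_iff_continuousAt.2 fun x => (hf.d1 x).continuousAt
  have hinv : 𝓕⁻ (𝓕 f) = f := hcf.fourierInv_fourier_eq hf.i0 (four_int hf)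
  have hg : Integrable (fun x => (starRingEnd ℂ) (𝓕 f x)) :=
    (Complex.conjLIE.integrable_comp_iff (φ := 𝓕 f)).2 (four_int hf)
  have key := VectorFourier.integral_fourierIntegral_smul_eq_flip (μ := volume) (ν := volume)
    (L := innerₗ ℝ) Real.continuous_fourierChar continuous_inner hf.i0 hg
  have e1 : ∀ x, VectorFourier.fourierIntegral Real.fourierChar volume (innerₗ ℝ).flip
      (fun x => (starRingEnd ℂ) (𝓕 f x)) x = (starRingEnd ℂ) (f x) := by
    intro x
    rw [← congrFun hinv x, Real.fourierInv_eq, ← integral_conj]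
    unfold VectorFourier.fourierIntegral
    refine integral_congr_ae (Filter.Eventually.of_forall fun y => ?_)
    simp only [Circle.smul_def, smul_eq_mul, map_mul, AddChar.map_neg_eq_inv]
    congr 1
    rw [Circle.coe_inv_eq_conj]
    simp [real_inner_comm]
  have key2 : ∫ x, 𝓕 f x * (starRingEnd ℂ) (𝓕 f x) = ∫ x, f x * (starRingEnd ℂ) (f x) := by
    have h3 : ∫ x : ℝ, f x • VectorFourier.fourierIntegral Real.fourierChar volume
        (innerₗ ℝ).flip (fun x => (starRingEnd ℂ) (𝓕 f x)) x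
        = ∫ x, f x * (starRingEnd ℂ) (f x) := by
      refine integral_congr_ae (Filter.Eventually.of_forall fun x => ?_)
      simp only [smul_eq_mul]
      rw [e1 x]
    rw [h3] at key
    exact key
  have e2 : ∀ z : ℂ, z * (starRingEnd ℂ) z = ((‖z‖ ^ 2 : ℝ) : ℂ) := by
    intro z
    rw [Complex.mul_conj, Complex.normSq_eq_norm_sq]
  simp only [e2] at key2
  have k1 : ∫ x, ((‖𝓕 f x‖ ^ 2 : ℝ) : ℂ) = ((∫ x, ‖𝓕 f x‖ ^ 2 : ℝ) : ℂ) :=
    integral_complex_ofReal
  have k2 : ∫ x, ((‖f x‖ ^ 2 : ℝ) : ℂ) = ((∫ x, ‖f x‖ ^ 2 : ℝ) : ℂ) :=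
    integral_complex_ofReal
  rw [k1, k2] at key2
  exact_mod_cast key2

end H385.FT

namespace H385

theorem fourier_trunc (f f1 f2 : ℝ → ℂ) (hf : C2I f f1 f2) (w : ℝ) (hw : 0 < w) :
    Continuous (Fh f) ∧
    (∀ y : ℝ, ‖(∫ η in (-w)..w, Fh f η * ee (-(y * η))) - f y‖ ≤ (∫ x : ℝ, ‖f2 x‖) / w) ∧
    ∫ η in (-w)..w, ‖Fh f η‖ ^ 2 ≤ ∫ x : ℝ, ‖f x‖ ^ 2 := by
  have hFe : Fh f = fun η => 𝓕 f (-η) := funext fun η => FT.Fh_eq_neg f η
  have hcont : Continuous (Fh f) := by
    rw [hFe]
    exact (FT.four_cont hf.i0).comp continuous_neg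
  have hint : Integrable (Fh f) := by
    rw [hFe]
    exact (FT.four_int hf).comp_neg
  refine ⟨hcont, ?_, ?_⟩
  · intro y
    have hcf : Continuous f := continuous_iff_continuousAt.2 fun x => (hf.d1 x).continuousAt
    have hinv : 𝓕⁻ (𝓕 f) = f := hcf.fourierInv_fourier_eq hf.i0 (FT.four_int hf)
    have hfy : f y = ∫ η, Fh f η * ee (-(y * η)) := by
      rw [← congrFun hinv y, Real.fourierInv_eq']
      rw [← integral_neg_eq_self]
      refine integral_congr_ae (Filter.Eventually.of_forall fun η => ?_)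
      simp only [hFe, ee, smul_eq_mul]
      rw [mul_comm]
      congr 2
      have : (inner ℝ (-η) y : ℝ) = -(y * η) := by
        simp [mul_comm]
      rw [this]
      push_cast
      ring
    have hG : Integrable (fun η => Fh f η * ee (-(y * η))) := by
      have hn : ∀ η, ‖Fh f η * ee (-(y * η))‖ = ‖Fh f η‖ := by
        intro η
        rw [norm_mul]
        have : ‖ee (-(y * η))‖ = 1 := by
          unfold ee
          rw [Complex.norm_exp]
          simp
        rw [this, mul_one]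
      refine Integrable.mono' hint.norm ?_ (Filter.Eventually.of_forall fun η => (hn η).le)
      refine (hcont.mul ?_).aestronglyMeasurable
      unfold ee
      fun_prop
    have hw' : -w ≤ w := by linarith
    rw [hfy, intervalIntegral.integral_of_le hw']
    have hsplit := integral_add_compl (s := Ioc (-w) w) measurableSet_Ioc hG
    rw [← hsplit, sub_add_cancel_left, norm_neg]
    set J := ∫ x, ‖f2 x‖ with hJ
    have hJ0 : 0 ≤ J := integral_nonneg fun x => norm_nonneg _
    have hb : ∀ η, η ∈ (Ioc (-w) w)ᶜ → ‖Fh f η * ee (-(y * η))‖ ≤ J / (4 * Real.pi ^ 2) * (|η| ^ 2)⁻¹ := by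
      intro η hη
      have hn : ‖Fh f η * ee (-(y * η))‖ = ‖Fh f η‖ := by
        rw [norm_mul]
        have : ‖ee (-(y * η))‖ = 1 := by
          unfold ee
          rw [Complex.norm_exp]
          simp
        rw [this, mul_one]
      rw [hn, FT.Fh_eq_neg]
      have h1 := FT.four_decay hf (-η)
      have hη0 : η ≠ 0 := by
        rintro rfl
        exact hη ⟨by linarith, hw.le⟩
      have h2 : 0 < |η| ^ 2 := by positivity
      rw [← div_eq_mul_inv, le_div_iff₀ h2, sq_abs]
      rw [neg_sq] at h1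
      linarith
    have hsub : (Ioc (-w) w)ᶜ ⊆ Iic (-w) ∪ Ioi w := by
      intro x hx
      by_cases h : x ≤ -w
      · exact Or.inl h
      · refine Or.inr ?_
        by_contra h2
        exact hx ⟨not_le.1 h, not_lt.1 h2⟩
    have hI2 : IntegrableOn (fun η : ℝ => (|η| ^ 2)⁻¹) (Ioi w) := by
      have := integrableOn_Ioi_rpow_of_lt (a := -2) (by norm_num) hw
      refine this.congr_fun (fun x hx => ?_) measurableSet_Ioi
      simp only [sq_abs]
      rw [Real.rpow_neg (le_of_lt (lt_trans hw hx))]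
      norm_num
    have hv2 : ∫ η in Ioi w, (|η| ^ 2)⁻¹ = w⁻¹ := by
      have := integral_Ioi_rpow_of_lt (a := -2) (by norm_num) hw
      have e : ∫ η in Ioi w, (|η| ^ 2)⁻¹ = ∫ t in Ioi w, t ^ (-2 : ℝ) := by
        refine setIntegral_congr_fun measurableSet_Ioi (fun x hx => ?_)
        simp only [sq_abs]
        rw [Real.rpow_neg (le_of_lt (lt_trans hw hx))]
        norm_num
      rw [e, this]
      norm_num
      rw [Real.rpow_neg_one]
    have hI1 : IntegrableOn (fun η : ℝ => (|η| ^ 2)⁻¹) (Iic (-w)) := by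
      have h := hI2
      rw [← integrableOn_Ici_iff_integrableOn_Ioi] at h
      have h4 : IntegrableOn (fun η : ℝ => (|η| ^ 2)⁻¹) (Ici (-(-w))) := by
        rw [neg_neg]; exact h
      have h3 := h4.comp_neg_Iic
      simpa using h3
    have hv1 : ∫ η in Iic (-w), (|η| ^ 2)⁻¹ = w⁻¹ := by
      rw [← hv2]
      have := integral_comp_neg_Iic (-w) (fun η : ℝ => (|η| ^ 2)⁻¹)
      simp only [abs_neg, neg_neg] at this
      exact this
    calc ‖∫ x in (Ioc (-w) w)ᶜ, Fh f x * ee (-(y * x))‖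
        ≤ ∫ x in (Ioc (-w) w)ᶜ, ‖Fh f x * ee (-(y * x))‖ := norm_integral_le_integral_norm _
      _ ≤ ∫ x in (Ioc (-w) w)ᶜ, J / (4 * Real.pi ^ 2) * (|x| ^ 2)⁻¹ := by
          refine setIntegral_mono_on hG.norm.integrableOn ?_ measurableSet_Ioc.compl hb
          exact ((hI1.union hI2).mono_set hsub).const_mul _
      _ ≤ ∫ x in Iic (-w) ∪ Ioi w, J / (4 * Real.pi ^ 2) * (|x| ^ 2)⁻¹ := by
          refine setIntegral_mono_set ((hI1.union hI2).const_mul _) ?_ hsub.eventuallyLE
          exact Filter.Eventually.of_forall fun x => by positivity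
      _ = J / (4 * Real.pi ^ 2) * w⁻¹ + J / (4 * Real.pi ^ 2) * w⁻¹ := by
          rw [setIntegral_union ?_ measurableSet_Ioi (hI1.const_mul _) (hI2.const_mul _)]
          · rw [integral_const_mul, integral_const_mul, hv1, hv2]
          · rw [Set.disjoint_left]
            intro x hx hx2
            simp only [mem_Iic] at hx
            simp only [mem_Ioi] at hx2
            linarith
      _ ≤ J / w := by
          have hpi : (1 : ℝ) ≤ Real.pi := by linarith [Real.pi_gt_three]
          have h1 : J / (4 * Real.pi ^ 2) ≤ J / 2 := by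
            apply div_le_div_of_nonneg_left hJ0 (by norm_num)
            nlinarith
          have h2 : 0 ≤ w⁻¹ := by positivity
          rw [div_eq_mul_inv J w]
          nlinarith [mul_le_mul_of_nonneg_right h1 h2]
  · have hp := FT.plancherel hf
    have hsq : Integrable (fun x => ‖Fh f x‖ ^ 2) := by
      obtain hB : ∀ x, ‖Fh f x‖ ≤ ∫ y, ‖f y‖ := fun x => by
        rw [FT.Fh_eq_neg]; exact FT.norm_four_le f _
      refine Integrable.mono' (hint.norm.const_mul (∫ y, ‖f y‖))
        (hcont.norm.pow 2).aestronglyMeasurable (Filter.Eventually.of_forall fun x => ?_)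
      rw [Real.norm_eq_abs, abs_of_nonneg (by positivity), sq]
      exact mul_le_mul_of_nonneg_right (hB x) (norm_nonneg _)
    have e : ∫ x, ‖Fh f x‖ ^ 2 = ∫ x, ‖f x‖ ^ 2 := by
      rw [← hp]
      simp only [FT.Fh_eq_neg]
      exact integral_neg_eq_self (fun x => ‖𝓕 f x‖ ^ 2) volume
    rw [← e, intervalIntegral.integral_of_le (by linarith)]
    exact setIntegral_le_integral hsq (Filter.Eventually.of_forall fun x => by positivity)

end H385
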