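import Pool.Agent.H385R2.Defs5

/-!
TEAM Q, task S4b: the weights `LR`, `WR` (Ramanujan sums at prime powers).
-/

open Finset

namespace H385

namespace LRaux

/-! ### lower bound for `LR` -/

lemma LR_term_nonneg (r : ℕ) :
    0 ≤ ((ArithmeticFunction.moebius r : ℤ) : ℝ) ^ 2 / (Nat.totient r : ℝ) := by positivity

/-- reciprocal sum over integers composed of primes of a squarefree `r` -/
lemma sum_factored (r : ℕ) (hr : Squarefree r) (T : Finset ℕ)
    (hT : ∀ n ∈ T, n ≠ 0 ∧ n.primeFactors = r.primeFactors) :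
    ∑ n ∈ T, (1 : ℝ) / n ≤ 1 / (Nat.totient r : ℝ) := by
  classical
  have hr0 : r ≠ 0 := hr.ne_zero
  -- the completely multiplicative function `1/n`
  let f : ℕ →* ℝ :=
    { toFun := fun n => (n : ℝ)⁻¹
      map_one' := by simp
      map_mul' := fun a b => by push_cast; rw [mul_inv] }
  have hf : ∀ {p : ℕ}, p.Prime → ‖f p‖ < 1 := by
    intro p hp
    have h1 : f p = (p : ℝ)⁻¹ := rfl
    rw [h1, Real.norm_eq_abs, abs_of_pos (by have := hp.pos; positivity)]
    exact inv_lt_one_of_one_lt₀ (by exact_mod_cast hp.one_lt)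
  have hsum := EulerProduct.summable_and_hasSum_factoredNumbers_prod_filter_prime_geometric
    (f := f) hf r.primeFactors
  obtain ⟨-, hs⟩ := hsum
  have hfilt : r.primeFactors.filter (fun p => p.Prime) = r.primeFactors := by
    apply filter_true_of_mem
    intro p hp; exact Nat.prime_of_mem_primeFactors hp
  rw [hfilt] at hs
  -- map `n = r m`
  have hdvd : ∀ n ∈ T, r ∣ n := by
    intro n hn
    have h1 : ∏ p ∈ r.primeFactors, p = r := Nat.prod_primeFactors_of_squarefree hr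
    rw [← h1, ← (hT n hn).2]
    exact Nat.prod_primeFactors_dvd n
  have hmem : ∀ n ∈ T, n / r ∈ Nat.factoredNumbers r.primeFactors := by
    intro n hn
    obtain ⟨m, hm⟩ := hdvd n hn
    have hn0 := (hT n hn).1
    have hm0 : m ≠ 0 := by rintro rfl; rw [mul_zero] at hm; exact hn0 hm
    have e : n / r = m := by rw [hm, Nat.mul_div_cancel_left _ (Nat.pos_of_ne_zero hr0)]
    rw [e, Nat.mem_factoredNumbers_iff_primeFactors_subset, ← (hT n hn).2]
    refine ⟨hm0, ?_⟩
    apply Nat.primeFactors_mono _ hn0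
    exact Dvd.intro_left r hm.symm
  set S : Finset (Nat.factoredNumbers r.primeFactors) :=
    T.attach.image (fun n => ⟨n.1 / r, hmem n.1 n.2⟩) with hS
  have hle : ∑ m ∈ S, f m ≤ ∏ p ∈ r.primeFactors, (1 - f p)⁻¹ := by
    apply sum_le_hasSum S _ hs
    intro m _
    change (0 : ℝ) ≤ ((m : ℕ) : ℝ)⁻¹
    positivity
  have hSsum : ∑ m ∈ S, f m = ∑ n ∈ T, ((n / r : ℕ) : ℝ)⁻¹ := by
    rw [hS, sum_image]
    · exact sum_attach T (fun n => ((n / r : ℕ) : ℝ)⁻¹)
    · intro a _ b _ hab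
      have h1 : a.1 / r = b.1 / r := congrArg Subtype.val hab
      have h2 : a.1 = b.1 := by
        rw [← Nat.mul_div_cancel' (hdvd a.1 a.2), ← Nat.mul_div_cancel' (hdvd b.1 b.2), h1]
      exact Subtype.ext h2
  rw [hSsum] at hle
  have hrr : (0 : ℝ) < r := by exact_mod_cast Nat.pos_of_ne_zero hr0
  have h1 : ∑ n ∈ T, (1 : ℝ) / n = (1 / r) * ∑ n ∈ T, ((n / r : ℕ) : ℝ)⁻¹ := by
    rw [mul_sum]
    apply sum_congr rfl
    intro n hn
    have hn0 : (n : ℝ) ≠ 0 := by exact_mod_cast (hT n hn).1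
    rw [Nat.cast_div (hdvd n hn) hrr.ne']
    field_simp
  have h2 : (Nat.totient r : ℝ) = r * ∏ p ∈ r.primeFactors, (1 - (p : ℝ)⁻¹) := by
    have h := Nat.totient_eq_mul_prod_factors r
    have : ((Nat.totient r : ℚ) : ℝ) = ((r * ∏ p ∈ r.primeFactors, (1 - (p : ℚ)⁻¹) : ℚ) : ℝ) := by
      rw [h]
    push_cast at this
    exact this
  rw [h1, h2]
  have h3 : ∏ p ∈ r.primeFactors, (1 - f p)⁻¹ = (∏ p ∈ r.primeFactors, (1 - (p : ℝ)⁻¹))⁻¹ := by
    rw [← prod_inv_distrib]; rfl
  rw [h3] at hle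
  calc (1 / (r : ℝ)) * ∑ n ∈ T, ((n / r : ℕ) : ℝ)⁻¹ ≤
      (1 / r) * (∏ p ∈ r.primeFactors, (1 - (p : ℝ)⁻¹))⁻¹ :=
        mul_le_mul_of_nonneg_left hle (by positivity)
    _ = 1 / (r * ∏ p ∈ r.primeFactors, (1 - (p : ℝ)⁻¹)) := by rw [one_div, one_div, mul_inv]

lemma harmonic_le_LR (R : ℕ) : ∑ n ∈ Icc 1 R, (1 : ℝ) / n ≤ LR R := by
  classical
  have hmaps : ∀ n ∈ Icc 1 R, (∏ p ∈ n.primeFactors, p) ∈ Icc 1 R := by
    intro n hn
    rw [mem_Icc] at hn ⊢
    refine ⟨Nat.pos_of_ne_zero (prod_ne_zero_iff.mpr fun p hp =>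
      (Nat.prime_of_mem_primeFactors hp).ne_zero), ?_⟩
    exact (Nat.le_of_dvd (by omega) (Nat.prod_primeFactors_dvd n)).trans hn.2
  rw [← sum_fiberwise_of_maps_to hmaps]
  unfold LR
  apply sum_le_sum
  intro r hr
  by_cases hsf : Squarefree r
  · have h1 := sum_factored r hsf ((Icc 1 R).filter (fun n => ∏ p ∈ n.primeFactors, p = r)) ?_
    · rw [ArithmeticFunction.moebius_apply_of_squarefree hsf]
      push_cast
      rw [← pow_mul, mul_comm, pow_mul]
      simpa using h1
    · intro n hn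
      rw [mem_filter, mem_Icc] at hn
      refine ⟨by omega, ?_⟩
      rw [← hn.2, Nat.primeFactors_prod_primeFactors]
  · have hempty : (Icc 1 R).filter (fun n => ∏ p ∈ n.primeFactors, p = r) = ∅ := by
      rw [filter_eq_empty_iff]
      intro n _ h
      apply hsf
      rw [← h]
      apply Finset.squarefree_prod_of_pairwise_isCoprime
      · intro p hp q hq hpq
        exact (Nat.coprime_iff_isRelPrime).mp ((Nat.coprime_primes (Nat.prime_of_mem_primeFactors hp)
          (Nat.prime_of_mem_primeFactors hq)).mpr hpq)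
      · intro p hp
        exact (Nat.prime_of_mem_primeFactors hp).prime.squarefree
    rw [hempty, sum_empty]
    exact LR_term_nonneg r

/-! ### Ramanujan sums -/

lemma sum_full (r n : ℕ) (hr : 0 < r) :
    ∑ b ∈ range r, ee (n * ((b : ℝ) / r)) = if r ∣ n then (r : ℂ) else 0 := by
  have hrC : (r : ℂ) ≠ 0 := by exact_mod_cast hr.ne'
  set ζ : ℂ := Complex.exp (2 * Real.pi * Complex.I / r) with hζ
  have hprim : IsPrimitiveRoot ζ r := Complex.isPrimitiveRoot_exp r hr.ne'
  have hterm : ∀ b : ℕ, ee (n * ((b : ℝ) / r)) = (ζ ^ n) ^ b := by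
    intro b
    unfold ee
    rw [hζ, ← Complex.exp_nat_mul, ← Complex.exp_nat_mul]
    congr 1
    push_cast
    field_simp
  rw [sum_congr rfl (fun b _ => hterm b)]
  by_cases h : r ∣ n
  · rw [if_pos h]
    have : ζ ^ n = 1 := (hprim.pow_eq_one_iff_dvd n).mpr h
    rw [this]
    simp
  · rw [if_neg h]
    have h1 : ζ ^ n ≠ 1 := fun h' => h ((hprim.pow_eq_one_iff_dvd n).mp h')
    have h2 : (ζ ^ n) ^ r = 1 := by rw [← pow_mul, mul_comm, pow_mul, hprim.pow_eq_one, one_pow]
    have h3 := mul_geom_sum (ζ ^ n) r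
    rw [h2, sub_self] at h3
    rcases mul_eq_zero.mp h3 with h4 | h4
    · exact absurd (sub_eq_zero.mp h4) h1
    · exact h4

/-- the Ramanujan sum -/
noncomputable def cr (r n : ℕ) : ℂ :=
  ∑ b ∈ (range r).filter (fun b => Nat.Coprime b r), ee (n * ((b : ℝ) / r))

lemma sum_divisors_cr (r n : ℕ) (hr : 0 < r) :
    ∑ d ∈ r.divisors, cr d n = ∑ b ∈ range r, ee (n * ((b : ℝ) / r)) := by
  classical
  have hmaps : ∀ b ∈ range r, r / Nat.gcd b r ∈ r.divisors := by
    intro b _
    rw [Nat.mem_divisors]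
    exact ⟨Nat.div_dvd_of_dvd (Nat.gcd_dvd_right b r), hr.ne'⟩
  rw [← sum_fiberwise_of_maps_to hmaps]
  apply sum_congr rfl
  intro d hd
  have hdr : d ∣ r := Nat.dvd_of_mem_divisors hd
  have hd0 : 0 < d := Nat.pos_of_dvd_of_pos hdr hr
  obtain ⟨e, he⟩ := hdr
  have he0 : 0 < e := by
    rcases Nat.eq_zero_or_pos e with h | h
    · rw [h, mul_zero] at he; omega
    · exact h
  unfold cr
  have himg : (range r).filter (fun b => r / Nat.gcd b r = d) =
      ((range d).filter (fun b => Nat.Coprime b d)).image (fun b => e * b) := by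
    ext b
    rw [mem_filter, mem_range, mem_image]
    constructor
    · rintro ⟨hb, hg⟩
      have hgpos : 0 < Nat.gcd b r := Nat.gcd_pos_of_pos_right b hr
      have hge : Nat.gcd b r = e := by
        have h1 : r = d * Nat.gcd b r := by
          rw [← hg]; exact (Nat.div_mul_cancel (Nat.gcd_dvd_right b r)).symm
        rw [he] at h1
        have := Nat.eq_of_mul_eq_mul_left hd0 h1
        rw [← he] at this
        exact this.symm
      obtain ⟨b', hb'⟩ : e ∣ b := hge ▸ Nat.gcd_dvd_left b r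
      refine ⟨b', ?_, hb'.symm⟩
      rw [mem_filter, mem_range]
      constructor
      · rw [hb', he, mul_comm] at hb
        exact Nat.lt_of_mul_lt_mul_right hb
      · rw [hb', he, mul_comm d e, Nat.gcd_mul_left] at hge
        have h2 : e * Nat.gcd b' d = e * 1 := by rw [hge, mul_one]
        exact Nat.eq_of_mul_eq_mul_left he0 h2
    · rintro ⟨b', hb', rfl⟩
      rw [mem_filter, mem_range] at hb'
      constructor
      · rw [he, mul_comm e b']
        exact Nat.mul_lt_mul_of_pos_right hb'.1 he0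
      · rw [he, mul_comm d e, Nat.gcd_mul_left, hb'.2, mul_one, Nat.mul_div_cancel_left _ he0]
  rw [himg, sum_image]
  · apply sum_congr rfl
    intro b _
    congr 2
    rw [he]
    have hdr' : (d : ℝ) ≠ 0 := by exact_mod_cast hd0.ne'
    have her' : (e : ℝ) ≠ 0 := by exact_mod_cast he0.ne'
    push_cast
    field_simp
  · intro a _ b _ hab
    exact Nat.eq_of_mul_eq_mul_left he0 hab

lemma cr_eq (r n : ℕ) (hr : 0 < r) :
    cr r n = ∑ d ∈ r.divisors.filter (fun d => d ∣ n),
      ((ArithmeticFunction.moebius (r / d) : ℤ) : ℂ) * d := by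
  have h := (ArithmeticFunction.sum_eq_iff_sum_mul_moebius_eq (R := ℂ)
    (f := fun r => cr r n) (g := fun r => ∑ b ∈ range r, ee (n * ((b : ℝ) / r)))).mp
    (fun r hr => sum_divisors_cr r n hr) r hr
  rw [← h, Nat.sum_divisorsAntidiagonal' (f := fun x y => ((ArithmeticFunction.moebius x : ℤ) : ℂ) *
    ∑ b ∈ range y, ee (n * ((b : ℝ) / y))), sum_filter]
  apply sum_congr rfl
  intro d hd
  have hd0 : 0 < d := Nat.pos_of_mem_divisors hd
  rw [sum_full d n hd0]
  split_ifs <;> simp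

lemma cr_coprime (r p k : ℕ) (hr : 0 < r) (hp : p.Prime) (h : ¬ p ∣ r) :
    cr r (p ^ k) = ((ArithmeticFunction.moebius r : ℤ) : ℂ) := by
  rw [cr_eq r _ hr]
  have : r.divisors.filter (fun d => d ∣ p ^ k) = {1} := by
    ext d
    rw [mem_filter, mem_singleton, Nat.mem_divisors]
    constructor
    · rintro ⟨⟨h1, _⟩, h2⟩
      obtain ⟨i, _, hi⟩ := (Nat.dvd_prime_pow hp).mp h2
      rcases Nat.eq_zero_or_pos i with h0 | h0
      · rw [hi, h0, pow_zero]
      · exfalso
        apply h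
        exact (dvd_pow_self p h0.ne').trans (hi ▸ h1)
    · rintro rfl
      exact ⟨⟨one_dvd _, hr.ne'⟩, one_dvd _⟩
  rw [this, sum_singleton, Nat.div_one]
  simp

lemma cr_dvd (r p k : ℕ) (hr : Squarefree r) (hp : p.Prime) (hk : 0 < k) (h : p ∣ r) :
    cr r (p ^ k) = ((p : ℂ) - 1) * ((ArithmeticFunction.moebius (r / p) : ℤ) : ℂ) := by
  have hr0 : r ≠ 0 := hr.ne_zero
  rw [cr_eq r _ (Nat.pos_of_ne_zero hr0)]
  obtain ⟨s, hs⟩ := h
  have hps : ¬ p ∣ s := by
    rintro ⟨t, ht⟩
    have h1 : p * p ∣ r := ⟨t, by rw [hs, ht]; ring⟩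
    exact hp.one_lt.ne' (Nat.isUnit_iff.mp (hr p h1))
  have hcop : Nat.Coprime p s := (Nat.Prime.coprime_iff_not_dvd hp).mpr hps
  have h1 : r.divisors.filter (fun d => d ∣ p ^ k) = {1, p} := by
    ext d
    rw [mem_filter, mem_insert, mem_singleton, Nat.mem_divisors]
    constructor
    · rintro ⟨⟨h1, _⟩, h2⟩
      obtain ⟨i, _, hi⟩ := (Nat.dvd_prime_pow hp).mp h2
      rcases Nat.lt_or_ge i 2 with h0 | h0
      · interval_cases i
        · left; rw [hi, pow_zero]
        · right; rw [hi, pow_one]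
      · exfalso
        have h3 : p * p ∣ r := by
          refine Dvd.dvd.trans ?_ h1
          rw [hi, ← pow_two]
          exact pow_dvd_pow p h0
        exact hp.one_lt.ne' (Nat.isUnit_iff.mp (hr p h3))
    · rintro (rfl | rfl)
      · exact ⟨⟨one_dvd _, hr0⟩, one_dvd _⟩
      · exact ⟨⟨⟨s, hs⟩, hr0⟩, dvd_pow_self _ hk.ne'⟩
  rw [h1, sum_pair hp.one_lt.ne, Nat.div_one]
  have h2 : r / p = s := by rw [hs, Nat.mul_div_cancel_left _ hp.pos]
  have h3 : ArithmeticFunction.moebius r = - ArithmeticFunction.moebius s := by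
    rw [hs, ArithmeticFunction.IsMultiplicative.map_mul_of_coprime
      ArithmeticFunction.isMultiplicative_moebius hcop, ArithmeticFunction.moebius_apply_prime hp]
    ring
  rw [h2, h3]
  push_cast
  ring

/-- the real weight of `r` in `WR` -/
noncomputable def tr (p r : ℕ) : ℝ :=
  if p ∣ r then -(((ArithmeticFunction.moebius r : ℤ) : ℝ) ^ 2 / (Nat.totient (r / p) : ℝ))
  else ((ArithmeticFunction.moebius r : ℤ) : ℝ) ^ 2 / (Nat.totient r : ℝ)

lemma moebius_sq_div {r p : ℕ} (hr : Squarefree r) (h : p ∣ r) :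
    ((ArithmeticFunction.moebius (r / p) : ℤ) : ℝ) ^ 2 = 1 := by
  have hsf : Squarefree (r / p) := Squarefree.squarefree_of_dvd (Nat.div_dvd_of_dvd h) hr
  rw [ArithmeticFunction.moebius_apply_of_squarefree hsf]
  push_cast
  rw [← pow_mul, mul_comm, pow_mul]
  norm_num

lemma moebius_sq_one {r : ℕ} (hr : Squarefree r) :
    ((ArithmeticFunction.moebius r : ℤ) : ℝ) ^ 2 = 1 := by
  rw [ArithmeticFunction.moebius_apply_of_squarefree hr]
  push_cast
  rw [← pow_mul, mul_comm, pow_mul]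
  norm_num

lemma term_eq (r p k : ℕ) (hr : 0 < r) (hp : p.Prime) (hk : 0 < k) :
    (((ArithmeticFunction.moebius r : ℤ) : ℂ) / (Nat.totient r : ℂ)) * cr r (p ^ k) =
      ((tr p r : ℝ) : ℂ) := by
  by_cases hsf : Squarefree r
  · by_cases h : p ∣ r
    · rw [cr_dvd r p k hsf hp hk h]
      unfold tr
      rw [if_pos h]
      obtain ⟨s, hs⟩ := h
      have hps : ¬ p ∣ s := by
        rintro ⟨t, ht⟩
        have h1 : p * p ∣ r := ⟨t, by rw [hs, ht]; ring⟩
        exact hp.one_lt.ne' (Nat.isUnit_iff.mp (hsf p h1))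
      have hcop : Nat.Coprime p s := (Nat.Prime.coprime_iff_not_dvd hp).mpr hps
      have h2 : r / p = s := by rw [hs, Nat.mul_div_cancel_left _ hp.pos]
      have h3 : ArithmeticFunction.moebius r = - ArithmeticFunction.moebius s := by
        rw [hs, ArithmeticFunction.IsMultiplicative.map_mul_of_coprime
          ArithmeticFunction.isMultiplicative_moebius hcop,
          ArithmeticFunction.moebius_apply_prime hp]
        ring
      have h4 : Nat.totient r = (p - 1) * Nat.totient s := by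
        rw [hs, Nat.totient_mul hcop, Nat.totient_prime hp]
      rw [h2, h3, h4]
      have hs0 : 0 < s := by
        rcases Nat.eq_zero_or_pos s with h | h
        · rw [h, mul_zero] at hs; omega
        · exact h
      have hφ : (Nat.totient s : ℂ) ≠ 0 := by
        exact_mod_cast (Nat.totient_pos.mpr hs0).ne'
      have hp1 : ((p - 1 : ℕ) : ℂ) = (p : ℂ) - 1 := by
        rw [Nat.cast_sub hp.one_lt.le]; norm_num
      have hp1' : (p : ℂ) - 1 ≠ 0 := by
        rw [← hp1]
        have : p - 1 ≠ 0 := by have := hp.two_le; omega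
        exact_mod_cast this
      push_cast
      rw [hp1]
      field_simp
    · rw [cr_coprime r p k hr hp h]
      unfold tr
      rw [if_neg h]
      push_cast
      ring
  · have h0 : ArithmeticFunction.moebius r = 0 :=
      ArithmeticFunction.moebius_eq_zero_of_not_squarefree hsf
    unfold tr
    rw [h0]
    simp

lemma WR_eq (R p k : ℕ) (hp : p.Prime) (hk : 0 < k) :
    WR R (p ^ k) = ((∑ r ∈ Icc 1 R, tr p r : ℝ) : ℂ) := by
  unfold WR
  push_cast
  apply sum_congr rfl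
  intro r hr
  have := term_eq r p k (mem_Icc.mp hr).1 hp hk
  rw [← this]
  unfold cr
  push_cast
  rfl

lemma sum_tr_bounds (R p : ℕ) (hp : p.Prime) :
    0 ≤ ∑ r ∈ Icc 1 R, tr p r ∧ ∑ r ∈ Icc 1 R, tr p r ≤ LR R := by
  classical
  have hsplit : ∑ r ∈ Icc 1 R, tr p r =
      ∑ r ∈ (Icc 1 R).filter (fun r => ¬ p ∣ r),
        ((ArithmeticFunction.moebius r : ℤ) : ℝ) ^ 2 / (Nat.totient r : ℝ) -
      ∑ r ∈ (Icc 1 R).filter (fun r => p ∣ r),
        ((ArithmeticFunction.moebius r : ℤ) : ℝ) ^ 2 / (Nat.totient (r / p) : ℝ) := by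
    rw [← sum_filter_add_sum_filter_not (Icc 1 R) (fun r => p ∣ r)]
    rw [sum_congr rfl (g := fun r => -(((ArithmeticFunction.moebius r : ℤ) : ℝ) ^ 2 /
      (Nat.totient (r / p) : ℝ))) (fun r hr => by unfold tr; rw [if_pos (mem_filter.mp hr).2])]
    rw [sum_congr rfl (s₁ := (Icc 1 R).filter (fun r => ¬ p ∣ r))
      (g := fun r => ((ArithmeticFunction.moebius r : ℤ) : ℝ) ^ 2 /
      (Nat.totient r : ℝ)) (fun r hr => by unfold tr; rw [if_neg (mem_filter.mp hr).2])]
    rw [sum_neg_distrib]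
    ring
  have hB : ∑ r ∈ (Icc 1 R).filter (fun r => p ∣ r),
        ((ArithmeticFunction.moebius r : ℤ) : ℝ) ^ 2 / (Nat.totient (r / p) : ℝ) ≤
      ∑ r ∈ (Icc 1 R).filter (fun r => ¬ p ∣ r),
        ((ArithmeticFunction.moebius r : ℤ) : ℝ) ^ 2 / (Nat.totient r : ℝ) := by
    have h1 : ∑ r ∈ (Icc 1 R).filter (fun r => p ∣ r),
        ((ArithmeticFunction.moebius r : ℤ) : ℝ) ^ 2 / (Nat.totient (r / p) : ℝ) =
        ∑ r ∈ ((Icc 1 R).filter (fun r => p ∣ r)).filter (fun r => Squarefree r),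
          ((ArithmeticFunction.moebius (r / p) : ℤ) : ℝ) ^ 2 / (Nat.totient (r / p) : ℝ) := by
      rw [sum_filter (p := fun r => Squarefree r)]
      apply sum_congr rfl
      intro r hr
      have hpr := (mem_filter.mp hr).2
      by_cases hsf : Squarefree r
      · rw [if_pos hsf, moebius_sq_div hsf hpr, moebius_sq_one hsf]
      · rw [if_neg hsf, ArithmeticFunction.moebius_eq_zero_of_not_squarefree hsf]
        simp
    rw [h1]
    have h2 : ∑ r ∈ ((Icc 1 R).filter (fun r => p ∣ r)).filter (fun r => Squarefree r),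
          ((ArithmeticFunction.moebius (r / p) : ℤ) : ℝ) ^ 2 / (Nat.totient (r / p) : ℝ) =
        ∑ s ∈ (((Icc 1 R).filter (fun r => p ∣ r)).filter (fun r => Squarefree r)).image
          (fun r => r / p), ((ArithmeticFunction.moebius s : ℤ) : ℝ) ^ 2 / (Nat.totient s : ℝ) := by
      rw [sum_image]
      intro a ha b hb hab
      have ha' := (mem_filter.mp (mem_filter.mp ha).1).2
      have hb' := (mem_filter.mp (mem_filter.mp hb).1).2
      simp only at hab
      rw [← Nat.mul_div_cancel' ha', ← Nat.mul_div_cancel' hb', hab]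
    rw [h2]
    apply sum_le_sum_of_subset_of_nonneg
    · intro s hs
      rw [mem_image] at hs
      obtain ⟨r, hr, rfl⟩ := hs
      rw [mem_filter, mem_filter, mem_Icc] at hr
      obtain ⟨⟨⟨hr1, hr2⟩, hpr⟩, hsf⟩ := hr
      rw [mem_filter, mem_Icc]
      obtain ⟨s, hs⟩ := hpr
      have e : r / p = s := by rw [hs, Nat.mul_div_cancel_left _ hp.pos]
      rw [e]
      refine ⟨⟨?_, ?_⟩, ?_⟩
      · rcases Nat.eq_zero_or_pos s with h | h
        · rw [h, mul_zero] at hs; omega
        · exact h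
      · calc s ≤ p * s := Nat.le_mul_of_pos_left _ hp.pos
          _ = r := hs.symm
          _ ≤ R := hr2
      · rintro ⟨t, ht⟩
        have h1 : p * p ∣ r := ⟨t, by rw [hs, ht]; ring⟩
        exact hp.one_lt.ne' (Nat.isUnit_iff.mp (hsf p h1))
    · intro _ _ _; positivity
  have hA : ∑ r ∈ (Icc 1 R).filter (fun r => ¬ p ∣ r),
        ((ArithmeticFunction.moebius r : ℤ) : ℝ) ^ 2 / (Nat.totient r : ℝ) ≤ LR R := by
    unfold LR
    apply sum_le_sum_of_subset_of_nonneg (filter_subset _ _)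
    intro _ _ _; positivity
  have hB0 : 0 ≤ ∑ r ∈ (Icc 1 R).filter (fun r => p ∣ r),
        ((ArithmeticFunction.moebius r : ℤ) : ℝ) ^ 2 / (Nat.totient (r / p) : ℝ) :=
    sum_nonneg (fun _ _ => by positivity)
  rw [hsplit]
  constructor <;> linarith

end LRaux

open LRaux

theorem LR_lower (R : ℕ) (hR : 1 ≤ R) : Real.log R ≤ LR R := by
  have h1 := log_add_one_le_harmonic R
  have h2 : ((harmonic R : ℚ) : ℝ) = ∑ n ∈ Finset.Icc 1 R, (1 : ℝ) / n := by
    rw [harmonic_eq_sum_Icc]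
    push_cast
    exact Finset.sum_congr rfl (fun _ _ => (one_div _).symm)
  have h3 : Real.log R ≤ Real.log ((R : ℝ) + 1) := by
    apply Real.log_le_log
    · exact_mod_cast hR
    · linarith
  calc Real.log R ≤ Real.log ((R : ℝ) + 1) := h3
    _ ≤ ((harmonic R : ℚ) : ℝ) := by exact_mod_cast h1
    _ ≤ LR R := by rw [h2]; exact harmonic_le_LR R

theorem WR_primepow (R n : ℕ) (hn : IsPrimePow n) :
    (WR R n).im = 0 ∧ 0 ≤ (WR R n).re ∧ (WR R n).re ≤ LR R := by
  obtain ⟨p, k, hp, hk, rfl⟩ := hn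
  have hp' : p.Prime := hp.nat_prime
  rw [WR_eq R p k hp' hk]
  rw [Complex.ofReal_im, Complex.ofReal_re]
  exact ⟨rfl, sum_tr_bounds R p hp'⟩

theorem WR_large (R n : ℕ) (hn : IsPrimePow n) (h : R < n.minFac) : WR R n = (LR R : ℂ) := by
  obtain ⟨p, k, hp, hk, rfl⟩ := hn
  have hp' : p.Prime := hp.nat_prime
  rw [Nat.Prime.pow_minFac hp' hk.ne'] at h
  rw [WR_eq R p k hp' hk]
  congr 1
  unfold LR
  apply Finset.sum_congr rfl
  intro r hr
  unfold tr
  rw [if_neg]
  intro hd
  have h1 := Nat.le_of_dvd (Finset.mem_Icc.mp hr).1 hd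
  have h2 := (Finset.mem_Icc.mp hr).2
  omega

end H385
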