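import Pool.Agent.H385R2.Plateau
import Pool.Agent.H385R2.FourierTrunc
import Pool.Agent.H385R2.LR

/-!
TEAM Q, module S4: lower bound of the mean square over the plateau.
-/

open Complex Filter Topology Set MeasureTheory

namespace H385


/-! ### exponentials -/

lemma pw_ee_add (x y : ℝ) : ee (x + y) = ee x * ee y := by
  unfold ee
  rw [← Complex.exp_add]
  congr 1
  push_cast; ring

lemma pw_ee_conj (x : ℝ) : (starRingEnd ℂ) (ee x) = ee (-x) := by
  unfold ee
  rw [← Complex.exp_conj]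
  congr 1
  rw [map_mul, map_mul, map_mul, Complex.conj_ofReal, Complex.conj_ofReal, Complex.conj_I,
    Complex.conj_ofNat]
  push_cast; ring

lemma pw_ee_cont : Continuous ee := by
  unfold ee
  fun_prop

lemma pw_ee_norm (x : ℝ) : ‖ee x‖ = 1 := by
  unfold ee
  rw [Complex.norm_exp]
  simp

lemma pw_SS_cont (N : ℕ) (a : ℕ → ℂ) : Continuous (SS N a) := by
  unfold SS
  refine continuous_finsetSum _ fun n _ => continuous_const.mul ?_
  exact pw_ee_cont.comp (by fun_prop)

/-! ### integrals over `PL` -/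

/-- index set of the reduced fractions with denominator at most `R` -/
def FP (R : ℕ) : Finset (Σ _ : ℕ, ℕ) :=
  (Finset.Icc 1 R).sigma (fun r => (Finset.range r).filter (fun b => Nat.Coprime b r))

lemma mem_FP {R : ℕ} {p : Σ _ : ℕ, ℕ} : p ∈ FP R ↔
    (1 ≤ p.1 ∧ p.1 ≤ R) ∧ p.2 < p.1 ∧ Nat.Coprime p.2 p.1 := by
  unfold FP
  rw [Finset.mem_sigma, Finset.mem_Icc, Finset.mem_filter, Finset.mem_range]

lemma PL_eq_biUnion (R : ℕ) (w : ℝ) : PL R w =
    ⋃ p ∈ FP R, Set.Icc ((p.2 : ℝ) / p.1 - w) ((p.2 : ℝ) / p.1 + w) := by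
  ext y
  simp only [PL, Set.mem_ofPred_eq, Set.mem_iUnion, mem_FP, Set.mem_Icc]
  constructor
  · rintro ⟨r, h1, h2, b, h3, h4, h5⟩
    rw [abs_le] at h5
    refine ⟨⟨r, b⟩, ⟨⟨h1, h2⟩, h3, h4⟩, ?_, ?_⟩
    · simp only; linarith [h5.1]
    · simp only; linarith [h5.2]
  · rintro ⟨⟨r, b⟩, ⟨⟨h1, h2⟩, h3, h4⟩, h5, h6⟩
    refine ⟨r, h1, h2, b, h3, h4, ?_⟩
    simp only at h5 h6
    rw [abs_le]
    constructor <;> linarith

lemma FP_disjoint {R : ℕ} {w : ℝ} (hw2 : 2 * w * (R : ℝ) ^ 2 < 1) :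
    Set.Pairwise (↑(FP R)) (Function.onFun Disjoint (fun p : Σ _ : ℕ, ℕ =>
      Set.Icc ((p.2 : ℝ) / p.1 - w) ((p.2 : ℝ) / p.1 + w))) := by
  intro p hp q hq hpq
  rw [Finset.mem_coe, mem_FP] at hp hq
  obtain ⟨⟨hp1, hpR⟩, hp2, hp3⟩ := hp
  obtain ⟨⟨hq1, hqR⟩, hq2, hq3⟩ := hq
  rw [Function.onFun, Set.disjoint_left]
  intro y hy hy'
  have hp0 : (0 : ℝ) < p.1 := by exact_mod_cast hp1
  have hq0 : (0 : ℝ) < q.1 := by exact_mod_cast hq1
  have hpR' : (p.1 : ℝ) ≤ R := by exact_mod_cast hpR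
  have hqR' : (q.1 : ℝ) ≤ R := by exact_mod_cast hqR
  have hne : (p.2 : ℤ) * q.1 - q.2 * p.1 ≠ 0 := by
    intro h0
    have h1 : p.2 * q.1 = q.2 * p.1 := by
      have : (p.2 : ℤ) * q.1 = q.2 * p.1 := by linarith
      exact_mod_cast this
    have d1 : p.1 ∣ q.1 := by
      have : p.1 ∣ p.2 * q.1 := ⟨q.2, by rw [h1]; ring⟩
      exact (Nat.Coprime.symm hp3).dvd_of_dvd_mul_left this
    have d2 : q.1 ∣ p.1 := by
      have : q.1 ∣ q.2 * p.1 := ⟨p.2, by rw [← h1]; ring⟩
      exact (Nat.Coprime.symm hq3).dvd_of_dvd_mul_left this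
    have e1 : p.1 = q.1 := Nat.dvd_antisymm d1 d2
    have e2 : p.2 = q.2 := by
      rw [e1] at h1
      exact Nat.eq_of_mul_eq_mul_right (by omega) h1
    apply hpq
    obtain ⟨p1, p2⟩ := p
    obtain ⟨q1, q2⟩ := q
    simp only at e1 e2
    subst e1; subst e2; rfl
  have hge : (1 : ℝ) ≤ |(p.2 : ℝ) * q.1 - q.2 * p.1| := by
    have := Int.one_le_abs hne
    have h6 : ((1 : ℤ) : ℝ) ≤ ((|(p.2 : ℤ) * q.1 - q.2 * p.1| : ℤ) : ℝ) := by exact_mod_cast this
    push_cast at h6
    exact h6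
  have h2 : |(p.2 : ℝ) / p.1 - (q.2 : ℝ) / q.1| ≤ 2 * w := by
    rw [abs_le]
    constructor <;> linarith [hy.1, hy.2, hy'.1, hy'.2]
  have h3 : (p.2 : ℝ) / p.1 - (q.2 : ℝ) / q.1 = ((p.2 : ℝ) * q.1 - q.2 * p.1) / (p.1 * q.1) := by
    field_simp
  rw [h3, abs_div, abs_of_pos (show (0 : ℝ) < p.1 * q.1 by positivity),
    div_le_iff₀ (by positivity)] at h2
  have h4 : 0 ≤ w := by
    by_contra hcon
    push Not at hcon
    have : 2 * w * ((p.1 : ℝ) * q.1) < 0 := by
      apply mul_neg_of_neg_of_pos (by linarith) (by positivity)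
    linarith
  have h5 : (p.1 : ℝ) * q.1 ≤ R ^ 2 := by
    calc (p.1 : ℝ) * q.1 ≤ R * R := by gcongr
      _ = _ := by ring
  have h6 : 2 * w * ((p.1 : ℝ) * q.1) ≤ 2 * w * (R : ℝ) ^ 2 := by gcongr
  linarith

lemma PL_integral {R : ℕ} {w : ℝ} (hw : 0 < w) (hw2 : 2 * w * (R : ℝ) ^ 2 < 1) (h : ℝ → ℝ)
    (hh : Continuous h) : ∫ y in PL R w, h y = ∑ r ∈ Finset.Icc 1 R,
      ∑ b ∈ (Finset.range r).filter (fun b => Nat.Coprime b r),
        ∫ η in (-w)..w, h ((b : ℝ) / r + η) := by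
  rw [PL_eq_biUnion, integral_biUnion_finset]
  · unfold FP
    rw [Finset.sum_sigma]
    apply Finset.sum_congr rfl
    intro r _
    apply Finset.sum_congr rfl
    intro b _
    simp only
    rw [intervalIntegral.integral_comp_add_left (fun x => h x) ((b : ℝ) / r),
      intervalIntegral.integral_of_le (by linarith), integral_Icc_eq_integral_Ioc]
    rfl
  · intro p _
    exact measurableSet_Icc
  · exact FP_disjoint hw2
  · intro p _
    exact hh.continuousOn.integrableOn_compact isCompact_Icc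

/-! ### the lower bound -/

lemma pw_lower (x y : ℂ) : 2 * (x * (starRingEnd ℂ) y).re - ‖y‖ ^ 2 ≤ ‖x‖ ^ 2 := by
  have h1 : 0 ≤ ‖x - y‖ ^ 2 := sq_nonneg _
  have h2 : ‖x - y‖ ^ 2 = ‖x‖ ^ 2 - 2 * (x * (starRingEnd ℂ) y).re + ‖y‖ ^ 2 := by
    rw [Complex.sq_norm, Complex.sq_norm, Complex.sq_norm, Complex.normSq_sub]
    ring
  linarith

theorem plateau_lower (N R : ℕ) (w : ℝ) (hR : 1 ≤ R) (hw : 0 < w) (hw2 : 2 * w * (R : ℝ) ^ 2 < 1)
    (a : ℕ → ℂ) (ha : ∀ n, ¬ IsPrimePow n → a n = 0) (f f1 f2 : ℝ → ℂ) (hf : C2I f f1 f2) :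
    Real.log R * gain N R w a f f2 ≤ ∫ y in PL R w, ‖SS N a y‖ ^ 2 := by
  have hlog : 0 ≤ Real.log R := Real.log_nonneg (by exact_mod_cast hR)
  have hpos : 0 ≤ ∫ y in PL R w, ‖SS N a y‖ ^ 2 := integral_nonneg fun y => sq_nonneg _
  rcases le_or_gt (gain N R w a f f2) 0 with hg | hg
  · exact (mul_nonpos_of_nonneg_of_nonpos hlog hg).trans hpos
  refine (mul_le_mul_of_nonneg_right (LR_lower R hR) hg.le).trans ?_
  obtain ⟨hFc, hFt, hFp⟩ := fourier_trunc f f1 f2 hf w hw
  have hLR0 : 0 ≤ LR R := hlog.trans (LR_lower R hR)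
  rw [PL_integral hw hw2 (fun y => ‖SS N a y‖ ^ 2) ((pw_SS_cont N a).norm.pow 2)]
  set mu : ℕ → ℝ := fun r => ((ArithmeticFunction.moebius r : ℤ) : ℝ) / (Nat.totient r : ℝ)
    with hmu
  set Tn : ℕ → ℂ := fun n => ∫ η in (-w)..w, Fh f η * ee (-((n : ℝ) * η)) with hTn
  -- pointwise in (r,b)
  have hrb : ∀ r b : ℕ, 2 * ((mu r : ℂ) * ∑ n ∈ Finset.Icc 1 N, a n * ee (n * ((b : ℝ) / r)) *
      (starRingEnd ℂ) (Tn n)).re - (mu r) ^ 2 * (∫ η in (-w)..w, ‖Fh f η‖ ^ 2) ≤
      ∫ η in (-w)..w, ‖SS N a ((b : ℝ) / r + η)‖ ^ 2 := by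
    intro r b
    have hSc : Continuous (fun η : ℝ => SS N a ((b : ℝ) / r + η)) :=
      (pw_SS_cont N a).comp (by fun_prop)
    have e1 : ((mu r : ℂ) * ∑ n ∈ Finset.Icc 1 N, a n * ee (n * ((b : ℝ) / r)) *
        (starRingEnd ℂ) (Tn n)) = ∫ η in (-w)..w, SS N a ((b : ℝ) / r + η) *
          (starRingEnd ℂ) ((mu r : ℂ) * Fh f η) := by
      have e2 : ∀ η : ℝ, SS N a ((b : ℝ) / r + η) * (starRingEnd ℂ) ((mu r : ℂ) * Fh f η) =
          ∑ n ∈ Finset.Icc 1 N, ((mu r : ℂ) * (a n * ee (n * ((b : ℝ) / r)))) *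
            (ee (n * η) * (starRingEnd ℂ) (Fh f η)) := by
        intro η
        unfold SS
        rw [Finset.sum_mul]
        apply Finset.sum_congr rfl
        intro n _
        rw [mul_add, pw_ee_add, map_mul, Complex.conj_ofReal]
        ring
      simp_rw [e2]
      rw [intervalIntegral.integral_finsetSum, Finset.mul_sum]
      · apply Finset.sum_congr rfl
        intro n _
        rw [intervalIntegral.integral_const_mul, hTn]
        have e3 : (starRingEnd ℂ) (∫ η in (-w)..w, Fh f η * ee (-((n : ℝ) * η))) =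
            ∫ η in (-w)..w, ee (n * η) * (starRingEnd ℂ) (Fh f η) := by
          rw [intervalIntegral.integral_of_le (by linarith), intervalIntegral.integral_of_le
            (by linarith), ← integral_conj]
          rw [← intervalIntegral.integral_of_le (by linarith), ← intervalIntegral.integral_of_le
            (by linarith)]
          apply intervalIntegral.integral_congr
          intro η _
          simp only [map_mul]
          rw [pw_ee_conj, neg_neg, mul_comm]
        simp only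
        rw [e3]
        ring
      · intro n _
        apply Continuous.intervalIntegrable
        refine continuous_const.mul ((pw_ee_cont.comp (by fun_prop)).mul ?_)
        exact Complex.continuous_conj.comp hFc
    have hcc : Continuous (fun η : ℝ => SS N a ((b : ℝ) / r + η) *
          (starRingEnd ℂ) ((mu r : ℂ) * Fh f η)) :=
      hSc.mul (Complex.continuous_conj.comp (continuous_const.mul hFc))
    have e4 : (∫ η in (-w)..w, SS N a ((b : ℝ) / r + η) *
          (starRingEnd ℂ) ((mu r : ℂ) * Fh f η)).re = ∫ η in (-w)..w, (SS N a ((b : ℝ) / r + η) *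
          (starRingEnd ℂ) ((mu r : ℂ) * Fh f η)).re := by
      have := Complex.reCLM.intervalIntegral_comp_comm
        (hcc.intervalIntegrable (μ := volume) (-w) w)
      simpa using this.symm
    rw [e1, e4, ← intervalIntegral.integral_const_mul, ← intervalIntegral.integral_const_mul,
      ← intervalIntegral.integral_sub]
    · apply intervalIntegral.integral_mono_on (by linarith)
      · apply Continuous.intervalIntegrable
        exact (continuous_const.mul (Complex.continuous_re.comp hcc)).sub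
          (continuous_const.mul (hFc.norm.pow 2))
      · exact (hSc.norm.pow 2).intervalIntegrable _ _
      · intro η _
        have := pw_lower (SS N a ((b : ℝ) / r + η)) ((mu r : ℂ) * Fh f η)
        rw [norm_mul, Complex.norm_real, mul_pow, Real.norm_eq_abs, sq_abs] at this
        exact this
    · exact (continuous_const.mul (Complex.continuous_re.comp hcc)).intervalIntegrable _ _
    · exact (continuous_const.mul (hFc.norm.pow 2)).intervalIntegrable _ _
  -- sum up
  have hsum : 2 * (∑ n ∈ Finset.Icc 1 N, a n * WR R n * (starRingEnd ℂ) (Tn n)).re -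
      LR R * (∫ η in (-w)..w, ‖Fh f η‖ ^ 2) ≤
      ∑ r ∈ Finset.Icc 1 R, ∑ b ∈ (Finset.range r).filter (fun b => Nat.Coprime b r),
        ∫ η in (-w)..w, ‖SS N a ((b : ℝ) / r + η)‖ ^ 2 := by
    have s1 : ∑ r ∈ Finset.Icc 1 R, ∑ b ∈ (Finset.range r).filter (fun b => Nat.Coprime b r),
        (2 * ((mu r : ℂ) * ∑ n ∈ Finset.Icc 1 N, a n * ee (n * ((b : ℝ) / r)) *
      (starRingEnd ℂ) (Tn n)).re - (mu r) ^ 2 * (∫ η in (-w)..w, ‖Fh f η‖ ^ 2)) ≤
      ∑ r ∈ Finset.Icc 1 R, ∑ b ∈ (Finset.range r).filter (fun b => Nat.Coprime b r),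
        ∫ η in (-w)..w, ‖SS N a ((b : ℝ) / r + η)‖ ^ 2 :=
      Finset.sum_le_sum fun r _ => Finset.sum_le_sum fun b _ => hrb r b
    refine le_trans (le_of_eq ?_) s1
    have s2 : ∑ r ∈ Finset.Icc 1 R, ∑ b ∈ (Finset.range r).filter (fun b => Nat.Coprime b r),
        (mu r) ^ 2 * (∫ η in (-w)..w, ‖Fh f η‖ ^ 2) = LR R * ∫ η in (-w)..w, ‖Fh f η‖ ^ 2 := by
      unfold LR
      rw [Finset.sum_mul]
      apply Finset.sum_congr rfl
      intro r hr
      rw [Finset.mem_Icc] at hr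
      rw [Finset.sum_const, nsmul_eq_mul, ← mul_assoc]
      congr 1
      have hcard : ((Finset.range r).filter (fun b => Nat.Coprime b r)).card = Nat.totient r := by
        rw [Nat.totient_eq_card_coprime]
        congr 1
        ext b
        simp [Nat.coprime_comm]
      rw [hcard, hmu]
      have : (0 : ℝ) < Nat.totient r := by exact_mod_cast Nat.totient_pos.mpr hr.1
      simp only
      field_simp
    have s3 : ∑ n ∈ Finset.Icc 1 N, a n * WR R n * (starRingEnd ℂ) (Tn n) =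
        ∑ r ∈ Finset.Icc 1 R, ∑ b ∈ (Finset.range r).filter (fun b => Nat.Coprime b r),
          ((mu r : ℂ) * ∑ n ∈ Finset.Icc 1 N, a n * ee (n * ((b : ℝ) / r)) *
          (starRingEnd ℂ) (Tn n)) := by
      have s4 : ∀ r ∈ Finset.Icc 1 R, ∑ b ∈ (Finset.range r).filter (fun b => Nat.Coprime b r),
          ((mu r : ℂ) * ∑ n ∈ Finset.Icc 1 N, a n * ee (n * ((b : ℝ) / r)) *
          (starRingEnd ℂ) (Tn n)) = ∑ n ∈ Finset.Icc 1 N, a n * ((mu r : ℂ) *
            ∑ b ∈ (Finset.range r).filter (fun b => Nat.Coprime b r), ee (n * ((b : ℝ) / r))) *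
              (starRingEnd ℂ) (Tn n) := by
        intro r _
        simp_rw [Finset.mul_sum]
        rw [Finset.sum_comm]
        apply Finset.sum_congr rfl
        intro n _
        rw [Finset.sum_mul]
        apply Finset.sum_congr rfl
        intro b _
        ring
      rw [Finset.sum_congr rfl s4, Finset.sum_comm]
      apply Finset.sum_congr rfl
      intro n _
      unfold WR
      rw [Finset.mul_sum, Finset.sum_mul]
      apply Finset.sum_congr rfl
      intro r _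
      rw [hmu]
      push_cast
      ring
    rw [s3, ← s2]
    simp_rw [Finset.sum_sub_distrib]
    congr 1
    rw [Complex.re_sum, Finset.mul_sum]
    apply Finset.sum_congr rfl
    intro r _
    rw [Complex.re_sum, Finset.mul_sum]
  refine le_trans ?_ hsum
  -- the terms
  have hterm : ∀ n ∈ Finset.Icc 1 N, LR R * ((if R < n.minFac then
      2 * (a n * (starRingEnd ℂ) (f n)).re else - (2 * (‖a n‖ * ‖f n‖)))
      - 2 * ((∫ y : ℝ, ‖f2 y‖) / w) * ‖a n‖) ≤
      2 * (a n * WR R n * (starRingEnd ℂ) (Tn n)).re := by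
    intro n _
    by_cases hn : IsPrimePow n
    swap
    · rw [ha n hn]; simp
    have hT := hFt (n : ℝ)
    have hTe : ‖Tn n - f n‖ ≤ (∫ x : ℝ, ‖f2 x‖) / w := hT
    obtain ⟨w1, w2, w3⟩ := WR_primepow R n hn
    have hWr : WR R n = (((WR R n).re : ℝ) : ℂ) := by
      apply Complex.ext
      · simp
      · simp [w1]
    have hWn : ‖WR R n‖ ≤ LR R := by
      rw [hWr, Complex.norm_real, Real.norm_eq_abs, abs_of_nonneg w2]; exact w3
    have hsplit : a n * WR R n * (starRingEnd ℂ) (Tn n) =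
        a n * WR R n * (starRingEnd ℂ) (f n) + a n * WR R n * (starRingEnd ℂ) (Tn n - f n) := by
      rw [map_sub]; ring
    have herr : -(‖a n‖ * LR R * ((∫ x : ℝ, ‖f2 x‖) / w)) ≤
        (a n * WR R n * (starRingEnd ℂ) (Tn n - f n)).re := by
      have h1 : |(a n * WR R n * (starRingEnd ℂ) (Tn n - f n)).re| ≤
          ‖a n * WR R n * (starRingEnd ℂ) (Tn n - f n)‖ := Complex.abs_re_le_norm _
      have h2 : ‖a n * WR R n * (starRingEnd ℂ) (Tn n - f n)‖ ≤
          ‖a n‖ * LR R * ((∫ x : ℝ, ‖f2 x‖) / w) := by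
        rw [norm_mul, norm_mul, RCLike.norm_conj]
        gcongr
      linarith [neg_abs_le (a n * WR R n * (starRingEnd ℂ) (Tn n - f n)).re]
    rw [hsplit, Complex.add_re]
    split_ifs with hmf
    · have hW := WR_large R n hn hmf
      have h3 : (a n * WR R n * (starRingEnd ℂ) (f n)).re =
          LR R * (a n * (starRingEnd ℂ) (f n)).re := by
        rw [hW]
        have : a n * (LR R : ℂ) * (starRingEnd ℂ) (f n) =
          (LR R : ℂ) * (a n * (starRingEnd ℂ) (f n)) := by ring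
        rw [this, Complex.re_ofReal_mul]
      rw [h3]
      nlinarith
    · have h3 : -(LR R * (‖a n‖ * ‖f n‖)) ≤ (a n * WR R n * (starRingEnd ℂ) (f n)).re := by
        have h1 : |(a n * WR R n * (starRingEnd ℂ) (f n)).re| ≤
            ‖a n * WR R n * (starRingEnd ℂ) (f n)‖ := Complex.abs_re_le_norm _
        have h2 : ‖a n * WR R n * (starRingEnd ℂ) (f n)‖ ≤ LR R * (‖a n‖ * ‖f n‖) := by
          rw [norm_mul, norm_mul, RCLike.norm_conj]
          calc ‖a n‖ * ‖WR R n‖ * ‖f n‖ ≤ ‖a n‖ * LR R * ‖f n‖ := by gcongr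
            _ = _ := by ring
        linarith [neg_abs_le (a n * WR R n * (starRingEnd ℂ) (f n)).re]
      nlinarith
  have hgain : LR R * gain N R w a f f2 = ∑ n ∈ Finset.Icc 1 N, LR R * ((if R < n.minFac then
      2 * (a n * (starRingEnd ℂ) (f n)).re else - (2 * (‖a n‖ * ‖f n‖)))
      - 2 * ((∫ y : ℝ, ‖f2 y‖) / w) * ‖a n‖) - LR R * ∫ y : ℝ, ‖f y‖ ^ 2 := by
    rw [← Finset.mul_sum, Finset.sum_sub_distrib, ← Finset.mul_sum, Finset.sum_ite,
      Finset.sum_neg_distrib, ← Finset.mul_sum, ← Finset.mul_sum]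
    unfold gain
    rw [Complex.re_sum]
    have : (Finset.Icc 1 N).filter (fun n => ¬ R < n.minFac) =
        (Finset.Icc 1 N).filter (fun n => n.minFac ≤ R) := by
      apply Finset.filter_congr
      intro n _
      exact not_lt
    rw [this]
    ring
  rw [hgain]
  have h5 : ∑ n ∈ Finset.Icc 1 N, LR R * ((if R < n.minFac then
      2 * (a n * (starRingEnd ℂ) (f n)).re else - (2 * (‖a n‖ * ‖f n‖)))
      - 2 * ((∫ y : ℝ, ‖f2 y‖) / w) * ‖a n‖) ≤
      2 * (∑ n ∈ Finset.Icc 1 N, a n * WR R n * (starRingEnd ℂ) (Tn n)).re := by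
    rw [Complex.re_sum, Finset.mul_sum]
    exact Finset.sum_le_sum hterm
  have h6 : LR R * (∫ η in (-w)..w, ‖Fh f η‖ ^ 2) ≤ LR R * ∫ y : ℝ, ‖f y‖ ^ 2 :=
    mul_le_mul_of_nonneg_left hFp hLR0
  linarith

end H385
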