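import Pool.Agent.H385R2.PrimLS
import Pool.Agent.H385R2.FlatAdd
import Pool.Agent.H385R2.PlateauLow
import Pool.Agent.H385R2.PlateauLS

/-!
TEAM Q, module S10 : large sieve over primitive characters with the plateau gain.
-/

set_option autoImplicit false

open Complex Filter Topology Set MeasureTheory

namespace H385


namespace PrimLS2

/-- comparison of the gains -/
lemma gain_mono (N R : ℕ) (w : ℝ) (hw : 0 < w) (a a' : ℕ → ℂ) (f f2 : ℝ → ℂ)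
    (h1 : ∀ n, R < n.minFac → a n = a' n) (h2 : ∀ n, ‖a n‖ ≤ ‖a' n‖) :
    gain N R w a' f f2 ≤ gain N R w a f f2 := by
  unfold gain
  have h3 : ∑ n ∈ (Finset.Icc 1 N).filter (fun n => R < n.minFac), a n * (starRingEnd ℂ) (f n) =
      ∑ n ∈ (Finset.Icc 1 N).filter (fun n => R < n.minFac), a' n * (starRingEnd ℂ) (f n) := by
    apply Finset.sum_congr rfl
    intro n hn
    rw [h1 n (Finset.mem_filter.mp hn).2]
  have h4 : ∑ n ∈ (Finset.Icc 1 N).filter (fun n => n.minFac ≤ R), ‖a n‖ * ‖f n‖ ≤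
      ∑ n ∈ (Finset.Icc 1 N).filter (fun n => n.minFac ≤ R), ‖a' n‖ * ‖f n‖ := by
    apply Finset.sum_le_sum
    intro n _
    exact mul_le_mul_of_nonneg_right (h2 n) (norm_nonneg _)
  have h5 : ∑ n ∈ Finset.Icc 1 N, ‖a n‖ ≤ ∑ n ∈ Finset.Icc 1 N, ‖a' n‖ :=
    Finset.sum_le_sum (fun n _ => h2 n)
  have h6 : 0 ≤ (∫ y : ℝ, ‖f2 y‖) / w :=
    div_nonneg (integral_nonneg (fun _ => norm_nonneg _)) hw.le
  have h7 := mul_le_mul_of_nonneg_left h5 h6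
  rw [h3]
  linarith

lemma conds (P R X Y V w δ C : ℝ) (hP : 1 ≤ P) (hR : 1 ≤ R) (hX : 0 < X) (hY : 0 < Y)
    (hw : 0 < w) (hV : 1 ≤ V) (hδ : 0 < δ) (hδ1 : δ ≤ 1) (h1 : 4 * P / δ ≤ C) (h2 : 4 * P ≤ C)
    (h3 : 16 / δ ≤ C) (hc1 : C * R * Y ≤ V) (hc2 : C * w * R * Y ≤ 1) (hc3 : C ≤ V * w)
    (hVX : V ≤ X ^ 2) (hXY : X ≤ P * Y) :
    4 * R * (P * Y) ≤ δ * V ∧ 4 * w * R * (P * Y) ≤ 1 ∧ 16 ≤ δ * V * w ∧ 2 * w * R ^ 2 < 1 := by
  have hRY : 0 < R * Y := by positivity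
  have a1 : 4 * P / δ * (R * Y) ≤ C * (R * Y) := mul_le_mul_of_nonneg_right h1 hRY.le
  have a2 : 4 * P / δ * (R * Y) ≤ V := by linarith
  have b1 : 4 * R * (P * Y) ≤ δ * V := by
    rw [div_mul_eq_mul_div, div_le_iff₀ hδ] at a2
    linarith
  have a3 : 4 * P * (w * (R * Y)) ≤ C * (w * (R * Y)) :=
    mul_le_mul_of_nonneg_right h2 (by positivity)
  have b2 : 4 * w * R * (P * Y) ≤ 1 := by linarith
  have a4 : 16 / δ ≤ V * w := h3.trans hc3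
  have b3 : 16 ≤ δ * V * w := by
    rw [div_le_iff₀ hδ] at a4
    linarith
  refine ⟨b1, b2, b3, ?_⟩
  have hPY : 0 < P * Y := by positivity
  have a5 : V ≤ (P * Y) ^ 2 := hVX.trans (pow_le_pow_left₀ hX.le hXY 2)
  have a6 : δ * V ≤ 1 * V := mul_le_mul_of_nonneg_right hδ1 (by linarith)
  have a7 : 4 * R * (P * Y) ≤ (P * Y) * (P * Y) := by
    calc 4 * R * (P * Y) ≤ δ * V := b1
      _ ≤ (P * Y) * (P * Y) := by rw [one_mul] at a6; rw [sq] at a5; linarith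
  have a8 : 4 * R ≤ P * Y := le_of_mul_le_mul_right a7 hPY
  have a9 : w * R * (4 * R) ≤ w * R * (P * Y) := mul_le_mul_of_nonneg_left a8 (by positivity)
  have a10 : 2 * w * R ^ 2 = w * R * (4 * R) / 2 := by ring
  rw [a10]
  linarith

lemma mbr (Δ M I ex S G lR ga δ ε : ℝ) (hΔ : 0 < Δ) (hδε : δ ≤ ε) (hδ : 0 < δ) (hex : 0 < ex)
    (hS : 0 ≤ S) (hSG : S ≤ G) (h : M + Δ * I ≤ (1 + δ) * ex * Δ * S) (hI : lR * ga ≤ I) :
    M ≤ Δ * ((1 + ε) * ex * G - lR * ga) := by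
  have h2 := mul_le_mul_of_nonneg_left hI hΔ.le
  have hε : 0 < ε := lt_of_lt_of_le hδ hδε
  have h3 : (1 + δ) * ex * Δ * S ≤ (1 + ε) * ex * Δ * G := by
    gcongr
  have h4 : Δ * ((1 + ε) * ex * G - lR * ga) = (1 + ε) * ex * Δ * G - Δ * (lR * ga) := by ring
  rw [h4]
  linarith

lemma dk (K D c lP L C1 C ε : ℝ) (hK : 1 ≤ K) (hc : 0 < c) (hD1 : D ≤ 1)
    (hD : D ≤ c * (1 + ε)) (hlP : 0 ≤ lP) (hL : 0 ≤ L) (hC1 : 0 < C1) (hC : c * lP + C1 ≤ C) :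
    c * (K * D) * (lP + L) + C1 ≤ K * (c ^ 2 * (1 + ε) * L + C) := by
  have hK0 : 0 ≤ K := by linarith
  have h1 : c * D ≤ c * (c * (1 + ε)) := mul_le_mul_of_nonneg_left hD hc.le
  have h2 : c * D * L ≤ c * (c * (1 + ε)) * L := mul_le_mul_of_nonneg_right h1 hL
  have h3 : c * lP * D ≤ c * lP * 1 := mul_le_mul_of_nonneg_left hD1 (by positivity)
  have h4 : 1 * C1 ≤ K * C1 := mul_le_mul_of_nonneg_right hK hC1.le
  have h5 : K * (c * D * L + c * lP * D) ≤ K * (c * (c * (1 + ε)) * L + c * lP * 1) :=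
    mul_le_mul_of_nonneg_left (by linarith) hK0
  have h7 : K * (c * lP + C1) ≤ K * C := mul_le_mul_of_nonneg_left hC hK0
  linarith

lemma kf (K F M E E' Δ Br Q δ : ℝ) (hK : 1 ≤ K) (hδ : 0 < δ) (hBr : 0 ≤ Br)
    (h1 : K * F ≤ (1 + δ) * M + (2 / δ) * E') (h2 : M ≤ Δ * Br) (h3 : Δ ≤ K * Q) (h4 : E' ≤ E)
    (hE : 0 ≤ E) : F ≤ (1 + δ) * Q * Br + (2 / δ) * E := by
  have hK0 : 0 < K := by linarith
  have a1 : M ≤ K * Q * Br := h2.trans (mul_le_mul_of_nonneg_right h3 hBr)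
  have a2 : (1 + δ) * M ≤ (1 + δ) * (K * Q * Br) := mul_le_mul_of_nonneg_left a1 (by linarith)
  have a3 : (2 / δ) * E' ≤ (2 / δ) * E := mul_le_mul_of_nonneg_left h4 (by positivity)
  have a4 : 1 * ((2 / δ) * E) ≤ K * ((2 / δ) * E) := mul_le_mul_of_nonneg_right hK (by positivity)
  have a5 : K * F ≤ K * ((1 + δ) * Q * Br + (2 / δ) * E) := by
    calc K * F ≤ (1 + δ) * (K * Q * Br) + K * ((2 / δ) * E) := by linarith
      _ = _ := by ring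
  exact le_of_mul_le_mul_left a5 hK0

lemma fin (S0 F RR MM Q Br E L C C2 δ ε : ℝ) (hδ : 0 < δ) (hδδ : (1 + δ) * (1 + δ) ≤ 1 + ε)
    (hQ : 0 ≤ Q) (hBr : 0 ≤ Br) (hE : 0 ≤ E) (hRR : 0 ≤ RR) (hL : 0 ≤ L)
    (h1 : S0 ≤ (1 + δ) * F + (1 + 1 / δ) * (2 * RR) * MM)
    (h2 : F ≤ (1 + δ) * Q * Br + (2 / δ) * E) (h3 : MM ≤ (1 + C2) * (L + 1))
    (hC1 : (1 + δ) * (2 / δ) ≤ C) (hC2 : (1 + 1 / δ) * (2 * (1 + C2)) ≤ C) :
    S0 ≤ (1 + ε) * Q * Br + C * E + C * (L + 1) * RR := by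
  have a1 := mul_le_mul_of_nonneg_left h2 (by linarith : (0 : ℝ) ≤ 1 + δ)
  have a2 : (1 + δ) * (1 + δ) * (Q * Br) ≤ (1 + ε) * (Q * Br) :=
    mul_le_mul_of_nonneg_right hδδ (by positivity)
  have a3 : (1 + δ) * (2 / δ) * E ≤ C * E := mul_le_mul_of_nonneg_right hC1 hE
  have a4 : (1 + 1 / δ) * (2 * RR) * MM ≤ (1 + 1 / δ) * (2 * RR) * ((1 + C2) * (L + 1)) :=
    mul_le_mul_of_nonneg_left h3 (by positivity)
  have a5 : (1 + 1 / δ) * (2 * (1 + C2)) * ((L + 1) * RR) ≤ C * ((L + 1) * RR) :=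
    mul_le_mul_of_nonneg_right hC2 (by positivity)
  have a6 : (1 + δ) * ((1 + δ) * Q * Br + 2 / δ * E) =
      (1 + δ) * (1 + δ) * (Q * Br) + (1 + δ) * (2 / δ) * E := by ring
  have a7 : (1 + 1 / δ) * (2 * RR) * ((1 + C2) * (L + 1)) =
      (1 + 1 / δ) * (2 * (1 + C2)) * ((L + 1) * RR) := by ring
  have a8 : C * (L + 1) * RR = C * ((L + 1) * RR) := by ring
  have a9 : (1 + ε) * Q * Br = (1 + ε) * (Q * Br) := by ring
  rw [a8, a9]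
  rw [a6] at a1
  rw [a7] at a4
  linarith

open PrimLS FamLS

/-- first step: truncation and restriction to `(n,P) = 1` -/
lemma step1 (X Y P N : ℕ) (b : ℕ → ℂ) (hs : Summable (mj b)) (δ : ℝ) (hδ0 : 0 < δ) :
    primFam X Y (fun q χ =>
        ‖∑' n : ℕ, χ (n : ZMod q) * (ArithmeticFunction.vonMangoldt n : ℂ) * b n‖ ^ 2) ≤
      (1 + δ) * primFam X Y (fun q χ => ‖∑ n ∈ Finset.Icc 1 N, be P b n * χ (n : ZMod q)‖ ^ 2) +
      (1 + 1 / δ) * (2 * ((∑' n, BB1 b P n) ^ 2 + (∑' n, TT1 b N n) ^ 2)) *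
        ∑ q ∈ Finset.Ioc X Y, (Nat.totient q : ℝ) / (q : ℝ) ^ 2 := by
  apply primFam_le
  · positivity
  · intro q χ
    have h1 := split b hs P N q χ
    have h2 := sq_add_le (∑ n ∈ Finset.Icc 1 N, be P b n * χ (n : ZMod q))
      (∑' n : ℕ, χ (n : ZMod q) * (ArithmeticFunction.vonMangoldt n : ℂ) * b n -
        ∑ n ∈ Finset.Icc 1 N, be P b n * χ (n : ZMod q)) δ hδ0
    rw [add_sub_cancel] at h2
    refine h2.trans ?_
    generalize hR1 : ∑' n, BB1 b P n = R1 at h1 ⊢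
    generalize hR2 : ∑' n, TT1 b N n = R2 at h1 ⊢
    have h3 : ‖∑' n : ℕ, χ (n : ZMod q) * (ArithmeticFunction.vonMangoldt n : ℂ) * b n -
        ∑ n ∈ Finset.Icc 1 N, be P b n * χ (n : ZMod q)‖ ^ 2 ≤ (R1 + R2) ^ 2 :=
      pow_le_pow_left₀ (norm_nonneg _) h1 2
    have h4 : (R1 + R2) ^ 2 ≤ 2 * (R1 ^ 2 + R2 ^ 2) := by nlinarith [sq_nonneg (R1 - R2)]
    have h5 : 0 ≤ 1 + 1 / δ := by positivity
    have h6 := mul_le_mul_of_nonneg_left (h3.trans h4) h5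
    linarith

lemma sq_le (N P : ℕ) (b : ℕ → ℂ) : ∑ n ∈ Finset.Icc 1 N, ‖be P b n‖ ^ 2 ≤
    ∑ n ∈ Finset.Icc 1 N, (ArithmeticFunction.vonMangoldt n) ^ 2 * ‖b n‖ ^ 2 := by
  apply Finset.sum_le_sum
  intro n _
  have h1 := pow_le_pow_left₀ (norm_nonneg _) (be_norm P b n) 2
  unfold mj at h1
  rw [mul_pow] at h1
  exact h1

lemma err_le (X B N P : ℕ) (b : ℕ → ℂ) (hs : Summable (mj b)) :
    ∑ q ∈ Finset.Ioc X B, (1 / (q : ℝ)) *
        (∑ n ∈ (Finset.Icc 1 N).filter (fun n => ¬ Nat.Coprime n q), ‖be P b n‖) ^ 2 ≤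
    ∑ q ∈ Finset.Ioc X B, (1 / (q : ℝ)) *
        (∑' n : ℕ, if Nat.Coprime n q then 0 else ArithmeticFunction.vonMangoldt n * ‖b n‖) ^ 2 := by
  apply Finset.sum_le_sum
  intro q _
  apply mul_le_mul_of_nonneg_left _ (by positivity)
  apply pow_le_pow_left₀ (Finset.sum_nonneg (fun _ _ => norm_nonneg _))
  have h1 : ∑ n ∈ (Finset.Icc 1 N).filter (fun n => ¬ Nat.Coprime n q), ‖be P b n‖ ≤
      ∑ n ∈ (Finset.Icc 1 N).filter (fun n => ¬ Nat.Coprime n q), BB1 b q n := by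
    apply Finset.sum_le_sum
    intro n hn
    unfold BB1
    rw [if_neg (Finset.mem_filter.mp hn).2]
    exact be_norm P b n
  exact h1.trans ((BB1_summable b hs q).sum_le_tsum _ (fun n _ => BB1_nonneg b q n))

/-- main step: plateau -/
lemma plat (P : ℕ) (hsf : Squarefree P) (X Y N R : ℕ) (V w δ ε C1 C : ℝ) (b : ℕ → ℂ)
    (f f1 f2 : ℝ → ℂ) (hX : 1 ≤ X) (hXY : X ≤ Y) (hPR : P ≤ R) (hf : C2I f f1 f2) (hV : 1 ≤ V)
    (hVX : V ≤ (X : ℝ) ^ 2) (hw : 0 < w) (hδ0 : 0 < δ) (hδ1 : δ ≤ 1) (hδε : δ ≤ ε) (hC1 : 0 < C1)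
    (h1 : 4 * (P : ℝ) / δ ≤ C) (h2 : 4 * (P : ℝ) ≤ C) (h3 : 16 / δ ≤ C)
    (hc1 : C * R * Y ≤ V) (hc2 : C * w * R * Y ≤ 1) (hc3 : C ≤ V * w)
    (hden : ∀ (A B : ℕ) (V θ : ℝ), 1 ≤ A → A ≤ B → 1 ≤ V → V ≤ (A : ℝ) ^ 2 →
      ∑ q ∈ Finset.Ioc A B, (hP P q / (q : ℝ) ^ 2) *
        ∑' a : ℤ, (if Int.gcd a q = 1 then PK V (θ - a / q) else 0) ≤
      c0 * (∏ p ∈ P.primeFactors,
        (((p : ℝ) + (p : ℝ) ^ 2 / ((p : ℝ) ^ 2 + p + 1)) / (p + 1))) * Real.log ((B : ℝ) / A) + C1) :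
    ∃ Δ : ℝ, 0 < Δ ∧ Δ = c0 * ((∏ p ∈ P.primeFactors, Flat.kp p) *
        ∏ p ∈ P.primeFactors, (1 - 1 / (p : ℝ) ^ 2)) *
          (Real.log P + Real.log ((Y : ℝ) / X)) + C1 ∧
      ∑ q ∈ Finset.Ioc X (P * Y), (hP P q / (q : ℝ) ^ 2) *
        ∑ c ∈ (Finset.range q).filter (fun c => Nat.Coprime c q), ‖SS N (be P b) ((c : ℝ) / q)‖ ^ 2
      ≤ Δ * ((1 + ε) * Real.exp (Real.pi * N / V) *
          ∑ n ∈ Finset.Icc 1 N, (ArithmeticFunction.vonMangoldt n) ^ 2 * ‖b n‖ ^ 2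
        - Real.log R * gain N R w (fun n => (ArithmeticFunction.vonMangoldt n : ℂ) * b n) f f2) := by
  have hc0 : 0 < c0 := by unfold c0; positivity
  have hP1 : 1 ≤ P := Nat.one_le_iff_ne_zero.mpr hsf.ne_zero
  have hP1R : (1 : ℝ) ≤ P := by exact_mod_cast hP1
  have hX0 : (0 : ℝ) < X := by exact_mod_cast hX
  have hY0 : (0 : ℝ) < Y := by exact_mod_cast (lt_of_lt_of_le hX hXY)
  have hR1 : 1 ≤ R := hP1.trans hPR
  have hR1R : (1 : ℝ) ≤ R := by exact_mod_cast hR1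
  have hXYR : (X : ℝ) ≤ Y := by exact_mod_cast hXY
  have hlog : 0 ≤ Real.log ((Y : ℝ) / X) := by
    apply Real.log_nonneg
    rw [le_div_iff₀ hX0, one_mul]
    exact hXYR
  have hlogP : 0 ≤ Real.log P := Real.log_nonneg hP1R
  have hlogR : 0 ≤ Real.log R := Real.log_nonneg hR1R
  have hK0 : 0 ≤ ∏ p ∈ P.primeFactors, Flat.kp p := Finset.prod_nonneg
    (fun p hp => zero_le_one.trans (Flat.kp_one_le p (Nat.prime_of_mem_primeFactors hp)))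
  have hD0 : 0 ≤ ∏ p ∈ P.primeFactors, (1 - 1 / (p : ℝ) ^ 2) := by
    apply Finset.prod_nonneg
    intro p hp
    have h2 : (1 : ℝ) ≤ p := by exact_mod_cast (Nat.prime_of_mem_primeFactors hp).one_lt.le
    have h3 : 1 / (p : ℝ) ^ 2 ≤ 1 := by
      rw [div_le_one (by positivity)]
      nlinarith
    linarith
  have hlog2 : Real.log (((P * Y : ℕ) : ℝ) / X) = Real.log P + Real.log ((Y : ℝ) / X) := by
    rw [Nat.cast_mul, mul_div_assoc, Real.log_mul (by positivity) (by positivity)]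
  have hXPY : X ≤ P * Y := hXY.trans (Nat.le_mul_of_pos_left Y hP1)
  have hXPYR : (X : ℝ) ≤ P * Y := by exact_mod_cast hXPY
  obtain ⟨hcond1, hcond2, hcond3, hw2⟩ := conds P R X Y V w δ C hP1R hR1R hX0 hY0 hw hV hδ0 hδ1
    h1 h2 h3 hc1 hc2 hc3 hVX hXPYR
  have hcast : ((P * Y : ℕ) : ℝ) = (P : ℝ) * Y := by push_cast; rfl
  rw [← hcast] at hcond1 hcond2
  have hden' : ∀ V' θ : ℝ, 1 ≤ V' → V' ≤ (X : ℝ) ^ 2 → ∑ q ∈ Finset.Ioc X (P * Y),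
      (hP P q / (q : ℝ) ^ 2) *
      ∑' a : ℤ, (if Int.gcd a q = 1 then PK V' (θ - a / q) else 0) ≤
      c0 * ((∏ p ∈ P.primeFactors, Flat.kp p) *
        ∏ p ∈ P.primeFactors, (1 - 1 / (p : ℝ) ^ 2)) *
          (Real.log P + Real.log ((Y : ℝ) / X)) + C1 := by
    intro V' θ h1 h2
    have h3 := hden X (P * Y) V' θ hX hXPY h1 h2
    rw [Flat.const_eq, hlog2] at h3
    exact h3
  have hΔ0 : 0 < c0 * ((∏ p ∈ P.primeFactors, Flat.kp p) *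
        ∏ p ∈ P.primeFactors, (1 - 1 / (p : ℝ) ^ 2)) *
          (Real.log P + Real.log ((Y : ℝ) / X)) + C1 := by
    have : 0 ≤ c0 * ((∏ p ∈ P.primeFactors, Flat.kp p) *
        ∏ p ∈ P.primeFactors, (1 - 1 / (p : ℝ) ^ 2)) *
          (Real.log P + Real.log ((Y : ℝ) / X)) :=
      mul_nonneg (mul_nonneg hc0.le (mul_nonneg hK0 hD0)) (add_nonneg hlogP hlog)
    linarith
  refine ⟨_, hΔ0, rfl, ?_⟩
  have hpl := plateau_ls X (P * Y) R N V w δ _ (hP P) (Flat.hP_nonneg P) hX hXPY hR1 hV hVX hδ0 hδ1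
    hw hcond1 hcond2 hcond3 hΔ0.le hden' (be P b)
  have hsupp : ∀ n, ¬ IsPrimePow n → be P b n = 0 := by
    intro n hn
    unfold be
    have : ArithmeticFunction.vonMangoldt n = 0 := ArithmeticFunction.vonMangoldt_eq_zero_iff.mpr hn
    rw [this]
    simp
  have hlow := plateau_lower N R w hR1 hw hw2 (be P b) hsupp f f1 f2 hf
  have hgain := gain_mono N R w hw (be P b) (fun n => (ArithmeticFunction.vonMangoldt n : ℂ) * b n)
    f f2 (by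
      intro n hn
      unfold be
      rw [if_pos]
      by_contra hcop
      obtain ⟨p, hp, hpn, hpP⟩ := Nat.Prime.not_coprime_iff_dvd.mp hcop
      have h1 : n.minFac ≤ p := Nat.minFac_le_of_dvd hp.two_le hpn
      have h2 : p ≤ P := Nat.le_of_dvd hP1 hpP
      omega) (by
      intro n
      have := be_norm P b n
      unfold mj at this
      rw [norm_mul, Complex.norm_real, Real.norm_of_nonneg ArithmeticFunction.vonMangoldt_nonneg]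
      exact this)
  exact mbr _ _ _ _ _ _ _ _ δ ε hΔ0 hδε hδ0 (Real.exp_pos _)
    (Finset.sum_nonneg (fun _ _ => by positivity)) (sq_le N P b) hpl
    ((mul_le_mul_of_nonneg_left hgain hlogR).trans hlow)

end PrimLS2

open PrimLS FamLS PrimLS2 in
theorem prim_ls2 (ε : ℝ) (hε : 0 < ε) (hε1 : ε ≤ 1) : ∃ (C : ℝ) (P : ℕ), 0 < C ∧ 1 ≤ P ∧
    ∀ (X Y N R : ℕ) (V w : ℝ) (b : ℕ → ℂ) (f f1 f2 : ℝ → ℂ), 1 ≤ X → X ≤ Y → P ≤ R → C2I f f1 f2 →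
    1 ≤ V → V ≤ (X : ℝ) ^ 2 → 0 < w → C * R * Y ≤ V → C * w * R * Y ≤ 1 → C ≤ V * w →
    Summable (fun n => ArithmeticFunction.vonMangoldt n * ‖b n‖) →
    primFam X Y (fun q χ =>
        ‖∑' n : ℕ, χ (n : ZMod q) * (ArithmeticFunction.vonMangoldt n : ℂ) * b n‖ ^ 2) ≤
      (1 + ε) * (c0 ^ 2 * (1 + ε) * Real.log ((Y : ℝ) / X) + C) *
        ((1 + ε) * Real.exp (Real.pi * N / V) *
          ∑ n ∈ Finset.Icc 1 N, (ArithmeticFunction.vonMangoldt n) ^ 2 * ‖b n‖ ^ 2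
        - Real.log R * gain N R w (fun n => (ArithmeticFunction.vonMangoldt n : ℂ) * b n) f f2)
      + C * ∑ q ∈ Finset.Ioc X (P * Y), (1 / (q : ℝ)) *
        (∑' n : ℕ, if Nat.Coprime n q then 0 else ArithmeticFunction.vonMangoldt n * ‖b n‖) ^ 2
      + C * (Real.log ((Y : ℝ) / X) + 1) *
        ((∑' n : ℕ, if Nat.Coprime n P then 0 else ArithmeticFunction.vonMangoldt n * ‖b n‖) ^ 2 +
         (∑' n : ℕ, if N < n then ArithmeticFunction.vonMangoldt n * ‖b n‖ else 0) ^ 2) := by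
  obtain ⟨P, hsf, hD⟩ := euler_exists ε hε
  obtain ⟨C1, hC1, hden⟩ := farey_density_h P hsf
  obtain ⟨C2, hC2, hmass⟩ := mass_bounds
  have hc0 : 0 < c0 := by unfold c0; positivity
  have hc01 : c0 ≤ 1 := Farey.c0_le_one
  have hP1 : 1 ≤ P := Nat.one_le_iff_ne_zero.mpr hsf.ne_zero
  have hP1R : (1 : ℝ) ≤ P := by exact_mod_cast hP1
  have hlogP : 0 ≤ Real.log P := Real.log_nonneg hP1R
  obtain ⟨δ, hδ⟩ : ∃ δ : ℝ, δ = ε / 3 := ⟨_, rfl⟩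
  have hδ0 : 0 < δ := by rw [hδ]; positivity
  have hδ1 : δ ≤ 1 := by rw [hδ]; linarith
  have hδε : δ ≤ ε := by rw [hδ]; linarith
  have hδδ : (1 + δ) * (1 + δ) ≤ 1 + ε := by
    rw [hδ]; nlinarith
  clear hδ
  have hA0 : 0 < c0 * Real.log P + C1 := by positivity
  have hA1 : 0 < (1 + δ) * (2 / δ) := by positivity
  have hA2 : 0 < (1 + 1 / δ) * (2 * (1 + C2)) := by positivity
  have hA3 : 0 < 4 * (P : ℝ) / δ := by positivity
  have hA4 : 0 < 4 * (P : ℝ) := by positivity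
  have hA5 : 0 < 16 / δ := by positivity
  obtain ⟨C, hC⟩ : ∃ C : ℝ, C = (c0 * Real.log P + C1) + (1 + δ) * (2 / δ) +
    (1 + 1 / δ) * (2 * (1 + C2)) + 4 * P / δ + 4 * P + 16 / δ := ⟨_, rfl⟩
  have hCg0 : c0 * Real.log P + C1 ≤ C := by rw [hC]; linarith
  have hCg1 : (1 + δ) * (2 / δ) ≤ C := by rw [hC]; linarith
  have hCg2 : (1 + 1 / δ) * (2 * (1 + C2)) ≤ C := by rw [hC]; linarith
  have hCg3 : 4 * (P : ℝ) / δ ≤ C := by rw [hC]; linarith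
  have hCg4 : 4 * (P : ℝ) ≤ C := by rw [hC]; linarith
  have hCg5 : 16 / δ ≤ C := by rw [hC]; linarith
  have hC0 : 0 < C := by linarith
  clear hC hA0 hA1 hA2 hA3 hA4 hA5
  refine ⟨C, P, hC0, hP1, ?_⟩
  intro X Y N R V w b f f1 f2 hX hXY hPR hf hV hVX hw hc1 hc2 hc3 hs
  have hX0 : (0 : ℝ) < X := by exact_mod_cast hX
  have hlog : 0 ≤ Real.log ((Y : ℝ) / X) := by
    apply Real.log_nonneg
    rw [le_div_iff₀ hX0, one_mul]
    exact_mod_cast hXY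
  have hs' : Summable (mj b) := hs
  obtain ⟨Δ, hΔ0, hΔe, hM⟩ := plat P hsf X Y N R V w δ ε C1 C b f f1 f2 hX hXY hPR hf hV hVX hw
    hδ0 hδ1 hδε hC1 hCg3 hCg4 hCg5 hc1 hc2 hc3 hden
  have hstep1 := step1 X Y P N b hs' δ hδ0
  have hadd := flat_add P hsf X Y N (be P b) hX hXY (fun n hn => if_neg hn) δ hδ0 hδ1
  have hK1 : 1 ≤ ∏ p ∈ P.primeFactors, Flat.kp p := Finset.one_le_prod
    (fun p hp => Flat.kp_one_le p (Nat.prime_of_mem_primeFactors hp))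
  have hD1 : ∏ p ∈ P.primeFactors, (1 - 1 / (p : ℝ) ^ 2) ≤ 1 := by
    have hDp : ∀ p ∈ P.primeFactors, 0 ≤ (1 - 1 / (p : ℝ) ^ 2) ∧ (1 - 1 / (p : ℝ) ^ 2) ≤ 1 := by
      intro p hp
      have h2 : (1 : ℝ) ≤ p := by exact_mod_cast (Nat.prime_of_mem_primeFactors hp).one_lt.le
      have h3 : 1 / (p : ℝ) ^ 2 ≤ 1 := by
        rw [div_le_one (by positivity)]
        nlinarith
      have h4 : 0 ≤ 1 / (p : ℝ) ^ 2 := by positivity
      constructor <;> linarith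
    exact Finset.prod_le_one (fun p hp => (hDp p hp).1) (fun p hp => (hDp p hp).2)
  have hKeq : ∏ p ∈ P.primeFactors, (1 - 1 / (p : ℝ) ^ 3)⁻¹ = ∏ p ∈ P.primeFactors, Flat.kp p := by
    apply Finset.prod_congr rfl
    intro p hp'
    have hpp := Nat.prime_of_mem_primeFactors hp'
    have h2 : (2 : ℝ) ≤ p := by exact_mod_cast hpp.two_le
    have h6 : (p : ℝ) ≠ 0 := by linarith
    unfold Flat.kp
    rw [one_sub_div (pow_ne_zero 3 h6), inv_div]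
  rw [hKeq] at hadd
  have hMass : ∑ q ∈ Finset.Ioc X Y, (Nat.totient q : ℝ) / (q : ℝ) ^ 2 ≤
      (1 + C2) * (Real.log ((Y : ℝ) / X) + 1) := by
    have h1 := (abs_le.mp (hmass X Y hX hXY)).2
    have h2 : c0 * Real.log ((Y : ℝ) / X) ≤ 1 * Real.log ((Y : ℝ) / X) :=
      mul_le_mul_of_nonneg_right hc01 hlog
    have h3 : 0 ≤ C2 * Real.log ((Y : ℝ) / X) := by positivity
    linarith
  have hΔK : Δ ≤ (∏ p ∈ P.primeFactors, Flat.kp p) *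
      (c0 ^ 2 * (1 + ε) * Real.log ((Y : ℝ) / X) + C) := by
    rw [hΔe]
    exact dk _ _ c0 _ _ C1 C ε hK1 hc0 hD1 hD hlogP hlog hC1 hCg0
  have hM0 : 0 ≤ ∑ q ∈ Finset.Ioc X (P * Y), (hP P q / (q : ℝ) ^ 2) *
        ∑ c ∈ (Finset.range q).filter (fun c => Nat.Coprime c q),
          ‖SS N (be P b) ((c : ℝ) / q)‖ ^ 2 := by
    apply Finset.sum_nonneg
    intro q _
    have := Flat.hP_nonneg P q
    positivity
  have hBr0 : 0 ≤ (1 + ε) * Real.exp (Real.pi * N / V) *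
          ∑ n ∈ Finset.Icc 1 N, (ArithmeticFunction.vonMangoldt n) ^ 2 * ‖b n‖ ^ 2
        - Real.log R * gain N R w (fun n => (ArithmeticFunction.vonMangoldt n : ℂ) * b n) f f2 :=
    nonneg_of_mul_nonneg_right (hM0.trans hM) hΔ0
  have hE0 : 0 ≤ ∑ q ∈ Finset.Ioc X (P * Y), (1 / (q : ℝ)) *
        (∑' n : ℕ, if Nat.Coprime n q then 0 else ArithmeticFunction.vonMangoldt n * ‖b n‖) ^ 2 :=
    Finset.sum_nonneg (fun _ _ => by positivity)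
  have hF := kf _ _ _ _ _ Δ _ _ δ hK1 hδ0 hBr0 hadd hM hΔK (err_le X (P * Y) N P b hs') hE0
  have hQ0 : 0 ≤ c0 ^ 2 * (1 + ε) * Real.log ((Y : ℝ) / X) + C := by positivity
  exact fin _ _ _ _ _ _ _ _ C C2 δ ε hδ0 hδδ hQ0 hBr0 hE0 (by positivity) hlog hstep1 hF hMass
    hCg1 hCg2

end H385
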