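import Pool.Agent.H385R2.FinB3
import Pool.Agent.H385R2.PrimLS2
import Pool.Agent.H385R2.LogGauss
import Pool.Agent.H385R2.Bulk
import Pool.Agent.H385R2.Mert
import Pool.Agent.H385R2.NTW2

open Complex Filter Topology Set MeasureTheory
open H370 (zset mult NN Nd Ns)

set_option maxHeartbeats 4000000

namespace H385

noncomputable def m1 (u : ℝ) : ℝ :=
  ∑' n : ℕ, (ArithmeticFunction.vonMangoldt n) / n * Real.exp (-(u - Real.log n) ^ 2)

noncomputable def PPs (u : ℝ) : ℝ :=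
  ∑' n : ℕ, (if n.Prime then 0 else (ArithmeticFunction.vonMangoldt n) / n *
        Real.exp (-(u - Real.log n) ^ 2 / 2))

noncomputable def Hh (u : ℝ) : ℝ := ∑' n : ℕ, ArithmeticFunction.vonMangoldt n / Real.sqrt n *
  Real.exp (-(u - Real.log n) ^ 2 / 4)

theorem fl_nat (u t : ℝ) (n : ℕ) (hn : 1 ≤ n) : fl u t n =
    ((Real.sqrt n : ℂ)⁻¹) * (((1 / Real.sqrt (2 * Real.pi) * Real.exp (-(u - Real.log n) ^ 2 / 2) : ℝ) : ℂ) *
      cexp (I * t * (u - Real.log n))) := by
  unfold fl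
  have : (0 : ℝ) < n := by exact_mod_cast hn
  rw [if_pos this]
  push_cast
  ring

theorem norm_phase (t x : ℝ) : ‖cexp (I * t * x)‖ = 1 := by
  rw [show I * (t : ℂ) * x = ((t * x : ℝ) : ℂ) * I by push_cast; ring]
  exact Complex.norm_exp_ofReal_mul_I _

theorem bb0_norm (u t ℓ : ℝ) :
    ‖((1 / Real.sqrt (2 * Real.pi) * Real.exp (-(u - ℓ) ^ 2 / 2) : ℝ) : ℂ) *
      cexp (I * t * (u - ℓ))‖ = 1 / Real.sqrt (2 * Real.pi) * Real.exp (-(u - ℓ) ^ 2 / 2) := by
  rw [norm_mul]
  have := norm_phase t (u - ℓ)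
  push_cast at this
  rw [this, mul_one, Complex.norm_real, Real.norm_of_nonneg (by positivity)]

/-- main term of one prime power -/
theorem term_lower : ∃ C : ℝ, 0 < C ∧ ∀ T L u t : ℝ, 1 ≤ L → T + L ≤ t → t ≤ 2 * T - L → ∀ n : ℕ, 1 ≤ n →
    1 / Real.pi * (ArithmeticFunction.vonMangoldt n / n * Real.exp (-(u - Real.log n) ^ 2)) -
      C * Real.exp (-L ^ 2 / 4) * (ArithmeticFunction.vonMangoldt n / n *
        Real.exp (-(u - Real.log n) ^ 2 / 2)) ≤
    2 * (((ArithmeticFunction.vonMangoldt n : ℂ) * ((Real.sqrt n : ℂ)⁻¹ * bt T u t (Real.log n))) *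
      (starRingEnd ℂ) (fl u t n)).re := by
  obtain ⟨C, hC, h⟩ := bt_bulk
  refine ⟨2 * C, by positivity, ?_⟩
  intro T L u t hL ht1 ht2 n hn
  have hn0 : (0 : ℝ) < n := by exact_mod_cast hn
  have hb := h T L u t (Real.log n) hL ht1 ht2
  set b0 : ℂ := ((1 / Real.sqrt (2 * Real.pi) * Real.exp (-(u - Real.log n) ^ 2 / 2) : ℝ) : ℂ) *
      cexp (I * t * (u - Real.log n)) with hb0
  have hb0n : ‖b0‖ = 1 / Real.sqrt (2 * Real.pi) * Real.exp (-(u - Real.log n) ^ 2 / 2) :=
    bb0_norm u t (Real.log n)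
  set bt0 : ℂ := bt T u t (Real.log n) with hbt0
  have hfl : fl u t n = ((Real.sqrt n : ℂ)⁻¹) * b0 := fl_nat u t n hn
  have e1 : (((ArithmeticFunction.vonMangoldt n : ℂ) * ((Real.sqrt n : ℂ)⁻¹ * bt0)) *
      (starRingEnd ℂ) (fl u t n)) =
      ((ArithmeticFunction.vonMangoldt n / n : ℝ) : ℂ) * (bt0 * (starRingEnd ℂ) b0) := by
    rw [hfl, map_mul, map_inv₀, Complex.conj_ofReal]
    have : ((Real.sqrt n : ℂ))⁻¹ * ((Real.sqrt n : ℂ))⁻¹ = ((n : ℝ) : ℂ)⁻¹ := by
      rw [← mul_inv, ← Complex.ofReal_mul, Real.mul_self_sqrt hn0.le]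
    push_cast at this ⊢
    calc _ = (ArithmeticFunction.vonMangoldt n : ℂ) * ((((Real.sqrt n : ℂ))⁻¹ * ((Real.sqrt n : ℂ))⁻¹)) *
        (bt0 * (starRingEnd ℂ) b0) := by ring
      _ = _ := by rw [this]; ring
  rw [e1, Complex.re_ofReal_mul]
  have e2 : (bt0 * (starRingEnd ℂ) b0).re ≥ ‖b0‖ ^ 2 - ‖bt0 - b0‖ * ‖b0‖ := by
    have f1 : bt0 * (starRingEnd ℂ) b0 = (bt0 - b0) * (starRingEnd ℂ) b0 + b0 * (starRingEnd ℂ) b0 := by
      ring
    rw [f1, Complex.add_re, Complex.mul_conj, Complex.ofReal_re, Complex.normSq_eq_norm_sq]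
    have f2 := Complex.abs_re_le_norm ((bt0 - b0) * (starRingEnd ℂ) b0)
    rw [norm_mul, RCLike.norm_conj] at f2
    have := (abs_le.mp f2).1
    linarith
  have hΛ : 0 ≤ ArithmeticFunction.vonMangoldt n / (n : ℝ) :=
    div_nonneg ArithmeticFunction.vonMangoldt_nonneg hn0.le
  have e3 : ‖b0‖ ^ 2 = 1 / (2 * Real.pi) * Real.exp (-(u - Real.log n) ^ 2) := by
    rw [hb0n, mul_pow, div_pow, one_pow, Real.sq_sqrt (by positivity), ← Real.exp_nat_mul]
    congr 2
    push_cast; ring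
  have e4 : ‖bt0 - b0‖ * ‖b0‖ ≤ C * Real.exp (-L ^ 2 / 4) * Real.exp (-(u - Real.log n) ^ 2 / 2) := by
    have g1 : ‖b0‖ ≤ Real.exp (-(u - Real.log n) ^ 2 / 2) := by
      rw [hb0n]
      have h2 : 1 / Real.sqrt (2 * Real.pi) ≤ 1 := by
        rw [div_le_one (by positivity), Real.one_le_sqrt]
        nlinarith [Real.pi_gt_three]
      nlinarith [Real.exp_pos (-(u - Real.log n) ^ 2 / 2)]
    calc _ ≤ (C * Real.exp (-(u - Real.log n) ^ 2 / 4 - L ^ 2 / 4)) *
          Real.exp (-(u - Real.log n) ^ 2 / 2) := mul_le_mul hb g1 (norm_nonneg _) (by positivity)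
      _ ≤ (C * Real.exp (-L ^ 2 / 4)) * Real.exp (-(u - Real.log n) ^ 2 / 2) := by
        refine mul_le_mul_of_nonneg_right ?_ (Real.exp_pos _).le
        refine mul_le_mul_of_nonneg_left (Real.exp_le_exp.mpr ?_) hC.le
        nlinarith [sq_nonneg (u - Real.log n)]
  have e5 : 2 * (ArithmeticFunction.vonMangoldt n / (n : ℝ) *
      (1 / (2 * Real.pi) * Real.exp (-(u - Real.log n) ^ 2) -
      C * Real.exp (-L ^ 2 / 4) * Real.exp (-(u - Real.log n) ^ 2 / 2))) ≤
      2 * (ArithmeticFunction.vonMangoldt n / (n : ℝ) * (bt0 * (starRingEnd ℂ) b0).re) := by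
    refine mul_le_mul_of_nonneg_left (mul_le_mul_of_nonneg_left ?_ hΛ) (by norm_num)
    linarith
  refine le_trans (le_of_eq ?_) e5
  field_simp

theorem Hh_summable (u : ℝ) : Summable (fun n : ℕ =>
    ArithmeticFunction.vonMangoldt n / Real.sqrt n * Real.exp (-(u - Real.log n) ^ 2 / 4)) :=
  half_summable u

theorem Hn_nonneg (u : ℝ) (n : ℕ) : 0 ≤ ArithmeticFunction.vonMangoldt n / Real.sqrt n *
    Real.exp (-(u - Real.log n) ^ 2 / 4) :=
  mul_nonneg (div_nonneg ArithmeticFunction.vonMangoldt_nonneg (Real.sqrt_nonneg _))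
      (Real.exp_pos _).le

theorem Bn_nonneg (u c : ℝ) (n : ℕ) : 0 ≤ ArithmeticFunction.vonMangoldt n / (n : ℝ) *
    Real.exp (-(u - Real.log n) ^ 2 / c) :=
  mul_nonneg (div_nonneg ArithmeticFunction.vonMangoldt_nonneg (Nat.cast_nonneg _))
      (Real.exp_pos _).le

theorem An_nonneg (u : ℝ) (n : ℕ) : 0 ≤ ArithmeticFunction.vonMangoldt n / (n : ℝ) *
    Real.exp (-(u - Real.log n) ^ 2) :=
  mul_nonneg (div_nonneg ArithmeticFunction.vonMangoldt_nonneg (Nat.cast_nonneg _))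
      (Real.exp_pos _).le

/-- `A_n ≤ B_n ≤ H_n` -/
theorem An_le_Bn (u : ℝ) (n : ℕ) : ArithmeticFunction.vonMangoldt n / (n : ℝ) *
    Real.exp (-(u - Real.log n) ^ 2) ≤ ArithmeticFunction.vonMangoldt n / (n : ℝ) *
    Real.exp (-(u - Real.log n) ^ 2 / 2) := by
  refine mul_le_mul_of_nonneg_left (Real.exp_le_exp.mpr ?_)
    (div_nonneg ArithmeticFunction.vonMangoldt_nonneg (Nat.cast_nonneg _))
  nlinarith [sq_nonneg (u - Real.log n)]

theorem Bn_le_Hn (u E : ℝ) (n : ℕ) (hE : 0 ≤ E) (h : E ≤ |u - Real.log n| ∨ E = 0) :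
    ArithmeticFunction.vonMangoldt n / (n : ℝ) *
    Real.exp (-(u - Real.log n) ^ 2 / 2) ≤ Real.exp (-E ^ 2 / 4) *
      (ArithmeticFunction.vonMangoldt n / Real.sqrt n *
    Real.exp (-(u - Real.log n) ^ 2 / 4)) := by
  rcases Nat.eq_zero_or_pos n with rfl | hn
  · simp
  have hn1 : (1 : ℝ) ≤ n := by exact_mod_cast hn
  have hs : 1 ≤ Real.sqrt n := by rw [Real.one_le_sqrt]; exact hn1
  have hs2 : Real.sqrt n ≤ n := by
    have := Real.mul_self_sqrt (show (0 : ℝ) ≤ n by linarith)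
    nlinarith
  have h1 : ArithmeticFunction.vonMangoldt n / (n : ℝ) ≤ ArithmeticFunction.vonMangoldt n / Real.sqrt n :=
    div_le_div_of_nonneg_left ArithmeticFunction.vonMangoldt_nonneg (by linarith) hs2
  have h2 : Real.exp (-(u - Real.log n) ^ 2 / 2) ≤ Real.exp (-E ^ 2 / 4) *
      Real.exp (-(u - Real.log n) ^ 2 / 4) := by
    rw [← Real.exp_add]
    refine Real.exp_le_exp.mpr ?_
    rcases h with h | h
    · have : E ^ 2 ≤ (u - Real.log n) ^ 2 := by
        rw [← sq_abs (u - Real.log n)]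
        exact pow_le_pow_left₀ hE h 2
      nlinarith
    · rw [h]; nlinarith [sq_nonneg (u - Real.log n)]
  calc _ ≤ (ArithmeticFunction.vonMangoldt n / Real.sqrt n) * (Real.exp (-E ^ 2 / 4) *
      Real.exp (-(u - Real.log n) ^ 2 / 4)) := mul_le_mul h1 h2 (Real.exp_pos _).le
        (div_nonneg ArithmeticFunction.vonMangoldt_nonneg (by linarith))
    _ = _ := by ring

theorem Bn_summable (u : ℝ) : Summable (fun n : ℕ => ArithmeticFunction.vonMangoldt n / (n : ℝ) *
    Real.exp (-(u - Real.log n) ^ 2 / 2)) := by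
  refine Summable.of_nonneg_of_le (fun n => Bn_nonneg u 2 n) (fun n => Bn_le_Hn u 0 n le_rfl (Or.inr rfl)) ?_
  exact (half_summable u).mul_left _

theorem An_summable (u : ℝ) : Summable (fun n : ℕ => ArithmeticFunction.vonMangoldt n / (n : ℝ) *
    Real.exp (-(u - Real.log n) ^ 2)) :=
  Summable.of_nonneg_of_le (fun n => An_nonneg u n) (fun n => An_le_Bn u n) (Bn_summable u)

theorem PP_summable (u : ℝ) : Summable (fun n : ℕ => (if n.Prime then 0 else
    (ArithmeticFunction.vonMangoldt n) / (n : ℝ) * Real.exp (-(u - Real.log n) ^ 2 / 2))) := by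
  refine Summable.of_nonneg_of_le (fun n => ?_) (fun n => ?_) (Bn_summable u)
  · split_ifs
    · exact le_rfl
    · exact Bn_nonneg u 2 n
  · split_ifs
    · exact Bn_nonneg u 2 n
    · exact le_rfl

theorem Tl_summable (u : ℝ) (N : ℕ) : Summable (fun n : ℕ => (if N < n then
    ArithmeticFunction.vonMangoldt n / Real.sqrt n * Real.exp (-(u - Real.log n) ^ 2 / 4) else 0)) := by
  refine Summable.of_nonneg_of_le (fun n => ?_) (fun n => ?_) (half_summable u)
  · split_ifs
    · exact Hn_nonneg u n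
    · exact le_rfl
  · split_ifs
    · exact le_rfl
    · exact Hn_nonneg u n

theorem PPs_nonneg (u : ℝ) : 0 ≤ PPs u := by
  refine tsum_nonneg (fun n => ?_)
  split_ifs
  · exact le_rfl
  · exact Bn_nonneg u 2 n

theorem Hh_nonneg (u : ℝ) : 0 ≤ Hh u := tsum_nonneg (fun n => Hn_nonneg u n)

/-- the sum over non-good `n` -/
theorem notgood_le (u L : ℝ) (N R : ℕ) (hL : 0 ≤ L) (hR : (R : ℝ) ≤ Real.exp (u - L)) :
    ∑ n ∈ (Finset.Icc 1 N).filter (fun n => n.minFac ≤ R), (ArithmeticFunction.vonMangoldt n / (n : ℝ) *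
      Real.exp (-(u - Real.log n) ^ 2 / 2)) ≤ PPs u + Real.exp (-L ^ 2 / 4) * Hh u := by
  unfold PPs Hh
  rw [← tsum_mul_left, ← Summable.tsum_add (PP_summable u) ((half_summable u).mul_left _)]
  refine le_trans ?_ (((PP_summable u).add ((half_summable u).mul_left _)).sum_le_tsum
    ((Finset.Icc 1 N).filter (fun n => n.minFac ≤ R)) (fun n _ => ?_))
  · refine Finset.sum_le_sum (fun n hn => ?_)
    obtain ⟨hn1, hn2⟩ := Finset.mem_filter.mp hn
    have hn1' := (Finset.mem_Icc.mp hn1).1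
    have hH := Hn_nonneg u n
    split_ifs with hp
    · rw [zero_add]
      refine Bn_le_Hn u L n hL (Or.inl ?_)
      rw [hp.minFac_eq] at hn2
      have h1 : (n : ℝ) ≤ Real.exp (u - L) := le_trans (by exact_mod_cast hn2) hR
      have h2 : Real.log n ≤ u - L := by
        rw [Real.log_le_iff_le_exp (by exact_mod_cast hn1')]; exact h1
      rw [abs_of_nonneg (by linarith)]
      linarith
    · have : 0 ≤ Real.exp (-L ^ 2 / 4) * (ArithmeticFunction.vonMangoldt n / Real.sqrt n *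
          Real.exp (-(u - Real.log n) ^ 2 / 4)) := by positivity
      linarith
  · have hH := Hn_nonneg u n
    have hB := Bn_nonneg u 2 n
    split_ifs <;> positivity

/-- the sum over good `n` is almost everything -/
theorem good_ge (u L : ℝ) (N R : ℕ) (hL : 0 ≤ L) (hR : (R : ℝ) ≤ Real.exp (u - L)) :
    m1 u - PPs u - Real.exp (-L ^ 2 / 4) * Hh u - Tl N u ≤
    ∑ n ∈ (Finset.Icc 1 N).filter (fun n => R < n.minFac), (ArithmeticFunction.vonMangoldt n / (n : ℝ) *
      Real.exp (-(u - Real.log n) ^ 2)) := by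
  have h1 : m1 u ≤ ∑ n ∈ (Finset.Icc 1 N).filter (fun n => R < n.minFac),
      (ArithmeticFunction.vonMangoldt n / (n : ℝ) * Real.exp (-(u - Real.log n) ^ 2)) +
      (PPs u + Real.exp (-L ^ 2 / 4) * Hh u + Tl N u) := by
    set s := (Finset.Icc 1 N).filter (fun n => R < n.minFac) with hs
    have hsum1 : Summable (fun n : ℕ => if n ∈ s then (ArithmeticFunction.vonMangoldt n / (n : ℝ) *
        Real.exp (-(u - Real.log n) ^ 2)) else 0) := by
      refine summable_of_ne_finset_zero (s := s) (fun n hn => ?_)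
      rw [if_neg hn]
    have hsumeq : ∑' n : ℕ, (if n ∈ s then (ArithmeticFunction.vonMangoldt n / (n : ℝ) *
        Real.exp (-(u - Real.log n) ^ 2)) else 0) =
        ∑ n ∈ s, (ArithmeticFunction.vonMangoldt n / (n : ℝ) * Real.exp (-(u - Real.log n) ^ 2)) := by
      rw [tsum_eq_sum (s := s) (fun n hn => by rw [if_neg hn])]
      exact Finset.sum_congr rfl (fun n hn => by rw [if_pos hn])
    rw [← hsumeq]
    unfold m1 PPs Hh Tl
    rw [← tsum_mul_left, ← Summable.tsum_add (PP_summable u) ((half_summable u).mul_left _),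
      ← Summable.tsum_add ((PP_summable u).add ((half_summable u).mul_left _)) (Tl_summable u N),
      ← Summable.tsum_add hsum1 (((PP_summable u).add ((half_summable u).mul_left _)).add
        (Tl_summable u N))]
    refine Summable.tsum_le_tsum (fun n => ?_) (An_summable u)
      (hsum1.add (((PP_summable u).add ((half_summable u).mul_left _)).add (Tl_summable u N)))
    have hA := An_nonneg u n
    have hAB := An_le_Bn u n
    have hB := Bn_nonneg u 2 n
    have hH := Hn_nonneg u n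
    have hEH : 0 ≤ Real.exp (-L ^ 2 / 4) * (ArithmeticFunction.vonMangoldt n / Real.sqrt n *
          Real.exp (-(u - Real.log n) ^ 2 / 4)) := by positivity
    have hpp : 0 ≤ (if n.Prime then 0 else (ArithmeticFunction.vonMangoldt n) / (n : ℝ) *
        Real.exp (-(u - Real.log n) ^ 2 / 2)) := by
      split_ifs
      · exact le_rfl
      · exact hB
    have htl : 0 ≤ (if N < n then ArithmeticFunction.vonMangoldt n / Real.sqrt n *
        Real.exp (-(u - Real.log n) ^ 2 / 4) else 0) := by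
      split_ifs
      · exact hH
      · exact le_rfl
    by_cases hns : n ∈ s
    · rw [if_pos hns]
      linarith
    · rw [if_neg hns, zero_add]
      rcases Nat.eq_zero_or_pos n with rfl | hn
      · simp
      by_cases hnN : N < n
      · rw [if_pos hnN]
        have h2 := Bn_le_Hn u 0 n le_rfl (Or.inr rfl)
        rw [show -(0 : ℝ) ^ 2 / 4 = 0 by norm_num, Real.exp_zero, one_mul] at h2
        linarith
      · rw [if_neg hnN, add_zero]
        have hR' : n.minFac ≤ R := by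
          by_contra hcon
          push Not at hcon
          exact hns (Finset.mem_filter.mpr ⟨Finset.mem_Icc.mpr ⟨hn, by omega⟩, hcon⟩)
        by_cases hp : n.Prime
        · rw [if_pos hp, zero_add]
          rw [hp.minFac_eq] at hR'
          refine hAB.trans (Bn_le_Hn u L n hL (Or.inl ?_))
          have h1 : (n : ℝ) ≤ Real.exp (u - L) := le_trans (by exact_mod_cast hR') hR
          have h2 : Real.log n ≤ u - L := by
            rw [Real.log_le_iff_le_exp (by exact_mod_cast hn)]; exact h1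
          rw [abs_of_nonneg (by linarith)]
          linarith
        · rw [if_neg hp]
          linarith
  linarith


theorem exp_small (a b c δ : ℝ) (hc : 0 < c) (hδ : 0 < δ) (ha : 0 < a) :
    ∀ᶠ L : ℝ in atTop, a * Real.exp (b * L - c * L ^ 2) ≤ δ := by
  filter_upwards [eventually_ge_atTop 1, lin_ev (b + |Real.log (a / δ)|) c hc] with L h1 h2
  have h3 : a / δ * Real.exp (b * L - c * L ^ 2) ≤ 1 := by
    have h4 : a / δ = Real.exp (Real.log (a / δ)) := (Real.exp_log (by positivity)).symm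
    rw [h4, ← Real.exp_add, ← Real.exp_zero]
    refine Real.exp_le_exp.mpr ?_
    have h5 := mul_le_mul_of_nonneg_right h2 (show 0 ≤ L by linarith)
    have h6 : Real.log (a / δ) ≤ |Real.log (a / δ)| * L := by
      have := le_abs_self (Real.log (a / δ))
      nlinarith [abs_nonneg (Real.log (a / δ))]
    nlinarith
  have h7 : a * Real.exp (b * L - c * L ^ 2) = δ * (a / δ * Real.exp (b * L - c * L ^ 2)) := by
    field_simp
  rw [h7]
  calc _ ≤ δ * 1 := mul_le_mul_of_nonneg_left h3 hδ.le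
    _ = δ := mul_one δ

theorem exp_small1 (a c δ : ℝ) (hc : 0 < c) (hδ : 0 < δ) (ha : 0 < a) :
    ∀ᶠ L : ℝ in atTop, a * Real.exp (-(c * L)) ≤ δ := by
  filter_upwards [lin_ev (Real.log (a / δ)) c hc] with L h2
  have h4 : a / δ = Real.exp (Real.log (a / δ)) := (Real.exp_log (by positivity)).symm
  have h3 : a / δ * Real.exp (-(c * L)) ≤ 1 := by
    rw [h4, ← Real.exp_add, ← Real.exp_zero]
    exact Real.exp_le_exp.mpr (by linarith)
  have h7 : a * Real.exp (-(c * L)) = δ * (a / δ * Real.exp (-(c * L))) := by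
    field_simp
  rw [h7]
  calc _ ≤ δ * 1 := mul_le_mul_of_nonneg_left h3 hδ.le
    _ = δ := mul_one δ

theorem norm_fl_le (u t : ℝ) (n : ℕ) (hn : 1 ≤ n) :
    ‖fl u t n‖ ≤ (Real.sqrt n)⁻¹ * Real.exp (-(u - Real.log n) ^ 2 / 2) := by
  rw [fl_nat u t n hn, norm_mul, norm_inv, Complex.norm_real, Real.norm_of_nonneg (Real.sqrt_nonneg _),
    bb0_norm]
  refine mul_le_mul_of_nonneg_left ?_ (inv_nonneg.mpr (Real.sqrt_nonneg _))
  have h2 : 1 / Real.sqrt (2 * Real.pi) ≤ 1 := by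
    rw [div_le_one (by positivity), Real.one_le_sqrt]
    nlinarith [Real.pi_gt_three]
  nlinarith [Real.exp_pos (-(u - Real.log n) ^ 2 / 2)]

/-- the gain from the plateau in the bulk -/
theorem gain_lower (β η : ℝ) (hη : 0 < η) (δ : ℝ) (hδ : 0 < δ) :
    ∀ᶠ L : ℝ in atTop, ∀ (T u t w : ℝ) (N R : ℕ), L ^ 2 ≤ T → T ≤ Real.exp (η * L) → 0 ≤ u → u ≤ β * L →
      T + L ≤ t → t ≤ 2 * T - L → w = Real.exp (-u + 4 * η * L) → 1 ≤ N →
      u + η / 4 * L ≤ Real.log N → (R : ℝ) ≤ Real.exp (u - L) →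
      ∃ f1 f2 : ℝ → ℂ, C2I (fl u t) f1 f2 ∧
        1 / Real.pi * m1 u - 1 / (2 * Real.sqrt Real.pi) - 3 * PPs u - δ ≤
        gain N R w (fun n => (ArithmeticFunction.vonMangoldt n : ℂ) *
          ((Real.sqrt n : ℂ)⁻¹ * bt T u t (Real.log n))) (fl u t) f2 := by
  obtain ⟨Cb, hCb, hb⟩ := term_lower
  obtain ⟨Co, hCo, ho⟩ := lam_one_crude
  obtain ⟨Ch, hCh, hh⟩ := lam_half_crude
  obtain ⟨Cf, hCf, hf⟩ := fl_C2I
  obtain ⟨C8, hC8, h8⟩ := lam_tail
  filter_upwards [eventually_ge_atTop 1, exp_small (Cb * Co) 0 (1 / 4) (δ / 4) (by norm_num) (by positivity)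
      (by positivity), exp_small C8 (β / 2) (η ^ 2 / 128) (δ / 4) (by positivity) (by positivity) hC8,
    exp_small (3 * Ch) (β / 2) (1 / 4) (δ / 4) (by norm_num) (by positivity) (by positivity),
    exp_small1 (18 * Cf * Ch) (2 * η) (δ / 4) (by positivity) (by positivity) (by positivity)]
    with L hL1 E1 E2 E3 E4
  intro T u t w N R hT1 hT2 hu hu2 ht1 ht2 hw hN1 hN hR
  have hL0 : 0 ≤ L := by linarith
  have hT1' : 1 ≤ T := by nlinarith
  have hT0 : 0 ≤ T := by linarith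
  obtain ⟨f1, f2, hC2, hf2⟩ := hf u t
  refine ⟨f1, f2, hC2, ?_⟩
  have hw0 : 0 < w := by rw [hw]; exact Real.exp_pos _
  have hHh : Hh u ≤ Ch * Real.exp (u / 2) := (hh u hu).2
  have hHh0 := Hh_nonneg u
  have hBo := (ho u hu).2
  have hpi := Real.pi_pos
  have hpi3 := Real.pi_gt_three
  set a : ℕ → ℂ := fun n => (ArithmeticFunction.vonMangoldt n : ℂ) *
          ((Real.sqrt n : ℂ)⁻¹ * bt T u t (Real.log n)) with ha
  have hnorm : ∀ n, ‖a n‖ ≤ ArithmeticFunction.vonMangoldt n / Real.sqrt n *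
        Real.exp (-(u - Real.log n) ^ 2 / 4) := by
    intro n
    have h1 := b_bound T u t hT0 n
    have h2 := wt_le_one T t hT0
    have h3 := Hn_nonneg u n
    have h4 : ‖a n‖ = ArithmeticFunction.vonMangoldt n *
        ‖(Real.sqrt n : ℂ)⁻¹ * bt T u t (Real.log n)‖ := by
      rw [ha]
      simp only
      rw [norm_mul, Complex.norm_real, Real.norm_of_nonneg ArithmeticFunction.vonMangoldt_nonneg]
    rw [h4]
    refine h1.trans ?_
    calc _ ≤ 1 * (ArithmeticFunction.vonMangoldt n / Real.sqrt n *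
        Real.exp (-(u - Real.log n) ^ 2 / 4)) := mul_le_mul_of_nonneg_right h2 h3
      _ = _ := one_mul _
  -- the three small quantities
  have q1 : Cb * Real.exp (-L ^ 2 / 4) * Co ≤ δ / 4 := by
    refine le_trans (le_of_eq ?_) E1
    rw [show (0 : ℝ) * L - 1 / 4 * L ^ 2 = -L ^ 2 / 4 by ring]; ring
  have q2 : Tl N u ≤ δ / 4 := by
    have h1 := h8 u (η / 4 * L) N hu (by positivity) hN
    refine le_trans h1 (le_trans ?_ E2)
    refine mul_le_mul_of_nonneg_left (Real.exp_le_exp.mpr ?_) hC8.le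
    have : (η / 4 * L) ^ 2 / 8 = η ^ 2 / 128 * L ^ 2 := by ring
    rw [this]; linarith
  have q3 : 3 * (Real.exp (-L ^ 2 / 4) * Hh u) ≤ δ / 4 := by
    have h1 : 3 * (Real.exp (-L ^ 2 / 4) * Hh u) ≤
        3 * (Real.exp (-L ^ 2 / 4) * (Ch * Real.exp (u / 2))) := by gcongr
    refine h1.trans (le_trans ?_ E3)
    have h2 : 3 * (Real.exp (-L ^ 2 / 4) * (Ch * Real.exp (u / 2))) =
        3 * Ch * Real.exp (u / 2 - 1 / 4 * L ^ 2) := by
      rw [show u / 2 - 1 / 4 * L ^ 2 = -L ^ 2 / 4 + u / 2 by ring, Real.exp_add]; ring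
    rw [h2]
    refine mul_le_mul_of_nonneg_left (Real.exp_le_exp.mpr ?_) (by positivity)
    linarith
  have q4 : 2 * ((∫ y : ℝ, ‖f2 y‖) / w) * ∑ n ∈ Finset.Icc 1 N, ‖a n‖ ≤ δ / 4 := by
    have h1 : ∑ n ∈ Finset.Icc 1 N, ‖a n‖ ≤ Ch * Real.exp (u / 2) := by
      refine le_trans (Finset.sum_le_sum (fun n _ => hnorm n)) ?_
      refine le_trans ?_ hHh
      exact (half_summable u).sum_le_tsum _ (fun n _ => Hn_nonneg u n)
    have h2 : (1 + |t|) ^ 2 ≤ 9 * Real.exp (2 * η * L) := by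
      have h3 : 1 + |t| ≤ 3 * Real.exp (η * L) := by
        rw [abs_of_nonneg (by linarith)]
        linarith
      have h4 : (3 * Real.exp (η * L)) ^ 2 = 9 * Real.exp (2 * η * L) := by
        rw [mul_pow, ← Real.exp_nat_mul]; push_cast; ring_nf
      rw [← h4]
      exact pow_le_pow_left₀ (by positivity) h3 2
    have h5 : (∫ y : ℝ, ‖f2 y‖) ≤ Cf * (9 * Real.exp (2 * η * L)) * Real.exp (-(3 * u / 2)) := by
      refine hf2.trans ?_
      gcongr
    have h6 : (∫ y : ℝ, ‖f2 y‖) / w ≤ Cf * (9 * Real.exp (2 * η * L)) * Real.exp (-(3 * u / 2)) *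
        Real.exp (u - 4 * η * L) := by
      rw [div_le_iff₀ hw0, hw]
      have : Real.exp (u - 4 * η * L) * Real.exp (-u + 4 * η * L) = 1 := by
        rw [← Real.exp_add]; simp
      calc _ ≤ Cf * (9 * Real.exp (2 * η * L)) * Real.exp (-(3 * u / 2)) := h5
        _ = Cf * (9 * Real.exp (2 * η * L)) * Real.exp (-(3 * u / 2)) *
          (Real.exp (u - 4 * η * L) * Real.exp (-u + 4 * η * L)) := by rw [this, mul_one]
        _ = _ := by ring
    have h7 : 0 ≤ (∫ y : ℝ, ‖f2 y‖) / w := div_nonneg (integral_nonneg (fun _ => norm_nonneg _)) hw0.le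
    calc _ ≤ 2 * (Cf * (9 * Real.exp (2 * η * L)) * Real.exp (-(3 * u / 2)) *
        Real.exp (u - 4 * η * L)) * (Ch * Real.exp (u / 2)) := by
          gcongr
      _ = 18 * Cf * Ch * (Real.exp (2 * η * L) * Real.exp (-(3 * u / 2)) *
        Real.exp (u - 4 * η * L) * Real.exp (u / 2)) := by ring
      _ = 18 * Cf * Ch * Real.exp (-(2 * η * L)) := by
        rw [← Real.exp_add, ← Real.exp_add, ← Real.exp_add]; ring_nf
      _ ≤ δ / 4 := E4
  -- the main term
  have r1 : 1 / Real.pi * ∑ n ∈ (Finset.Icc 1 N).filter (fun n => R < n.minFac),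
        (ArithmeticFunction.vonMangoldt n / (n : ℝ) * Real.exp (-(u - Real.log n) ^ 2)) -
        Cb * Real.exp (-L ^ 2 / 4) * Co ≤
      2 * (∑ n ∈ (Finset.Icc 1 N).filter (fun n => R < n.minFac), a n * (starRingEnd ℂ) (fl u t n)).re := by
    rw [Complex.re_sum, Finset.mul_sum, Finset.mul_sum]
    have h1 : ∀ n ∈ (Finset.Icc 1 N).filter (fun n => R < n.minFac),
        1 / Real.pi * (ArithmeticFunction.vonMangoldt n / n * Real.exp (-(u - Real.log n) ^ 2)) -
      Cb * Real.exp (-L ^ 2 / 4) * (ArithmeticFunction.vonMangoldt n / n *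
        Real.exp (-(u - Real.log n) ^ 2 / 2)) ≤ 2 * (a n * (starRingEnd ℂ) (fl u t n)).re := by
      intro n hn
      have hn1 := (Finset.mem_Icc.mp (Finset.mem_filter.mp hn).1).1
      exact hb T L u t hL1 ht1 ht2 n hn1
    refine le_trans ?_ (Finset.sum_le_sum h1)
    rw [Finset.sum_sub_distrib, ← Finset.mul_sum ((Finset.Icc 1 N).filter (fun n => R < n.minFac))
      (fun n => (ArithmeticFunction.vonMangoldt n / (n : ℝ) * Real.exp (-(u - Real.log n) ^ 2 / 2)))]
    have h2 : ∑ n ∈ (Finset.Icc 1 N).filter (fun n => R < n.minFac),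
        (ArithmeticFunction.vonMangoldt n / (n : ℝ) * Real.exp (-(u - Real.log n) ^ 2 / 2)) ≤ Co := by
      refine le_trans ?_ hBo
      exact (Bn_summable u).sum_le_tsum _ (fun n _ => Bn_nonneg u 2 n)
    have h3 := mul_le_mul_of_nonneg_left h2 (show 0 ≤ Cb * Real.exp (-L ^ 2 / 4) by positivity)
    linarith
  have r2 := good_ge u L N R hL0 hR
  have r3 : 2 * ∑ n ∈ (Finset.Icc 1 N).filter (fun n => n.minFac ≤ R), ‖a n‖ * ‖fl u t n‖ ≤
      2 * (PPs u + Real.exp (-L ^ 2 / 4) * Hh u) := by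
    refine mul_le_mul_of_nonneg_left ?_ (by norm_num)
    refine le_trans (Finset.sum_le_sum (fun n hn => ?_)) (notgood_le u L N R hL0 hR)
    have hn1 := (Finset.mem_Icc.mp (Finset.mem_filter.mp hn).1).1
    have hn0 : (0 : ℝ) < n := by exact_mod_cast hn1
    have h1 := norm_fl_le u t n hn1
    have h2 := hnorm n
    have h3 := Hn_nonneg u n
    calc ‖a n‖ * ‖fl u t n‖ ≤ (ArithmeticFunction.vonMangoldt n / Real.sqrt n *
        Real.exp (-(u - Real.log n) ^ 2 / 4)) * ((Real.sqrt n)⁻¹ *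
          Real.exp (-(u - Real.log n) ^ 2 / 2)) := mul_le_mul h2 h1 (norm_nonneg _) h3
      _ = ArithmeticFunction.vonMangoldt n / (n : ℝ) * (Real.exp (-(u - Real.log n) ^ 2 / 4) *
          Real.exp (-(u - Real.log n) ^ 2 / 2)) := by
        have : Real.sqrt n * Real.sqrt n = n := Real.mul_self_sqrt hn0.le
        rw [← this]
        have hs : Real.sqrt n ≠ 0 := (Real.sqrt_pos.mpr hn0).ne'
        field_simp
        simp [this]
      _ ≤ ArithmeticFunction.vonMangoldt n / (n : ℝ) * Real.exp (-(u - Real.log n) ^ 2 / 2) := by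
        refine mul_le_mul_of_nonneg_left ?_ (div_nonneg ArithmeticFunction.vonMangoldt_nonneg hn0.le)
        rw [← Real.exp_add]
        refine Real.exp_le_exp.mpr ?_
        nlinarith [sq_nonneg (u - Real.log n)]
  have r4 := fl_sq u t
  have hPPs := PPs_nonneg u
  unfold gain
  rw [r4]
  have r5 : 1 / Real.pi * (m1 u - PPs u - Real.exp (-L ^ 2 / 4) * Hh u - Tl N u) ≤
      1 / Real.pi * ∑ n ∈ (Finset.Icc 1 N).filter (fun n => R < n.minFac),
        (ArithmeticFunction.vonMangoldt n / (n : ℝ) * Real.exp (-(u - Real.log n) ^ 2)) :=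
    mul_le_mul_of_nonneg_left r2 (by positivity)
  have hpi1 : 1 / Real.pi ≤ 1 := by
    rw [div_le_one hpi]; linarith
  have hEH : 0 ≤ Real.exp (-L ^ 2 / 4) * Hh u := by positivity
  have hTl := Tl_nonneg N u
  have r6 : 1 / Real.pi * (PPs u + Real.exp (-L ^ 2 / 4) * Hh u + Tl N u) ≤
      PPs u + Real.exp (-L ^ 2 / 4) * Hh u + Tl N u := by
    have : 0 ≤ PPs u + Real.exp (-L ^ 2 / 4) * Hh u + Tl N u := by positivity
    nlinarith
  have r7 : 1 / Real.pi * (m1 u - PPs u - Real.exp (-L ^ 2 / 4) * Hh u - Tl N u) =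
      1 / Real.pi * m1 u - 1 / Real.pi * (PPs u + Real.exp (-L ^ 2 / 4) * Hh u + Tl N u) := by ring
  linarith

end H385
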