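import Pool.Agent.H385R2.FinC

open Complex Filter Topology Set MeasureTheory
open H370 (zset mult NN Nd Ns)

set_option maxHeartbeats 4000000

namespace H385

/-- the family bound before integration over `t` -/
theorem ms_point2 (ε1 : ℝ) (h1 : 0 < ε1) (h2 : ε1 ≤ 1) : ∃ (C : ℝ) (P : ℕ), 0 < C ∧ 1 ≤ P ∧
    ∀ (X Y N R : ℕ) (V w T u t : ℝ) (f f1 f2 : ℝ → ℂ), 1 ≤ X → X ≤ Y → 0 ≤ T → P ≤ R → C2I f f1 f2 →
    1 ≤ V → V ≤ (X : ℝ) ^ 2 → 0 < w → C * R * Y ≤ V → C * w * R * Y ≤ 1 → C ≤ V * w →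
    primFam X Y (fun q χ =>
        ‖∑' n : ℕ, (χ (n : ZMod q) * (ArithmeticFunction.vonMangoldt n : ℂ)) *
          ((Real.sqrt n : ℂ)⁻¹ * bt T u t (Real.log n))‖ ^ 2) ≤
      ((1 + ε1) * (c0 ^ 2 * (1 + ε1) * Real.log ((Y : ℝ) / X) + C)) *
        ((1 + ε1) * Real.exp (Real.pi * N / V) *
          ∑ n ∈ Finset.Icc 1 N, (ArithmeticFunction.vonMangoldt n) ^ 2 *
          ‖(Real.sqrt n : ℂ)⁻¹ * bt T u t (Real.log n)‖ ^ 2
        - Real.log R * gain N R w (fun n => (ArithmeticFunction.vonMangoldt n : ℂ) *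
          ((Real.sqrt n : ℂ)⁻¹ * bt T u t (Real.log n))) f f2)
      + wt T t ^ 2 * DD C P X Y N u := by
  obtain ⟨C, P, hC, hP, h⟩ := prim_ls2 ε1 h1 h2
  refine ⟨C, P, hC, hP, ?_⟩
  intro X Y N R V w T u t f f1 f2 hX hXY hT hPR hf hV hVX hw g1 g2 g3
  have h3 := h X Y N R V w (fun n => (Real.sqrt n : ℂ)⁻¹ * bt T u t (Real.log n)) f f1 f2 hX hXY hPR hf
    hV hVX hw g1 g2 g3 (b_summable T u t hT)
  refine h3.trans ?_
  have h4 := b_tsum_sq T u t hT (fun n => N < n)
  have hlog : 0 ≤ Real.log ((Y : ℝ) / X) := by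
    refine Real.log_nonneg ?_
    have : (0 : ℝ) < X := by exact_mod_cast hX
    rw [one_le_div this]
    exact_mod_cast hXY
  have h5 : C * ∑ q ∈ Finset.Ioc X (P * Y), (1 / (q : ℝ)) *
        (∑' n : ℕ, if Nat.Coprime n q then 0 else ArithmeticFunction.vonMangoldt n *
          ‖(Real.sqrt n : ℂ)⁻¹ * bt T u t (Real.log n)‖) ^ 2 ≤
      C * ∑ q ∈ Finset.Ioc X (P * Y), (1 / (q : ℝ)) * (wt T t ^ 2 * Gq q u ^ 2) := by
    refine mul_le_mul_of_nonneg_left ?_ hC.le
    refine Finset.sum_le_sum (fun q _ => ?_)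
    exact mul_le_mul_of_nonneg_left (Gq_eq T u t hT q) (by positivity)
  have h6 : C * (Real.log ((Y : ℝ) / X) + 1) *
        ((∑' n : ℕ, if Nat.Coprime n P then 0 else ArithmeticFunction.vonMangoldt n *
          ‖(Real.sqrt n : ℂ)⁻¹ * bt T u t (Real.log n)‖) ^ 2 +
         (∑' n : ℕ, if N < n then ArithmeticFunction.vonMangoldt n *
          ‖(Real.sqrt n : ℂ)⁻¹ * bt T u t (Real.log n)‖ else 0) ^ 2) ≤
      C * (Real.log ((Y : ℝ) / X) + 1) * (wt T t ^ 2 * Gq P u ^ 2 + wt T t ^ 2 * Tl N u ^ 2) := by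
    refine mul_le_mul_of_nonneg_left ?_ (by positivity)
    exact add_le_add (Gq_eq T u t hT P) h4
  have h7 : wt T t ^ 2 * DD C P X Y N u =
      C * ∑ q ∈ Finset.Ioc X (P * Y), (1 / (q : ℝ)) * (wt T t ^ 2 * Gq q u ^ 2) +
      C * (Real.log ((Y : ℝ) / X) + 1) * (wt T t ^ 2 * Gq P u ^ 2 + wt T t ^ 2 * Tl N u ^ 2) := by
    unfold DD
    have : ∑ q ∈ Finset.Ioc X (P * Y), (1 / (q : ℝ)) * (wt T t ^ 2 * Gq q u ^ 2) =
      wt T t ^ 2 * ∑ q ∈ Finset.Ioc X (P * Y), (1 / (q : ℝ)) * Gq q u ^ 2 := by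
      rw [Finset.mul_sum]
      exact Finset.sum_congr rfl (fun q _ => by ring)
    rw [this]; ring
  rw [h7]
  linarith

theorem C2I_zero : C2I (fun _ => 0) (fun _ => 0) (fun _ => 0) :=
  ⟨fun x => hasDerivAt_const x 0, fun x => hasDerivAt_const x 0, continuous_const,
    integrable_zero _ _ _, integrable_zero _ _ _, integrable_zero _ _ _⟩

theorem gain_zero (N R : ℕ) (w : ℝ) (a : ℕ → ℂ) : gain N R w a (fun _ => 0) (fun _ => 0) = 0 := by
  unfold gain
  simp

/-- abstract integration over `t` -/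
theorem int_step (X Y N P : ℕ) (T L u D2 e1 C C5 g : ℝ) (hX : 1 ≤ X) (hXY : X ≤ Y) (hD2 : 0 ≤ D2)
    (he1 : 0 ≤ e1) (hC : 0 ≤ C) (hT : 0 ≤ T) (hTL : 2 * L ≤ T)
    (i1 : Integrable (fun t => ∑ n ∈ Finset.Icc 1 N, (ArithmeticFunction.vonMangoldt n) ^ 2 *
      ‖(Real.sqrt n : ℂ)⁻¹ * bt T u t (Real.log n)‖ ^ 2))
    (i2 : ∫ t : ℝ, ∑ n ∈ Finset.Icc 1 N, (ArithmeticFunction.vonMangoldt n) ^ 2 *
      ‖(Real.sqrt n : ℂ)⁻¹ * bt T u t (Real.log n)‖ ^ 2 ≤
      T / (2 * Real.pi) * S1 u + C5 * L * (u + 1))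
    (j1 : Integrable (fun t => (wt T t) ^ 2)) (j2 : ∫ t : ℝ, (wt T t) ^ 2 ≤ T + C5)
    (hpt : ∀ t : ℝ, primFam X Y (fun q χ =>
        ‖∑' n : ℕ, (χ (n : ZMod q) * (ArithmeticFunction.vonMangoldt n : ℂ)) *
          ((Real.sqrt n : ℂ)⁻¹ * bt T u t (Real.log n))‖ ^ 2) ≤
      D2 * (e1 * ∑ n ∈ Finset.Icc 1 N, (ArithmeticFunction.vonMangoldt n) ^ 2 *
          ‖(Real.sqrt n : ℂ)⁻¹ * bt T u t (Real.log n)‖ ^ 2
        - (Set.Icc (T + L) (2 * T - L)).indicator (fun _ => g) t)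
      + wt T t ^ 2 * DD C P X Y N u) :
    ∫ t : ℝ, primFam X Y (fun q χ =>
        ‖∑' n : ℕ, (χ (n : ZMod q) * (ArithmeticFunction.vonMangoldt n : ℂ)) *
          ((Real.sqrt n : ℂ)⁻¹ * bt T u t (Real.log n))‖ ^ 2) ≤
      D2 * e1 * (T / (2 * Real.pi) * S1 u + C5 * L * (u + 1)) - D2 * (T - 2 * L) * g +
      (T + C5) * DD C P X Y N u := by
  have hDD := DD_nonneg C hC P X Y N u hX hXY
  have hind : Integrable ((Set.Icc (T + L) (2 * T - L)).indicator (fun _ : ℝ => g)) := by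
    rw [integrable_indicator_iff measurableSet_Icc]
    exact integrableOn_const (by simp)
  have hindint : ∫ t : ℝ, (Set.Icc (T + L) (2 * T - L)).indicator (fun _ : ℝ => g) t =
      (T - 2 * L) * g := by
    rw [integral_indicator measurableSet_Icc, setIntegral_const, measureReal_def, Real.volume_Icc,
      ENNReal.toReal_ofReal (by linarith), smul_eq_mul]
    ring
  have e2 : Integrable (fun t : ℝ => D2 * (e1 * ∑ n ∈ Finset.Icc 1 N,
        (ArithmeticFunction.vonMangoldt n) ^ 2 *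
          ‖(Real.sqrt n : ℂ)⁻¹ * bt T u t (Real.log n)‖ ^ 2
        - (Set.Icc (T + L) (2 * T - L)).indicator (fun _ => g) t)) :=
    ((i1.const_mul _).sub hind).const_mul _
  have e3 : Integrable (fun t : ℝ => wt T t ^ 2 * DD C P X Y N u) := j1.mul_const _
  calc _ ≤ ∫ t : ℝ, (D2 * (e1 * ∑ n ∈ Finset.Icc 1 N, (ArithmeticFunction.vonMangoldt n) ^ 2 *
          ‖(Real.sqrt n : ℂ)⁻¹ * bt T u t (Real.log n)‖ ^ 2
        - (Set.Icc (T + L) (2 * T - L)).indicator (fun _ => g) t) + wt T t ^ 2 * DD C P X Y N u) := by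
        refine integral_mono_of_nonneg ?_ (e2.add e3) (Filter.Eventually.of_forall hpt)
        exact Filter.Eventually.of_forall (fun t => primFam_nonneg _ _ _ (fun _ _ => sq_nonneg _))
    _ = D2 * (e1 * (∫ t : ℝ, ∑ n ∈ Finset.Icc 1 N, (ArithmeticFunction.vonMangoldt n) ^ 2 *
          ‖(Real.sqrt n : ℂ)⁻¹ * bt T u t (Real.log n)‖ ^ 2) - (T - 2 * L) * g) +
          (∫ t : ℝ, wt T t ^ 2) * DD C P X Y N u := by
        rw [integral_add e2 e3, integral_const_mul, integral_mul_const,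
          integral_sub (i1.const_mul _) hind, integral_const_mul, hindint]
    _ ≤ D2 * (e1 * (T / (2 * Real.pi) * S1 u + C5 * L * (u + 1)) - (T - 2 * L) * g) +
          (T + C5) * DD C P X Y N u := by
        refine add_le_add ?_ (mul_le_mul_of_nonneg_right j2 hDD)
        refine mul_le_mul_of_nonneg_left ?_ hD2
        have := mul_le_mul_of_nonneg_left i2 he1
        linarith
    _ = _ := by ring


/-- the gain function -/
noncomputable def gg (δ u : ℝ) : ℝ := 1 / Real.pi * m1 u - 1 / (2 * Real.sqrt Real.pi) - 3 * PPs u - δ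

/-- monotonicity of `YY` type bounds -/
theorem to_YY (D2 e1 ε1 C C5 C' T L 𝓛 u : ℝ) (P X Y N : ℕ) (hX : 1 ≤ X) (hXY : X ≤ Y)
    (h𝓛 : 𝓛 = Real.log ((Y : ℝ) / X))
    (hD2 : 0 ≤ D2) (hε1 : 0 < ε1) (he1 : e1 ≤ (1 + ε1) * (1 + ε1)) (hC : 0 ≤ C) (hC5 : 0 ≤ C5)
    (hC' : C + C5 ≤ C') (hT : 0 ≤ T) (hL : 0 ≤ L) (hu : 0 ≤ u) (hTl : Tl N u ≤ 1) :
    D2 * e1 * (T / (2 * Real.pi) * S1 u + C5 * L * (u + 1)) + (T + C5) * DD C P X Y N u ≤
      YY (D2 * ((1 + ε1) * (1 + ε1))) T L C' 𝓛 P X Y u := by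
  have hX0 : (0 : ℝ) < X := by exact_mod_cast hX
  have hlog : 0 ≤ 𝓛 := by
    rw [h𝓛]
    refine Real.log_nonneg ?_
    rw [one_le_div hX0]
    exact_mod_cast hXY
  have hS1 : 0 ≤ S1 u := tsum_nonneg (fun n => by positivity)
  have hTl0 := Tl_nonneg N u
  have hTl2 : Tl N u ^ 2 ≤ 1 := by nlinarith
  unfold YY
  refine add_le_add ?_ ?_
  · have h1 : T / (2 * Real.pi) * S1 u + C5 * L * (u + 1) ≤
        T / (2 * Real.pi) * S1 u + C' * L * (u + 1) := by gcongr; linarith
    exact mul_le_mul (mul_le_mul_of_nonneg_left he1 hD2) h1 (by positivity) (by positivity)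
  · have hDDn := DD_nonneg C hC P X Y N u hX hXY
    refine mul_le_mul (by linarith) ?_ hDDn (by linarith)
    unfold DD
    rw [← h𝓛]
    have h0 : 0 ≤ ∑ q ∈ Finset.Ioc X (P * Y), (1 / (q : ℝ)) * Gq q u ^ 2 :=
      Finset.sum_nonneg (fun q _ => by positivity)
    refine add_le_add (mul_le_mul_of_nonneg_right (by linarith) h0) ?_
    have hC'0 : 0 ≤ C' := by linarith
    refine mul_le_mul ?_ (by linarith) (by positivity) (by positivity)
    exact mul_le_mul_of_nonneg_right (by linarith) (by linarith)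

/-- `exp x ≤ 1 + ε` for small `x` -/
theorem exp_le_one_add (x ε1 : ℝ) (hx : x ≤ ε1 / 2) (h0 : 0 < ε1) (h1 : ε1 ≤ 1) :
    Real.exp x ≤ 1 + ε1 := by
  refine (Real.exp_le_exp.mpr hx).trans ?_
  have h4 := Real.exp_bound_div_one_sub_of_interval (x := ε1 / 2) (by positivity) (by linarith)
  refine h4.trans ?_
  rw [div_le_iff₀ (by linarith)]
  nlinarith

/-- the mean square bound for all `u`, stage 2 -/
theorem ms_stage2 (β η δ ε1 : ℝ) (hβ : 0 < β) (hη : 0 < η) (hη1 : η ≤ 1 / 2) (hβη : β + η ≤ 2)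
    (hδ : 0 < δ) (h1 : 0 < ε1) (h2 : ε1 ≤ 1) :
    ∃ (C C' : ℝ) (P : ℕ), 0 < C ∧ 0 < C' ∧ 1 ≤ P ∧ ∀ᶠ L : ℝ in atTop, ∀ (X Y : ℕ) (T u : ℝ),
      Real.log X = L → X ≤ Y → Real.log Y ≤ (1 + η) * L → L ^ 2 ≤ T → T ≤ Real.exp (η * L) → 0 ≤ u →
      u ≤ β * L →
      ∫ t : ℝ, primFam X Y (fun q χ =>
        ‖∑' n : ℕ, (χ (n : ZMod q) * (ArithmeticFunction.vonMangoldt n : ℂ)) *
          ((Real.sqrt n : ℂ)⁻¹ * bt T u t (Real.log n))‖ ^ 2) ≤
        YY (((1 + ε1) * (c0 ^ 2 * (1 + ε1) * Real.log ((Y : ℝ) / X) + C)) * ((1 + ε1) * (1 + ε1)))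
          T L C' (Real.log ((Y : ℝ) / X)) P X Y u -
        ((1 + ε1) * (c0 ^ 2 * (1 + ε1) * Real.log ((Y : ℝ) / X) + C)) * (T - 2 * L) *
          (max (u - (1 + 7 * η) * L) 0 * gg δ u) := by
  obtain ⟨C, P, hC, hP, hpt⟩ := ms_point2 ε1 h1 h2
  obtain ⟨C5, hC5, h5⟩ := bt_sum_int
  obtain ⟨C7, hC7, h7⟩ := wt_sq_int
  obtain ⟨C8, hC8, h8⟩ := lam_tail
  refine ⟨C, C + (C5 + C7), P, hC, by positivity, hP, ?_⟩
  have hP0 : (0 : ℝ) < P := by exact_mod_cast hP
  have hlog2 : Real.log 2 ≤ 1 := by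
    have := Real.log_two_lt_d9
    linarith
  filter_upwards [eventually_ge_atTop 2, Tl_le_one β ε1 hβ (by linarith) h1 h2,
    gain_lower β η hη δ hδ, lin_ev (Real.log (C * P)) (1 - η) (by linarith),
    lin_ev (Real.log (C ^ 2 * P)) (1 - η) (by linarith), lin_ev (Real.log C) (6 * η) (by linarith),
    lin_ev (Real.log C) η (by linarith), lin_ev (Real.log C) (5 * η) (by linarith),
    lin_ev (Real.log (P + 1)) η (by linarith), lin_ev 1 (η / 4) (by linarith),
    exp_small1 Real.pi (η / 2) (ε1 / 2) (by positivity) (by positivity) Real.pi_pos,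
    exp_small C8 (β / 2) (η ^ 2 / 128) 1 (by positivity) (by positivity) hC8] with
    L l1 l2 l3 l4 l5 l6 l7 l8 l9 l10 l11 l12
  intro X Y T u hXL hXY hYL hT1 hT2 hu hu2
  have hL0 : 0 < L := by linarith
  have hXpos : (0 : ℝ) < X := by
    rcases Nat.eq_zero_or_pos X with h | h
    · rw [h] at hXL; simp at hXL; linarith
    · exact_mod_cast h
  have hX1 : 1 ≤ X := by exact_mod_cast hXpos
  have hXe : (X : ℝ) = Real.exp L := by rw [← hXL, Real.exp_log hXpos]
  have hXYr : (X : ℝ) ≤ Y := by exact_mod_cast hXY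
  have hYpos : (0 : ℝ) < Y := by linarith
  have hYe : (Y : ℝ) ≤ Real.exp ((1 + η) * L) := by
    rw [← Real.log_le_iff_le_exp hYpos]; exact hYL
  have hTL : 2 * L ≤ T := by nlinarith
  have hT1' : 1 ≤ T := by linarith
  have hT0 : 0 ≤ T := by linarith
  have hTκ : T ≤ Real.exp (L ^ 2) := hT2.trans (Real.exp_le_exp.mpr (by nlinarith))
  have hL1 : 1 ≤ L := by linarith
  set 𝓛 : ℝ := Real.log ((Y : ℝ) / X) with h𝓛
  have h𝓛n : 0 ≤ 𝓛 := by
    rw [h𝓛]
    refine Real.log_nonneg ?_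
    rw [one_le_div hXpos]
    exact hXYr
  have hc0 : 0 < c0 := by unfold c0; positivity
  set D2 : ℝ := (1 + ε1) * (c0 ^ 2 * (1 + ε1) * 𝓛 + C) with hD2
  have hD2n : 0 ≤ D2 := by positivity
  have hX2 : (X : ℝ) ^ 2 = Real.exp (2 * L) := by rw [hXe, ← Real.exp_nat_mul]; norm_num
  rcases le_or_gt u ((1 + 7 * η) * L) with hcase | hcase
  · -- small `u`
    set N : ℕ := ⌊ε1 / 8 * (X : ℝ) ^ 2⌋₊ with hN
    obtain ⟨i1, i2⟩ := h5 T L u N hL1 hT1' hTκ hu
    obtain ⟨j1, j2⟩ := h7 T hT0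
    have hcond1 : C * P * Y ≤ (X : ℝ) ^ 2 := by
      have e1 : C * P = Real.exp (Real.log (C * P)) := (Real.exp_log (by positivity)).symm
      rw [e1, hX2]
      calc _ ≤ Real.exp ((1 - η) * L) * Real.exp ((1 + η) * L) :=
            mul_le_mul (Real.exp_le_exp.mpr l4) hYe hYpos.le (Real.exp_pos _).le
        _ = _ := by rw [← Real.exp_add]; ring_nf
    have hcond2 : C ^ 2 * P * Y ≤ (X : ℝ) ^ 2 := by
      have e1 : C ^ 2 * P = Real.exp (Real.log (C ^ 2 * P)) := (Real.exp_log (by positivity)).symm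
      rw [e1, hX2]
      calc _ ≤ Real.exp ((1 - η) * L) * Real.exp ((1 + η) * L) :=
            mul_le_mul (Real.exp_le_exp.mpr l5) hYe hYpos.le (Real.exp_pos _).le
        _ = _ := by rw [← Real.exp_add]; ring_nf
    have hexp : Real.exp (Real.pi * N / (X : ℝ) ^ 2) ≤ 1 + ε1 := by
      refine exp_le_one_add _ _ ?_ h1 h2
      have g1 : (N : ℝ) ≤ ε1 / 8 * (X : ℝ) ^ 2 := Nat.floor_le (by positivity)
      rw [div_le_iff₀ (by positivity)]
      have g3 : Real.pi * N ≤ 4 * (ε1 / 8 * (X : ℝ) ^ 2) :=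
        mul_le_mul Real.pi_lt_four.le g1 (by positivity) (by norm_num)
      linarith
    have hTl := l2 X u hXL hu hu2
    have hstep := int_step X Y N P T L u D2 ((1 + ε1) * Real.exp (Real.pi * N / (X : ℝ) ^ 2)) C
      (C5 + C7) 0 hX1 hXY hD2n (by positivity) hC.le hT0 hTL i1
      (i2.trans (by
        refine add_le_add le_rfl ?_
        refine mul_le_mul_of_nonneg_right ?_ (by linarith)
        exact mul_le_mul_of_nonneg_right (by linarith) hL0.le)) j1 (j2.trans (by linarith)) ?_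
    · refine hstep.trans ?_
      rw [max_eq_right (by linarith), zero_mul]
      simp only [mul_zero, sub_zero]
      refine to_YY D2 _ ε1 C (C5 + C7) (C + (C5 + C7)) T L 𝓛 u P X Y N hX1 hXY h𝓛 hD2n h1 ?_ hC.le
        (by positivity) le_rfl hT0 hL0.le hu hTl
      exact mul_le_mul_of_nonneg_left hexp (by linarith)
    · intro t
      have h10 := hpt X Y N P ((X : ℝ) ^ 2) (1 / (C * P * Y)) T u t (fun _ => 0) (fun _ => 0) (fun _ => 0)
        hX1 hXY hT0 le_rfl C2I_zero (by rw [hX2]; exact Real.one_le_exp (by linarith)) le_rfl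
        (by positivity) hcond1 (by
          have : C * (1 / (C * P * Y)) * P * Y = 1 := by field_simp
          rw [this]) (by
          rw [mul_one_div, le_div_iff₀ (by positivity)]
          calc C * (C * P * Y) = C ^ 2 * P * Y := by ring
            _ ≤ _ := hcond2)
      rw [gain_zero, mul_zero, sub_zero] at h10
      refine h10.trans (le_of_eq ?_)
      congr 2
      rw [Set.indicator_apply]
      split_ifs <;> ring
  · -- large `u`
    set N : ℕ := ⌊Real.exp (u + η / 2 * L)⌋₊ with hN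
    set R : ℕ := ⌊Real.exp (u - 5 * η * L) / Y⌋₊ with hR
    set w : ℝ := Real.exp (-u + 4 * η * L) with hw
    set V : ℝ := Real.exp (u + η * L) with hV
    obtain ⟨i1, i2⟩ := h5 T L u N hL1 hT1' hTκ hu
    obtain ⟨j1, j2⟩ := h7 T hT0
    have hηL : 0 < η * L := by positivity
    -- R facts
    have hRY : Real.exp (u - 5 * η * L - (1 + η) * L) ≤ Real.exp (u - 5 * η * L) / Y := by
      rw [le_div_iff₀ hYpos, sub_eq_add_neg (u - 5 * η * L), Real.exp_add, mul_assoc]
      have : Real.exp (-((1 + η) * L)) * Y ≤ 1 := by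
        calc _ ≤ Real.exp (-((1 + η) * L)) * Real.exp ((1 + η) * L) :=
              mul_le_mul_of_nonneg_left hYe (Real.exp_pos _).le
          _ = 1 := by rw [← Real.exp_add]; simp
      calc _ ≤ Real.exp (u - 5 * η * L) * 1 := mul_le_mul_of_nonneg_left this (Real.exp_pos _).le
        _ = _ := mul_one _
    have hRbig : (P : ℝ) + 1 ≤ Real.exp (u - 5 * η * L) / Y := by
      refine le_trans ?_ hRY
      rw [← Real.log_le_iff_le_exp (by positivity)]
      refine l9.trans ?_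
      nlinarith
    have hPR : P ≤ R := by
      rw [hR]
      refine Nat.le_floor ?_
      linarith
    have hRle : (R : ℝ) ≤ Real.exp (u - 5 * η * L) / Y := Nat.floor_le (by positivity)
    have hR2 : Real.exp (u - 5 * η * L) / Y / 2 ≤ R := by
      have g1 := Nat.lt_floor_add_one (Real.exp (u - 5 * η * L) / Y)
      have g2 : (2 : ℝ) ≤ Real.exp (u - 5 * η * L) / Y := by
        have : (1 : ℝ) ≤ P := by exact_mod_cast hP
        linarith
      rw [← hR] at g1
      linarith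
    have hRlog : u - (1 + 7 * η) * L ≤ Real.log R := by
      have g3 : Real.exp (u - (1 + 7 * η) * L) ≤ R := by
        refine le_trans ?_ hR2
        refine le_trans ?_ (div_le_div_of_nonneg_right hRY (by norm_num))
        rw [le_div_iff₀ (by norm_num)]
        have g4 : (2 : ℝ) ≤ Real.exp (η * L) := by
          rw [← Real.log_le_iff_le_exp (by norm_num)]
          linarith
        calc _ ≤ Real.exp (u - (1 + 7 * η) * L) * Real.exp (η * L) :=
              mul_le_mul_of_nonneg_left g4 (Real.exp_pos _).le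
          _ = _ := by rw [← Real.exp_add]; ring_nf
      have hRpos : (0 : ℝ) < R := lt_of_lt_of_le (Real.exp_pos _) g3
      rwa [Real.le_log_iff_exp_le hRpos]
    have hRexp : (R : ℝ) ≤ Real.exp (u - L) := by
      refine hRle.trans ?_
      rw [div_le_iff₀ hYpos]
      calc Real.exp (u - 5 * η * L) ≤ Real.exp u := Real.exp_le_exp.mpr (by linarith)
        _ = Real.exp (u - L) * Real.exp L := by rw [← Real.exp_add]; ring_nf
        _ ≤ Real.exp (u - L) * Y := by
          refine mul_le_mul_of_nonneg_left ?_ (Real.exp_pos _).le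
          rw [← hXe]; exact hXYr
    have hRYle : (R : ℝ) * Y ≤ Real.exp (u - 5 * η * L) := by
      rwa [le_div_iff₀ hYpos] at hRle
    have c1 : C * R * Y ≤ V := by
      rw [mul_assoc]
      have e1 : C = Real.exp (Real.log C) := (Real.exp_log hC).symm
      calc C * (R * Y) ≤ Real.exp (6 * η * L) * Real.exp (u - 5 * η * L) := by
            refine mul_le_mul ?_ hRYle (by positivity) (Real.exp_pos _).le
            rw [e1]; exact Real.exp_le_exp.mpr l6
        _ = V := by rw [← Real.exp_add, hV]; ring_nf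
    have c2 : C * w * R * Y ≤ 1 := by
      have e1 : C = Real.exp (Real.log C) := (Real.exp_log hC).symm
      calc C * w * R * Y = C * w * (R * Y) := by ring
        _ ≤ Real.exp (η * L) * w * Real.exp (u - 5 * η * L) := by
            refine mul_le_mul (mul_le_mul_of_nonneg_right ?_ (Real.exp_pos _).le) hRYle (by positivity)
              (by positivity)
            rw [e1]; exact Real.exp_le_exp.mpr l7
        _ = 1 := by
          rw [hw, ← Real.exp_add, ← Real.exp_add, ← Real.exp_zero]; ring_nf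
    have c3 : C ≤ V * w := by
      have e1 : C = Real.exp (Real.log C) := (Real.exp_log hC).symm
      rw [hV, hw, ← Real.exp_add, e1]
      refine Real.exp_le_exp.mpr (l8.trans (le_of_eq ?_))
      ring
    have c4 : 1 ≤ V := Real.one_le_exp (by positivity)
    have c5 : V ≤ (X : ℝ) ^ 2 := by
      rw [hX2, hV]
      refine Real.exp_le_exp.mpr ?_
      nlinarith
    -- N facts
    have hNle : (N : ℝ) ≤ Real.exp (u + η / 2 * L) := Nat.floor_le (Real.exp_pos _).le
    have hN2 : Real.exp (u + η / 2 * L) / 2 ≤ N := by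
      have g1 := Nat.lt_floor_add_one (Real.exp (u + η / 2 * L))
      have g2 : (2 : ℝ) ≤ Real.exp (u + η / 2 * L) := by
        rw [← Real.log_le_iff_le_exp (by norm_num)]
        linarith
      rw [← hN] at g1
      linarith
    have hNlog : u + η / 4 * L ≤ Real.log N := by
      have g3 : Real.exp (u + η / 4 * L) ≤ N := by
        refine le_trans ?_ hN2
        rw [le_div_iff₀ (by norm_num)]
        have g4 : (2 : ℝ) ≤ Real.exp (η / 4 * L) := by
          rw [← Real.log_le_iff_le_exp (by norm_num)]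
          linarith
        calc _ ≤ Real.exp (u + η / 4 * L) * Real.exp (η / 4 * L) :=
              mul_le_mul_of_nonneg_left g4 (Real.exp_pos _).le
          _ = _ := by rw [← Real.exp_add]; ring_nf
      have hNpos : (0 : ℝ) < N := lt_of_lt_of_le (Real.exp_pos _) g3
      rwa [Real.le_log_iff_exp_le hNpos]
    have hN1 : 1 ≤ N := by
      have g5 : (0 : ℝ) < N := lt_of_lt_of_le (by positivity) hN2
      exact_mod_cast g5
    have hexp : Real.exp (Real.pi * N / V) ≤ 1 + ε1 := by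
      refine exp_le_one_add _ _ ?_ h1 h2
      refine le_trans ?_ l11
      rw [div_le_iff₀ (Real.exp_pos _), mul_assoc, ← Real.exp_add]
      refine mul_le_mul_of_nonneg_left (hNle.trans (Real.exp_le_exp.mpr ?_)) Real.pi_pos.le
      linarith
    have hTl : Tl N u ≤ 1 := by
      have g1 := h8 u (η / 4 * L) N hu (by positivity) hNlog
      refine le_trans g1 (le_trans ?_ l12)
      refine mul_le_mul_of_nonneg_left (Real.exp_le_exp.mpr ?_) hC8.le
      have : (η / 4 * L) ^ 2 / 8 = η ^ 2 / 128 * L ^ 2 := by ring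
      rw [this]; linarith
    have hua : 0 ≤ u - (1 + 7 * η) * L := by linarith
    have hstep := int_step X Y N P T L u D2 ((1 + ε1) * Real.exp (Real.pi * N / V)) C
      (C5 + C7) ((u - (1 + 7 * η) * L) * gg δ u) hX1 hXY hD2n (by positivity) hC.le hT0 hTL i1
      (i2.trans (by
        refine add_le_add le_rfl ?_
        refine mul_le_mul_of_nonneg_right ?_ (by linarith)
        exact mul_le_mul_of_nonneg_right (by linarith) hL0.le)) j1 (j2.trans (by linarith)) ?_
    · refine hstep.trans ?_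
      rw [max_eq_left hua]
      have h11 := to_YY D2 ((1 + ε1) * Real.exp (Real.pi * N / V)) ε1 C (C5 + C7) (C + (C5 + C7)) T L 𝓛 u
        P X Y N hX1 hXY h𝓛 hD2n h1 (mul_le_mul_of_nonneg_left hexp (by linarith)) hC.le
        (by positivity) le_rfl hT0 hL0.le hu hTl
      linarith
    · intro t
      have hzero : primFam X Y (fun q χ =>
        ‖∑' n : ℕ, (χ (n : ZMod q) * (ArithmeticFunction.vonMangoldt n : ℂ)) *
          ((Real.sqrt n : ℂ)⁻¹ * bt T u t (Real.log n))‖ ^ 2) ≤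
        D2 * ((1 + ε1) * Real.exp (Real.pi * N / V) *
          ∑ n ∈ Finset.Icc 1 N, (ArithmeticFunction.vonMangoldt n) ^ 2 *
          ‖(Real.sqrt n : ℂ)⁻¹ * bt T u t (Real.log n)‖ ^ 2 - 0)
        + wt T t ^ 2 * DD C P X Y N u := by
        have h10 := hpt X Y N R V w T u t (fun _ => 0) (fun _ => 0) (fun _ => 0)
          hX1 hXY hT0 hPR C2I_zero c4 c5 (Real.exp_pos _) c1 c2 c3
        rw [gain_zero, mul_zero] at h10
        exact h10
      by_cases ht : t ∈ Set.Icc (T + L) (2 * T - L)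
      · rw [Set.indicator_of_mem ht]
        obtain ⟨f1, f2, hf, hgain⟩ := l3 T u t w N R hT1 hT2 hu hu2 ht.1 ht.2 hw hN1 hNlog hRexp
        have hgain' : gg δ u ≤ gain N R w (fun n => (ArithmeticFunction.vonMangoldt n : ℂ) *
          ((Real.sqrt n : ℂ)⁻¹ * bt T u t (Real.log n))) (fl u t) f2 := hgain
        set G : ℝ := gain N R w (fun n => (ArithmeticFunction.vonMangoldt n : ℂ) *
          ((Real.sqrt n : ℂ)⁻¹ * bt T u t (Real.log n))) (fl u t) f2 with hG
        have k1 : (u - (1 + 7 * η) * L) * gg δ u ≤ (u - (1 + 7 * η) * L) * G :=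
          mul_le_mul_of_nonneg_left hgain' hua
        rcases le_or_gt 0 G with hG0 | hG0
        · have h10 := hpt X Y N R V w T u t (fl u t) f1 f2
            hX1 hXY hT0 hPR hf c4 c5 (Real.exp_pos _) c1 c2 c3
          rw [← hG] at h10
          refine h10.trans ?_
          refine add_le_add (mul_le_mul_of_nonneg_left ?_ hD2n) le_rfl
          have k2 : (u - (1 + 7 * η) * L) * G ≤ Real.log R * G := mul_le_mul_of_nonneg_right hRlog hG0
          linarith
        · refine hzero.trans ?_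
          refine add_le_add (mul_le_mul_of_nonneg_left ?_ hD2n) le_rfl
          have k2 : (u - (1 + 7 * η) * L) * G ≤ 0 := mul_nonpos_of_nonneg_of_nonpos hua hG0.le
          linarith
      · rw [Set.indicator_of_notMem ht]
        exact hzero

end H385
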