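import Pool.Agent.H385R2.FinC2

open Complex Filter Topology Set MeasureTheory
open H370 (zset mult NN Nd Ns)

set_option maxHeartbeats 4000000

namespace H385

theorem m1_cont : Continuous m1 := by
  have := lam_one_cont 1 one_pos
  simp only [mul_one] at this
  exact this

theorem PPs_cont : Continuous PPs := by
  have := primepow_cont (1 / 2) (by norm_num)
  have h2 : ∀ x : ℝ, x * (1 / 2) = x / 2 := fun x => by ring
  simp only [h2] at this
  exact this

theorem m1_nonneg (u : ℝ) : 0 ≤ m1 u := tsum_nonneg (fun n => An_nonneg u n)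

theorem PPs_le : ∃ C : ℝ, 0 < C ∧ ∀ u : ℝ, 0 ≤ u → PPs u ≤ C := by
  obtain ⟨Co, hCo, ho⟩ := lam_one_crude
  refine ⟨Co, hCo, fun u hu => ?_⟩
  refine le_trans ?_ (ho u hu).2
  refine Summable.tsum_le_tsum (fun n => ?_) (PP_summable u) (Bn_summable u)
  split_ifs
  · exact Bn_nonneg u 2 n
  · exact le_rfl

theorem gg_cont (δ : ℝ) : Continuous (gg δ) := by
  have h1 := m1_cont
  have h2 := PPs_cont
  unfold gg
  fun_prop

/-- lower bound for the integrated gain -/
theorem gg_int (γ : ℝ) (h0 : 0 < γ) (hπ : γ < Real.pi) : ∃ C : ℝ, 0 < C ∧ ∀ δ Λ a : ℝ, 0 < δ → 1 ≤ Λ →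
    0 ≤ a → a ≤ Λ →
    (∫ u in (0 : ℝ)..Λ, Rw γ (u / Λ) * max (u - a) 0) * (1 / (2 * Real.sqrt Real.pi) - δ) - C * Λ ≤
      ∫ u in (0 : ℝ)..Λ, Rw γ (u / Λ) * (max (u - a) 0 * gg δ u) := by
  obtain ⟨C, hC, h⟩ := lam_smooth_lower γ h0 hπ
  obtain ⟨C3, hC3, h3⟩ := primepow_avg
  set R0 : ℝ := Rw γ 0 with hR0
  have hR0n : 0 ≤ R0 := Rw_nonneg γ h0 hπ 0
  refine ⟨C + 3 * R0 * C3, by positivity, ?_⟩
  intro δ Λ a hδ hΛ ha haΛ
  have hΛ0 : 0 < Λ := by linarith
  have hpi := Real.pi_pos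
  have hspi : 0 < Real.sqrt Real.pi := Real.sqrt_pos.mpr hpi
  have hspi2 : Real.sqrt Real.pi * Real.sqrt Real.pi = Real.pi := Real.mul_self_sqrt hpi.le
  have hR := (Rw_cont γ h0 hπ).comp (continuous_id.div_const Λ)
  have hR' : Continuous (fun u : ℝ => Rw γ (u / Λ)) := hR
  have hm := m1_cont
  have hP := PPs_cont
  have hmax : Continuous (fun u : ℝ => max (u - a) 0) := by fun_prop
  have i1 : IntervalIntegrable (fun u => Rw γ (u / Λ) * (max (u - a) 0 * m1 u)) volume 0 Λ :=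
    (hR'.mul (hmax.mul hm)).intervalIntegrable _ _
  have i2 : IntervalIntegrable (fun u => Rw γ (u / Λ) * max (u - a) 0) volume 0 Λ :=
    (hR'.mul hmax).intervalIntegrable _ _
  have i3 : IntervalIntegrable (fun u => Rw γ (u / Λ) * (max (u - a) 0 * PPs u)) volume 0 Λ :=
    (hR'.mul (hmax.mul hP)).intervalIntegrable _ _
  have e0 : ∫ u in (0 : ℝ)..Λ, Rw γ (u / Λ) * (max (u - a) 0 * gg δ u) =
      1 / Real.pi * (∫ u in (0 : ℝ)..Λ, Rw γ (u / Λ) * (max (u - a) 0 * m1 u)) -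
      (1 / (2 * Real.sqrt Real.pi) + δ) * (∫ u in (0 : ℝ)..Λ, Rw γ (u / Λ) * max (u - a) 0) -
      3 * (∫ u in (0 : ℝ)..Λ, Rw γ (u / Λ) * (max (u - a) 0 * PPs u)) := by
    rw [← intervalIntegral.integral_const_mul, ← intervalIntegral.integral_const_mul,
      ← intervalIntegral.integral_const_mul, ← intervalIntegral.integral_sub (i1.const_mul _)
      (i2.const_mul _), ← intervalIntegral.integral_sub ((i1.const_mul _).sub (i2.const_mul _))
      (i3.const_mul _)]
    refine intervalIntegral.integral_congr (fun u _ => ?_)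
    show Rw γ (u / Λ) * (max (u - a) 0 * gg δ u) = 1 / Real.pi * (Rw γ (u / Λ) * (max (u - a) 0 * m1 u)) -
      (1 / (2 * Real.sqrt Real.pi) + δ) * (Rw γ (u / Λ) * max (u - a) 0) -
      3 * (Rw γ (u / Λ) * (max (u - a) 0 * PPs u))
    unfold gg
    ring
  have e1 : Real.sqrt Real.pi * (∫ u in (0 : ℝ)..Λ, Rw γ (u / Λ) * max (u - a) 0) - C * Λ ≤
    ∫ u in (0 : ℝ)..Λ, Rw γ (u / Λ) * (max (u - a) 0 * m1 u) := h Λ a hΛ ha haΛ
  have e2 : ∫ u in (0 : ℝ)..Λ, Rw γ (u / Λ) * (max (u - a) 0 * PPs u) ≤ R0 * Λ * C3 := by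
    have f1 : ∫ u in (0 : ℝ)..Λ, Rw γ (u / Λ) * (max (u - a) 0 * PPs u) ≤
        ∫ u in (0 : ℝ)..Λ, (R0 * Λ) * PPs u := by
      refine intervalIntegral.integral_mono_on hΛ0.le i3 ((hP.const_mul _ ).intervalIntegrable _ _)
        (fun u hu => ?_)
      have g1 := Rw_le γ h0 hπ (u / Λ) (div_nonneg hu.1 hΛ0.le)
      have g2 : max (u - a) 0 ≤ Λ := max_le (by linarith [hu.2]) hΛ0.le
      have g3 := PPs_nonneg u
      have g4 : 0 ≤ max (u - a) 0 := le_max_right _ _
      have g5 := Rw_nonneg γ h0 hπ (u / Λ)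
      calc _ ≤ R0 * (Λ * PPs u) := by
            refine mul_le_mul g1 (mul_le_mul_of_nonneg_right g2 g3) (by positivity) hR0n
        _ = _ := by ring
    refine f1.trans ?_
    rw [intervalIntegral.integral_const_mul]
    exact mul_le_mul_of_nonneg_left (h3 Λ hΛ0.le) (by positivity)
  rw [e0]
  set H : ℝ := ∫ u in (0 : ℝ)..Λ, Rw γ (u / Λ) * max (u - a) 0 with hH
  have e3 : 1 / Real.pi * (Real.sqrt Real.pi * H - C * Λ) ≤
      1 / Real.pi * ∫ u in (0 : ℝ)..Λ, Rw γ (u / Λ) * (max (u - a) 0 * m1 u) :=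
    mul_le_mul_of_nonneg_left e1 (by positivity)
  have e4 : 1 / Real.pi * (Real.sqrt Real.pi * H - C * Λ) = H / Real.sqrt Real.pi - C * Λ / Real.pi := by
    have h9 : Real.pi = Real.sqrt Real.pi * Real.sqrt Real.pi := hspi2.symm
    have : 1 / Real.pi * (Real.sqrt Real.pi * H) = H / Real.sqrt Real.pi := by
      rw [div_mul_eq_mul_div, one_mul]
      nth_rewrite 2 [h9]
      field_simp
    rw [mul_sub, this]; ring
  have e5 : C * Λ / Real.pi ≤ C * Λ := by
    rw [div_le_iff₀ hpi]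
    have : 0 ≤ C * Λ := by positivity
    nlinarith [Real.pi_gt_three]
  have e6 : H * (1 / (2 * Real.sqrt Real.pi) - δ) =
      H / Real.sqrt Real.pi - (1 / (2 * Real.sqrt Real.pi) + δ) * H := by
    field_simp
    ring
  rw [e6]
  linarith

/-- change of variables and the stage 2 constant -/
theorem const_step (γ β η L : ℝ) (h0 : 0 < γ) (hπ : γ < Real.pi) (hβ : 0 < β) (hη : 0 < η)
    (hL : 0 < L) :
    2 * β * (∫ α in (0 : ℝ)..1, α * Rw γ α) -
      2 * (∫ u in (0 : ℝ)..(β * L), Rw γ (u / (β * L)) * max (u - (1 + 7 * η) * L) 0) / ((β * L) * L) ≤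
    2 * (∫ α in (0 : ℝ)..1, min (β * α) 1 * Rw γ α) + 14 * η * Rw γ 0 := by
  have hR := Rw_cont γ h0 hπ
  have hΛ : 0 < β * L := by positivity
  have e1 : ∫ u in (0 : ℝ)..(β * L), Rw γ (u / (β * L)) * max (u - (1 + 7 * η) * L) 0 =
      (β * L) * ∫ α in (0 : ℝ)..1, Rw γ α * max ((β * L) * α - (1 + 7 * η) * L) 0 := by
    have := intervalIntegral.integral_comp_mul_left (a := 0) (b := 1)
      (fun u => Rw γ (u / (β * L)) * max (u - (1 + 7 * η) * L) 0) hΛ.ne'
    simp only [mul_zero, mul_one, smul_eq_mul] at this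
    have h2 : ∫ α in (0 : ℝ)..1, Rw γ (β * L * α / (β * L)) * max (β * L * α - (1 + 7 * η) * L) 0 =
        ∫ α in (0 : ℝ)..1, Rw γ α * max ((β * L) * α - (1 + 7 * η) * L) 0 := by
      refine intervalIntegral.integral_congr (fun α _ => ?_)
      show Rw γ (β * L * α / (β * L)) * max (β * L * α - (1 + 7 * η) * L) 0 =
        Rw γ α * max ((β * L) * α - (1 + 7 * η) * L) 0
      rw [mul_div_cancel_left₀ _ hΛ.ne']
    rw [h2] at this
    rw [this]
    field_simp
  have e2 : 2 * (∫ u in (0 : ℝ)..(β * L), Rw γ (u / (β * L)) * max (u - (1 + 7 * η) * L) 0) /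
      ((β * L) * L) = 2 * ∫ α in (0 : ℝ)..1, Rw γ α * max (β * α - (1 + 7 * η)) 0 := by
    rw [e1]
    have h3 : ∫ α in (0 : ℝ)..1, Rw γ α * max ((β * L) * α - (1 + 7 * η) * L) 0 =
        L * ∫ α in (0 : ℝ)..1, Rw γ α * max (β * α - (1 + 7 * η)) 0 := by
      rw [← intervalIntegral.integral_const_mul]
      refine intervalIntegral.integral_congr (fun α _ => ?_)
      show Rw γ α * max ((β * L) * α - (1 + 7 * η) * L) 0 =
        L * (Rw γ α * max (β * α - (1 + 7 * η)) 0)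
      have : max ((β * L) * α - (1 + 7 * η) * L) 0 = L * max (β * α - (1 + 7 * η)) 0 := by
        rw [mul_max_of_nonneg _ _ hL.le]
        congr 1 <;> ring
      rw [this]; ring
    rw [h3]
    field_simp
  rw [e2]
  have c1 : Continuous (fun α : ℝ => α * Rw γ α) := continuous_id.mul hR
  have c2 : Continuous (fun α : ℝ => Rw γ α * max (β * α - (1 + 7 * η)) 0) := by fun_prop
  have c3 : Continuous (fun α : ℝ => min (β * α) 1 * Rw γ α) := by fun_prop
  have e3 : 2 * β * (∫ α in (0 : ℝ)..1, α * Rw γ α) -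
      2 * (∫ α in (0 : ℝ)..1, Rw γ α * max (β * α - (1 + 7 * η)) 0) =
      2 * ∫ α in (0 : ℝ)..1, (β * (α * Rw γ α) - Rw γ α * max (β * α - (1 + 7 * η)) 0) := by
    rw [intervalIntegral.integral_sub ((c1.const_mul _).intervalIntegrable _ _)
      (c2.intervalIntegrable _ _), intervalIntegral.integral_const_mul]
    ring
  rw [e3]
  have e4 : ∫ α in (0 : ℝ)..1, (β * (α * Rw γ α) - Rw γ α * max (β * α - (1 + 7 * η)) 0) ≤
      ∫ α in (0 : ℝ)..1, (min (β * α) 1 * Rw γ α + 7 * η * Rw γ 0) := by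
    refine intervalIntegral.integral_mono_on zero_le_one
      (((c1.const_mul _).sub c2).intervalIntegrable _ _)
      ((c3.add continuous_const).intervalIntegrable _ _) (fun α hα => ?_)
    have g1 := Rw_nonneg γ h0 hπ α
    have g2 := Rw_le γ h0 hπ α hα.1
    have g3 : β * α - max (β * α - (1 + 7 * η)) 0 ≤ min (β * α) 1 + 7 * η := by
      rcases le_total (β * α) 1 with h | h
      · rw [min_eq_left h]
        have := le_max_right (β * α - (1 + 7 * η)) 0
        linarith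
      · rw [min_eq_right h]
        have := le_max_left (β * α - (1 + 7 * η)) 0
        linarith
    calc _ = (β * α - max (β * α - (1 + 7 * η)) 0) * Rw γ α := by ring
      _ ≤ (min (β * α) 1 + 7 * η) * Rw γ α := mul_le_mul_of_nonneg_right g3 g1
      _ = min (β * α) 1 * Rw γ α + 7 * η * Rw γ α := by ring
      _ ≤ _ := by
        have := mul_le_mul_of_nonneg_left g2 (show 0 ≤ 7 * η by positivity)
        linarith
  rw [intervalIntegral.integral_add (c3.intervalIntegrable _ _)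
    (continuous_const.intervalIntegrable _ _), intervalIntegral.integral_const] at e4
  simp only [sub_zero, one_smul] at e4
  linarith

end H385
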