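import Pool.Agent.H385R2.FinC3

open Complex Filter Topology Set MeasureTheory
open H370 (zset mult NN Nd Ns)

set_option maxHeartbeats 4000000

namespace H385

theorem aux_TL (L T : ℝ) (h2 : 2 ≤ L) (hT : L ^ 2 ≤ T) : 2 * L ≤ T := by nlinarith

theorem aux_12 (e : ℝ) (h0 : 0 < e) (h1 : e ≤ 1) : (1 + e) * (1 + 2 * e) ≤ 12 := by nlinarith

theorem aux_pow (e : ℝ) (h0 : 0 < e) (h1 : e ≤ 1) : e ^ 2 ≤ e ∧ e ^ 3 ≤ e ∧ e ^ 4 ≤ e :=
  ⟨pow_le_of_le_one h0.le h1 (by norm_num), pow_le_of_le_one h0.le h1 (by norm_num),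
    pow_le_of_le_one h0.le h1 (by norm_num)⟩

theorem aux_bL (b L : ℝ) (hb : 1 < b) (hL : 1 ≤ L) : 1 ≤ b * L := by nlinarith

theorem aux_c1 (W a b : ℝ) (hW : 0 ≤ W) (h : 12 * a ≤ b) : 12 * W * a ≤ b * W := by nlinarith

theorem aux_T0 (L T : ℝ) (hL : 1 ≤ L) (hT : L ^ 2 ≤ T) : 0 < T := by nlinarith

theorem sqrt_add_le' (a b : ℝ) (ha : 0 ≤ a) (hb : 0 ≤ b) :
    Real.sqrt (a + b) ≤ Real.sqrt a + Real.sqrt b := by
  rw [Real.sqrt_le_left (by positivity)]
  have h1 := Real.sq_sqrt ha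
  have h2 := Real.sq_sqrt hb
  nlinarith [mul_nonneg (Real.sqrt_nonneg a) (Real.sqrt_nonneg b)]

/-- numeric step for the integral -/
theorem J_step (β η ε L T W D2 D1 H G R0 δ C9 I1 c' JY : ℝ) (hβ : 0 < β) (hε : 0 < ε) (hL : 1 ≤ L)
    (hT : L ^ 2 ≤ T) (hTL : 2 * L ≤ T) (hW : 0 ≤ W) (hWD : W ≤ D2) (hD2 : D2 ≤ 12 * W)
    (hH0 : 0 ≤ H) (hH : H ≤ R0 * (β * L) ^ 2) (hR0 : 0 ≤ R0) (hδ : 0 < δ) (hC9 : 0 < C9)
    (hG : H * (1 / (2 * Real.sqrt Real.pi) - δ) - C9 * (β * L) ≤ G)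
    (hδ2 : 2 * Real.pi * (24 * δ * R0 * β) ≤ ε / 8)
    (hL2 : 2 * Real.pi * (2 * R0 * β + 24 * C9) ≤ ε / 8 * L)
    (hη : 14 * η * R0 ≤ ε / 2)
    (hJY : JY ≤ T / (2 * Real.pi) * L * W * (2 * β * I1 + ε / 4))
    (hc : 2 * β * I1 - 2 * H / ((β * L) * L) ≤ c' + 14 * η * R0) :
    JY - (2 / (Real.sqrt Real.pi * (β * L))) * (D2 * (T - 2 * L) * G) ≤
      T / (2 * Real.pi) * L * W * (c' + ε) := by
  have hpi := Real.pi_pos
  have hspi : 0 < Real.sqrt Real.pi := Real.sqrt_pos.mpr hpi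
  have hspi2 : Real.sqrt Real.pi * Real.sqrt Real.pi = Real.pi := Real.mul_self_sqrt hpi.le
  have hs1 : 1 ≤ Real.sqrt Real.pi := by
    rw [Real.one_le_sqrt]; linarith [Real.pi_gt_three]
  have hL0 : 0 < L := by linarith
  have hT0 : 0 < T := aux_T0 L T hL hT
  have hΛ : 0 < β * L := by positivity
  have hTL0 : 0 ≤ T - 2 * L := by linarith
  have hD20 : 0 ≤ D2 := hW.trans hWD
  -- lower bound for the gain
  have g1 : (2 / (Real.sqrt Real.pi * (β * L))) * (D2 * (T - 2 * L) *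
      (H * (1 / (2 * Real.sqrt Real.pi) - δ) - C9 * (β * L))) ≤
      (2 / (Real.sqrt Real.pi * (β * L))) * (D2 * (T - 2 * L) * G) := by
    gcongr
  have g2 : (2 / (Real.sqrt Real.pi * (β * L))) * (D2 * (T - 2 * L) *
      (H * (1 / (2 * Real.sqrt Real.pi) - δ) - C9 * (β * L))) =
      D2 * (T - 2 * L) * (H / (Real.pi * (β * L))) -
      D2 * (T - 2 * L) * (2 * δ * H / (Real.sqrt Real.pi * (β * L)) + 2 * C9 / Real.sqrt Real.pi) := by
    have h9 : Real.pi = Real.sqrt Real.pi * Real.sqrt Real.pi := hspi2.symm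
    have h10 : H / (Real.pi * (β * L)) = H / ((Real.sqrt Real.pi * Real.sqrt Real.pi) * (β * L)) := by
      rw [← h9]
    rw [h10]
    field_simp
    ring
  have g3 : W * (T - 2 * L) * (H / (Real.pi * (β * L))) ≤ D2 * (T - 2 * L) * (H / (Real.pi * (β * L))) := by
    gcongr
  have g4 : 2 * δ * H / (Real.sqrt Real.pi * (β * L)) ≤ 2 * δ * (R0 * (β * L)) := by
    rw [div_le_iff₀ (by positivity)]
    have k1 : 2 * δ * H ≤ 2 * δ * (R0 * (β * L) ^ 2) := by gcongr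
    have k2 : 2 * δ * (R0 * (β * L) ^ 2) = 2 * δ * (R0 * (β * L)) * (1 * (β * L)) := by ring
    rw [k2] at k1
    refine k1.trans ?_
    gcongr
  have g5 : 2 * C9 / Real.sqrt Real.pi ≤ 2 * C9 := div_le_self (by positivity) hs1
  have g6 : D2 * (T - 2 * L) * (2 * δ * H / (Real.sqrt Real.pi * (β * L)) + 2 * C9 / Real.sqrt Real.pi) ≤
      12 * W * T * (2 * δ * (R0 * (β * L)) + 2 * C9) := by
    have k0 : 0 ≤ 2 * δ * H / (Real.sqrt Real.pi * (β * L)) + 2 * C9 / Real.sqrt Real.pi := by positivity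
    have k1 : D2 * (T - 2 * L) ≤ 12 * W * T := mul_le_mul hD2 (by linarith) hTL0 (by positivity)
    exact mul_le_mul k1 (by linarith) k0 (by positivity)
  have g7 : W * (2 * L) * (H / (Real.pi * (β * L))) ≤ W * T * (2 * R0 * β) := by
    have k1 : H / (Real.pi * (β * L)) ≤ R0 * (β * L) := by
      rw [div_le_iff₀ (by positivity)]
      have k2 : R0 * (β * L) ^ 2 = R0 * (β * L) * (1 * (β * L)) := by ring
      rw [k2] at hH
      refine hH.trans ?_
      have : (1 : ℝ) ≤ Real.pi := by linarith [Real.pi_gt_three]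
      gcongr
    calc _ ≤ W * (2 * L) * (R0 * (β * L)) := by gcongr
      _ = W * (L ^ 2) * (2 * R0 * β) := by ring
      _ ≤ W * T * (2 * R0 * β) := by gcongr
  have g8 : W * T * (H / (Real.pi * (β * L))) = T / (2 * Real.pi) * L * W * (2 * H / ((β * L) * L)) := by
    field_simp
  have g9 : W * T * (2 * R0 * β + 24 * C9) ≤ T / (2 * Real.pi) * L * W * (ε / 8) := by
    have k1 : W * T * (2 * R0 * β + 24 * C9) = T / (2 * Real.pi) * W *
        (2 * Real.pi * (2 * R0 * β + 24 * C9)) := by field_simp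
    rw [k1]
    calc _ ≤ T / (2 * Real.pi) * W * (ε / 8 * L) := mul_le_mul_of_nonneg_left hL2 (by positivity)
      _ = _ := by ring
  have g10 : W * T * (24 * δ * R0 * β * L) ≤ T / (2 * Real.pi) * L * W * (ε / 8) := by
    have k1 : W * T * (24 * δ * R0 * β * L) = T / (2 * Real.pi) * L * W *
        (2 * Real.pi * (24 * δ * R0 * β)) := by field_simp
    rw [k1]
    exact mul_le_mul_of_nonneg_left hδ2 (by positivity)
  have hU : 0 ≤ T / (2 * Real.pi) * L * W := by positivity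
  have g11 : T / (2 * Real.pi) * L * W * (2 * β * I1 - 2 * H / ((β * L) * L)) ≤
      T / (2 * Real.pi) * L * W * (c' + 14 * η * R0) := mul_le_mul_of_nonneg_left hc hU
  have g12 : T / (2 * Real.pi) * L * W * (14 * η * R0) ≤ T / (2 * Real.pi) * L * W * (ε / 2) :=
    mul_le_mul_of_nonneg_left hη hU
  have g13 : W * (T - 2 * L) * (H / (Real.pi * (β * L))) =
      W * T * (H / (Real.pi * (β * L))) - W * (2 * L) * (H / (Real.pi * (β * L))) := by ring
  have g14 : 12 * W * T * (2 * δ * (R0 * (β * L)) + 2 * C9) =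
      W * T * (24 * δ * R0 * β * L) + W * T * (24 * C9) := by ring
  have g15 : W * T * (2 * R0 * β + 24 * C9) = W * T * (2 * R0 * β) + W * T * (24 * C9) := by ring
  set U : ℝ := T / (2 * Real.pi) * L * W with hU'
  have f1 : U * (2 * β * I1 - 2 * H / ((β * L) * L)) = U * (2 * β * I1) - U * (2 * H / ((β * L) * L)) := by
    ring
  have f2 : U * (c' + 14 * η * R0) = U * c' + U * (14 * η * R0) := by ring
  have f3 : U * (2 * β * I1 + ε / 4) = U * (2 * β * I1) + U * (ε / 8) + U * (ε / 8) := by ring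
  have f4 : U * (c' + ε) = U * c' + U * (ε / 2) + 4 * (U * (ε / 8)) := by ring
  rw [f1, f2] at g11
  rw [f3] at hJY
  rw [f4]
  linarith

theorem HY_stage2 (γ β : ℝ) (h0 : 0 < γ) (hπ : γ < Real.pi) (hβ : 1 < β) (hβ2 : β < 2) :
    HY γ β (2 * (∫ α in (0 : ℝ)..1, min (β * α) 1 * Rw γ α)) := by
  intro ε hε
  have hβ0 : 0 < β := by linarith
  have hpi := Real.pi_pos
  set R0 : ℝ := Rw γ 0 with hR0
  have hR0n : 0 ≤ R0 := Rw_nonneg γ h0 hπ 0
  set I1 : ℝ := ∫ α in (0 : ℝ)..1, α * Rw γ α with hI1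
  set c' : ℝ := 2 * (∫ α in (0 : ℝ)..1, min (β * α) 1 * Rw γ α) with hc'
  obtain ⟨C9, hC9, hgint⟩ := gg_int γ h0 hπ
  obtain ⟨Cp, hCp, hPPs⟩ := PPs_le
  obtain ⟨C4, hC4, hmass⟩ := prim_mass
  have hc0 : 0 < c0 := by unfold c0; positivity
  -- η
  set η : ℝ := min (min (1 / 2) (min ((2 - β)) ((β - 1) / 7))) (ε / 2 / (14 * (R0 + 1))) with hη
  have hη0 : 0 < η := by
    have : 0 < 2 - β := by linarith
    have : 0 < β - 1 := by linarith
    positivity
  have hη1 : η ≤ 1 / 2 := (min_le_left _ _).trans (min_le_left _ _)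
  have hη2 : η ≤ 2 - β := (min_le_left _ _).trans ((min_le_right _ _).trans (min_le_left _ _))
  have hη3 : η ≤ (β - 1) / 7 := (min_le_left _ _).trans ((min_le_right _ _).trans (min_le_right _ _))
  have hη4 : 14 * η * R0 ≤ ε / 2 := by
    have h1 : η ≤ ε / 2 / (14 * (R0 + 1)) := min_le_right _ _
    calc 14 * η * R0 ≤ 14 * (ε / 2 / (14 * (R0 + 1))) * R0 := by gcongr
      _ = ε / 2 * (R0 / (R0 + 1)) := by field_simp
      _ ≤ ε / 2 * 1 := by
        refine mul_le_mul_of_nonneg_left ?_ (by positivity)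
        rw [div_le_one (by positivity)]; linarith
      _ = _ := mul_one _
  -- δ
  set δ : ℝ := ε / 8 / (2 * Real.pi * 24 * (R0 * β + 1)) with hδ
  have hδ0 : 0 < δ := by positivity
  have hδ2 : 2 * Real.pi * (24 * δ * R0 * β) ≤ ε / 8 := by
    have h2 : 0 ≤ R0 * β := by positivity
    calc 2 * Real.pi * (24 * δ * R0 * β) = ε / 8 * ((R0 * β) / (R0 * β + 1)) := by
          rw [hδ]; field_simp
      _ ≤ ε / 8 * 1 := by
        refine mul_le_mul_of_nonneg_left ?_ (by positivity)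
        rw [div_le_one (by positivity)]; linarith
      _ = _ := mul_one _
  obtain ⟨ε2, hε2, hε2', hε2ε, hfin⟩ := YY_final γ β h0 hπ hβ0 (ε / 4) (by positivity)
  set ε1 : ℝ := ε2 / 4 with hε1
  have hε1p : 0 < ε1 := by positivity
  have hε1' : ε1 ≤ 1 := by rw [hε1]; linarith
  obtain ⟨C, C', P, hC, hC', hP, hev⟩ := ms_stage2 β η δ ε1 hβ0 hη0 hη1 (by linarith) hδ0 hε1p hε1'
  obtain ⟨K, L0, hK, hL0, hY⟩ := hfin C' P hC' hP
  have hev2 : ∀ᶠ L : ℝ in atTop, 2 ≤ L ∧ 2 * Real.pi * (2 * R0 * β + 24 * C9) ≤ ε / 8 * L ∧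
      12 * (1 + 3 * Cp + δ) ≤ (ε / 2) ^ 2 * L := by
    filter_upwards [eventually_ge_atTop 2, lin_ev (2 * Real.pi * (2 * R0 * β + 24 * C9)) (ε / 8)
      (by positivity), lin_ev (12 * (1 + 3 * Cp + δ)) ((ε / 2) ^ 2) (by positivity)] with L a1 a2 a3
    exact ⟨a1, a2, a3⟩
  obtain ⟨L1, hL1⟩ := Filter.eventually_atTop.mp (hev.and hev2)
  refine ⟨max K (Real.exp ((3 * C4 + C) / (ε1 * c0 ^ 2))), η, Real.exp (max (max L0 L1) 1),
    le_max_of_le_left hK, hη0, Real.one_le_exp (le_max_of_le_right zero_le_one), ?_⟩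
  intro X Y T hX hKX hYX hT1 hT2
  have hXpos : (0 : ℝ) < X := lt_of_lt_of_le (Real.exp_pos _) hX
  have hX1 : 1 ≤ X := by exact_mod_cast hXpos
  have hLmax : max (max L0 L1) 1 ≤ Real.log X := by
    rw [Real.le_log_iff_exp_le hXpos]; exact hX
  have hLL0 : L0 ≤ Real.log X := ((le_max_left _ _).trans (le_max_left _ _)).trans hLmax
  have hLL1 : L1 ≤ Real.log X := ((le_max_right _ _).trans (le_max_left _ _)).trans hLmax
  have hL1' : 1 ≤ Real.log X := (le_max_right _ _).trans hLmax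
  obtain ⟨hms, a1, a2, a3⟩ := hL1 (Real.log X) hLL1
  have hXexp : Real.exp L0 ≤ X := by rwa [Real.le_log_iff_exp_le hXpos] at hLL0
  have hKX1 : K * X ≤ Y := (mul_le_mul_of_nonneg_right (le_max_left _ _) hXpos.le).trans hKX
  have hKX2 : Real.exp ((3 * C4 + C) / (ε1 * c0 ^ 2)) * X ≤ Y :=
    (mul_le_mul_of_nonneg_right (le_max_right _ _) hXpos.le).trans hKX
  have hX1r : (1 : ℝ) ≤ X := by exact_mod_cast hX1
  have hY2 : (Y : ℝ) ≤ (X : ℝ) ^ (2 : ℕ) := by
    refine hYX.trans ?_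
    rw [← Real.rpow_natCast]
    exact Real.rpow_le_rpow_of_exponent_le hX1r (by push_cast; linarith)
  have hXYr : (X : ℝ) ≤ Y := aux_XY K X Y hK hXpos hKX1
  have hXY : X ≤ Y := by exact_mod_cast hXYr
  have hYpos : (0 : ℝ) < Y := by linarith
  have hlogY : Real.log Y ≤ (1 + η) * Real.log X := by
    have := Real.log_le_log hYpos hYX
    rwa [Real.log_rpow hXpos] at this
  have hT2' : T ≤ Real.exp (η * Real.log X) := by
    refine hT2.trans (le_of_eq ?_)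
    rw [Real.rpow_def_of_pos hXpos, mul_comm]
  set L : ℝ := Real.log X with hL
  have hLp : 0 < L := by linarith
  have hTL : 2 * L ≤ T := aux_TL L T a1 hT1
  have hT0 : 0 < T := by linarith
  set 𝓛 : ℝ := Real.log ((Y : ℝ) / X) with h𝓛
  have h𝓛K : (3 * C4 + C) / (ε1 * c0 ^ 2) ≤ 𝓛 := by
    rw [h𝓛, Real.le_log_iff_exp_le (by positivity), le_div_iff₀ hXpos]
    exact hKX2
  have h𝓛n : 0 ≤ 𝓛 := le_trans (by positivity) h𝓛K
  have hmm := abs_le.mp (hmass X Y hX1 hXY)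
  set W : ℝ := WW X Y with hW
  have hW' : primFam X Y (fun _ _ => 1) = W := rfl
  rw [hW'] at hmm
  have hWlow : c0 ^ 2 * 𝓛 - C4 ≤ W := by linarith [hmm.1]
  have hWup : W ≤ c0 ^ 2 * 𝓛 + C4 := by linarith [hmm.2]
  have hW0 : 0 ≤ W := primFam_nonneg _ _ _ (fun _ _ => zero_le_one)
  set D2 : ℝ := (1 + ε1) * (c0 ^ 2 * (1 + ε1) * 𝓛 + C) with hD2
  have hD2n : 0 ≤ D2 := by positivity
  have h2 : 3 * C4 + C ≤ ε1 * c0 ^ 2 * 𝓛 := by
    rw [div_le_iff₀ (by positivity)] at h𝓛K; linarith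
  have hWD : W ≤ D2 := by
    have k1 : W ≤ c0 ^ 2 * (1 + ε1) * 𝓛 + C := by
      have : c0 ^ 2 * (1 + ε1) * 𝓛 = c0 ^ 2 * 𝓛 + ε1 * c0 ^ 2 * 𝓛 := by ring
      linarith
    refine k1.trans ?_
    rw [hD2]
    exact le_mul_of_one_le_left (by positivity) (by linarith)
  have hD2W : D2 ≤ (1 + ε1) * ((1 + 2 * ε1) * W) := by
    have h3 : (1 + 2 * ε1) * (c0 ^ 2 * 𝓛 - C4) ≤ (1 + 2 * ε1) * W :=
      mul_le_mul_of_nonneg_left hWlow (by linarith)
    have h4 : (1 + 2 * ε1) * (c0 ^ 2 * 𝓛 - C4) = c0 ^ 2 * (1 + ε1) * 𝓛 + ε1 * c0 ^ 2 * 𝓛 -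
      (1 + 2 * ε1) * C4 := by ring
    have h5 : (1 + 2 * ε1) * C4 ≤ 3 * C4 := mul_le_mul_of_nonneg_right (by linarith) hC4.le
    rw [hD2]
    refine mul_le_mul_of_nonneg_left ?_ (by linarith)
    linarith
  have hD212 : D2 ≤ 12 * W := by
    refine hD2W.trans ?_
    have : (1 + ε1) * (1 + 2 * ε1) ≤ 12 := aux_12 ε1 hε1p hε1'
    calc _ = ((1 + ε1) * (1 + 2 * ε1)) * W := by ring
      _ ≤ _ := mul_le_mul_of_nonneg_right this hW0
  set D1 : ℝ := D2 * ((1 + ε1) * (1 + ε1)) with hD1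
  have hD1n : 0 ≤ D1 := by positivity
  have hD1W : D1 ≤ (1 + 11 * ε2) * W := by
    have k1 : D1 ≤ ((1 + ε1) * ((1 + 2 * ε1) * W)) * ((1 + ε1) * (1 + ε1)) :=
      mul_le_mul_of_nonneg_right hD2W (by positivity)
    refine k1.trans ?_
    obtain ⟨g1, g2, g2'⟩ := aux_pow ε1 hε1p hε1'
    have g3 : (1 + ε1) * (1 + 2 * ε1) * ((1 + ε1) * (1 + ε1)) = 1 + 5 * ε1 + 9 * ε1 ^ 2 + 7 * ε1 ^ 3 +
      2 * ε1 ^ 4 := by ring
    have g4 : (1 + ε1) * (1 + 2 * ε1) * ((1 + ε1) * (1 + ε1)) ≤ 1 + 11 * ε2 := by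
      rw [g3]
      have : ε2 = 4 * ε1 := by rw [hε1]; ring
      rw [this]; linarith
    calc _ = ((1 + ε1) * (1 + 2 * ε1) * ((1 + ε1) * (1 + ε1))) * W := by ring
      _ ≤ _ := mul_le_mul_of_nonneg_right g4 hW0
  obtain ⟨y1, y2, hy1, hy2, m2, m5, m4⟩ := hY X Y T D1 hXexp hKX1 hY2 hT1 hD1n hD1W
  set a : ℝ := (1 + 7 * η) * L with ha
  have ha0 : 0 ≤ a := by positivity
  have haΛ : a ≤ β * L := by
    rw [ha]
    refine mul_le_mul_of_nonneg_right ?_ hLp.le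
    linarith
  have hgc := gg_cont δ
  have hmaxc : Continuous (fun u : ℝ => max (u - a) 0) := by fun_prop
  have hRc : Continuous (fun u : ℝ => Rw γ (u / (β * L))) :=
    (Rw_cont γ h0 hπ).comp (continuous_id.div_const _)
  have hYYc := YY_cont D1 T L C' 𝓛 P X Y
  refine ⟨fun u => YY D1 T L C' 𝓛 P X Y u - D2 * (T - 2 * L) * (max (u - a) 0 * gg δ u),
    y1 + 12 * W * (1 + 3 * Cp + δ), y2, by positivity, hy2, ?_, ?_, ?_, ?_, ?_⟩
  · intro u hu
    exact hms X Y T u rfl hXY hlogY hT1 hT2' hu.1 hu.2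
  · intro u hu
    have b1 := m2 u hu
    have b2 : -(D2 * (T - 2 * L) * (max (u - a) 0 * gg δ u)) ≤
        12 * W * T * ((u + 1) * (1 + 3 * Cp + δ)) := by
      have k1 : -gg δ u ≤ 1 + 3 * Cp + δ := by
        unfold gg
        have k2 := m1_nonneg u
        have k3 := hPPs u hu.1
        have k4 : 1 / (2 * Real.sqrt Real.pi) ≤ 1 := by
          rw [div_le_one (by positivity)]
          have : 1 ≤ Real.sqrt Real.pi := by rw [Real.one_le_sqrt]; linarith [Real.pi_gt_three]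
          linarith
        have k5 : 0 ≤ 1 / Real.pi * m1 u := by positivity
        linarith
      have k6 : 0 ≤ max (u - a) 0 := le_max_right _ _
      have k7 : max (u - a) 0 ≤ u + 1 := max_le (by linarith [hu.1]) (by linarith [hu.1])
      have k8 : max (u - a) 0 * (-gg δ u) ≤ (u + 1) * (1 + 3 * Cp + δ) := by
        calc _ ≤ max (u - a) 0 * (1 + 3 * Cp + δ) := mul_le_mul_of_nonneg_left k1 k6
          _ ≤ _ := mul_le_mul_of_nonneg_right k7 (by positivity)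
      have k9 : 0 ≤ T - 2 * L := by linarith
      have k10 : D2 * (T - 2 * L) ≤ 12 * W * T := mul_le_mul hD212 (by linarith) k9 (by positivity)
      have k11 : 0 ≤ (u + 1) * (1 + 3 * Cp + δ) := by
        have := hu.1
        positivity
      calc _ = D2 * (T - 2 * L) * (max (u - a) 0 * (-gg δ u)) := by ring
        _ ≤ D2 * (T - 2 * L) * ((u + 1) * (1 + 3 * Cp + δ)) :=
          mul_le_mul_of_nonneg_left k8 (by positivity)
        _ ≤ _ := mul_le_mul_of_nonneg_right k10 k11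
    have b3 : T * ((y1 + 12 * W * (1 + 3 * Cp + δ)) * (u + 1) + y2) =
        T * (y1 * (u + 1) + y2) + 12 * W * T * ((u + 1) * (1 + 3 * Cp + δ)) := by ring
    show YY D1 T L C' 𝓛 P X Y u - D2 * (T - 2 * L) * (max (u - a) 0 * gg δ u) ≤ _
    rw [b3]
    linarith
  · exact (hYYc.sub ((hmaxc.mul hgc).const_mul _)).intervalIntegrable _ _
  · have i1 : IntervalIntegrable (fun u => Rw γ (u / (β * L)) * YY D1 T L C' 𝓛 P X Y u) volume 0 (β * L) :=
      (hRc.mul hYYc).intervalIntegrable _ _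
    have i2 : IntervalIntegrable (fun u => Rw γ (u / (β * L)) * (max (u - a) 0 * gg δ u)) volume 0
        (β * L) := (hRc.mul (hmaxc.mul hgc)).intervalIntegrable _ _
    have e1 : ∫ u in (0 : ℝ)..(β * L), Rw γ (u / (β * L)) *
        (YY D1 T L C' 𝓛 P X Y u - D2 * (T - 2 * L) * (max (u - a) 0 * gg δ u)) =
        (∫ u in (0 : ℝ)..(β * L), Rw γ (u / (β * L)) * YY D1 T L C' 𝓛 P X Y u) -
        D2 * (T - 2 * L) * (∫ u in (0 : ℝ)..(β * L), Rw γ (u / (β * L)) * (max (u - a) 0 * gg δ u)) := by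
      rw [← intervalIntegral.integral_const_mul, ← intervalIntegral.integral_sub i1 (i2.const_mul _)]
      refine intervalIntegral.integral_congr (fun u _ => ?_)
      show Rw γ (u / (β * L)) *
        (YY D1 T L C' 𝓛 P X Y u - D2 * (T - 2 * L) * (max (u - a) 0 * gg δ u)) =
        Rw γ (u / (β * L)) * YY D1 T L C' 𝓛 P X Y u -
        D2 * (T - 2 * L) * (Rw γ (u / (β * L)) * (max (u - a) 0 * gg δ u))
      ring
    rw [e1, mul_sub]
    have hΛ1 : 1 ≤ β * L := aux_bL β L hβ hL1'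
    set H : ℝ := ∫ u in (0 : ℝ)..(β * L), Rw γ (u / (β * L)) * max (u - a) 0 with hH
    have hHn : 0 ≤ H := intervalIntegral.integral_nonneg (by positivity)
      (fun u _ => mul_nonneg (Rw_nonneg γ h0 hπ _) (le_max_right _ _))
    have hHle : H ≤ R0 * (β * L) ^ 2 := by
      have k1 : H ≤ ∫ u in (0 : ℝ)..(β * L), R0 * (β * L) := by
        refine intervalIntegral.integral_mono_on (by positivity) ((hRc.mul hmaxc).intervalIntegrable _ _)
          (continuous_const.intervalIntegrable _ _) (fun u hu => ?_)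
        have g1 := Rw_le γ h0 hπ (u / (β * L)) (div_nonneg hu.1 (by positivity))
        have g2 : max (u - a) 0 ≤ β * L := max_le (by linarith [hu.2]) (by positivity)
        exact mul_le_mul g1 g2 (le_max_right _ _) hR0n
      refine k1.trans (le_of_eq ?_)
      rw [intervalIntegral.integral_const, smul_eq_mul]
      ring
    exact J_step β η ε L T W D2 D1 H _ R0 δ C9 I1 c' _ hβ0 hε hL1' hT1 hTL hW0 hWD hD212 hHn hHle hR0n
      hδ0 hC9 (hgint δ (β * L) a hδ0 hΛ1 ha0 haΛ) hδ2 a2 hη4 m4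
      (const_step γ β η L h0 hπ hβ0 hη0 hLp)
  · have k1 := sqrt_add_le' y1 (12 * W * (1 + 3 * Cp + δ)) hy1 (by positivity)
    have k2 : Real.sqrt (12 * W * (1 + 3 * Cp + δ)) ≤ ε / 2 * L * Real.sqrt W := by
      have c1 : 12 * W * (1 + 3 * Cp + δ) ≤ (ε / 2 * L) ^ 2 * W := by
        have c2 : 12 * (1 + 3 * Cp + δ) ≤ (ε / 2 * L) ^ 2 := by
          have d1 : (ε / 2) ^ 2 * L ≤ (ε / 2 * L) ^ 2 := by
            have : (ε / 2 * L) ^ 2 = (ε / 2) ^ 2 * L * L := by ring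
            rw [this]
            exact le_mul_of_one_le_right (by positivity) hL1'
          linarith
        exact aux_c1 W _ _ hW0 c2
      calc _ ≤ Real.sqrt ((ε / 2 * L) ^ 2 * W) := Real.sqrt_le_sqrt c1
        _ = _ := by rw [Real.sqrt_mul (by positivity), Real.sqrt_sq (by positivity)]
    have k3 : ε / 4 * L * Real.sqrt W + ε / 2 * L * Real.sqrt W ≤ ε * L * Real.sqrt W := by
      have d1 : ε / 4 * L * Real.sqrt W + ε / 2 * L * Real.sqrt W = 3 / 4 * (ε * L * Real.sqrt W) := by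
        ring
      have d2 : 0 ≤ ε * L * Real.sqrt W := by positivity
      rw [d1]; linarith
    exact le_trans (add_le_add (k1.trans (add_le_add le_rfl k2)) le_rfl) (by linarith)

end H385
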