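import Pool.Agent.H385R2.WinC

open Complex Filter Topology Set MeasureTheory

namespace H385

open WinC

theorem Rw_const_sharp : Rw (11 / 5) 0 / 2 + 2 * ∫ α in (0 : ℝ)..1, min (2 * α) 1 * Rw (11 / 5) α ≤
    1.067785 := by
  set γ : ℝ := 11 / 5 with hγ
  have hγ0 : γ ≠ 0 := by rw [hγ]; norm_num
  set K := (γ / (2 * Real.sin (γ / 2))) ^ 2 / 2 with hK
  have hRw : ∀ x : ℝ, 0 ≤ x → x ≤ 1 → Rw γ x = nm γ x * K := by
    intro x hx hx1
    unfold Rw nm
    rw [abs_of_nonneg hx, if_pos hx1]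
    ring
  have hc : Continuous (fun α : ℝ => min (2 * α) 1 * (nm γ α * K)) := by
    have := nm_cont γ
    fun_prop
  have h1 : ∫ α in (0 : ℝ)..1, min (2 * α) 1 * Rw γ α =
      ∫ α in (0 : ℝ)..1, min (2 * α) 1 * (nm γ α * K) := by
    apply intervalIntegral.integral_congr
    intro x hx
    rw [Set.uIcc_of_le zero_le_one] at hx
    simp only
    rw [hRw x hx.1 hx.2]
  have h2 : ∫ α in (0 : ℝ)..1, min (2 * α) 1 * (nm γ α * K) =
      (∫ α in (0 : ℝ)..(1 / 2), min (2 * α) 1 * (nm γ α * K)) +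
      ∫ α in (1 / 2 : ℝ)..1, min (2 * α) 1 * (nm γ α * K) :=
    (intervalIntegral.integral_add_adjacent_intervals (hc.intervalIntegrable _ _)
      (hc.intervalIntegrable _ _)).symm
  have h3 : ∫ α in (0 : ℝ)..(1 / 2), min (2 * α) 1 * (nm γ α * K) =
      2 * K * (N2 γ (1 / 2) - N2 γ 0) := by
    have : ∫ α in (0 : ℝ)..(1 / 2), min (2 * α) 1 * (nm γ α * K) =
        ∫ α in (0 : ℝ)..(1 / 2), 2 * K * (α * nm γ α) := by
      apply intervalIntegral.integral_congr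
      intro x hx
      rw [Set.uIcc_of_le (by norm_num)] at hx
      simp only
      rw [min_eq_left (by linarith [hx.2])]
      ring
    rw [this, intervalIntegral.integral_const_mul,
      intervalIntegral.integral_eq_sub_of_hasDerivAt (fun x _ => N2_deriv γ hγ0 x)]
    apply Continuous.intervalIntegrable
    have := nm_cont γ
    fun_prop
  have h4 : ∫ α in (1 / 2 : ℝ)..1, min (2 * α) 1 * (nm γ α * K) =
      K * (N1 γ 1 - N1 γ (1 / 2)) := by
    have : ∫ α in (1 / 2 : ℝ)..1, min (2 * α) 1 * (nm γ α * K) =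
        ∫ α in (1 / 2 : ℝ)..1, K * nm γ α := by
      apply intervalIntegral.integral_congr
      intro x hx
      rw [Set.uIcc_of_le (by norm_num)] at hx
      simp only
      rw [min_eq_right (by linarith [hx.1])]
      ring
    rw [this, intervalIntegral.integral_const_mul,
      intervalIntegral.integral_eq_sub_of_hasDerivAt (fun x _ => N1_deriv γ hγ0 x)]
    exact (nm_cont γ).intervalIntegrable _ _
  obtain ⟨hcos, hsin⟩ := trig_11
  have hh : γ / 2 = 11 / 10 := by rw [hγ]; norm_num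
  have hS : Real.sin γ = 2 * Real.sin (11 / 10) * Real.cos (11 / 10) := by
    rw [← Real.sin_two_mul]; congr 1; rw [hγ]; norm_num
  have hC : Real.cos γ = 1 - 2 * Real.sin (11 / 10) ^ 2 := by
    have : Real.cos γ = Real.cos (2 * (11 / 10)) := by congr 1; rw [hγ]; norm_num
    rw [this, Real.cos_two_mul, Real.cos_sq']
    ring
  rw [h1, h2, h3, h4, hRw 0 le_rfl zero_le_one]
  unfold N1 N2 nm
  have a1 : γ * (1 / 2) = 11 / 10 := by rw [hγ]; norm_num
  have a2 : γ * (1 - 1 / 2) = 11 / 10 := by rw [hγ]; norm_num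
  have a3 : γ * (1 - 0) = γ := by ring
  have a4 : γ * (1 - 1) = 0 := by ring
  have a5 : γ * 0 = 0 := by ring
  have a6 : γ * 1 = γ := by ring
  rw [a1, a2, a3, a4, a5, a6, Real.sin_zero, Real.cos_zero, hS, hC, hK, hh]
  set s := Real.sin (11 / 10) with hs
  set c := Real.cos (11 / 10) with hcc
  rw [abs_le] at hcos hsin
  have hs1 : 0.891206 ≤ s := by linarith [hsin.1]
  have hs2 : s ≤ 0.891209 := by linarith [hsin.2]
  have hspos : 0 < s := by linarith
  rw [hγ]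
  have key : (10 : ℝ) * (121 / 100 + 11 / 10 * s * c + 30 / 11 * s + c - 2 + 2 * s ^ 2 -
      20 / 11 * s * c) ≤ 1.067785 * 4 * s ^ 2 * 10 := by
    have hcs : s ^ 2 + c ^ 2 = 1 := Real.sin_sq_add_cos_sq _
    nlinarith [hcos.1, hcos.2, hsin.1, hsin.2, mul_nonneg (sub_nonneg.2 hcos.1) (sub_nonneg.2 hsin.1),
      mul_nonneg (sub_nonneg.2 hcos.2) (sub_nonneg.2 hsin.1),
      mul_nonneg (sub_nonneg.2 hcos.1) (sub_nonneg.2 hsin.2),
      mul_nonneg (sub_nonneg.2 hcos.2) (sub_nonneg.2 hsin.2),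
      mul_nonneg (sub_nonneg.2 hsin.1) (sub_nonneg.2 hsin.2),
      sq_nonneg (s - 0.8912073)]
  have hfin : ((1 - 0) * 1 + 2 * s * c / (11 / 5)) * ((11 / 5 / (2 * s)) ^ 2 / 2) / 2 +
      2 * (2 * ((11 / 5 / (2 * s)) ^ 2 / 2) *
        (1 / 2 * (1 - 1 / 2) * s / (11 / 5) + (1 - 2 * (1 / 2)) * c / (11 / 5) ^ 2 +
          2 * s / (11 / 5) ^ 3 + 1 / 2 * c / (11 / 5) ^ 2 + s / (11 / 5) ^ 3 -
          (0 * (1 - 0) * 0 / (11 / 5) + (1 - 2 * 0) * 1 / (11 / 5) ^ 2 +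
            2 * 0 / (11 / 5) ^ 3 + 0 * (1 - 2 * s ^ 2) / (11 / 5) ^ 2 +
            2 * s * c / (11 / 5) ^ 3)) +
        (11 / 5 / (2 * s)) ^ 2 / 2 *
        ((1 - 1) * (2 * s * c) / (11 / 5) - (1 - 2 * s ^ 2) / (11 / 5) ^ 2 + 1 / (11 / 5) ^ 2 -
          ((1 - 1 / 2) * s / (11 / 5) - c / (11 / 5) ^ 2 + c / (11 / 5) ^ 2))) =
      (121 / 100 + 11 / 10 * s * c + 30 / 11 * s + c - 2 + 2 * s ^ 2 -
      20 / 11 * s * c) / (4 * s ^ 2) := by
    field_simp
    ring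
  rw [hfin, div_le_iff₀ (by positivity)]
  linarith

end H385
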