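import Pool.Agent.H385R2.FinA
import Pool.Agent.H385R2.FinC4
import Pool.Agent.H385R2.WinD

open Complex Filter Topology Set MeasureTheory
open H370 (zset mult NN Nd Ns)

set_option maxHeartbeats 4000000

namespace H385

theorem primFam_lin (X Y : ℕ) (a b : ℝ) (f g : (q : ℕ) → DirichletCharacter ℂ q → ℝ) :
    primFam X Y (fun q χ => a * f q χ - b * g q χ) = a * primFam X Y f - b * primFam X Y g := by
  rw [primFam_eq, primFam_eq, primFam_eq, Finset.mul_sum, Finset.mul_sum, ← Finset.sum_sub_distrib]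
  exact Finset.sum_congr rfl (fun p _ => by ring)

/-- the family theorem, given a numerical bound for the constant -/
theorem final_of_const (γ c : ℝ) (h0 : 0 < γ) (hπ : γ < Real.pi)
    (hc : Rw γ 0 / 2 + 2 * (∫ α in (0 : ℝ)..1, min (2 * α) 1 * Rw γ α) < c) :
    ∃ K η X0 : ℝ, 1 ≤ K ∧ 0 < η ∧ 1 ≤ X0 ∧
    ∀ (X Y : ℕ) (T : ℝ), X0 ≤ X → K * X ≤ Y → (Y : ℝ) ≤ (X : ℝ) ^ (1 + η) →
      (Real.log X) ^ 2 ≤ T → T ≤ (X : ℝ) ^ η →
      (2 - c) * primFam X Y (fun q χ => (NN (LF q χ) T (2 * T) : ℝ)) ≤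
        primFam X Y (fun q χ => (Ns (LF q χ) T (2 * T) : ℝ)) ∧
      (3 - c) / 2 * primFam X Y (fun q χ => (NN (LF q χ) T (2 * T) : ℝ)) ≤
        primFam X Y (fun q χ => (Nd (LF q χ) T (2 * T) : ℝ)) := by
  set R0 : ℝ := Rw γ 0 with hR0
  have hR0n : 0 ≤ R0 := Rw_nonneg γ h0 hπ 0
  set J : ℝ := ∫ α in (0 : ℝ)..1, min (2 * α) 1 * Rw γ α with hJ
  set d : ℝ := c - (R0 / 2 + 2 * J) with hd
  have hd0 : 0 < d := by rw [hd]; linarith
  -- choose β
  set s : ℝ := min (1 / 2) (d / (R0 + 1)) with hs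
  have hs0 : 0 < s := by positivity
  have hs1 : s ≤ 1 / 2 := min_le_left _ _
  have hs2 : R0 * s ≤ d := by
    have h1 : s ≤ d / (R0 + 1) := min_le_right _ _
    calc R0 * s ≤ R0 * (d / (R0 + 1)) := mul_le_mul_of_nonneg_left h1 hR0n
      _ = d * (R0 / (R0 + 1)) := by ring
      _ ≤ d * 1 := by
        refine mul_le_mul_of_nonneg_left ?_ hd0.le
        rw [div_le_one (by positivity)]; linarith
      _ = d := mul_one d
  set β : ℝ := 2 - s with hβ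
  have hβ1 : 1 < β := by rw [hβ]; linarith
  have hβ2 : β < 2 := by rw [hβ]; linarith
  have hβ0 : 0 < β := by linarith
  have hR := Rw_cont γ h0 hπ
  have c1 : Continuous (fun α : ℝ => min (2 * α) 1 * Rw γ α) := by fun_prop
  have c2 : Continuous (fun α : ℝ => min (β * α) 1 * Rw γ α) := by fun_prop
  have e1 : ∫ α in (0 : ℝ)..1, min (β * α) 1 * Rw γ α ≤ J := by
    refine intervalIntegral.integral_mono_on zero_le_one (c2.intervalIntegrable _ _)
      (c1.intervalIntegrable _ _) (fun α hα => ?_)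
    refine mul_le_mul_of_nonneg_right ?_ (Rw_nonneg γ h0 hπ α)
    exact min_le_min_right _ (mul_le_mul_of_nonneg_right hβ2.le hα.1)
  have e2 : R0 / β ≤ R0 / 2 + d / 2 := by
    have : R0 / β = R0 / 2 + R0 * s / (2 * β) := by
      rw [hβ]
      have : (2 - s) ≠ 0 := by linarith
      field_simp
      ring
    rw [this]
    have h3 : R0 * s / (2 * β) ≤ d / 2 := by
      rw [div_le_div_iff₀ (by positivity) (by norm_num)]
      nlinarith [mul_nonneg hR0n hs0.le]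
    linarith
  have hcp : 0 ≤ 2 * (∫ α in (0 : ℝ)..1, min (β * α) 1 * Rw γ α) := by
    refine mul_nonneg (by norm_num) (intervalIntegral.integral_nonneg zero_le_one (fun α hα => ?_))
    exact mul_nonneg (le_min (mul_nonneg hβ0.le hα.1) zero_le_one) (Rw_nonneg γ h0 hπ α)
  obtain ⟨K, η, X0, hK, hη, hX0, h⟩ := final_core γ β _ h0 hπ hβ0 hcp hR0n
    (HY_stage2 γ β h0 hπ hβ1 hβ2) (d / 2) (by positivity)
  refine ⟨K, η, X0, hK, hη, hX0, ?_⟩
  intro X Y T a1 a2 a3 a4 a5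
  obtain ⟨b1, b2⟩ := h X Y T a1 a2 a3 a4 a5
  have hN : 0 ≤ primFam X Y (fun q χ => (NN (LF q χ) T (2 * T) : ℝ)) :=
    primFam_nonneg _ _ _ (fun _ _ => Nat.cast_nonneg _)
  have hcc : R0 / β + 2 * (∫ α in (0 : ℝ)..1, min (β * α) 1 * Rw γ α) + d / 2 ≤ c := by
    have : R0 / 2 + 2 * J + d = c := by rw [hd]; ring
    linarith
  have hcc' := mul_le_mul_of_nonneg_right hcc hN
  have l1 := primFam_lin X Y 2 1 (fun q χ => (NN (LF q χ) T (2 * T) : ℝ))
    (fun q χ => (Ns (LF q χ) T (2 * T) : ℝ))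
  have l2 := primFam_lin X Y 3 2 (fun q χ => (NN (LF q χ) T (2 * T) : ℝ))
    (fun q χ => (Nd (LF q χ) T (2 * T) : ℝ))
  simp only [one_mul] at l1
  rw [l1] at b1
  rw [l2] at b2
  constructor
  · linarith
  · linarith

theorem stage2_final :
    ∃ K η X0 : ℝ, 1 ≤ K ∧ 0 < η ∧ 1 ≤ X0 ∧
    ∀ (X Y : ℕ) (T : ℝ), X0 ≤ X → K * X ≤ Y → (Y : ℝ) ≤ (X : ℝ) ^ (1 + η) →
      (Real.log X) ^ 2 ≤ T → T ≤ (X : ℝ) ^ η →
      0.9322 * primFam X Y (fun q χ => (NN (LF q χ) T (2 * T) : ℝ)) ≤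
        primFam X Y (fun q χ => (Ns (LF q χ) T (2 * T) : ℝ)) ∧
      0.9661 * primFam X Y (fun q χ => (NN (LF q χ) T (2 * T) : ℝ)) ≤
        primFam X Y (fun q χ => (Nd (LF q χ) T (2 * T) : ℝ)) := by
  have hπ : (11 / 5 : ℝ) < Real.pi := by linarith [Real.pi_gt_three]
  obtain ⟨K, η, X0, hK, hη, hX0, h⟩ := final_of_const (11 / 5) 1.0678 (by norm_num) hπ
    (lt_of_le_of_lt Rw_const_sharp (by norm_num))
  refine ⟨K, η, X0, hK, hη, hX0, ?_⟩
  intro X Y T a1 a2 a3 a4 a5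
  obtain ⟨b1, b2⟩ := h X Y T a1 a2 a3 a4 a5
  norm_num at b1 b2 ⊢
  exact ⟨b1, b2⟩

end H385
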