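import Pool.Agent.H385R2.NTW

/-! Prime sums for a general weight `w` (TEAM Q2, N1). -/

open Finset MeasureTheory

namespace H385

open H370

/-- block sums of an abstract weight -/
theorem nwa_block (w : ℕ → ℝ) (hw : ∀ n, 0 ≤ w n) (hw0 : w 0 = 0) (C0 : ℝ) (hC0 : 0 ≤ C0)
    (h : ∀ x : ℝ, 1 ≤ x → |∑ n ∈ Finset.Icc 1 ⌊x⌋₊, w n - (Real.log x) ^ 2 / 2| ≤
      C0 * (1 + Real.log x)) (k N : ℕ) (s : ℝ) (h1 : (k : ℝ) ≤ s) :
    ∑ n ∈ (Finset.range N).filter (fun n : ℕ => ⌊Real.log n⌋₊ = k), w n ≤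
      (2 + 2 * C0) * (|s| + 1) := by
  have hks : ((k : ℝ) + 1) ≤ |s| + 1 := by linarith [le_abs_self s]
  have hgoal : ∑ n ∈ (Finset.range N).filter (fun n : ℕ => ⌊Real.log n⌋₊ = k), w n ≤
      (2 + 2 * C0) * (k + 1) := by
    have hup := (abs_le.1 (h (Real.exp (k + 1)) (Real.one_le_exp (by positivity)))).2
    rw [Real.log_exp] at hup
    have hmem : ∀ n ∈ (Finset.range N).filter (fun n : ℕ => ⌊Real.log n⌋₊ = k), n ≠ 0 →
        n ∈ Finset.Icc 1 ⌊Real.exp ((k : ℝ) + 1)⌋₊ := by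
      intro n hn hn0
      have hn0' : 0 < n := Nat.pos_of_ne_zero hn0
      have hfl := (Finset.mem_filter.1 hn).2
      rw [Finset.mem_Icc]
      refine ⟨hn0', ?_⟩
      apply Nat.le_floor
      rw [← Real.log_le_iff_le_exp (by exact_mod_cast hn0'), ← hfl]
      exact (Nat.lt_floor_add_one _).le
    rcases Nat.eq_zero_or_pos k with hk0 | hk0
    · have hA : ∑ n ∈ (Finset.range N).filter (fun n : ℕ => ⌊Real.log n⌋₊ = k), w n ≤
          ∑ n ∈ Finset.Icc 1 ⌊Real.exp ((k : ℝ) + 1)⌋₊, w n := by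
        rw [← Finset.sum_filter_ne_zero]
        apply Finset.sum_le_sum_of_subset_of_nonneg _ (fun _ _ _ => hw _)
        intro n hn
        obtain ⟨hn1, hn2⟩ := Finset.mem_filter.1 hn
        refine hmem n hn1 ?_
        rintro rfl
        exact hn2 hw0
      have hk1 : (k : ℝ) = 0 := by rw [hk0, Nat.cast_zero]
      have hA' := hA.trans (sub_le_iff_le_add.1 hup)
      refine hA'.trans ?_
      rw [hk1]
      nlinarith
    · have hk1 : (1 : ℝ) ≤ k := by exact_mod_cast hk0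
      have hlo := (abs_le.1 (h (Real.exp (k - 1)) (Real.one_le_exp (by linarith)))).1
      rw [Real.log_exp] at hlo
      have hsub : Finset.Icc 1 ⌊Real.exp ((k : ℝ) - 1)⌋₊ ⊆
          Finset.Icc 1 ⌊Real.exp ((k : ℝ) + 1)⌋₊ := by
        apply Finset.Icc_subset_Icc_right
        apply Nat.floor_le_floor
        apply Real.exp_le_exp.2
        linarith
      have hA : ∑ n ∈ (Finset.range N).filter (fun n : ℕ => ⌊Real.log n⌋₊ = k), w n ≤
          ∑ n ∈ Finset.Icc 1 ⌊Real.exp ((k : ℝ) + 1)⌋₊ \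
            Finset.Icc 1 ⌊Real.exp ((k : ℝ) - 1)⌋₊, w n := by
        rw [← Finset.sum_filter_ne_zero]
        apply Finset.sum_le_sum_of_subset_of_nonneg _ (fun _ _ _ => hw _)
        intro n hn
        obtain ⟨hn1, hn2⟩ := Finset.mem_filter.1 hn
        have hn0 : n ≠ 0 := by
          rintro rfl
          exact hn2 hw0
        rw [Finset.mem_sdiff]
        refine ⟨hmem n hn1 hn0, ?_⟩
        rw [Finset.mem_Icc, not_and, not_le]
        intro _
        have hl := block_lower (Nat.pos_of_ne_zero hn0) (Finset.mem_filter.1 hn1).2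
        have h3 : Real.exp ((k : ℝ) - 1) < n := by
          refine lt_of_lt_of_le ?_ hl
          apply Real.exp_lt_exp.2
          linarith
        rw [Nat.floor_lt (Real.exp_pos _).le]
        exact h3
      have hB := Finset.sum_sdiff (f := w) hsub
      nlinarith
  refine hgoal.trans ?_
  exact mul_le_mul_of_nonneg_left hks (by positivity)

/-- `C0` may be taken nonnegative -/
theorem nwa_C0 (w : ℕ → ℝ) (C0 : ℝ)
    (h : ∀ x : ℝ, 1 ≤ x → |∑ n ∈ Finset.Icc 1 ⌊x⌋₊, w n - (Real.log x) ^ 2 / 2| ≤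
      C0 * (1 + Real.log x)) : 0 ≤ C0 := by
  have h1 := h 1 le_rfl
  rw [Real.log_one] at h1
  have h2 := abs_nonneg (∑ n ∈ Finset.Icc 1 ⌊(1 : ℝ)⌋₊, w n - (0 : ℝ) ^ 2 / 2)
  linarith

theorem nwa_gauss (w : ℕ → ℝ) (hw : ∀ n, 0 ≤ w n) (hw0 : w 0 = 0) (C0 : ℝ)
    (h : ∀ x : ℝ, 1 ≤ x → |∑ n ∈ Finset.Icc 1 ⌊x⌋₊, w n - (Real.log x) ^ 2 / 2| ≤
      C0 * (1 + Real.log x)) (B : ℝ) (hB : 0 < B) : ∃ C : ℝ, 0 < C ∧ ∀ u : ℝ, 0 ≤ u →
    Summable (fun n : ℕ => w n * Real.exp (-B * (u - Real.log n) ^ 2)) ∧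
    ∑' n : ℕ, w n * Real.exp (-B * (u - Real.log n) ^ 2) ≤ C * (u + 1) := by
  have hC0 := nwa_C0 w C0 h
  set b : ℝ := B / 2 with hbd
  have hb : 0 < b := by rw [hbd]; positivity
  set M0 : ℝ := ∫ v : ℝ, Real.exp (-b * v ^ 2) with hM0
  set M1 : ℝ := ∫ v : ℝ, |v| * Real.exp (-b * v ^ 2) with hM1
  have hM0' : 0 ≤ M0 := integral_nonneg fun v => by positivity
  have hM1' : 0 ≤ M1 := integral_nonneg fun v => by positivity
  have hD0 : 0 ≤ 2 + 2 * C0 := by positivity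
  refine ⟨Real.exp B * (2 + 2 * C0) * (M0 + M1) + 1, by positivity, fun u hu => ?_⟩
  have hi0 : Integrable (fun s : ℝ => Real.exp (-b * (u - s) ^ 2)) :=
    (ntw_int0 b hb).comp_sub_left u
  have hi1 : Integrable (fun s : ℝ => |u - s| * Real.exp (-b * (u - s) ^ 2)) :=
    (ntw_int1 b hb).comp_sub_left u
  have hle : ∀ s : ℝ, (2 + 2 * C0) * (|s| + 1) * Real.exp (-b * (u - s) ^ 2) ≤
      (2 + 2 * C0) * (|u - s| * Real.exp (-b * (u - s) ^ 2) +
        (u + 1) * Real.exp (-b * (u - s) ^ 2)) := by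
    intro s
    have h1 : |s| ≤ |u - s| + u := by
      have := abs_sub_abs_le_abs_sub s u
      rw [abs_of_nonneg hu, abs_sub_comm] at this
      linarith
    have h2 : (|s| + 1) * Real.exp (-b * (u - s) ^ 2) ≤
        (|u - s| + (u + 1)) * Real.exp (-b * (u - s) ^ 2) :=
      mul_le_mul_of_nonneg_right (by linarith) (Real.exp_pos _).le
    have h3 := mul_le_mul_of_nonneg_left h2 hD0
    linarith
  have hi2 : Integrable (fun s : ℝ => (2 + 2 * C0) * (|u - s| * Real.exp (-b * (u - s) ^ 2) +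
        (u + 1) * Real.exp (-b * (u - s) ^ 2))) := (hi1.add (hi0.const_mul _)).const_mul _
  have hint : Integrable (fun s : ℝ => (2 + 2 * C0) * (|s| + 1) *
      Real.exp (-b * (u - s) ^ 2)) := by
    apply hi2.mono' (by fun_prop)
    refine Filter.Eventually.of_forall fun s => ?_
    rw [Real.norm_of_nonneg (by positivity)]
    exact hle s
  obtain ⟨hs, hb2⟩ := block_gauss w hw (fun s => (2 + 2 * C0) * (|s| + 1)) (by fun_prop)
    (fun s => by positivity) (fun k N s h1 _ => nwa_block w hw hw0 C0 hC0 h k N s h1) B u hB hint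
  refine ⟨hs, hb2.trans ?_⟩
  have h5 : ∫ s : ℝ, (2 + 2 * C0) * (|s| + 1) * Real.exp (-b * (u - s) ^ 2) ≤
      (2 + 2 * C0) * (M1 + (u + 1) * M0) := by
    refine (integral_mono hint hi2 hle).trans (le_of_eq ?_)
    rw [integral_const_mul, integral_add hi1 (hi0.const_mul _), integral_const_mul,
      integral_sub_left_eq_self (fun v : ℝ => |v| * Real.exp (-b * v ^ 2)),
      integral_sub_left_eq_self (fun v : ℝ => Real.exp (-b * v ^ 2))]
  have h6 := mul_le_mul_of_nonneg_left h5 (Real.exp_pos B).le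
  refine h6.trans ?_
  have h7 : M1 + (u + 1) * M0 ≤ (M0 + M1) * (u + 1) := by nlinarith
  have h8 : 0 ≤ Real.exp B * (2 + 2 * C0) := by positivity
  have h9 := mul_le_mul_of_nonneg_left h7 h8
  nlinarith

/-- summability against a fixed wide Gaussian -/
theorem nwa_summable (w : ℕ → ℝ) (hw : ∀ n, 0 ≤ w n) (hw0 : w 0 = 0) (C0 : ℝ)
    (h : ∀ x : ℝ, 1 ≤ x → |∑ n ∈ Finset.Icc 1 ⌊x⌋₊, w n - (Real.log x) ^ 2 / 2| ≤
      C0 * (1 + Real.log x)) :
    Summable (fun n : ℕ => w n * Real.exp (-(Real.log n) ^ 2 / 8)) := by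
  obtain ⟨C, _, hC⟩ := nwa_gauss w hw hw0 C0 h (1 / 8) (by norm_num)
  refine (hC 0 le_rfl).1.congr fun n => ?_
  congr 2
  ring

theorem lam_crude_abs (w : ℕ → ℝ) (hw : ∀ n, 0 ≤ w n) (hw0 : w 0 = 0) (C0 : ℝ)
    (h : ∀ x : ℝ, 1 ≤ x → |∑ n ∈ Finset.Icc 1 ⌊x⌋₊, w n - (Real.log x) ^ 2 / 2| ≤
      C0 * (1 + Real.log x)) :
    (∃ C : ℝ, 0 < C ∧ ∀ u : ℝ, 0 ≤ u →
      Summable (fun n : ℕ => w n * Real.exp (-(u - Real.log n) ^ 2 / 2)) ∧
      ∑' n : ℕ, w n * Real.exp (-(u - Real.log n) ^ 2 / 2) ≤ C * (u + 1)) ∧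
    Continuous (fun u : ℝ => ∑' n : ℕ, w n * Real.exp (-(u - Real.log n) ^ 2)) := by
  refine ⟨?_, ?_⟩
  · obtain ⟨C, hC, hh⟩ := nwa_gauss w hw hw0 C0 h (1 / 2) (by norm_num)
    refine ⟨C, hC, fun u hu => ?_⟩
    obtain ⟨h1, h2⟩ := hh u hu
    have e1 : ∀ n : ℕ, -(1 / 2) * (u - Real.log n) ^ 2 = -(u - Real.log n) ^ 2 / 2 := fun n => by
      ring
    simp only [e1] at h1 h2
    exact ⟨h1, h2⟩
  · apply ntw_cont_tsum w hw (fun u l => Real.exp (-(u - l) ^ 2))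
      (fun l => by fun_prop) (fun u l => (Real.exp_pos _).le) (fun U => Real.exp (U ^ 2)) _
      (nwa_summable w hw hw0 C0 h)
    intro U u l hu
    rw [← Real.exp_add]
    apply Real.exp_le_exp.2
    have hU : u ^ 2 ≤ U ^ 2 := sq_le_sq' (by linarith [(abs_le.1 hu).1]) (abs_le.1 hu).2
    nlinarith [sq_nonneg (2 * u - l), sq_nonneg l]

/-- smoothed version against `R(u/Λ)` -/
theorem nwa_smooth {R : ℝ → ℝ} (hR : NTR R) (w : ℕ → ℝ) (hw0 : ∀ n, 0 ≤ w n) (hwz : w 0 = 0)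
    (C0 : ℝ)
    (h : ∀ x : ℝ, 1 ≤ x → |∑ n ∈ Finset.Icc 1 ⌊x⌋₊, w n - (Real.log x) ^ 2 / 2| ≤
      C0 * (1 + Real.log x)) : ∃ C : ℝ, 0 < C ∧ ∀ Λ : ℝ, 1 ≤ Λ →
    ∫ u in (0 : ℝ)..Λ, R (u / Λ) * ∑' n : ℕ, w n * Real.exp (-(u - Real.log n) ^ 2) ≤
      Real.sqrt Real.pi * Λ ^ 2 * (∫ α in (0 : ℝ)..1, α * R α) + C * Λ := by
  obtain ⟨K, hK, hlip⟩ := hR.lip
  have hC0 := nwa_C0 w C0 h
  have hsm : Summable (fun n : ℕ => w n * Real.exp (-(Real.log n) ^ 2 / 8)) :=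
    nwa_summable w hw0 hwz C0 h
  set C2 : ℝ := ∑' n : ℕ, w n * Real.exp (-(Real.log n) ^ 2 / 8) with hC2
  have hC20 : 0 ≤ C2 := tsum_nonneg fun n => mul_nonneg (hw0 n) (Real.exp_pos _).le
  have hR0 : 0 ≤ R 0 := hR.nonneg 0
  have hG0 := nt_G_nonneg
  have hpi0 : 0 ≤ Real.sqrt Real.pi := Real.sqrt_nonneg _
  have hlow : ∀ N : ℕ, 1 ≤ N → ∑ n ∈ Finset.Icc 1 N, w n ≤
      (Real.log N) ^ 2 / 2 + C0 * (Real.log N + 1) := by
    intro N hN
    have h1 := (abs_le.1 (h (N : ℝ) (by exact_mod_cast hN))).2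
    rw [Nat.floor_natCast] at h1
    linarith
  refine ⟨2 * C0 * Real.sqrt Real.pi * R 0 + (2 + 3 * C0) * K * ntG + R 0 * C2 + 1, by positivity,
    fun Λ hΛ => ?_⟩
  have hΛ0 : 0 < Λ := by linarith
  -- interchange
  have hsum : HasSum (fun n : ℕ => ∫ u in (0 : ℝ)..Λ, R (u / Λ) *
      (w n * Real.exp (-(u - Real.log n) ^ 2)))
      (∫ u in (0 : ℝ)..Λ, R (u / Λ) * ∑' n : ℕ, w n * Real.exp (-(u - Real.log n) ^ 2)) := by
    apply intervalIntegral.hasSum_integral_of_dominated_convergence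
      (bound := fun n _ => R 0 * Real.exp (Λ ^ 2) * (w n * Real.exp (-(Real.log n) ^ 2 / 8)))
    · intro n
      apply Continuous.aestronglyMeasurable
      exact (hR.cont.comp (continuous_id.div_const Λ)).mul (by fun_prop)
    · intro n
      refine Filter.Eventually.of_forall fun u hu => ?_
      rw [Set.uIoc_of_le hΛ0.le] at hu
      have h1 : R (u / Λ) ≤ R 0 := hR.le0 _ (div_nonneg hu.1.le hΛ0.le)
      have h2 := nt_exp_le Λ u (Real.log n) hu.1.le hu.2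
      rw [Real.norm_of_nonneg (mul_nonneg (hR.nonneg _) (mul_nonneg (hw0 n) (Real.exp_pos _).le))]
      calc R (u / Λ) * (w n * Real.exp (-(u - Real.log n) ^ 2))
          ≤ R 0 * (w n * (Real.exp (Λ ^ 2) * Real.exp (-(Real.log n) ^ 2 / 8))) := by
            apply mul_le_mul h1 (mul_le_mul_of_nonneg_left h2 (hw0 n))
              (mul_nonneg (hw0 n) (Real.exp_pos _).le) hR0
        _ = _ := by ring
    · exact Filter.Eventually.of_forall fun u _ => hsm.mul_left _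
    · exact continuous_const.intervalIntegrable _ _
    · refine Filter.Eventually.of_forall fun u hu => ?_
      rw [Set.uIoc_of_le hΛ0.le] at hu
      apply HasSum.mul_left
      apply Summable.hasSum
      refine Summable.of_nonneg_of_le (fun n => mul_nonneg (hw0 n) (Real.exp_pos _).le)
        (fun n => ?_) (hsm.mul_left (Real.exp (Λ ^ 2)))
      have h2 := nt_exp_le Λ u (Real.log n) hu.1.le hu.2
      calc w n * Real.exp (-(u - Real.log n) ^ 2)
          ≤ w n * (Real.exp (Λ ^ 2) * Real.exp (-(Real.log n) ^ 2 / 8)) :=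
            mul_le_mul_of_nonneg_left h2 (hw0 n)
        _ = _ := by ring
  set N : ℕ := ⌊Real.exp (2 * Λ)⌋₊ with hNdef
  have hN : 1 ≤ N := by
    rw [hNdef, Nat.one_le_floor_iff]
    exact Real.one_le_exp (by linarith)
  have hNlog : Real.log N ≤ 2 * Λ := by
    rw [Real.log_le_iff_le_exp (by exact_mod_cast hN)]
    exact Nat.floor_le (Real.exp_pos _).le
  -- termwise bound
  have hterm : ∀ n : ℕ, ∫ u in (0 : ℝ)..Λ, R (u / Λ) *
      (w n * Real.exp (-(u - Real.log n) ^ 2)) ≤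
      (if n ∈ Finset.Icc 1 N then
        w n * (Real.sqrt Real.pi * R (Real.log n / Λ) + K / Λ * ntG) else 0) +
      R 0 * Λ * (w n * Real.exp (-(Real.log n) ^ 2 / 8)) := by
    intro n
    have h1 : ∫ u in (0 : ℝ)..Λ, R (u / Λ) * (w n * Real.exp (-(u - Real.log n) ^ 2)) =
        w n * ∫ u in (0 : ℝ)..Λ, R (u / Λ) * Real.exp (-(u - Real.log n) ^ 2) := by
      rw [← intervalIntegral.integral_const_mul]
      exact intervalIntegral.integral_congr fun u _ => by ring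
    rw [h1]
    have hB : 0 ≤ R 0 * Λ * (w n * Real.exp (-(Real.log n) ^ 2 / 8)) :=
      mul_nonneg (mul_nonneg hR0 hΛ0.le) (mul_nonneg (hw0 n) (Real.exp_pos _).le)
    split_ifs with hn
    · have h2 := mul_le_mul_of_nonneg_left (ntw_In_bound hR K hK hlip Λ (Real.log n) hΛ0) (hw0 n)
      linarith
    · rcases Nat.eq_zero_or_pos n with rfl | hn0
      · rw [hwz]; simp
      · have hnN : N < n := by
          by_contra hc
          exact hn (Finset.mem_Icc.2 ⟨hn0, not_lt.1 hc⟩)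
        have h3 : Real.exp (2 * Λ) < n := Nat.lt_of_floor_lt hnN
        have h4 : 2 * Λ ≤ Real.log n := by
          rw [Real.le_log_iff_exp_le (by exact_mod_cast hn0)]
          exact h3.le
        have h2 := mul_le_mul_of_nonneg_left (ntw_In_tail hR Λ (Real.log n) hΛ0 h4) (hw0 n)
        rw [zero_add]
        calc _ ≤ _ := h2
          _ = _ := by ring
  have hA : HasSum (fun n : ℕ => if n ∈ Finset.Icc 1 N then
        w n * (Real.sqrt Real.pi * R (Real.log n / Λ) + K / Λ * ntG) else 0)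
      (∑ n ∈ Finset.Icc 1 N, w n * (Real.sqrt Real.pi * R (Real.log n / Λ) + K / Λ * ntG)) := by
    have h : HasSum (fun n : ℕ => if n ∈ Finset.Icc 1 N then
        w n * (Real.sqrt Real.pi * R (Real.log n / Λ) + K / Λ * ntG) else 0)
        (∑ n ∈ Finset.Icc 1 N, if n ∈ Finset.Icc 1 N then
        w n * (Real.sqrt Real.pi * R (Real.log n / Λ) + K / Λ * ntG) else 0) :=
      hasSum_sum_of_ne_finset_zero (fun n hn => if_neg hn)
    rw [Finset.sum_congr rfl (fun n hn => if_pos hn)] at h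
    exact h
  have hB : HasSum (fun n : ℕ => R 0 * Λ * (w n * Real.exp (-(Real.log n) ^ 2 / 8)))
      (R 0 * Λ * C2) := hsm.hasSum.mul_left _
  have hle := hasSum_le hterm hsum (hA.add hB)
  refine hle.trans ?_
  -- main term
  have hsplit : ∑ n ∈ Finset.Icc 1 N, w n * (Real.sqrt Real.pi * R (Real.log n / Λ) +
      K / Λ * ntG) = Real.sqrt Real.pi * ∑ n ∈ Finset.Icc 1 N, w n * R (Real.log n / Λ) +
      K / Λ * ntG * ∑ n ∈ Finset.Icc 1 N, w n := by
    rw [Finset.mul_sum, Finset.mul_sum, ← Finset.sum_add_distrib]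
    exact Finset.sum_congr rfl fun n _ => by ring
  have habel := nt_abel_bound w (fun s => R (s / Λ)) C0 hC0
    (fun x hx y hy hxy => hR.anti (Set.mem_Ici.2 (div_nonneg hx hΛ0.le))
      (Set.mem_Ici.2 (div_nonneg hy hΛ0.le)) (div_le_div_of_nonneg_right hxy hΛ0.le))
    (hR.cont.comp (continuous_id.div_const Λ)) (fun x => hR.nonneg _)
    (fun M hM => hlow M hM) N hN
  simp only [zero_div] at habel
  have hint := ntw_int_bound hR Λ hΛ0 C0 N hN hNlog hC0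
  have hS : ∑ n ∈ Finset.Icc 1 N, w n ≤ (2 + 3 * C0) * Λ ^ 2 := by
    have h1 := hlow N hN
    have h2 : 0 ≤ Real.log N := Real.log_nonneg (by exact_mod_cast hN)
    have h3 : (Real.log N) ^ 2 ≤ (2 * Λ) ^ 2 := pow_le_pow_left₀ h2 hNlog 2
    have h4 : C0 * (Real.log N + 1) ≤ C0 * (3 * Λ ^ 2) := by
      apply mul_le_mul_of_nonneg_left _ hC0
      nlinarith
    nlinarith
  have hKL : K / Λ * ntG * ∑ n ∈ Finset.Icc 1 N, w n ≤ (2 + 3 * C0) * K * ntG * Λ := by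
    calc K / Λ * ntG * ∑ n ∈ Finset.Icc 1 N, w n ≤ K / Λ * ntG * ((2 + 3 * C0) * Λ ^ 2) :=
          mul_le_mul_of_nonneg_left hS (by positivity)
      _ = (2 + 3 * C0) * K * ntG * Λ := by field_simp
  have hmain : Real.sqrt Real.pi * ∑ n ∈ Finset.Icc 1 N, w n * R (Real.log n / Λ) ≤
      Real.sqrt Real.pi * (C0 * R 0 + (Λ ^ 2 * (∫ α in (0 : ℝ)..1, α * R α) + C0 * Λ * R 0)) :=
    mul_le_mul_of_nonneg_left (by linarith) hpi0
  rw [hsplit]
  have h8 : Real.sqrt Real.pi * (C0 * R 0) ≤ Real.sqrt Real.pi * (C0 * R 0) * Λ :=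
    le_mul_of_one_le_right (by positivity) hΛ
  nlinarith

theorem lam_smooth_abs (w : ℕ → ℝ) (hw : ∀ n, 0 ≤ w n) (hw0 : w 0 = 0) (C0 : ℝ)
    (h : ∀ x : ℝ, 1 ≤ x → |∑ n ∈ Finset.Icc 1 ⌊x⌋₊, w n - (Real.log x) ^ 2 / 2| ≤
      C0 * (1 + Real.log x)) (γ : ℝ) (h0 : 0 < γ) (hπ : γ < Real.pi) :
    ∃ C : ℝ, 0 < C ∧ ∀ Λ : ℝ, 1 ≤ Λ →
    ∫ u in (0 : ℝ)..Λ, Rw γ (u / Λ) * ∑' n : ℕ, w n * Real.exp (-(u - Real.log n) ^ 2) ≤
      Real.sqrt Real.pi * Λ ^ 2 * (∫ α in (0 : ℝ)..1, α * Rw γ α) + C * Λ :=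
  nwa_smooth (NTR_Rw γ h0 hπ) w hw hw0 C0 h

end H385
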