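import Pool.Agent.H385R2.FlatM
import Pool.Agent.H385R2.PrimLS

/-!
TEAM Q2, module O4 : large sieve over primitive characters of conductor prime to `M` with
coefficients `Λ(n) b_n`.
-/

set_option autoImplicit false

open Complex Filter Topology Set MeasureTheory

namespace H385

namespace PrimLS

lemma primFamM_le (M X Y : ℕ) (f g : (q : ℕ) → DirichletCharacter ℂ q → ℝ) (c1 c2 : ℝ)
    (hc2 : 0 ≤ c2) (h : ∀ q, ∀ χ : DirichletCharacter ℂ q, f q χ ≤ c1 * g q χ + c2) :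
    primFamM M X Y f ≤ c1 * primFamM M X Y g + c2 *
      ∑ q ∈ Finset.Ioc X Y, (Nat.totient q : ℝ) / (q : ℝ) ^ 2 := by
  have h0 : ∑ q ∈ (Finset.Ioc X Y).filter (fun q => Nat.Coprime q M),
        (Nat.totient q : ℝ) / (q : ℝ) ^ 2 ≤
      ∑ q ∈ Finset.Ioc X Y, (Nat.totient q : ℝ) / (q : ℝ) ^ 2 :=
    Finset.sum_le_sum_of_subset_of_nonneg (Finset.filter_subset _ _) (fun _ _ _ => by positivity)
  have h00 := mul_le_mul_of_nonneg_left h0 hc2
  refine le_trans ?_ (add_le_add_right h00 _)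
  unfold primFamM
  rw [Finset.mul_sum, Finset.mul_sum, ← Finset.sum_add_distrib]
  apply Finset.sum_le_sum
  intro q hq
  rw [Finset.mem_filter, Finset.mem_Ioc] at hq
  have : NeZero q := ⟨by omega⟩
  have h1 := prim_finsum_le q (f q) (g q) c1 c2 hc2 (h q)
  have h2 : (0 : ℝ) ≤ 1 / (q : ℝ) ^ 2 := by positivity
  have h3 := mul_le_mul_of_nonneg_left h1 h2
  refine h3.trans (le_of_eq ?_)
  ring

/-- Euler product outside the primes dividing `M` -/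
lemma euler_exists_M (M : ℕ) (hM : Squarefree M) (ε : ℝ) (hε : 0 < ε) :
    ∃ P : ℕ, Squarefree (M * P) ∧ Squarefree P ∧
    ∏ p ∈ P.primeFactors, (1 - 1 / (p : ℝ) ^ 2) ≤
      c0 * (∏ p ∈ M.primeFactors, (1 - 1 / (p : ℝ) ^ 2)⁻¹) * (1 + ε) := by
  have hc0 : 0 < c0 := by unfold c0; positivity
  have h1 := riemannZeta_eulerProduct (s := 2) (by norm_num)
  rw [riemannZeta_two] at h1
  have h2 := h1.inv₀ (by
    have : (Real.pi : ℂ) ≠ 0 := by exact_mod_cast Real.pi_ne_zero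
    exact div_ne_zero (pow_ne_zero 2 this) (by norm_num))
  have h3 : Tendsto (fun n : ℕ => ∏ p ∈ Nat.primesBelow n, (1 - 1 / (p : ℝ) ^ 2)) atTop (𝓝 c0) := by
    have h4 : Tendsto (fun n : ℕ => ((∏ p ∈ Nat.primesBelow n, (1 - 1 / (p : ℝ) ^ 2) : ℝ) : ℂ))
        atTop (𝓝 ((c0 : ℝ) : ℂ)) := by
      have h5 : ((c0 : ℝ) : ℂ) = ((Real.pi : ℂ) ^ 2 / 6)⁻¹ := by
        unfold c0; push_cast; rw [inv_div]
      rw [h5]
      refine h2.congr (fun n => ?_)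
      rw [← Finset.prod_inv_distrib]
      push_cast
      apply Finset.prod_congr rfl
      intro p _
      rw [inv_inv, Complex.cpow_neg, one_div]
      norm_cast
    exact_mod_cast (Complex.continuous_re.tendsto _).comp h4
  have h6 : ∀ᶠ n : ℕ in atTop, ∏ p ∈ Nat.primesBelow n, (1 - 1 / (p : ℝ) ^ 2) < c0 * (1 + ε) :=
    h3.eventually (gt_mem_nhds (by nlinarith))
  obtain ⟨n, hn, hMn⟩ := (h6.and (eventually_gt_atTop M)).exists
  have hsub : M.primeFactors ⊆ Nat.primesBelow n := by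
    intro p hp
    rw [Nat.mem_primesBelow]
    exact ⟨lt_of_le_of_lt (Nat.le_of_mem_primeFactors hp) hMn, Nat.prime_of_mem_primeFactors hp⟩
  have hpr : ∀ p ∈ Nat.primesBelow n \ M.primeFactors, p.Prime := fun p hp =>
    Nat.prime_of_mem_primesBelow (Finset.mem_sdiff.mp hp).1
  have hsq : Squarefree (Flat.pr (Nat.primesBelow n \ M.primeFactors)) := sqf_pr _ hpr
  have hcop : Nat.Coprime M (Flat.pr (Nat.primesBelow n \ M.primeFactors)) := by
    unfold Flat.pr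
    rw [Nat.coprime_prod_right_iff]
    intro p hp
    rw [Nat.coprime_comm, (hpr p hp).coprime_iff_not_dvd]
    intro hd
    exact (Finset.mem_sdiff.mp hp).2 (Nat.mem_primeFactors.mpr ⟨hpr p hp, hd, hM.ne_zero⟩)
  refine ⟨Flat.pr (Nat.primesBelow n \ M.primeFactors),
    Nat.squarefree_mul_iff.mpr ⟨hcop, hM, hsq⟩, hsq, ?_⟩
  have hpf : (Flat.pr (Nat.primesBelow n \ M.primeFactors)).primeFactors =
      Nat.primesBelow n \ M.primeFactors := Nat.primeFactors_prod hpr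
  rw [hpf]
  rw [← Finset.prod_sdiff hsub] at hn
  have hDM : 0 < ∏ p ∈ M.primeFactors, (1 - 1 / (p : ℝ) ^ 2) := by
    apply Finset.prod_pos
    intro p hp
    have h2 : (2 : ℝ) ≤ p := by exact_mod_cast (Nat.prime_of_mem_primeFactors hp).two_le
    have h3 : 1 / (p : ℝ) ^ 2 < 1 := by
      rw [div_lt_one (by positivity)]
      nlinarith
    linarith
  rw [Finset.prod_inv_distrib, mul_assoc, mul_comm (∏ p ∈ M.primeFactors, (1 - 1 / (p : ℝ) ^ 2))⁻¹,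
    ← mul_assoc, ← div_eq_mul_inv, le_div_iff₀ hDM]
  exact hn.le

/-- the constant -/
lemma cM_eq (M : ℕ) : c0 * (∏ p ∈ M.primeFactors, ((p : ℝ) / (p + 1))) *
      (c0 * (∏ p ∈ M.primeFactors, (1 - 1 / (p : ℝ) ^ 2)⁻¹)) = cM M := by
  have h1 : (∏ p ∈ M.primeFactors, ((p : ℝ) / (p + 1))) *
      (∏ p ∈ M.primeFactors, (1 - 1 / (p : ℝ) ^ 2)⁻¹) =
      ∏ p ∈ M.primeFactors, ((p : ℝ) ^ 3 / (((p : ℝ) - 1) * ((p : ℝ) + 1) ^ 2)) := by
    rw [← Finset.prod_mul_distrib]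
    apply Finset.prod_congr rfl
    intro p hp
    have h2 : (2 : ℝ) ≤ p := by exact_mod_cast (Nat.prime_of_mem_primeFactors hp).two_le
    have h3 : (p : ℝ) ≠ 0 := by linarith
    have h4 : (p : ℝ) - 1 ≠ 0 := by linarith
    have h5 : (p : ℝ) + 1 ≠ 0 := by linarith
    have h6 : 1 - 1 / (p : ℝ) ^ 2 = ((p : ℝ) - 1) * ((p : ℝ) + 1) / (p : ℝ) ^ 2 := by
      field_simp
      ring
    rw [h6, inv_div]
    field_simp
  unfold cM
  rw [← h1]
  ring

lemma cM_nonneg (M : ℕ) : 0 ≤ cM M := by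
  unfold cM
  apply mul_nonneg (sq_nonneg _)
  apply Finset.prod_nonneg
  intro p hp
  have h2 : (2 : ℝ) ≤ p := by exact_mod_cast (Nat.prime_of_mem_primeFactors hp).two_le
  have h4 : 0 ≤ (p : ℝ) - 1 := by linarith
  positivity

end PrimLS

open PrimLS FamLS in
theorem prim_ls_M (M : ℕ) (hM : Squarefree M) (ε : ℝ) (hε : 0 < ε) (hε1 : ε ≤ 1) :
    ∃ (C : ℝ) (P : ℕ), 0 < C ∧ 1 ≤ P ∧
    ∀ (X Y N : ℕ) (b : ℕ → ℂ), 1 ≤ X → X ≤ Y →
    Summable (fun n => ArithmeticFunction.vonMangoldt n * ‖b n‖) →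
    primFamM M X Y (fun q χ =>
        ‖∑' n : ℕ, χ (n : ZMod q) * (ArithmeticFunction.vonMangoldt n : ℂ) * b n‖ ^ 2) ≤
      (1 + ε) * Real.exp (Real.pi * N / (X : ℝ) ^ 2) *
        (cM M * (1 + ε) * Real.log ((Y : ℝ) / X) + C) *
        ∑ n ∈ Finset.Icc 1 N, (ArithmeticFunction.vonMangoldt n) ^ 2 * ‖b n‖ ^ 2
      + C * ∑ q ∈ Finset.Ioc X (P * Y), (1 / (q : ℝ)) *
        (∑' n : ℕ, if Nat.Coprime n q then 0 else ArithmeticFunction.vonMangoldt n * ‖b n‖) ^ 2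
      + C * (Real.log ((Y : ℝ) / X) + 1) *
        ((∑' n : ℕ, if Nat.Coprime n P then 0 else ArithmeticFunction.vonMangoldt n * ‖b n‖) ^ 2 +
         (∑' n : ℕ, if N < n then ArithmeticFunction.vonMangoldt n * ‖b n‖ else 0) ^ 2) := by
  obtain ⟨P, hsfM, hsf, hD⟩ := euler_exists_M M hM ε hε
  obtain ⟨C1, hC1, hflat⟩ := flat_ls_M M P hsfM
  obtain ⟨C2, hC2, hmass⟩ := mass_bounds
  have hc0 : 0 < c0 := by unfold c0; positivity
  have hc01 : c0 ≤ 1 := Farey.c0_le_one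
  set δ : ℝ := ε / 3 with hδ
  have hδ0 : 0 < δ := by positivity
  have hδ1 : δ ≤ 1 := by rw [hδ]; linarith
  set C : ℝ := C1 + (1 + δ) * (2 / δ) + (1 + 1 / δ) * (2 * (1 + C2)) with hC
  have hA1 : 0 < (1 + δ) * (2 / δ) := by positivity
  have hA2 : 0 < (1 + 1 / δ) * (2 * (1 + C2)) := by positivity
  refine ⟨C, P, by positivity, Nat.one_le_iff_ne_zero.mpr hsf.ne_zero, ?_⟩
  intro X Y N b hX hXY hs
  have hX0 : (0 : ℝ) < X := by exact_mod_cast hX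
  have hlog : 0 ≤ Real.log ((Y : ℝ) / X) := by
    apply Real.log_nonneg
    rw [le_div_iff₀ hX0, one_mul]
    exact_mod_cast hXY
  set L : ℝ := Real.log ((Y : ℝ) / X) with hL
  have hs' : Summable (mj b) := hs
  set R1 : ℝ := ∑' n, BB1 b P n with hR1
  set R2 : ℝ := ∑' n, TT1 b N n with hR2
  have hR1' : (∑' n : ℕ, if Nat.Coprime n P then 0 else ArithmeticFunction.vonMangoldt n * ‖b n‖)
      = R1 := rfl
  have hR2' : (∑' n : ℕ, if N < n then ArithmeticFunction.vonMangoldt n * ‖b n‖ else 0) = R2 := rfl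
  rw [hR1', hR2']
  set G : ℝ := ∑ n ∈ Finset.Icc 1 N, (ArithmeticFunction.vonMangoldt n) ^ 2 * ‖b n‖ ^ 2 with hG
  have hG0 : 0 ≤ G := Finset.sum_nonneg (fun _ _ => by positivity)
  set E : ℝ := ∑ q ∈ Finset.Ioc X (P * Y), (1 / (q : ℝ)) *
        (∑' n : ℕ, if Nat.Coprime n q then 0 else ArithmeticFunction.vonMangoldt n * ‖b n‖) ^ 2
    with hE
  have hE0 : 0 ≤ E := Finset.sum_nonneg (fun _ _ => by positivity)
  set ex : ℝ := Real.exp (Real.pi * N / (X : ℝ) ^ 2) with hex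
  have hex0 : 0 < ex := Real.exp_pos _
  have hstep1 := primFamM_le M X Y
    (fun q χ => ‖∑' n : ℕ, χ (n : ZMod q) * (ArithmeticFunction.vonMangoldt n : ℂ) * b n‖ ^ 2)
    (fun q χ => ‖∑ n ∈ Finset.Icc 1 N, be P b n * χ (n : ZMod q)‖ ^ 2)
    (1 + δ) ((1 + 1 / δ) * (2 * (R1 ^ 2 + R2 ^ 2))) (by positivity) (by
      intro q χ
      have h1 := split b hs' P N q χ
      rw [← hR1, ← hR2] at h1
      have h2 := sq_add_le (∑ n ∈ Finset.Icc 1 N, be P b n * χ (n : ZMod q))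
        (∑' n : ℕ, χ (n : ZMod q) * (ArithmeticFunction.vonMangoldt n : ℂ) * b n -
          ∑ n ∈ Finset.Icc 1 N, be P b n * χ (n : ZMod q)) δ hδ0
      rw [add_sub_cancel] at h2
      refine h2.trans ?_
      have h3 : ‖∑' n : ℕ, χ (n : ZMod q) * (ArithmeticFunction.vonMangoldt n : ℂ) * b n -
          ∑ n ∈ Finset.Icc 1 N, be P b n * χ (n : ZMod q)‖ ^ 2 ≤ (R1 + R2) ^ 2 :=
        pow_le_pow_left₀ (norm_nonneg _) h1 2
      have h4 : (R1 + R2) ^ 2 ≤ 2 * (R1 ^ 2 + R2 ^ 2) := by nlinarith [sq_nonneg (R1 - R2)]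
      have h5 : 0 ≤ 1 + 1 / δ := by positivity
      have h6 := mul_le_mul_of_nonneg_left (h3.trans h4) h5
      linarith)
  have hstep2 := hflat X Y N (be P b) hX hXY (fun n hn => if_neg hn) δ hδ0 hδ1
  rw [← hex] at hstep2
  have hGle : ∑ n ∈ Finset.Icc 1 N, ‖be P b n‖ ^ 2 ≤ G := by
    apply Finset.sum_le_sum
    intro n _
    have h1 := pow_le_pow_left₀ (norm_nonneg _) (be_norm P b n) 2
    unfold mj at h1
    rw [mul_pow] at h1
    exact h1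
  have hEle : ∑ q ∈ Finset.Ioc X (P * Y), (1 / (q : ℝ)) *
        (∑ n ∈ (Finset.Icc 1 N).filter (fun n => ¬ Nat.Coprime n q), ‖be P b n‖) ^ 2 ≤ E := by
    apply Finset.sum_le_sum
    intro q _
    apply mul_le_mul_of_nonneg_left _ (by positivity)
    apply pow_le_pow_left₀ (Finset.sum_nonneg (fun _ _ => norm_nonneg _))
    have h1 : ∑ n ∈ (Finset.Icc 1 N).filter (fun n => ¬ Nat.Coprime n q), ‖be P b n‖ ≤
        ∑ n ∈ (Finset.Icc 1 N).filter (fun n => ¬ Nat.Coprime n q), BB1 b q n := by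
      apply Finset.sum_le_sum
      intro n hn
      unfold BB1
      rw [if_neg (Finset.mem_filter.mp hn).2]
      exact be_norm P b n
    exact h1.trans ((BB1_summable b hs' q).sum_le_tsum _ (fun n _ => BB1_nonneg b q n))
  have hM : ∑ q ∈ Finset.Ioc X Y, (Nat.totient q : ℝ) / (q : ℝ) ^ 2 ≤ (1 + C2) * (L + 1) := by
    have h1 := hmass X Y hX hXY
    rw [abs_le] at h1
    have h2 : c0 * L ≤ 1 * L := mul_le_mul_of_nonneg_right hc01 hlog
    nlinarith [h1.2]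
  -- combine
  have hD0 : 0 ≤ ∏ p ∈ P.primeFactors, (1 - 1 / (p : ℝ) ^ 2) := by
    apply Finset.prod_nonneg
    intro p hp
    have h2 : (1 : ℝ) ≤ p := by exact_mod_cast (Nat.prime_of_mem_primeFactors hp).one_lt.le
    have h3 : 1 / (p : ℝ) ^ 2 ≤ 1 := by
      rw [div_le_one (by positivity)]
      nlinarith
    linarith
  have hMp : 0 ≤ ∏ p ∈ M.primeFactors, ((p : ℝ) / (p + 1)) :=
    Finset.prod_nonneg (fun p _ => by positivity)
  have hcM := cM_nonneg M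
  have hcoef : c0 * (∏ p ∈ M.primeFactors, ((p : ℝ) / (p + 1))) *
        (∏ p ∈ P.primeFactors, (1 - 1 / (p : ℝ) ^ 2)) * L + C1 ≤
      cM M * (1 + ε) * L + C := by
    have h1 := mul_le_mul_of_nonneg_left hD
      (mul_nonneg hc0.le hMp)
    rw [← mul_assoc, cM_eq] at h1
    have h2 := mul_le_mul_of_nonneg_right h1 hlog
    have h4 : C1 ≤ C := by rw [hC]; linarith
    linarith
  have hcoef0 : 0 ≤ c0 * (∏ p ∈ M.primeFactors, ((p : ℝ) / (p + 1))) *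
      (∏ p ∈ P.primeFactors, (1 - 1 / (p : ℝ) ^ 2)) * L + C1 := by positivity
  have hδδ : (1 + δ) * (1 + δ) ≤ 1 + ε := by
    rw [hδ]; nlinarith
  have hterm1 : (1 + δ) * ((1 + δ) * ex *
        (c0 * (∏ p ∈ M.primeFactors, ((p : ℝ) / (p + 1))) *
          (∏ p ∈ P.primeFactors, (1 - 1 / (p : ℝ) ^ 2)) * L + C1) *
        ∑ n ∈ Finset.Icc 1 N, ‖be P b n‖ ^ 2) ≤
      (1 + ε) * ex * (cM M * (1 + ε) * L + C) * G := by
    have h1 : (1 + δ) * ((1 + δ) * ex *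
        (c0 * (∏ p ∈ M.primeFactors, ((p : ℝ) / (p + 1))) *
          (∏ p ∈ P.primeFactors, (1 - 1 / (p : ℝ) ^ 2)) * L + C1) *
        ∑ n ∈ Finset.Icc 1 N, ‖be P b n‖ ^ 2) =
      ((1 + δ) * (1 + δ)) * ex * (c0 * (∏ p ∈ M.primeFactors, ((p : ℝ) / (p + 1))) *
          (∏ p ∈ P.primeFactors, (1 - 1 / (p : ℝ) ^ 2)) * L + C1) *
        ∑ n ∈ Finset.Icc 1 N, ‖be P b n‖ ^ 2 := by ring
    rw [h1]
    have h2 : 0 ≤ ∑ n ∈ Finset.Icc 1 N, ‖be P b n‖ ^ 2 := Finset.sum_nonneg (fun _ _ => by positivity)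
    have hCC : 0 ≤ cM M * (1 + ε) * L + C := by linarith
    gcongr
  have hterm2 : (1 + δ) * (2 / δ * ∑ q ∈ Finset.Ioc X (P * Y), (1 / (q : ℝ)) *
        (∑ n ∈ (Finset.Icc 1 N).filter (fun n => ¬ Nat.Coprime n q), ‖be P b n‖) ^ 2) ≤ C * E := by
    have h1 : (1 + δ) * (2 / δ * ∑ q ∈ Finset.Ioc X (P * Y), (1 / (q : ℝ)) *
        (∑ n ∈ (Finset.Icc 1 N).filter (fun n => ¬ Nat.Coprime n q), ‖be P b n‖) ^ 2) ≤
        (1 + δ) * (2 / δ * E) := by
      gcongr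
    have h2 : (1 + δ) * (2 / δ) * E ≤ C * E := by
      apply mul_le_mul_of_nonneg_right _ hE0
      rw [hC]; linarith
    linarith
  have hterm3 : (1 + 1 / δ) * (2 * (R1 ^ 2 + R2 ^ 2)) *
        ∑ q ∈ Finset.Ioc X Y, (Nat.totient q : ℝ) / (q : ℝ) ^ 2 ≤
      C * (L + 1) * (R1 ^ 2 + R2 ^ 2) := by
    have h1 : (1 + 1 / δ) * (2 * (R1 ^ 2 + R2 ^ 2)) *
        ∑ q ∈ Finset.Ioc X Y, (Nat.totient q : ℝ) / (q : ℝ) ^ 2 ≤
        (1 + 1 / δ) * (2 * (R1 ^ 2 + R2 ^ 2)) * ((1 + C2) * (L + 1)) := by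
      apply mul_le_mul_of_nonneg_left hM
      positivity
    have h2 : (1 + 1 / δ) * (2 * (1 + C2)) * ((L + 1) * (R1 ^ 2 + R2 ^ 2)) ≤
        C * ((L + 1) * (R1 ^ 2 + R2 ^ 2)) := by
      apply mul_le_mul_of_nonneg_right _ (by positivity)
      rw [hC]; linarith
    calc _ ≤ (1 + 1 / δ) * (2 * (R1 ^ 2 + R2 ^ 2)) * ((1 + C2) * (L + 1)) := h1
      _ = (1 + 1 / δ) * (2 * (1 + C2)) * ((L + 1) * (R1 ^ 2 + R2 ^ 2)) := by ring
      _ ≤ _ := h2
      _ = _ := by ring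
  have hfin := mul_le_mul_of_nonneg_left hstep2 (by linarith : (0 : ℝ) ≤ 1 + δ)
  rw [mul_add] at hfin
  refine hstep1.trans ?_
  linarith [hfin, hterm1, hterm2, hterm3]

end H385
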