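import Pool.Agent.H385R2.GoodD
import Pool.Agent.H385R2.PrimMass
import Pool.Agent.H385R2.ThetaP

/-!
TEAM Q2, task O3: `∑_{X<q≤Y, (q,M)=1} φ*(q)/q² = cM(M) log(Y/X) + O(1)`, where `φ*(q)` is the
number of primitive Dirichlet characters mod `q`.
-/

set_option autoImplicit false

open Filter Topology Set MeasureTheory

namespace H385

namespace PMM

/-- `μ(d)/d²` restricted to `(d,M) = 1` -/
noncomputable def afmM (M : ℕ) : ArithmeticFunction ℝ :=
  ⟨fun d => if Nat.Coprime d M then afm d else 0, by simp⟩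

/-- `φ(d)/d²` restricted to `(d,M) = 1` -/
noncomputable def affM (M : ℕ) : ArithmeticFunction ℝ :=
  ⟨fun d => if Nat.Coprime d M then aff d else 0, by simp⟩

lemma afmM_apply (M d : ℕ) : afmM M d = if Nat.Coprime d M then afm d else 0 := rfl

lemma affM_apply (M d : ℕ) : affM M d = if Nat.Coprime d M then aff d else 0 := rfl

lemma mulM (M n : ℕ) :
    (afmM M * affM M) n = if Nat.Coprime n M then (afm * aff) n else 0 := by
  rw [ArithmeticFunction.mul_apply]
  split_ifs with h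
  · rw [ArithmeticFunction.mul_apply]
    refine Finset.sum_congr rfl fun x hx => ?_
    have h1 := Nat.mem_divisorsAntidiagonal.mp hx
    have h2 : Nat.Coprime x.1 M := h.coprime_dvd_left ⟨x.2, h1.1.symm⟩
    have h3 : Nat.Coprime x.2 M := h.coprime_dvd_left ⟨x.1, by rw [mul_comm]; exact h1.1.symm⟩
    rw [afmM_apply, affM_apply, if_pos h2, if_pos h3]
  · refine Finset.sum_eq_zero fun x hx => ?_
    have h1 := Nat.mem_divisorsAntidiagonal.mp hx
    rw [afmM_apply, affM_apply]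
    by_cases h2 : Nat.Coprime x.1 M
    · have h3 : ¬ Nat.Coprime x.2 M := fun h3 => h (by rw [← h1.1]; exact Nat.Coprime.mul_left h2 h3)
      rw [if_neg h3, mul_zero]
    · rw [if_neg h2, zero_mul]

lemma sum_phsM_eq (M n : ℕ) :
    ∑ i ∈ (Finset.Icc 1 n).filter (fun q => Nat.Coprime q M), (phs i : ℝ) / (i : ℝ) ^ 2 =
      ∑ d ∈ Finset.Icc 1 n, afmM M d * ∑ e ∈ Finset.Icc 1 (n / d), affM M e := by
  have h := ArithmeticFunction.sum_Ioc_mul_eq_sum_sum (afmM M) (affM M) n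
  have hI : ∀ m : ℕ, Finset.Ioc 0 m = Finset.Icc 1 m := by
    intro m; ext k; simp only [Finset.mem_Ioc, Finset.mem_Icc]; omega
  simp only [hI] at h
  rw [← h, Finset.sum_filter]
  refine Finset.sum_congr rfl fun i hi => ?_
  rw [Finset.mem_Icc] at hi
  rw [mulM]
  split_ifs with hc
  · exact phs_div i (by omega)
  · rfl

lemma dconv {lam : ℕ → ℝ} {K : ℝ} (hK : 0 ≤ K) (hb : ∀ d, 1 ≤ d → |lam d| ≤ K / d) (b : ℕ → ℝ)
    (κ C0 : ℝ) (hκ : 0 ≤ κ) (hC0 : 0 ≤ C0)
    (hth : ∀ m : ℕ, 1 ≤ m → |∑ e ∈ Finset.Icc 1 m, b e - κ * Real.log m| ≤ C0) :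
    ∃ C : ℝ, 0 < C ∧ ∀ n : ℕ, 1 ≤ n →
      |∑ d ∈ Finset.Icc 1 n, (lam d / d) * ∑ e ∈ Finset.Icc 1 (n / d), b e -
        (∑' d : ℕ, lam d / d) * κ * Real.log n| ≤ C := by
  set C1 := ∑' d : ℕ, (1 : ℝ) / (d : ℝ) ^ 2 with hC1
  set C2 := ∑' d : ℕ, Real.log d / (d : ℝ) ^ 2 with hC2
  have hC1n : 0 ≤ C1 := tsum_nonneg (fun d => by positivity)
  have hC2n : 0 ≤ C2 := tsum_nonneg (fun d => div_nonneg (Real.log_natCast_nonneg d) (by positivity))
  set L := ∑' d : ℕ, lam d / d with hL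
  refine ⟨κ * K + κ * (K * C2) + K * (C0 + κ) * C1 + 1, by positivity, ?_⟩
  intro n hn
  have hn' : (1 : ℝ) ≤ n := by exact_mod_cast hn
  set S := ∑ d ∈ Finset.Icc 1 n, lam d / (d : ℝ) with hS
  have hdec : ∑ d ∈ Finset.Icc 1 n, (lam d / d) * ∑ e ∈ Finset.Icc 1 (n / d), b e -
        L * κ * Real.log n =
      κ * ((S - L) * Real.log n) - κ * ∑ d ∈ Finset.Icc 1 n, (lam d / d) * Real.log d +
      ∑ d ∈ Finset.Icc 1 n, (lam d / d) *
        (∑ e ∈ Finset.Icc 1 (n / d), b e - κ * Real.log ((n : ℝ) / d)) := by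
    have h1 : ∑ d ∈ Finset.Icc 1 n, (lam d / d) * ∑ e ∈ Finset.Icc 1 (n / d), b e =
      ∑ d ∈ Finset.Icc 1 n, ((lam d / d) * (κ * Real.log n) - κ * ((lam d / d) * Real.log d) +
        (lam d / d) * (∑ e ∈ Finset.Icc 1 (n / d), b e - κ * Real.log ((n : ℝ) / d))) := by
      apply Finset.sum_congr rfl
      intro d hd
      rw [Finset.mem_Icc] at hd
      have hd' : (0 : ℝ) < d := by exact_mod_cast (by omega : 0 < d)
      rw [Real.log_div (by linarith) hd'.ne']
      ring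
    rw [h1, Finset.sum_add_distrib, Finset.sum_sub_distrib, ← Finset.sum_mul, ← Finset.mul_sum,
      ← hS]
    ring
  rw [hdec]
  have hb1 : |κ * ((S - L) * Real.log n)| ≤ κ * K := by
    have h1 := partial_lam hK hb n hn
    rw [← hS, ← hL] at h1
    have hl : 0 ≤ Real.log n := Real.log_natCast_nonneg n
    rw [abs_mul, abs_of_nonneg hκ, abs_mul, abs_of_nonneg hl]
    refine mul_le_mul_of_nonneg_left ?_ hκ
    calc |S - L| * Real.log n ≤ (K * (1 / n)) * n :=
            mul_le_mul h1 (by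
              have := Real.log_le_sub_one_of_pos (by linarith : (0 : ℝ) < n)
              linarith) hl (by positivity)
      _ = K := by field_simp
  have hb2 : |κ * ∑ d ∈ Finset.Icc 1 n, (lam d / d) * Real.log d| ≤ κ * (K * C2) := by
    rw [abs_mul, abs_of_nonneg hκ]
    refine mul_le_mul_of_nonneg_left ?_ hκ
    calc _ ≤ ∑ d ∈ Finset.Icc 1 n, |(lam d / d) * Real.log d| := Finset.abs_sum_le_sum_abs _ _
      _ ≤ ∑ d ∈ Finset.Icc 1 n, K * (Real.log d / (d : ℝ) ^ 2) := by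
          apply Finset.sum_le_sum
          intro d _
          have hl : 0 ≤ Real.log d := Real.log_natCast_nonneg d
          rw [abs_mul, abs_of_nonneg hl]
          calc _ ≤ (K * (1 / (d : ℝ) ^ 2)) * Real.log d :=
                mul_le_mul_of_nonneg_right (lam_div_le hb d) hl
            _ = K * (Real.log d / (d : ℝ) ^ 2) := by ring
      _ = K * ∑ d ∈ Finset.Icc 1 n, (Real.log d / (d : ℝ) ^ 2) := by rw [Finset.mul_sum]
      _ ≤ K * C2 := mul_le_mul_of_nonneg_left (summable_log_sq.sum_le_tsum _ (fun d _ =>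
            div_nonneg (Real.log_natCast_nonneg d) (by positivity))) hK
  have hb3 : |∑ d ∈ Finset.Icc 1 n, (lam d / d) *
        (∑ e ∈ Finset.Icc 1 (n / d), b e - κ * Real.log ((n : ℝ) / d))| ≤ K * (C0 + κ) * C1 := by
    calc _ ≤ ∑ d ∈ Finset.Icc 1 n, |(lam d / d) *
        (∑ e ∈ Finset.Icc 1 (n / d), b e - κ * Real.log ((n : ℝ) / d))| :=
          Finset.abs_sum_le_sum_abs _ _
      _ ≤ ∑ d ∈ Finset.Icc 1 n, K * (C0 + κ) * ((1 : ℝ) / (d : ℝ) ^ 2) := by
          apply Finset.sum_le_sum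
          intro d hd
          rw [Finset.mem_Icc] at hd
          have hm : 1 ≤ n / d := (Nat.one_le_div_iff (by omega)).mpr hd.2
          have h1 := hth (n / d) hm
          have h2 := log_floor hd.1 hd.2
          have h3 : |∑ e ∈ Finset.Icc 1 (n / d), b e - κ * Real.log ((n : ℝ) / d)| ≤ C0 + κ := by
            have h4 : ∑ e ∈ Finset.Icc 1 (n / d), b e - κ * Real.log ((n : ℝ) / d) =
              (∑ e ∈ Finset.Icc 1 (n / d), b e - κ * Real.log ((n / d : ℕ) : ℝ)) +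
              κ * (Real.log ((n / d : ℕ) : ℝ) - Real.log ((n : ℝ) / d)) := by ring
            rw [h4]
            refine (abs_add_le _ _).trans ?_
            have h5 : |κ * (Real.log ((n / d : ℕ) : ℝ) - Real.log ((n : ℝ) / d))| ≤ κ := by
              rw [abs_mul, abs_of_nonneg hκ]
              calc _ ≤ κ * 1 := mul_le_mul_of_nonneg_left h2 hκ
                _ = κ := mul_one κ
            linarith
          rw [abs_mul]
          calc _ ≤ (K * (1 / (d : ℝ) ^ 2)) * (C0 + κ) :=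
                mul_le_mul (lam_div_le hb d) h3 (abs_nonneg _) (by positivity)
            _ = K * (C0 + κ) * (1 / (d : ℝ) ^ 2) := by ring
      _ = K * (C0 + κ) * ∑ d ∈ Finset.Icc 1 n, ((1 : ℝ) / (d : ℝ) ^ 2) := by rw [Finset.mul_sum]
      _ ≤ K * (C0 + κ) * C1 :=
          mul_le_mul_of_nonneg_left (summable_sq.sum_le_tsum _ (fun d _ => by positivity))
            (by positivity)
  have h1 := abs_add_le (κ * ((S - L) * Real.log n) -
      κ * ∑ d ∈ Finset.Icc 1 n, (lam d / d) * Real.log d)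
      (∑ d ∈ Finset.Icc 1 n, (lam d / d) *
        (∑ e ∈ Finset.Icc 1 (n / d), b e - κ * Real.log ((n : ℝ) / d)))
  have h2 := abs_sub (κ * ((S - L) * Real.log n))
      (κ * ∑ d ∈ Finset.Icc 1 n, (lam d / d) * Real.log d)
  linarith

lemma afmM_eq (M : ℕ) (d : ℕ) (hd : 1 ≤ d) : afmM M d = lamW (wPe M 1) d / d := by
  have hd' : (0 : ℝ) < d := by exact_mod_cast hd
  rw [afmM_apply, afm_apply, lamW_apply _ d (by omega)]
  split_ifs with hc
  · have h1 : ∏ p ∈ d.primeFactors, wPe M 1 p = ∏ p ∈ d.primeFactors, (1 / (p : ℝ)) := by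
      refine Finset.prod_congr rfl fun p hp => ?_
      have hpp := Nat.prime_of_mem_primeFactors hp
      have hpd := Nat.dvd_of_mem_primeFactors hp
      have h2 : ¬ p ∣ 1 := by rw [Nat.dvd_one]; exact hpp.one_lt.ne'
      have h3 : ¬ p ∣ M := by
        intro h
        have := Nat.dvd_gcd hpd h
        rw [hc] at this
        exact h2 this
      unfold wPe
      rw [if_neg h2, if_neg h3]
    rw [h1]
    have h4 := lam_inv_eq d
    rw [lamW_apply _ d (by omega)] at h4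
    exact h4.symm
  · obtain ⟨p, hpp, hpd, hpM⟩ := Nat.Prime.not_coprime_iff_dvd.mp hc
    have hmem : p ∈ d.primeFactors := Nat.mem_primeFactors.mpr ⟨hpp, hpd, by omega⟩
    have h2 : ¬ p ∣ 1 := by rw [Nat.dvd_one]; exact hpp.one_lt.ne'
    rw [Finset.prod_eq_zero hmem, mul_zero, zero_div]
    unfold wPe
    rw [if_neg h2, if_pos hpM]

lemma affM_eq (M m : ℕ) : ∑ e ∈ Finset.Icc 1 m, affM M e =
    ∑ t ∈ (Finset.Icc 1 m).filter (fun t => Nat.Coprime t M),
        (∏ p ∈ t.primeFactors.filter (fun p => ¬ p ∣ M), (1 - 1 / (p : ℝ))) / t := by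
  rw [Finset.sum_filter]
  refine Finset.sum_congr rfl fun t ht => ?_
  rw [Finset.mem_Icc] at ht
  rw [affM_apply, aff_apply]
  split_ifs with hc
  · have h1 : t.primeFactors.filter (fun p => ¬ p ∣ M) = t.primeFactors := by
      rw [Finset.filter_eq_self]
      intro p hp h
      have hpp := Nat.prime_of_mem_primeFactors hp
      have hpd := Nat.dvd_of_mem_primeFactors hp
      have := Nat.dvd_gcd hpd h
      rw [hc] at this
      exact hpp.one_lt.ne' (Nat.dvd_one.mp this)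
    rw [h1]
    have h2 := Nat.totient_eq_mul_prod_factors t
    have h3 : (Nat.totient t : ℝ) = t * ∏ p ∈ t.primeFactors, (1 - 1 / (p : ℝ)) := by
      have h4 : ((Nat.totient t : ℚ) : ℝ) = ((t * ∏ p ∈ t.primeFactors, (1 - (p : ℚ)⁻¹) : ℚ) : ℝ) := by
        rw [h2]
      push_cast at h4
      rw [h4]
      congr 1
      refine Finset.prod_congr rfl fun p _ => ?_
      rw [one_div]
    have ht' : (t : ℝ) ≠ 0 := by exact_mod_cast (by omega : t ≠ 0)
    rw [h3]
    field_simp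
  · rfl

theorem phsM_asymp (M : ℕ) (hM : Squarefree M) : ∃ C : ℝ, 0 < C ∧ ∀ n : ℕ, 1 ≤ n →
    |∑ i ∈ (Finset.Icc 1 n).filter (fun q => Nat.Coprime q M), (phs i : ℝ) / (i : ℝ) ^ 2 -
      cM M * Real.log n| ≤ C := by
  obtain ⟨C0, hC0, h0⟩ := theta_P M M hM dvd_rfl
  set κ := c0 * (∏ p ∈ M.primeFactors, (1 - 1 / (p : ℝ) ^ 2)⁻¹) *
    (∏ p ∈ M.primeFactors, (1 - 1 / (p : ℝ))) with hκ
  have hp1 : ∀ p ∈ M.primeFactors, (1 : ℝ) < p := by
    intro p hp
    exact_mod_cast (Nat.prime_of_mem_primeFactors hp).one_lt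
  have hκ0 : 0 ≤ κ := by
    rw [hκ]
    refine mul_nonneg (mul_nonneg c0_nonneg (Finset.prod_nonneg fun p hp => ?_))
      (Finset.prod_nonneg fun p hp => ?_)
    · have := hp1 p hp
      rw [inv_nonneg, sub_nonneg, div_le_one (by positivity)]
      nlinarith
    · have := hp1 p hp
      rw [sub_nonneg, div_le_one (by positivity)]
      exact this.le
  obtain ⟨C, hC, h⟩ := dconv (lam := fun d => lamW (wPe M 1) d) (K := M) (by positivity)
    (fun d hd => wPe_bound M 1 hM (one_dvd _) d hd) (fun e => affM M e) κ C0 hκ0 hC0.le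
    (fun m hm => by rw [affM_eq]; exact h0 m hm)
  refine ⟨C, hC, fun n hn => ?_⟩
  have h1 := h n hn
  rw [kappa_eq M 1 hM (one_dvd _)] at h1
  have h2 : c0 * (∏ p ∈ M.primeFactors, (1 - 1 / (p : ℝ) ^ 2)⁻¹) *
        (∏ p ∈ (1 : ℕ).primeFactors, (1 - 1 / (p : ℝ))) * κ = cM M := by
    rw [Nat.primeFactors_one, Finset.prod_empty, mul_one, hκ]
    unfold cM
    have h3 : c0 * (∏ p ∈ M.primeFactors, (1 - 1 / (p : ℝ) ^ 2)⁻¹) *
      (c0 * (∏ p ∈ M.primeFactors, (1 - 1 / (p : ℝ) ^ 2)⁻¹) *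
        (∏ p ∈ M.primeFactors, (1 - 1 / (p : ℝ)))) =
      c0 ^ 2 * ((∏ p ∈ M.primeFactors, (1 - 1 / (p : ℝ) ^ 2)⁻¹) *
        (∏ p ∈ M.primeFactors, (1 - 1 / (p : ℝ) ^ 2)⁻¹) *
        (∏ p ∈ M.primeFactors, (1 - 1 / (p : ℝ)))) := by ring
    rw [h3, ← Finset.prod_mul_distrib, ← Finset.prod_mul_distrib]
    congr 1
    refine Finset.prod_congr rfl fun p hp => ?_
    have hp' := hp1 p hp
    have e1 : (p : ℝ) ≠ 0 := by positivity
    have e2 : (p : ℝ) - 1 ≠ 0 := by linarith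
    have e3 : (p : ℝ) + 1 ≠ 0 := by positivity
    have e4 : (1 : ℝ) - 1 / (p : ℝ) ^ 2 = (p - 1) * (p + 1) / (p : ℝ) ^ 2 := by
      field_simp
      ring
    have e5 : (1 : ℝ) - 1 / (p : ℝ) = (p - 1) / p := by field_simp
    rw [e4, e5]
    field_simp
  rw [h2] at h1
  rw [sum_phsM_eq]
  have h3 : ∑ d ∈ Finset.Icc 1 n, afmM M d * ∑ e ∈ Finset.Icc 1 (n / d), affM M e =
      ∑ d ∈ Finset.Icc 1 n, (lamW (wPe M 1) d / d) * ∑ e ∈ Finset.Icc 1 (n / d), affM M e := by
    refine Finset.sum_congr rfl fun d hd => ?_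
    rw [Finset.mem_Icc] at hd
    rw [afmM_eq M d hd.1]
  rw [h3]
  exact h1

lemma primFamM_one (M X Y : ℕ) : primFamM M X Y (fun _ _ => 1) =
    ∑ q ∈ (Finset.Ioc X Y).filter (fun q => Nat.Coprime q M), (phs q : ℝ) / (q : ℝ) ^ 2 := by
  unfold primFamM
  apply Finset.sum_congr rfl
  intro q hq
  rw [Finset.mem_filter, Finset.mem_Ioc] at hq
  have : NeZero q := ⟨by omega⟩
  classical
  have h1 : ∑ᶠ _χ : {χ : DirichletCharacter ℂ q // χ.IsPrimitive}, (1 : ℝ) = phs q := by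
    rw [finsum_eq_sum_of_fintype]
    rw [Finset.sum_const, nsmul_eq_mul, mul_one, phs, Nat.card_eq_fintype_card, Finset.card_univ]
  rw [h1]
  ring

end PMM

open PMM in
theorem prim_mass_M (M : ℕ) (hM : Squarefree M) : ∃ C : ℝ, 0 < C ∧ ∀ X Y : ℕ, 1 ≤ X → X ≤ Y →
    |primFamM M X Y (fun _ _ => 1) - cM M * Real.log ((Y : ℝ) / X)| ≤ C := by
  obtain ⟨C, hC, h⟩ := phsM_asymp M hM
  refine ⟨2 * C, by linarith, ?_⟩
  intro A B hA hAB
  rw [primFamM_one]
  have h1 := h A hA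
  have h2 := h B (by omega)
  have hA' : (0 : ℝ) < A := by exact_mod_cast hA
  have hB' : (0 : ℝ) < B := by exact_mod_cast (by omega : 0 < B)
  have h3 : ∑ i ∈ (Finset.Icc 1 B).filter (fun q => Nat.Coprime q M), (phs i : ℝ) / (i : ℝ) ^ 2 =
      ∑ i ∈ (Finset.Icc 1 A).filter (fun q => Nat.Coprime q M), (phs i : ℝ) / (i : ℝ) ^ 2 +
        ∑ i ∈ (Finset.Ioc A B).filter (fun q => Nat.Coprime q M), (phs i : ℝ) / (i : ℝ) ^ 2 := by
    have h4 : Finset.Icc 1 B = Finset.Icc 1 A ∪ Finset.Ioc A B := by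
      ext k
      simp only [Finset.mem_union, Finset.mem_Icc, Finset.mem_Ioc]
      omega
    have h5 : Disjoint (Finset.Icc 1 A) (Finset.Ioc A B) := by
      rw [Finset.disjoint_left]
      intro k hk hk'
      rw [Finset.mem_Icc] at hk
      rw [Finset.mem_Ioc] at hk'
      omega
    rw [h4, Finset.filter_union, Finset.sum_union (Finset.disjoint_filter_filter h5)]
  rw [h3] at h2
  rw [Real.log_div hB'.ne' hA'.ne']
  set SA := ∑ i ∈ (Finset.Icc 1 A).filter (fun q => Nat.Coprime q M), (phs i : ℝ) / (i : ℝ) ^ 2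
  set SD := ∑ i ∈ (Finset.Ioc A B).filter (fun q => Nat.Coprime q M), (phs i : ℝ) / (i : ℝ) ^ 2
  rw [abs_le] at h1 h2 ⊢
  constructor <;> nlinarith [h1.1, h1.2, h2.1, h2.2]

end H385
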