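import Pool.Agent.H385R2.FinDA0
import Pool.Agent.H385R2.FinB2
import Pool.Agent.H385R2.FinB3a
import Pool.Agent.H385R2.NTWabs
import Pool.Agent.H385R2.PrimLSM
import Pool.Agent.H385R2.PrimMassM

open Complex Filter Topology Set MeasureTheory
open H370 (zset mult NN Nd Ns)

set_option maxHeartbeats 4000000

namespace H385

/-- weights `w n = Λ(n)² |c n|² / n` -/
noncomputable def wc (c : ℕ → ℂ) (n : ℕ) : ℝ :=
  (ArithmeticFunction.vonMangoldt n) ^ 2 * ‖c n‖ ^ 2 / n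

theorem wc_nonneg (c : ℕ → ℂ) (n : ℕ) : 0 ≤ wc c n := by unfold wc; positivity

theorem wc_zero (c : ℕ → ℂ) : wc c 0 = 0 := by unfold wc; simp

/-- prime number theorem type hypothesis (Selberg orthonormality) -/
def Selb (c : ℕ → ℂ) (C0 : ℝ) : Prop := ∀ x : ℝ, 1 ≤ x →
  |∑ n ∈ Finset.Icc 1 ⌊x⌋₊, wc c n - (Real.log x) ^ 2 / 2| ≤ C0 * (1 + Real.log x)

/-- smoothed square sum of `Λ c` -/
noncomputable def SW (c : ℕ → ℂ) (u : ℝ) : ℝ := ∑' n : ℕ, wc c n *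
        Real.exp (-(u - Real.log n) ^ 2)

theorem SW_cont (c : ℕ → ℂ) (C0 : ℝ) (h : Selb c C0) : Continuous (SW c) :=
  (lam_crude_abs (wc c) (wc_nonneg c) (wc_zero c) C0 h).2

theorem SW_nonneg (c : ℕ → ℂ) (u : ℝ) : 0 ≤ SW c u :=
  tsum_nonneg (fun n => mul_nonneg (wc_nonneg c n) (Real.exp_pos _).le)

theorem SW_crude (c : ℕ → ℂ) (C0 : ℝ) (h : Selb c C0) : ∃ C : ℝ, 0 < C ∧ ∀ u : ℝ, 0 ≤ u →
      Summable (fun n : ℕ => wc c n * Real.exp (-(u - Real.log n) ^ 2 / 2)) ∧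
      ∑' n : ℕ, wc c n * Real.exp (-(u - Real.log n) ^ 2 / 2) ≤ C * (u + 1) :=
  (lam_crude_abs (wc c) (wc_nonneg c) (wc_zero c) C0 h).1

theorem SW_summable (c : ℕ → ℂ) (C0 : ℝ) (h : Selb c C0) (u : ℝ) (hu : 0 ≤ u) :
    Summable (fun n : ℕ => wc c n * Real.exp (-(u - Real.log n) ^ 2)) := by
  obtain ⟨C6, hC6, h6⟩ := SW_crude c C0 h
  refine Summable.of_nonneg_of_le (fun n => mul_nonneg (wc_nonneg c n) (Real.exp_pos _).le)
    (fun n => ?_) (h6 u hu).1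
  refine mul_le_mul_of_nonneg_left (Real.exp_le_exp.mpr ?_) (wc_nonneg c n)
  nlinarith [sq_nonneg (u - Real.log n)]

theorem SW_le (c : ℕ → ℂ) (C0 : ℝ) (h : Selb c C0) : ∃ C : ℝ, 0 < C ∧ ∀ u : ℝ, 0 ≤ u →
    0 ≤ SW c u ∧ SW c u ≤ C * (u + 1) := by
  obtain ⟨C6, hC6, h6⟩ := SW_crude c C0 h
  refine ⟨C6, hC6, fun u hu => ⟨SW_nonneg c u, ?_⟩⟩
  have hS2 := (h6 u hu).1
  have hle : ∀ n : ℕ, wc c n * Real.exp (-(u - Real.log n) ^ 2) ≤ wc c n *
        Real.exp (-(u - Real.log n) ^ 2 / 2) := by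
    intro n
    refine mul_le_mul_of_nonneg_left (Real.exp_le_exp.mpr ?_) (wc_nonneg c n)
    nlinarith [sq_nonneg (u - Real.log n)]
  exact (Summable.tsum_le_tsum hle (SW_summable c C0 h u hu) hS2).trans (h6 u hu).2

theorem bc_norm_le (d : ℝ) (c : ℕ → ℂ) (hc : ∀ n, ‖c n‖ ≤ d) (T u t : ℝ) (n : ℕ) :
    ArithmeticFunction.vonMangoldt n * ‖c n * ((Real.sqrt n : ℂ)⁻¹ * bt T u t (Real.log n))‖ ≤
      d * (ArithmeticFunction.vonMangoldt n * ‖(Real.sqrt n : ℂ)⁻¹ * bt T u t (Real.log n)‖) := by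
  rw [norm_mul (c n)]
  have h := mul_le_mul_of_nonneg_right (hc n)
    (norm_nonneg ((Real.sqrt n : ℂ)⁻¹ * bt T u t (Real.log n)))
  have := mul_le_mul_of_nonneg_left h (ArithmeticFunction.vonMangoldt_nonneg (n := n))
  refine this.trans (le_of_eq ?_)
  ring

theorem bc_summable (d : ℝ) (c : ℕ → ℂ) (hc : ∀ n, ‖c n‖ ≤ d) (T u t : ℝ) (hT : 0 ≤ T) :
    Summable (fun n : ℕ =>
    ArithmeticFunction.vonMangoldt n * ‖c n * ((Real.sqrt n : ℂ)⁻¹ * bt T u t (Real.log n))‖) := by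
  refine Summable.of_nonneg_of_le (fun n => ?_) (fun n => bc_norm_le d c hc T u t n)
    ((b_summable T u t hT).mul_left _)
  exact mul_nonneg ArithmeticFunction.vonMangoldt_nonneg (norm_nonneg _)

/-- restricted sums of `Λ |c b|` -/
theorem bc_tsum_sq (d : ℝ) (hd : 0 ≤ d) (c : ℕ → ℂ) (hc : ∀ n, ‖c n‖ ≤ d) (T u t : ℝ) (hT : 0 ≤ T)
    (p : ℕ → Prop) [DecidablePred p] :
    (∑' n : ℕ, (if p n then ArithmeticFunction.vonMangoldt n *
      ‖c n * ((Real.sqrt n : ℂ)⁻¹ * bt T u t (Real.log n))‖ else 0)) ^ 2 ≤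
    wt T t ^ 2 * (d * ∑' n : ℕ, (if p n then ArithmeticFunction.vonMangoldt n / Real.sqrt n *
        Real.exp (-(u - Real.log n) ^ 2 / 4) else 0)) ^ 2 := by
  have hs : ∀ f : ℕ → ℝ, (∀ n, 0 ≤ f n) → Summable f → Summable (fun n => if p n then f n else 0) := by
    intro f hf hfs
    refine Summable.of_nonneg_of_le (fun n => ?_) (fun n => ?_) hfs
    · split_ifs
      · exact hf n
      · exact le_rfl
    · split_ifs
      · exact le_rfl
      · exact hf n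
  have h1 : ∑' n : ℕ, (if p n then ArithmeticFunction.vonMangoldt n *
      ‖c n * ((Real.sqrt n : ℂ)⁻¹ * bt T u t (Real.log n))‖ else 0) ≤
      d * ∑' n : ℕ, (if p n then ArithmeticFunction.vonMangoldt n *
      ‖(Real.sqrt n : ℂ)⁻¹ * bt T u t (Real.log n)‖ else 0) := by
    rw [← tsum_mul_left]
    refine Summable.tsum_le_tsum (fun n => ?_) (hs _ (fun n => mul_nonneg
      ArithmeticFunction.vonMangoldt_nonneg (norm_nonneg _)) (bc_summable d c hc T u t hT))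
      ((hs _ (fun n => mul_nonneg
      ArithmeticFunction.vonMangoldt_nonneg (norm_nonneg _)) (b_summable T u t hT)).mul_left _)
    split_ifs
    · exact bc_norm_le d c hc T u t n
    · simp
  have h2 := b_tsum_le T u t hT p
  have h0 : 0 ≤ ∑' n : ℕ, (if p n then ArithmeticFunction.vonMangoldt n *
      ‖c n * ((Real.sqrt n : ℂ)⁻¹ * bt T u t (Real.log n))‖ else 0) := by
    refine tsum_nonneg (fun n => ?_)
    split_ifs
    · exact mul_nonneg ArithmeticFunction.vonMangoldt_nonneg (norm_nonneg _)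
    · exact le_rfl
  rw [← mul_pow]
  refine pow_le_pow_left₀ h0 (h1.trans ?_) 2
  refine (mul_le_mul_of_nonneg_left h2 hd).trans (le_of_eq ?_)
  ring

theorem btc_sum_int (c : ℕ → ℂ) (C0 : ℝ) (h : Selb c C0) : ∃ C : ℝ, 0 < C ∧
    ∀ (T κ u : ℝ) (N : ℕ), 1 ≤ κ → 1 ≤ T → T ≤ Real.exp (κ ^ 2) → 0 ≤ u →
    Integrable (fun t => ∑ n ∈ Finset.Icc 1 N, (ArithmeticFunction.vonMangoldt n) ^ 2 *
      ‖c n * ((Real.sqrt n : ℂ)⁻¹ * bt T u t (Real.log n))‖ ^ 2) ∧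
    ∫ t : ℝ, ∑ n ∈ Finset.Icc 1 N, (ArithmeticFunction.vonMangoldt n) ^ 2 *
      ‖c n * ((Real.sqrt n : ℂ)⁻¹ * bt T u t (Real.log n))‖ ^ 2 ≤
      T / (2 * Real.pi) * SW c u + C * κ * (u + 1) := by
  obtain ⟨C5, hC5, h5⟩ := bt_sq_int
  obtain ⟨C6, hC6, h6⟩ := SW_crude c C0 h
  refine ⟨C5 * C6, by positivity, ?_⟩
  intro T κ u N hκ hT hTκ hu
  have hint : ∀ n ∈ Finset.Icc 1 N, Integrable (fun t => (ArithmeticFunction.vonMangoldt n) ^ 2 *
      ‖c n * ((Real.sqrt n : ℂ)⁻¹ * bt T u t (Real.log n))‖ ^ 2) := by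
    intro n hn
    have := (h5 T κ u (Real.log n) hκ hT hTκ).1
    refine Integrable.const_mul ?_ _
    simp only [norm_mul, mul_pow]
    exact (this.const_mul _).const_mul _
  refine ⟨integrable_finsetSum _ hint, ?_⟩
  rw [integral_finsetSum _ hint]
  have hS2 := (h6 u hu).1
  have hS2le := (h6 u hu).2
  have hS1 := SW_summable c C0 h u hu
  have hterm : ∀ n ∈ Finset.Icc 1 N, ∫ t : ℝ, (ArithmeticFunction.vonMangoldt n) ^ 2 *
      ‖c n * ((Real.sqrt n : ℂ)⁻¹ * bt T u t (Real.log n))‖ ^ 2 ≤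
      T / (2 * Real.pi) * (wc c n * Real.exp (-(u - Real.log n) ^ 2)) +
      C5 * κ * (wc c n * Real.exp (-(u - Real.log n) ^ 2 / 2)) := by
    intro n hn
    have hn1 : 1 ≤ n := (Finset.mem_Icc.mp hn).1
    have hn0 : (0 : ℝ) < n := by exact_mod_cast hn1
    have h7 := (h5 T κ u (Real.log n) hκ hT hTκ).2
    rw [integral_const_mul]
    simp only [norm_mul, mul_pow]
    rw [integral_const_mul, integral_const_mul]
    have h8 : ‖(Real.sqrt n : ℂ)⁻¹‖ ^ 2 = 1 / n := by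
      rw [norm_inv, Complex.norm_real, Real.norm_of_nonneg (Real.sqrt_nonneg _), inv_pow,
        Real.sq_sqrt hn0.le]
      simp
    rw [h8]
    have h9 : (ArithmeticFunction.vonMangoldt n) ^ 2 * (‖c n‖ ^ 2 * (1 / (n : ℝ) *
        ∫ t : ℝ, ‖bt T u t (Real.log n)‖ ^ 2)) ≤ (ArithmeticFunction.vonMangoldt n) ^ 2 *
        (‖c n‖ ^ 2 * (1 / (n : ℝ) *
        (T / (2 * Real.pi) * Real.exp (-(u - Real.log n) ^ 2) +
      C5 * κ * Real.exp (-(u - Real.log n) ^ 2 / 2)))) := by gcongr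
    refine h9.trans (le_of_eq ?_)
    unfold wc
    ring
  refine (Finset.sum_le_sum hterm).trans ?_
  rw [Finset.sum_add_distrib, ← Finset.mul_sum, ← Finset.mul_sum]
  have a1 : ∑ n ∈ Finset.Icc 1 N, (wc c n * Real.exp (-(u - Real.log n) ^ 2)) ≤ SW c u :=
    hS1.sum_le_tsum _ (fun n _ => mul_nonneg (wc_nonneg c n) (Real.exp_pos _).le)
  have a2 : ∑ n ∈ Finset.Icc 1 N, (wc c n * Real.exp (-(u - Real.log n) ^ 2 / 2)) ≤ C6 * (u + 1) :=
    (hS2.sum_le_tsum _ (fun n _ => mul_nonneg (wc_nonneg c n) (Real.exp_pos _).le)).trans hS2le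
  have hT0 : 0 ≤ T := by linarith
  refine add_le_add (mul_le_mul_of_nonneg_left a1 (by positivity)) ?_
  calc C5 * κ * _ ≤ C5 * κ * (C6 * (u + 1)) := mul_le_mul_of_nonneg_left a2 (by positivity)
    _ = _ := by ring

theorem cM_pos (M : ℕ) (hM : Squarefree M) : 0 < cM M := by
  unfold cM c0
  have : 0 < ∏ p ∈ M.primeFactors, ((p : ℝ) ^ 3 / (((p : ℝ) - 1) * ((p : ℝ) + 1) ^ 2)) := by
    refine Finset.prod_pos (fun p hp => ?_)
    have hp2 : 2 ≤ p := (Nat.prime_of_mem_primeFactors hp).two_le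
    have : (2 : ℝ) ≤ p := by exact_mod_cast hp2
    have h1 : 0 < (p : ℝ) - 1 := by linarith
    positivity
  positivity

theorem msD_point (M : ℕ) (hM : Squarefree M) (d : ℝ) (hd : 1 ≤ d) (c : ℕ → ℂ)
    (hc : ∀ n, ‖c n‖ ≤ d) (ε1 : ℝ) (h1 : 0 < ε1) (h2 : ε1 ≤ 1) : ∃ (C : ℝ) (P : ℕ), 0 < C ∧ 1 ≤ P ∧
    ∀ (X Y N : ℕ) (T u t : ℝ), 1 ≤ X → X ≤ Y → 0 ≤ T →
    primFamM M X Y (fun q χ =>
        ‖∑' n : ℕ, (χ (n : ZMod q) * c n * (ArithmeticFunction.vonMangoldt n : ℂ)) *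
          ((Real.sqrt n : ℂ)⁻¹ * bt T u t (Real.log n))‖ ^ 2) ≤
      ((1 + ε1) * Real.exp (Real.pi * N / (X : ℝ) ^ 2) *
        (cM M * (1 + ε1) * Real.log ((Y : ℝ) / X) + C)) *
        ∑ n ∈ Finset.Icc 1 N, (ArithmeticFunction.vonMangoldt n) ^ 2 *
          ‖c n * ((Real.sqrt n : ℂ)⁻¹ * bt T u t (Real.log n))‖ ^ 2
      + wt T t ^ 2 * DD C P X Y N u := by
  obtain ⟨C, P, hC, hP, h⟩ := prim_ls_M M hM ε1 h1 h2
  refine ⟨C * d ^ 2, P, by positivity, hP, ?_⟩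
  intro X Y N T u t hX hXY hT
  have h3 := h X Y N (fun n => c n * ((Real.sqrt n : ℂ)⁻¹ * bt T u t (Real.log n))) hX hXY
    (bc_summable d c hc T u t hT)
  have hd0 : 0 ≤ d := by linarith
  have hlog : 0 ≤ Real.log ((Y : ℝ) / X) := by
    refine Real.log_nonneg ?_
    have : (0 : ℝ) < X := by exact_mod_cast hX
    rw [one_le_div this]
    exact_mod_cast hXY
  have e1 : primFamM M X Y (fun q χ =>
        ‖∑' n : ℕ, (χ (n : ZMod q) * c n * (ArithmeticFunction.vonMangoldt n : ℂ)) *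
          ((Real.sqrt n : ℂ)⁻¹ * bt T u t (Real.log n))‖ ^ 2) = primFamM M X Y (fun q χ =>
        ‖∑' n : ℕ, χ (n : ZMod q) * (ArithmeticFunction.vonMangoldt n : ℂ) *
          (c n * ((Real.sqrt n : ℂ)⁻¹ * bt T u t (Real.log n)))‖ ^ 2) := by
    congr 1
    funext q χ
    congr 2
    refine tsum_congr (fun n => ?_)
    ring
  rw [e1]
  refine h3.trans ?_
  have hG : ∀ q : ℕ, (∑' n : ℕ, if Nat.Coprime n q then 0 else ArithmeticFunction.vonMangoldt n *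
      ‖c n * ((Real.sqrt n : ℂ)⁻¹ * bt T u t (Real.log n))‖) ^ 2 ≤
        wt T t ^ 2 * (d * Gq q u) ^ 2 := by
    intro q
    have h := bc_tsum_sq d hd0 c hc T u t hT (fun n => ¬ Nat.Coprime n q)
    simp only [ite_not] at h
    exact h
  have h4 : (∑' n : ℕ, if N < n then ArithmeticFunction.vonMangoldt n *
      ‖c n * ((Real.sqrt n : ℂ)⁻¹ * bt T u t (Real.log n))‖ else 0) ^ 2 ≤
        wt T t ^ 2 * (d * Tl N u) ^ 2 := bc_tsum_sq d hd0 c hc T u t hT (fun n => N < n)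
  have h5 : C * ∑ q ∈ Finset.Ioc X (P * Y), (1 / (q : ℝ)) *
        (∑' n : ℕ, if Nat.Coprime n q then 0 else ArithmeticFunction.vonMangoldt n *
          ‖c n * ((Real.sqrt n : ℂ)⁻¹ * bt T u t (Real.log n))‖) ^ 2 ≤
      C * ∑ q ∈ Finset.Ioc X (P * Y), (1 / (q : ℝ)) * (wt T t ^ 2 * (d * Gq q u) ^ 2) := by
    refine mul_le_mul_of_nonneg_left ?_ hC.le
    refine Finset.sum_le_sum (fun q _ => ?_)
    exact mul_le_mul_of_nonneg_left (hG q) (by positivity)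
  have h6 : C * (Real.log ((Y : ℝ) / X) + 1) *
        ((∑' n : ℕ, if Nat.Coprime n P then 0 else ArithmeticFunction.vonMangoldt n *
          ‖c n * ((Real.sqrt n : ℂ)⁻¹ * bt T u t (Real.log n))‖) ^ 2 +
         (∑' n : ℕ, if N < n then ArithmeticFunction.vonMangoldt n *
          ‖c n * ((Real.sqrt n : ℂ)⁻¹ * bt T u t (Real.log n))‖ else 0) ^ 2) ≤
      C * (Real.log ((Y : ℝ) / X) + 1) * (wt T t ^ 2 * (d * Gq P u) ^ 2 +
        wt T t ^ 2 * (d * Tl N u) ^ 2) := by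
    refine mul_le_mul_of_nonneg_left ?_ (by positivity)
    exact add_le_add (hG P) h4
  have h7 : wt T t ^ 2 * DD (C * d ^ 2) P X Y N u =
      C * ∑ q ∈ Finset.Ioc X (P * Y), (1 / (q : ℝ)) * (wt T t ^ 2 * (d * Gq q u) ^ 2) +
      C * (Real.log ((Y : ℝ) / X) + 1) * (wt T t ^ 2 * (d * Gq P u) ^ 2 +
        wt T t ^ 2 * (d * Tl N u) ^ 2) := by
    unfold DD
    have : ∑ q ∈ Finset.Ioc X (P * Y), (1 / (q : ℝ)) * (wt T t ^ 2 * (d * Gq q u) ^ 2) =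
      wt T t ^ 2 * d ^ 2 * ∑ q ∈ Finset.Ioc X (P * Y), (1 / (q : ℝ)) * Gq q u ^ 2 := by
      rw [Finset.mul_sum]
      exact Finset.sum_congr rfl (fun q _ => by ring)
    rw [this]; ring
  rw [h7]
  have h8 : ((1 + ε1) * Real.exp (Real.pi * N / (X : ℝ) ^ 2) *
        (cM M * (1 + ε1) * Real.log ((Y : ℝ) / X) + C)) *
        ∑ n ∈ Finset.Icc 1 N, (ArithmeticFunction.vonMangoldt n) ^ 2 *
          ‖c n * ((Real.sqrt n : ℂ)⁻¹ * bt T u t (Real.log n))‖ ^ 2 ≤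
      ((1 + ε1) * Real.exp (Real.pi * N / (X : ℝ) ^ 2) *
        (cM M * (1 + ε1) * Real.log ((Y : ℝ) / X) + C * d ^ 2)) *
        ∑ n ∈ Finset.Icc 1 N, (ArithmeticFunction.vonMangoldt n) ^ 2 *
          ‖c n * ((Real.sqrt n : ℂ)⁻¹ * bt T u t (Real.log n))‖ ^ 2 := by
    refine mul_le_mul_of_nonneg_right ?_ (Finset.sum_nonneg (fun n _ => by positivity))
    refine mul_le_mul_of_nonneg_left ?_ (by positivity)
    have : C ≤ C * d ^ 2 := by
      refine le_mul_of_one_le_right hC.le ?_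
      nlinarith
    linarith
  linarith

end H385
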