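import Pool.Agent.H385R2.FinDB

open Complex Filter Topology Set MeasureTheory
open H370 (zset mult NN Nd Ns)

set_option maxHeartbeats 4000000

namespace H385

theorem msD_int (M : ℕ) (hM : Squarefree M) (d : ℝ) (hd : 1 ≤ d) (c : ℕ → ℂ)
    (hc : ∀ n, ‖c n‖ ≤ d) (C0 : ℝ) (hS : Selb c C0) (ε1 : ℝ) (h1 : 0 < ε1) (h2 : ε1 ≤ 1) : ∃ (C : ℝ) (P : ℕ), 0 < C ∧ 1 ≤ P ∧
    ∀ (X Y N : ℕ) (T κ u : ℝ), 1 ≤ X → X ≤ Y → 1 ≤ κ → 1 ≤ T → T ≤ Real.exp (κ ^ 2) → 0 ≤ u →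
    ∫ t : ℝ, primFamM M X Y (fun q χ =>
        ‖∑' n : ℕ, (χ (n : ZMod q) * c n * (ArithmeticFunction.vonMangoldt n : ℂ)) *
          ((Real.sqrt n : ℂ)⁻¹ * bt T u t (Real.log n))‖ ^ 2) ≤
      ((1 + ε1) * Real.exp (Real.pi * N / (X : ℝ) ^ 2) *
        (cM M * (1 + ε1) * Real.log ((Y : ℝ) / X) + C)) *
        (T / (2 * Real.pi) * SW c u + C * κ * (u + 1))
      + (T + C) * DD C P X Y N u := by
  obtain ⟨C, P, hC, hP, h⟩ := msD_point M hM d hd c hc ε1 h1 h2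
  obtain ⟨C5, hC5, h5⟩ := btc_sum_int c C0 hS
  obtain ⟨C7, hC7, h7⟩ := wt_sq_int
  have hcM := cM_pos M hM
  refine ⟨C + C5 + C7, P, by positivity, hP, ?_⟩
  intro X Y N T κ u hX hXY hκ hT hTκ hu
  have hT0 : 0 ≤ T := by linarith
  have hlog : 0 ≤ Real.log ((Y : ℝ) / X) := by
    refine Real.log_nonneg ?_
    have : (0 : ℝ) < X := by exact_mod_cast hX
    rw [one_le_div this]
    exact_mod_cast hXY
  obtain ⟨i1, i2⟩ := h5 T κ u N hκ hT hTκ hu
  obtain ⟨j1, j2⟩ := h7 T hT0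
  have hDD := DD_nonneg C hC.le P X Y N u hX hXY
  set D1 : ℝ := (1 + ε1) * Real.exp (Real.pi * N / (X : ℝ) ^ 2) *
        (cM M * (1 + ε1) * Real.log ((Y : ℝ) / X) + C) with hD1
  have hD1n : 0 ≤ D1 := by positivity
  have hS1 := SW_nonneg c u
  calc _ ≤ ∫ t : ℝ, (D1 * ∑ n ∈ Finset.Icc 1 N, (ArithmeticFunction.vonMangoldt n) ^ 2 *
          ‖c n * ((Real.sqrt n : ℂ)⁻¹ * bt T u t (Real.log n))‖ ^ 2 + wt T t ^ 2 * DD C P X Y N u) := by
        refine integral_mono_of_nonneg ?_ ?_ ?_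
        · exact Filter.Eventually.of_forall (fun t => primFamM_nonneg _ _ _ _ (fun _ _ => sq_nonneg _))
        · exact (i1.const_mul _).add (j1.mul_const _)
        · exact Filter.Eventually.of_forall (fun t => h X Y N T u t hX hXY hT0)
    _ = D1 * (∫ t : ℝ, ∑ n ∈ Finset.Icc 1 N, (ArithmeticFunction.vonMangoldt n) ^ 2 *
          ‖c n * ((Real.sqrt n : ℂ)⁻¹ * bt T u t (Real.log n))‖ ^ 2) +
          (∫ t : ℝ, wt T t ^ 2) * DD C P X Y N u := by
        rw [integral_add (i1.const_mul _) (j1.mul_const _), integral_const_mul, integral_mul_const]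
    _ ≤ D1 * (T / (2 * Real.pi) * SW c u + C5 * κ * (u + 1)) + (T + C7) * DD C P X Y N u := by
        exact add_le_add (mul_le_mul_of_nonneg_left i2 hD1n) (mul_le_mul_of_nonneg_right j2 hDD)
    _ ≤ _ := by
        have hDD2 : DD C P X Y N u ≤ DD (C + C5 + C7) P X Y N u := by
          unfold DD
          gcongr <;> linarith
        have hD2 : D1 ≤ (1 + ε1) * Real.exp (Real.pi * N / (X : ℝ) ^ 2) *
            (cM M * (1 + ε1) * Real.log ((Y : ℝ) / X) + (C + C5 + C7)) := by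
          rw [hD1]; gcongr; linarith
        have e1 : T / (2 * Real.pi) * SW c u + C5 * κ * (u + 1) ≤
            T / (2 * Real.pi) * SW c u + (C + C5 + C7) * κ * (u + 1) := by gcongr; linarith
        refine add_le_add ?_ ?_
        · exact mul_le_mul hD2 e1 (by positivity) (by positivity)
        · exact mul_le_mul (by linarith) hDD2 hDD (by linarith)


/-- the family bound for stage 1 : the function `Yf` -/
noncomputable def YM (c : ℕ → ℂ) (D1 T L C 𝓛 : ℝ) (P X Y : ℕ) (u : ℝ) : ℝ :=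
  D1 * (T / (2 * Real.pi) * SW c u + C * L * (u + 1)) +
    (T + C) * (C * ∑ q ∈ Finset.Ioc X (P * Y), (1 / (q : ℝ)) * Gq q u ^ 2 +
    C * (𝓛 + 1) * (Gq P u ^ 2 + 1))

theorem YM_cont (c : ℕ → ℂ) (C0 : ℝ) (hS : Selb c C0) (D1 T L C 𝓛 : ℝ) (P X Y : ℕ) : Continuous (YM c D1 T L C 𝓛 P X Y) := by
  unfold YM
  have h1 := SW_cont c C0 hS
  have h2 := Gq_cont
  have h3 : Continuous (fun u : ℝ => ∑ q ∈ Finset.Ioc X (P * Y), (1 / (q : ℝ)) * Gq q u ^ 2) :=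
    continuous_finsetSum _ (fun q _ => continuous_const.mul ((h2 q).pow 2))
  have h4 := (h2 P).pow 2
  fun_prop

/-- integral of the error part -/
theorem YM_integral (c : ℕ → ℂ) (C0 : ℝ) (hS : Selb c C0) (γ : ℝ) (h0 : 0 < γ) (hπ : γ < Real.pi) (D1 T L C 𝓛 Λ : ℝ) (P X Y : ℕ)
    (hD : 0 ≤ D1) (hT : 0 ≤ T) (hL : 0 ≤ L) (hC : 0 ≤ C) (h𝓛 : 0 ≤ 𝓛) (hΛ : 0 < Λ) :
    ∫ u in (0 : ℝ)..Λ, Rw γ (u / Λ) * YM c D1 T L C 𝓛 P X Y u ≤
      D1 * (T / (2 * Real.pi)) * (∫ u in (0 : ℝ)..Λ, Rw γ (u / Λ) * SW c u) +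
      Rw γ 0 * (D1 * C * L * (Λ ^ 2 / 2 + Λ) +
        (T + C) * (C * ∑ q ∈ Finset.Ioc X (P * Y), (1 / (q : ℝ)) * (∫ u in (0 : ℝ)..Λ, Gq q u ^ 2) +
    C * (𝓛 + 1) * ((∫ u in (0 : ℝ)..Λ, Gq P u ^ 2) + Λ))) := by
  have hR := Rw_cont γ h0 hπ
  have hSc := SW_cont c C0 hS
  have hG := Gq_cont
  have hRS : Continuous (fun u : ℝ => Rw γ (u / Λ) * SW c u) :=
    (hR.comp (continuous_id.div_const Λ)).mul hSc
  set E : ℝ → ℝ := fun u => D1 * C * L * (u + 1) +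
    (T + C) * (C * ∑ q ∈ Finset.Ioc X (P * Y), (1 / (q : ℝ)) * Gq q u ^ 2 +
    C * (𝓛 + 1) * (Gq P u ^ 2 + 1)) with hE
  have hsum : Continuous (fun u : ℝ => ∑ q ∈ Finset.Ioc X (P * Y), (1 / (q : ℝ)) * Gq q u ^ 2) :=
    continuous_finsetSum _ (fun q _ => continuous_const.mul ((hG q).pow 2))
  have hGP := (hG P).pow 2
  have hEc : Continuous E := by
    rw [hE]; fun_prop
  have hE0 : ∀ u, 0 ≤ u → 0 ≤ E u := by
    intro u hu
    rw [hE]; positivity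
  have h1 : ∫ u in (0 : ℝ)..Λ, Rw γ (u / Λ) * YM c D1 T L C 𝓛 P X Y u ≤
      ∫ u in (0 : ℝ)..Λ, (D1 * (T / (2 * Real.pi)) * (Rw γ (u / Λ) * SW c u) + Rw γ 0 * E u) := by
    refine intervalIntegral.integral_mono_on hΛ.le ?_ ?_ (fun u hu => ?_)
    · exact ((hR.comp (continuous_id.div_const Λ)).mul (YM_cont c C0 hS _ _ _ _ _ _ _ _)).intervalIntegrable _ _
    · exact ((hRS.const_mul _).add (hEc.const_mul _)).intervalIntegrable _ _
    · have h2 : YM c D1 T L C 𝓛 P X Y u = D1 * (T / (2 * Real.pi)) * SW c u + E u := by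
        rw [hE]; unfold YM; ring
      rw [h2]
      have h3 : Rw γ (u / Λ) * E u ≤ Rw γ 0 * E u :=
        mul_le_mul_of_nonneg_right (Rw_le γ h0 hπ _ (div_nonneg hu.1 hΛ.le)) (hE0 u hu.1)
      nlinarith
  refine h1.trans (le_of_eq ?_)
  rw [intervalIntegral.integral_add ((hRS.const_mul _).intervalIntegrable _ _)
    ((hEc.const_mul _).intervalIntegrable _ _), intervalIntegral.integral_const_mul,
    intervalIntegral.integral_const_mul]
  congr 2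
  have i1 : IntervalIntegrable (fun u : ℝ => D1 * C * L * (u + 1)) volume 0 Λ :=
    (continuous_const.mul (continuous_id.add continuous_const)).intervalIntegrable _ _
  have i3 : IntervalIntegrable (fun u : ℝ => C * ∑ q ∈ Finset.Ioc X (P * Y), (1 / (q : ℝ)) * Gq q u ^ 2)
      volume 0 Λ := (hsum.const_mul _).intervalIntegrable _ _
  have hGP' : Continuous (fun u : ℝ => Gq P u ^ 2) := (hG P).pow 2
  have i4 : IntervalIntegrable (fun u : ℝ => C * (𝓛 + 1) * (Gq P u ^ 2 + 1)) volume 0 Λ :=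
    ((hGP'.add continuous_const).const_mul _).intervalIntegrable _ _
  have i2 : IntervalIntegrable (fun u : ℝ => (T + C) *
      (C * ∑ q ∈ Finset.Ioc X (P * Y), (1 / (q : ℝ)) * Gq q u ^ 2 +
        C * (𝓛 + 1) * (Gq P u ^ 2 + 1))) volume 0 Λ := (i3.add i4).const_mul _
  have e1 : ∫ u in (0 : ℝ)..Λ, D1 * C * L * (u + 1) = D1 * C * L * (Λ ^ 2 / 2 + Λ) := by
    have ii : IntervalIntegrable (fun u : ℝ => u) volume 0 Λ := continuous_id.intervalIntegrable _ _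
    rw [intervalIntegral.integral_const_mul, intervalIntegral.integral_add ii
      (continuous_const.intervalIntegrable _ _)]
    simp only [integral_id, intervalIntegral.integral_const, smul_eq_mul]
    ring
  have e3 : ∫ u in (0 : ℝ)..Λ, C * ∑ q ∈ Finset.Ioc X (P * Y), (1 / (q : ℝ)) * Gq q u ^ 2 =
      C * ∑ q ∈ Finset.Ioc X (P * Y), (1 / (q : ℝ)) * (∫ u in (0 : ℝ)..Λ, Gq q u ^ 2) := by
    rw [intervalIntegral.integral_const_mul, intervalIntegral.integral_finsetSum]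
    · congr 1
      exact Finset.sum_congr rfl (fun q _ => intervalIntegral.integral_const_mul _ _)
    · intro q _
      exact (continuous_const.mul ((hG q).pow 2)).intervalIntegrable _ _
  have e4 : ∫ u in (0 : ℝ)..Λ, C * (𝓛 + 1) * (Gq P u ^ 2 + 1) =
      C * (𝓛 + 1) * ((∫ u in (0 : ℝ)..Λ, Gq P u ^ 2) + Λ) := by
    rw [intervalIntegral.integral_const_mul, intervalIntegral.integral_add
      (hGP'.intervalIntegrable _ _) (continuous_const.intervalIntegrable _ _)]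
    simp
  have e2 : ∫ u in (0 : ℝ)..Λ, (T + C) *
      (C * ∑ q ∈ Finset.Ioc X (P * Y), (1 / (q : ℝ)) * Gq q u ^ 2 +
        C * (𝓛 + 1) * (Gq P u ^ 2 + 1)) = (T + C) *
      (C * ∑ q ∈ Finset.Ioc X (P * Y), (1 / (q : ℝ)) * (∫ u in (0 : ℝ)..Λ, Gq q u ^ 2) +
        C * (𝓛 + 1) * ((∫ u in (0 : ℝ)..Λ, Gq P u ^ 2) + Λ)) := by
    rw [intervalIntegral.integral_const_mul, intervalIntegral.integral_add i3 i4, e3, e4]
  rw [hE]
  rw [intervalIntegral.integral_add i1 i2, e1, e2]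

end H385
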