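import Pool.Agent.H385R2.NLA
import Pool.Agent.H385R2.FinDB2

open Complex Filter Topology Set MeasureTheory
open H370 (zset mult NN Nd Ns)

set_option maxHeartbeats 4000000

namespace H385

theorem HYM_stage1 (M : ℕ) (hM : Squarefree M) (d : ℝ) (hd : 1 ≤ d) (c : ℕ → ℂ)
    (hc : ∀ n, ‖c n‖ ≤ d) (C0 : ℝ) (hS : Selb c C0) (γ β : ℝ) (h0 : 0 < γ) (hπ : γ < Real.pi) (hβ : 0 < β) (hβ2 : β < 2) :
    HYM M c γ β (2 * β * (∫ α in (0 : ℝ)..1, α * Rw γ α)) := by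
  intro ε hε
  obtain ⟨ε1, hε1, hε1', hε1ε, hfin⟩ := YM_final M hM c C0 hS γ β h0 hπ hβ ε hε
  obtain ⟨C, P, hC, hP, hms⟩ := msD_int M hM d hd c hc C0 hS ε1 hε1 hε1'
  obtain ⟨K, L0, hK, hL0, hY⟩ := hfin C P hC hP
  obtain ⟨C4, hC4, hmass⟩ := prim_mass_M M hM
  obtain ⟨L1, hL1⟩ := Filter.eventually_atTop.mp (Tl_le_one β ε1 hβ hβ2 hε1 hε1')
  have hc0 := cM_pos M hM
  refine ⟨max K (Real.exp ((3 * C4 + C) / (ε1 * cM M))), 1, Real.exp (max (max L0 L1) 1),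
    le_max_of_le_left hK, one_pos, Real.one_le_exp (le_max_of_le_right zero_le_one), ?_⟩
  intro X Y T hX hKX hYX hT1 hT2
  have hXpos : (0 : ℝ) < X := lt_of_lt_of_le (Real.exp_pos _) hX
  have hX1 : 1 ≤ X := by exact_mod_cast hXpos
  have hLmax : max (max L0 L1) 1 ≤ Real.log X := by
    rw [Real.le_log_iff_exp_le hXpos]; exact hX
  have hLL0 : L0 ≤ Real.log X := ((le_max_left _ _).trans (le_max_left _ _)).trans hLmax
  have hLL1 : L1 ≤ Real.log X := ((le_max_right _ _).trans (le_max_left _ _)).trans hLmax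
  have hL1' : 1 ≤ Real.log X := (le_max_right _ _).trans hLmax
  have hXexp : Real.exp L0 ≤ X := by rwa [Real.le_log_iff_exp_le hXpos] at hLL0
  have hKX1 : K * X ≤ Y := (mul_le_mul_of_nonneg_right (le_max_left _ _) hXpos.le).trans hKX
  have hKX2 : Real.exp ((3 * C4 + C) / (ε1 * cM M)) * X ≤ Y :=
    (mul_le_mul_of_nonneg_right (le_max_right _ _) hXpos.le).trans hKX
  have hY2 : (Y : ℝ) ≤ (X : ℝ) ^ (2 : ℕ) := by
    refine hYX.trans (le_of_eq ?_)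
    rw [show (1 + 1 : ℝ) = ((2 : ℕ) : ℝ) by norm_num, Real.rpow_natCast]
  have hXYr : (X : ℝ) ≤ Y := NL.b11 hXpos.le hK hKX1
  have hXY : X ≤ Y := by exact_mod_cast hXYr
  have hYpos : (0 : ℝ) < Y := by linarith
  have hT1' : 1 ≤ T := (one_le_pow₀ hL1').trans hT1
  have hT2' : T ≤ Real.exp (Real.log X ^ 2) := by
    refine hT2.trans ?_
    rw [Real.rpow_one]
    calc (X : ℝ) = Real.exp (Real.log X) := (Real.exp_log hXpos).symm
      _ ≤ _ := Real.exp_le_exp.mpr (le_self_pow₀ hL1' two_ne_zero)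
  set 𝓛 : ℝ := Real.log ((Y : ℝ) / X) with h𝓛
  have h𝓛K : (3 * C4 + C) / (ε1 * cM M) ≤ 𝓛 := by
    rw [h𝓛, Real.le_log_iff_exp_le (by positivity), le_div_iff₀ hXpos]
    exact hKX2
  have hWlow := (abs_le.mp (hmass X Y hX1 hXY)).1
  have hWlow' : cM M * 𝓛 - C4 ≤ WM M X Y := by
    have : primFamM M X Y (fun _ _ => 1) = WM M X Y := rfl
    rw [this] at hWlow; linarith
  set N : ℕ := ⌊ε1 / 8 * (X : ℝ) ^ 2⌋₊ with hN
  set D1 : ℝ := (1 + ε1) * Real.exp (Real.pi * N / (X : ℝ) ^ 2) *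
        (cM M * (1 + ε1) * 𝓛 + C) with hD1
  have h𝓛n : 0 ≤ 𝓛 := le_trans (by positivity) h𝓛K
  have hD1n : 0 ≤ D1 := by positivity
  have hexp : Real.exp (Real.pi * N / (X : ℝ) ^ 2) ≤ 1 + ε1 := by
    have h1 : (N : ℝ) ≤ ε1 / 8 * (X : ℝ) ^ 2 := Nat.floor_le (by positivity)
    have h2 : Real.pi * N / (X : ℝ) ^ 2 ≤ ε1 / 2 := by
      rw [div_le_iff₀ (by positivity)]
      have h3 : Real.pi * N ≤ 4 * (ε1 / 8 * (X : ℝ) ^ 2) :=
        mul_le_mul Real.pi_lt_four.le h1 (by positivity) (by norm_num)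
      linarith
    refine (Real.exp_le_exp.mpr h2).trans ?_
    have h4 := Real.exp_bound_div_one_sub_of_interval (x := ε1 / 2) (by positivity) (by linarith)
    refine h4.trans ?_
    rw [div_le_iff₀ (by linarith)]
    exact NL.c1 hε1 hε1'
  have hD1W : D1 ≤ (1 + 11 * ε1) * WM M X Y := by
    have h1 : cM M * (1 + ε1) * 𝓛 + C ≤ (1 + 2 * ε1) * WM M X Y := by
      have h2 : 3 * C4 + C ≤ ε1 * cM M * 𝓛 := by
        rw [div_le_iff₀ (by positivity)] at h𝓛K; linarith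
      have h3 : (1 + 2 * ε1) * (cM M * 𝓛 - C4) ≤ (1 + 2 * ε1) * WM M X Y :=
        mul_le_mul_of_nonneg_left hWlow' (by linarith)
      have h4 : (1 + 2 * ε1) * (cM M * 𝓛 - C4) = cM M * (1 + ε1) * 𝓛 + ε1 * cM M * 𝓛 -
        (1 + 2 * ε1) * C4 := by ring
      have h5 : (1 + 2 * ε1) * C4 ≤ 3 * C4 := mul_le_mul_of_nonneg_right (by linarith) hC4.le
      linarith
    have hW0 : 0 ≤ WM M X Y := primFamM_nonneg _ _ _ _ (fun _ _ => zero_le_one)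
    have h6 : D1 ≤ (1 + ε1) * (1 + ε1) * ((1 + 2 * ε1) * WM M X Y) := by
      rw [hD1]
      refine mul_le_mul ?_ h1 (by positivity) (by positivity)
      exact mul_le_mul_of_nonneg_left hexp (by linarith)
    refine h6.trans ?_
    have h7 : (1 + ε1) * (1 + ε1) * (1 + 2 * ε1) ≤ 1 + 11 * ε1 := by
      have g1 : ε1 ^ 2 ≤ ε1 := pow_le_of_le_one hε1.le hε1' two_ne_zero
      have g2 : ε1 ^ 3 ≤ ε1 := pow_le_of_le_one hε1.le hε1' three_ne_zero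
      have g3 : (1 + ε1) * (1 + ε1) * (1 + 2 * ε1) = 1 + 4 * ε1 + 5 * ε1 ^ 2 + 2 * ε1 ^ 3 := by ring
      rw [g3]; linarith
    calc _ = ((1 + ε1) * (1 + ε1) * (1 + 2 * ε1)) * WM M X Y := by ring
      _ ≤ _ := mul_le_mul_of_nonneg_right h7 hW0
  obtain ⟨y1, y2, hy1, hy2, m2, m5, m4⟩ := hY X Y T D1 hXexp hKX1 hY2 hT1 hD1n hD1W
  refine ⟨YM c D1 T (Real.log X) C 𝓛 P X Y, y1, y2, hy1, hy2, ?_, m2,
    (YM_cont c C0 hS _ _ _ _ _ _ _ _).intervalIntegrable _ _, m4, m5⟩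
  intro u hu
  refine (hms X Y N T (Real.log X) u hX1 hXY hL1' hT1' hT2' hu.1).trans ?_
  rw [← h𝓛, ← hD1]
  unfold YM
  refine add_le_add le_rfl ?_
  refine mul_le_mul_of_nonneg_left ?_ (by positivity)
  unfold DD
  rw [← h𝓛]
  refine add_le_add le_rfl ?_
  refine mul_le_mul_of_nonneg_left ?_ (by positivity)
  have h1 := hL1 (Real.log X) hLL1 X u rfl hu.1 hu.2
  have h2 := Tl_nonneg N u
  have h3 : Tl N u ^ 2 ≤ 1 := by
    rw [hN] at h2 ⊢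
    exact pow_le_one₀ h2 h1
  linarith

end H385
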