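import Pool.Agent.H385R2.Defs

/-!
TEAM Q, module R5 (helper496): Gauss sums of primitive and induced characters.
-/

set_option autoImplicit false

open Complex Filter Topology Set MeasureTheory

namespace H385

namespace GaussAux

lemma ee_natCast_div (N : ℕ) (b : ℕ) :
    ee ((b : ℝ) / N) = cexp (2 * Real.pi * I * b / N) := by
  unfold ee
  congr 1
  push_cast
  ring

lemma sum_range_zmod (N : ℕ) [NeZero N] (f : ZMod N → ℂ) :
    ∑ b ∈ Finset.range N, f (b : ZMod N) = ∑ a : ZMod N, f a := by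
  symm
  refine Finset.sum_nbij' (fun a => a.val) (fun b => (b : ZMod N)) ?_ ?_ ?_ ?_ ?_
  · intro a _
    exact Finset.mem_range.mpr (ZMod.val_lt a)
  · intro b _
    exact Finset.mem_univ _
  · intro a _
    exact ZMod.natCast_zmod_val a
  · intro b hb
    exact ZMod.val_cast_of_lt (Finset.mem_range.mp hb)
  · intro a _
    rw [ZMod.natCast_zmod_val]

lemma stdAddChar_nat (N : ℕ) [NeZero N] (b : ℕ) :
    (ZMod.stdAddChar (b : ZMod N) : ℂ) = ee ((b : ℝ) / N) := by
  have := ZMod.stdAddChar_coe (N := N) (b : ℤ)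
  rw [Int.cast_natCast] at this
  rw [this, ee_natCast_div]
  push_cast
  rfl

lemma tau_eq_gaussSum (q : ℕ) [NeZero q] (χ : DirichletCharacter ℂ q) :
    tau q χ = gaussSum χ (ZMod.stdAddChar : AddChar (ZMod q) ℂ) := by
  unfold tau gaussSum
  rw [← sum_range_zmod]
  apply Finset.sum_congr rfl
  intro b _
  rw [stdAddChar_nat]

lemma sum_range_mul' (q n : ℕ) (f : ℕ → ℂ) :
    ∑ b ∈ Finset.range (q * n), f b = ∑ v ∈ Finset.range n, ∑ u ∈ Finset.range q, f (q * v + u) := by
  induction n with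
  | zero => simp
  | succ n ih =>
    rw [Nat.mul_succ, Finset.sum_range_add, ih, Finset.sum_range_succ]

lemma ee_add (x y : ℝ) : ee (x + y) = ee x * ee y := by
  unfold ee
  rw [← Complex.exp_add]
  congr 1
  push_cast
  ring

lemma sum_ee_eq_zero (n : ℕ) (hn : 1 < n) :
    ∑ v ∈ Finset.range n, ee ((v : ℝ) / n) = 0 := by
  have h1 := (Complex.isPrimitiveRoot_exp n (by omega)).geom_sum_eq_zero hn
  rw [← h1]
  apply Finset.sum_congr rfl
  intro v _
  rw [← Complex.exp_nat_mul, ee_natCast_div]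
  congr 1
  ring

/-- periodic coefficients: only `n = 1` survives -/
lemma periodic_sum (q n : ℕ) (hq : 1 ≤ q) (hn : 1 < n) (f : ℕ → ℂ)
    (hf : ∀ u v, f (q * v + u) = f u) :
    ∑ b ∈ Finset.range (q * n), f b * ee ((b : ℝ) / ((q * n : ℕ) : ℝ)) = 0 := by
  rw [sum_range_mul', Finset.sum_comm]
  apply Finset.sum_eq_zero
  intro u _
  have hq0 : (q : ℝ) ≠ 0 := by positivity
  have hn0 : (n : ℝ) ≠ 0 := by positivity
  have h1 : ∀ v ∈ Finset.range n, f (q * v + u) * ee (((q * v + u : ℕ) : ℝ) / ((q * n : ℕ) : ℝ)) =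
      (f u * ee ((u : ℝ) / ((q * n : ℕ) : ℝ))) * ee ((v : ℝ) / n) := by
    intro v _
    rw [hf, mul_assoc, ← ee_add]
    congr 2
    push_cast
    field_simp
    ring
  rw [Finset.sum_congr rfl h1, ← Finset.mul_sum, sum_ee_eq_zero n hn, mul_zero]

lemma sum_moebius_gcd (b k : ℕ) (hk : k ≠ 0) :
    ∑ d ∈ k.divisors.filter (fun d => d ∣ b), ((ArithmeticFunction.moebius d : ℤ) : ℂ) =
      if Nat.Coprime b k then 1 else 0 := by
  have h1 : k.divisors.filter (fun d => d ∣ b) = (Nat.gcd b k).divisors := by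
    ext d
    simp only [Finset.mem_filter, Nat.mem_divisors, ne_eq, Nat.gcd_eq_zero_iff]
    constructor
    · rintro ⟨⟨h1, h2⟩, h3⟩
      exact ⟨Nat.dvd_gcd h3 h1, fun h => h2 h.2⟩
    · rintro ⟨h1, h2⟩
      exact ⟨⟨h1.trans (Nat.gcd_dvd_right b k), hk⟩, h1.trans (Nat.gcd_dvd_left b k)⟩
  rw [h1]
  have h2 : ((ArithmeticFunction.moebius * (ArithmeticFunction.zeta : ArithmeticFunction ℤ)) :
      ArithmeticFunction ℤ) (Nat.gcd b k) = (1 : ArithmeticFunction ℤ) (Nat.gcd b k) := by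
    rw [ArithmeticFunction.moebius_mul_coe_zeta]
  rw [ArithmeticFunction.coe_mul_zeta_apply, ArithmeticFunction.one_apply] at h2
  have h3 := congrArg (fun z : ℤ => (z : ℂ)) h2
  simp only [Int.cast_sum] at h3
  rw [h3]
  unfold Nat.Coprime
  split_ifs <;> simp

lemma changeLevel_apply (q k : ℕ) [NeZero q] (hk : k ≠ 0) (ψ : DirichletCharacter ℂ q) (b : ℕ) :
    DirichletCharacter.changeLevel (Dvd.intro k rfl : q ∣ q * k) ψ (b : ZMod (q * k)) =
      (if Nat.Coprime b k then 1 else 0) * ψ (b : ZMod q) := by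
  by_cases hb : Nat.Coprime b (q * k)
  · have h1 : IsUnit (b : ZMod (q * k)) := (ZMod.isUnit_iff_coprime b (q * k)).mpr hb
    obtain ⟨u, hu⟩ := h1
    have h2 := DirichletCharacter.changeLevel_eq_cast_of_dvd ψ (Dvd.intro k rfl : q ∣ q * k) u
    rw [← hu, h2, hu, if_pos (Nat.Coprime.coprime_mul_left_right hb), one_mul]
    congr 1
    exact ZMod.cast_natCast (Dvd.intro k rfl) b
  · have h1 : ¬ IsUnit (b : ZMod (q * k)) := by
      rw [ZMod.isUnit_iff_coprime]
      exact hb
    rw [MulChar.map_nonunit _ h1]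
    by_cases hbk : Nat.Coprime b k
    · have hbq : ¬ Nat.Coprime b q := by
        intro h
        exact hb (Nat.Coprime.mul_right h hbk)
      have h2 : ¬ IsUnit (b : ZMod q) := by
        rw [ZMod.isUnit_iff_coprime]
        exact hbq
      rw [MulChar.map_nonunit _ h2, mul_zero]
    · rw [if_neg hbk, zero_mul]

lemma tau_changeLevel (q k : ℕ) [NeZero q] (hk : k ≠ 0) (ψ : DirichletCharacter ℂ q) :
    tau (q * k) (DirichletCharacter.changeLevel (Dvd.intro k rfl) ψ) =
      (ArithmeticFunction.moebius k : ℤ) * ψ (k : ZMod q) * tau q ψ := by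
  have hq : 1 ≤ q := Nat.one_le_iff_ne_zero.mpr (NeZero.ne q)
  unfold tau
  have h1 : ∀ b ∈ Finset.range (q * k),
      DirichletCharacter.changeLevel (Dvd.intro k rfl : q ∣ q * k) ψ (b : ZMod (q * k)) *
        ee ((b : ℝ) / ((q * k : ℕ) : ℝ)) =
      ∑ d ∈ k.divisors, if d ∣ b then ((ArithmeticFunction.moebius d : ℤ) : ℂ) *
        (ψ (b : ZMod q) * ee ((b : ℝ) / ((q * k : ℕ) : ℝ))) else 0 := by
    intro b _
    rw [changeLevel_apply q k hk ψ b, ← sum_moebius_gcd b k hk, ← Finset.sum_filter,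
      ← Finset.sum_mul, mul_assoc]
  rw [Finset.sum_congr rfl h1, Finset.sum_comm]
  have h2 : ∀ d ∈ k.divisors, (∑ b ∈ Finset.range (q * k), if d ∣ b then
        ((ArithmeticFunction.moebius d : ℤ) : ℂ) *
        (ψ (b : ZMod q) * ee ((b : ℝ) / ((q * k : ℕ) : ℝ))) else 0) =
      ((ArithmeticFunction.moebius d : ℤ) : ℂ) * (ψ (d : ZMod q) *
        ∑ b ∈ Finset.range (q * (k / d)), ψ (b : ZMod q) * ee ((b : ℝ) / ((q * (k / d) : ℕ) : ℝ))) := by
    intro d hd
    rw [Nat.mem_divisors] at hd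
    obtain ⟨⟨e, rfl⟩, _⟩ := hd
    have hd0 : d ≠ 0 := by
      rintro rfl
      simp at hk
    have he0 : e ≠ 0 := by
      rintro rfl
      simp at hk
    rw [Nat.mul_div_cancel_left e (Nat.pos_of_ne_zero hd0), ← Finset.sum_filter, Finset.mul_sum,
      Finset.mul_sum]
    refine Finset.sum_nbij' (fun b => b / d) (fun b => d * b) ?_ ?_ ?_ ?_ ?_
    · intro b hb
      rw [Finset.mem_filter, Finset.mem_range] at hb
      rw [Finset.mem_range]
      apply Nat.div_lt_of_lt_mul
      calc b < q * (d * e) := hb.1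
        _ = d * (q * e) := by ring
    · intro b hb
      rw [Finset.mem_range] at hb
      rw [Finset.mem_filter, Finset.mem_range]
      refine ⟨?_, dvd_mul_right d b⟩
      calc d * b < d * (q * e) := Nat.mul_lt_mul_of_pos_left hb (Nat.pos_of_ne_zero hd0)
        _ = q * (d * e) := by ring
    · intro b hb
      rw [Finset.mem_filter] at hb
      exact Nat.mul_div_cancel' hb.2
    · intro b _
      exact Nat.mul_div_cancel_left b (Nat.pos_of_ne_zero hd0)
    · intro b hb
      rw [Finset.mem_filter] at hb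
      obtain ⟨_, c, rfl⟩ := hb
      rw [Nat.mul_div_cancel_left c (Nat.pos_of_ne_zero hd0)]
      have h3 : ψ ((d * c : ℕ) : ZMod q) = ψ (d : ZMod q) * ψ (c : ZMod q) := by
        rw [Nat.cast_mul, map_mul]
      have h4 : ((d * c : ℕ) : ℝ) / ((q * (d * e) : ℕ) : ℝ) = (c : ℝ) / ((q * e : ℕ) : ℝ) := by
        have hd1 : (d : ℝ) ≠ 0 := by exact_mod_cast hd0
        have he1 : (e : ℝ) ≠ 0 := by exact_mod_cast he0
        have hq1 : (q : ℝ) ≠ 0 := by positivity
        push_cast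
        field_simp
      rw [h3, h4]
      ring
  rw [Finset.sum_congr rfl h2, Finset.sum_eq_single k]
  · rw [Nat.div_self (Nat.pos_of_ne_zero hk), mul_one]
    ring
  · intro d hd hdk
    rw [Nat.mem_divisors] at hd
    have h3 : 1 < k / d := by
      obtain ⟨⟨e, rfl⟩, _⟩ := hd
      have hd0 : 0 < d := by
        rcases Nat.eq_zero_or_pos d with rfl | h
        · simp at hk
        · exact h
      rw [Nat.mul_div_cancel_left e hd0]
      rcases Nat.lt_or_ge 1 e with h | h
      · exact h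
      · exfalso
        interval_cases e
        · simp at hk
        · simp at hdk
    rw [periodic_sum q (k / d) hq h3 (fun b => ψ (b : ZMod q))]
    · simp
    · intro u v
      simp
  · intro h
    exact absurd (Nat.mem_divisors.mpr ⟨dvd_rfl, hk⟩) h

/-! The next four lemmas are taken from the Starting point file `Helper112/MultLS.lean`. -/

lemma parseval (f : ℕ) [NeZero f] (Φ : ZMod f → ℂ) :
    ∑ n : ZMod f, ‖∑ a : ZMod f, Φ a * ZMod.stdAddChar (n * a)‖ ^ 2 =
      f * ∑ a : ZMod f, ‖Φ a‖ ^ 2 := by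
  have key : ∑ n : ZMod f, (∑ a : ZMod f, Φ a * ZMod.stdAddChar (n * a)) *
      (starRingEnd ℂ) (∑ a : ZMod f, Φ a * ZMod.stdAddChar (n * a)) =
      f * ∑ a : ZMod f, Φ a * (starRingEnd ℂ) (Φ a) := by
    simp_rw [map_sum, Finset.sum_mul_sum]
    rw [Finset.sum_comm]
    rw [Finset.mul_sum]
    apply Finset.sum_congr rfl
    intro a _
    rw [Finset.sum_comm]
    have h1 : ∀ b : ZMod f, ∑ n : ZMod f, Φ a * ZMod.stdAddChar (n * a) *
        (starRingEnd ℂ) (Φ b * ZMod.stdAddChar (n * b)) =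
        Φ a * (starRingEnd ℂ) (Φ b) * if a = b then (f : ℂ) else 0 := by
      intro b
      have h2 : ∀ n : ZMod f, Φ a * ZMod.stdAddChar (n * a) *
        (starRingEnd ℂ) (Φ b * ZMod.stdAddChar (n * b)) =
        Φ a * (starRingEnd ℂ) (Φ b) * ZMod.stdAddChar (n * (a - b)) := by
        intro n
        rw [(starRingEnd ℂ).map_mul, ← AddChar.map_neg_eq_conj, mul_sub, sub_eq_add_neg,
          AddChar.map_add_eq_mul]
        ring
      simp_rw [h2]
      rw [← Finset.mul_sum, AddChar.sum_mulShift (a - b) (ZMod.isPrimitive_stdAddChar f)]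
      simp [sub_eq_zero]
    simp_rw [h1]
    simp
    ring
  have e1 : ∀ z : ℂ, z * (starRingEnd ℂ) z = ((‖z‖ ^ 2 : ℝ) : ℂ) := by
    intro z
    rw [Complex.mul_conj, Complex.normSq_eq_norm_sq]
  simp_rw [e1] at key
  exact_mod_cast key

lemma norm_char (f : ℕ) [NeZero f] (χ : DirichletCharacter ℂ f) (a : ZMod f) :
    ‖χ a‖ = if IsUnit a then 1 else 0 := by
  split_ifs with h
  · obtain ⟨u, rfl⟩ := h
    exact χ.unit_norm_eq_one u
  · rw [χ.map_nonunit h, norm_zero]

lemma sum_norm_char (f : ℕ) [NeZero f] (χ : DirichletCharacter ℂ f) :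
    ∑ a : ZMod f, ‖χ a‖ ^ 2 = Nat.totient f := by
  classical
  simp_rw [norm_char]
  have : ∀ a : ZMod f, ((if IsUnit a then (1:ℝ) else 0) ^ 2) = if IsUnit a then 1 else 0 := by
    intro a; split_ifs <;> simp
  simp_rw [this]
  rw [Finset.sum_boole, ← ZMod.card_units_eq_totient f]
  congr 1
  symm
  apply Finset.card_bij (fun (a : (ZMod f)ˣ) _ => (a : ZMod f))
  · intro a _; simp
  · intro a _ b _ hab; exact Units.ext hab
  · intro b hb
    rw [Finset.mem_filter] at hb
    exact ⟨hb.2.unit, Finset.mem_univ _, rfl⟩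

lemma norm_sq_gaussSum {f : ℕ} [NeZero f] {χ : DirichletCharacter ℂ f} (hχ : χ.IsPrimitive) :
    ‖gaussSum χ (ZMod.stdAddChar : AddChar (ZMod f) ℂ)‖ ^ 2 = f := by
  have h := parseval f (fun a => χ a)
  rw [sum_norm_char] at h
  have h1 : ∀ n : ZMod f, ∑ a : ZMod f, χ a * ZMod.stdAddChar (n * a) =
      χ⁻¹ n * gaussSum χ (ZMod.stdAddChar : AddChar (ZMod f) ℂ) := by
    intro n
    rw [← gaussSum_mulShift_of_isPrimitive _ hχ n]
    rfl
  simp_rw [h1, norm_mul, mul_pow] at h
  rw [← Finset.sum_mul, sum_norm_char, mul_comm] at h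
  have h0 : (Nat.totient f : ℝ) ≠ 0 := by
    have := Nat.totient_pos.mpr (NeZero.pos f)
    positivity
  exact mul_right_cancel₀ h0 h

end GaussAux

open GaussAux

theorem tau_primitive (q : ℕ) [NeZero q] (ψ : DirichletCharacter ℂ q) (h : ψ.IsPrimitive) :
    ‖tau q ψ‖ ^ 2 = q := by
  rw [tau_eq_gaussSum]
  exact norm_sq_gaussSum h

theorem tau_induced (q k : ℕ) [NeZero q] (hk : Squarefree k) (hqk : Nat.Coprime q k)
    (ψ : DirichletCharacter ℂ q) (h : ψ.IsPrimitive) :
    ‖tau (q * k) (DirichletCharacter.changeLevel (Dvd.intro k rfl) ψ)‖ ^ 2 = q := by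
  have hk0 : k ≠ 0 := hk.ne_zero
  rw [tau_changeLevel q k hk0 ψ, norm_mul, norm_mul, mul_pow, tau_primitive q ψ h]
  have h1 : ‖((ArithmeticFunction.moebius k : ℤ) : ℂ)‖ = 1 := by
    rcases ArithmeticFunction.moebius_eq_or k with h | h | h
    · exact absurd h (ArithmeticFunction.moebius_ne_zero_iff_squarefree.mpr hk)
    · rw [h]; simp
    · rw [h]; simp
  have h2 : ‖ψ (k : ZMod q)‖ = 1 := by
    have h3 : IsUnit (k : ZMod q) := (ZMod.isUnit_iff_coprime k q).mpr hqk.symm
    obtain ⟨u, hu⟩ := h3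
    rw [← hu]
    exact DirichletCharacter.unit_norm_eq_one ψ u
  rw [h1, h2]
  simp

end H385
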