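import Pool.Agent.H385R2.FLSP
import Pool.Agent.H385R2.Char
import Pool.Agent.H385R2.Gauss

/-!
TEAM Q, module R6 : large sieve for primitive characters with the flat weight `q⁻²`.
-/

set_option autoImplicit false

open Complex Filter Topology Set MeasureTheory

namespace H385

namespace Flat

/-- the inner sum over primitive characters mod `q` -/
noncomputable def PS (N : ℕ) (b : ℕ → ℂ) (q : ℕ) : ℝ :=
  ∑ᶠ χ : {χ : DirichletCharacter ℂ q // χ.IsPrimitive},
    ‖∑ n ∈ Finset.Icc 1 N, b n * (χ : DirichletCharacter ℂ q) (n : ZMod q)‖ ^ 2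

lemma PS_nonneg (N : ℕ) (b : ℕ → ℂ) (q : ℕ) : 0 ≤ PS N b q := by
  unfold PS
  exact finsum_nonneg (fun _ => by positivity)

open Classical in
lemma PS_eq (N : ℕ) (b : ℕ → ℂ) (q : ℕ) [NeZero q] :
    PS N b q = ∑ χ ∈ (Finset.univ : Finset (DirichletCharacter ℂ q)).filter
      (fun χ => χ.IsPrimitive), ‖∑ n ∈ Finset.Icc 1 N, b n * χ (n : ZMod q)‖ ^ 2 := by
  unfold PS
  rw [finsum_eq_sum_of_fintype]
  symm
  apply Finset.sum_subtype
  intro χ
  simp

/-- the quantity on the character side -/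
noncomputable def GG (N : ℕ) (b : ℕ → ℂ) (q : ℕ) (χ : DirichletCharacter ℂ q) : ℝ :=
  ‖tau q χ‖ ^ 2 * ‖∑ n ∈ Finset.Icc 1 N, b n * χ (n : ZMod q)‖ ^ 2

lemma GG_nonneg (N : ℕ) (b : ℕ → ℂ) (q : ℕ) (χ : DirichletCharacter ℂ q) : 0 ≤ GG N b q χ := by
  unfold GG; positivity

open Classical in
lemma lemA (q k q' : ℕ) [NeZero q] [NeZero q'] (h : q * k = q') (hk : Squarefree k)
    (hqk : Nat.Coprime q k) (N : ℕ) (b : ℕ → ℂ) (hb : ∀ n, ¬ Nat.Coprime n k → b n = 0) :
    (q : ℝ) * PS N b q ≤ ∑ χ ∈ (Finset.univ : Finset (DirichletCharacter ℂ q')).filter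
      (fun χ => χ.conductor = q), GG N b q' χ := by
  subst h
  have hk0 : k ≠ 0 := hk.ne_zero
  rw [PS_eq, Finset.mul_sum]
  have h1 : ∀ ψ ∈ (Finset.univ : Finset (DirichletCharacter ℂ q)).filter
      (fun χ => χ.IsPrimitive), (q : ℝ) * ‖∑ n ∈ Finset.Icc 1 N, b n * ψ (n : ZMod q)‖ ^ 2 =
      GG N b (q * k) (DirichletCharacter.changeLevel (Dvd.intro k rfl) ψ) := by
    intro ψ hψ
    rw [Finset.mem_filter] at hψ
    unfold GG
    rw [tau_induced q k hk hqk ψ hψ.2]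
    congr 3
    apply Finset.sum_congr rfl
    intro n _
    rw [GaussAux.changeLevel_apply q k hk0 ψ n]
    by_cases hn : Nat.Coprime n k
    · rw [if_pos hn, one_mul]
    · rw [hb n hn]; ring
  rw [Finset.sum_congr rfl h1]
  have hinj : Function.Injective
      (DirichletCharacter.changeLevel (R := ℂ) (Dvd.intro k rfl : q ∣ q * k)) :=
    DirichletCharacter.changeLevel_injective _
  rw [← Finset.sum_image (f := fun χ => GG N b (q * k) χ)
    (g := fun ψ : DirichletCharacter ℂ q =>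
      DirichletCharacter.changeLevel (Dvd.intro k rfl : q ∣ q * k) ψ)
    (fun x _ y _ hxy => hinj hxy)]
  apply Finset.sum_le_sum_of_subset_of_nonneg
  · intro χ hχ
    rw [Finset.mem_image] at hχ
    obtain ⟨ψ, hψ, rfl⟩ := hχ
    rw [Finset.mem_filter] at hψ ⊢
    refine ⟨Finset.mem_univ _, ?_⟩
    rw [DirichletCharacter.conductor_changeLevel]
    exact hψ.2
  · intro χ _ _
    exact GG_nonneg _ _ _ _

/-- product of a set of primes -/
def pr (T : Finset ℕ) : ℕ := ∏ p ∈ T, p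

lemma pr_sqf {P : ℕ} (hP : Squarefree P) {T : Finset ℕ} (hT : T ⊆ P.primeFactors) :
    Squarefree (pr T) := by
  have h1 : (∏ p ∈ T, p) ∣ ∏ p ∈ P.primeFactors, p := Finset.prod_dvd_prod_of_subset _ _ _ hT
  exact hP.squarefree_of_dvd (h1.trans (Nat.prod_primeFactors_dvd P))

lemma pr_dvd {P : ℕ} {T : Finset ℕ} (hT : T ⊆ P.primeFactors) : pr T ∣ P := by
  have h1 : (∏ p ∈ T, p) ∣ ∏ p ∈ P.primeFactors, p := Finset.prod_dvd_prod_of_subset _ _ _ hT
  exact h1.trans (Nat.prod_primeFactors_dvd P)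

lemma pr_primeFactors {P : ℕ} {T : Finset ℕ} (hT : T ⊆ P.primeFactors) :
    (pr T).primeFactors = T :=
  Nat.primeFactors_prod (fun _ hp => Nat.prime_of_mem_primeFactors (hT hp))

lemma pr_pos {P : ℕ} {T : Finset ℕ} (hT : T ⊆ P.primeFactors) : 0 < pr T :=
  Finset.prod_pos (fun _ hp => (Nat.prime_of_mem_primeFactors (hT hp)).pos)

/-- the sets `T` with `∏ T` an exact unitary divisor of `q'` -/
def UT (P q' : ℕ) : Finset (Finset ℕ) :=
  P.primeFactors.powerset.filter (fun T => pr T ∣ q' ∧ Nat.Coprime (q' / pr T) (pr T))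

lemma lemB (P : ℕ) (hP : Squarefree P) (q' : ℕ) [NeZero q'] (N : ℕ) (b : ℕ → ℂ)
    (hb : ∀ n, ¬ Nat.Coprime n P → b n = 0) :
    ∑ T ∈ UT P q', ((q' / pr T : ℕ) : ℝ) * PS N b (q' / pr T) ≤
      ∑ᶠ χ : DirichletCharacter ℂ q', GG N b q' χ := by
  classical
  rw [finsum_eq_sum_of_fintype]
  calc ∑ T ∈ UT P q', ((q' / pr T : ℕ) : ℝ) * PS N b (q' / pr T)
      ≤ ∑ T ∈ UT P q', ∑ χ ∈ (Finset.univ : Finset (DirichletCharacter ℂ q')).filter
          (fun χ => χ.conductor = q' / pr T), GG N b q' χ := by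
        apply Finset.sum_le_sum
        intro T hT
        unfold UT at hT
        rw [Finset.mem_filter, Finset.mem_powerset] at hT
        obtain ⟨hTP, hd, hc⟩ := hT
        have hq : q' / pr T * pr T = q' := Nat.div_mul_cancel hd
        have : NeZero (q' / pr T) := ⟨by
          intro h0
          rw [h0, zero_mul] at hq
          exact NeZero.ne q' hq.symm⟩
        exact lemA _ _ _ hq (pr_sqf hP hTP) hc N b (fun n hn => hb n (fun h =>
          hn (Nat.Coprime.coprime_dvd_right (pr_dvd hTP) h)))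
    _ = ∑ χ : DirichletCharacter ℂ q',
          ∑ T ∈ UT P q', (if χ.conductor = q' / pr T then GG N b q' χ else 0) := by
        simp_rw [Finset.sum_filter]
        rw [Finset.sum_comm]
    _ ≤ ∑ χ : DirichletCharacter ℂ q', GG N b q' χ := by
        apply Finset.sum_le_sum
        intro χ _
        rw [← Finset.sum_filter, Finset.sum_const, nsmul_eq_mul]
        have hcard : ((UT P q').filter (fun T => χ.conductor = q' / pr T)).card ≤ 1 := by
          rw [Finset.card_le_one]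
          intro T1 h1 T2 h2
          unfold UT at h1 h2
          rw [Finset.mem_filter, Finset.mem_filter, Finset.mem_powerset] at h1 h2
          obtain ⟨⟨hT1, hd1, _⟩, he1⟩ := h1
          obtain ⟨⟨hT2, hd2, _⟩, he2⟩ := h2
          have h3 : q' / pr T1 = q' / pr T2 := he1.symm.trans he2
          have h4 : pr T1 = pr T2 := by
            have hq1 : q' / pr T1 * pr T1 = q' := Nat.div_mul_cancel hd1
            have hq2 : q' / pr T2 * pr T2 = q' := Nat.div_mul_cancel hd2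
            have hpos : 0 < q' / pr T2 := by
              rcases Nat.eq_zero_or_pos (q' / pr T2) with h0 | h0
              · rw [h0, zero_mul] at hq2
                exact absurd hq2.symm (NeZero.ne q')
              · exact h0
            rw [h3] at hq1
            exact Nat.eq_of_mul_eq_mul_left hpos (hq1.trans hq2.symm)
          rw [← pr_primeFactors hT1, ← pr_primeFactors hT2, h4]
        have hc' : (((UT P q').filter (fun T => χ.conductor = q' / pr T)).card : ℝ) ≤ 1 := by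
          exact_mod_cast hcard
        have := mul_le_mul_of_nonneg_right hc' (GG_nonneg N b q' χ)
        linarith

lemma SS_norm_le (N : ℕ) (a : ℕ → ℂ) (θ : ℝ) : ‖SS N a θ‖ ≤ ∑ n ∈ Finset.Icc 1 N, ‖a n‖ := by
  unfold SS
  refine (norm_sum_le _ _).trans (le_of_eq ?_)
  apply Finset.sum_congr rfl
  intro n _
  rw [norm_mul, ee_norm, mul_one]

/-- the non-coprime part -/
noncomputable def EB (N : ℕ) (b : ℕ → ℂ) (q : ℕ) : ℝ :=
  ∑ n ∈ (Finset.Icc 1 N).filter (fun n => ¬ Nat.Coprime n q), ‖b n‖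

lemma EB_nonneg (N : ℕ) (b : ℕ → ℂ) (q : ℕ) : 0 ≤ EB N b q :=
  Finset.sum_nonneg (fun _ _ => norm_nonneg _)

lemma SS_cop (N : ℕ) (b : ℕ → ℂ) (q : ℕ) (θ ε : ℝ) (hε : 0 < ε) (hε1 : ε ≤ 1) :
    ‖SS N (fun n => if Nat.Coprime n q then b n else 0) θ‖ ^ 2 ≤
      (1 + ε) * ‖SS N b θ‖ ^ 2 + 2 / ε * EB N b q ^ 2 := by
  have h1 : SS N (fun n => if Nat.Coprime n q then b n else 0) θ =
      SS N b θ - SS N (fun n => if Nat.Coprime n q then 0 else b n) θ := by
    unfold SS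
    rw [← Finset.sum_sub_distrib]
    apply Finset.sum_congr rfl
    intro n _
    simp only
    split_ifs <;> ring
  have h2 : ‖SS N (fun n => if Nat.Coprime n q then 0 else b n) θ‖ ≤ EB N b q := by
    refine (SS_norm_le _ _ _).trans (le_of_eq ?_)
    unfold EB
    rw [Finset.sum_filter]
    apply Finset.sum_congr rfl
    intro n _
    split_ifs with h <;> simp
  set x := ‖SS N b θ‖
  set y := ‖SS N (fun n => if Nat.Coprime n q then 0 else b n) θ‖
  have h3 : ‖SS N (fun n => if Nat.Coprime n q then b n else 0) θ‖ ≤ x + y := by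
    rw [h1]; exact norm_sub_le _ _
  have hx : 0 ≤ x := norm_nonneg _
  have hy : 0 ≤ y := norm_nonneg _
  have h4 : ‖SS N (fun n => if Nat.Coprime n q then b n else 0) θ‖ ^ 2 ≤ (x + y) ^ 2 :=
    pow_le_pow_left₀ (norm_nonneg _) h3 2
  have h5 : (x + y) ^ 2 ≤ (1 + ε) * x ^ 2 + (1 + 1 / ε) * y ^ 2 := by
    have h6 : 0 ≤ (ε * x - y) ^ 2 / ε := by positivity
    have h7 : (ε * x - y) ^ 2 / ε = ε * x ^ 2 - 2 * x * y + 1 / ε * y ^ 2 := by
      field_simp
      ring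
    nlinarith
  have h6 : (1 + 1 / ε) ≤ 2 / ε := by
    have h61 : 1 ≤ 1 / ε := by rw [le_div_iff₀ hε]; linarith
    have h62 : 2 / ε = 1 / ε + 1 / ε := by ring
    linarith
  have h7 : y ^ 2 ≤ EB N b q ^ 2 := pow_le_pow_left₀ hy h2 2
  have h8 : (1 + 1 / ε) * y ^ 2 ≤ 2 / ε * EB N b q ^ 2 := by
    apply mul_le_mul h6 h7 (by positivity) (by positivity)
  linarith

/-- inequality for one modulus -/
lemma lemC (P : ℕ) (hP : Squarefree P) (q' : ℕ) (hq' : 1 ≤ q') (N : ℕ) (b : ℕ → ℂ)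
    (hb : ∀ n, ¬ Nat.Coprime n P → b n = 0) (ε : ℝ) (hε : 0 < ε) (hε1 : ε ≤ 1) :
    ∑ T ∈ UT P q', (1 / (Nat.totient q' : ℝ)) * (((q' / pr T : ℕ) : ℝ) * PS N b (q' / pr T)) ≤
      (1 + ε) * ∑ b' ∈ (Finset.range q').filter (fun b' => Nat.Coprime b' q'),
        ‖SS N b ((b' : ℝ) / q')‖ ^ 2 + 2 / ε * (Nat.totient q' : ℝ) * EB N b q' ^ 2 := by
  have : NeZero q' := ⟨by omega⟩
  have hφ : (0 : ℝ) < Nat.totient q' := by exact_mod_cast Nat.totient_pos.mpr (by omega)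
  set a' : ℕ → ℂ := fun n => if Nat.Coprime n q' then b n else 0 with ha'
  have h1 := char_farey q' N a' (fun n hn => if_neg hn)
  have h2 : ∀ χ : DirichletCharacter ℂ q', ∑ n ∈ Finset.Icc 1 N, a' n * χ (n : ZMod q') =
      ∑ n ∈ Finset.Icc 1 N, b n * χ (n : ZMod q') := by
    intro χ
    apply Finset.sum_congr rfl
    intro n _
    simp only [ha']
    by_cases hn : Nat.Coprime n q'
    · rw [if_pos hn]
    · rw [if_neg hn]
      have h3 : ¬ IsUnit (n : ZMod q') := by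
        rw [ZMod.isUnit_iff_coprime]; exact hn
      rw [MulChar.map_nonunit _ h3]; ring
  simp_rw [h2] at h1
  rw [← Finset.mul_sum]
  have h3 := lemB P hP q' N b hb
  unfold GG at h3
  rw [h1] at h3
  have h4 : (1 / (Nat.totient q' : ℝ)) * ∑ T ∈ UT P q', (((q' / pr T : ℕ) : ℝ) * PS N b (q' / pr T))
      ≤ ∑ b' ∈ (Finset.range q').filter (fun b' => Nat.Coprime b' q'),
          ‖SS N a' ((b' : ℝ) / q')‖ ^ 2 := by
    rw [one_div, inv_mul_le_iff₀ hφ]
    exact h3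
  refine h4.trans ?_
  have h5 : ∑ b' ∈ (Finset.range q').filter (fun b' => Nat.Coprime b' q'),
          ‖SS N a' ((b' : ℝ) / q')‖ ^ 2 ≤
      ∑ b' ∈ (Finset.range q').filter (fun b' => Nat.Coprime b' q'),
        ((1 + ε) * ‖SS N b ((b' : ℝ) / q')‖ ^ 2 + 2 / ε * EB N b q' ^ 2) := by
    apply Finset.sum_le_sum
    intro b' _
    exact SS_cop N b q' _ ε hε hε1
  refine h5.trans (le_of_eq ?_)
  rw [Finset.sum_add_distrib, ← Finset.mul_sum, Finset.sum_const, nsmul_eq_mul]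
  have h6 : ((Finset.range q').filter (fun b' => Nat.Coprime b' q')).card = Nat.totient q' := by
    rw [Nat.totient_eq_card_coprime]
    congr 1
    apply Finset.filter_congr
    intro x _
    exact Nat.coprime_comm
  rw [h6]
  ring

lemma tot_pr (T : Finset ℕ) (hT : ∀ p ∈ T, p.Prime) :
    (Nat.totient (pr T) : ℝ) = ∏ p ∈ T, ((p : ℝ) - 1) := by
  classical
  induction T using Finset.induction_on with
  | empty => simp [pr]
  | insert p T hp ih =>
    have hpp : p.Prime := hT p (Finset.mem_insert_self p T)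
    have hT' : ∀ r ∈ T, r.Prime := fun r hr => hT r (Finset.mem_insert_of_mem hr)
    have h1 : pr (insert p T) = p * pr T := by
      unfold pr; rw [Finset.prod_insert hp]
    have h2 : Nat.Coprime p (pr T) := by
      unfold pr
      rw [Nat.coprime_prod_right_iff]
      intro r hr
      rw [Nat.coprime_primes hpp (hT' r hr)]
      rintro rfl
      exact hp hr
    rw [h1, Nat.totient_mul h2, Nat.totient_prime hpp, Finset.prod_insert hp, Nat.cast_mul,
      ih hT', Nat.cast_sub hpp.one_lt.le, Nat.cast_one]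

lemma hP_mul (P q : ℕ) (T : Finset ℕ) (hT : T ⊆ P.primeFactors.filter (fun p => ¬ p ∣ q)) :
    hP P (q * pr T) = hP P q * ∏ p ∈ T, hp p := by
  classical
  have hTP : T ⊆ P.primeFactors := hT.trans (Finset.filter_subset _ _)
  have h1 : P.primeFactors.filter (fun p => p ∣ q * pr T) =
      P.primeFactors.filter (fun p => p ∣ q) ∪ T := by
    ext p
    rw [Finset.mem_union, Finset.mem_filter, Finset.mem_filter]
    constructor
    · rintro ⟨hp, hd⟩
      have hpp := Nat.prime_of_mem_primeFactors hp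
      rcases (hpp.dvd_mul).mp hd with h | h
      · exact Or.inl ⟨hp, h⟩
      · right
        have : p ∈ (pr T).primeFactors := Nat.mem_primeFactors.mpr ⟨hpp, h, (pr_pos hTP).ne'⟩
        rwa [pr_primeFactors hTP] at this
    · rintro (⟨hp, hd⟩ | hp)
      · exact ⟨hp, Dvd.dvd.mul_right hd _⟩
      · exact ⟨hTP hp, Dvd.dvd.mul_left (Finset.dvd_prod_of_mem _ hp) _⟩
  have h2 : Disjoint (P.primeFactors.filter (fun p => p ∣ q)) T := by
    rw [Finset.disjoint_left]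
    intro p hp hpT
    exact (Finset.mem_filter.mp (hT hpT)).2 (Finset.mem_filter.mp hp).2
  unfold hP
  rw [h1, Finset.prod_union h2]
  rfl

lemma totient_le (P q : ℕ) (hq : 1 ≤ q) :
    (Nat.totient q : ℝ) ≤ q * ∏ p ∈ P.primeFactors.filter (fun p => p ∣ q), (1 - (p : ℝ)⁻¹) := by
  have h1 : (Nat.totient q : ℝ) = q * ∏ p ∈ q.primeFactors, (1 - (p : ℝ)⁻¹) := by
    have := Nat.totient_eq_mul_prod_factors q
    have h2 := congrArg (fun x : ℚ => (x : ℝ)) this
    push_cast at h2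
    exact h2
  rw [h1]
  apply mul_le_mul_of_nonneg_left _ (Nat.cast_nonneg q)
  apply Finset.prod_le_prod_of_subset_of_le_one
  · intro p hp
    rw [Finset.mem_filter] at hp
    exact Nat.mem_primeFactors.mpr ⟨Nat.prime_of_mem_primeFactors hp.1, hp.2, by omega⟩
  · intro p hp
    have h2 : (1 : ℝ) ≤ p := by exact_mod_cast (Nat.prime_of_mem_primeFactors hp).one_lt.le
    have := inv_le_one_of_one_le₀ h2
    linarith
  · intro p _ _
    have : (0 : ℝ) ≤ (p : ℝ)⁻¹ := by positivity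
    linarith

/-- `p³/(p³-1)` -/
noncomputable def kp (p : ℕ) : ℝ := (p : ℝ) ^ 3 / ((p : ℝ) ^ 3 - 1)

lemma kp_one_le (p : ℕ) (hp : p.Prime) : 1 ≤ kp p := by
  have h2 : (2 : ℝ) ≤ p := by exact_mod_cast hp.two_le
  have h3 : (1 : ℝ) < (p : ℝ) ^ 3 := by nlinarith [sq_nonneg (p : ℝ)]
  unfold kp
  rw [le_div_iff₀ (by linarith)]
  linarith

lemma kp_hp (p : ℕ) (hp' : p.Prime) : (1 - (p : ℝ)⁻¹) * kp p = hp p := by
  have h2 : (2 : ℝ) ≤ p := by exact_mod_cast hp'.two_le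
  have h3 : (1 : ℝ) < (p : ℝ) ^ 3 := by nlinarith [sq_nonneg (p : ℝ)]
  have h4 : (p : ℝ) ^ 3 - 1 = ((p : ℝ) - 1) * ((p : ℝ) ^ 2 + p + 1) := by ring
  have h5 : (p : ℝ) - 1 ≠ 0 := by linarith
  have h6 : (p : ℝ) ≠ 0 := by linarith
  have h7 : (p : ℝ) ^ 2 + p + 1 ≠ 0 := by positivity
  unfold kp hp
  rw [h4]
  field_simp

lemma kp_eq (p : ℕ) (hp' : p.Prime) : 1 + hp p / ((p : ℝ) ^ 2 * ((p : ℝ) - 1)) = kp p := by
  have h2 : (2 : ℝ) ≤ p := by exact_mod_cast hp'.two_le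
  have h4 : (p : ℝ) ^ 3 - 1 = ((p : ℝ) - 1) * ((p : ℝ) ^ 2 + p + 1) := by ring
  have h5 : (p : ℝ) - 1 ≠ 0 := by linarith
  have h6 : (p : ℝ) ≠ 0 := by linarith
  have h7 : (p : ℝ) ^ 2 + p + 1 ≠ 0 := by positivity
  unfold kp hp
  rw [h4]
  field_simp
  ring

lemma weight (P q : ℕ) (hq : 1 ≤ q) :
    (1 / (q : ℝ) ^ 2) * ∏ p ∈ P.primeFactors, kp p ≤
    ∑ T ∈ (P.primeFactors.filter (fun p => ¬ p ∣ q)).powerset,
      (hP P (q * pr T) / ((q * pr T : ℕ) : ℝ) ^ 2) *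
        ((1 / (Nat.totient (q * pr T) : ℝ)) * q) := by
  have hq0 : (0 : ℝ) < q := by exact_mod_cast hq
  have hφ : (0 : ℝ) < Nat.totient q := by exact_mod_cast Nat.totient_pos.mpr (by omega)
  have hterm : ∀ T ∈ (P.primeFactors.filter (fun p => ¬ p ∣ q)).powerset,
      (hP P (q * pr T) / ((q * pr T : ℕ) : ℝ) ^ 2) * ((1 / (Nat.totient (q * pr T) : ℝ)) * q) =
      ((1 / (q : ℝ) ^ 2) * (q / Nat.totient q) * hP P q) *
        ∏ p ∈ T, (hp p / ((p : ℝ) ^ 2 * ((p : ℝ) - 1))) := by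
    intro T hT
    rw [Finset.mem_powerset] at hT
    have hTP : T ⊆ P.primeFactors := hT.trans (Finset.filter_subset _ _)
    have hTp : ∀ p ∈ T, p.Prime := fun p hp => Nat.prime_of_mem_primeFactors (hTP hp)
    have hcop : Nat.Coprime q (pr T) := by
      unfold pr
      rw [Nat.coprime_prod_right_iff]
      intro p hp
      rw [Nat.coprime_comm, (hTp p hp).coprime_iff_not_dvd]
      exact (Finset.mem_filter.mp (hT hp)).2
    have h2 : ((pr T : ℕ) : ℝ) = ∏ p ∈ T, (p : ℝ) := by unfold pr; push_cast; rfl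
    have h3 : ∏ p ∈ T, (p : ℝ) ≠ 0 :=
      Finset.prod_ne_zero_iff.mpr (fun p hp => by exact_mod_cast (hTp p hp).ne_zero)
    have h4 : ∏ p ∈ T, ((p : ℝ) - 1) ≠ 0 := by
      refine Finset.prod_ne_zero_iff.mpr (fun p hp => ?_)
      have : (1 : ℝ) < p := by exact_mod_cast (hTp p hp).one_lt
      linarith
    rw [hP_mul P q T hT, Nat.totient_mul hcop, Nat.cast_mul, Nat.cast_mul, tot_pr T hTp, h2,
      Finset.prod_div_distrib, Finset.prod_mul_distrib, Finset.prod_pow]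
    field_simp
  rw [Finset.sum_congr rfl hterm, ← Finset.mul_sum, ← Finset.prod_one_add]
  have h3 : ∏ p ∈ P.primeFactors.filter (fun p => ¬ p ∣ q),
      (1 + hp p / ((p : ℝ) ^ 2 * ((p : ℝ) - 1))) =
      ∏ p ∈ P.primeFactors.filter (fun p => ¬ p ∣ q), kp p := by
    apply Finset.prod_congr rfl
    intro p hp'
    exact kp_eq p (Nat.prime_of_mem_primeFactors (Finset.mem_filter.mp hp').1)
  rw [h3, ← Finset.prod_filter_mul_prod_filter_not P.primeFactors (fun p => p ∣ q)]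
  have h5 : ∏ p ∈ P.primeFactors.filter (fun p => p ∣ q), kp p ≤ (q / Nat.totient q) * hP P q := by
    rw [div_mul_eq_mul_div, le_div_iff₀ hφ]
    have h6 : hP P q = ∏ p ∈ P.primeFactors.filter (fun p => p ∣ q), hp p := rfl
    have h7 : ∏ p ∈ P.primeFactors.filter (fun p => p ∣ q), hp p =
        ∏ p ∈ P.primeFactors.filter (fun p => p ∣ q), ((1 - (p : ℝ)⁻¹) * kp p) := by
      apply Finset.prod_congr rfl
      intro p hp'
      exact (kp_hp p (Nat.prime_of_mem_primeFactors (Finset.mem_filter.mp hp').1)).symm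
    have h8 : 0 ≤ ∏ p ∈ P.primeFactors.filter (fun p => p ∣ q), kp p :=
      Finset.prod_nonneg (fun p hp' => zero_le_one.trans
        (kp_one_le p (Nat.prime_of_mem_primeFactors (Finset.mem_filter.mp hp').1)))
    have h9 := mul_le_mul_of_nonneg_left (totient_le P q hq) h8
    rw [h6, h7, Finset.prod_mul_distrib]
    nlinarith [h9]
  have h10 : 0 ≤ ∏ p ∈ P.primeFactors.filter (fun p => ¬ p ∣ q), kp p :=
    Finset.prod_nonneg (fun p hp' => zero_le_one.trans
      (kp_one_le p (Nat.prime_of_mem_primeFactors (Finset.mem_filter.mp hp').1)))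
  have h11 := mul_le_mul_of_nonneg_right h5 h10
  have h12 : (0 : ℝ) ≤ 1 / (q : ℝ) ^ 2 := by positivity
  have h13 := mul_le_mul_of_nonneg_left h11 h12
  refine h13.trans (le_of_eq ?_)
  ring

lemma hP_le_one (P q : ℕ) : hP P q ≤ 1 := by
  have h6 : hP P q = ∏ p ∈ P.primeFactors.filter (fun p => p ∣ q), hp p := rfl
  rw [h6]
  exact Finset.prod_le_one (fun p _ => hp_nonneg p) (fun p _ => hp_le_one p)

lemma hP_nonneg (P q : ℕ) : 0 ≤ hP P q := by
  have h6 : hP P q = ∏ p ∈ P.primeFactors.filter (fun p => p ∣ q), hp p := rfl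
  rw [h6]
  exact Finset.prod_nonneg (fun p _ => hp_nonneg p)

/-- the summand of the double sum -/
noncomputable def ff (P N : ℕ) (b : ℕ → ℂ) (q' : ℕ) (T : Finset ℕ) : ℝ :=
  (hP P q' / (q' : ℝ) ^ 2) *
    ((1 / (Nat.totient q' : ℝ)) * (((q' / pr T : ℕ) : ℝ) * PS N b (q' / pr T)))

lemma ff_nonneg (P N : ℕ) (b : ℕ → ℂ) (q' : ℕ) (T : Finset ℕ) : 0 ≤ ff P N b q' T := by
  unfold ff
  have := hP_nonneg P q'
  have := PS_nonneg N b (q' / pr T)
  positivity

lemma reindex (P : ℕ) (hP' : Squarefree P) (X Y N : ℕ) (b : ℕ → ℂ) :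
    ∑ q ∈ Finset.Ioc X Y, ∑ T ∈ (P.primeFactors.filter (fun p => ¬ p ∣ q)).powerset,
      ff P N b (q * pr T) T ≤ ∑ q' ∈ Finset.Ioc X (P * Y), ∑ T ∈ UT P q', ff P N b q' T := by
  classical
  rw [Finset.sum_sigma', Finset.sum_sigma']
  set S2 : Finset (Σ _ : ℕ, Finset ℕ) := (Finset.Ioc X Y).sigma
    (fun q => (P.primeFactors.filter (fun p => ¬ p ∣ q)).powerset) with hS2
  set S1 : Finset (Σ _ : ℕ, Finset ℕ) := (Finset.Ioc X (P * Y)).sigma
    (fun q => UT P q) with hS1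
  have hinj : Set.InjOn (fun i : (Σ _ : ℕ, Finset ℕ) => (⟨i.1 * pr i.2, i.2⟩ : Σ _ : ℕ, Finset ℕ))
      (S2 : Set (Σ _ : ℕ, Finset ℕ)) := by
    rintro ⟨q1, T1⟩ h1 ⟨q2, T2⟩ h2 h
    rw [Finset.mem_coe, hS2, Finset.mem_sigma] at h1 h2
    simp only [Finset.mem_powerset] at h1 h2
    simp only [Sigma.mk.injEq, heq_eq_eq] at h
    obtain ⟨h3, h4⟩ := h
    subst h4
    have hTP : T1 ⊆ P.primeFactors := h1.2.trans (Finset.filter_subset _ _)
    have := Nat.eq_of_mul_eq_mul_right (pr_pos hTP) h3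
    subst this
    rfl
  have h1 : ∑ x ∈ S2, ff P N b (x.1 * pr x.2) x.2 =
      ∑ x ∈ S2.image (fun i : (Σ _ : ℕ, Finset ℕ) =>
        (⟨i.1 * pr i.2, i.2⟩ : Σ _ : ℕ, Finset ℕ)), ff P N b x.1 x.2 := by
    rw [Finset.sum_image hinj]
  rw [h1]
  apply Finset.sum_le_sum_of_subset_of_nonneg
  · intro x hx
    rw [Finset.mem_image] at hx
    obtain ⟨⟨q, T⟩, h, rfl⟩ := hx
    rw [hS2, Finset.mem_sigma] at h
    simp only [Finset.mem_powerset, Finset.mem_Ioc] at h
    obtain ⟨⟨hXq, hqY⟩, hT⟩ := h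
    have hTP : T ⊆ P.primeFactors := hT.trans (Finset.filter_subset _ _)
    rw [hS1, Finset.mem_sigma]
    simp only [Finset.mem_Ioc]
    have hpos := pr_pos hTP
    have hle : pr T ≤ P := Nat.le_of_dvd (Nat.pos_of_ne_zero hP'.ne_zero) (pr_dvd hTP)
    refine ⟨⟨?_, ?_⟩, ?_⟩
    · calc X < q := hXq
        _ = q * 1 := (mul_one q).symm
        _ ≤ q * pr T := Nat.mul_le_mul_left q hpos
    · calc q * pr T ≤ Y * P := Nat.mul_le_mul hqY hle
        _ = P * Y := mul_comm _ _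
    · unfold UT
      rw [Finset.mem_filter, Finset.mem_powerset]
      refine ⟨hTP, Dvd.intro_left q rfl, ?_⟩
      rw [Nat.mul_div_cancel q hpos]
      unfold pr
      rw [Nat.coprime_prod_right_iff]
      intro p hp
      have hpp := Nat.prime_of_mem_primeFactors (hTP hp)
      rw [Nat.coprime_comm, hpp.coprime_iff_not_dvd]
      exact (Finset.mem_filter.mp (hT hp)).2
  · intro x _ _
    exact ff_nonneg _ _ _ _ _

lemma const_eq (P : ℕ) : ∏ p ∈ P.primeFactors,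
        (((p : ℝ) + (p : ℝ) ^ 2 / ((p : ℝ) ^ 2 + p + 1)) / (p + 1)) =
      (∏ p ∈ P.primeFactors, kp p) * ∏ p ∈ P.primeFactors, (1 - 1 / (p : ℝ) ^ 2) := by
  rw [← Finset.prod_mul_distrib]
  apply Finset.prod_congr rfl
  intro p hp'
  have hpp := Nat.prime_of_mem_primeFactors hp'
  have h2 : (2 : ℝ) ≤ p := by exact_mod_cast hpp.two_le
  have h4 : (p : ℝ) ^ 3 - 1 = ((p : ℝ) - 1) * ((p : ℝ) ^ 2 + p + 1) := by ring
  have h5 : (p : ℝ) - 1 ≠ 0 := by linarith
  have h6 : (p : ℝ) ≠ 0 := by linarith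
  have h7 : (p : ℝ) ^ 2 + p + 1 ≠ 0 := by positivity
  have h8 : (p : ℝ) + 1 ≠ 0 := by positivity
  unfold kp
  rw [h4]
  field_simp
  ring

end Flat

open Flat in
theorem flat_ls (P : ℕ) (hsf : Squarefree P) : ∃ C : ℝ, 0 < C ∧
    ∀ (X Y N : ℕ) (b : ℕ → ℂ), 1 ≤ X → X ≤ Y → (∀ n, ¬ Nat.Coprime n P → b n = 0) →
      ∀ ε : ℝ, 0 < ε → ε ≤ 1 →
    primFam X Y (fun q χ => ‖∑ n ∈ Finset.Icc 1 N, b n * χ (n : ZMod q)‖ ^ 2) ≤
      (1 + ε) * Real.exp (Real.pi * N / (X : ℝ) ^ 2) *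
        (c0 * (∏ p ∈ P.primeFactors, (1 - 1 / (p : ℝ) ^ 2)) * Real.log ((Y : ℝ) / X) + C) *
        ∑ n ∈ Finset.Icc 1 N, ‖b n‖ ^ 2
      + (2 / ε) * ∑ q ∈ Finset.Ioc X (P * Y), (1 / (q : ℝ)) *
        (∑ n ∈ (Finset.Icc 1 N).filter (fun n => ¬ Nat.Coprime n q), ‖b n‖) ^ 2 := by
  obtain ⟨C0, hC0, hLS⟩ := farey_large_sieve_P P hsf
  have hP1 : 1 ≤ P := Nat.one_le_iff_ne_zero.mpr hsf.ne_zero
  have hP1R : (1 : ℝ) ≤ P := by exact_mod_cast hP1
  have hc0 : 0 ≤ c0 := by unfold c0; positivity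
  have hlogP : 0 ≤ Real.log P := Real.log_nonneg hP1R
  refine ⟨c0 * Real.log P + C0, by positivity, ?_⟩
  intro X Y N b hX hXY hb ε hε hε1
  have hX0 : (0 : ℝ) < X := by exact_mod_cast hX
  have hX1 : (1 : ℝ) ≤ X := by exact_mod_cast hX
  have hY0 : (0 : ℝ) < Y := by exact_mod_cast (lt_of_lt_of_le hX hXY)
  have hlog : 0 ≤ Real.log ((Y : ℝ) / X) := by
    apply Real.log_nonneg
    rw [le_div_iff₀ hX0, one_mul]
    exact_mod_cast hXY
  set K : ℝ := ∏ p ∈ P.primeFactors, kp p with hK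
  set D : ℝ := ∏ p ∈ P.primeFactors, (1 - 1 / (p : ℝ) ^ 2) with hD
  set G : ℝ := ∑ n ∈ Finset.Icc 1 N, ‖b n‖ ^ 2 with hG
  have hG0 : 0 ≤ G := Finset.sum_nonneg (fun _ _ => by positivity)
  have hK1 : 1 ≤ K := Finset.one_le_prod
    (fun p hp => kp_one_le p (Nat.prime_of_mem_primeFactors hp))
  have hDp : ∀ p ∈ P.primeFactors, 0 ≤ (1 - 1 / (p : ℝ) ^ 2) ∧ (1 - 1 / (p : ℝ) ^ 2) ≤ 1 := by
    intro p hp
    have h2 : (1 : ℝ) ≤ p := by exact_mod_cast (Nat.prime_of_mem_primeFactors hp).one_lt.le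
    have h3 : 1 / (p : ℝ) ^ 2 ≤ 1 := by
      rw [div_le_one (by positivity)]
      nlinarith
    have h4 : 0 ≤ 1 / (p : ℝ) ^ 2 := by positivity
    constructor <;> linarith
  have hD0 : 0 ≤ D := Finset.prod_nonneg (fun p hp => (hDp p hp).1)
  have hD1 : D ≤ 1 := Finset.prod_le_one (fun p hp => (hDp p hp).1) (fun p hp => (hDp p hp).2)
  -- the farey side
  have hLS' := hLS X (P * Y) N ((X : ℝ) ^ 2) b hX (by nlinarith) (by nlinarith) le_rfl
  rw [const_eq, ← hK, ← hD] at hLS'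
  have hlog2 : Real.log (((P * Y : ℕ) : ℝ) / X) = Real.log P + Real.log ((Y : ℝ) / X) := by
    rw [Nat.cast_mul, mul_div_assoc, Real.log_mul (by positivity) (by positivity)]
  rw [hlog2] at hLS'
  set E : ℝ := ∑ q ∈ Finset.Ioc X (P * Y), (1 / (q : ℝ)) * EB N b q ^ 2 with hE
  have hE0 : 0 ≤ E := Finset.sum_nonneg (fun _ _ => by positivity)
  -- step 2
  have h2 : K * primFam X Y (fun q χ => ‖∑ n ∈ Finset.Icc 1 N, b n * χ (n : ZMod q)‖ ^ 2) ≤
      ∑ q ∈ Finset.Ioc X Y, ∑ T ∈ (P.primeFactors.filter (fun p => ¬ p ∣ q)).powerset,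
        ff P N b (q * pr T) T := by
    have h21 : primFam X Y (fun q χ => ‖∑ n ∈ Finset.Icc 1 N, b n * χ (n : ZMod q)‖ ^ 2) =
        ∑ q ∈ Finset.Ioc X Y, (1 / (q : ℝ) ^ 2) * PS N b q := rfl
    rw [h21, Finset.mul_sum]
    apply Finset.sum_le_sum
    intro q hq
    rw [Finset.mem_Ioc] at hq
    have h22 := mul_le_mul_of_nonneg_right (weight P q (by omega)) (PS_nonneg N b q)
    calc K * ((1 / (q : ℝ) ^ 2) * PS N b q) = (1 / (q : ℝ) ^ 2) * K * PS N b q := by ring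
      _ ≤ _ := h22
      _ = _ := by
        rw [Finset.sum_mul]
        apply Finset.sum_congr rfl
        intro T hT
        rw [Finset.mem_powerset] at hT
        have hTP : T ⊆ P.primeFactors := hT.trans (Finset.filter_subset _ _)
        unfold ff
        rw [Nat.mul_div_cancel q (pr_pos hTP)]
        ring
  have h3 := h2.trans (reindex P hsf X Y N b)
  have h4 : ∑ q' ∈ Finset.Ioc X (P * Y), ∑ T ∈ UT P q', ff P N b q' T ≤
      (1 + ε) * ∑ q ∈ Finset.Ioc X (P * Y), (hP P q / (q : ℝ) ^ 2) *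
        ∑ b' ∈ (Finset.range q).filter (fun b => Nat.Coprime b q), ‖SS N b ((b' : ℝ) / q)‖ ^ 2
      + (2 / ε) * E := by
    rw [hE, Finset.mul_sum, Finset.mul_sum, ← Finset.sum_add_distrib]
    apply Finset.sum_le_sum
    intro q' hq'
    rw [Finset.mem_Ioc] at hq'
    have hq1 : 1 ≤ q' := by omega
    have hq0 : (0 : ℝ) < q' := by exact_mod_cast hq1
    have hh0 := hP_nonneg P q'
    have hh1 := hP_le_one P q'
    have h41 : 0 ≤ hP P q' / (q' : ℝ) ^ 2 := by positivity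
    unfold ff
    rw [← Finset.mul_sum]
    refine (mul_le_mul_of_nonneg_left (lemC P hsf q' hq1 N b hb ε hε hε1) h41).trans ?_
    rw [mul_add]
    have h42 : hP P q' / (q' : ℝ) ^ 2 * (2 / ε * (Nat.totient q' : ℝ) * EB N b q' ^ 2) ≤
        2 / ε * (1 / (q' : ℝ) * EB N b q' ^ 2) := by
      have h43 : hP P q' / (q' : ℝ) ^ 2 * (Nat.totient q' : ℝ) ≤ 1 / (q' : ℝ) := by
        have h44 : (Nat.totient q' : ℝ) ≤ q' := by exact_mod_cast Nat.totient_le q'
        have h45 : hP P q' * (Nat.totient q' : ℝ) ≤ 1 * q' :=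
          mul_le_mul hh1 h44 (Nat.cast_nonneg _) zero_le_one
        rw [div_mul_eq_mul_div, div_le_div_iff₀ (by positivity) hq0]
        nlinarith
      have h46 : 0 ≤ 2 / ε * EB N b q' ^ 2 := by positivity
      have := mul_le_mul_of_nonneg_right h43 h46
      nlinarith [this]
    nlinarith [h42]
  have h5 := h3.trans h4
  have h6 : 0 ≤ 1 + ε := by linarith
  have h7 := mul_le_mul_of_nonneg_left hLS' h6
  set ex : ℝ := Real.exp (Real.pi * N / (X : ℝ) ^ 2) with hex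
  have hex0 : 0 ≤ ex := (Real.exp_pos _).le
  have hK0 : 0 < K := by linarith
  have hgoal : K * primFam X Y (fun q χ => ‖∑ n ∈ Finset.Icc 1 N, b n * χ (n : ZMod q)‖ ^ 2) ≤
      K * ((1 + ε) * ex * (c0 * D * Real.log ((Y : ℝ) / X) + (c0 * Real.log P + C0)) * G
        + (2 / ε) * E) := by
    have h8 : c0 * (K * D) * (Real.log P + Real.log ((Y : ℝ) / X)) + C0 ≤
        K * (c0 * D * Real.log ((Y : ℝ) / X) + (c0 * Real.log P + C0)) := by
      have h81 : c0 * Real.log P * D ≤ c0 * Real.log P * 1 :=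
        mul_le_mul_of_nonneg_left hD1 (by positivity)
      have h82 : K * (c0 * Real.log P * D) ≤ K * (c0 * Real.log P * 1) :=
        mul_le_mul_of_nonneg_left h81 hK0.le
      have h83 : 1 * C0 ≤ K * C0 := mul_le_mul_of_nonneg_right hK1 hC0.le
      nlinarith
    have h9 : (1 + ε) * (ex * (c0 * (K * D) * (Real.log P + Real.log ((Y : ℝ) / X)) + C0) * G) ≤
        K * ((1 + ε) * ex * (c0 * D * Real.log ((Y : ℝ) / X) + (c0 * Real.log P + C0)) * G) := by
      have h91 : 0 ≤ (1 + ε) * ex * G := by positivity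
      have := mul_le_mul_of_nonneg_right h8 h91
      nlinarith [this]
    have h10 : (2 / ε) * E ≤ K * ((2 / ε) * E) := by
      have : 0 ≤ (2 / ε) * E := by positivity
      nlinarith
    linarith
  exact le_of_mul_le_mul_left hgoal hK0

end H385
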