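import Pool.Agent.H385R2.FareyM

/-!
TEAM Q2, module O2 : large sieve for primitive characters with the flat weight `q⁻²`, all
conductors prime to `M`.
-/

set_option autoImplicit false

open Complex Filter Topology Set MeasureTheory

namespace H385

namespace Flat

lemma reindexM (M P : ℕ) (hP' : Squarefree P) (hMP : Nat.Coprime M P) (X Y N : ℕ) (b : ℕ → ℂ) :
    ∑ q ∈ (Finset.Ioc X Y).filter (fun q => Nat.Coprime q M),
      ∑ T ∈ (P.primeFactors.filter (fun p => ¬ p ∣ q)).powerset,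
      ff P N b (q * pr T) T ≤
    ∑ q' ∈ (Finset.Ioc X (P * Y)).filter (fun q => Nat.Coprime q M),
      ∑ T ∈ UT P q', ff P N b q' T := by
  classical
  rw [Finset.sum_sigma', Finset.sum_sigma']
  set S2 : Finset (Σ _ : ℕ, Finset ℕ) := ((Finset.Ioc X Y).filter (fun q => Nat.Coprime q M)).sigma
    (fun q => (P.primeFactors.filter (fun p => ¬ p ∣ q)).powerset) with hS2
  set S1 : Finset (Σ _ : ℕ, Finset ℕ) :=
    ((Finset.Ioc X (P * Y)).filter (fun q => Nat.Coprime q M)).sigma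
    (fun q => UT P q) with hS1
  have hinj : Set.InjOn (fun i : (Σ _ : ℕ, Finset ℕ) => (⟨i.1 * pr i.2, i.2⟩ : Σ _ : ℕ, Finset ℕ))
      (S2 : Set (Σ _ : ℕ, Finset ℕ)) := by
    rintro ⟨q1, T1⟩ h1 ⟨q2, T2⟩ h2 h
    rw [Finset.mem_coe, hS2, Finset.mem_sigma] at h1 h2
    simp only [Finset.mem_powerset] at h1 h2
    simp only [Sigma.mk.injEq, heq_eq_eq] at h
    obtain ⟨h3, h4⟩ := h
    subst h4
    have hTP : T1 ⊆ P.primeFactors := h1.2.trans (Finset.filter_subset _ _)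
    have := Nat.eq_of_mul_eq_mul_right (pr_pos hTP) h3
    subst this
    rfl
  have h1 : ∑ x ∈ S2, ff P N b (x.1 * pr x.2) x.2 =
      ∑ x ∈ S2.image (fun i : (Σ _ : ℕ, Finset ℕ) =>
        (⟨i.1 * pr i.2, i.2⟩ : Σ _ : ℕ, Finset ℕ)), ff P N b x.1 x.2 := by
    rw [Finset.sum_image hinj]
  rw [h1]
  apply Finset.sum_le_sum_of_subset_of_nonneg
  · intro x hx
    rw [Finset.mem_image] at hx
    obtain ⟨⟨q, T⟩, h, rfl⟩ := hx
    rw [hS2, Finset.mem_sigma] at h
    simp only [Finset.mem_powerset, Finset.mem_filter, Finset.mem_Ioc] at h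
    obtain ⟨⟨⟨hXq, hqY⟩, hqM⟩, hT⟩ := h
    have hTP : T ⊆ P.primeFactors := hT.trans (Finset.filter_subset _ _)
    rw [hS1, Finset.mem_sigma]
    simp only [Finset.mem_filter, Finset.mem_Ioc]
    have hpos := pr_pos hTP
    have hle : pr T ≤ P := Nat.le_of_dvd (Nat.pos_of_ne_zero hP'.ne_zero) (pr_dvd hTP)
    refine ⟨⟨⟨?_, ?_⟩, ?_⟩, ?_⟩
    · calc X < q := hXq
        _ = q * 1 := (mul_one q).symm
        _ ≤ q * pr T := Nat.mul_le_mul_left q hpos
    · calc q * pr T ≤ Y * P := Nat.mul_le_mul hqY hle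
        _ = P * Y := mul_comm _ _
    · exact Nat.Coprime.mul_left hqM
        (Nat.Coprime.coprime_dvd_right (pr_dvd hTP) hMP).symm
    · unfold UT
      rw [Finset.mem_filter, Finset.mem_powerset]
      refine ⟨hTP, Dvd.intro_left q rfl, ?_⟩
      rw [Nat.mul_div_cancel q hpos]
      unfold pr
      rw [Nat.coprime_prod_right_iff]
      intro p hp
      have hpp := Nat.prime_of_mem_primeFactors (hTP hp)
      rw [Nat.coprime_comm, hpp.coprime_iff_not_dvd]
      exact (Finset.mem_filter.mp (hT hp)).2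
  · intro x _ _
    exact ff_nonneg _ _ _ _ _

end Flat

open Flat in
theorem flat_ls_M (M P : ℕ) (hsf : Squarefree (M * P)) : ∃ C : ℝ, 0 < C ∧
    ∀ (X Y N : ℕ) (b : ℕ → ℂ), 1 ≤ X → X ≤ Y → (∀ n, ¬ Nat.Coprime n P → b n = 0) →
      ∀ ε : ℝ, 0 < ε → ε ≤ 1 →
    primFamM M X Y (fun q χ => ‖∑ n ∈ Finset.Icc 1 N, b n * χ (n : ZMod q)‖ ^ 2) ≤
      (1 + ε) * Real.exp (Real.pi * N / (X : ℝ) ^ 2) *
        (c0 * (∏ p ∈ M.primeFactors, ((p : ℝ) / (p + 1))) *
          (∏ p ∈ P.primeFactors, (1 - 1 / (p : ℝ) ^ 2)) * Real.log ((Y : ℝ) / X) + C) *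
        ∑ n ∈ Finset.Icc 1 N, ‖b n‖ ^ 2
      + (2 / ε) * ∑ q ∈ Finset.Ioc X (P * Y), (1 / (q : ℝ)) *
        (∑ n ∈ (Finset.Icc 1 N).filter (fun n => ¬ Nat.Coprime n q), ‖b n‖) ^ 2 := by
  obtain ⟨C0, hC0, hLS⟩ := farey_large_sieve_M M P hsf
  have hMP : Nat.Coprime M P := (Nat.squarefree_mul_iff.mp hsf).1
  have hsfP : Squarefree P := (Nat.squarefree_mul_iff.mp hsf).2.2
  have hP1 : 1 ≤ P := Nat.one_le_iff_ne_zero.mpr hsfP.ne_zero
  have hP1R : (1 : ℝ) ≤ P := by exact_mod_cast hP1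
  have hc0' : 0 ≤ c0 := by unfold c0; positivity
  have hprodM : 0 ≤ ∏ p ∈ M.primeFactors, ((p : ℝ) / (p + 1)) :=
    Finset.prod_nonneg (fun p _ => by positivity)
  set c1 : ℝ := c0 * (∏ p ∈ M.primeFactors, ((p : ℝ) / (p + 1))) with hc1
  have hc0 : 0 ≤ c1 := by positivity
  have hlogP : 0 ≤ Real.log P := Real.log_nonneg hP1R
  refine ⟨c1 * Real.log P + C0, by positivity, ?_⟩
  intro X Y N b hX hXY hb ε hε hε1
  have hX0 : (0 : ℝ) < X := by exact_mod_cast hX
  have hX1 : (1 : ℝ) ≤ X := by exact_mod_cast hX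
  have hY0 : (0 : ℝ) < Y := by exact_mod_cast (lt_of_lt_of_le hX hXY)
  have hlog : 0 ≤ Real.log ((Y : ℝ) / X) := by
    apply Real.log_nonneg
    rw [le_div_iff₀ hX0, one_mul]
    exact_mod_cast hXY
  set K : ℝ := ∏ p ∈ P.primeFactors, kp p with hK
  set D : ℝ := ∏ p ∈ P.primeFactors, (1 - 1 / (p : ℝ) ^ 2) with hD
  set G : ℝ := ∑ n ∈ Finset.Icc 1 N, ‖b n‖ ^ 2 with hG
  have hG0 : 0 ≤ G := Finset.sum_nonneg (fun _ _ => by positivity)
  have hK1 : 1 ≤ K := Finset.one_le_prod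
    (fun p hp => kp_one_le p (Nat.prime_of_mem_primeFactors hp))
  have hDp : ∀ p ∈ P.primeFactors, 0 ≤ (1 - 1 / (p : ℝ) ^ 2) ∧ (1 - 1 / (p : ℝ) ^ 2) ≤ 1 := by
    intro p hp
    have h2 : (1 : ℝ) ≤ p := by exact_mod_cast (Nat.prime_of_mem_primeFactors hp).one_lt.le
    have h3 : 1 / (p : ℝ) ^ 2 ≤ 1 := by
      rw [div_le_one (by positivity)]
      nlinarith
    have h4 : 0 ≤ 1 / (p : ℝ) ^ 2 := by positivity
    constructor <;> linarith
  have hD0 : 0 ≤ D := Finset.prod_nonneg (fun p hp => (hDp p hp).1)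
  have hD1 : D ≤ 1 := Finset.prod_le_one (fun p hp => (hDp p hp).1) (fun p hp => (hDp p hp).2)
  -- the farey side
  have hLS' := hLS X (P * Y) N ((X : ℝ) ^ 2) b hX (by nlinarith) (by nlinarith) le_rfl
  rw [const_eq, ← hK, ← hD] at hLS'
  have hlog2 : Real.log (((P * Y : ℕ) : ℝ) / X) = Real.log P + Real.log ((Y : ℝ) / X) := by
    rw [Nat.cast_mul, mul_div_assoc, Real.log_mul (by positivity) (by positivity)]
  rw [hlog2] at hLS'
  set E : ℝ := ∑ q ∈ Finset.Ioc X (P * Y), (1 / (q : ℝ)) * EB N b q ^ 2 with hE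
  have hE0 : 0 ≤ E := Finset.sum_nonneg (fun _ _ => by positivity)
  set E' : ℝ := ∑ q ∈ (Finset.Ioc X (P * Y)).filter (fun q => Nat.Coprime q M),
    (1 / (q : ℝ)) * EB N b q ^ 2 with hE'
  have hEE : E' ≤ E := Finset.sum_le_sum_of_subset_of_nonneg (Finset.filter_subset _ _)
    (fun _ _ _ => by positivity)
  -- step 2
  have h2 : K * primFamM M X Y (fun q χ => ‖∑ n ∈ Finset.Icc 1 N, b n * χ (n : ZMod q)‖ ^ 2) ≤
      ∑ q ∈ (Finset.Ioc X Y).filter (fun q => Nat.Coprime q M),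
        ∑ T ∈ (P.primeFactors.filter (fun p => ¬ p ∣ q)).powerset,
        ff P N b (q * pr T) T := by
    have h21 : primFamM M X Y (fun q χ => ‖∑ n ∈ Finset.Icc 1 N, b n * χ (n : ZMod q)‖ ^ 2) =
        ∑ q ∈ (Finset.Ioc X Y).filter (fun q => Nat.Coprime q M),
          (1 / (q : ℝ) ^ 2) * PS N b q := rfl
    rw [h21, Finset.mul_sum]
    apply Finset.sum_le_sum
    intro q hq
    rw [Finset.mem_filter, Finset.mem_Ioc] at hq
    have h22 := mul_le_mul_of_nonneg_right (weight P q (by omega)) (PS_nonneg N b q)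
    calc K * ((1 / (q : ℝ) ^ 2) * PS N b q) = (1 / (q : ℝ) ^ 2) * K * PS N b q := by ring
      _ ≤ _ := h22
      _ = _ := by
        rw [Finset.sum_mul]
        apply Finset.sum_congr rfl
        intro T hT
        rw [Finset.mem_powerset] at hT
        have hTP : T ⊆ P.primeFactors := hT.trans (Finset.filter_subset _ _)
        unfold ff
        rw [Nat.mul_div_cancel q (pr_pos hTP)]
        ring
  have h3 := h2.trans (reindexM M P hsfP hMP X Y N b)
  have h4 : ∑ q' ∈ (Finset.Ioc X (P * Y)).filter (fun q => Nat.Coprime q M),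
        ∑ T ∈ UT P q', ff P N b q' T ≤
      (1 + ε) * ∑ q ∈ (Finset.Ioc X (P * Y)).filter (fun q => Nat.Coprime q M),
        (hP P q / (q : ℝ) ^ 2) *
        ∑ b' ∈ (Finset.range q).filter (fun b => Nat.Coprime b q), ‖SS N b ((b' : ℝ) / q)‖ ^ 2
      + (2 / ε) * E' := by
    rw [hE', Finset.mul_sum, Finset.mul_sum, ← Finset.sum_add_distrib]
    apply Finset.sum_le_sum
    intro q' hq'
    rw [Finset.mem_filter, Finset.mem_Ioc] at hq'
    have hq1 : 1 ≤ q' := by omega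
    have hq0 : (0 : ℝ) < q' := by exact_mod_cast hq1
    have hh0 := hP_nonneg P q'
    have hh1 := hP_le_one P q'
    have h41 : 0 ≤ hP P q' / (q' : ℝ) ^ 2 := by positivity
    unfold ff
    rw [← Finset.mul_sum]
    refine (mul_le_mul_of_nonneg_left (lemC P hsfP q' hq1 N b hb ε hε hε1) h41).trans ?_
    rw [mul_add]
    have h42 : hP P q' / (q' : ℝ) ^ 2 * (2 / ε * (Nat.totient q' : ℝ) * EB N b q' ^ 2) ≤
        2 / ε * (1 / (q' : ℝ) * EB N b q' ^ 2) := by
      have h43 : hP P q' / (q' : ℝ) ^ 2 * (Nat.totient q' : ℝ) ≤ 1 / (q' : ℝ) := by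
        have h44 : (Nat.totient q' : ℝ) ≤ q' := by exact_mod_cast Nat.totient_le q'
        have h45 : hP P q' * (Nat.totient q' : ℝ) ≤ 1 * q' :=
          mul_le_mul hh1 h44 (Nat.cast_nonneg _) zero_le_one
        rw [div_mul_eq_mul_div, div_le_div_iff₀ (by positivity) hq0]
        nlinarith
      have h46 : 0 ≤ 2 / ε * EB N b q' ^ 2 := by positivity
      have := mul_le_mul_of_nonneg_right h43 h46
      nlinarith [this]
    nlinarith [h42]
  have h5 := h3.trans h4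
  have h6 : 0 ≤ 1 + ε := by linarith
  have h7 := mul_le_mul_of_nonneg_left hLS' h6
  set ex : ℝ := Real.exp (Real.pi * N / (X : ℝ) ^ 2) with hex
  have hex0 : 0 ≤ ex := (Real.exp_pos _).le
  have hK0 : 0 < K := by linarith
  have hgoal : K * primFamM M X Y
        (fun q χ => ‖∑ n ∈ Finset.Icc 1 N, b n * χ (n : ZMod q)‖ ^ 2) ≤
      K * ((1 + ε) * ex * (c1 * D * Real.log ((Y : ℝ) / X) + (c1 * Real.log P + C0)) * G
        + (2 / ε) * E) := by
    have h8 : c1 * (K * D) * (Real.log P + Real.log ((Y : ℝ) / X)) + C0 ≤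
        K * (c1 * D * Real.log ((Y : ℝ) / X) + (c1 * Real.log P + C0)) := by
      have h81 : c1 * Real.log P * D ≤ c1 * Real.log P * 1 :=
        mul_le_mul_of_nonneg_left hD1 (by positivity)
      have h82 : K * (c1 * Real.log P * D) ≤ K * (c1 * Real.log P * 1) :=
        mul_le_mul_of_nonneg_left h81 hK0.le
      have h83 : 1 * C0 ≤ K * C0 := mul_le_mul_of_nonneg_right hK1 hC0.le
      nlinarith
    have h9 : (1 + ε) * (ex * (c1 * (K * D) * (Real.log P + Real.log ((Y : ℝ) / X)) + C0) * G) ≤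
        K * ((1 + ε) * ex * (c1 * D * Real.log ((Y : ℝ) / X) + (c1 * Real.log P + C0)) * G) := by
      have h91 : 0 ≤ (1 + ε) * ex * G := by positivity
      have := mul_le_mul_of_nonneg_right h8 h91
      nlinarith [this]
    have h10 : (2 / ε) * E' ≤ K * ((2 / ε) * E) := by
      have h101 : (2 / ε) * E' ≤ (2 / ε) * E := mul_le_mul_of_nonneg_left hEE (by positivity)
      have : 0 ≤ (2 / ε) * E := by positivity
      nlinarith
    linarith
  exact le_of_mul_le_mul_left hgoal hK0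

end H385
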