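import Mathlib

/-!
Elementary inequalities, kept outside the long proofs for speed.
-/

namespace H385.NL

theorem b1 {L e : ℝ} (hL : 8 ≤ L) (h : 1 + 2 * L + (2 * L) ^ 2 / 2 ≤ e) : 3 * L ≤ e := by
  have : 8 * L ≤ L * L := mul_le_mul_of_nonneg_right hL (by linarith)
  linarith

theorem b2 {L e : ℝ} (hL : 8 ≤ L) (h : 3 * L ≤ e) : 9 * L ^ 2 ≤ e * e := by
  have := mul_self_le_mul_self (by linarith : 0 ≤ 3 * L) h
  linarith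

theorem b3 {L : ℝ} (hL : 8 ≤ L) : 8 * L ≤ L ^ 2 := by
  have : 8 * L ≤ L * L := mul_le_mul_of_nonneg_right hL (by linarith)
  linarith

theorem b4 {L η : ℝ} (hL : 8 ≤ L) (hη : η ≤ 1) : η * L ≤ L ^ 2 / 2 := by
  have h1 := mul_le_mul_of_nonneg_right hη (by linarith : 0 ≤ L)
  have h2 := b3 hL
  linarith

theorem b5 {L β : ℝ} (hL : 8 ≤ L) (h : 4 * β + 8 ≤ L) :
    4 * L + (β * L - L ^ 2 / 2) ≤ -(β * L) := by
  have := mul_le_mul_of_nonneg_right h (by linarith : 0 ≤ L)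
  linarith

theorem b6 {L : ℝ} (hL : 8 ≤ L) : 4 * L + -L ^ 2 / 2 ≤ 0 := by
  have := b3 hL
  linarith

theorem b7 {η : ℝ} (h0 : 0 ≤ η) (h1 : η ≤ 1) : (1 + 2 * η) ^ 2 ≤ 1 + 8 * η := by
  have := mul_le_mul_of_nonneg_left h1 h0
  linarith

theorem b8 {η r ε : ℝ} (h0 : 0 ≤ η) (h1 : η ≤ 1) (hr : 0 ≤ r) (h : 8 * η * r ≤ ε / 8) :
    (1 + 2 * η) ^ 2 * r ≤ r + ε / 8 := by
  have := mul_le_mul_of_nonneg_right (b7 h0 h1) hr
  linarith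

theorem b9 {e r : ℝ} (he : 0 ≤ e) : e * r ≤ e * (r + 1) := by
  linarith

theorem b10 {m x r ε : ℝ} (h4 : m * r ≤ x) (h3 : x ≤ ε / 64) : 8 * m * r ≤ ε / 8 := by
  linarith

theorem b11 {K X Y : ℝ} (hX : 0 ≤ X) (hK : 1 ≤ K) (h : K * X ≤ Y) : X ≤ Y :=
  (le_mul_of_one_le_left hX hK).trans h

theorem b12 {η L : ℝ} (hη : 0 < η) (hL : 1 ≤ L) : 1 ≤ (1 + 2 * η) * L :=
  one_le_mul_of_one_le_of_one_le (by linarith) hL

theorem b13 {W C T d x : ℝ} (h : 0 ≤ W * (5 * C * T) * (d - 1)) :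
    W * (x - 5 * C * T) * d ≤ W * (d * x - 5 * C * T) := by
  linarith

theorem c1 {ε : ℝ} (h0 : 0 < ε) (h1 : ε ≤ 1) : 1 ≤ (1 + ε) * (1 - ε / 2) := by
  have := mul_le_mul_of_nonneg_left h1 h0.le
  linarith

theorem c2 {C L : ℝ} (hL : 1 ≤ L) : C ≤ |C| * L :=
  (le_abs_self C).trans (le_mul_of_one_le_right (abs_nonneg _) hL)

end H385.NL
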