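import Pool.Agent.H385R2.Cut

open Complex Filter Topology Set MeasureTheory
open H370 (zset mult NN Nd Ns)

namespace H385

namespace NLow
open Cut

noncomputable def c1 (T : ℝ) (z : ℂ) : ℂ :=
  (1 / Real.sqrt Real.pi : ℝ) * ∫ m in T..(2 * T), cexp (-(z - m) ^ 2)

theorem sqrt_pi_one : Real.sqrt (Real.pi / 1) = Real.sqrt Real.pi := by
  congr 1; ring

theorem norm_c1int (z : ℂ) (τ : ℝ) : ‖cexp (-(z - τ) ^ 2)‖ =
    Real.exp (z.im ^ 2) * Real.exp (-1 * (τ - z.re) ^ 2) := by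
  rw [Complex.norm_exp, ← Real.exp_add]
  congr 1
  have : (-(z - τ) ^ 2 : ℂ) = ((-1 : ℝ) : ℂ) * ((z - τ) * (z - τ)) := by
    push_cast; ring
  rw [this, Complex.re_ofReal_mul, Complex.mul_re]
  simp
  ring

theorem c1int_cont (z : ℂ) : Continuous (fun τ : ℝ => cexp (-(z - τ) ^ 2)) := by
  fun_prop

theorem c1int_integrable (z : ℂ) : Integrable (fun τ : ℝ => cexp (-(z - τ) ^ 2)) := by
  refine Integrable.mono' (((int_gauss_shift (by norm_num : (0:ℝ) < 1) z.re).const_mul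
    (Real.exp (z.im ^ 2)))) (c1int_cont z).aestronglyMeasurable ?_
  exact Eventually.of_forall (fun τ => (norm_c1int z τ).le)

theorem integral_c1int (z : ℂ) : ∫ τ : ℝ, cexp (-(z - τ) ^ 2) = (Real.sqrt Real.pi : ℂ) := by
  have h1 : ∫ τ : ℝ, cexp (-(z - τ) ^ 2) =
      ∫ τ : ℝ, cexp (-(1 : ℂ) * (((τ - z.re : ℝ) : ℂ) + ((-z.im : ℝ) : ℂ) * I) ^ 2) := by
    congr 1
    ext τ
    congr 1
    have hz : z = (z.re : ℂ) + (z.im : ℂ) * I := (re_add_im z).symm
    have : (-(z - τ) ^ 2 : ℂ) = -(1 : ℂ) * ((τ : ℂ) - z) ^ 2 := by ring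
    rw [this]
    conv_lhs => rw [hz]
    push_cast
    ring
  rw [h1, integral_sub_right_eq_self
    (fun s : ℝ => cexp (-(1 : ℂ) * ((s : ℂ) + ((-z.im : ℝ) : ℂ) * I) ^ 2)) z.re,
    GaussianFourier.integral_cexp_neg_mul_sq_add_real_mul_I (by norm_num)]
  rw [div_one, Real.sqrt_eq_rpow, Complex.ofReal_cpow (by positivity)]
  norm_num

theorem exp_im_le2 {y : ℝ} (hy : |y| ≤ 1 / 2) : Real.exp (y ^ 2) ≤ 2 := by
  have h1 : y ^ 2 ≤ 1 / 4 := by
    have := abs_le.mp hy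
    nlinarith
  have h2 : Real.exp (y ^ 2) ≤ Real.exp (1 / 4) := Real.exp_le_exp.mpr h1
  have h3 : Real.exp (1 / 4) ≤ Real.exp (Real.log 2) := by
    apply Real.exp_le_exp.mpr
    have := Real.log_two_gt_d9
    linarith
  rw [Real.exp_log (by norm_num)] at h3
  linarith

theorem norm_c1_int_le (T : ℝ) (hT : 0 ≤ T) (z : ℂ) :
    ‖∫ τ in T..(2 * T), cexp (-(z - τ) ^ 2)‖ ≤
      Real.exp (z.im ^ 2) * ∫ τ in T..(2 * T), Real.exp (-1 * (τ - z.re) ^ 2) := by
  rw [← intervalIntegral.integral_const_mul]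
  refine (intervalIntegral.norm_integral_le_integral_norm (by linarith)).trans (le_of_eq ?_)
  congr 1
  ext τ
  exact norm_c1int z τ

theorem c1_bound (T : ℝ) (hT : 0 ≤ T) (z : ℂ) (hz : |z.im| ≤ 1 / 2) : ‖c1 T z‖ ≤ 2 := by
  unfold c1
  rw [norm_mul, Complex.norm_real, Real.norm_of_nonneg (by positivity)]
  have h2 := interval_le (int_gauss_shift (by norm_num : (0:ℝ) < 1) z.re)
      (fun τ => (Real.exp_pos _).le) (show T ≤ 2 * T by linarith)
  rw [integral_gauss_shift, sqrt_pi_one] at h2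
  rw [one_div, inv_mul_le_iff₀ sqrt_pi_pos]
  calc _ ≤ _ := norm_c1_int_le T hT z
    _ ≤ 2 * Real.sqrt Real.pi :=
        mul_le_mul (exp_im_le2 hz) h2
          (interval_nonneg (fun τ => (Real.exp_pos _).le) (by linarith)) (by norm_num)
    _ = Real.sqrt Real.pi * 2 := mul_comm _ _

theorem c1_near (T κ : ℝ) (hκ : 0 ≤ κ) (z : ℂ) (hz : |z.im| ≤ 1 / 2) (h1 : T + κ ≤ z.re)
    (h2 : z.re ≤ 2 * T - κ) : ‖c1 T z - 1‖ ≤ 2 * Real.exp (-κ ^ 2 / 2) := by
  have hs : c1 T z - 1 = (1 / Real.sqrt Real.pi : ℝ) *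
      (-(∫ τ : ℝ in Iic T, cexp (-(z - τ) ^ 2)) - ∫ τ : ℝ in Ioi (2 * T), cexp (-(z - τ) ^ 2)) := by
    unfold c1
    rw [split3 (c1int_integrable z), integral_c1int]
    have : (Real.sqrt Real.pi : ℂ) ≠ 0 := by
      exact_mod_cast sqrt_pi_pos.ne'
    push_cast
    field_simp
    ring
  rw [hs, norm_mul, Complex.norm_real, Real.norm_of_nonneg (by positivity), one_div,
    inv_mul_le_iff₀ sqrt_pi_pos]
  have hb : (0:ℝ) < 1 := by norm_num
  have e1 : ‖∫ τ : ℝ in Iic T, cexp (-(z - τ) ^ 2)‖ ≤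
      2 * (Real.sqrt Real.pi / 2 * Real.exp (-κ ^ 2 / 2)) := by
    calc _ ≤ ∫ τ : ℝ in Iic T, ‖cexp (-(z - τ) ^ 2)‖ := norm_integral_le_integral_norm _
      _ = Real.exp (z.im ^ 2) * ∫ τ : ℝ in Iic T, Real.exp (-1 * (τ - z.re) ^ 2) := by
          rw [← integral_const_mul]
          congr 1
          ext τ
          exact norm_c1int z τ
      _ ≤ 2 * (Real.sqrt Real.pi / 2 * Real.exp (-κ ^ 2 / 2)) := by
          apply mul_le_mul (exp_im_le2 hz) _ (setIntegral_nonneg measurableSet_Iic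
            (fun τ _ => (Real.exp_pos _).le)) (by norm_num)
          have h3 := tail_Iic hb (t := z.re) (a := T) (by linarith)
          rw [sqrt_pi_one] at h3
          refine h3.trans (mul_le_mul_of_nonneg_left (Real.exp_le_exp.mpr ?_) (by positivity))
          nlinarith
  have e2 : ‖∫ τ : ℝ in Ioi (2 * T), cexp (-(z - τ) ^ 2)‖ ≤
      2 * (Real.sqrt Real.pi / 2 * Real.exp (-κ ^ 2 / 2)) := by
    calc _ ≤ ∫ τ : ℝ in Ioi (2 * T), ‖cexp (-(z - τ) ^ 2)‖ := norm_integral_le_integral_norm _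
      _ = Real.exp (z.im ^ 2) * ∫ τ : ℝ in Ioi (2 * T), Real.exp (-1 * (τ - z.re) ^ 2) := by
          rw [← integral_const_mul]
          congr 1
          ext τ
          exact norm_c1int z τ
      _ ≤ 2 * (Real.sqrt Real.pi / 2 * Real.exp (-κ ^ 2 / 2)) := by
          apply mul_le_mul (exp_im_le2 hz) _ (setIntegral_nonneg measurableSet_Ioi
            (fun τ _ => (Real.exp_pos _).le)) (by norm_num)
          have h3 := tail_Ioi hb (t := z.re) (a := 2 * T) (by linarith)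
          rw [sqrt_pi_one] at h3
          refine h3.trans (mul_le_mul_of_nonneg_left (Real.exp_le_exp.mpr ?_) (by positivity))
          nlinarith
  calc _ ≤ ‖-(∫ τ : ℝ in Iic T, cexp (-(z - τ) ^ 2))‖ +
        ‖∫ τ : ℝ in Ioi (2 * T), cexp (-(z - τ) ^ 2)‖ := norm_sub_le _ _
    _ ≤ _ := by
      rw [norm_neg]
      nlinarith [e1, e2]

theorem c1_far (T κ : ℝ) (hT : 0 ≤ T) (hκ : 0 ≤ κ) (z : ℂ) (hz : |z.im| ≤ 1 / 2)
    (h : z.re ≤ T - κ ∨ 2 * T + κ ≤ z.re) : ‖c1 T z‖ ≤ 2 * Real.exp (-κ ^ 2 / 2) := by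
  have hb : (0:ℝ) < 1 := by norm_num
  have key : ∫ τ in T..(2 * T), Real.exp (-1 * (τ - z.re) ^ 2) ≤
      Real.sqrt Real.pi / 2 * Real.exp (-κ ^ 2 / 2) := by
    rcases h with h | h
    · refine (interval_le_Ioi (int_gauss_shift hb z.re) (fun τ => (Real.exp_pos _).le)
        (by linarith)).trans ?_
      have h3 := tail_Ioi hb (t := z.re) (a := T) (by linarith)
      rw [sqrt_pi_one] at h3
      refine h3.trans (mul_le_mul_of_nonneg_left (Real.exp_le_exp.mpr ?_) (by positivity))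
      nlinarith
    · refine (interval_le_Iic (int_gauss_shift hb z.re) (fun τ => (Real.exp_pos _).le)
        (by linarith)).trans ?_
      have h3 := tail_Iic hb (t := z.re) (a := 2 * T) (by linarith)
      rw [sqrt_pi_one] at h3
      refine h3.trans (mul_le_mul_of_nonneg_left (Real.exp_le_exp.mpr ?_) (by positivity))
      nlinarith
  unfold c1
  rw [norm_mul, Complex.norm_real, Real.norm_of_nonneg (by positivity), one_div,
    inv_mul_le_iff₀ sqrt_pi_pos]
  calc _ ≤ _ := norm_c1_int_le T hT z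
    _ ≤ 2 * (Real.sqrt Real.pi / 2 * Real.exp (-κ ^ 2 / 2)) :=
        mul_le_mul (exp_im_le2 hz) key
          (interval_nonneg (fun τ => (Real.exp_pos _).le) (by linarith)) (by norm_num)
    _ ≤ _ := by nlinarith [mul_pos sqrt_pi_pos (Real.exp_pos (-κ ^ 2 / 2))]

/-! ### the prime side at `u = 0` -/

theorem K0_summable : Summable (fun n : ℕ => ArithmeticFunction.vonMangoldt n / Real.sqrt n *
    Real.exp (-(Real.log n) ^ 2 / 4)) := by
  refine Summable.of_nonneg_of_le (fun n => ?_) (fun n => ?_)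
    ((Real.summable_one_div_nat_pow.mpr (one_lt_two)).mul_left (Real.exp 9))
  · exact mul_nonneg (div_nonneg ArithmeticFunction.vonMangoldt_nonneg (Real.sqrt_nonneg _))
      (Real.exp_pos _).le
  · rcases Nat.eq_zero_or_pos n with h | h
    · subst h
      simp
    · have hn : (1 : ℝ) ≤ n := by exact_mod_cast h
      have hn0 : (0 : ℝ) < n := by linarith
      have h1 : ArithmeticFunction.vonMangoldt n ≤ (n : ℝ) :=
        ArithmeticFunction.vonMangoldt_le_log.trans ((Real.log_le_sub_one_of_pos hn0).trans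
          (by linarith))
      have h2 : 1 ≤ Real.sqrt n := by rw [Real.le_sqrt (by norm_num) hn0.le]; simpa using hn
      have h3 : Real.exp (-(Real.log n) ^ 2 / 4) ≤ Real.exp 9 * ((n : ℝ) ^ 3)⁻¹ := by
        have : ((n : ℝ) ^ 3)⁻¹ = Real.exp (-(3 * Real.log n)) := by
          rw [Real.exp_neg]
          congr 1
          rw [show (3 : ℝ) * Real.log n = ((3 : ℕ) : ℝ) * Real.log n by norm_num, Real.exp_nat_mul,
            Real.exp_log hn0]
        rw [this, ← Real.exp_add]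
        apply Real.exp_le_exp.mpr
        nlinarith [sq_nonneg (Real.log n / 2 - 3)]
      have h4 : ArithmeticFunction.vonMangoldt n / Real.sqrt n ≤ (n : ℝ) :=
        (div_le_self ArithmeticFunction.vonMangoldt_nonneg h2).trans h1
      calc _ ≤ (n : ℝ) * (Real.exp 9 * ((n : ℝ) ^ 3)⁻¹) :=
            mul_le_mul h4 h3 (Real.exp_pos _).le hn0.le
        _ = Real.exp 9 * (1 / (n : ℝ) ^ 2) := by
            field_simp

noncomputable def K0 : ℝ := ∑' n : ℕ, ArithmeticFunction.vonMangoldt n / Real.sqrt n *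
    Real.exp (-(Real.log n) ^ 2 / 4)

theorem K0_nonneg : 0 ≤ K0 := tsum_nonneg fun n =>
  mul_nonneg (div_nonneg ArithmeticFunction.vonMangoldt_nonneg (Real.sqrt_nonneg _))
      (Real.exp_pos _).le

theorem PP1_zero_le (a : ℕ → ℂ) (ha : ∀ n, ‖a n‖ ≤ ArithmeticFunction.vonMangoldt n) (m : ℝ) :
    ‖PP1 a 0 m‖ ≤ K0 := by
  unfold PP1 K0
  refine tsum_of_norm_bounded K0_summable.hasSum (fun n => ?_)
  rw [norm_mul, norm_mul, norm_mul, norm_inv, Complex.norm_real, Complex.norm_real,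
    Real.norm_of_nonneg (Real.exp_pos _).le, Real.norm_of_nonneg (Real.sqrt_nonneg _)]
  have h1 : ‖cexp (I * m * ((0 : ℝ) - Real.log n))‖ = 1 := by
    have : (I * m * ((0 : ℝ) - Real.log n) : ℂ) = ((m * (0 - Real.log n) : ℝ) : ℂ) * I := by
      push_cast; ring
    rw [this, Complex.norm_exp_ofReal_mul_I]
  rw [h1, mul_one, zero_sub, neg_sq, div_eq_mul_inv]
  apply mul_le_mul_of_nonneg_right _ (Real.exp_pos _).le
  exact mul_le_mul_of_nonneg_right (ha n) (inv_nonneg.mpr (Real.sqrt_nonneg _))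

/-! ### counting -/

theorem NN_eq_sum (F : ℂ → ℂ) (V1 V2 : ℝ) (hfin : (zset F V1 V2).Finite) (a b : ℝ) (ha : V1 ≤ a)
    (hb : b ≤ V2) : (NN F a b : ℝ) =
      ∑ s ∈ hfin.toFinset, (mult F s : ℝ) * (if a < s.im ∧ s.im ≤ b then 1 else 0) := by
  have hsub : zset F a b ⊆ zset F V1 V2 := fun s hs =>
    ⟨hs.1, hs.2.1, lt_of_le_of_lt ha hs.2.2.1, hs.2.2.2.1.trans hb, hs.2.2.2.2⟩
  have hf2 : (zset F a b).Finite := hfin.subset hsub
  unfold NN
  rw [finsum_mem_eq_finite_toFinset_sum _ hf2]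
  push_cast
  have : hf2.toFinset = hfin.toFinset.filter (fun s => a < s.im ∧ s.im ≤ b) := by
    ext s
    simp only [Finite.mem_toFinset, Finset.mem_filter]
    constructor
    · intro h
      exact ⟨hsub h, h.2.2.1, h.2.2.2.1⟩
    · rintro ⟨h1, h2, h3⟩
      exact ⟨h1.1, h1.2.1, h2, h3, h1.2.2.2.2⟩
  rw [this, Finset.sum_filter]
  apply Finset.sum_congr rfl
  intro s _
  split_ifs <;> simp

theorem zz_re (s : ℂ) : (zz s).re = s.im := by simp [zz]
theorem zz_im (s : ℂ) : (zz s).im = 1 / 2 - s.re := by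
  simp [zz]

theorem A1_zero (F : ℂ → ℂ) (V1 V2 : ℝ) (hfin : (zset F V1 V2).Finite) (m : ℝ) :
    A1 F V1 V2 0 m = ∑ s ∈ hfin.toFinset, (mult F s : ℂ) * cexp (-(zz s - m) ^ 2) := by
  unfold A1
  rw [finsum_mem_eq_finite_toFinset_sum _ hfin]
  apply Finset.sum_congr rfl
  intro s _
  simp

theorem A1_integral (F : ℂ → ℂ) (V1 V2 T : ℝ) (hfin : (zset F V1 V2).Finite) :
    (1 / Real.sqrt Real.pi : ℝ) * ∫ m in T..(2 * T), A1 F V1 V2 0 m =
      ∑ s ∈ hfin.toFinset, (mult F s : ℂ) * c1 T (zz s) := by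
  simp only [A1_zero F V1 V2 hfin]
  rw [intervalIntegral.integral_finsetSum, Finset.mul_sum]
  · apply Finset.sum_congr rfl
    intro s _
    rw [intervalIntegral.integral_const_mul]
    unfold c1
    ring
  · intro s _
    exact ((continuous_const.mul (c1int_cont (zz s)))).intervalIntegrable _ _

end NLow

open NLow

/-- `N_lower` from the statements `zset_finite_U`, `zcount_long`, `A1_formula` -/
theorem N_lower_core (A : ℝ)
    (hfin0 : ∀ (Q : ℝ) (F : ℂ → ℂ) (a : ℕ → ℂ), 1 ≤ Q → GoodU A Q F a →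
      ∀ T1 T2 : ℝ, 1 ≤ T1 → (zset F T1 T2).Finite)
    (hcnt0 : ∃ C : ℝ, 0 < C ∧ ∀ (Q : ℝ) (F : ℂ → ℂ) (a : ℕ → ℂ), 1 ≤ Q →
      GoodU A Q F a → ∀ T1 T2 : ℝ, 3 ≤ T1 → T1 + 1 ≤ T2 →
      (NN F T1 T2 : ℝ) ≤ C * (T2 - T1) * Real.log (Q * T2))
    (hEF0 : ∃ C : ℝ, 0 < C ∧ ∀ (Q : ℝ) (F : ℂ → ℂ) (a : ℕ → ℂ), 1 ≤ Q →
      GoodU A Q F a → ∀ T κ : ℝ, 3 ≤ κ → 8 * κ ≤ T →
      ∃ V1 V2 : ℝ, T - 3 * κ ≤ V1 ∧ V1 ≤ T - 3 * κ + 1 ∧ 2 * T + 3 * κ - 1 ≤ V2 ∧
        V2 ≤ 2 * T + 3 * κ ∧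
      ∀ u m : ℝ, 0 ≤ u → V1 + κ ≤ m → m ≤ V2 - κ →
        ‖A1 F V1 V2 u m - (1 / (2 * Real.sqrt Real.pi) : ℝ) *
          (Real.log (Q * T) * cexp (I * m * u) * Real.exp (-u ^ 2 / 4) - PP1 a u m)‖ ≤
        C * (Real.exp (-u) + (Real.log (Q * T)) ^ 2 * Real.exp (u - κ ^ 2 / 2))) :
    ∃ C : ℝ, 0 < C ∧ ∀ (Q : ℝ) (F : ℂ → ℂ) (a : ℕ → ℂ), 1 ≤ Q → GoodU A Q F a →
    ∀ T κ : ℝ, 3 ≤ κ → 8 * κ ≤ T →
      T / (2 * Real.pi) * Real.log (Q * T) -
        C * (T + κ * Real.log (Q * T) + T * Real.log (Q * T) ^ 2 * Real.exp (-κ ^ 2 / 2)) ≤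
      (NN F T (2 * T) : ℝ) := by
  obtain ⟨C1, hC1, hZ⟩ := hcnt0
  obtain ⟨C2, hC2, hEF⟩ := hEF0
  refine ⟨K0 + C2 + 16 * C1 + 1, by linarith [K0_nonneg], fun Q F a hQ hF T κ hκ hT => ?_⟩
  obtain ⟨V1, V2, hV1, hV1', hV2, hV2', hform⟩ := hEF Q F a hQ hF T κ hκ hT
  have hfin := hfin0 Q F a hQ hF V1 V2 (by linarith)
  have hT24 : 24 ≤ T := by linarith
  set L := Real.log (Q * T) with hL
  set ε := Real.exp (-κ ^ 2 / 2) with hε
  have hε0 : 0 < ε := Real.exp_pos _
  have hL1 : 2 ≤ L := by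
    have h1 : Real.exp 2 ≤ 24 := by
      have h := Real.exp_one_lt_d9
      have h' : Real.exp 2 = Real.exp 1 * Real.exp 1 := by rw [← Real.exp_add]; norm_num
      nlinarith [Real.exp_pos 1]
    rw [hL, Real.le_log_iff_exp_le (by positivity)]
    nlinarith
  have hlog : ∀ x : ℝ, 0 < x → x ≤ 3 * T → Real.log (Q * x) ≤ 2 * L := by
    intro x hx0 hx
    have h1 : Real.log (Q * x) ≤ Real.log (3 * (Q * T)) := by
      apply Real.log_le_log (by positivity)
      nlinarith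
    have h2 : Real.log (3 * (Q * T)) = Real.log 3 + L := by
      rw [hL, Real.log_mul (by norm_num) (by positivity)]
    have h3 : Real.log 3 ≤ 2 := by
      have := Real.log_le_sub_one_of_pos (show (0:ℝ) < 3 by norm_num)
      linarith
    linarith
  -- integral lower bound
  have hsp := Cut.sqrt_pi_pos
  have hsq1 : Real.sqrt Real.pi ^ 2 = Real.pi := Real.sq_sqrt Real.pi_pos.le
  have hlow : ∀ m ∈ Icc T (2 * T), 1 / (2 * Real.sqrt Real.pi) * (L - K0) - C2 * (1 + L ^ 2 * ε) ≤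
      (A1 F V1 V2 0 m).re := by
    intro m hm
    have h1 := hform 0 m le_rfl (by linarith [hm.1]) (by linarith [hm.2])
    have h2 : ((L : ℂ) * cexp (I * m * (0 : ℝ)) * (Real.exp (-(0:ℝ) ^ 2 / 4) : ℂ) - PP1 a 0 m) =
        (L : ℂ) - PP1 a 0 m := by simp
    rw [h2] at h1
    have h3 : C2 * (Real.exp (-(0:ℝ)) + L ^ 2 * Real.exp (0 - κ ^ 2 / 2)) = C2 * (1 + L ^ 2 * ε) := by
      rw [neg_zero, Real.exp_zero, zero_sub, hε]
      congr 4
      ring
    rw [h3] at h1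
    have h4 := (abs_le.mp ((Complex.abs_re_le_norm _).trans h1)).1
    rw [Complex.sub_re, Complex.re_ofReal_mul, Complex.sub_re, Complex.ofReal_re] at h4
    have h5 : (PP1 a 0 m).re ≤ K0 :=
      (Complex.re_le_norm _).trans (PP1_zero_le a hF.ha m)
    have h6 : 1 / (2 * Real.sqrt Real.pi) * (L - K0) ≤
        1 / (2 * Real.sqrt Real.pi) * (L - (PP1 a 0 m).re) := by
      apply mul_le_mul_of_nonneg_left (by linarith) (by positivity)
    linarith
  have hcont : Continuous (fun m : ℝ => A1 F V1 V2 0 m) := by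
    simp only [A1_zero F V1 V2 hfin]
    fun_prop
  have hint : T * (1 / (2 * Real.sqrt Real.pi) * (L - K0) - C2 * (1 + L ^ 2 * ε)) ≤
      (∫ m in T..(2 * T), A1 F V1 V2 0 m).re := by
    have h1 : (∫ m in T..(2 * T), A1 F V1 V2 0 m).re = ∫ m in T..(2 * T), (A1 F V1 V2 0 m).re := by
      have := (Complex.reCLM.intervalIntegral_comp_comm
        (hcont.intervalIntegrable (μ := volume) T (2 * T)))
      simpa using this.symm
    rw [h1]
    have h2 : ∫ m in T..(2 * T), (1 / (2 * Real.sqrt Real.pi) * (L - K0) - C2 * (1 + L ^ 2 * ε)) =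
        T * (1 / (2 * Real.sqrt Real.pi) * (L - K0) - C2 * (1 + L ^ 2 * ε)) := by
      rw [intervalIntegral.integral_const, smul_eq_mul]
      ring
    rw [← h2]
    apply intervalIntegral.integral_mono_on (by linarith)
    · exact continuous_const.intervalIntegrable _ _
    · exact (Complex.continuous_re.comp hcont).intervalIntegrable _ _
    · exact hlow
  -- upper bound of the zero side
  have hup : ∀ s ∈ hfin.toFinset, (c1 T (zz s)).re ≤
      (if T < s.im ∧ s.im ≤ 2 * T then 1 else 0) +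
      2 * (if T - κ < s.im ∧ s.im ≤ T + κ then 1 else 0) +
      2 * (if 2 * T - κ < s.im ∧ s.im ≤ 2 * T + κ then 1 else 0) +
      2 * ε * (if V1 < s.im ∧ s.im ≤ V2 then 1 else 0) := by
    intro s hs
    rw [Finite.mem_toFinset] at hs
    obtain ⟨hs1, hs2, hs3, hs4, _⟩ := hs
    have him : |(zz s).im| ≤ 1 / 2 := by
      rw [zz_im, abs_le]
      constructor <;> linarith
    rw [if_pos (⟨hs3, hs4⟩ : V1 < s.im ∧ s.im ≤ V2)]
    have i1 : (0:ℝ) ≤ if T < s.im ∧ s.im ≤ 2 * T then 1 else 0 := by split_ifs <;> norm_num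
    have i2 : (0:ℝ) ≤ if T - κ < s.im ∧ s.im ≤ T + κ then 1 else 0 := by split_ifs <;> norm_num
    have i3 : (0:ℝ) ≤ if 2 * T - κ < s.im ∧ s.im ≤ 2 * T + κ then 1 else 0 := by
      split_ifs <;> norm_num
    rcases le_or_gt s.im (T - κ) with h1 | h1
    · have := c1_far T κ (by linarith) (by linarith) (zz s) him (Or.inl (by rw [zz_re]; exact h1))
      have h2 := Complex.re_le_norm (c1 T (zz s))
      linarith
    rcases le_or_gt s.im (T + κ) with h2 | h2
    · have := c1_bound T (by linarith) (zz s) him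
      have h3 := Complex.re_le_norm (c1 T (zz s))
      rw [if_pos (⟨h1, h2⟩ : T - κ < s.im ∧ s.im ≤ T + κ)]
      linarith
    rcases le_or_gt s.im (2 * T - κ) with h3 | h3
    · have := c1_near T κ (by linarith) (zz s) him (by rw [zz_re]; exact h2.le)
        (by rw [zz_re]; exact h3)
      have h4 := Complex.re_le_norm (c1 T (zz s) - 1)
      rw [Complex.sub_re, Complex.one_re] at h4
      rw [if_pos (⟨by linarith, by linarith⟩ : T < s.im ∧ s.im ≤ 2 * T)]
      linarith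
    rcases le_or_gt s.im (2 * T + κ) with h4 | h4
    · have := c1_bound T (by linarith) (zz s) him
      have h5 := Complex.re_le_norm (c1 T (zz s))
      rw [if_pos (⟨h3, h4⟩ : 2 * T - κ < s.im ∧ s.im ≤ 2 * T + κ)]
      linarith
    · have := c1_far T κ (by linarith) (by linarith) (zz s) him (Or.inr (by rw [zz_re]; exact h4.le))
      have h5 := Complex.re_le_norm (c1 T (zz s))
      linarith
  have hsum : (∑ s ∈ hfin.toFinset, (mult F s : ℂ) * c1 T (zz s)).re ≤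
      NN F T (2 * T) + 2 * NN F (T - κ) (T + κ) + 2 * NN F (2 * T - κ) (2 * T + κ) +
        2 * ε * NN F V1 V2 := by
    rw [Complex.re_sum, NN_eq_sum F V1 V2 hfin T (2 * T) (by linarith) (by linarith),
      NN_eq_sum F V1 V2 hfin (T - κ) (T + κ) (by linarith) (by linarith),
      NN_eq_sum F V1 V2 hfin (2 * T - κ) (2 * T + κ) (by linarith) (by linarith),
      NN_eq_sum F V1 V2 hfin V1 V2 le_rfl le_rfl, Finset.mul_sum, Finset.mul_sum, Finset.mul_sum,
      ← Finset.sum_add_distrib, ← Finset.sum_add_distrib, ← Finset.sum_add_distrib]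
    apply Finset.sum_le_sum
    intro s hs
    have h1 : ((mult F s : ℂ) * c1 T (zz s)).re = (mult F s : ℝ) * (c1 T (zz s)).re := by
      rw [show (mult F s : ℂ) = ((mult F s : ℝ) : ℂ) by push_cast; rfl, Complex.re_ofReal_mul]
    rw [h1]
    have h2 := mul_le_mul_of_nonneg_left (hup s hs) (Nat.cast_nonneg (α := ℝ) (mult F s))
    refine h2.trans (le_of_eq ?_)
    ring
  have hcount1 := hZ Q F a hQ hF (T - κ) (T + κ) (by linarith) (by linarith)
  have hcount2 := hZ Q F a hQ hF (2 * T - κ) (2 * T + κ) (by linarith) (by linarith)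
  have hcount3 := hZ Q F a hQ hF V1 V2 (by linarith) (by linarith)
  have hl1 := hlog (T + κ) (by linarith) (by linarith)
  have hl2 := hlog (2 * T + κ) (by linarith) (by linarith)
  have hl3 := hlog V2 (by linarith) (by linarith)
  have hκ0 : 0 < κ := by linarith
  have hT0 : 0 < T := by linarith
  have g1 : (NN F (T - κ) (T + κ) : ℝ) ≤ 4 * C1 * κ * L := by
    have : T + κ - (T - κ) = 2 * κ := by ring
    rw [this] at hcount1
    calc _ ≤ _ := hcount1
      _ ≤ C1 * (2 * κ) * (2 * L) := mul_le_mul_of_nonneg_left hl1 (by positivity)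
      _ = _ := by ring
  have g2 : (NN F (2 * T - κ) (2 * T + κ) : ℝ) ≤ 4 * C1 * κ * L := by
    have : 2 * T + κ - (2 * T - κ) = 2 * κ := by ring
    rw [this] at hcount2
    calc _ ≤ _ := hcount2
      _ ≤ C1 * (2 * κ) * (2 * L) := mul_le_mul_of_nonneg_left hl2 (by positivity)
      _ = _ := by ring
  have g3 : (NN F V1 V2 : ℝ) ≤ 4 * C1 * T * L := by
    calc _ ≤ _ := hcount3
      _ ≤ C1 * (V2 - V1) * (2 * L) := mul_le_mul_of_nonneg_left hl3
          (mul_nonneg hC1.le (by linarith))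
      _ ≤ C1 * (2 * T) * (2 * L) := by
          apply mul_le_mul_of_nonneg_right _ (by linarith)
          apply mul_le_mul_of_nonneg_left (by linarith) hC1.le
      _ = _ := by ring
  have hA1 := A1_integral F V1 V2 T hfin
  have hre := congrArg Complex.re hA1
  rw [Complex.re_ofReal_mul] at hre
  have hfinal : 1 / Real.sqrt Real.pi *
      (T * (1 / (2 * Real.sqrt Real.pi) * (L - K0) - C2 * (1 + L ^ 2 * ε))) ≤
      NN F T (2 * T) + 2 * NN F (T - κ) (T + κ) + 2 * NN F (2 * T - κ) (2 * T + κ) +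
        2 * ε * NN F V1 V2 := by
    calc _ ≤ 1 / Real.sqrt Real.pi * (∫ m in T..(2 * T), A1 F V1 V2 0 m).re :=
          mul_le_mul_of_nonneg_left hint (by positivity)
      _ ≤ _ := by rw [hre]; exact hsum
  have hs1 : 1 ≤ Real.sqrt Real.pi := by
    rw [Real.le_sqrt (by norm_num) (by positivity)]
    have := Real.pi_gt_three
    linarith
  have hleft : T / (2 * Real.pi) * L - T * K0 - C2 * (T + T * L ^ 2 * ε) ≤ 1 / Real.sqrt Real.pi *
      (T * (1 / (2 * Real.sqrt Real.pi) * (L - K0) - C2 * (1 + L ^ 2 * ε))) := by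
    have e1 : 1 / Real.sqrt Real.pi *
      (T * (1 / (2 * Real.sqrt Real.pi) * (L - K0) - C2 * (1 + L ^ 2 * ε))) =
      T / (2 * Real.pi) * L - T * K0 * (1 / (2 * Real.pi)) -
        (1 / Real.sqrt Real.pi) * (C2 * (T + T * L ^ 2 * ε)) := by
      have hs2 : Real.pi = Real.sqrt Real.pi * Real.sqrt Real.pi := by rw [← sq, hsq1]
      generalize Real.sqrt Real.pi = s at hs2 hsp ⊢
      rw [hs2]
      field_simp
    rw [e1]
    have e2 : 1 / (2 * Real.pi) ≤ 1 := by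
      rw [div_le_one (by positivity)]
      have := Real.pi_gt_three
      linarith
    have e3 : 1 / Real.sqrt Real.pi ≤ 1 := by
      rw [div_le_one hsp]
      exact hs1
    have e4 : T * K0 * (1 / (2 * Real.pi)) ≤ T * K0 :=
      mul_le_of_le_one_right (mul_nonneg hT0.le K0_nonneg) e2
    have e5 : (1 / Real.sqrt Real.pi) * (C2 * (T + T * L ^ 2 * ε)) ≤ C2 * (T + T * L ^ 2 * ε) :=
      mul_le_of_le_one_left (by positivity) e3
    linarith
  have g4 : 2 * ε * (NN F V1 V2 : ℝ) ≤ 8 * C1 * (T * L ^ 2 * ε) := by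
    calc 2 * ε * (NN F V1 V2 : ℝ) ≤ 2 * ε * (4 * C1 * T * L) :=
          mul_le_mul_of_nonneg_left g3 (by positivity)
      _ = 8 * C1 * T * ε * L := by ring
      _ ≤ 8 * C1 * T * ε * L ^ 2 := by
          apply mul_le_mul_of_nonneg_left _ (by positivity)
          nlinarith
      _ = _ := by ring
  have hTL : 0 ≤ T * L ^ 2 * ε := by positivity
  have hκL : 0 ≤ κ * L := by positivity
  have hK := K0_nonneg
  have q1 := mul_nonneg hK hκL
  have q2 := mul_nonneg hK hTL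
  have q3 := mul_nonneg hC2.le hκL
  have q4 := mul_nonneg hC1.le hT0.le
  have q5 := mul_nonneg hC1.le hTL
  have hexp : (K0 + C2 + 16 * C1 + 1) * (T + κ * L + T * L ^ 2 * ε) =
      T * K0 + K0 * (κ * L) + K0 * (T * L ^ 2 * ε) + C2 * (T + T * L ^ 2 * ε) + C2 * (κ * L) +
      16 * (C1 * T) + 16 * C1 * (κ * L) + 16 * (C1 * (T * L ^ 2 * ε)) + T + κ * L +
      T * L ^ 2 * ε := by ring
  rw [hexp]
  have g1' : 2 * (NN F (T - κ) (T + κ) : ℝ) ≤ 8 * C1 * (κ * L) := by linarith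
  have g2' : 2 * (NN F (2 * T - κ) (2 * T + κ) : ℝ) ≤ 8 * C1 * (κ * L) := by linarith
  linarith

end H385
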