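import Pool.Agent.H385R2.Defs5
import Pool.Agent.H385R2.Dual

/-!
TEAM Q, module S2: adding a plateau around the fractions of small denominator.
-/

open Complex Filter Topology Set MeasureTheory

namespace H385

lemma pl_PK_eq (V x : ℝ) : PK V x = (V / Real.pi) * (1 + (V * x) ^ 2)⁻¹ := by
  unfold PK
  rw [mul_pow, div_eq_mul_inv]

lemma pl_PK_integrable (V : ℝ) (hV : 0 < V) : Integrable (PK V) := by
  have h1 : Integrable (fun x : ℝ => (V / Real.pi) * (1 + (V * x) ^ 2)⁻¹) :=
    (integrable_inv_one_add_sq.comp_mul_left' hV.ne').const_mul _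
  exact h1.congr (Filter.Eventually.of_forall fun x => (pl_PK_eq V x).symm)

lemma pl_PK_cont (V : ℝ) : Continuous (PK V) := by
  unfold PK
  apply Continuous.div continuous_const (by fun_prop)
  intro x
  positivity

lemma pl_PK_integral (V : ℝ) (hV : 0 < V) : ∫ x, PK V x = 1 := by
  simp_rw [pl_PK_eq]
  rw [integral_const_mul, Measure.integral_comp_mul_left (fun x : ℝ => (1 + x ^ 2)⁻¹) V,
    integral_univ_inv_one_add_sq, abs_of_pos (inv_pos.mpr hV), smul_eq_mul]
  have := Real.pi_pos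
  field_simp

lemma pl_PK_integral_Ioc (V w : ℝ) (hV : 0 < V) (hw : 0 < w) :
    1 - 2 / (Real.pi * V * w) ≤ ∫ x in Set.Ioc (-w) w, PK V x := by
  rw [← intervalIntegral.integral_of_le (by linarith)]
  simp_rw [pl_PK_eq]
  rw [intervalIntegral.integral_const_mul,
    intervalIntegral.integral_comp_mul_left (fun x : ℝ => (1 + x ^ 2)⁻¹) hV.ne',
    integral_inv_one_add_sq, mul_neg, Real.arctan_neg, smul_eq_mul]
  have h1 : 0 < V * w := by positivity
  have h2 := Real.arctan_inv_of_pos h1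
  have h3 : Real.arctan (V * w)⁻¹ ≤ (V * w)⁻¹ := by
    have h0 : 0 < (V * w)⁻¹ := inv_pos.mpr h1
    have h4 : 0 < Real.arctan (V * w)⁻¹ := by
      rw [← Real.arctan_zero]; exact Real.arctan_strictMono h0
    have h5 := Real.lt_tan h4 (Real.arctan_lt_pi_div_two _)
    rw [Real.tan_arctan] at h5
    exact h5.le
  have h4 : Real.pi / 2 - (V * w)⁻¹ ≤ Real.arctan (V * w) := by linarith
  have hpi := Real.pi_pos
  calc 1 - 2 / (Real.pi * V * w) = V / Real.pi * (V⁻¹ * (2 * (Real.pi / 2 - (V * w)⁻¹))) := by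
        field_simp
    _ ≤ V / Real.pi * (V⁻¹ * (2 * Real.arctan (V * w))) := by gcongr
    _ = _ := by ring

/-! ### the set `PL` -/

lemma pl_bounds {R : ℕ} {w y : ℝ} (hy : y ∈ PL R w) :
    -w ≤ y ∧ y ≤ 1 - 1 / (R : ℝ) + w := by
  obtain ⟨r, hr1, hrR, b, hbr, -, hyb⟩ := hy
  have hr0 : (0 : ℝ) < r := by exact_mod_cast hr1
  have h1 : (0 : ℝ) ≤ (b : ℝ) / r := by positivity
  have h2 : (b : ℝ) / r ≤ 1 - 1 / (R : ℝ) := by
    have h3 : (b : ℝ) + 1 ≤ r := by exact_mod_cast hbr
    have h4 : (b : ℝ) / r ≤ 1 - 1 / (r : ℝ) := by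
      rw [div_le_iff₀ hr0, sub_mul, div_mul_cancel₀ _ hr0.ne']
      linarith
    have h5 : 1 / (R : ℝ) ≤ 1 / (r : ℝ) := by
      apply one_div_le_one_div_of_le hr0
      exact_mod_cast hrR
    linarith
  rw [abs_le] at hyb
  constructor <;> linarith [hyb.1, hyb.2]

lemma pl_measurable (R : ℕ) (w : ℝ) : MeasurableSet (PL R w) := by
  have : PL R w = ⋃ r : ℕ, ⋃ b : ℕ, if (1 ≤ r ∧ r ≤ R ∧ b < r ∧ Nat.Coprime b r) then
      Set.Icc ((b : ℝ) / r - w) ((b : ℝ) / r + w) else ∅ := by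
    ext y
    simp only [PL, Set.mem_ofPred_eq, Set.mem_iUnion]
    constructor
    · rintro ⟨r, h1, h2, b, h3, h4, h5⟩
      refine ⟨r, b, ?_⟩
      rw [if_pos ⟨h1, h2, h3, h4⟩]
      rw [abs_le] at h5
      constructor <;> linarith [h5.1, h5.2]
    · rintro ⟨r, b, h⟩
      split_ifs at h with hc
      · refine ⟨r, hc.1, hc.2.1, b, hc.2.2.1, hc.2.2.2, ?_⟩
        rw [abs_le]
        constructor <;> linarith [h.1, h.2]
      · exact absurd h (Set.notMem_empty y)
  rw [this]
  refine MeasurableSet.iUnion fun r => MeasurableSet.iUnion fun b => ?_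
  split_ifs
  · exact measurableSet_Icc
  · exact MeasurableSet.empty

/-- the reflected translates of `PL` -/
def PLm (R : ℕ) (w θ : ℝ) (m : ℤ) : Set ℝ := {x | θ + m - x ∈ PL R w}

lemma plm_measurable (R : ℕ) (w θ : ℝ) (m : ℤ) : MeasurableSet (PLm R w θ m) :=
  (pl_measurable R w).preimage (by fun_prop : Measurable fun x : ℝ => θ + m - x)

lemma plm_disjoint {R : ℕ} {w : ℝ} (θ : ℝ) (hR : 1 ≤ R) (hw : 2 * w * R < 1) :
    Pairwise (Function.onFun Disjoint (PLm R w θ)) := by
  intro m m' hmm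
  rw [Function.onFun, Set.disjoint_left]
  intro x hx hx'
  have h1 := pl_bounds hx
  have h2 := pl_bounds hx'
  have hR0 : (0 : ℝ) < R := by exact_mod_cast hR
  have h3 : 2 * w < 1 / (R : ℝ) := by
    rw [lt_div_iff₀ hR0]; exact hw
  have h4 : |(m : ℝ) - m'| < 1 := by
    rw [abs_lt]
    constructor <;> linarith [h1.1, h1.2, h2.1, h2.2]
  have h5 : |m - m'| < 1 := by
    have : ((|m - m'| : ℤ) : ℝ) < 1 := by push_cast; exact h4
    exact_mod_cast this
  have : m - m' = 0 := Int.abs_lt_one_iff.mp h5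
  exact hmm (by linarith)

/-- unfolding -/
lemma pl_unfold {R : ℕ} {w : ℝ} (V θ : ℝ) (hV : 0 < V) (hR : 1 ≤ R) (hw : 2 * w * R < 1) :
    ∫ y in PL R w, ∑' m : ℤ, PK V (θ - y + m) = ∫ x in ⋃ m : ℤ, PLm R w θ m, PK V x := by
  have hi := pl_PK_integrable V hV
  have hcv : ∀ m : ℤ, ∫ y in PL R w, PK V (θ - y + m) = ∫ x in PLm R w θ m, PK V x := by
    intro m
    rw [← integral_indicator (pl_measurable R w), ← integral_indicator (plm_measurable R w θ m)]
    rw [← integral_sub_left_eq_self (fun x => (PLm R w θ m).indicator (fun x => PK V x) x) volume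
      (θ + m)]
    apply integral_congr_ae
    filter_upwards with y
    by_cases hy : y ∈ PL R w
    · have : θ + m - y ∈ PLm R w θ m := by
        simp only [PLm, Set.mem_ofPred_eq, sub_sub_cancel]; exact hy
      rw [Set.indicator_of_mem hy, Set.indicator_of_mem this]
      congr 1; ring
    · have : θ + m - y ∉ PLm R w θ m := by
        simp only [PLm, Set.mem_ofPred_eq, sub_sub_cancel]; exact hy
      rw [Set.indicator_of_notMem hy, Set.indicator_of_notMem this]
  have h1 : HasSum (fun m : ℤ => ∫ x in PLm R w θ m, PK V x)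
      (∫ x in ⋃ m : ℤ, PLm R w θ m, PK V x) :=
    hasSum_integral_iUnion (fun m => plm_measurable R w θ m) (plm_disjoint θ hR hw)
      hi.integrableOn
  have hint : ∀ m : ℤ, Integrable (fun y => PK V (θ - y + m)) (volume.restrict (PL R w)) := by
    intro m
    have : Integrable (fun y => PK V (θ - y + m)) := by
      have := hi.comp_sub_left (θ + m)
      refine this.congr (Filter.Eventually.of_forall fun y => ?_)
      show PK V (θ + m - y) = PK V (θ - y + m)
      congr 1; ring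
    exact this.restrict
  have h2 : HasSum (fun m : ℤ => ∫ y in PL R w, PK V (θ - y + m))
      (∫ y in PL R w, ∑' m : ℤ, PK V (θ - y + m)) := by
    apply hasSum_integral_of_summable_integral_norm hint
    have : ∀ m : ℤ, ∫ y in PL R w, ‖PK V (θ - y + m)‖ = ∫ x in PLm R w θ m, PK V x := by
      intro m
      rw [← hcv m]
      apply integral_congr_ae
      filter_upwards with y
      exact Real.norm_of_nonneg (PK_nonneg V _ hV)
    simp_rw [this]
    exact h1.summable
  simp_rw [hcv] at h2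
  exact h2.unique h1

lemma pl_total {R : ℕ} {w : ℝ} (V θ : ℝ) (hV : 0 < V) (hR : 1 ≤ R) (hw : 2 * w * R < 1) :
    ∫ y in PL R w, ∑' m : ℤ, PK V (θ - y + m) ≤ 1 := by
  rw [pl_unfold V θ hV hR hw, ← pl_PK_integral V hV]
  exact setIntegral_le_integral (pl_PK_integrable V hV)
    (Filter.Eventually.of_forall fun x => PK_nonneg V x hV)

lemma pl_far {R : ℕ} {w : ℝ} (V θ : ℝ) (hV : 0 < V) (hw0 : 0 < w) (hR : 1 ≤ R)
    (hw : 2 * w * R < 1)
    (hfar : ∀ r : ℕ, 1 ≤ r → r ≤ R → ∀ b : ℤ, Int.gcd b r = 1 → 2 * w < |θ - b / r|) :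
    ∫ y in PL R w, ∑' m : ℤ, PK V (θ - y + m) ≤ 2 / (Real.pi * V * w) := by
  rw [pl_unfold V θ hV hR hw]
  have hi := pl_PK_integrable V hV
  have hsub : (⋃ m : ℤ, PLm R w θ m) ⊆ (Set.Ioc (-w) w)ᶜ := by
    intro x hx
    obtain ⟨m, hm⟩ := Set.mem_iUnion.mp hx
    obtain ⟨r, hr1, hrR, b, hbr, hcop, hb⟩ := hm
    have hr0 : (r : ℝ) ≠ 0 := by
      have : (0 : ℝ) < r := by exact_mod_cast hr1
      exact this.ne'
    have h1 := hfar r hr1 hrR ((b : ℤ) - m * r) (by
      rw [Int.gcd_sub_mul_right_left]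
      exact_mod_cast hcop)
    have h2 : θ - (((b : ℤ) - m * r : ℤ) : ℝ) / r = θ + m - b / r := by
      push_cast
      field_simp
      ring
    rw [h2] at h1
    have h3 : w < |x| := by
      have : θ + m - b / r = x + (θ + m - x - b / r) := by ring
      rw [this] at h1
      have := abs_add_le x (θ + m - x - b / r)
      linarith
    intro hx2
    have : |x| ≤ w := by
      rw [abs_le]; exact ⟨hx2.1.le, hx2.2⟩
    linarith
  have h1 : ∫ x in ⋃ m : ℤ, PLm R w θ m, PK V x ≤ ∫ x in (Set.Ioc (-w) w)ᶜ, PK V x :=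
    setIntegral_mono_set hi.integrableOn (Filter.Eventually.of_forall fun x => PK_nonneg V x hV)
      hsub.eventuallyLE
  have h2 := integral_add_compl (measurableSet_Ioc : MeasurableSet (Set.Ioc (-w) w)) hi
  rw [pl_PK_integral V hV] at h2
  have h3 := pl_PK_integral_Ioc V w hV hw0
  linarith

/-! ### the Farey part -/

lemma pl_summ (V θ : ℝ) (hV : 0 < V) (q : ℕ) (hq : 0 < q) :
    Summable (fun a : ℤ => if Int.gcd a q = 1 then PK V (θ - a / q) else 0) := by
  have hq0 : (0 : ℝ) < q := by exact_mod_cast hq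
  have h1 := PK_summable (V / q) (-(q * θ)) (by positivity)
  have h2 := h1.mul_left (q : ℝ)
  refine Summable.of_nonneg_of_le ?_ ?_ h2
  · intro a
    split_ifs
    · exact PK_nonneg V _ hV
    · exact le_rfl
  · intro a
    have h3 : PK V (θ - a / q) = (q : ℝ) * PK (V / q) (-(q * θ) + a) := by
      unfold PK
      have : (V / q) ^ 2 * (-(q * θ) + a) ^ 2 = V ^ 2 * (θ - a / q) ^ 2 := by
        field_simp
        ring
      rw [this]
      field_simp
    split_ifs
    · exact h3.le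
    · rw [← h3]; exact PK_nonneg V _ hV

theorem plateau (A B R : ℕ) (V w ε Δ : ℝ) (c : ℕ → ℝ) (hc : ∀ q, 0 ≤ c q) (hA : 1 ≤ A) (hAB : A ≤ B)
    (hR : 1 ≤ R) (hV : 1 ≤ V) (hVA : V ≤ (A : ℝ) ^ 2) (hε : 0 < ε) (hε1 : ε ≤ 1) (hw : 0 < w)
    (h1 : 4 * R * B ≤ ε * V) (h2 : 4 * w * R * B ≤ 1) (h3 : 16 ≤ ε * V * w) (hΔ : 0 ≤ Δ)
    (hD : ∀ V' θ : ℝ, 1 ≤ V' → V' ≤ (A : ℝ) ^ 2 → ∑ q ∈ Finset.Ioc A B, (c q / (q : ℝ) ^ 2) *
      ∑' a : ℤ, (if Int.gcd a q = 1 then PK V' (θ - a / q) else 0) ≤ Δ) (θ : ℝ) :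
    ∑ q ∈ Finset.Ioc A B, (c q / (q : ℝ) ^ 2) *
      ∑' a : ℤ, (if Int.gcd a q = 1 then PK V (θ - a / q) else 0)
      + Δ * ∫ y in PL R w, ∑' m : ℤ, PK V (θ - y + m) ≤ (1 + ε) * Δ := by
  have hR1 : (1 : ℝ) ≤ R := by exact_mod_cast hR
  have hA1 : (1 : ℝ) ≤ A := by exact_mod_cast hA
  have hB1 : (1 : ℝ) ≤ B := by exact_mod_cast (hA.trans hAB)
  have hAB' : (A : ℝ) ≤ B := by exact_mod_cast hAB
  have hV0 : 0 < V := by linarith
  have hpi := Real.pi_gt_three
  have hRB : 4 * (R : ℝ) * B ≤ V := h1.trans (by nlinarith)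
  have hRA : 4 * (R : ℝ) ≤ A := by
    have : 4 * (R : ℝ) * B ≤ A * B := by
      calc 4 * (R : ℝ) * B ≤ (A : ℝ) ^ 2 := hRB.trans hVA
        _ = A * A := by ring
        _ ≤ A * B := by gcongr
    exact le_of_mul_le_mul_right this (by linarith)
  have hwR : 2 * w * R < 1 := by
    have : 4 * w * R * 1 ≤ 4 * w * R * B := by gcongr
    have h0 : 0 < w * R := by positivity
    nlinarith
  by_cases hcase : ∀ r : ℕ, 1 ≤ r → r ≤ R → ∀ b : ℤ, Int.gcd b r = 1 → 2 * w < |θ - b / r|
  · have e1 := hD V θ hV hVA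
    have e2 := pl_far V θ hV0 hw hR hwR hcase
    have e3 : 2 / (Real.pi * V * w) ≤ ε := by
      rw [div_le_iff₀ (by positivity)]
      have : ε * (Real.pi * V * w) = Real.pi * (ε * V * w) := by ring
      rw [this]
      nlinarith
    have e4 : Δ * ∫ y in PL R w, ∑' m : ℤ, PK V (θ - y + m) ≤ Δ * ε :=
      mul_le_mul_of_nonneg_left (e2.trans e3) hΔ
    nlinarith
  · push Not at hcase
    obtain ⟨r, hr1, hrR, b, hbr, hθ⟩ := hcase
    have hr0 : (0 : ℝ) < r := by exact_mod_cast hr1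
    have hrR' : (r : ℝ) ≤ R := by exact_mod_cast hrR
    have e2 := pl_total V θ hV0 hR hwR
    have e4 : Δ * ∫ y in PL R w, ∑' m : ℤ, PK V (θ - y + m) ≤ Δ * 1 :=
      mul_le_mul_of_nonneg_left e2 hΔ
    set V' : ℝ := 2 * B * R with hV'
    have hV'1 : 1 ≤ V' := by
      rw [hV']
      nlinarith
    have hV'0 : 0 < V' := by linarith
    have hV'V : V' ≤ V := by
      rw [hV']; nlinarith
    have hV'A : V' ≤ (A : ℝ) ^ 2 := hV'V.trans hVA
    -- termwise comparison
    have key : ∀ q ∈ Finset.Ioc A B, ∀ a : ℤ, Int.gcd a q = 1 →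
        PK V (θ - a / q) ≤ (2 * V' / V) * PK V' (θ - a / q) := by
      intro q hq a ha
      rw [Finset.mem_Ioc] at hq
      have hqA : (A : ℝ) < q := by exact_mod_cast hq.1
      have hqB : (q : ℝ) ≤ B := by exact_mod_cast hq.2
      have hq0 : (0 : ℝ) < q := by linarith
      have hne : a * r - b * q ≠ 0 := by
        intro h0
        have h00 : a * r = b * q := by linarith
        have hdvd : (q : ℤ) ∣ a * r := ⟨b, by linarith⟩
        have hcop : IsCoprime (q : ℤ) a := by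
          rw [Int.isCoprime_iff_gcd_eq_one, Int.gcd_comm]; exact ha
        have hdr : (q : ℤ) ∣ r := hcop.dvd_of_dvd_mul_left hdvd
        have hqr : q ∣ r := by exact_mod_cast hdr
        have := Nat.le_of_dvd (by omega) hqr
        have h5 : (q : ℝ) ≤ r := by exact_mod_cast this
        nlinarith
      have hge : (1 : ℝ) ≤ |(a : ℝ) * r - b * q| := by
        have := Int.one_le_abs hne
        have h6 : ((1 : ℤ) : ℝ) ≤ ((|a * r - b * q| : ℤ) : ℝ) := by exact_mod_cast this
        push_cast at h6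
        exact h6
      have hdist : 1 / ((q : ℝ) * r) ≤ |(a : ℝ) / q - b / r| := by
        have : (a : ℝ) / q - b / r = (a * r - b * q) / (q * r) := by
          field_simp
        rw [this, abs_div, abs_of_pos (show (0 : ℝ) < q * r by positivity)]
        gcongr
      have hdist2 : 2 / V' ≤ |(a : ℝ) / q - b / r| := by
        refine le_trans ?_ hdist
        rw [div_le_div_iff₀ hV'0 (by positivity), hV']
        have : (q : ℝ) * r ≤ B * R := by gcongr
        linarith
      have hxge : 1 / V' ≤ |θ - a / q| := by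
        have h7 : |(a : ℝ) / q - b / r| ≤ |θ - b / r| + |θ - a / q| := by
          have : (a : ℝ) / q - b / r = (θ - b / r) - (θ - a / q) := by ring
          rw [this]
          exact abs_sub _ _
        have h8 : 2 * w ≤ 1 / V' := by
          rw [le_div_iff₀ hV'0, hV']
          calc 2 * w * (2 * B * R) = 4 * w * R * B := by ring
            _ ≤ 1 := h2
        have h9 : 2 / V' = 1 / V' + 1 / V' := by ring
        linarith
      set x := θ - (a : ℝ) / q with hx
      have hVx : 1 ≤ V' * |x| := by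
        rw [div_le_iff₀ hV'0] at hxge
        linarith
      have hVx2 : 1 ≤ V' ^ 2 * x ^ 2 := by
        have := mul_le_mul hVx hVx (by norm_num) (by positivity)
        have h10 : V' * |x| * (V' * |x|) = V' ^ 2 * x ^ 2 := by
          rw [← sq_abs x]; ring
        linarith
      unfold PK
      rw [div_le_iff₀ (by positivity)]
      have h11 : 2 * V' / V * (V' / Real.pi / (1 + V' ^ 2 * x ^ 2)) * (1 + V ^ 2 * x ^ 2) =
          (2 * V' ^ 2 * (1 + V ^ 2 * x ^ 2)) / (V * Real.pi * (1 + V' ^ 2 * x ^ 2)) := by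
        field_simp
      rw [h11, div_le_div_iff₀ (by positivity) (by positivity)]
      have h12 : V ^ 2 * (1 + V' ^ 2 * x ^ 2) ≤ 2 * V' ^ 2 * (1 + V ^ 2 * x ^ 2) := by
        have : V ^ 2 * 1 ≤ V ^ 2 * (V' ^ 2 * x ^ 2) := by gcongr
        nlinarith [sq_nonneg V']
      calc V * (V * Real.pi * (1 + V' ^ 2 * x ^ 2)) =
          (V ^ 2 * (1 + V' ^ 2 * x ^ 2)) * Real.pi := by ring
        _ ≤ (2 * V' ^ 2 * (1 + V ^ 2 * x ^ 2)) * Real.pi := by gcongr
    have e1 : ∑ q ∈ Finset.Ioc A B, (c q / (q : ℝ) ^ 2) *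
        ∑' a : ℤ, (if Int.gcd a q = 1 then PK V (θ - a / q) else 0) ≤
        (2 * V' / V) * ∑ q ∈ Finset.Ioc A B, (c q / (q : ℝ) ^ 2) *
        ∑' a : ℤ, (if Int.gcd a q = 1 then PK V' (θ - a / q) else 0) := by
      rw [Finset.mul_sum]
      apply Finset.sum_le_sum
      intro q hq
      have hq0 : 0 < q := by
        rw [Finset.mem_Ioc] at hq; omega
      have h12 : ∑' a : ℤ, (if Int.gcd a q = 1 then PK V (θ - a / q) else 0) ≤
          (2 * V' / V) * ∑' a : ℤ, (if Int.gcd a q = 1 then PK V' (θ - a / q) else 0) := by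
        rw [← tsum_mul_left]
        apply Summable.tsum_le_tsum _ (pl_summ V θ hV0 q hq0)
          ((pl_summ V' θ hV'0 q hq0).mul_left _)
        intro a
        by_cases ha : Int.gcd a q = 1
        · rw [if_pos ha, if_pos ha]
          exact key q hq a ha
        · rw [if_neg ha, if_neg ha, mul_zero]
      calc (c q / (q : ℝ) ^ 2) * ∑' a : ℤ, (if Int.gcd a q = 1 then PK V (θ - a / q) else 0) ≤
          (c q / (q : ℝ) ^ 2) * ((2 * V' / V) *
            ∑' a : ℤ, (if Int.gcd a q = 1 then PK V' (θ - a / q) else 0)) :=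
            mul_le_mul_of_nonneg_left h12 (div_nonneg (hc q) (by positivity))
        _ = _ := by ring
    have e5 := hD V' θ hV'1 hV'A
    have e6 : 2 * V' / V ≤ ε := by
      rw [div_le_iff₀ hV0, hV']
      calc 2 * (2 * (B : ℝ) * R) = 4 * R * B := by ring
        _ ≤ ε * V := h1
    have e7 : (2 * V' / V) * ∑ q ∈ Finset.Ioc A B, (c q / (q : ℝ) ^ 2) *
        ∑' a : ℤ, (if Int.gcd a q = 1 then PK V' (θ - a / q) else 0) ≤ ε * Δ := by
      calc _ ≤ (2 * V' / V) * Δ := mul_le_mul_of_nonneg_left e5 (by positivity)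
        _ ≤ ε * Δ := by gcongr
    linarith

end H385
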