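import Pool.Agent.H385R2.Line

/-!
TEAM Q, module Q1: `∑_{i ≤ n} φ(i)/i² = (6/π²) log n + O(1)`.
-/

set_option autoImplicit false

open Filter Topology Set MeasureTheory

namespace H385

lemma sum_phi_eq (n : ℕ) :
    ∑ i ∈ Finset.Icc 1 n, (Nat.totient i : ℝ) / (i : ℝ) ^ 2 =
      ∑ d ∈ Finset.Icc 1 n, ((ArithmeticFunction.moebius d : ℝ) / (d : ℝ) ^ 2) *
        ∑ e ∈ Finset.Icc 1 (n / d), (1 : ℝ) / e := by
  have h1 : ∀ i ∈ Finset.Icc 1 n, (Nat.totient i : ℝ) / (i : ℝ) ^ 2 =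
      ∑ d ∈ (Finset.Icc 1 n).filter (fun d => d ∣ i),
        ((ArithmeticFunction.moebius d : ℝ) / (d : ℝ)) * (1 / i) := by
    intro i hi
    rw [Finset.mem_Icc] at hi
    have hi0 : i ≠ 0 := by omega
    have h2 := totient_moebius hi0
    have h3 : (Finset.Icc 1 n).filter (fun d => d ∣ i) = i.divisors := by
      ext d
      simp only [Finset.mem_filter, Finset.mem_Icc, Nat.mem_divisors]
      constructor
      · rintro ⟨⟨h4, h5⟩, h6⟩
        exact ⟨h6, hi0⟩
      · rintro ⟨h6, _⟩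
        have := Nat.le_of_dvd (by omega) h6
        have := Nat.pos_of_dvd_of_pos h6 (by omega)
        exact ⟨⟨by omega, by omega⟩, h6⟩
    rw [h3, ← Finset.sum_mul, h2]
    have : (i : ℝ) ≠ 0 := by exact_mod_cast hi0
    field_simp
  rw [Finset.sum_congr rfl h1]
  have h4 : ∀ i ∈ Finset.Icc 1 n, ∑ d ∈ (Finset.Icc 1 n).filter (fun d => d ∣ i),
        ((ArithmeticFunction.moebius d : ℝ) / (d : ℝ)) * (1 / i) =
      ∑ d ∈ Finset.Icc 1 n, (if d ∣ i then
        ((ArithmeticFunction.moebius d : ℝ) / (d : ℝ)) * (1 / i) else 0) := by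
    intro i _
    rw [Finset.sum_filter]
  rw [Finset.sum_congr rfl h4, Finset.sum_comm]
  apply Finset.sum_congr rfl
  intro d hd
  rw [Finset.mem_Icc] at hd
  rw [← Finset.sum_filter, Finset.mul_sum]
  symm
  refine Finset.sum_nbij' (fun e => d * e) (fun i => i / d) ?_ ?_ ?_ ?_ ?_
  · intro e he
    rw [Finset.mem_Icc] at he
    rw [Finset.mem_filter, Finset.mem_Icc]
    refine ⟨⟨by nlinarith, ?_⟩, dvd_mul_right d e⟩
    calc d * e ≤ d * (n / d) := Nat.mul_le_mul_left d he.2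
      _ ≤ n := Nat.mul_div_le n d
  · intro i hi
    rw [Finset.mem_filter, Finset.mem_Icc] at hi
    rw [Finset.mem_Icc]
    obtain ⟨⟨h5, h6⟩, e, rfl⟩ := hi
    rw [Nat.mul_div_cancel_left e (by omega)]
    refine ⟨?_, ?_⟩
    · rcases Nat.eq_zero_or_pos e with h | h
      · rw [h] at h5; omega
      · exact h
    · rw [Nat.le_div_iff_mul_le (by omega)]
      rw [mul_comm]; exact h6
  · intro e _
    exact Nat.mul_div_cancel_left e (by omega)
  · intro i hi
    rw [Finset.mem_filter] at hi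
    exact Nat.mul_div_cancel' hi.2
  · intro e he
    rw [Finset.mem_Icc] at he
    have : (d : ℝ) ≠ 0 := by exact_mod_cast (by omega : d ≠ 0)
    have : (e : ℝ) ≠ 0 := by exact_mod_cast (by omega : e ≠ 0)
    push_cast
    field_simp

lemma harm_log {n d : ℕ} (hd : 1 ≤ d) (hdn : d ≤ n) :
    |∑ e ∈ Finset.Icc 1 (n / d), (1 : ℝ) / e - Real.log ((n : ℝ) / d)| ≤ 1 := by
  have hm : 1 ≤ n / d := (Nat.one_le_div_iff (by omega)).mpr hdn
  set m := n / d with hmdef
  have hd' : (0 : ℝ) < d := by exact_mod_cast hd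
  have h1 : ∑ e ∈ Finset.Icc 1 m, (1 : ℝ) / e = ((harmonic m : ℚ) : ℝ) := by
    rw [harmonic_eq_sum_Icc]
    push_cast
    simp
  have h2 := harmonic_le_one_add_log m
  have h3 := log_add_one_le_harmonic m
  rw [h1]
  have hm' : (1 : ℝ) ≤ m := by exact_mod_cast hm
  have h4 : (m : ℝ) ≤ (n : ℝ) / d := Nat.cast_div_le
  have h5 : (n : ℝ) / d ≤ (m : ℝ) + 1 := by
    rw [div_le_iff₀ hd']
    have : n < d * (m + 1) := Nat.lt_mul_div_succ n (by omega)
    have h6 : (n : ℝ) < d * (m + 1) := by exact_mod_cast this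
    nlinarith
  have h6 : Real.log m ≤ Real.log ((n : ℝ) / d) := Real.log_le_log (by linarith) h4
  have h7 : Real.log ((n : ℝ) / d) ≤ Real.log ((m : ℝ) + 1) := Real.log_le_log (by linarith) h5
  have h8 : Real.log (((m : ℕ) : ℝ) + 1) = Real.log ((m : ℝ) + 1) := rfl
  push_cast at h3
  rw [abs_le]
  constructor <;> linarith

lemma hasSum_moebius : HasSum (fun d : ℕ => (ArithmeticFunction.moebius d : ℝ) / (d : ℝ) ^ 2) c0 := by
  have h1 : (1 : ℝ) < (2 : ℂ).re := by simp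
  have hz := LSeries_one_mul_Lseries_moebius h1
  rw [LSeries_one_eq_riemannZeta h1, riemannZeta_two] at hz
  have hsum := (ArithmeticFunction.LSeriesSummable_moebius_iff.mpr h1).hasSum
  have hpi : (Real.pi : ℂ) ≠ 0 := by exact_mod_cast Real.pi_ne_zero
  have hval : (∑' n : ℕ, LSeries.term (fun n => ((ArithmeticFunction.moebius n : ℤ) : ℂ)) 2 n) =
      ((c0 : ℝ) : ℂ) := by
    have h2 : (∑' n : ℕ, LSeries.term (fun n => ((ArithmeticFunction.moebius n : ℤ) : ℂ)) 2 n) =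
      LSeries (fun n => ((ArithmeticFunction.moebius n : ℤ) : ℂ)) 2 := rfl
    rw [h2]
    unfold c0
    push_cast
    rw [eq_div_iff (pow_ne_zero 2 hpi)]
    linear_combination 6 * hz
  rw [hval] at hsum
  rw [← Complex.hasSum_ofReal]
  refine hsum.congr_fun ?_
  intro d
  rcases Nat.eq_zero_or_pos d with rfl | hd
  · simp
  · rw [LSeries.term_of_ne_zero hd.ne']
    push_cast
    congr 1
    rw [show (2 : ℂ) = ((2 : ℕ) : ℂ) by norm_num, Complex.cpow_natCast]

lemma tail_bound (n : ℕ) (hn : 1 ≤ n) (N : ℕ) (hN : n ≤ N) :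
    ∑ d ∈ Finset.Ioc n N, (1 : ℝ) / (d : ℝ) ^ 2 ≤ 1 / n - 1 / N := by
  induction N, hN using Nat.le_induction with
  | base => simp
  | succ N hN ih =>
    have hsplit : Finset.Ioc n (N + 1) = insert (N + 1) (Finset.Ioc n N) := by
      ext k
      simp only [Finset.mem_insert, Finset.mem_Ioc]
      omega
    have hnot : N + 1 ∉ Finset.Ioc n N := by simp
    rw [hsplit, Finset.sum_insert hnot]
    have hN0 : (0 : ℝ) < N := by exact_mod_cast (by omega : 0 < N)
    have h1 : (1 : ℝ) / ((N + 1 : ℕ) : ℝ) ^ 2 ≤ 1 / N - 1 / ((N + 1 : ℕ) : ℝ) := by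
      push_cast
      rw [div_sub_div _ _ hN0.ne' (by positivity), div_le_div_iff₀ (by positivity) (by positivity)]
      nlinarith
    linarith

lemma moebius_le_one (d : ℕ) : |(ArithmeticFunction.moebius d : ℝ)| ≤ 1 := by
  have := ArithmeticFunction.abs_moebius_le_one (n := d)
  exact_mod_cast this

lemma partial_moebius (n : ℕ) (hn : 1 ≤ n) :
    |∑ d ∈ Finset.Icc 1 n, (ArithmeticFunction.moebius d : ℝ) / (d : ℝ) ^ 2 - c0| ≤ 1 / n := by
  have h1 := hasSum_moebius.tendsto_sum_nat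
  have h2 : Tendsto (fun N : ℕ => |∑ d ∈ Finset.Icc 1 n,
      (ArithmeticFunction.moebius d : ℝ) / (d : ℝ) ^ 2 -
        ∑ d ∈ Finset.range (N + 1), (ArithmeticFunction.moebius d : ℝ) / (d : ℝ) ^ 2|) atTop
      (𝓝 |∑ d ∈ Finset.Icc 1 n, (ArithmeticFunction.moebius d : ℝ) / (d : ℝ) ^ 2 - c0|) := by
    apply Tendsto.abs
    exact tendsto_const_nhds.sub (h1.comp (tendsto_add_atTop_nat 1))
  refine le_of_tendsto h2 ?_
  filter_upwards [eventually_ge_atTop n] with N hN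
  have h3 : ∑ d ∈ Finset.range (N + 1), (ArithmeticFunction.moebius d : ℝ) / (d : ℝ) ^ 2 =
      ∑ d ∈ Finset.Icc 1 n, (ArithmeticFunction.moebius d : ℝ) / (d : ℝ) ^ 2 +
        ∑ d ∈ Finset.Ioc n N, (ArithmeticFunction.moebius d : ℝ) / (d : ℝ) ^ 2 := by
    rw [Finset.sum_range_succ']
    simp only [Nat.cast_zero, ne_eq, OfNat.ofNat_ne_zero, not_false_eq_true, zero_pow, div_zero,
      add_zero]
    have h4 : Finset.Icc 1 N = Finset.Icc 1 n ∪ Finset.Ioc n N := by
      ext k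
      simp only [Finset.mem_union, Finset.mem_Icc, Finset.mem_Ioc]
      omega
    have h5 : Disjoint (Finset.Icc 1 n) (Finset.Ioc n N) := by
      rw [Finset.disjoint_left]
      intro k hk hk'
      rw [Finset.mem_Icc] at hk
      rw [Finset.mem_Ioc] at hk'
      omega
    rw [← Finset.sum_union h5, ← h4]
    have h6 : Finset.Icc 1 N = (Finset.range N).image (fun k => k + 1) := by
      ext k
      simp only [Finset.mem_Icc, Finset.mem_image, Finset.mem_range]
      constructor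
      · intro h
        exact ⟨k - 1, by omega, by omega⟩
      · rintro ⟨a, ha, rfl⟩
        omega
    rw [h6, Finset.sum_image (fun a _ b _ h => by simpa using h)]
  rw [h3]
  have h4 : |∑ d ∈ Finset.Ioc n N, (ArithmeticFunction.moebius d : ℝ) / (d : ℝ) ^ 2| ≤ 1 / n := by
    calc |∑ d ∈ Finset.Ioc n N, (ArithmeticFunction.moebius d : ℝ) / (d : ℝ) ^ 2|
        ≤ ∑ d ∈ Finset.Ioc n N, |(ArithmeticFunction.moebius d : ℝ) / (d : ℝ) ^ 2| :=
          Finset.abs_sum_le_sum_abs _ _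
      _ ≤ ∑ d ∈ Finset.Ioc n N, (1 : ℝ) / (d : ℝ) ^ 2 := by
          apply Finset.sum_le_sum
          intro d _
          rw [abs_div, abs_of_nonneg (by positivity : (0 : ℝ) ≤ (d : ℝ) ^ 2)]
          exact div_le_div_of_nonneg_right (moebius_le_one d) (by positivity)
      _ ≤ 1 / n - 1 / N := tail_bound n hn N hN
      _ ≤ 1 / n := by
          have : (0 : ℝ) ≤ 1 / N := by positivity
          linarith
  have h5 : ∀ a b : ℝ, a - (a + b) = -b := by intro a b; ring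
  rw [h5, abs_neg]
  exact h4

theorem theta_asymp : ∃ C : ℝ, 0 < C ∧ ∀ n : ℕ, 1 ≤ n →
    |∑ i ∈ Finset.Icc 1 n, (Nat.totient i : ℝ) / (i : ℝ) ^ 2 - c0 * Real.log n| ≤ C := by
  have hs2 : Summable (fun d : ℕ => (1 : ℝ) / (d : ℝ) ^ 2) :=
    Real.summable_one_div_nat_pow.mpr (by norm_num)
  have hsl : Summable (fun d : ℕ => Real.log d / (d : ℝ) ^ 2) := by
    have h1 : Summable (fun d : ℕ => 2 * (d : ℝ) ^ (-(3 / 2 : ℝ))) :=
      (Real.summable_nat_rpow.mpr (by norm_num)).mul_left 2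
    refine Summable.of_nonneg_of_le (fun d => ?_) (fun d => ?_) h1
    · apply div_nonneg (Real.log_natCast_nonneg d) (by positivity)
    · rcases Nat.eq_zero_or_pos d with rfl | hd
      · simp
      · have hd' : (0 : ℝ) < d := by exact_mod_cast hd
        have h2 : Real.log d ≤ (d : ℝ) ^ (1 / 2 : ℝ) / (1 / 2) :=
          Real.log_le_rpow_div hd'.le (by norm_num)
        rw [div_le_iff₀ (by positivity)]
        calc Real.log d ≤ (d : ℝ) ^ (1 / 2 : ℝ) / (1 / 2) := h2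
          _ = 2 * (d : ℝ) ^ (-(3 / 2 : ℝ)) * (d : ℝ) ^ 2 := by
              rw [← Real.rpow_two, mul_assoc, ← Real.rpow_add hd']
              norm_num
              ring
  set C1 := ∑' d : ℕ, (1 : ℝ) / (d : ℝ) ^ 2 with hC1
  set C2 := ∑' d : ℕ, Real.log d / (d : ℝ) ^ 2 with hC2
  have hC1n : 0 ≤ C1 := tsum_nonneg (fun d => by positivity)
  have hC2n : 0 ≤ C2 := tsum_nonneg (fun d => div_nonneg (Real.log_natCast_nonneg d) (by positivity))
  refine ⟨C1 + C2 + 1, by linarith, ?_⟩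
  intro n hn
  rw [sum_phi_eq]
  have hn' : (1 : ℝ) ≤ n := by exact_mod_cast hn
  set M := ∑ d ∈ Finset.Icc 1 n, (ArithmeticFunction.moebius d : ℝ) / (d : ℝ) ^ 2 with hM
  have hdec : ∑ d ∈ Finset.Icc 1 n, ((ArithmeticFunction.moebius d : ℝ) / (d : ℝ) ^ 2) *
        ∑ e ∈ Finset.Icc 1 (n / d), (1 : ℝ) / e - c0 * Real.log n =
      (M - c0) * Real.log n -
      ∑ d ∈ Finset.Icc 1 n, ((ArithmeticFunction.moebius d : ℝ) / (d : ℝ) ^ 2) * Real.log d +
      ∑ d ∈ Finset.Icc 1 n, ((ArithmeticFunction.moebius d : ℝ) / (d : ℝ) ^ 2) *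
        (∑ e ∈ Finset.Icc 1 (n / d), (1 : ℝ) / e - Real.log ((n : ℝ) / d)) := by
    have h1 : ∑ d ∈ Finset.Icc 1 n, ((ArithmeticFunction.moebius d : ℝ) / (d : ℝ) ^ 2) *
        ∑ e ∈ Finset.Icc 1 (n / d), (1 : ℝ) / e =
      ∑ d ∈ Finset.Icc 1 n, (((ArithmeticFunction.moebius d : ℝ) / (d : ℝ) ^ 2) * Real.log n -
        ((ArithmeticFunction.moebius d : ℝ) / (d : ℝ) ^ 2) * Real.log d +
        ((ArithmeticFunction.moebius d : ℝ) / (d : ℝ) ^ 2) *
          (∑ e ∈ Finset.Icc 1 (n / d), (1 : ℝ) / e - Real.log ((n : ℝ) / d))) := by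
      apply Finset.sum_congr rfl
      intro d hd
      rw [Finset.mem_Icc] at hd
      have hd' : (0 : ℝ) < d := by exact_mod_cast (by omega : 0 < d)
      rw [Real.log_div (by linarith) hd'.ne']
      ring
    rw [h1, Finset.sum_add_distrib, Finset.sum_sub_distrib, ← Finset.sum_mul, ← hM]
    ring
  rw [hdec]
  have hb1 : |(M - c0) * Real.log n| ≤ 1 := by
    have h1 := partial_moebius n hn
    rw [← hM] at h1
    have hl : 0 ≤ Real.log n := Real.log_natCast_nonneg n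
    rw [abs_mul, abs_of_nonneg hl]
    calc |M - c0| * Real.log n ≤ (1 / n) * n :=
          mul_le_mul h1 (by
            have := Real.log_le_sub_one_of_pos (by linarith : (0 : ℝ) < n)
            linarith) hl (by positivity)
      _ = 1 := by field_simp
  have hb2 : |∑ d ∈ Finset.Icc 1 n, ((ArithmeticFunction.moebius d : ℝ) / (d : ℝ) ^ 2) *
      Real.log d| ≤ C2 := by
    calc _ ≤ ∑ d ∈ Finset.Icc 1 n, |((ArithmeticFunction.moebius d : ℝ) / (d : ℝ) ^ 2) *
          Real.log d| := Finset.abs_sum_le_sum_abs _ _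
      _ ≤ ∑ d ∈ Finset.Icc 1 n, Real.log d / (d : ℝ) ^ 2 := by
          apply Finset.sum_le_sum
          intro d _
          have hl : 0 ≤ Real.log d := Real.log_natCast_nonneg d
          rw [abs_mul, abs_div, abs_of_nonneg hl, abs_of_nonneg (by positivity : (0:ℝ) ≤ (d:ℝ)^2),
            div_mul_eq_mul_div]
          apply div_le_div_of_nonneg_right _ (by positivity)
          calc _ ≤ 1 * Real.log d := mul_le_mul_of_nonneg_right (moebius_le_one d) hl
            _ = Real.log d := one_mul _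
      _ ≤ C2 := hsl.sum_le_tsum _ (fun d _ =>
          div_nonneg (Real.log_natCast_nonneg d) (by positivity))
  have hb3 : |∑ d ∈ Finset.Icc 1 n, ((ArithmeticFunction.moebius d : ℝ) / (d : ℝ) ^ 2) *
        (∑ e ∈ Finset.Icc 1 (n / d), (1 : ℝ) / e - Real.log ((n : ℝ) / d))| ≤ C1 := by
    calc _ ≤ ∑ d ∈ Finset.Icc 1 n, |((ArithmeticFunction.moebius d : ℝ) / (d : ℝ) ^ 2) *
        (∑ e ∈ Finset.Icc 1 (n / d), (1 : ℝ) / e - Real.log ((n : ℝ) / d))| :=
          Finset.abs_sum_le_sum_abs _ _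
      _ ≤ ∑ d ∈ Finset.Icc 1 n, (1 : ℝ) / (d : ℝ) ^ 2 := by
          apply Finset.sum_le_sum
          intro d hd
          rw [Finset.mem_Icc] at hd
          rw [abs_mul, abs_div, abs_of_nonneg (by positivity : (0:ℝ) ≤ (d:ℝ)^2)]
          calc _ ≤ (1 / (d : ℝ) ^ 2) * 1 := mul_le_mul
                (div_le_div_of_nonneg_right (moebius_le_one d) (by positivity))
                (harm_log hd.1 hd.2) (abs_nonneg _) (by positivity)
            _ = 1 / (d : ℝ) ^ 2 := mul_one _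
      _ ≤ C1 := hs2.sum_le_tsum _ (fun d _ => by positivity)
  have h1 := abs_add_le ((M - c0) * Real.log n -
      ∑ d ∈ Finset.Icc 1 n, ((ArithmeticFunction.moebius d : ℝ) / (d : ℝ) ^ 2) * Real.log d)
      (∑ d ∈ Finset.Icc 1 n, ((ArithmeticFunction.moebius d : ℝ) / (d : ℝ) ^ 2) *
        (∑ e ∈ Finset.Icc 1 (n / d), (1 : ℝ) / e - Real.log ((n : ℝ) / d)))
  have h2 := abs_sub ((M - c0) * Real.log n)
      (∑ d ∈ Finset.Icc 1 n, ((ArithmeticFunction.moebius d : ℝ) / (d : ℝ) ^ 2) * Real.log d)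
  linarith

theorem mass_bounds : ∃ C : ℝ, 0 < C ∧ ∀ A B : ℕ, 1 ≤ A → A ≤ B →
    |∑ q ∈ Finset.Ioc A B, (Nat.totient q : ℝ) / (q : ℝ) ^ 2 - c0 * Real.log ((B : ℝ) / A)| ≤ C := by
  obtain ⟨C, hC, h⟩ := theta_asymp
  refine ⟨2 * C, by linarith, ?_⟩
  intro A B hA hAB
  have h1 := h A hA
  have h2 := h B (by omega)
  have hA' : (0 : ℝ) < A := by exact_mod_cast hA
  have hB' : (0 : ℝ) < B := by exact_mod_cast (by omega : 0 < B)
  have h3 : ∑ i ∈ Finset.Icc 1 B, (Nat.totient i : ℝ) / (i : ℝ) ^ 2 =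
      ∑ i ∈ Finset.Icc 1 A, (Nat.totient i : ℝ) / (i : ℝ) ^ 2 +
        ∑ i ∈ Finset.Ioc A B, (Nat.totient i : ℝ) / (i : ℝ) ^ 2 := by
    have h4 : Finset.Icc 1 B = Finset.Icc 1 A ∪ Finset.Ioc A B := by
      ext k
      simp only [Finset.mem_union, Finset.mem_Icc, Finset.mem_Ioc]
      omega
    have h5 : Disjoint (Finset.Icc 1 A) (Finset.Ioc A B) := by
      rw [Finset.disjoint_left]
      intro k hk hk'
      rw [Finset.mem_Icc] at hk
      rw [Finset.mem_Ioc] at hk'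
      omega
    rw [← Finset.sum_union h5, ← h4]
  rw [h3] at h2
  rw [Real.log_div hB'.ne' hA'.ne']
  set SA := ∑ i ∈ Finset.Icc 1 A, (Nat.totient i : ℝ) / (i : ℝ) ^ 2
  set SD := ∑ i ∈ Finset.Ioc A B, (Nat.totient i : ℝ) / (i : ℝ) ^ 2
  rw [abs_le] at h1 h2 ⊢
  constructor <;> nlinarith [h1.1, h1.2, h2.1, h2.2]

end H385
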