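import Pool.Agent.H385R2.Defs5
import Pool.Agent.H385R2.Win

/-!
S8 (helper376): the numerical value of the stage 2 constant.
-/

open Complex Filter Topology Set MeasureTheory

namespace H385
namespace WinC

theorem trig_11 : |Real.cos (11 / 10) - 0.4535961| ≤ 1 / 10 ^ 6 ∧
    |Real.sin (11 / 10) - 0.8912073| ≤ 1 / 10 ^ 6 := by
  have hx : ‖((11 / 10 : ℝ) : ℂ) * I‖ = 11 / 10 := by
    rw [norm_mul, Complex.norm_real, Complex.norm_I, mul_one]
    norm_num
  have h := Complex.exp_bound' (x := ((11 / 10 : ℝ) : ℂ) * I) (n := 12) (by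
    rw [hx]; norm_num)
  rw [hx] at h
  have hI2 : I ^ 2 = -1 := I_sq
  have hI3 : I ^ 3 = -I := by rw [pow_succ, hI2]; ring
  have hI4 : I ^ 4 = 1 := by rw [pow_succ, hI3]; ring_nf; rw [hI2]; ring
  have hI5 : I ^ 5 = I := by rw [pow_succ, hI4]; ring
  have hI6 : I ^ 6 = -1 := by rw [pow_succ, hI5, ← pow_two, hI2]
  have hI7 : I ^ 7 = -I := by rw [pow_succ, hI6]; ring
  have hI8 : I ^ 8 = 1 := by rw [pow_succ, hI7]; ring_nf; rw [hI2]; ring
  have hI9 : I ^ 9 = I := by rw [pow_succ, hI8]; ring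
  have hI10 : I ^ 10 = -1 := by rw [pow_succ, hI9, ← pow_two, hI2]
  have hI11 : I ^ 11 = -I := by rw [pow_succ, hI10]; ring
  set A : ℝ := 1 - (11 / 10) ^ 2 / 2 + (11 / 10) ^ 4 / 24 - (11 / 10) ^ 6 / 720 +
    (11 / 10) ^ 8 / 40320 - (11 / 10) ^ 10 / 3628800 with hA
  set B : ℝ := (11 / 10) - (11 / 10) ^ 3 / 6 + (11 / 10) ^ 5 / 120 - (11 / 10) ^ 7 / 5040 +
    (11 / 10) ^ 9 / 362880 - (11 / 10) ^ 11 / 39916800 with hB
  have hsum : ∑ m ∈ Finset.range 12, (((11 / 10 : ℝ) : ℂ) * I) ^ m / (m.factorial : ℂ) =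
      (A : ℂ) + (B : ℂ) * I := by
    simp only [Finset.sum_range_succ, Finset.sum_range_zero, mul_pow, hI2, hI3, hI4, hI5, hI6, hI7,
      hI8, hI9, hI10, hI11, Nat.factorial, hA, hB]
    push_cast
    ring
  rw [hsum, Complex.exp_ofReal_mul_I] at h
  have hre := (Complex.abs_re_le_norm _).trans h
  have him := (Complex.abs_im_le_norm _).trans h
  have e1 : ((((Real.cos (11 / 10) : ℝ) : ℂ) + ((Real.sin (11 / 10) : ℝ) : ℂ) * I -
      ((A : ℂ) + (B : ℂ) * I))).re = Real.cos (11 / 10) - A := by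
    rw [Complex.sub_re, Complex.add_re, Complex.add_re, Complex.re_ofReal_mul,
      Complex.re_ofReal_mul, Complex.I_re, Complex.ofReal_re, Complex.ofReal_re]
    ring
  have e2 : ((((Real.cos (11 / 10) : ℝ) : ℂ) + ((Real.sin (11 / 10) : ℝ) : ℂ) * I -
      ((A : ℂ) + (B : ℂ) * I))).im = Real.sin (11 / 10) - B := by
    rw [Complex.sub_im, Complex.add_im, Complex.add_im, Complex.im_ofReal_mul,
      Complex.im_ofReal_mul, Complex.I_im, Complex.ofReal_im, Complex.ofReal_im]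
    ring
  rw [e1] at hre
  rw [e2] at him
  have hb : (11 / 10 : ℝ) ^ 12 / ((12 : ℕ).factorial : ℝ) * 2 ≤ 1 / 10 ^ 7 := by
    norm_num [Nat.factorial]
  have hA1 : |A - 0.4535961| ≤ 1 / 10 ^ 7 := by
    rw [hA, abs_le]
    constructor <;> norm_num
  have hB1 : |B - 0.8912073| ≤ 2 / 10 ^ 7 := by
    rw [hB, abs_le]
    constructor <;> norm_num
  rw [abs_le] at hre him hA1 hB1 ⊢
  rw [abs_le]
  refine ⟨⟨?_, ?_⟩, ?_, ?_⟩ <;> linarith [hre.1, hre.2, him.1, him.2, hA1.1, hA1.2, hB1.1, hB1.2]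

/-- numerator -/
noncomputable def nm (γ α : ℝ) : ℝ :=
  (1 - α) * Real.cos (γ * α) + Real.sin (γ * (1 - α)) / γ

noncomputable def N1 (γ α : ℝ) : ℝ :=
  (1 - α) * Real.sin (γ * α) / γ - Real.cos (γ * α) / γ ^ 2 + Real.cos (γ * (1 - α)) / γ ^ 2

noncomputable def N2 (γ α : ℝ) : ℝ :=
  α * (1 - α) * Real.sin (γ * α) / γ + (1 - 2 * α) * Real.cos (γ * α) / γ ^ 2 +
    2 * Real.sin (γ * α) / γ ^ 3 + α * Real.cos (γ * (1 - α)) / γ ^ 2 +
    Real.sin (γ * (1 - α)) / γ ^ 3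

theorem N1_deriv (γ : ℝ) (h0 : γ ≠ 0) (x : ℝ) : HasDerivAt (N1 γ) (nm γ x) x := by
  have hx : HasDerivAt (fun x : ℝ => x) 1 x := hasDerivAt_id x
  have h1 : HasDerivAt (fun x : ℝ => γ * x) γ x := by simpa using hx.const_mul γ
  have h2 : HasDerivAt (fun x : ℝ => γ * (1 - x)) (-γ) x := by
    simpa using (hx.const_sub 1).const_mul γ
  have h3 : HasDerivAt (fun x : ℝ => 1 - x) (-1) x := hx.const_sub 1
  have h4 := (((h3.mul h1.sin).div_const γ).sub (h1.cos.div_const (γ ^ 2))).add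
    (h2.cos.div_const (γ ^ 2))
  refine (h4.congr_deriv ?_)
  unfold nm
  field_simp
  ring

theorem N2_deriv (γ : ℝ) (h0 : γ ≠ 0) (x : ℝ) : HasDerivAt (N2 γ) (x * nm γ x) x := by
  have hx : HasDerivAt (fun x : ℝ => x) 1 x := hasDerivAt_id x
  have h1 : HasDerivAt (fun x : ℝ => γ * x) γ x := by simpa using hx.const_mul γ
  have h2 : HasDerivAt (fun x : ℝ => γ * (1 - x)) (-γ) x := by
    simpa using (hx.const_sub 1).const_mul γ
  have h3 : HasDerivAt (fun x : ℝ => 1 - x) (-1) x := hx.const_sub 1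
  have h5 : HasDerivAt (fun x : ℝ => 1 - 2 * x) (-2) x := by
    simpa using (hx.const_mul 2).const_sub 1
  have h4 := ((((((hx.mul h3).mul h1.sin).div_const γ).add
    ((h5.mul h1.cos).div_const (γ ^ 2))).add
    ((h1.sin.const_mul 2).div_const (γ ^ 3))).add
    ((hx.mul h2.cos).div_const (γ ^ 2))).add
    (h2.sin.div_const (γ ^ 3))
  refine (h4.congr_deriv ?_)
  unfold nm
  simp only [Pi.mul_apply]
  field_simp
  ring

theorem nm_cont (γ : ℝ) : Continuous (nm γ) := by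
  unfold nm
  fun_prop

end WinC

open WinC

theorem Rw_const2 : Rw (11 / 5) 0 / 2 + 2 * ∫ α in (0 : ℝ)..1, min (2 * α) 1 * Rw (11 / 5) α ≤
    1.0678 := by
  set γ : ℝ := 11 / 5 with hγ
  have hγ0 : γ ≠ 0 := by rw [hγ]; norm_num
  set K := (γ / (2 * Real.sin (γ / 2))) ^ 2 / 2 with hK
  have hRw : ∀ x : ℝ, 0 ≤ x → x ≤ 1 → Rw γ x = nm γ x * K := by
    intro x hx hx1
    unfold Rw nm
    rw [abs_of_nonneg hx, if_pos hx1]
    ring
  have hc : Continuous (fun α : ℝ => min (2 * α) 1 * (nm γ α * K)) := by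
    have := nm_cont γ
    fun_prop
  have h1 : ∫ α in (0 : ℝ)..1, min (2 * α) 1 * Rw γ α =
      ∫ α in (0 : ℝ)..1, min (2 * α) 1 * (nm γ α * K) := by
    apply intervalIntegral.integral_congr
    intro x hx
    rw [Set.uIcc_of_le zero_le_one] at hx
    simp only
    rw [hRw x hx.1 hx.2]
  have h2 : ∫ α in (0 : ℝ)..1, min (2 * α) 1 * (nm γ α * K) =
      (∫ α in (0 : ℝ)..(1 / 2), min (2 * α) 1 * (nm γ α * K)) +
      ∫ α in (1 / 2 : ℝ)..1, min (2 * α) 1 * (nm γ α * K) :=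
    (intervalIntegral.integral_add_adjacent_intervals (hc.intervalIntegrable _ _)
      (hc.intervalIntegrable _ _)).symm
  have h3 : ∫ α in (0 : ℝ)..(1 / 2), min (2 * α) 1 * (nm γ α * K) =
      2 * K * (N2 γ (1 / 2) - N2 γ 0) := by
    have : ∫ α in (0 : ℝ)..(1 / 2), min (2 * α) 1 * (nm γ α * K) =
        ∫ α in (0 : ℝ)..(1 / 2), 2 * K * (α * nm γ α) := by
      apply intervalIntegral.integral_congr
      intro x hx
      rw [Set.uIcc_of_le (by norm_num)] at hx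
      simp only
      rw [min_eq_left (by linarith [hx.2])]
      ring
    rw [this, intervalIntegral.integral_const_mul,
      intervalIntegral.integral_eq_sub_of_hasDerivAt (fun x _ => N2_deriv γ hγ0 x)]
    apply Continuous.intervalIntegrable
    have := nm_cont γ
    fun_prop
  have h4 : ∫ α in (1 / 2 : ℝ)..1, min (2 * α) 1 * (nm γ α * K) =
      K * (N1 γ 1 - N1 γ (1 / 2)) := by
    have : ∫ α in (1 / 2 : ℝ)..1, min (2 * α) 1 * (nm γ α * K) =
        ∫ α in (1 / 2 : ℝ)..1, K * nm γ α := by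
      apply intervalIntegral.integral_congr
      intro x hx
      rw [Set.uIcc_of_le (by norm_num)] at hx
      simp only
      rw [min_eq_right (by linarith [hx.1])]
      ring
    rw [this, intervalIntegral.integral_const_mul,
      intervalIntegral.integral_eq_sub_of_hasDerivAt (fun x _ => N1_deriv γ hγ0 x)]
    exact (nm_cont γ).intervalIntegrable _ _
  obtain ⟨hcos, hsin⟩ := trig_11
  have hh : γ / 2 = 11 / 10 := by rw [hγ]; norm_num
  have hS : Real.sin γ = 2 * Real.sin (11 / 10) * Real.cos (11 / 10) := by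
    rw [← Real.sin_two_mul]; congr 1; rw [hγ]; norm_num
  have hC : Real.cos γ = 1 - 2 * Real.sin (11 / 10) ^ 2 := by
    have : Real.cos γ = Real.cos (2 * (11 / 10)) := by congr 1; rw [hγ]; norm_num
    rw [this, Real.cos_two_mul, Real.cos_sq']
    ring
  rw [h1, h2, h3, h4, hRw 0 le_rfl zero_le_one]
  unfold N1 N2 nm
  have a1 : γ * (1 / 2) = 11 / 10 := by rw [hγ]; norm_num
  have a2 : γ * (1 - 1 / 2) = 11 / 10 := by rw [hγ]; norm_num
  have a3 : γ * (1 - 0) = γ := by ring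
  have a4 : γ * (1 - 1) = 0 := by ring
  have a5 : γ * 0 = 0 := by ring
  have a6 : γ * 1 = γ := by ring
  rw [a1, a2, a3, a4, a5, a6, Real.sin_zero, Real.cos_zero, hS, hC, hK, hh]
  set s := Real.sin (11 / 10) with hs
  set c := Real.cos (11 / 10) with hcc
  rw [abs_le] at hcos hsin
  have hs1 : 0.891206 ≤ s := by linarith [hsin.1]
  have hs2 : s ≤ 0.891209 := by linarith [hsin.2]
  have hspos : 0 < s := by linarith
  rw [hγ]
  have key : (10 : ℝ) * (121 / 100 + 11 / 10 * s * c + 30 / 11 * s + c - 2 + 2 * s ^ 2 -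
      20 / 11 * s * c) ≤ 1.0678 * 4 * s ^ 2 * 10 := by
    have hcs : s ^ 2 + c ^ 2 = 1 := Real.sin_sq_add_cos_sq _
    nlinarith [hcos.1, hcos.2, hsin.1, hsin.2, mul_nonneg (sub_nonneg.2 hcos.1) (sub_nonneg.2 hsin.1),
      mul_nonneg (sub_nonneg.2 hcos.2) (sub_nonneg.2 hsin.1),
      mul_nonneg (sub_nonneg.2 hcos.1) (sub_nonneg.2 hsin.2),
      mul_nonneg (sub_nonneg.2 hcos.2) (sub_nonneg.2 hsin.2),
      mul_nonneg (sub_nonneg.2 hsin.1) (sub_nonneg.2 hsin.2),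
      sq_nonneg (s - 0.8912073)]
  have hfin : ((1 - 0) * 1 + 2 * s * c / (11 / 5)) * ((11 / 5 / (2 * s)) ^ 2 / 2) / 2 +
      2 * (2 * ((11 / 5 / (2 * s)) ^ 2 / 2) *
        (1 / 2 * (1 - 1 / 2) * s / (11 / 5) + (1 - 2 * (1 / 2)) * c / (11 / 5) ^ 2 +
          2 * s / (11 / 5) ^ 3 + 1 / 2 * c / (11 / 5) ^ 2 + s / (11 / 5) ^ 3 -
          (0 * (1 - 0) * 0 / (11 / 5) + (1 - 2 * 0) * 1 / (11 / 5) ^ 2 +
            2 * 0 / (11 / 5) ^ 3 + 0 * (1 - 2 * s ^ 2) / (11 / 5) ^ 2 +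
            2 * s * c / (11 / 5) ^ 3)) +
        (11 / 5 / (2 * s)) ^ 2 / 2 *
        ((1 - 1) * (2 * s * c) / (11 / 5) - (1 - 2 * s ^ 2) / (11 / 5) ^ 2 + 1 / (11 / 5) ^ 2 -
          ((1 - 1 / 2) * s / (11 / 5) - c / (11 / 5) ^ 2 + c / (11 / 5) ^ 2))) =
      (121 / 100 + 11 / 10 * s * c + 30 / 11 * s + c - 2 + 2 * s ^ 2 -
      20 / 11 * s * c) / (4 * s ^ 2) := by
    field_simp
    ring
  rw [hfin, div_le_iff₀ (by positivity)]
  linarith

end H385
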